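import Pool.Agent.H6.GS1

set_option autoImplicit false

namespace Pool.Agent.H6.Bk

open Pool.Agent.H6.SEM (card_I Ico_add)
open Pool.Agent.H6.GS (Ico_one Ico_r)

abbrev F := ℕ × ℕ
def ev (z : ℕ) (f : F) : ℕ := f.1 * z + f.2
def ad (f g : F) : F := (f.1 + g.1, f.2 + g.2)
lemma ev_ad (z : ℕ) (f g : F) : ev z (ad f g) = ev z f + ev z g := by unfold ev ad; ring
lemma ev_one (z : ℕ) : ev z (0, 1) = 1 := by simp [ev]

def I (z : ℕ) (T : List (F × F)) : Multiset ℕ :=
  (T.map fun p => Multiset.Ico (ev z p.1) (ev z p.1 + ev z p.2)).sum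

def chain : F → List (F × F) → F → Bool
  | lo, [], hi => decide (lo = hi)
  | lo, p :: T, hi => decide (p.1 = lo) && chain (ad p.1 p.2) T hi

lemma chain_I (z : ℕ) (hi : F) : ∀ (T : List (F × F)) (lo : F), chain lo T hi = true →
    I z T = Multiset.Ico (ev z lo) (ev z hi) ∧ ev z lo ≤ ev z hi
  | [], lo, h => by
    have : lo = hi := by simpa [chain] using h
    simp [I, this]
  | p :: T, lo, h => by
    simp only [chain, Bool.and_eq_true, decide_eq_true_eq] at h
    obtain ⟨h1, h2⟩ := chain_I z hi T _ h.2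
    rw [ev_ad] at h1 h2
    rw [← h.1]
    refine ⟨?_, by omega⟩
    unfold I at h1 ⊢
    rw [List.map_cons, List.sum_cons, h1, Ico_add _ _ _ (by omega) h2]

def chk (lo hi : F) (T : List (F × F)) : Bool :=
  chain lo (T.insertionSort fun p q => 1000 * p.1.1 + p.1.2 ≤ 1000 * q.1.1 + q.1.2) hi

lemma chk_I (z : ℕ) {lo hi : F} {T : List (F × F)} (h : chk lo hi T = true) :
    I z T = Multiset.Ico (ev z lo) (ev z hi) := by
  rw [← (chain_I z hi _ lo h).1]
  exact ((List.perm_insertionSort _ T).map _).sum_eq.symm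

def hb (x y : ℕ) : ℕ → List (ℕ × ℕ)
  | 0 => []
  | l + 1 => (x + l, y + l) :: hb x y l

lemma hb1 (a x y : ℕ) : ∀ l, (((hb x y l).map fun p => a + p.1 : List ℕ) : Multiset ℕ) =
    Multiset.Ico (a + x) (a + x + l)
  | 0 => by simp [hb]
  | l + 1 => by
    rw [hb, List.map_cons, ← Multiset.cons_coe, hb1 a x y l, ← add_assoc _ l, Ico_r _ _ (by omega),
      ← Multiset.singleton_add, add_comm, add_assoc a]

lemma hb2 (a x y : ℕ) : ∀ l, (((hb x y l).map fun p => a + p.2 : List ℕ) : Multiset ℕ) =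
    Multiset.Ico (a + y) (a + y + l)
  | 0 => by simp [hb]
  | l + 1 => by
    rw [hb, List.map_cons, ← Multiset.cons_coe, hb2 a x y l, ← add_assoc _ l, Ico_r _ _ (by omega),
      ← Multiset.singleton_add, add_comm, add_assoc a]

lemma hb3 (x y u v : ℕ) (h : u + v = x + y + 1) : ∀ l,
    (((hb x y l).map fun p => p.1 + p.2 : List ℕ) : Multiset ℕ) +
      ((hb u v l).map fun p => p.1 + p.2 : List ℕ) = Multiset.Ico (x + y) (x + y + (l + l))
  | 0 => by simp [hb]
  | l + 1 => by
    rw [hb, hb, List.map_cons, List.map_cons, ← Multiset.cons_coe, ← Multiset.cons_coe,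
      show x + y + (l + 1 + (l + 1)) = x + y + (l + l) + 1 + 1 by omega, Ico_r _ _ (by omega),
      Ico_r _ _ (by omega), ← hb3 x y u v h l, ← Multiset.singleton_add, ← Multiset.singleton_add,
      show (u + l, v + l).1 + (u + l, v + l).2 = x + y + (l + l) + 1 by simp only; omega,
      show (x + l, y + l).1 + (x + l, y + l).2 = x + y + (l + l) by simp only; omega]
    abel

abbrev B := F × F × F × F × F

def P0 (z : ℕ) : List (F × F) → List (ℕ × ℕ)
  | [] => []
  | s :: S => hb (ev z s.1) (ev z s.2) 1 ++ P0 z S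

def P (z : ℕ) : List B → List (F × F) → List (ℕ × ℕ)
  | [], S => P0 z S
  | b :: L, S => (hb (ev z b.1) (ev z b.2.1) (ev z b.2.2.2.2) ++
      hb (ev z b.2.2.1) (ev z b.2.2.2.1) (ev z b.2.2.2.2)) ++ P z L S

def LI0 : List (F × F) → List (F × F)
  | [] => []
  | s :: S => (s.1, (0, 1)) :: (s.2, (0, 1)) :: LI0 S

def LI : List B → List (F × F) → List (F × F)
  | [], S => LI0 S
  | b :: L, S => (b.1, b.2.2.2.2) :: (b.2.1, b.2.2.2.2) :: (b.2.2.1, b.2.2.2.2) ::
      (b.2.2.2.1, b.2.2.2.2) :: LI L S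

def SI0 (u v : F) : List (F × F) → List (F × F)
  | [] => []
  | s :: S => (ad u s.1, (0, 1)) :: (ad v s.2, (0, 1)) :: (ad s.1 s.2, (0, 1)) :: SI0 u v S

def SI (u v : F) : List B → List (F × F) → List (F × F)
  | [], S => SI0 u v S
  | b :: L, S => (ad u b.1, b.2.2.2.2) :: (ad v b.2.1, b.2.2.2.2) :: (ad u b.2.2.1, b.2.2.2.2) ::
      (ad v b.2.2.2.1, b.2.2.2.2) :: (ad b.1 b.2.1, ad b.2.2.2.2 b.2.2.2.2) :: SI u v L S

lemma LI0_eq (z : ℕ) : ∀ (S : List (F × F)),
    (((P0 z S).map fun p => 0 + p.1 : List ℕ) : Multiset ℕ) + ((P0 z S).map fun p => 0 + p.2 : List ℕ) =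
      I z (LI0 S)
  | [] => by simp [P0, LI0, I]
  | s :: S => by
    have := LI0_eq z S
    unfold I at this ⊢
    rw [P0, LI0]
    simp only [List.map_append, ← Multiset.coe_add, hb1, hb2, List.map_cons, List.sum_cons, ← this,
      ev_one, zero_add (ev _ _)]
    abel

lemma LI_eq (z : ℕ) : ∀ (L : List B) (S : List (F × F)),
    (((P z L S).map fun p => 0 + p.1 : List ℕ) : Multiset ℕ) + ((P z L S).map fun p => 0 + p.2 : List ℕ) =
      I z (LI L S)
  | [], S => LI0_eq z S
  | b :: L, S => by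
    have := LI_eq z L S
    unfold I at this ⊢
    rw [P, LI]
    simp only [List.map_append, ← Multiset.coe_add, hb1, hb2, List.map_cons, List.sum_cons, ← this,
      zero_add (ev _ _)]
    abel

lemma SI0_eq (z : ℕ) (u v : F) : ∀ (S : List (F × F)),
    (((P0 z S).map fun p => ev z u + p.1 : List ℕ) : Multiset ℕ) +
      ((P0 z S).map fun p => ev z v + p.2 : List ℕ) + ((P0 z S).map fun p => p.1 + p.2 : List ℕ) =
      I z (SI0 u v S)
  | [] => by simp [P0, SI0, I]
  | s :: S => by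
    have := SI0_eq z u v S
    have e : (((hb (ev z s.1) (ev z s.2) 1).map fun p => p.1 + p.2 : List ℕ) : Multiset ℕ) =
        Multiset.Ico (ev z s.1 + ev z s.2) (ev z s.1 + ev z s.2 + 1) := by simp [hb, Ico_one]
    unfold I at this ⊢
    rw [P0, SI0]
    simp only [List.map_append, ← Multiset.coe_add, hb1, hb2, e, List.map_cons, List.sum_cons,
      ← this, ev_one, ev_ad]
    abel

lemma SI_eq (z : ℕ) (u v : F) : ∀ (L : List B) (S : List (F × F)),
    (∀ b ∈ L, ad b.2.2.1 b.2.2.2.1 = ad (ad b.1 b.2.1) (0, 1)) →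
    (((P z L S).map fun p => ev z u + p.1 : List ℕ) : Multiset ℕ) +
      ((P z L S).map fun p => ev z v + p.2 : List ℕ) + ((P z L S).map fun p => p.1 + p.2 : List ℕ) =
      I z (SI u v L S)
  | [], S, _ => SI0_eq z u v S
  | b :: L, S, h => by
    have := SI_eq z u v L S fun c hc => h c (List.mem_cons_of_mem _ hc)
    have q := congrArg (ev z) (h b List.mem_cons_self)
    rw [ev_ad, ev_ad, ev_ad, ev_one] at q
    have e := hb3 _ _ _ _ q (ev z b.2.2.2.2)
    unfold I at this ⊢
    rw [P, SI]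
    simp only [List.map_append, ← Multiset.coe_add, hb1, hb2, List.map_cons, List.sum_cons,
      ← this, ev_ad, ← e]
    abel

def Good (n : ℕ) : Prop := ∃ (a b s : ℕ) (x y : Fin n → ℕ),
  {a} + ({b} + (Finset.univ.val.map x + Finset.univ.val.map y)) = Multiset.Ico 1 (2 * n + 3) ∧
  {a + b} + (Finset.univ.val.map (fun i => a + x i) + Finset.univ.val.map (fun i => b + y i) +
    Finset.univ.val.map (fun i => x i + y i)) = Multiset.Ico s (s + (3 * n + 1))

def Chk (n s u v : F) (L : List B) (S : List (F × F)) : Bool :=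
  chk (0, 1) (ad (ad n n) (0, 3)) ((u, (0, 1)) :: (v, (0, 1)) :: LI L S) &&
  chk s (ad s (ad (ad (ad n n) n) (0, 1))) ((ad u v, (0, 1)) :: SI u v L S) &&
  decide (∀ b ∈ L, ad b.2.2.1 b.2.2.2.1 = ad (ad b.1 b.2.1) (0, 1))

theorem key (z : ℕ) (n s u v : F) (L : List B) (S : List (F × F))
    (h : Chk n s u v L S = true) : Good (ev z n) := by
  simp only [Chk, Bool.and_eq_true, decide_eq_true_eq] at h
  have h1 := chk_I z h.1.1
  have h2 := chk_I z h.1.2
  have a1 := LI_eq z L S
  have a2 := SI_eq z u v L S h.2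
  unfold I at h1 h2 a1 a2
  simp only [List.map_cons, List.sum_cons, ← a1, ← a2, ev_ad, ev_one, Ico_one, zero_add,
    show ev z (0, 3) = 3 by simp [ev]] at h1 h2
  have hl : (P z L S).length = ev z n := by
    have := congrArg Multiset.card h1
    simp [card_I] at this
    omega
  rw [← hl] at h1 h2 ⊢
  refine ⟨ev z u, ev z v, ev z s, fun i => (P z L S)[i.1].1, fun i => (P z L S)[i.1].2, ?_, ?_⟩
  · simp only [Fin.univ_val_map]
    rw [List.ofFn_getElem_eq_map (P z L S) fun p => p.1, List.ofFn_getElem_eq_map (P z L S) fun p => p.2,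
      two_mul]
    exact h1
  · simp only [Fin.univ_val_map]
    rw [List.ofFn_getElem_eq_map (P z L S) fun p => ev z u + p.1,
      List.ofFn_getElem_eq_map (P z L S) fun p => ev z v + p.2,
      List.ofFn_getElem_eq_map (P z L S) fun p => p.1 + p.2, show ∀ m : ℕ, 3 * m = m + m + m by omega]
    exact h2

end Pool.Agent.H6.Bk
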