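import Pool.Agent.H6.Bk1

set_option autoImplicit false

namespace Pool.Agent.H6.Bk

lemma f0 : Chk (16, 53) (6, 23) (4, 15) (22, 74)
    [((2, 10), (12, 43), (14, 51), (0, 3), (2, 3)), ((4, 16), (20, 71), (6, 23), (18, 65), (1, 0)), ((5, 19), (21, 74), (7, 26), (19, 68), (1, 0)), ((8, 30), (28, 97), (26, 90), (10, 38), (2, 2)), ((16, 57), (30, 104), (24, 84), (22, 78), (2, 3))]
    [((2, 8), (12, 41)), ((2, 9), (22, 75)), ((4, 13), (14, 46)), ((4, 14), (6, 21)), ((5, 16), (19, 66)), ((5, 17), (21, 71)), ((5, 18), (19, 65)), ((6, 19), (30, 102)), ((6, 22), (12, 42)), ((7, 23), (21, 73)), ((7, 24), (19, 67)), ((7, 25), (21, 72)), ((8, 26), (10, 34)), ((8, 27), (18, 60)), ((8, 28), (0, 2)), ((8, 29), (28, 95)), ((10, 32), (30, 99)), ((10, 33), (30, 100)), ((10, 35), (0, 1)), ((10, 36), (32, 108)), ((10, 37), (14, 49)), ((14, 47), (30, 101)), ((14, 48), (18, 62)), ((14, 50), (22,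 76)), ((16, 54), (2, 7)), ((16, 55), (30, 103)), ((16, 56), (20, 69)), ((20, 70), (6, 20)), ((22, 77), (24, 82)), ((24, 83), (20, 68)), ((26, 87), (2, 6)), ((26, 88), (28, 93)), ((26, 89), (24, 81)), ((28, 92), (12, 40)), ((28, 94), (18, 63)), ((28, 96), (18, 64)), ((32, 107), (18, 61))] = true := by
  decide +kernel

lemma f1 : Chk (16, 77) (6, 32) (4, 21) (22, 107)
    [((6, 33), (18, 89), (24, 120), (0, 3), (1, 0)), ((7, 37), (19, 94), (25, 125), (1, 7), (1, 1)), ((4, 22), (10, 50), (2, 12), (12, 61), (2, 6)), ((8, 42), (28, 139), (14, 71), (22, 111), (2, 6)), ((26, 129), (20, 100), (16, 81), (30, 149), (2, 5))]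
    [((2, 11), (12, 60)), ((4, 18), (14, 67)), ((4, 19), (32, 156)), ((4, 20), (28, 136)), ((6, 28), (12, 56)), ((6, 29), (12, 57)), ((6, 30), (12, 58)), ((6, 31), (30, 147)), ((6, 32), (18, 88)), ((7, 33), (19, 89)), ((7, 34), (19, 90)), ((7, 35), (19, 91)), ((7, 36), (1, 6)), ((8, 38), (20, 95)), ((8, 39), (28, 137)), ((8, 40), (20, 98)), ((8, 41), (28, 138)), ((10, 48), (18, 87)), ((10, 49), (32, 155)), ((14, 68), (30, 145)), ((14, 69), (22, 108)), ((14, 70), (22, 110)), ((16, 77), (12, 59)), ((16, 78), (2, 9)), ((16, 79), (30, 146)), ((16, 80), (30, 148)), ((18, 86), (32, 154)), ((20, 97), (20, 96)), ((22, 106), (28, 135)), ((22, 109), (24, 117)), ((24, 118), (0, 1)), ((24, 119), (0, 2)), ((25, 120), (1, 3)), ((25, 121), (1, 4)), ((25, 122), (19, 92)), ((25, 123), (19, 93)), ((25, 124), (1, 5)), ((26, 126), (2, 8)), ((26, 127), (2, 10)), ((26, 128), (20, 99)), ((28, 134),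 (22, 105))] = true := by
  decide +kernel

lemma f2 : Chk (4, 16) (2, 11) (2, 10) (6, 25)
    [((0, 3), (6, 28), (2, 11), (4, 21), (1, 1)), ((3, 15), (5, 24), (1, 7), (7, 33), (1, 0))]
    [((0, 1), (4, 17)), ((0, 2), (4, 18)), ((1, 4), (7, 30)), ((1, 5), (5, 22)), ((1, 6), (7, 32)), ((2, 7), (8, 33)), ((2, 9), (6, 27)), ((3, 12), (7, 29)), ((3, 13), (7, 31)), ((3, 14), (5, 23)), ((4, 15), (6, 24)), ((4, 16), (8, 34)), ((4, 19), (6, 26)), ((4, 20), (2, 8))] = true := by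
  decide +kernel

lemma f3 : Chk (4, 18) (2, 12) (2, 11) (6, 28)
    [((0, 3), (6, 31), (2, 12), (4, 23), (1, 1)), ((1, 7), (7, 36), (3, 17), (5, 27), (1, 0))]
    [((0, 1), (4, 19)), ((0, 2), (4, 20)), ((1, 4), (7, 32)), ((1, 5), (5, 25)), ((1, 6), (7, 35)), ((2, 7), (8, 36)), ((2, 8), (8, 37)), ((2, 10), (6, 30)), ((3, 13), (7, 33)), ((3, 14), (5, 24)), ((3, 15), (7, 34)), ((3, 16), (5, 26)), ((4, 17), (6, 27)), ((4, 18), (8, 38)), ((4, 21), (6, 29)), ((4, 22), (2, 9))] = true := by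
  decide +kernel

lemma t5 : Chk (0, 5) (0, 5) (0, 3) (0, 8)
    []
    [((0, 2), (0, 11)), ((0, 4), (0, 12)), ((0, 5), (0, 1)), ((0, 7), (0, 10)), ((0, 9), (0, 6))] = true := by
  decide +kernel

lemma t6 : Chk (0, 6) (0, 6) (0, 5) (0, 10)
    []
    [((0, 1), (0, 12)), ((0, 2), (0, 8)), ((0, 3), (0, 11)), ((0, 4), (0, 13)), ((0, 6), (0, 14)), ((0, 7), (0, 9))] = true := by
  decide +kernel

lemma t8 : Chk (0, 8) (0, 7) (0, 5) (0, 14)
    []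
    [((0, 2), (0, 10)), ((0, 3), (0, 8)), ((0, 4), (0, 6)), ((0, 9), (0, 17)), ((0, 11), (0, 16)), ((0, 12), (0, 1)), ((0, 13), (0, 15)), ((0, 18), (0, 7))] = true := by
  decide +kernel

lemma t10 : Chk (0, 10) (0, 8) (0, 4) (0, 19)
    []
    [((0, 5), (0, 3)), ((0, 6), (0, 9)), ((0, 7), (0, 11)), ((0, 10), (0, 2)), ((0, 12), (0, 1)), ((0, 13), (0, 18)), ((0, 15), (0, 17)), ((0, 20), (0, 14)), ((0, 21), (0, 8)), ((0, 22), (0, 16))] = true := by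
  decide +kernel

lemma t12 : Chk (0, 12) (0, 9) (0, 6) (0, 21)
    []
    [((0, 3), (0, 22)), ((0, 4), (0, 8)), ((0, 5), (0, 16)), ((0, 7), (0, 19)), ((0, 9), (0, 15)), ((0, 10), (0, 23)), ((0, 11), (0, 24)), ((0, 12), (0, 18)), ((0, 13), (0, 1)), ((0, 14), (0, 20)), ((0, 25), (0, 17)), ((0, 26), (0, 2))] = true := by
  decide +kernel

lemma t13 : Chk (0, 13) (0, 8) (0, 5) (0, 19)
    []
    [((0, 4), (0, 21)), ((0, 6), (0, 17)), ((0, 7), (0, 1)), ((0, 8), (0, 2)), ((0, 9), (0, 24)), ((0, 10), (0, 28)), ((0, 11), (0, 15)), ((0, 12), (0, 20)), ((0, 13), (0, 16)), ((0, 14), (0, 27)), ((0, 22), (0, 23)), ((0, 25), (0, 3)), ((0, 26), (0, 18))] = true := by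
  decide +kernel

lemma t14 : Chk (0, 14) (0, 10) (0, 9) (0, 22)
    []
    [((0, 1), (0, 16)), ((0, 4), (0, 8)), ((0, 5), (0, 6)), ((0, 7), (0, 11)), ((0, 10), (0, 24)), ((0, 12), (0, 28)), ((0, 13), (0, 2)), ((0, 14), (0, 30)), ((0, 17), (0, 3)), ((0, 18), (0, 21)), ((0, 20), (0, 29)), ((0, 23), (0, 25)), ((0, 26), (0, 19)), ((0, 27), (0, 15))] = true := by
  decide +kernel

lemma t21 : Chk (0, 21) (0, 11) (0, 9) (0, 28)
    []
    [((0, 3), (0, 15)), ((0, 4), (0, 20)), ((0, 5), (0, 27)), ((0, 6), (0, 40)), ((0, 7), (0, 34)), ((0, 8), (0, 36)), ((0, 10), (0, 1)), ((0, 11), (0, 23)), ((0, 12), (0, 24)), ((0, 13), (0, 43)), ((0, 14), (0, 21)), ((0, 16), (0, 41)), ((0, 17), (0, 42)), ((0, 18), (0, 32)), ((0, 19), (0, 26)), ((0, 22), (0, 39)), ((0, 29), (0, 37)), ((0, 30), (0, 44)), ((0, 31), (0, 2)), ((0, 33), (0, 25)), ((0, 38), (0, 35))] = true := by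
  decide +kernel

lemma t29 : Chk (0, 29) (0, 14) (0, 7) (0, 43)
    []
    [((0, 9), (0, 34)), ((0, 10), (0, 42)), ((0, 11), (0, 4)), ((0, 12), (0, 2)), ((0, 13), (0, 40)), ((0, 14), (0, 46)), ((0, 15), (0, 54)), ((0, 16), (0, 38)), ((0, 17), (0, 41)), ((0, 18), (0, 39)), ((0, 19), (0, 53)), ((0, 20), (0, 50)), ((0, 21), (0, 55)), ((0, 22), (0, 37)), ((0, 23), (0, 45)), ((0, 24), (0, 51)), ((0, 25), (0, 49)), ((0, 26), (0, 30)), ((0, 27), (0, 44)), ((0, 28), (0, 58)), ((0, 29), (0, 36)), ((0, 31), (0, 47)), ((0, 32), (0, 5)), ((0, 33), (0, 8)), ((0, 35), (0, 56)), ((0, 48), (0, 52)), ((0, 57), (0, 6)), ((0, 59), (0, 3)), ((0, 60), (0, 1))] = true := by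
  decide +kernel

lemma t37 : Chk (0, 37) (0, 17) (0, 10) (0, 53)
    []
    [((0, 7), (0, 46)), ((0, 8), (0, 58)), ((0, 9), (0, 62)), ((0, 11), (0, 69)), ((0, 12), (0, 32)), ((0, 13), (0, 39)), ((0, 14), (0, 35)), ((0, 15), (0, 5)), ((0, 16), (0, 74)), ((0, 17), (0, 43)), ((0, 18), (0, 75)), ((0, 20), (0, 21)), ((0, 22), (0, 45)), ((0, 23), (0, 71)), ((0, 24), (0, 67)), ((0, 25), (0, 4)), ((0, 26), (0, 19)), ((0, 27), (0, 49)), ((0, 28), (0, 3)), ((0, 29), (0, 50)), ((0, 30), (0, 51)), ((0, 33), (0, 56)), ((0, 36), (0, 47)), ((0, 37), (0, 31)), ((0, 38), (0, 70)), ((0, 40), (0, 2)), ((0, 41), (0, 66)), ((0, 52), (0, 73)), ((0, 54), (0, 64)), ((0, 55), (0, 6)), ((0, 59), (0, 57)), ((0, 60), (0, 61)), ((0, 63), (0, 42)), ((0, 65), (0, 48)), ((0, 68), (0, 44)), ((0, 72), (0, 34)), ((0, 76), (0, 1))] = true := by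
  decide +kernel

lemma t45 : Chk (0, 45) (0, 20) (0, 13) (0, 63)
    [((0, 42), (0, 2), (0, 7), (0, 38), (0, 3)), ((0, 76), (0, 30), (0, 25), (0, 82), (0, 4)), ((0, 48), (0, 88), (0, 71), (0, 66), (0, 3))]
    [((0, 10), (0, 61)), ((0, 12), (0, 92)), ((0, 14), (0, 91)), ((0, 15), (0, 11)), ((0, 16), (0, 36)), ((0, 17), (0, 55)), ((0, 18), (0, 35)), ((0, 19), (0, 81)), ((0, 20), (0, 60)), ((0, 21), (0, 52)), ((0, 22), (0, 59)), ((0, 23), (0, 1)), ((0, 24), (0, 58)), ((0, 29), (0, 54)), ((0, 37), (0, 6)), ((0, 41), (0, 86)), ((0, 45), (0, 34)), ((0, 46), (0, 5)), ((0, 47), (0, 87)), ((0, 57), (0, 69)), ((0, 62), (0, 80)), ((0, 64), (0, 56)), ((0, 65), (0, 70)), ((0, 74), (0, 51)), ((0, 75), (0, 53))] = true := by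
  decide +kernel

lemma t61 : Chk (0, 61) (0, 26) (0, 16) (0, 86)
    [((0, 25), (0, 72), (0, 95), (0, 3), (0, 1)), ((0, 98), (0, 5), (0, 29), (0, 75), (0, 2)), ((0, 17), (0, 40), (0, 10), (0, 48), (0, 6)), ((0, 33), (0, 110), (0, 57), (0, 87), (0, 5)), ((0, 64), (0, 118), (0, 102), (0, 81), (0, 5))]
    [((0, 23), (0, 73)), ((0, 24), (0, 8)), ((0, 26), (0, 115)), ((0, 27), (0, 80)), ((0, 28), (0, 71)), ((0, 31), (0, 77)), ((0, 32), (0, 78)), ((0, 38), (0, 116)), ((0, 39), (0, 117)), ((0, 54), (0, 2)), ((0, 55), (0, 46)), ((0, 62), (0, 7)), ((0, 63), (0, 9)), ((0, 69), (0, 123)), ((0, 70), (0, 109)), ((0, 93), (0, 79)), ((0, 96), (0, 4)), ((0, 97), (0, 56)), ((0, 100), (0, 94)), ((0, 101), (0, 92)), ((0, 107), (0, 74)), ((0, 108), (0, 47)), ((0, 124), (0, 1))] = true := by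
  decide +kernel

theorem main (n : ℕ) (h5 : 5 ≤ n) (h : n % 2 = 0 ∨ n % 8 = 5) : Good n := by
  have : n = 5 ∨ n = 6 ∨ n = 8 ∨ n = 10 ∨ n = 12 ∨ n = 13 ∨ n = 14 ∨ n = 21 ∨ n = 29 ∨ n = 37 ∨ n = 45 ∨ n = 61 ∨ (53 ≤ n ∧ n % 16 = 5) ∨ (77 ≤ n ∧ n % 16 = 13) ∨ (16 ≤ n ∧ n % 4 = 0) ∨ (18 ≤ n ∧ n % 4 = 2) := by omega
  rcases this with rfl | rfl | rfl | rfl | rfl | rfl | rfl | rfl | rfl | rfl | rfl | rfl | c | c | c | c
  · exact key 0 _ _ _ _ _ _ t5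
  · exact key 0 _ _ _ _ _ _ t6
  · exact key 0 _ _ _ _ _ _ t8
  · exact key 0 _ _ _ _ _ _ t10
  · exact key 0 _ _ _ _ _ _ t12
  · exact key 0 _ _ _ _ _ _ t13
  · exact key 0 _ _ _ _ _ _ t14
  · exact key 0 _ _ _ _ _ _ t21
  · exact key 0 _ _ _ _ _ _ t29
  · exact key 0 _ _ _ _ _ _ t37
  · exact key 0 _ _ _ _ _ _ t45
  · exact key 0 _ _ _ _ _ _ t61
  · have := key ((n - 53) / 16) _ _ _ _ _ _ f0
    rwa [show ev ((n - 53) / 16) (16, 53) = n by simp only [ev]; omega] at this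
  · have := key ((n - 77) / 16) _ _ _ _ _ _ f1
    rwa [show ev ((n - 77) / 16) (16, 77) = n by simp only [ev]; omega] at this
  · have := key ((n - 16) / 4) _ _ _ _ _ _ f2
    rwa [show ev ((n - 16) / 4) (4, 16) = n by simp only [ev]; omega] at this
  · have := key ((n - 18) / 4) _ _ _ _ _ _ f3
    rwa [show ev ((n - 18) / 4) (4, 18) = n by simp only [ev]; omega] at this

end Pool.Agent.H6.Bk
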