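import Mathlib

set_option autoImplicit false

namespace Pool.Agent.H6.Borg

open Filter Topology Complex

def GoodA (s t : ℝ) : Prop := ∃ x y z w : ℂ, x * (s - (x + y)) = 1 ∧ z * (s - (x + x)) = 1 ∧
  w * (t - (w + z)) = 1 ∧ y * (t - (w + w)) = 1 ∧ 0 < x.im ∧ 0 < y.im ∧ 0 < z.im ∧ 0 < w.im

def GoodB (s t : ℝ) : Prop := ∃ x y z w σ : ℝ, x * (s - (x + y)) = 1 ∧ z * (s - (x + x)) = 1 ∧
  w * (t - (w + z)) = 1 ∧ y * (t - (w + w)) = 1 ∧ σ ^ 2 = 1 ∧
  0 < σ * x ∧ 0 < σ * y ∧ 0 < σ * z ∧ 0 < σ * w ∧ x ^ 2 ≤ 1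

noncomputable def P (s t x : ℂ) : ℂ :=
  4 * (s * x - x ^ 2 - 1) ^ 2 * (s - 2 * x) + (t * (s * x - x ^ 2 - 1) - x) ^ 2 * (s - 2 * x)
    + 2 * (s * x - x ^ 2 - 1) * (t * (s * x - x ^ 2 - 1) - x)
    - 2 * t * (s * x - x ^ 2 - 1) * (t * (s * x - x ^ 2 - 1) - x) * (s - 2 * x)

lemma im_eq {a u : ℂ} {r : ℝ} (h : a * (r - u) = 1) : a.im = normSq a * u.im := by
  have h1 := congrArg Complex.re h
  have h2 := congrArg Complex.im h
  simp only [mul_re, mul_im, sub_re, sub_im, ofReal_re, ofReal_im, one_re, one_im] at h1 h2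
  rw [normSq_apply]
  linear_combination a.re * h2 - a.im * h1

lemma P_ne (e : ℝ) : ∃ x : ℂ, P e e x ≠ 0 := by
  by_contra h
  push Not at h
  have h0 : (6 * e - e ^ 3 : ℝ) = 0 := by
    have := h 0
    simp only [P] at this
    exact_mod_cast (by linear_combination this : (6 * e - e ^ 3 : ℂ) = 0)
  have h1 : P e e 1 = 0 := h 1
  have h2 : P e e (-1) = 0 := h (-1)
  have h3 : (6 * e ^ 4 - 24 * e ^ 2 - 30 : ℝ) = 0 := by
    simp only [P] at h1 h2
    exact_mod_cast (by linear_combination (1 / 2 : ℂ) * h1 - (1 / 2 : ℂ) * h2 :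
      (6 * e ^ 4 - 24 * e ^ 2 - 30 : ℂ) = 0)
  have h4 : e * (6 - e ^ 2) = 0 := by linear_combination h0
  rcases mul_eq_zero.1 h4 with h5 | h5
  · rw [h5] at h3; norm_num at h3
  · have h6 : e ^ 2 = 6 := by linarith
    have h7 : e ^ 4 = 36 := by nlinarith
    rw [h6, h7] at h3; norm_num at h3

lemma exists_m (e : ℝ) : ∃ m : ℂ, 2 * m ^ 2 - e * m + 1 = 0 ∧ ‖m‖ < 1 := by
  obtain ⟨r, hr⟩ := IsAlgClosed.exists_eq_mul_self ((e : ℂ) ^ 2 - 8)
  have h1 : ((e + r) / 4 : ℂ) * ((e - r) / 4) = 1 / 2 := by linear_combination (1 / 16 : ℂ) * hr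
  have h2 := congrArg norm h1
  rw [norm_mul] at h2
  have h3 : ‖(1 / 2 : ℂ)‖ = 1 / 2 := by simp
  rw [h3] at h2
  by_cases h : ‖((e + r) / 4 : ℂ)‖ < 1
  · exact ⟨_, by linear_combination (-1 / 8 : ℂ) * hr, h⟩
  · refine ⟨(e - r) / 4, by linear_combination (-1 / 8 : ℂ) * hr, ?_⟩
    push Not at h
    nlinarith [norm_nonneg ((e - r) / 4 : ℂ)]

noncomputable def yy (s x : ℂ) : ℂ := s - x - x⁻¹
noncomputable def ww (s t x : ℂ) : ℂ := (t - (yy s x)⁻¹) / 2
noncomputable def zz (s x : ℂ) : ℂ := (s - 2 * x)⁻¹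

def N (σ s t : ℝ) (x : ℂ) : Prop := x ≠ 0 ∧ ‖x‖ < 1 ∧ yy s x ≠ 0 ∧ ww s t x ≠ 0 ∧ (s : ℂ) - 2 * x ≠ 0 ∧
  (x.im = 0 → 0 < σ * x.re ∧ 0 < σ * (yy s x).re ∧ 0 < σ * (zz s x).re ∧ 0 < σ * (ww s t x).re)

lemma good_of {σ s t : ℝ} (hσ : σ ^ 2 = 1) {x : ℂ} (h : N σ s t x) (hP : P s t x = 0) :
    GoodA s t ∨ GoodB s t := by
  obtain ⟨hx, hx1, hy, hw, hz, hr⟩ := h
  have e1 : x * (s - (x + yy s x)) = 1 := by unfold yy; field_simp; ring
  have e2 : zz s x * (s - (x + x)) = 1 := by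
    unfold zz; rw [← two_mul]; exact inv_mul_cancel₀ hz
  have e4 : yy s x * (t - (ww s t x + ww s t x)) = 1 := by unfold ww; field_simp; ring
  have e3 : ww s t x * (t - (ww s t x + zz s x)) = 1 := by
    have a1 : (s : ℂ) * x - x ^ 2 - 1 = x * yy s x := by linear_combination e1
    have a2 : (t : ℂ) * (x * yy s x) - x = 2 * x * yy s x * ww s t x := by linear_combination x * e4
    unfold P at hP
    rw [a1, a2] at hP
    have a3 : 4 * (x * yy s x) ^ 2 * ((s : ℂ) - 2 * x) ≠ 0 :=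
      mul_ne_zero (mul_ne_zero (by norm_num) (pow_ne_zero _ (mul_ne_zero hx hy))) hz
    refine mul_left_cancel₀ a3 ?_
    linear_combination (-1 : ℂ) * hP - 4 * (x * yy s x) ^ 2 * ww s t x * e2
  have hz0 : zz s x ≠ 0 := inv_ne_zero hz
  generalize yy s x = y at *
  generalize zz s x = z at *
  generalize ww s t x = w at *
  have i1 := im_eq e1
  have i2 := im_eq e2
  have i4 := im_eq e4
  simp only [add_im] at i1 i2 i4
  have n1 : 0 < normSq x := normSq_pos.2 hx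
  have n1' : normSq x < 1 := by
    rw [normSq_eq_norm_sq]; nlinarith [norm_nonneg x]
  have n2 : 0 < normSq z := normSq_pos.2 hz0
  have n4 : 0 < normSq y := normSq_pos.2 hy
  rcases lt_trichotomy x.im 0 with h | h | h
  · left
    have b1 : y.im < 0 := by by_contra hh; push Not at hh; nlinarith
    have b2 : z.im < 0 := by nlinarith
    have b3 : w.im < 0 := by by_contra hh; push Not at hh; nlinarith
    refine ⟨(starRingEnd ℂ) x, (starRingEnd ℂ) y, (starRingEnd ℂ) z, (starRingEnd ℂ) w,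
      ?_, ?_, ?_, ?_, by simpa using h, by simpa using b1, by simpa using b2, by simpa using b3⟩
    · simpa using congrArg (starRingEnd ℂ) e1
    · simpa using congrArg (starRingEnd ℂ) e2
    · simpa using congrArg (starRingEnd ℂ) e3
    · simpa using congrArg (starRingEnd ℂ) e4
  · right
    have b1 : y.im = 0 := by
      rw [h] at i1
      have : normSq x * y.im = 0 := by linarith
      exact (mul_eq_zero.1 this).resolve_left n1.ne'
    have b2 : z.im = 0 := by rw [i2, h]; simp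
    have b3 : w.im = 0 := by
      rw [b1] at i4
      have : normSq y * w.im = 0 := by linarith
      exact (mul_eq_zero.1 this).resolve_left n4.ne'
    obtain ⟨c1, c2, c3, c4⟩ := hr h
    refine ⟨x.re, y.re, z.re, w.re, σ, ?_, ?_, ?_, ?_, hσ, c1, c2, c3, c4, ?_⟩
    · simpa [h, b1, b2, b3] using congrArg Complex.re e1
    · simpa [h, b1, b2, b3] using congrArg Complex.re e2
    · simpa [h, b1, b2, b3] using congrArg Complex.re e3
    · simpa [h, b1, b2, b3] using congrArg Complex.re e4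
    · rw [normSq_apply, h] at n1'
      nlinarith
  · left
    have b1 : 0 < y.im := by by_contra hh; push Not at hh; nlinarith
    have b2 : 0 < z.im := by nlinarith
    have b3 : 0 < w.im := by by_contra hh; push Not at hh; nlinarith
    exact ⟨x, y, z, w, e1, e2, e3, e4, h, b1, b2, b3⟩

lemma local_good (E0 : ℝ) :
    ∀ᶠ p : ℝ × ℝ in 𝓝 (0, E0), GoodA (p.1 - p.2) (-p.1 - p.2) ∨ GoodB (p.1 - p.2) (-p.1 - p.2) := by
  obtain ⟨m, hm, hm1⟩ := exists_m (-E0)
  have hm0 : m ≠ 0 := by rintro rfl; simp at hm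
  have hσ : ∃ σ : ℝ, σ ^ 2 = 1 ∧ (m.im = 0 → 0 < σ * m.re) := by
    rcases lt_trichotomy m.re 0 with h | h | h
    · exact ⟨-1, by norm_num, fun _ => by linarith⟩
    · exact ⟨1, by norm_num, fun h' => absurd (Complex.ext h h') hm0⟩
    · exact ⟨1, by norm_num, fun _ => by linarith⟩
  obtain ⟨σ, hσ1, hσ2⟩ := hσ
  let s : (ℝ × ℝ) × ℂ → ℂ := fun q => ((q.1.1 - q.1.2 : ℝ) : ℂ)
  let t : (ℝ × ℝ) × ℂ → ℂ := fun q => ((-q.1.1 - q.1.2 : ℝ) : ℂ)
  have hs : Continuous s := by fun_prop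
  have ht : Continuous t := by fun_prop
  let q0 : (ℝ × ℝ) × ℂ := ((0, E0), m)
  have hs0 : s q0 = ((-E0 : ℝ) : ℂ) := by simp [s, q0]
  have ht0 : t q0 = ((-E0 : ℝ) : ℂ) := by simp [t, q0]
  have y0 : yy (s q0) q0.2 = m := by
    rw [hs0]; unfold yy; simp only [q0]; field_simp; linear_combination -hm
  have Z0 : s q0 - 2 * q0.2 = m⁻¹ := by
    rw [hs0]; simp only [q0]; field_simp; linear_combination -hm
  have z0 : zz (s q0) q0.2 = m := by unfold zz; rw [Z0, inv_inv]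
  have w0 : ww (s q0) (t q0) q0.2 = m := by
    unfold ww; rw [y0, ht0]; field_simp; linear_combination -hm
  have cx : ContinuousAt (fun q : (ℝ × ℝ) × ℂ => q.2) q0 := continuousAt_snd
  have cy : ContinuousAt (fun q => yy (s q) q.2) q0 :=
    (hs.continuousAt.sub cx).sub (cx.inv₀ hm0)
  have cZ : ContinuousAt (fun q => s q - 2 * q.2) q0 := by fun_prop
  have cz : ContinuousAt (fun q => zz (s q) q.2) q0 := cZ.inv₀ (by rw [Z0]; exact inv_ne_zero hm0)
  have cw : ContinuousAt (fun q => ww (s q) (t q) q.2) q0 :=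
    (ht.continuousAt.sub (cy.inv₀ (by rw [y0]; exact hm0))).div_const 2
  have hN : ∀ᶠ q : (ℝ × ℝ) × ℂ in 𝓝 q0, N σ (q.1.1 - q.1.2) (-q.1.1 - q.1.2) q.2 := by
    have a1 := cx.eventually_ne hm0
    have a2 := cx.norm.eventually_lt continuousAt_const hm1
    have a3 := cy.eventually_ne (y := 0) (by rw [y0]; exact hm0)
    have a4 := cw.eventually_ne (y := 0) (by rw [w0]; exact hm0)
    have a5 := cZ.eventually_ne (y := 0) (by rw [Z0]; exact inv_ne_zero hm0)
    by_cases him : m.im = 0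
    · have hp := hσ2 him
      have key : ∀ f : (ℝ × ℝ) × ℂ → ℂ, ContinuousAt f q0 → f q0 = m →
          ∀ᶠ q in 𝓝 q0, 0 < σ * (f q).re := by
        intro f hf h0
        exact continuousAt_const.eventually_lt
          (continuousAt_const.mul (continuous_re.continuousAt.comp hf))
          (by simpa [h0] using hp)
      filter_upwards [a1, a2, a3, a4, a5, key _ cx rfl, key _ cy y0, key _ cz z0, key _ cw w0]
        with q b1 b2 b3 b4 b5 b6 b7 b8 b9
      exact ⟨b1, b2, b3, b4, b5, fun _ => ⟨b6, b7, b8, b9⟩⟩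
    · have a6 := (continuous_im.continuousAt.comp cx).eventually_ne him
      filter_upwards [a1, a2, a3, a4, a5, a6] with q b1 b2 b3 b4 b5 b6
      exact ⟨b1, b2, b3, b4, b5, fun h => absurd h b6⟩
  have hdiff : ∀ a b : ℂ, Differentiable ℂ (P a b) := by intro a b; unfold P; fun_prop
  have hiso : ∀ᶠ x in 𝓝[≠] m, P ((-E0 : ℝ) : ℂ) ((-E0 : ℝ) : ℂ) x ≠ 0 := by
    have han : AnalyticOnNhd ℂ (P ((-E0 : ℝ) : ℂ) ((-E0 : ℝ) : ℂ)) Set.univ :=
      (hdiff _ _).differentiableOn.analyticOnNhd isOpen_univ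
    rcases (han m trivial).eventually_eq_zero_or_eventually_ne_zero with h | h
    · obtain ⟨x, hx⟩ := P_ne (-E0)
      exact absurd (han.eqOn_zero_of_preconnected_of_eventuallyEq_zero isPreconnected_univ
        (Set.mem_univ m) h (Set.mem_univ x)) hx
    · exact h
  rw [nhds_prod_eq] at hN
  obtain ⟨pa, hpa, pb, hpb, hab⟩ := eventually_prod_iff.1 hN
  rw [eventually_nhdsWithin_iff] at hiso
  obtain ⟨r, hr, hball⟩ := Metric.nhds_basis_closedBall.eventually_iff.1 (hpb.and hiso)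
  have hPc : Continuous fun q : (ℝ × ℝ) × ℂ => P (s q) (t q) q.2 := by unfold P; fun_prop
  have hP0 : P ((-E0 : ℝ) : ℂ) ((-E0 : ℝ) : ℂ) m = 0 := by
    have a1 : ((-E0 : ℝ) : ℂ) = (2 * m ^ 2 + 1) / m := by field_simp; linear_combination -hm
    rw [a1]; unfold P; field_simp; ring
  have hsph : ∀ᶠ p : ℝ × ℝ in 𝓝 (0, E0), ∀ x ∈ Metric.sphere m r,
      ‖P (s (p, m)) (t (p, m)) m‖ < ‖P (s (p, x)) (t (p, x)) x‖ := by
    refine (isCompact_sphere m r).eventually_forall_of_forall_eventually fun x hx => ?_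
    have c1 : Continuous fun q : (ℝ × ℝ) × ℂ => ‖P (s (q.1, m)) (t (q.1, m)) m‖ :=
      (hPc.comp (continuous_fst.prodMk continuous_const)).norm
    refine c1.continuousAt.eventually_lt hPc.norm.continuousAt ?_
    have hne : x ≠ m := by
      rintro rfl
      simp at hx
      exact hr.ne hx
    have := (hball (Metric.sphere_subset_closedBall hx)).2 hne
    change ‖P (s q0) (t q0) m‖ < ‖P (s q0) (t q0) x‖
    rw [hs0, ht0, hP0, norm_zero]
    exact norm_pos_iff.2 this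
  filter_upwards [hpa, hsph] with p hp1 hp2
  have hz : ∃ x ∈ Metric.closedBall m r, P (s (p, m)) (t (p, m)) x = 0 := by
    by_contra hc
    push Not at hc
    obtain ⟨x0, hx0, hmin⟩ := (isCompact_sphere m r).exists_isMinOn
      (NormedSpace.sphere_nonempty.2 hr.le)
      (f := fun x => ‖P (s (p, m)) (t (p, m)) x‖) (hdiff _ _).continuous.norm.continuousOn
    have hd : DiffContOnCl ℂ (fun x => (P (s (p, m)) (t (p, m)) x)⁻¹) (Metric.ball m r) := by
      refine DifferentiableOn.diffContOnCl ?_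
      rw [closure_ball m hr.ne']
      exact (hdiff _ _).differentiableOn.inv hc
    have h1 := Complex.norm_le_of_forall_mem_frontier_norm_le Metric.isBounded_ball hd
      (C := ‖P (s (p, m)) (t (p, m)) x0‖⁻¹) (z := m) (by
        intro x hx
        rw [frontier_ball m hr.ne'] at hx
        rw [norm_inv]
        exact inv_anti₀ (norm_pos_iff.2 (hc x0 (Metric.sphere_subset_closedBall hx0))) (hmin hx))
      (subset_closure (Metric.mem_ball_self hr))
    rw [norm_inv] at h1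
    have h2 := hp2 x0 hx0
    have h3 := norm_pos_iff.2 (hc m (Metric.mem_closedBall_self hr.le))
    exact absurd (inv_strictAnti₀ h3 h2) (not_lt.2 h1)
  obtain ⟨x, hx, hPx⟩ := hz
  exact good_of hσ1 (hab hp1 (hball hx).1) hPx

theorem exists_beta (R : ℝ) : ∃ β : ℝ, 0 < β ∧ β < 1 ∧ ∀ E ∈ Set.Icc (-R) R,
    GoodA (β - E) (-β - E) ∨ GoodB (β - E) (-β - E) := by
  have h := (isCompact_Icc (a := -R) (b := R)).eventually_forall_of_forall_eventually
    (x₀ := (0 : ℝ)) (P := fun β E => GoodA (β - E) (-β - E) ∨ GoodB (β - E) (-β - E))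
    fun E _ => local_good E
  have h2 : ∀ᶠ β in 𝓝[>] (0 : ℝ), β ∈ Set.Ioo (0 : ℝ) 1 := Ioo_mem_nhdsGT one_pos
  obtain ⟨β, h3, h4⟩ := (h2.and (nhdsWithin_le_nhds h)).exists
  exact ⟨β, h3.1, h3.2, h4⟩

end Pool.Agent.H6.Borg
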