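import Pool.Agent.H6.BorgA

set_option autoImplicit false

namespace Pool.Agent.H6.Borg

open Filter Topology Complex
open scoped ENNReal InnerProductSpace

abbrev D := Bool × Fin 3

def src (d : D) : Bool := d.1

def rev (d : D) : D := if d.2 = 0 then (d.1, 1) else if d.2 = 1 then (d.1, 0) else (!d.1, 2)

def R (d e : D) : Prop := src e = src (rev d) ∧ e ≠ rev d

instance (d e : D) : Decidable (R d e) := by unfold R; infer_instance

def S : Set (List D) := {l | (∀ d ∈ l.head?, src d = true) ∧ l.IsChain R}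

def ok : Option D → D → Prop
  | none, d => src d = true
  | some e, d => R e d

instance : ∀ (o : Option D) (d : D), Decidable (ok o d)
  | none, d => inferInstanceAs (Decidable (src d = true))
  | some e, d => inferInstanceAs (Decidable (R e d))

lemma snoc_mem (l : List D) (d : D) : l ++ [d] ∈ S ↔ l ∈ S ∧ ok l.getLast? d := by
  rcases l with _ | ⟨a, l⟩
  · simp [S, ok, -Prod.forall]
  · have h : (a :: l).getLast? = some ((a :: l).getLast (by simp)) := List.getLast?_eq_some_getLast _
    simp only [S, Set.mem_ofPred_eq, List.isChain_append, h, ok]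
    simp [and_assoc]

lemma nil_mem : [] ∈ S := by simp [S]

lemma dropLast_mem {l : List D} (h : l ∈ S) : l.dropLast ∈ S := by
  rcases List.eq_nil_or_concat' l with rfl | ⟨l', d, rfl⟩
  · exact nil_mem
  · rw [List.dropLast_concat]; exact ((snoc_mem _ _).1 h).1

def root : S := ⟨[], nil_mem⟩

def par (x : S) : S := ⟨x.1.dropLast, dropLast_mem x.2⟩

lemma tsumE (g : List D → ℝ≥0∞) : ∑' y : S, g y =
    g [] + ∑' x : S, ∑ d, if ok x.1.getLast? d then g (x.1 ++ [d]) else 0 := by
  classical
  rw [ENNReal.tsum_eq_add_tsum_ite root]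
  congr 1
  have e1 : (∑' x : S, ∑ d, if ok x.1.getLast? d then g (x.1 ++ [d]) else 0)
      = ∑' p : S × D, if ok p.1.1.getLast? p.2 then g (p.1.1 ++ [p.2]) else 0 := by
    rw [ENNReal.tsum_prod']
    simp only [tsum_fintype]
  rw [e1]
  have hok : ∀ p : Function.support
      (fun p : S × D => if ok p.1.1.getLast? p.2 then g (p.1.1 ++ [p.2]) else 0),
      ok p.1.1.1.getLast? p.1.2 := by
    intro p
    by_contra h
    exact p.2 (if_neg h)
  refine tsum_eq_tsum_of_ne_zero_bij
    (fun p => ⟨p.1.1.1 ++ [p.1.2], (snoc_mem _ _).2 ⟨p.1.1.2, hok p⟩⟩) ?_ ?_ ?_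
  · intro p q h
    have h1 := List.append_inj' (congrArg Subtype.val h) rfl
    exact Subtype.ext (Prod.ext (Subtype.ext h1.1) (by simpa using h1.2))
  · rintro ⟨l, hl⟩ hy
    rcases List.eq_nil_or_concat' l with rfl | ⟨l', d, rfl⟩
    · exact absurd (if_pos rfl) hy
    · have h1 := (snoc_mem _ _).1 hl
      refine ⟨⟨(⟨l', h1.1⟩, d), ?_⟩, rfl⟩
      intro h2
      simp only [if_pos h1.2] at h2
      exact hy (by simp [h2])
  · intro p
    rw [if_pos (hok p), if_neg]
    intro h
    simpa [root] using congrArg Subtype.val h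

lemma tsumR (g : List D → ℝ) (hg : ∀ l, 0 ≤ g l) (h : S → ℝ)
    (hh : ∀ x : S, h x = ∑ d, if ok x.1.getLast? d then g (x.1 ++ [d]) else 0) (hs : Summable h) :
    HasSum (fun y : S => g y) (g [] + ∑' x, h x) := by
  have h0 : ∀ x, 0 ≤ h x := fun x => by
    rw [hh]; exact Finset.sum_nonneg fun d _ => by split_ifs; exacts [hg _, le_rfl]
  have e1 : ∑' y : S, ENNReal.ofReal (g y) = ENNReal.ofReal (g [] + ∑' x, h x) := by
    rw [tsumE (fun l => ENNReal.ofReal (g l)), ENNReal.ofReal_add (hg _) (tsum_nonneg h0),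
      ENNReal.ofReal_tsum_of_nonneg h0 hs]
    congr 2
    funext x
    rw [hh, ENNReal.ofReal_sum_of_nonneg (fun d _ => by split_ifs; exacts [hg _, le_rfl])]
    refine Finset.sum_congr rfl fun d _ => ?_
    split_ifs <;> simp
  have e2 : Summable fun y : S => g y := by
    have := ENNReal.summable_toReal (f := fun y : S => ENNReal.ofReal (g y))
      (by rw [e1]; exact ENNReal.ofReal_ne_top)
    simpa only [ENNReal.toReal_ofReal (hg _)] using this
  rw [← ENNReal.ofReal_tsum_of_nonneg (fun y => hg _) e2,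
    ENNReal.ofReal_eq_ofReal_iff (tsum_nonneg fun y => hg _)
      (add_nonneg (hg _) (tsum_nonneg h0))] at e1
  rw [← e1]
  exact e2.hasSum

noncomputable abbrev L := lp (fun _ : S => ℂ) 2

lemma hasSum_sq (f : L) : HasSum (fun x => ‖f x‖ ^ 2) (‖f‖ ^ 2) := by
  have := lp.hasSum_norm (p := 2) (by norm_num) f
  simpa using this

lemma mem_of {g : S → ℂ} (h : Summable fun x => ‖g x‖ ^ 2) : Memℓp g 2 :=
  memℓp_gen (by simpa using h)

open Classical in
noncomputable def ext (f : S → ℂ) (l : List D) : ℂ := if h : l ∈ S then f ⟨l, h⟩ else 0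

lemma ext_coe (f : S → ℂ) (x : S) : ext f x.1 = f x := dif_pos x.2

noncomputable def Uf (f : S → ℂ) (y : S) : ℂ := if y.1 = [] then 0 else f (par y)

lemma U_hasSum (f : L) : ∃ c, HasSum (fun y => ‖Uf f y‖ ^ 2) c ∧ c ≤ 6 * ‖f‖ ^ 2 := by
  let g : List D → ℝ := fun l => if l = [] then 0 else ‖ext f l.dropLast‖ ^ 2
  let h : S → ℝ := fun x => ∑ d, if ok x.1.getLast? d then g (x.1 ++ [d]) else 0
  have hg : ∀ l, 0 ≤ g l := fun l => by simp only [g]; split_ifs <;> positivity
  have h0 : ∀ x, 0 ≤ h x := fun x =>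
    Finset.sum_nonneg fun d _ => by split_ifs; exacts [hg _, le_rfl]
  have h1 : ∀ x, h x ≤ 6 * ‖f x‖ ^ 2 := by
    intro x
    have := Finset.sum_le_card_nsmul Finset.univ
      (fun d => if ok x.1.getLast? d then g (x.1 ++ [d]) else 0) (‖f x‖ ^ 2) (by
        intro d _
        split_ifs
        · simp [g, ext_coe]
        · positivity)
    simpa using this
  have hs6 := (hasSum_sq f).mul_left 6
  have hs : Summable h := Summable.of_nonneg_of_le h0 h1 hs6.summable
  refine ⟨g [] + ∑' x, h x, ?_, ?_⟩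
  · convert tsumR g hg h (fun _ => rfl) hs using 2 with y
    simp only [Uf, g]
    split_ifs
    · simp
    · exact congrArg (fun z => ‖z‖ ^ 2) (ext_coe f (par y)).symm
  · simp only [g, if_true, zero_add]
    exact hasSum_le h1 hs.hasSum hs6

noncomputable def U : L →L[ℂ] L :=
  LinearMap.mkContinuous
    { toFun := fun f => ⟨Uf f, mem_of (U_hasSum f).choose_spec.1.summable⟩
      map_add' := by
        intro f g; ext y
        simp only [Uf, lp.coeFn_add, Pi.add_apply]
        split_ifs <;> simp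
      map_smul' := by
        intro c f; ext y
        simp only [Uf, lp.coeFn_smul, Pi.smul_apply, RingHom.id_apply]
        split_ifs <;> simp } 3 (by
    intro f
    obtain ⟨c, h1, h2⟩ := U_hasSum f
    refine abs_le_of_sq_le_sq' ?_ (by positivity) |>.2
    have h3 := (hasSum_sq ⟨Uf f, mem_of (U_hasSum f).choose_spec.1.summable⟩).unique h1
    simp only [LinearMap.coe_mk, AddHom.coe_mk]
    rw [h3]
    nlinarith [sq_nonneg ‖f‖])

lemma U_apply (f : L) (y : S) : U f y = Uf f y := rfl

def vert (o : Option D) : Bool := (o.map (fun d => src (rev d))).getD true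

def bb (β : ℝ) (v : Bool) : ℝ := if v then β else -β

lemma bb_abs (β : ℝ) (v : Bool) : |bb β v| = |β| := by cases v <;> simp [bb]

lemma B_sq (β : ℝ) (f : L) :
    HasSum (fun x : S => ‖(bb β (vert x.1.getLast?) : ℂ) * f x‖ ^ 2) (|β| ^ 2 * ‖f‖ ^ 2) := by
  have h : (fun x : S => ‖(bb β (vert x.1.getLast?) : ℂ) * f x‖ ^ 2)
      = fun x => |β| ^ 2 * ‖f x‖ ^ 2 := by
    funext x
    rw [norm_mul, norm_real, Real.norm_eq_abs, bb_abs, mul_pow]
  rw [h]
  exact (hasSum_sq f).mul_left (|β| ^ 2)

noncomputable def B (β : ℝ) : L →L[ℂ] L :=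
  LinearMap.mkContinuous
    { toFun := fun f => ⟨fun x => (bb β (vert x.1.getLast?) : ℂ) * f x, mem_of (B_sq β f).summable⟩
      map_add' := by
        intro f g; ext y
        simp only [lp.coeFn_add, Pi.add_apply, mul_add]
      map_smul' := by
        intro c f; ext y
        simp only [lp.coeFn_smul, Pi.smul_apply, RingHom.id_apply, smul_eq_mul]
        ring } |β| (by
    intro f
    refine abs_le_of_sq_le_sq' ?_ (by positivity) |>.2
    have h3 := (hasSum_sq ⟨_, mem_of (B_sq β f).summable⟩).unique (B_sq β f)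
    simp only [LinearMap.coe_mk, AddHom.coe_mk]
    rw [h3, mul_pow])

lemma B_apply (β : ℝ) (f : L) (x : S) : B β f x = (bb β (vert x.1.getLast?) : ℂ) * f x := rfl

lemma B_norm (β : ℝ) : ‖B β‖ ≤ |β| := LinearMap.mkContinuous_norm_le _ (abs_nonneg _) _

noncomputable def V : L →L[ℂ] L := ContinuousLinearMap.adjoint U

noncomputable def H (β : ℝ) : L →L[ℂ] L := B β + U + V

noncomputable def A1 (x y : S) : ℂ := ∑ d : D, if y.1 = x.1 ++ [d] then 1 else 0

lemma A1_eq (x y : S) : A1 x y = if y.1 = [] then 0 else if par y = x then 1 else 0 := by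
  obtain ⟨l, hl⟩ := y
  unfold A1
  rcases List.eq_nil_or_concat' l with rfl | ⟨l', e, rfl⟩
  · simp
  · rw [if_neg (by simp)]
    have h1 : (par ⟨l' ++ [e], hl⟩ = x) ↔ l' = x.1 := by
      rw [Subtype.ext_iff]; simp [par]
    by_cases h : l' = x.1
    · rw [if_pos (h1.2 h)]
      simp [h]
    · rw [if_neg (fun hh => h (h1.1 hh))]
      simp [h]

lemma hs_congr {ι M : Type} [AddCommMonoid M] [TopologicalSpace M] {f g : ι → M}
    {a : M} (h : HasSum f a) (e : ∀ i, g i = f i) : HasSum g a := by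
  rw [show g = f from funext e]; exact h

lemma V_hasSum (f : L) (x : S) : HasSum (fun y => A1 x y * f y) (V f x) := by
  classical
  have h1 : V f x = ⟪U (lp.single 2 x (1 : ℂ)), f⟫_ℂ := by
    rw [← ContinuousLinearMap.adjoint_inner_right, lp.inner_single_left]
    simp [V]
  rw [h1]
  refine hs_congr (lp.hasSum_inner (𝕜 := ℂ) (U (lp.single 2 x (1 : ℂ))) f) ?_
  intro y
  rw [A1_eq, U_apply, Uf]
  split_ifs with h2 h3
  · simp
  · simp [h3]
  · simp [lp.single_apply, h3]

lemma U_hasSum' (f : L) (x : S) : HasSum (fun y => A1 y x * f y) (U f x) := by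
  have := hasSum_single (f := fun y => A1 y x * f y) (par x) (by
    intro y hy
    rw [A1_eq]
    split_ifs with h1 h2
    · simp
    · exact absurd h2.symm hy
    · simp)
  convert this using 1
  rw [A1_eq, U_apply, Uf]
  split_ifs <;> simp_all

lemma H_formula (β : ℝ) (f : L) (x : S) : H β f x = (bb β (vert x.1.getLast?) : ℂ) * f x +
    ∑' y : S, (∑ d : D, if (y.1 = x.1 ++ [d] ∨ x.1 = y.1 ++ [d]) then (1 : ℂ) else 0) * f y := by
  have h1 := (U_hasSum' f x).add (V_hasSum f x)
  have h2 : ∀ y : S, (∑ d : D, if (y.1 = x.1 ++ [d] ∨ x.1 = y.1 ++ [d]) then (1 : ℂ) else 0) * f y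
      = A1 y x * f y + A1 x y * f y := by
    intro y
    rw [← add_mul]
    congr 1
    unfold A1
    rw [← Finset.sum_add_distrib]
    refine Finset.sum_congr rfl fun d _ => ?_
    by_cases a1 : y.1 = x.1 ++ [d] <;> by_cases a2 : x.1 = y.1 ++ [d]
    · have b1 := congrArg List.length a1
      have b2 := congrArg List.length a2
      simp at b1 b2
      omega
    · rw [if_pos (Or.inl a1), if_neg a2, if_pos a1, zero_add]
    · rw [if_pos (Or.inr a2), if_neg a1, if_pos a2, add_zero]
    · rw [if_neg (not_or.2 ⟨a1, a2⟩), if_neg a1, if_neg a2, add_zero]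
  simp only [h2]
  rw [h1.tsum_eq, ← B_apply, ← add_assoc]
  rfl

lemma V_apply (f : L) (x : S) :
    V f x = ∑ d, if ok x.1.getLast? d then ext f (x.1 ++ [d]) else 0 := by
  refine (V_hasSum f x).unique ?_
  unfold A1
  simp only [Finset.sum_mul]
  refine hasSum_sum fun d _ => ?_
  by_cases h : ok x.1.getLast? d
  · have hm := (snoc_mem _ _).2 ⟨x.2, h⟩
    have := hasSum_single (f := fun y : S => (if y.1 = x.1 ++ [d] then (1 : ℂ) else 0) * f y)
      ⟨_, hm⟩ (by
        intro y hy
        rw [if_neg (fun hh => hy (Subtype.ext hh)), zero_mul])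
    convert this using 1
    rw [if_pos h, if_pos rfl, one_mul]
    exact ext_coe f ⟨_, hm⟩
  · rw [if_neg h]
    convert hasSum_zero with y
    rw [if_neg, zero_mul]
    intro hh
    exact h ((snoc_mem _ _).1 (hh ▸ y.2)).2

end Pool.Agent.H6.Borg
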