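import Pool.Agent.H6.BorgB

set_option autoImplicit false

namespace Pool.Agent.H6.Borg

open Filter Topology Complex
open scoped ENNReal InnerProductSpace

def mval {K : Type} (x y z w : K) (d : D) : K :=
  if d.2 = 2 then (if d.1 then y else z) else (if d.1 then x else w)

def M {K : Type} [AddCommMonoid K] (m : D → K) (o : Option D) : K := ∑ d, if ok o d then m d else 0

lemma M_none {K : Type} [AddCommMonoid K] (x y z w : K) : M (mval x y z w) none = x + x + y := by
  simp [M, Fintype.sum_prod_type, Fin.sum_univ_three, ok, src, mval]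

lemma M_rec {K : Type} [CommRing K] {x y z w s t : K} (h1 : x * (s - (x + y)) = 1)
    (h2 : z * (s - (x + x)) = 1) (h3 : w * (t - (w + z)) = 1) (h4 : y * (t - (w + w)) = 1) (e : D) :
    mval x y z w e * ((if vert (some e) then s else t) - M (mval x y z w) (some e)) = 1 := by
  obtain ⟨p, i⟩ := e
  cases p <;> fin_cases i <;>
    simp [M, Fintype.sum_prod_type, Fin.sum_univ_three, ok, R, rev, src, mval, vert] <;> assumption

lemma mval_prop {K : Type} {x y z w : K} (p : K → Prop) (h1 : p x) (h2 : p y) (h3 : p z) (h4 : p w)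
    (d : D) : p (mval x y z w d) := by
  unfold mval; split_ifs <;> assumption

lemma bb_sub (β E : ℝ) (v : Bool) : bb β v - E = if v then β - E else -β - E := by
  cases v <;> simp [bb]

lemma form_hasSum (β : ℝ) (f : L) : HasSum (fun y : S => ((bb β (vert y.1.getLast?) * ‖f y‖ ^ 2 +
    2 * ((starRingEnd ℂ) (Uf f y) * f y).re : ℝ) : ℂ)) ⟪H β f, f⟫_ℂ := by
  have h1 := lp.hasSum_inner (𝕜 := ℂ) (B β f) f
  have h2 := lp.hasSum_inner (𝕜 := ℂ) (U f) f
  have h3 := lp.hasSum_inner (𝕜 := ℂ) f (U f)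
  have h4 : ⟪H β f, f⟫_ℂ = ⟪B β f, f⟫_ℂ + ⟪U f, f⟫_ℂ + ⟪f, U f⟫_ℂ := by
    simp only [H, add_apply, inner_add_left, V,
      ContinuousLinearMap.adjoint_inner_left]
  rw [h4]
  refine hs_congr ((h1.add h2).add h3) fun y => ?_
  rw [B_apply, U_apply]
  simp only [RCLike.inner_apply, map_mul, conj_ofReal]
  have a1 : ((‖f y‖ ^ 2 : ℝ) : ℂ) = f y * (starRingEnd ℂ) (f y) := by
    rw [mul_conj, normSq_eq_norm_sq]
  have a2 := Complex.add_conj ((starRingEnd ℂ) (Uf f y) * f y)
  rw [ofReal_add, ofReal_mul, a1, ← a2]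
  simp only [map_mul, conj_conj]
  ring

lemma form_im (β : ℝ) (f : L) : (⟪H β f, f⟫_ℂ).im = 0 := by
  have := Complex.hasSum_im (form_hasSum β f)
  simp only [ofReal_im] at this
  exact this.unique hasSum_zero

lemma schur {β E : ℝ} (h : GoodB (β - E) (-β - E)) :
    ∃ σ : ℝ, σ ^ 2 = 1 ∧ ∀ f : L, 0 ≤ σ * ((⟪H β f, f⟫_ℂ).re - E * ‖f‖ ^ 2) := by
  obtain ⟨x, y, z, w, σ, h1, h2, h3, h4, hσ, p1, p2, p3, p4, hx⟩ := h
  refine ⟨σ, hσ, fun f => ?_⟩
  set m := mval x y z w with hm
  have hpos : ∀ d, 0 < σ * m d := mval_prop (fun a => 0 < σ * a) p1 p2 p3 p4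
  have hrec : ∀ e, m e * (bb β (vert (some e)) - E - M m (some e)) = 1 := fun e => by
    rw [bb_sub]; exact M_rec h1 h2 h3 h4 e
  let g : List D → ℝ := fun l => (l.getLast?.map fun d => σ * m d).getD 0 * ‖ext f l.dropLast‖ ^ 2
  let h : S → ℝ := fun v => σ * M m v.1.getLast? * ‖f v‖ ^ 2
  have hg : ∀ l, 0 ≤ g l := by
    intro l
    refine mul_nonneg ?_ (by positivity)
    cases l.getLast? with
    | none => exact le_rfl
    | some d => exact (hpos d).le
  obtain ⟨C, hC⟩ := (Set.finite_range fun o : Option D => |σ * M m o|).bddAbove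
  have hs : Summable h := by
    refine Summable.of_norm_bounded ((hasSum_sq f).mul_left C).summable fun v => ?_
    simp only [h]
    rw [Real.norm_eq_abs, abs_mul, abs_of_nonneg (sq_nonneg ‖f v‖)]
    exact mul_le_mul_of_nonneg_right (hC ⟨_, rfl⟩) (sq_nonneg _)
  have hG := tsumR g hg h (by
    intro v
    simp only [h, g, M, Finset.mul_sum, Finset.sum_mul]
    refine Finset.sum_congr rfl fun d _ => ?_
    split_ifs
    · simp [ext_coe]
    · simp) hs
  have hA := Complex.hasSum_re (form_hasSum β f)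
  simp only [ofReal_re] at hA
  have hT := (((hA.sub ((hasSum_sq f).mul_left E)).mul_left σ).add hG).sub hs.hasSum
  have hnn := hT.nonneg (by
    rintro ⟨l, hl⟩
    rcases List.eq_nil_or_concat' l with rfl | ⟨l', e, rfl⟩
    · simp only [g, h, Uf, List.getLast?_nil, if_true, map_zero, zero_mul, zero_re, mul_zero,
        add_zero, Option.map_none, Option.getD_none, hm, M_none]
      have a1 : 0 ≤ σ * (β - E - (x + x + y)) := by
        have a2 : (σ * x) * (σ * (β - E - (x + x + y))) = 1 - x ^ 2 := by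
          linear_combination (x * (β - E - (x + x + y))) * hσ + h1
        by_contra hc
        push Not at hc
        nlinarith
      have a3 := mul_nonneg a1 (sq_nonneg ‖f ⟨[], hl⟩‖)
      simp only [vert, bb, Option.map_none, Option.getD_none, if_true]
      linarith
    · have e1 : Uf f ⟨l' ++ [e], hl⟩ = ext f l' := by
        unfold Uf
        rw [if_neg (by simp), ← ext_coe f]
        simp [par]
      simp only [g, h, e1, List.getLast?_concat, Option.map_some, Option.getD_some,
        List.dropLast_concat]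
      generalize ext f l' = u
      generalize f ⟨l' ++ [e], hl⟩ = v
      have a1 := hrec e
      have a2 := hpos e
      generalize M m (some e) = Me at *
      generalize bb β (vert (some e)) = b at *
      generalize m e = me at *
      have a3 : ‖u‖ ^ 2 = u.re ^ 2 + u.im ^ 2 := by rw [← normSq_eq_norm_sq, normSq_apply]; ring
      have a4 : ‖v‖ ^ 2 = v.re ^ 2 + v.im ^ 2 := by rw [← normSq_eq_norm_sq, normSq_apply]; ring
      simp only [mul_re, conj_re, conj_im, a3, a4]
      refine le_of_mul_le_mul_left ?_ a2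
      have a5 : σ * me * (σ * (b * (v.re ^ 2 + v.im ^ 2) + 2 * (u.re * v.re - -u.im * v.im) -
          E * (v.re ^ 2 + v.im ^ 2)) + σ * me * (u.re ^ 2 + u.im ^ 2) -
          σ * Me * (v.re ^ 2 + v.im ^ 2))
          = σ ^ 2 * ((v.re + me * u.re) ^ 2 + (v.im + me * u.im) ^ 2) := by
        linear_combination σ ^ 2 * (v.re ^ 2 + v.im ^ 2) * a1
      rw [a5, mul_zero]
      positivity)
  simp only [g, List.getLast?_nil, Option.map_none, Option.getD_none, zero_mul, zero_add] at hnn
  linarith

lemma weyl {β E : ℝ} (h : GoodA (β - E) (-β - E)) : (E : ℂ) ∈ spectrum ℂ (H β) := by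
  classical
  obtain ⟨x, y, z, w, h1, h2, h3, h4, p1, p2, p3, p4⟩ := h
  set m := mval x y z w with hm
  have hpos : ∀ d, 0 < (m d).im := mval_prop (fun a : ℂ => 0 < a.im) p1 p2 p3 p4
  have hrec : ∀ e, m e * (((bb β (vert (some e)) - E : ℝ) : ℂ) - M m (some e)) = 1 := fun e => by
    have := M_rec h1 h2 h3 h4 e
    rw [bb_sub]
    split_ifs at this ⊢ <;> exact this
  let J : Option D → ℝ := fun o => (M m o).im
  have hJe : ∀ e, (m e).im = normSq (m e) * J (some e) := fun e => im_eq (hrec e)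
  have hJ : ∀ o, 0 < J o := by
    rintro (_ | e)
    · simp only [J, hm, M_none, add_im]; linarith
    · have a1 := hJe e
      have a2 := hpos e
      have a3 := normSq_nonneg (m e)
      by_contra hc
      push Not at hc
      nlinarith
  obtain ⟨o0, h0⟩ := Finite.exists_min J
  obtain ⟨o1, h1'⟩ := Finite.exists_max J
  let F : List D → ℂ := fun l => (l.map fun d => -m d).prod
  have hF : ∀ l d, F (l ++ [d]) = F l * -m d := by intro l d; simp [F]
  let W : List D → ℝ := fun l => normSq (F l) * J l.getLast?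
  have hW0 : ∀ l, 0 ≤ W l := fun l => mul_nonneg (normSq_nonneg _) (hJ _).le
  have hW : ∀ l, W l = ∑ d, if ok l.getLast? d then W (l ++ [d]) else 0 := by
    intro l
    have e0 : W l = ∑ d, normSq (F l) * (if ok l.getLast? d then m d else 0).im := by
      simp only [W, J, M, im_sum, Finset.mul_sum]
    rw [e0]
    refine Finset.sum_congr rfl fun d _ => ?_
    split_ifs
    · simp only [W]
      rw [hF, List.getLast?_concat, map_mul, normSq_neg, mul_assoc, hJe d]
    · simp
  have hT : ∀ n : ℕ, ∑' v : S, (if v.1.length = n then ENNReal.ofReal (W v.1) else 0)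
      = ENNReal.ofReal (W []) := by
    intro n
    induction n with
    | zero =>
      rw [tsumE (fun l => if l.length = 0 then ENNReal.ofReal (W l) else 0)]
      simp
    | succ n ih =>
      rw [tsumE (fun l => if l.length = n + 1 then ENNReal.ofReal (W l) else 0), ← ih]
      simp only [List.length_nil, List.length_append, List.length_singleton, add_left_inj]
      rw [if_neg (by omega), zero_add]
      congr 1
      funext v
      split_ifs with hv
      · rw [hW v.1, ENNReal.ofReal_sum_of_nonneg (fun d _ => by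
          split_ifs; exacts [hW0 _, le_rfl])]
        refine Finset.sum_congr rfl fun d _ => ?_
        split_ifs <;> simp
      · simp
  have hsum : ∀ r : ℝ, 0 ≤ r → r < 1 → Summable fun v : S => r ^ v.1.length * W v.1 := by
    intro r hr0 hr1
    have a1 : ∑' v : S, ENNReal.ofReal (r ^ v.1.length * W v.1) ≠ ∞ := by
      have a2 : ∀ v : S, ENNReal.ofReal (r ^ v.1.length * W v.1) = ∑' n : ℕ,
          ENNReal.ofReal r ^ n * (if v.1.length = n then ENNReal.ofReal (W v.1) else 0) := by
        intro v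
        rw [tsum_eq_single v.1.length (fun n hn => by rw [if_neg (Ne.symm hn), mul_zero]),
          if_pos rfl, ENNReal.ofReal_mul (by positivity), ENNReal.ofReal_pow hr0]
      simp only [a2]
      rw [ENNReal.tsum_comm]
      simp only [ENNReal.tsum_mul_left, hT, ENNReal.tsum_mul_right, ENNReal.tsum_geometric]
      refine ENNReal.mul_ne_top (ENNReal.inv_ne_top.2 ?_) ENNReal.ofReal_ne_top
      exact (tsub_pos_of_lt (ENNReal.ofReal_lt_one.2 hr1)).ne'
    have := ENNReal.summable_toReal a1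
    simpa only [ENNReal.toReal_ofReal (mul_nonneg (pow_nonneg hr0 _) (hW0 _))] using this
  by_contra hc
  rw [spectrum.notMem_iff] at hc
  obtain ⟨u, hu⟩ := hc
  let C : ℝ := ‖(↑u⁻¹ : L →L[ℂ] L)‖
  have hC : ∀ g : L, ‖g‖ ≤ C * ‖(algebraMap ℂ (L →L[ℂ] L) E - H β) g‖ := by
    intro g
    have : g = (↑u⁻¹ : L →L[ℂ] L) ((algebraMap ℂ (L →L[ℂ] L) E - H β) g) := by
      rw [← hu, ← mul_apply_eq_comp, Units.inv_mul, one_apply_eq_self]
    conv_lhs => rw [this]
    exact ContinuousLinearMap.le_opNorm _ _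
  let κ : ℂ := ((β - E : ℝ) : ℂ) - M m none
  have hC0 : 0 ≤ C := norm_nonneg _
  have hWn : 0 < W [] := by simpa [W, F] using hJ none
  have key : ∀ η : ℝ, 0 < η → η ≤ 1 / 2 → 3 * C * ‖U‖ * η ≤ 1 / 2 →
      W [] ≤ 2 * η * (J o1 * (2 * C * ‖κ‖) ^ 2) := by
    intro η hη0 hη1 hη2
    set r : ℝ := 1 - η with hr
    have hr0 : 0 < r := by linarith
    have hs2 := hsum (r ^ 2) (by positivity) (by nlinarith)
    have hnorm : ∀ v : S, ‖(r : ℂ) ^ v.1.length * F v.1‖ ^ 2 = (r ^ 2) ^ v.1.length * normSq (F v.1) := by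
      intro v
      rw [norm_mul, norm_pow, norm_real, Real.norm_eq_abs, abs_of_pos hr0, normSq_eq_norm_sq]
      ring
    have hmem : Summable fun v : S => ‖(r : ℂ) ^ v.1.length * F v.1‖ ^ 2 := by
      refine Summable.of_nonneg_of_le (fun _ => by positivity) (fun v => ?_)
        (hs2.mul_left (J o0)⁻¹)
      rw [hnorm, le_inv_mul_iff₀ (hJ o0)]
      have := mul_le_mul_of_nonneg_left (h0 v.1.getLast?)
        (mul_nonneg (pow_nonneg (sq_nonneg r) v.1.length) (normSq_nonneg (F v.1)))
      simp only [W]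
      linarith
    let f : L := ⟨fun v => (r : ℂ) ^ v.1.length * F v.1, mem_of hmem⟩
    have hf : ∀ v : S, f v = (r : ℂ) ^ v.1.length * F v.1 := fun _ => rfl
    have hI := tsumR (fun l => (r ^ 2) ^ l.length * W l)
      (fun l => mul_nonneg (by positivity) (hW0 l))
      (fun v => r ^ 2 * ((r ^ 2) ^ v.1.length * W v.1)) (by
        intro v
        rw [hW v.1, Finset.mul_sum, Finset.mul_sum]
        refine Finset.sum_congr rfl fun d _ => ?_
        split_ifs
        · simp only [List.length_append, List.length_singleton]; ring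
        · simp) (hs2.mul_left _)
    have hI2 := hI.tsum_eq
    rw [tsum_mul_left] at hI2
    have hI3 : ∑' v : S, (r ^ 2) ^ v.1.length * W v.1 ≤ J o1 * ‖f‖ ^ 2 := by
      refine hasSum_le (fun v => ?_) hs2.hasSum ((hasSum_sq f).mul_left (J o1))
      rw [hf, hnorm]
      have := mul_le_mul_of_nonneg_left (h1' v.1.getLast?)
        (mul_nonneg (pow_nonneg (sq_nonneg r) v.1.length) (normSq_nonneg (F v.1)))
      simp only [W]
      linarith
    have hr' : (r : ℂ) ≠ 0 := by exact_mod_cast hr0.ne'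
    have hV : ∀ v : S, V f v = -((r : ℂ) * f v * M m v.1.getLast?) := by
      intro v
      rw [V_apply, M, Finset.mul_sum, ← Finset.sum_neg_distrib]
      refine Finset.sum_congr rfl fun d _ => ?_
      split_ifs with hd
      · rw [ext_coe f ⟨_, (snoc_mem _ _).2 ⟨v.2, hd⟩⟩, hf, hf]
        simp only [List.length_append, List.length_singleton, hF]
        ring
      · simp
    have hid : (algebraMap ℂ (L →L[ℂ] L) E - H β) f = -(κ • lp.single 2 root (1 : ℂ))
        - ((1 - r : ℝ) : ℂ) • U f - ((1 - r⁻¹ : ℝ) : ℂ) • V f := by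
      ext ⟨l, hl⟩
      simp only [H, sub_apply, add_apply,
        Algebra.algebraMap_eq_smul_one, smul_apply,
        one_apply_eq_self, lp.coeFn_sub, lp.coeFn_add, lp.coeFn_smul, lp.coeFn_neg,
        Pi.sub_apply, Pi.add_apply, Pi.smul_apply, Pi.neg_apply, smul_eq_mul, B_apply, hV, U_apply]
      rcases List.eq_nil_or_concat' l with rfl | ⟨l', e, rfl⟩
      · have a1 : (lp.single 2 root (1 : ℂ) : L) ⟨[], hl⟩ = 1 := lp.single_apply_self 2 root _
        rw [a1, hf]
        simp only [Uf, if_true, List.getLast?_nil, List.length_nil, F, vert, bb, κ]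
        simp only [Option.map_none, Option.getD_none, if_true, List.map_nil, List.prod_nil]
        push_cast
        field_simp
        ring
      · have a1 : (lp.single 2 root (1 : ℂ) : L) ⟨l' ++ [e], hl⟩ = 0 :=
          lp.single_apply_ne 2 root _ (fun hh => by simpa [root] using congrArg Subtype.val hh)
        have a2 : Uf f ⟨l' ++ [e], hl⟩ = (r : ℂ) ^ l'.length * F l' := by
          unfold Uf
          rw [if_neg (by simp), hf]
          simp [par]
        have a3 := hrec e
        rw [a1, a2, hf]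
        simp only [List.getLast?_concat, List.length_append, List.length_singleton, hF]
        push_cast at a3 ⊢
        field_simp
        linear_combination (r : ℂ) ^ (l'.length + 1) * F l' * a3
    have hVn : ‖V f‖ ≤ ‖U‖ * ‖f‖ := by
      have := V.le_opNorm f
      rwa [show ‖V‖ = ‖U‖ from LinearIsometryEquiv.norm_map _ _] at this
    have hUn := U.le_opNorm f
    have hb : ‖(algebraMap ℂ (L →L[ℂ] L) E - H β) f‖ ≤ ‖κ‖ + 3 * η * (‖U‖ * ‖f‖) := by
      rw [hid]
      refine (norm_sub_le _ _).trans ((add_le_add_left (norm_sub_le _ _) _).trans ?_)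
      rw [norm_neg, norm_smul, norm_smul, norm_smul, lp.norm_single (by norm_num), norm_one, mul_one,
        norm_real, norm_real, Real.norm_eq_abs, Real.norm_eq_abs]
      have b1 : |1 - r| = η := by rw [hr]; simpa using hη0.le
      have b2 : |1 - r⁻¹| ≤ 2 * η := by
        have c1 : 1 - r⁻¹ = -(η / r) := by field_simp; linarith
        rw [c1, abs_neg, abs_of_pos (by positivity), div_le_iff₀ hr0]
        nlinarith
      rw [b1]
      have b3 := mul_le_mul b2 hVn (norm_nonneg _) (by positivity)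
      have b4 := mul_le_mul_of_nonneg_left hUn hη0.le
      linarith
    have hfn : ‖f‖ ≤ 2 * C * ‖κ‖ := by
      have b1 := (hC f).trans (mul_le_mul_of_nonneg_left hb hC0)
      have b2 := mul_le_mul_of_nonneg_right hη2 (norm_nonneg f)
      nlinarith
    have hfn2 : ‖f‖ ^ 2 ≤ (2 * C * ‖κ‖) ^ 2 := pow_le_pow_left₀ (norm_nonneg _) hfn 2
    have b5 := hI3.trans (mul_le_mul_of_nonneg_left hfn2 (hJ o1).le)
    have b6 : 0 ≤ ∑' v : S, (r ^ 2) ^ v.1.length * W v.1 :=
      tsum_nonneg fun v => mul_nonneg (by positivity) (hW0 _)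
    simp only [List.length_nil, pow_zero, one_mul] at hI2
    generalize ∑' v : S, (r ^ 2) ^ v.1.length * W v.1 = I at *
    have b7 : W [] ≤ 2 * η * I := by
      have : W [] = (1 - r ^ 2) * I := by linarith
      rw [this]
      exact mul_le_mul_of_nonneg_right (by rw [hr]; nlinarith) b6
    exact b7.trans (mul_le_mul_of_nonneg_left b5 (by positivity))
  have ev : ∀ᶠ η in 𝓝[>] (0 : ℝ), 0 < η ∧ η ≤ 1 / 2 ∧ 3 * C * ‖U‖ * η ≤ 1 / 2 ∧
      2 * η * (J o1 * (2 * C * ‖κ‖) ^ 2) < W [] := by
    refine eventually_mem_nhdsWithin.and (nhdsWithin_le_nhds ?_)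
    have c1 : ∀ᶠ η in 𝓝 (0 : ℝ), η < 1 / 2 := eventually_lt_nhds (by norm_num)
    have c2 : ∀ᶠ η in 𝓝 (0 : ℝ), 3 * C * ‖U‖ * η < 1 / 2 :=
      ContinuousAt.eventually_lt (by fun_prop) continuousAt_const (by norm_num)
    have c3 : ∀ᶠ η in 𝓝 (0 : ℝ), 2 * η * (J o1 * (2 * C * ‖κ‖) ^ 2) < W [] :=
      ContinuousAt.eventually_lt (by fun_prop) continuousAt_const (by simpa using hWn)
    filter_upwards [c1, c2, c3] with η d1 d2 d3
    exact ⟨d1.le, d2.le, d3⟩
  obtain ⟨η, d0, d1, d2, d3⟩ := ev.exists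
  exact absurd (key η d0 d1 d2) (not_le.2 d3)

lemma sq_eq_one_iff_of_ne_zero' {σ : ℝ} (h : σ ^ 2 = 1) : σ = 1 ∨ σ = -1 := by
  have : (σ - 1) * (σ + 1) = 0 := by linear_combination h
  rcases mul_eq_zero.1 this with h | h
  · left; linarith
  · right; linarith

lemma notMem_of {β : ℝ} {z : ℂ} {c : ℝ} (hc : 0 < c)
    (h : ∀ f : L, ‖f‖ ^ 2 * c ≤ ‖(starRingEnd ℂ) z * ((‖f‖ ^ 2 : ℝ) : ℂ) - ⟪H β f, f⟫_ℂ‖) :
    z ∉ spectrum ℂ (H β) := by
  rw [spectrum.notMem_iff]
  refine ContinuousLinearMap.isUnit_of_forall_le_norm_inner_map _ (c := ⟨c, hc.le⟩) hc fun f => ?_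
  refine (h f).trans (le_of_eq (congrArg norm ?_))
  simp only [sub_apply, Algebra.algebraMap_eq_smul_one,
    smul_apply, one_apply_eq_self, inner_sub_left, inner_smul_left,
    inner_self_eq_norm_sq_to_K]
  simp

lemma spec_real {β : ℝ} {z : ℂ} (hz : z ∈ spectrum ℂ (H β)) : z.im = 0 := by
  by_contra h
  refine notMem_of (abs_pos.2 h) (fun f => le_trans (le_of_eq ?_) (abs_im_le_norm _)) hz
  simp only [sub_im, form_im, mul_im, conj_re, conj_im, ofReal_re, ofReal_im]
  rw [mul_zero, zero_add, sub_zero, abs_mul, abs_neg, abs_of_nonneg (sq_nonneg ‖f‖), mul_comm]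

theorem exists_connected : ∃ β : ℝ, 0 < β ∧ IsPreconnected (spectrum ℂ (H β)) := by
  obtain ⟨β, h0, h1, h2⟩ := exists_beta (1 + ‖U‖ + ‖V‖)
  refine ⟨β, h0, ?_⟩
  have e : spectrum ℂ (H β) = (fun a : ℝ => (a : ℂ)) '' {a : ℝ | (a : ℂ) ∈ spectrum ℂ (H β)} := by
    ext z
    constructor
    · intro hz
      have : (z.re : ℂ) = z := Complex.ext rfl (by simp [spec_real hz])
      exact ⟨z.re, by rw [Set.mem_ofPred_eq, this]; exact hz, this⟩
    · rintro ⟨a, ha, rfl⟩; exact ha
  rw [e]
  refine IsPreconnected.image (Set.OrdConnected.isPreconnected ⟨?_⟩) _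
    continuous_ofReal.continuousOn
  intro a ha b hb E hE
  have hn : ‖H β‖ ≤ 1 + ‖U‖ + ‖V‖ := by
    have := B_norm β
    rw [abs_of_pos h0] at this
    exact norm_add₃_le.trans (by linarith)
  have : Nontrivial L := ⟨0, lp.single 2 root 1, fun hh => by
    have := congrArg norm hh
    rw [lp.norm_single (by norm_num)] at this
    simp at this⟩
  have hb1 : ∀ a : ℝ, (a : ℂ) ∈ spectrum ℂ (H β) → |a| ≤ 1 + ‖U‖ + ‖V‖ := by
    intro a ha
    have := spectrum.norm_le_norm_of_mem ha
    rw [norm_real, Real.norm_eq_abs] at this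
    exact this.trans hn
  have hEI : E ∈ Set.Icc (-(1 + ‖U‖ + ‖V‖)) (1 + ‖U‖ + ‖V‖) :=
    ⟨(abs_le.1 (hb1 a ha)).1.trans hE.1, hE.2.trans (abs_le.1 (hb1 b hb)).2⟩
  rcases h2 E hEI with h | h
  · exact weyl h
  · obtain ⟨σ, hσ, hf⟩ := schur h
    have key : ∀ c : ℝ, (c : ℂ) ∈ spectrum ℂ (H β) → 0 ≤ σ * (c - E) := by
      intro c hc
      by_contra hlt
      push Not at hlt
      refine notMem_of (c := -(σ * (c - E))) (by linarith)
        (fun f => le_trans ?_ (abs_re_le_norm _)) hc
      simp only [sub_re, mul_re, conj_re, conj_im, ofReal_re, ofReal_im, mul_zero, sub_zero]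
      have a1 := hf f
      rcases sq_eq_one_iff_of_ne_zero' hσ with rfl | rfl
      · exact le_trans (by nlinarith) (neg_le_abs _)
      · exact le_trans (by nlinarith) (le_abs_self _)
    have k1 := key a ha
    have k2 := key b hb
    rcases sq_eq_one_iff_of_ne_zero' hσ with rfl | rfl
    · have : E = a := le_antisymm (by linarith) hE.1
      rw [this]; exact ha
    · have : E = b := le_antisymm hE.2 (by linarith)
      rw [this]; exact hb

end Pool.Agent.H6.Borg
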