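import Mathlib

set_option autoImplicit false
open FirstOrder FirstOrder.Language

namespace Pool.Agent.H6.DefPoA

variable {M : Type} [PartialOrder M]

/-- definable (with parameters) predicates on tuples -/
class Df {α : Type} (P : (α → M) → Prop) : Prop where
  out : @Set.Definable M (Set.univ : Set M) Language.order (Language.orderStructure M) α
    {v | P v}

/-- variables and constants -/
class Tm {α : Type} (t : (α → M) → M) : Prop where
  out : (∃ i, ∀ v, t v = v i) ∨ ∃ a, ∀ v, t v = a

instance tmConst {α : Type} (a : M) : Tm (fun _ : α → M => a) := ⟨Or.inr ⟨a, fun _ => rfl⟩⟩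
instance tmVar {α : Type} (i : α) : Tm (fun v : α → M => v i) := ⟨Or.inl ⟨i, fun _ => rfl⟩⟩

theorem Tm.dfun {α : Type} (t : (α → M) → M) [h : Tm t] :
    @Set.DefinableFun M Language.order (Language.orderStructure M) α Set.univ t := by
  letI := Language.orderStructure M
  rcases h.out with ⟨i, hi⟩ | ⟨a, ha⟩
  · have : t = fun v => v i := funext hi
    rw [this]; exact Set.DefinableFun.proj _
  · have : t = fun _ => a := funext ha
    rw [this]; exact Language.definableFun_const _ _ (Set.mem_univ a)

theorem Df.congr {α : Type} {P Q : (α → M) → Prop} (h : Df P) (e : ∀ v, Q v ↔ P v) : Df Q := by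
  have : Q = P := funext fun v => propext (e v)
  rw [this]; exact h

/-- definable binary relations -/
class D2 (R : M → M → Prop) : Prop where
  out : Df (fun v : Fin 2 → M => R (v 0) (v 1))

/-- definable unary relations -/
class D1 (R : M → Prop) : Prop where
  out : Df (fun v : Fin 1 → M => R (v 0))

theorem D2.app (R : M → M → Prop) [h : D2 R] {α : Type} (s t : (α → M) → M) [Tm s] [Tm t] :
    Df (fun v => R (s v) (t v)) := by
  letI := Language.orderStructure M
  have hF : (Set.univ : Set M).DefinableMap Language.order (fun v => ![s v, t v]) := by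
    intro i
    fin_cases i
    · exact Tm.dfun s
    · exact Tm.dfun t
  exact ⟨h.out.out.preimage_map hF⟩

theorem D1.app (R : M → Prop) [h : D1 R] {α : Type} (s : (α → M) → M) [Tm s] :
    Df (fun v => R (s v)) := by
  letI := Language.orderStructure M
  have hF : (Set.univ : Set M).DefinableMap Language.order (fun v => ![s v]) := by
    intro i
    fin_cases i
    · exact Tm.dfun s
  exact ⟨h.out.out.preimage_map hF⟩

instance d2le : D2 (fun x y : M => x ≤ y) := by
  letI := Language.orderStructure M
  refine ⟨⟨⟨Relations.formula₂ (L := Language.order[[(Set.univ : Set M)]])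
    (Sum.inl leSymb) (Term.var 0) (Term.var 1), ?_⟩⟩⟩
  ext v
  simp only [Set.mem_ofPred_eq, Formula.realize_rel₂]
  rfl

instance dfLe {α : Type} (s t : (α → M) → M) [Tm s] [Tm t] : Df (fun v => s v ≤ t v) :=
  D2.app (fun x y : M => x ≤ y) s t

instance dfEq {α : Type} (s t : (α → M) → M) [Tm s] [Tm t] : Df (fun v => s v = t v) := by
  letI := Language.orderStructure M
  exact ⟨(Tm.dfun s).ofPred_eq (Tm.dfun t)⟩

instance dfAnd {α : Type} (P Q : (α → M) → Prop) [hP : Df P] [hQ : Df Q] :
    Df (fun v => P v ∧ Q v) := by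
  letI := Language.orderStructure M
  exact ⟨hP.out.inter hQ.out⟩

instance dfOr {α : Type} (P Q : (α → M) → Prop) [hP : Df P] [hQ : Df Q] :
    Df (fun v => P v ∨ Q v) := by
  letI := Language.orderStructure M
  exact ⟨hP.out.union hQ.out⟩

instance dfNot {α : Type} (P : (α → M) → Prop) [hP : Df P] : Df (fun v => ¬ P v) := by
  letI := Language.orderStructure M
  exact ⟨hP.out.compl⟩

theorem dfImp {α : Type} (P Q : (α → M) → Prop) [hP : Df P] [hQ : Df Q] :
    Df (fun v => P v → Q v) :=
  (inferInstance : Df (fun v => ¬ P v ∨ Q v)).congr fun v => by tauto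

instance dfIff {α : Type} (P Q : (α → M) → Prop) [hP : Df P] [hQ : Df Q] :
    Df (fun v => P v ↔ Q v) :=
  (inferInstance : Df (fun v => (¬ P v ∨ Q v) ∧ (¬ Q v ∨ P v))).congr fun v => by tauto

instance dfEx {α : Type} (P : (α → M) → M → Prop)
    [h : Df (fun w : α ⊕ Unit → M => P (fun i => w (Sum.inl i)) (w (Sum.inr ())))] :
    Df (fun v => ∃ x, P v x) := by
  letI := Language.orderStructure M
  have := h.out.exists_of_finite
  refine ⟨?_⟩
  convert this using 1
  ext v
  simp only [Set.mem_ofPred_eq, Sum.elim_inl, Sum.elim_inr]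
  constructor
  · rintro ⟨x, hx⟩; exact ⟨fun _ => x, hx⟩
  · rintro ⟨u, hu⟩; exact ⟨u (), hu⟩

theorem dfExFin {α : Type} {ι : Type} [Finite ι] (P : ι → (α → M) → Prop) (h : ∀ i, Df (P i)) :
    Df (fun v => ∃ i, P i v) := by
  letI := Language.orderStructure M
  have := Set.definable_iUnion_of_finite (fun i => (h i).out)
  refine ⟨?_⟩
  convert this using 1
  ext v
  simp

end Pool.Agent.H6.DefPoA
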