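import Mathlib
import Pool.Agent.H6.DefPoA

set_option autoImplicit false

namespace Pool.Agent.H6.DefPoB
open Pool.Agent.H6.DefPoA

abbrev C := Lex (ℕ → Bool)

def trunc (x : C) (k : ℕ) (b : Bool) : C := toLex fun i => if i < k then x i else b

theorem exists_e : ∃ e : ℕ → C, ∀ x k b, ∃ n, e n = trunc x k b := by
  obtain ⟨d, hd⟩ := exists_surjective_nat (Finset ℕ × Bool)
  refine ⟨fun n => toLex fun i => xor (decide (i ∈ (d n).1)) (d n).2, fun x k b => ?_⟩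
  obtain ⟨n, hn⟩ := hd ((Finset.range k).filter (fun i => x i ≠ b), b)
  refine ⟨n, ?_⟩
  simp only [hn, trunc]
  congr 1
  funext i
  by_cases hi : i < k
  · cases hx : x i <;> cases b <;> simp [hi, hx]
  · simp [hi]

noncomputable def e : ℕ → C := exists_e.choose

theorem e_spec (x : C) (k : ℕ) (b : Bool) : ∃ n, e n = trunc x k b := exists_e.choose_spec x k b

theorem trunc_le (x : C) (k : ℕ) : trunc x k false ≤ x := by
  have : (fun i => if i < k then x i else false) ≤ ofLex x := by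
    intro i
    by_cases hi : i < k
    · simp [hi]
    · simp [hi]
  exact Pi.toLex_monotone this

theorem le_trunc (x : C) (k : ℕ) : x ≤ trunc x k true := by
  have : ofLex x ≤ (fun i => if i < k then x i else true) := by
    intro i
    by_cases hi : i < k
    · simp [hi]
    · simp [hi]
  exact Pi.toLex_monotone this

theorem agree (x y : C) (k : ℕ) (h1 : trunc x k false ≤ y) (h2 : y ≤ trunc x k true) :
    ∀ i < k, y i = x i := by
  intro i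
  induction i using Nat.strong_induction_on with
  | _ i ih =>
    intro hi
    have a1 := Pi.apply_le_of_toLex (x := fun i => if i < k then x i else false) (y := ofLex y)
      (i := i) h1 (fun j hj => by
        have := ih j hj (by omega)
        simp [show j < k by omega, this])
    have a2 := Pi.apply_le_of_toLex (x := ofLex y) (y := fun i => if i < k then x i else true)
      (i := i) h2 (fun j hj => by
        have := ih j hj (by omega)
        simp [show j < k by omega, this])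
    simp only [hi, if_true, Pi.ofLex_apply] at a1 a2
    exact le_antisymm a2 a1

theorem lt_trunc (x y : C) (h : y < x) : ∃ k, y < trunc x k false := by
  obtain ⟨i, h1, h2⟩ := h
  refine ⟨i + 1, i, fun j hj => ?_, ?_⟩
  · have : j < i + 1 := by omega
    simp only [trunc, Pi.toLex_apply, this, if_true]
    exact h1 j hj
  · simp only [trunc, Pi.toLex_apply, Nat.lt_succ_self, if_true]
    exact h2

theorem dense (x y : C) (h : y < x) : ∃ n, y < e n ∧ e n ≤ x := by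
  obtain ⟨k, hk⟩ := lt_trunc x y h
  obtain ⟨n, hn⟩ := e_spec x k false
  exact ⟨n, hn ▸ hk, hn ▸ trunc_le x k⟩

theorem c_ext (x y : C) (h : ∀ n, e n ≤ x ↔ e n ≤ y) : x = y := by
  rcases lt_trichotomy x y with hl | hl | hl
  · obtain ⟨n, h1, h2⟩ := dense y x hl
    exact absurd ((h n).2 h2) (not_le.2 h1)
  · exact hl
  · obtain ⟨n, h1, h2⟩ := dense x y hl
    exact absurd ((h n).1 h2) (not_le.2 h1)

inductive M : Type
  | a : Fin 3 → ℕ → M
  | u : Fin 2 → ℕ → M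
  | p : Fin 4 → M
  | q : Fin 2 → M
  | c : C → M

def h (j : Fin 2) (i : Fin 3) (m : ℕ) : ℕ :=
  if j = 0 then (if i = 1 then m.unpair.1 else if i = 2 then m.unpair.2 else m) else m

def T (n : ℕ) : Prop :=
  ∀ x : C, e n.unpair.2.unpair.1 ≤ x → x ≤ e n.unpair.2.unpair.2 → x n.unpair.1 = true

def lt : M → M → Prop
  | .a i n, .u j m => n = h j i m
  | .a i n, .p k => k = i.castSucc ∨ (k = 3 ∧ i = 0 ∧ T n)
  | .q j, .u j' _ => j = j'
  | .a i n, .c x => i = 0 ∧ e n ≤ x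
  | .c x, .c y => x < y
  | _, _ => False

theorem lt_trans' (x y z : M) (h1 : lt x y) (h2 : lt y z) : lt x z := by
  cases x <;> cases y <;> simp only [lt] at h1 <;> cases z <;> simp only [lt] at h2 ⊢
  · exact ⟨h1.1, h1.2.trans h2.le⟩
  · exact h1.trans h2

theorem lt_irrefl' (x : M) : ¬ lt x x := by
  cases x
  case c y => exact lt_irrefl y
  all_goals simp [lt]

instance : PartialOrder M where
  le x y := x = y ∨ lt x y
  le_refl x := Or.inl rfl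
  le_trans x y z h1 h2 := by
    rcases h1 with rfl | h1
    · exact h2
    rcases h2 with rfl | h2
    · exact Or.inr h1
    exact Or.inr (lt_trans' _ _ _ h1 h2)
  le_antisymm x y h1 h2 := by
    rcases h1 with rfl | h1
    · rfl
    rcases h2 with rfl | h2
    · rfl
    exact absurd (lt_trans' _ _ _ h1 h2) (lt_irrefl' x)

theorem le_def (x y : M) : x ≤ y ↔ x = y ∨ lt x y := Iff.rfl

theorem c_le_c (x y : C) : M.c x ≤ M.c y ↔ x ≤ y := by
  rw [le_def, le_iff_eq_or_lt, M.c.injEq]; exact Iff.rfl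

theorem a_le_c (n : ℕ) (y : C) : M.a 0 n ≤ M.c y ↔ e n ≤ y := by
  rw [le_def]; simp [lt]

theorem a_le_u (i : Fin 3) (n : ℕ) (j : Fin 2) (m : ℕ) : M.a i n ≤ M.u j m ↔ n = h j i m := by
  rw [le_def]; simp [lt]

/-- sorts -/
def SA (i : Fin 3) (x : M) : Prop := ∃ n, x = .a i n
def SU (j : Fin 2) (x : M) : Prop := ∃ n, x = .u j n
def ST (x : M) : Prop := ∃ n, x = .a 0 n ∧ T n
def SC (x : M) : Prop := ∃ y, x = .c y

theorem d1SA (i : Fin 3) : D1 (SA i) := by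
  refine ⟨(inferInstance : Df (fun v : Fin 1 → M =>
    v 0 ≤ M.p i.castSucc ∧ ¬ v 0 = M.p i.castSucc)).congr fun v => ?_⟩
  generalize v 0 = x
  rw [le_def]
  cases x <;> simp [SA, lt]
  rename_i i' n
  constructor
  · rintro rfl; exact Or.inl rfl
  · rintro (h1 | h1)
    · exact h1.symm
    · exact absurd h1.1 (by fin_cases i <;> simp)

theorem d1SU (j : Fin 2) : D1 (SU j) := by
  refine ⟨(inferInstance : Df (fun v : Fin 1 → M =>
    M.q j ≤ v 0 ∧ ¬ v 0 = M.q j)).congr fun v => ?_⟩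
  generalize v 0 = x
  rw [le_def]
  cases x <;> simp [SU, lt, eq_comm]

theorem d1ST : D1 ST := by
  refine ⟨(inferInstance : Df (fun v : Fin 1 → M =>
    v 0 ≤ M.p 3 ∧ ¬ v 0 = M.p 3)).congr fun v => ?_⟩
  generalize v 0 = x
  rw [le_def]
  cases x <;> simp [ST, lt]
  rename_i i' n
  intro h1
  exact absurd h1 (by fin_cases i' <;> simp)

theorem d1SC : D1 SC := by
  refine ⟨(inferInstance : Df (fun v : Fin 1 → M => M.c ⊥ ≤ v 0)).congr fun v => ?_⟩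
  generalize v 0 = x
  cases x
  case c y => simp [SC, c_le_c]
  all_goals (rw [le_def]; simp [SC, lt])

instance iSA {α : Type} (i : Fin 3) (s : (α → M) → M) [Tm s] : Df (fun v => SA i (s v)) :=
  @D1.app _ _ _ (d1SA i) _ s _
instance iSU {α : Type} (j : Fin 2) (s : (α → M) → M) [Tm s] : Df (fun v => SU j (s v)) :=
  @D1.app _ _ _ (d1SU j) _ s _
instance iST {α : Type} (s : (α → M) → M) [Tm s] : Df (fun v => ST (s v)) :=
  @D1.app _ _ _ d1ST _ s _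
instance iSC {α : Type} (s : (α → M) → M) [Tm s] : Df (fun v => SC (s v)) :=
  @D1.app _ _ _ d1SC _ s _

/-- graph of a sequence -/
def Gr (g : ℕ → M) (x y : M) : Prop := ∃ n, x = .a 0 n ∧ y = g n

class DG (g : ℕ → M) : Prop where
  out : D2 (Gr g)

instance iGr {α : Type} (g : ℕ → M) [hg : DG g] (s t : (α → M) → M) [Tm s] [Tm t] :
    Df (fun v => Gr g (s v) (t v)) :=
  @D2.app _ _ _ hg.out _ s t _ _

theorem h0 (j : Fin 2) (m : ℕ) : h j 0 m = m := by simp [h]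
theorem h1 (i : Fin 3) (m : ℕ) : h 1 i m = m := by simp [h]

instance dgU (j : Fin 2) : DG (M.u j) := by
  refine ⟨⟨(inferInstance : Df (fun v : Fin 2 → M =>
    SA 0 (v 0) ∧ SU j (v 1) ∧ v 0 ≤ v 1)).congr fun v => ?_⟩⟩
  generalize v 0 = x
  generalize v 1 = y
  constructor
  · rintro ⟨n, rfl, rfl⟩
    exact ⟨⟨n, rfl⟩, ⟨n, rfl⟩, (a_le_u _ _ _ _).2 (h0 _ _).symm⟩
  · rintro ⟨⟨n, rfl⟩, ⟨m, rfl⟩, hle⟩
    rw [a_le_u, h0] at hle
    exact ⟨n, rfl, by rw [hle]⟩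

instance dgA (i : Fin 3) : DG (M.a i) := by
  refine ⟨⟨(inferInstance : Df (fun v : Fin 2 → M =>
    SA 0 (v 0) ∧ SA i (v 1) ∧ ∃ z, SU 1 z ∧ v 0 ≤ z ∧ v 1 ≤ z)).congr fun v => ?_⟩⟩
  generalize v 0 = x
  generalize v 1 = y
  constructor
  · rintro ⟨n, rfl, rfl⟩
    exact ⟨⟨n, rfl⟩, ⟨n, rfl⟩, _, ⟨n, rfl⟩, (a_le_u _ _ _ _).2 (h1 _ _).symm,
      (a_le_u _ _ _ _).2 (h1 _ _).symm⟩
  · rintro ⟨⟨n, rfl⟩, ⟨m, rfl⟩, z, ⟨k, rfl⟩, hle, hle'⟩
    rw [a_le_u, h1] at hle hle'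
    exact ⟨n, rfl, by rw [hle, hle']⟩

theorem dgConst (y₀ : M) : DG (fun _ => y₀) := by
  refine ⟨⟨(inferInstance : Df (fun v : Fin 2 → M =>
    SA 0 (v 0) ∧ v 1 = y₀)).congr fun v => ?_⟩⟩
  generalize v 0 = x
  generalize v 1 = y
  constructor
  · rintro ⟨n, rfl, rfl⟩
    exact ⟨⟨n, rfl⟩, rfl⟩
  · rintro ⟨⟨n, rfl⟩, rfl⟩
    exact ⟨n, rfl, rfl⟩

def pr (i : Fin 3) (n : ℕ) : M := M.a 0 (h 0 i n)

instance dgPr (i : Fin 3) : DG (pr i) := by
  refine ⟨⟨(inferInstance : Df (fun v : Fin 2 → M =>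
    ∃ z, Gr (M.u 0) (v 0) z ∧ ∃ w, Gr (M.a i) (v 1) w ∧ w ≤ z)).congr fun v => ?_⟩⟩
  generalize v 0 = x
  generalize v 1 = y
  constructor
  · rintro ⟨n, rfl, rfl⟩
    exact ⟨_, ⟨n, rfl, rfl⟩, _, ⟨_, rfl, rfl⟩, (a_le_u _ _ _ _).2 rfl⟩
  · rintro ⟨z, ⟨n, rfl, rfl⟩, w, ⟨m, rfl, rfl⟩, hle⟩
    rw [a_le_u] at hle
    exact ⟨n, rfl, by rw [hle]; rfl⟩

theorem pr1 (n : ℕ) : pr 1 n = M.a 0 n.unpair.1 := by simp [pr, h]
theorem pr2 (n : ℕ) : pr 2 n = M.a 0 n.unpair.2 := by simp [pr, h]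

noncomputable def ce (n : ℕ) : M := M.c (e n)

instance dgCe : DG ce := by
  refine ⟨⟨(inferInstance : Df (fun v : Fin 2 → M =>
    SA 0 (v 0) ∧ SC (v 1) ∧ v 0 ≤ v 1 ∧ ¬ ∃ z, SC z ∧ v 0 ≤ z ∧ ¬ v 1 ≤ z)).congr fun v => ?_⟩⟩
  generalize v 0 = x
  generalize v 1 = y
  constructor
  · rintro ⟨n, rfl, rfl⟩
    refine ⟨⟨n, rfl⟩, ⟨_, rfl⟩, (a_le_c _ _).2 le_rfl, ?_⟩
    rintro ⟨z, ⟨w, rfl⟩, h1, h2⟩
    exact h2 ((c_le_c _ _).2 ((a_le_c _ _).1 h1))
  · rintro ⟨⟨n, rfl⟩, ⟨w, rfl⟩, hle, hn⟩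
    refine ⟨n, rfl, ?_⟩
    rw [a_le_c] at hle
    have : M.c w ≤ M.c (e n) := by
      by_contra hc
      exact hn ⟨_, ⟨_, rfl⟩, (a_le_c _ _).2 le_rfl, hc⟩
    rw [c_le_c] at this
    rw [ce, le_antisymm this hle]

/-- every set of numbers is definable -/
def N1 (S : ℕ → Prop) (x : M) : Prop := ∃ n, x = .a 0 n ∧ S n

open Classical in
theorem d1N1 (S : ℕ → Prop) : D1 (N1 S) := by
  let χ : C := toLex fun i => decide (S i)
  refine ⟨(inferInstance : Df (fun v : Fin 1 → M =>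
    ∃ t, ST t ∧ Gr (pr 1) t (v 0) ∧ ∃ w, Gr (pr 2) t w ∧ ∃ q, Gr (pr 1) w q ∧ q ≤ M.c χ ∧
      ∃ r, Gr (pr 2) w r ∧ ∃ y, Gr ce r y ∧ M.c χ ≤ y)).congr fun v => ?_⟩
  generalize v 0 = x
  constructor
  · rintro ⟨n, rfl, hn⟩
    obtain ⟨q, hq⟩ := e_spec χ (n + 1) false
    obtain ⟨r, hr⟩ := e_spec χ (n + 1) true
    refine ⟨M.a 0 (Nat.pair n (Nat.pair q r)), ⟨_, rfl, ?_⟩, ⟨_, rfl, by simp [pr1]⟩,
      M.a 0 (Nat.pair q r), ⟨_, rfl, by simp [pr2]⟩, M.a 0 q, ⟨_, rfl, by simp [pr1]⟩, ?_,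
      M.a 0 r, ⟨_, rfl, by simp [pr2]⟩, _, ⟨_, rfl, rfl⟩, ?_⟩
    · intro y h1 h2
      simp only [Nat.unpair_pair] at h1 h2 ⊢
      rw [hq] at h1
      rw [hr] at h2
      rw [agree χ y (n + 1) h1 h2 n (by omega)]
      simp [χ, hn]
    · rw [a_le_c, hq]; exact trunc_le _ _
    · rw [ce, c_le_c, hr]; exact le_trunc _ _
  · rintro ⟨t, ⟨k, rfl, hk⟩, ⟨k1, e1, rfl⟩, w, ⟨k2, e2, rfl⟩, q, ⟨k3, e3, rfl⟩, hq, r,
      ⟨k4, e4, rfl⟩, y, ⟨k5, e5, rfl⟩, hy⟩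
    rw [pr2] at e3 e4 e5
    rw [pr1] at hq
    simp only [M.a.injEq, true_and] at e1 e2 e3 e4 e5
    subst e1 e2 e3 e4 e5
    rw [a_le_c] at hq
    rw [ce, c_le_c] at hy
    have := hk χ hq hy
    refine ⟨_, pr1 _, ?_⟩
    simpa [χ] using this

instance iN1 {α : Type} (S : ℕ → Prop) (s : (α → M) → M) [Tm s] : Df (fun v => N1 S (s v)) :=
  @D1.app _ _ _ (d1N1 S) _ s _

/-- every binary relation on numbers is definable -/
def N2 (R : ℕ → ℕ → Prop) (x y : M) : Prop := ∃ n m, x = .a 0 n ∧ y = .a 0 m ∧ R n m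

theorem d2N2 (R : ℕ → ℕ → Prop) : D2 (N2 R) := by
  refine ⟨(inferInstance : Df (fun v : Fin 2 → M =>
    ∃ t, N1 (fun k => R k.unpair.1 k.unpair.2) t ∧ Gr (pr 1) t (v 0) ∧ Gr (pr 2) t (v 1))).congr
      fun v => ?_⟩
  generalize v 0 = x
  generalize v 1 = y
  constructor
  · rintro ⟨n, m, rfl, rfl, hR⟩
    exact ⟨M.a 0 (Nat.pair n m), ⟨_, rfl, by simpa using hR⟩, ⟨_, rfl, by simp [pr1]⟩,
      ⟨_, rfl, by simp [pr2]⟩⟩
  · rintro ⟨t, ⟨k, rfl, hk⟩, ⟨k1, e1, rfl⟩, ⟨k2, e2, rfl⟩⟩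
    simp only [M.a.injEq, true_and] at e1 e2
    subst e1 e2
    exact ⟨_, _, pr1 _, pr2 _, hk⟩

instance iN2 {α : Type} (R : ℕ → ℕ → Prop) (s t : (α → M) → M) [Tm s] [Tm t] :
    Df (fun v => N2 R (s v) (t v)) :=
  @D2.app _ _ _ (d2N2 R) _ s t _ _

abbrev Srt := Fin 3 ⊕ Fin 2 ⊕ Fin 4 ⊕ Fin 2

def io : Srt → ℕ → M
  | .inl i => M.a i
  | .inr (.inl j) => M.u j
  | .inr (.inr (.inl k)) => fun _ => M.p k
  | .inr (.inr (.inr k)) => fun _ => M.q k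

instance dgIo (s : Srt) : DG (io s) := by
  rcases s with i | j | k | k
  · exact dgA i
  · exact dgU j
  · exact dgConst _
  · exact dgConst _

theorem io_cover (x : M) : ¬ SC x ↔ ∃ s n, x = io s n := by
  constructor
  · intro hx
    cases x with
    | a i n => exact ⟨.inl i, n, rfl⟩
    | u j n => exact ⟨.inr (.inl j), n, rfl⟩
    | p k => exact ⟨.inr (.inr (.inl k)), 0, rfl⟩
    | q k => exact ⟨.inr (.inr (.inr k)), 0, rfl⟩
    | c y => exact absurd ⟨y, rfl⟩ hx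
  · rintro ⟨s, n, rfl⟩ ⟨y, hy⟩
    rcases s with i | j | k | k <;> simp [io] at hy

/-- every binary relation on the countable part is definable -/
def B2 (R : M → M → Prop) (x y : M) : Prop := ¬ SC x ∧ ¬ SC y ∧ R x y

theorem d2B2 (R : M → M → Prop) : D2 (B2 R) := by
  refine ⟨(dfExFin (fun (s : Srt × Srt) (v : Fin 2 → M) =>
    ∃ x', Gr (io s.1) x' (v 0) ∧ ∃ y', Gr (io s.2) y' (v 1) ∧
      N2 (fun n m => R (io s.1 n) (io s.2 m)) x' y') (fun s => inferInstance)).congr fun v => ?_⟩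
  generalize v 0 = x
  generalize v 1 = y
  constructor
  · rintro ⟨hx, hy, hR⟩
    obtain ⟨s, n, rfl⟩ := (io_cover x).1 hx
    obtain ⟨t, m, rfl⟩ := (io_cover y).1 hy
    exact ⟨(s, t), _, ⟨n, rfl, rfl⟩, _, ⟨m, rfl, rfl⟩, n, m, rfl, rfl, hR⟩
  · rintro ⟨s, x', ⟨n, rfl, rfl⟩, y', ⟨m, rfl, rfl⟩, n', m', e1, e2, hR⟩
    simp only [M.a.injEq, true_and] at e1 e2
    subst e1 e2
    exact ⟨(io_cover _).2 ⟨_, _, rfl⟩, (io_cover _).2 ⟨_, _, rfl⟩, hR⟩

instance iB2 {α : Type} (R : M → M → Prop) (s t : (α → M) → M) [Tm s] [Tm t] :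
    Df (fun v => B2 R (s v) (t v)) :=
  @D2.app _ _ _ (d2B2 R) _ s t _ _

/-- countable families of up-sets -/
def UU (U : M → M → Prop) (d x : M) : Prop := ¬ SC d ∧ U d x

theorem d2UU (U : M → M → Prop) (hU : ∀ d x y, x ≤ y → U d x → U d y) : D2 (UU U) := by
  let R1 : M → M → Prop := fun d n => ∃ k, n = M.a 0 k ∧ U d (ce k)
  let R2 : M → M → Prop := fun d _ => ∃ l, U d (M.c l) ∧ ∀ y, U d (M.c y) → l ≤ y
  let R3 : M → M → Prop := fun d n => ∀ y, U d (M.c y) → n ≤ M.c y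
  refine ⟨(inferInstance : Df (fun v : Fin 2 → M =>
    B2 U (v 0) (v 1) ∨ (SC (v 1) ∧ ((∃ n, B2 R1 (v 0) n ∧ n ≤ v 1) ∨
      (B2 R2 (v 0) (v 0) ∧ ¬ ∃ n, SA 0 n ∧ ¬ (n ≤ v 1 ↔ B2 R3 (v 0) n)))))).congr fun v => ?_⟩
  generalize v 0 = d
  generalize v 1 = x
  have hna : ∀ k, ¬ SC (M.a 0 k) := fun k ⟨y, hy⟩ => by simp at hy
  constructor
  · rintro ⟨hd, hx⟩
    by_cases hc : SC x
    · right
      refine ⟨hc, ?_⟩
      obtain ⟨x, rfl⟩ := hc
      by_cases hm : ∀ y, U d (M.c y) → x ≤ y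
      · right
        refine ⟨⟨hd, hd, x, hx, hm⟩, ?_⟩
        rintro ⟨n, ⟨k, rfl⟩, hn⟩
        apply hn
        constructor
        · intro hle
          exact ⟨hd, hna k, fun y hy => hle.trans ((c_le_c _ _).2 (hm y hy))⟩
        · rintro ⟨_, _, h3⟩
          exact h3 x hx
      · left
        push Not at hm
        obtain ⟨y, hy, hlt⟩ := hm
        obtain ⟨k, h1, h2⟩ := dense x y hlt
        exact ⟨M.a 0 k, ⟨hd, hna k, k, rfl, hU d _ _ ((c_le_c _ _).2 h1.le) hy⟩,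
          (a_le_c _ _).2 h2⟩
    · exact Or.inl ⟨hd, hc, hx⟩
  · rintro (⟨hd, _, hx⟩ | ⟨⟨x, rfl⟩, ⟨n, ⟨hd, _, k, rfl, hk⟩, hle⟩ | ⟨⟨hd, _, l, hl, hm⟩, hn⟩⟩)
    · exact ⟨hd, hx⟩
    · exact ⟨hd, hU d _ _ ((c_le_c _ _).2 ((a_le_c _ _).1 hle)) hk⟩
    · refine ⟨hd, ?_⟩
      have : x = l := by
        apply c_ext
        intro k
        have hk : M.a 0 k ≤ M.c x ↔ B2 R3 d (M.a 0 k) := by
          by_contra hc
          exact hn ⟨_, ⟨k, rfl⟩, hc⟩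
        rw [← a_le_c, hk]
        constructor
        · rintro ⟨_, _, h3⟩
          exact (a_le_c _ _).1 (h3 l hl)
        · intro hle
          exact ⟨hd, hna k, fun y hy => (a_le_c _ _).2 (hle.trans (hm y hy))⟩
      rw [this]; exact hl

theorem m_ext (x y : M) (h : ∀ d, ¬ SC d → (d ≤ x ↔ d ≤ y) ∧ (x ≤ d ↔ y ≤ d)) : x = y := by
  by_cases hx : SC x
  · by_cases hy : SC y
    · obtain ⟨x, rfl⟩ := hx
      obtain ⟨y, rfl⟩ := hy
      congr 1
      apply c_ext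
      intro k
      rw [← a_le_c, ← a_le_c]
      exact (h _ (fun ⟨y, hy⟩ => by simp at hy)).1
    · exact le_antisymm ((h y hy).2.2 le_rfl) ((h y hy).1.2 le_rfl)
  · exact le_antisymm ((h x hx).1.1 le_rfl) ((h x hx).2.1 le_rfl)

theorem graph_df (f : M → M) (hf : Monotone f) : Df (fun v : Fin 2 → M => f (v 0) = v 1) := by
  have h1 := d2UU (fun d x => d ≤ f x) (fun d x y hxy hd => hd.trans (hf hxy))
  have h2 := d2UU (fun d x => ¬ f x ≤ d) (fun d x y hxy hd hc => hd ((hf hxy).trans hc))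
  haveI i1 : ∀ {α : Type} (s t : (α → M) → M) [Tm s] [Tm t],
      Df (fun v => UU (fun d x => d ≤ f x) (s v) (t v)) := fun s t _ _ => D2.app _ s t
  haveI i2 : ∀ {α : Type} (s t : (α → M) → M) [Tm s] [Tm t],
      Df (fun v => UU (fun d x => ¬ f x ≤ d) (s v) (t v)) := fun s t _ _ => D2.app _ s t
  refine (inferInstance : Df (fun v : Fin 2 → M => ¬ ∃ d, ¬ SC d ∧
    ¬ ((UU (fun d x => d ≤ f x) d (v 0) ↔ d ≤ v 1) ∧
      (UU (fun d x => ¬ f x ≤ d) d (v 0) ↔ ¬ v 1 ≤ d)))).congr fun v => ?_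
  generalize v 0 = x
  generalize v 1 = y
  constructor
  · rintro rfl ⟨d, hd, hn⟩
    exact hn ⟨by simp [UU, hd], by simp [UU, hd]⟩
  · intro hn
    apply m_ext
    intro d hd
    have : (UU (fun d x => d ≤ f x) d x ↔ d ≤ y) ∧ (UU (fun d x => ¬ f x ≤ d) d x ↔ ¬ y ≤ d) := by
      by_contra hc
      exact hn ⟨d, hd, hc⟩
    simp only [UU, hd, not_false_eq_true, true_and] at this
    exact ⟨this.1, not_iff_not.1 this.2⟩

instance : Infinite M := Infinite.of_injective (M.a 0) (fun _ _ h => by simpa using h)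

end Pool.Agent.H6.DefPoB
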