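import Mathlib

set_option autoImplicit false

open Submodule Module Finset

namespace Pool.Agent.H6.DoiA

/-- Rado's theorem on independent transversals for families of pairs. -/
theorem rado {ι W : Type} [Fintype ι] [DecidableEq ι] [AddCommGroup W] [Module ℝ W]
    [FiniteDimensional ℝ W] (n : ℕ) : ∀ (p q : ι → W),
    (∀ T : Finset ι, T.card ≤ finrank ℝ (span ℝ (p '' T ∪ q '' T))) →
    (open Classical in (univ.filter fun i => p i ≠ q i).card) ≤ n →
    ∃ w : ι → W, (∀ i, w i = p i ∨ w i = q i) ∧ LinearIndependent ℝ w := by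
  classical
  have base : ∀ (p q : ι → W), (∀ T : Finset ι, T.card ≤ finrank ℝ (span ℝ (p '' T ∪ q '' T))) →
      (∀ i, p i = q i) → ∃ w : ι → W, (∀ i, w i = p i ∨ w i = q i) ∧ LinearIndependent ℝ w := by
    intro p q h hpq
    have e : q = p := funext fun i => (hpq i).symm
    subst e
    refine ⟨q, fun i => Or.inl rfl, ?_⟩
    rw [linearIndependent_iff_card_le_finrank_span]
    have := h univ
    rwa [Set.union_self, coe_univ, Set.image_univ] at this
  induction n with
  | zero =>
    intro p q h hn
    refine base p q h fun i => ?_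
    by_contra hi
    have : i ∈ univ.filter fun i => p i ≠ q i := by simpa using hi
    have := card_pos.2 ⟨i, this⟩
    omega
  | succ n ih =>
    intro p q h hn
    by_cases hpq : ∀ i, p i = q i
    · exact base p q h hpq
    push Not at hpq
    obtain ⟨i, hi⟩ := hpq
    have hmem : i ∈ univ.filter fun i => p i ≠ q i := by simpa using hi
    have hc := card_erase_of_mem hmem
    by_cases hA : ∀ T : Finset ι, T.card ≤
        finrank ℝ (span ℝ (p '' T ∪ Function.update q i (p i) '' T))
    · obtain ⟨w, hw, hl⟩ := ih p (Function.update q i (p i)) hA (by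
        refine le_trans (card_le_card (t := (univ.filter fun i => p i ≠ q i).erase i) ?_)
          (by omega)
        intro j hj
        by_cases hji : j = i
        · subst hji; simp at hj
        · simpa [hji] using hj)
      refine ⟨w, fun j => ?_, hl⟩
      by_cases hji : j = i
      · subst hji; left; simpa using hw j
      · simpa [hji] using hw j
    by_cases hB : ∀ T : Finset ι, T.card ≤
        finrank ℝ (span ℝ (Function.update p i (q i) '' T ∪ q '' T))
    · obtain ⟨w, hw, hl⟩ := ih (Function.update p i (q i)) q hB (by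
        refine le_trans (card_le_card (t := (univ.filter fun i => p i ≠ q i).erase i) ?_)
          (by omega)
        intro j hj
        by_cases hji : j = i
        · subst hji; simp at hj
        · simpa [hji] using hj)
      refine ⟨w, fun j => ?_, hl⟩
      by_cases hji : j = i
      · subst hji; right; simpa using hw j
      · simpa [hji] using hw j
    exfalso
    push Not at hA hB
    obtain ⟨A, hA⟩ := hA
    obtain ⟨B, hB⟩ := hB
    have hiA : i ∈ A := by
      by_contra hn'
      have e : Function.update q i (p i) '' A = q '' A :=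
        Set.image_congr fun j hj => Function.update_of_ne (fun h : j = i => hn' (h ▸ hj)) _ _
      rw [e] at hA
      exact absurd (h A) (by omega)
    have hiB : i ∈ B := by
      by_contra hn'
      have e : Function.update p i (q i) '' B = p '' B :=
        Set.image_congr fun j hj => Function.update_of_ne (fun h : j = i => hn' (h ▸ hj)) _ _
      rw [e] at hB
      exact absurd (h B) (by omega)
    set X := span ℝ (p '' A ∪ Function.update q i (p i) '' A)
    set Y := span ℝ (Function.update p i (q i) '' B ∪ q '' B)
    have pA : ∀ j ∈ A, p j ∈ X := fun j hj => subset_span (Or.inl ⟨j, hj, rfl⟩)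
    have qB : ∀ j ∈ B, q j ∈ Y := fun j hj => subset_span (Or.inr ⟨j, hj, rfl⟩)
    have qA : ∀ j ∈ A, j ≠ i → q j ∈ X := fun j hj hji =>
      subset_span (Or.inr ⟨j, hj, Function.update_of_ne hji _ _⟩)
    have pB : ∀ j ∈ B, j ≠ i → p j ∈ Y := fun j hj hji =>
      subset_span (Or.inl ⟨j, hj, Function.update_of_ne hji _ _⟩)
    have h1 : span ℝ (p '' (A ∪ B : Finset ι) ∪ q '' (A ∪ B : Finset ι)) ≤ X ⊔ Y := by
      rw [span_le]
      rintro _ (⟨j, hj, rfl⟩ | ⟨j, hj, rfl⟩)
      · by_cases hjA : j ∈ A
        · exact mem_sup_left (pA j hjA)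
        · have hjB : j ∈ B := by simpa [hjA] using hj
          exact mem_sup_right (pB j hjB fun h => hjA (h ▸ hiA))
      · by_cases hjB : j ∈ B
        · exact mem_sup_right (qB j hjB)
        · have hjA : j ∈ A := by simpa [hjB] using hj
          exact mem_sup_left (qA j hjA fun h => hjB (h ▸ hiB))
    have h2 : span ℝ (p '' ((A ∩ B).erase i : Finset ι) ∪ q '' ((A ∩ B).erase i : Finset ι)) ≤
        X ⊓ Y := by
      rw [span_le]
      rintro _ (⟨j, hj, rfl⟩ | ⟨j, hj, rfl⟩)
      · have hj' : j ≠ i ∧ j ∈ A ∧ j ∈ B := by simpa [and_comm] using hj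
        exact ⟨pA j hj'.2.1, pB j hj'.2.2 hj'.1⟩
      · have hj' : j ≠ i ∧ j ∈ A ∧ j ∈ B := by simpa [and_comm] using hj
        exact ⟨qA j hj'.2.1 hj'.1, qB j hj'.2.2⟩
    have k1 := (h _).trans (Submodule.finrank_mono h1)
    have k2 := (h _).trans (Submodule.finrank_mono h2)
    have k3 := Submodule.finrank_sup_add_finrank_inf_eq X Y
    have k4 := card_union_add_card_inter A B
    have k5 := card_erase_of_mem (mem_inter.2 ⟨hiA, hiB⟩)
    have k6 := card_pos.2 ⟨i, mem_inter.2 ⟨hiA, hiB⟩⟩
    omega

/-- Covering by two independent sets. -/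
theorem cover {ι V : Type} [Fintype ι] [DecidableEq ι] [AddCommGroup V] [Module ℝ V]
    [FiniteDimensional ℝ V] (v : ι → V)
    (h : ∀ T : Finset ι, T.card ≤ 2 * finrank ℝ (span ℝ (v '' T))) :
    ∃ T : Finset ι, LinearIndepOn ℝ v T ∧ LinearIndepOn ℝ v (Tᶜ : Finset ι) := by
  classical
  obtain ⟨w, hw, hl⟩ := rado _ (fun i => LinearMap.inl ℝ V V (v i))
    (fun i => LinearMap.inr ℝ V V (v i)) (by
      intro T
      refine (h T).trans (le_of_eq ?_)
      rw [← Set.image_image (LinearMap.inl ℝ V V), ← Set.image_image (LinearMap.inr ℝ V V),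
        LinearMap.span_inl_union_inr]
      set U := span ℝ (v '' T)
      have e : U.prod U = LinearMap.range (U.subtype.prodMap U.subtype) := by
        rw [LinearMap.range_prodMap, range_subtype]
      rw [e, LinearMap.finrank_range_of_inj, finrank_prod, two_mul]
      intro a b hab
      simp only [LinearMap.prodMap_apply, Prod.mk.injEq] at hab
      exact Prod.ext (Subtype.ext hab.1) (Subtype.ext hab.2)) le_rfl
  refine ⟨univ.filter fun i => w i = LinearMap.inl ℝ V V (v i), ?_, ?_⟩
  · apply LinearIndepOn.of_comp (LinearMap.inl ℝ V V)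
    refine (linearIndepOn_congr (w := w) fun i hi => ?_).2 (hl.linearIndepOn _)
    have : w i = LinearMap.inl ℝ V V (v i) := by simpa using hi
    exact this.symm
  · apply LinearIndepOn.of_comp (LinearMap.inr ℝ V V)
    refine (linearIndepOn_congr (w := w) fun i hi => ?_).2 (hl.linearIndepOn _)
    have : ¬ w i = LinearMap.inl ℝ V V (v i) := by simpa using hi
    exact ((hw i).resolve_left this).symm

end Pool.Agent.H6.DoiA
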