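import Pool.Agent.H6.DoiA

set_option autoImplicit false

open Submodule Module Finset

namespace Pool.Agent.H6.DoiB
open Pool.Agent.H6.DoiA

variable {α V : Type} [DecidableEq α] [AddCommGroup V] [Module ℝ V]

/-- A dependency that is positive on a set spanning its support. -/
def Good (L : α → V) (S : Finset α) : Prop :=
  ∃ (Y β : Finset α) (l : α → ℝ), Y ⊆ S ∧ β ⊆ Y ∧ β.Nonempty ∧ (∀ y ∈ β, 0 < l y) ∧
    ∑ y ∈ Y, l y • L y = 0 ∧ ∀ y ∈ Y, L y ∈ span ℝ (L '' β)

theorem good_of (L : α → V) (S β B : Finset α) (hβ : β ⊆ S) (hB : B ⊆ S) (hd : Disjoint β B)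
    (hne : β.Nonempty) (a : α → ℝ) (ha : ∀ y ∈ β, 0 < a y)
    (h1 : ∑ y ∈ β, a y • L y ∈ span ℝ (L '' B)) (h2 : ∀ y ∈ B, L y ∈ span ℝ (L '' β)) :
    Good L S := by
  obtain ⟨μ, hμ⟩ := (Submodule.mem_span_image_finset_iff_exists_fun' ℝ).1 h1
  refine ⟨β ∪ B, β, fun y => if y ∈ β then a y else -μ y, union_subset hβ hB, subset_union_left,
    hne, fun y hy => by simpa [hy] using ha y hy, ?_, fun y hy => ?_⟩
  · rw [sum_union hd, sum_congr rfl (g := fun y => a y • L y) (fun y hy => by simp [hy]),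
      sum_congr rfl (s₁ := B) (g := fun y => -(μ y • L y))
        (fun y hy => by simp [disjoint_right.1 hd hy]), sum_neg_distrib, hμ, add_neg_cancel]
  · rcases mem_union.1 hy with h | h
    · exact subset_span ⟨y, h, rfl⟩
    · exact h2 y h

theorem exists_fun (L : α → V) (e : α) (B : Finset α) (h : L e ∉ span ℝ (L '' B)) :
    ∃ ψ : V →ₗ[ℝ] ℝ, ψ (L e) = 1 ∧ ∀ v ∈ span ℝ (L '' B), ψ v = 0 := by
  obtain ⟨f, hf, hf'⟩ := Submodule.exists_dual_map_eq_bot_of_notMem h inferInstance
  refine ⟨(f (L e))⁻¹ • f, by simp [inv_mul_cancel₀ hf], fun v hv => ?_⟩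
  have : f v = 0 := by
    have : f v ∈ (span ℝ (L '' B)).map f := mem_map_of_mem hv
    rwa [hf', mem_bot] at this
  simp [this]

theorem step1 (L : α → V) (S B1 B2 : Finset α) (e : α) (he : e ∈ S) (h1 : B1 ⊆ S) (h2 : B2 ⊆ S)
    (hd : Disjoint (insert e B2) B1)
    (H1 : ∀ y ∈ B2, L y ∈ span ℝ (L '' (insert e B1 : Finset α)))
    (H2 : ∀ y ∈ B1, L y ∈ span ℝ (L '' (insert e B2 : Finset α)))
    (ψ : V →ₗ[ℝ] ℝ) (hψ : ψ (L e) = 1) (hψ0 : ∀ v ∈ span ℝ (L '' B1), ψ v = 0)
    (f : α) (hf : f ∈ B2) (hψf : ψ (L f) < 0) : Good L S := by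
  have key : ∀ v ∈ span ℝ (L '' (insert e B1 : Finset α)), ψ v = 0 → v ∈ span ℝ (L '' B1) := by
    intro v hv h0
    rw [coe_insert, Set.image_insert_eq, mem_span_insert] at hv
    obtain ⟨a, z, hz, rfl⟩ := hv
    have : a = 0 := by simpa [hψ, hψ0 z hz] using h0
    simpa [this] using hz
  have hmem : ∀ a : α → ℝ, ∑ y ∈ insert e B2, a y • L y ∈
      span ℝ (L '' (insert e B1 : Finset α)) := by
    intro a
    refine sum_mem fun y hy => smul_mem _ _ ?_
    rcases mem_insert.1 hy with rfl | hy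
    · exact subset_span ⟨y, by simp, rfl⟩
    · exact H1 y hy
  obtain ⟨g, hg, t, ht, hgt⟩ : ∃ g ∈ insert e B2, ∃ t : ℝ, 0 ≤ t ∧
      ∑ y ∈ insert e B2, ψ (L y) + t * ψ (L g) = 0 := by
    rcases le_total (∑ y ∈ insert e B2, ψ (L y)) 0 with h | h
    · exact ⟨e, mem_insert_self _ _, -∑ y ∈ insert e B2, ψ (L y), by linarith, by simp [hψ]⟩
    · refine ⟨f, mem_insert_of_mem hf, (∑ y ∈ insert e B2, ψ (L y)) / (-ψ (L f)),
        div_nonneg h (by linarith), ?_⟩
      have : ψ (L f) ≠ 0 := hψf.ne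
      field_simp
      ring
  refine good_of L S (insert e B2) B1 (insert_subset he h2) h1 hd (insert_nonempty _ _)
    (fun y => 1 + if y = g then t else 0) (fun y _ => by split_ifs <;> linarith)
    (key _ (hmem _) ?_) H2
  simp only [map_sum, map_smul, smul_eq_mul, add_mul, one_mul, sum_add_distrib, ite_mul,
    zero_mul, sum_ite_eq', hg, if_true]
  exact hgt

theorem notMem_of_indep (L : α → V) (β : Finset α) (h : LinearIndepOn ℝ L β) (f : α)
    (hf : f ∈ β) : L f ∉ span ℝ (L '' (β.erase f : Finset α)) := by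
  refine ((h.mono (by simp)).notMem_span_iff.2 ⟨?_, by simp⟩)
  rwa [← coe_insert, insert_erase hf]

theorem finrank_of_indep (L : α → V) (β : Finset α) (h : LinearIndepOn ℝ L β) :
    finrank ℝ (span ℝ (L '' β)) = β.card := by
  have := finrank_span_eq_card h.linearIndependent
  rw [Set.image_eq_range]
  simpa using this

theorem step2 [FiniteDimensional ℝ V] (L : α → V) (S B1 B2 : Finset α) (e : α) (he : e ∈ S)
    (h1 : B1 ⊆ S) (h2 : B2 ⊆ S) (he1 : e ∉ B1) (he2 : e ∉ B2) (hd : Disjoint B1 B2)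
    (hne : B2.Nonempty) (hcard : B1.card = B2.card)
    (i1 : LinearIndepOn ℝ L (insert e B1 : Finset α))
    (i2 : LinearIndepOn ℝ L (insert e B2 : Finset α))
    (H1 : ∀ y ∈ B2, L y ∈ span ℝ (L '' (insert e B1 : Finset α)))
    (H2 : ∀ y ∈ B1, L y ∈ span ℝ (L '' (insert e B2 : Finset α))) : Good L S := by
  by_contra hno
  have n1 := notMem_of_indep L _ i1 e (mem_insert_self _ _)
  have n2 := notMem_of_indep L _ i2 e (mem_insert_self _ _)
  rw [erase_insert he1] at n1
  rw [erase_insert he2] at n2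
  obtain ⟨ψ, hψ, hψ0⟩ := exists_fun L e B1 n1
  have d21 : Disjoint (insert e B2) B1 := disjoint_insert_left.2 ⟨he1, hd.symm⟩
  have d12 : Disjoint (insert e B1) B2 := disjoint_insert_left.2 ⟨he2, hd⟩
  have hpos : ∀ f ∈ B2, 0 ≤ ψ (L f) := fun f hf => by
    by_contra h
    exact hno (step1 L S B1 B2 e he h1 h2 d21 H1 H2 ψ hψ hψ0 f hf (by linarith))
  have coord : ∀ (γ : α → ℝ) (f : α), f ∈ insert e B2 → ∀ χ : V →ₗ[ℝ] ℝ, χ (L f) = 1 →
      (∀ v ∈ span ℝ (L '' ((insert e B2).erase f : Finset α)), χ v = 0) →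
      χ (∑ y ∈ insert e B2, γ y • L y) = γ f := by
    intro γ f hf χ c1 c0
    rw [← add_sum_erase _ _ hf, map_add, c0 (∑ y ∈ (insert e B2).erase f, γ y • L y)
      (sum_mem fun y hy => smul_mem _ _ (subset_span ⟨y, hy, rfl⟩))]
    simp [c1]
  have hsub : ∀ b ∈ B1, L b ∈ span ℝ (L '' B2) := by
    intro b hb
    by_contra hb'
    obtain ⟨γ, hγ⟩ := (Submodule.mem_span_image_finset_iff_exists_fun' ℝ).1 (H2 b hb)
    have hγe : γ e ≠ 0 := by
      intro h0
      apply hb'
      rw [← hγ, sum_insert he2, h0, zero_smul, zero_add]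
      exact sum_mem fun y hy => smul_mem _ _ (subset_span ⟨y, hy, rfl⟩)
    have hz : γ e + ∑ y ∈ B2, γ y * ψ (L y) = 0 := by
      have := hψ0 (L b) (subset_span ⟨b, hb, rfl⟩)
      rw [← hγ, sum_insert he2] at this
      simpa [hψ] using this
    rcases lt_or_gt_of_ne hγe with h | h
    · obtain ⟨χ, c1, c0⟩ := exists_fun L e B2 n2
      refine hno (step1 L S B2 B1 e he h2 h1 d12 H2 H1 χ c1 c0 b hb ?_)
      rw [← hγ, coord γ e (mem_insert_self _ _) χ c1 (by rwa [erase_insert he2])]
      exact h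
    · obtain ⟨f, hf, hf'⟩ : ∃ f ∈ B2, γ f * ψ (L f) < 0 := by
        by_contra hc
        push Not at hc
        have := sum_nonneg hc
        linarith
      have p1 : 0 < ψ (L f) := lt_of_le_of_ne (hpos f hf) fun h => by simp [← h] at hf'
      have p2 : γ f < 0 := by nlinarith
      have hfm : f ∈ insert e B2 := mem_insert_of_mem hf
      obtain ⟨χ, c1, c0⟩ := exists_fun L f _ (notMem_of_indep L _ i2 f hfm)
      have hfB1 : f ∉ B1 := disjoint_right.1 hd hf
      refine hno (step1 L S ((insert e B2).erase f) B1 f (h2 hf)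
        ((erase_subset _ _).trans (insert_subset he h2)) h1 ?_ ?_ ?_ χ c1 c0 b hb ?_)
      · exact disjoint_insert_left.2 ⟨by simp, d21.symm.mono_right (erase_subset _ _)⟩
      · intro y hy
        rw [insert_erase hfm]
        exact H2 y hy
      · have hle : span ℝ (L '' (insert e B1 : Finset α)) ≤
            span ℝ (L '' (insert f B1 : Finset α)) := by
          have hB : span ℝ (L '' B1) ≤ span ℝ (L '' (insert f B1 : Finset α)) :=
            span_mono (Set.image_mono (by simp))
          have hf1 := H1 f hf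
          rw [coe_insert, Set.image_insert_eq, mem_span_insert] at hf1
          obtain ⟨a, z, hz', hfa⟩ := hf1
          have ha : a ≠ 0 := by
            intro h0
            rw [hfa, h0, zero_smul, zero_add, hψ0 z hz'] at p1
            exact lt_irrefl _ p1
          have hLe : L e = a⁻¹ • (L f - z) := by
            rw [hfa, add_sub_cancel_right, smul_smul, inv_mul_cancel₀ ha, one_smul]
          rw [span_le]
          rintro _ ⟨y, hy, rfl⟩
          rcases mem_insert.1 (mem_coe.1 hy) with rfl | hy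
          · rw [hLe]
            exact smul_mem _ _ (sub_mem (subset_span ⟨f, by simp, rfl⟩) (hB hz'))
          · exact hB (subset_span ⟨y, hy, rfl⟩)
        intro y hy
        apply hle
        rcases mem_insert.1 (mem_of_mem_erase hy) with rfl | hy
        · exact subset_span ⟨y, by simp, rfl⟩
        · exact H1 y hy
      · rw [← hγ, coord γ f hfm χ c1 c0]
        exact p2
  have heq : span ℝ (L '' B1) = span ℝ (L '' B2) := by
    apply Submodule.eq_of_le_of_finrank_le
    · rw [span_le]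
      rintro _ ⟨b, hb, rfl⟩
      exact hsub b hb
    · rw [finrank_of_indep L B1 (i1.mono (by simp)), finrank_of_indep L B2 (i2.mono (by simp)),
        hcard]
  refine hno (good_of L S B2 B1 h2 h1 hd.symm hne (fun _ => 1) (fun _ _ => one_pos) ?_ hsub)
  rw [heq]
  exact sum_mem fun y hy => smul_mem _ _ (subset_span ⟨y, hy, rfl⟩)

theorem main [FiniteDimensional ℝ V] (L : α → V) (S : Finset α)
    (hL1 : ∀ x, L x ≠ 0) (hL2 : ∀ x y, x ≠ y → LinearIndepOn ℝ L ({x, y} : Finset α))
    (h2 : 2 ≤ S.card) (hS : 2 * finrank ℝ (span ℝ (L '' S)) ≤ S.card + 1) : Good L S := by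
  classical
  obtain ⟨Y, hY, hmin⟩ := exists_min_image (S.powerset.filter fun Y : Finset α =>
    2 ≤ Y.card ∧ 2 * finrank ℝ (span ℝ (L '' Y)) ≤ Y.card + 1) card ⟨S, by simp [h2, hS]⟩
  simp only [mem_filter, mem_powerset] at hY hmin
  obtain ⟨hYS, hY2, hYr⟩ := hY
  have hr2 : 2 ≤ finrank ℝ (span ℝ (L '' Y)) := by
    obtain ⟨x, hx, y, hy, hxy⟩ := one_lt_card.1 (by omega : 1 < Y.card)
    have := finrank_of_indep L _ (hL2 x y hxy)
    rw [card_pair hxy] at this
    rw [← this]
    exact Submodule.finrank_mono (span_mono (Set.image_mono (by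
      intro z hz
      rcases mem_insert.1 (mem_coe.1 hz) with rfl | hz
      · exact hx
      · rw [mem_singleton.1 hz]; exact hy)))
  have hsmall : ∀ Z ⊆ Y, 2 ≤ Z.card → Z.card < Y.card →
      Z.card + 1 < 2 * finrank ℝ (span ℝ (L '' Z)) := by
    intro Z hZ hZ2 hlt
    by_contra h
    have := hmin Z ⟨hZ.trans hYS, hZ2, by omega⟩
    omega
  obtain ⟨e, he⟩ := card_pos.1 (by omega : 0 < Y.card)
  have hall : ∀ Z ⊆ Y, Z.Nonempty → Z.card + 1 ≤ 2 * finrank ℝ (span ℝ (L '' Z)) := by
    intro Z hZ hne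
    by_cases c1 : Z.card = 1
    · obtain ⟨z, rfl⟩ := card_eq_one.1 c1
      rw [coe_singleton, Set.image_singleton, finrank_span_singleton (hL1 z)]
      simp
    have := card_pos.2 hne
    by_cases c2 : Z.card < Y.card
    · exact (hsmall Z hZ (by omega) c2).le
    · have hZY : Z = Y := eq_of_subset_of_card_le hZ (by omega)
      subst hZY
      have k1 := card_erase_of_mem he
      have k2 := hsmall (Z.erase e) (erase_subset _ _) (by omega) (by omega)
      have k3 : finrank ℝ (span ℝ (L '' (Z.erase e : Finset α))) ≤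
          finrank ℝ (span ℝ (L '' Z)) :=
        Submodule.finrank_mono (span_mono (Set.image_mono (by simp)))
      omega
  let g : Option Y → α := fun o => o.elim e Subtype.val
  have hg : ∀ o, g o ∈ Y := by
    rintro (_ | y)
    · exact he
    · exact y.2
  have hcardT : ∀ T : Finset (Option Y), T.card ≤ (T.image g).card + 1 := by
    intro T
    have k1 : (T.erase none).card ≤ (T.image g).card := by
      refine card_le_card_of_injOn g (fun o ho => mem_image_of_mem g (mem_of_mem_erase ho)) ?_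
      rintro (_ | a) ha (_ | b) hb hab
      · rfl
      · simp at ha
      · simp at hb
      · exact congrArg some (Subtype.ext hab)
    have := pred_card_le_card_erase (s := T) (a := none)
    omega
  obtain ⟨T, t1, t2⟩ := cover (L ∘ g) (by
    intro T
    rcases T.eq_empty_or_nonempty with rfl | hne
    · simp
    · have := hall (T.image g) (fun y hy => by
        obtain ⟨o, -, rfl⟩ := mem_image.1 hy
        exact hg o) (hne.image g)
      rw [coe_image, ← Set.image_comp] at this
      exact (hcardT T).trans this)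
  have aux : ∀ T : Finset (Option Y), LinearIndepOn ℝ (L ∘ g) T →
      LinearIndepOn ℝ L (T.image g : Finset α) ∧ (T.image g).card = T.card ∧ T.image g ⊆ Y ∧
        T.card ≤ finrank ℝ (span ℝ (L '' Y)) ∧ ¬ (none ∈ T ∧ some ⟨e, he⟩ ∈ T) := by
    intro T hT
    have a1 : LinearIndepOn ℝ L (T.image g : Finset α) := by
      rw [coe_image]; exact hT.image_of_comp g L
    have a0 : Set.InjOn g T := hT.injOn.of_comp
    have a2 : (T.image g).card = T.card := card_image_of_injOn a0
    have a3 : T.image g ⊆ Y := fun y hy => by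
      obtain ⟨o, -, rfl⟩ := mem_image.1 hy
      exact hg o
    refine ⟨a1, a2, a3, ?_, fun h => ?_⟩
    · rw [← a2, ← finrank_of_indep L _ a1]
      exact Submodule.finrank_mono (span_mono (Set.image_mono a3))
    · exact absurd (a0 h.1 h.2 rfl) (by simp)
  obtain ⟨a1, a2, a3, a4, a5⟩ := aux T t1
  obtain ⟨b1, b2, b3, b4, b5⟩ := aux Tᶜ t2
  have hc := card_add_card_compl T
  have hcO : Fintype.card (Option Y) = Y.card + 1 := by simp
  have e1 : e ∈ T.image g := by
    by_cases h : none ∈ T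
    · exact mem_image_of_mem g h
    · have : some ⟨e, he⟩ ∈ T := by
        by_contra h'
        exact b5 ⟨mem_compl.2 h, mem_compl.2 h'⟩
      exact mem_image_of_mem g this
  have e2 : e ∈ Tᶜ.image g := by
    by_cases h : none ∈ T
    · have : some ⟨e, he⟩ ∈ Tᶜ := mem_compl.2 fun h' => a5 ⟨h, h'⟩
      exact mem_image_of_mem g this
    · exact mem_image_of_mem g (mem_compl.2 h)
  have span_eq : ∀ β : Finset α, β ⊆ Y → LinearIndepOn ℝ L β →
      finrank ℝ (span ℝ (L '' Y)) ≤ β.card → ∀ y ∈ Y, L y ∈ span ℝ (L '' β) := by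
    intro β hβ hi hcard y hy
    rw [Submodule.eq_of_le_of_finrank_le (span_mono (Set.image_mono (coe_subset.2 hβ)))
      (by rw [finrank_of_indep L _ hi]; exact hcard)]
    exact subset_span ⟨y, hy, rfl⟩
  have c1 := card_erase_of_mem e1
  have c2 := card_erase_of_mem e2
  refine step2 L S ((T.image g).erase e) ((Tᶜ.image g).erase e) e (hYS he)
    (((erase_subset _ _).trans a3).trans hYS) (((erase_subset _ _).trans b3).trans hYS)
    (by simp) (by simp) ?_ (card_pos.1 (by omega)) (by omega)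
    (by rwa [insert_erase e1]) (by rwa [insert_erase e2]) ?_ ?_
  · rw [disjoint_left]
    intro y hy hy'
    obtain ⟨hye, hy⟩ := mem_erase.1 hy
    obtain ⟨o, ho, rfl⟩ := mem_image.1 hy
    obtain ⟨o', ho', h⟩ := mem_image.1 (mem_of_mem_erase hy')
    rcases o with _ | a
    · exact hye rfl
    · rcases o' with _ | b
      · exact hye h.symm
      · have : b = a := Subtype.ext h
        subst this
        exact mem_compl.1 ho' ho
  · intro y hy
    rw [insert_erase e1]
    exact span_eq _ a3 a1 (by omega) y (b3 (mem_of_mem_erase hy))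
  · intro y hy
    rw [insert_erase e2]
    exact span_eq _ b3 b1 (by omega) y (a3 (mem_of_mem_erase hy))

end Pool.Agent.H6.DoiB
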