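import Mathlib

set_option autoImplicit false

open Finset

namespace Pool.Agent.H6.EPR

open Classical in
noncomputable def ind (p : Prop) : ℚ := if p then 1 else 0

lemma ind_pos {p : Prop} (h : p) : ind p = 1 := by simp [ind, h]
lemma ind_neg {p : Prop} (h : ¬ p) : ind p = 0 := by simp [ind, h]
lemma ind_nonneg (p : Prop) : 0 ≤ ind p := by unfold ind; split_ifs <;> norm_num
lemma ind_le (p : Prop) : ind p ≤ 1 := by unfold ind; split_ifs <;> norm_num
lemma ind_congr {p q : Prop} (h : p ↔ q) : ind p = ind q := by rw [propext h]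

variable {V : Type} [Fintype V]

lemma anti_sum (F : V → V → ℚ) (h : ∀ i j, F i j = - F j i) : ∑ i, ∑ j, F i j = 0 := by
  have h1 : ∑ i, ∑ j, F i j = ∑ i, ∑ j, - F j i :=
    sum_congr rfl fun i _ => sum_congr rfl fun j _ => h i j
  have h2 : ∑ i, ∑ j, - F j i = - ∑ i, ∑ j, F i j := by
    rw [sum_comm]; simp
  linarith

lemma abs_sum_le (F : V → ℚ) (B : ℚ) (h : ∀ i, |F i| ≤ B) :
    |∑ i, F i| ≤ Fintype.card V * B := by
  refine (abs_sum_le_sum_abs _ _).trans ?_
  have := sum_le_card_nsmul univ (fun i => |F i|) B (fun i _ => h i)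
  simpa using this

lemma abs_ind_mul (p : Prop) (r B : ℚ) (hB : 0 ≤ B) (h : p → |r| ≤ B) : |ind p * r| ≤ B := by
  by_cases hp : p
  · rw [ind_pos hp, one_mul]; exact h hp
  · rw [ind_neg hp]; simpa using hB

variable (G : SimpleGraph V)

def I (u w v : V) : Prop := u ≠ v ∧ ¬ G.Adj u v ∧ G.Adj u w ∧ G.Adj w v
noncomputable def cod (u v : V) : ℚ := ∑ w, ind (G.Adj u w ∧ G.Adj w v)
noncomputable def deg (a : V) : ℚ := ∑ b, ind (G.Adj a b)
noncomputable def non (a : V) : ℚ := ∑ v, ind (a ≠ v ∧ ¬ G.Adj a v)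
def Q (a x y b c : V) : Prop :=
  I G a b x ∧ I G a b y ∧ I G x b y ∧ G.Adj a c ∧ G.Adj x c ∧ G.Adj y c
noncomputable def T (a b c : V) : ℚ := ∑ x, ∑ y, ind (Q G a x y b c)

variable {G}

lemma I_symm {u w v : V} (h : I G u w v) : I G v w u :=
  ⟨h.1.symm, fun e => h.2.1 e.symm, h.2.2.2.symm, h.2.2.1.symm⟩

lemma cod_symm (u v : V) : cod G u v = cod G v u :=
  sum_congr rfl fun _ _ => ind_congr ⟨fun h => ⟨h.2.symm, h.1.symm⟩, fun h => ⟨h.2.symm, h.1.symm⟩⟩

lemma Q12 {a x y b c : V} (h : Q G a x y b c) : Q G x a y b c :=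
  ⟨I_symm h.1, h.2.2.1, h.2.1, h.2.2.2.2.1, h.2.2.2.1, h.2.2.2.2.2⟩

lemma Q23 {a x y b c : V} (h : Q G a x y b c) : Q G a y x b c :=
  ⟨h.2.1, h.1, I_symm h.2.2.1, h.2.2.2.1, h.2.2.2.2.2, h.2.2.2.2.1⟩

lemma Q45 {a x y b c : V} (h : Q G a x y b c) : Q G a x y c b := by
  obtain ⟨h1, h2, h3, h4, h5, h6⟩ := h
  exact ⟨⟨h1.1, h1.2.1, h4, h5.symm⟩, ⟨h2.1, h2.2.1, h4, h6.symm⟩, ⟨h3.1, h3.2.1, h5, h6.symm⟩,
    h1.2.2.1, h1.2.2.2.symm, h2.2.2.2.symm⟩

lemma T_symm (a b c : V) : T G a b c = T G a c b :=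
  sum_congr rfl fun _ _ => sum_congr rfl fun _ _ => ind_congr ⟨Q45, Q45⟩

lemma gadget (n H : ℚ) (hn : n = Fintype.card V) (hn0 : 0 < n) (hH : 0 ≤ H) (h : V → V → ℚ)
    (hh : ∀ a b, G.Adj a b → |h a b| ≤ H) (h0 : ∀ a, ∑ b, ind (G.Adj a b) * h a b = 0)
    (hd : ∀ a, n / 4 ≤ deg G a)
    (hT : ∀ a b c, G.Adj a b → G.Adj a c → b ≠ c → n ^ 2 / 512 ≤ T G a b c) :
    ∃ y : V → V → V → ℚ, (∀ u w v, y u w v = y v w u) ∧ (∀ u w v, ¬ I G u w v → y u w v = 0) ∧
      (∀ u v, ∑ w, y u w v = 0) ∧ (∀ a b, G.Adj a b → ∑ v, y a b v = h a b) ∧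
      ∀ u w v, |y u w v| ≤ 12288 * H / n := by
  set κ : V → V → V → ℚ := fun a b c => (h a b - h a c) / (deg G a * T G a b c) with hκ
  have κanti : ∀ a b c, κ a b c = - κ a c b := by
    intro a b c
    simp only [hκ]
    rw [T_symm a c b]; ring
  have κb : ∀ a b c, G.Adj a b → G.Adj a c → |κ a b c| ≤ 4096 * H / n ^ 3 := by
    intro a b c hb hc
    by_cases e : b = c
    · subst e
      simp only [hκ, sub_self, zero_div, abs_zero]; positivity
    · have h1 := hT a b c hb hc e
      have h2 := hd a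
      have h3 : n ^ 3 / 2048 ≤ deg G a * T G a b c := by
        calc n ^ 3 / 2048 = (n / 4) * (n ^ 2 / 512) := by ring
          _ ≤ _ := mul_le_mul h2 h1 (by positivity) (le_trans (by positivity) h2)
      have h4 : |h a b - h a c| ≤ 2 * H := by
        have := abs_sub (h a b) (h a c)
        linarith [hh a b hb, hh a c hc]
      have h5 : 0 < deg G a * T G a b c := lt_of_lt_of_le (by positivity) h3
      simp only [hκ]
      rw [abs_div, abs_of_pos h5]
      calc _ ≤ 2 * H / (n ^ 3 / 2048) := div_le_div₀ (by positivity) h4 (by positivity) h3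
        _ = _ := by field_simp; ring
  refine ⟨fun u w v => ∑ c, ∑ y, ind (Q G u v y w c) * (κ u w c + κ v w c - κ y w c),
    ?_, ?_, ?_, ?_, ?_⟩
  · intro u w v
    refine sum_congr rfl fun c _ => sum_congr rfl fun y _ => ?_
    rw [ind_congr ⟨Q12, Q12⟩]; ring
  · intro u w v hI
    refine sum_eq_zero fun c _ => sum_eq_zero fun y _ => ?_
    rw [ind_neg fun q => hI q.1, zero_mul]
  · intro u v
    refine anti_sum _ fun w c => ?_
    rw [← sum_neg_distrib]
    refine sum_congr rfl fun y _ => ?_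
    rw [ind_congr (⟨Q45, Q45⟩ : Q G u v y w c ↔ Q G u v y c w), κanti u w c, κanti v w c,
      κanti y w c]
    ring
  · intro a b hab
    rw [sum_comm]
    have h1 : ∀ c, ∑ v, ∑ y, ind (Q G a v y b c) * (κ a b c + κ v b c - κ y b c) =
        ind (G.Adj a c) * ((h a b - h a c) / deg G a) := by
      intro c
      have e1 : ∑ v, ∑ y, ind (Q G a v y b c) * (κ v b c - κ y b c) = 0 := by
        refine anti_sum _ fun v y => ?_
        rw [ind_congr (⟨Q23, Q23⟩ : Q G a v y b c ↔ Q G a y v b c)]; ring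
      have e2 : ∑ v, ∑ y, ind (Q G a v y b c) * (κ a b c + κ v b c - κ y b c) =
          T G a b c * κ a b c + ∑ v, ∑ y, ind (Q G a v y b c) * (κ v b c - κ y b c) := by
        rw [T, sum_mul, ← sum_add_distrib]
        refine sum_congr rfl fun v _ => ?_
        rw [sum_mul, ← sum_add_distrib]
        exact sum_congr rfl fun y _ => by ring
      rw [e2, e1, add_zero]
      by_cases hc : G.Adj a c
      · rw [ind_pos hc, one_mul]
        by_cases e : b = c
        · subst e; simp [hκ]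
        · have h5 : T G a b c ≠ 0 := (lt_of_lt_of_le (by positivity) (hT a b c hab hc e)).ne'
          simp only [hκ]
          field_simp
      · rw [ind_neg hc, zero_mul]
        have : T G a b c = 0 :=
          sum_eq_zero fun v _ => sum_eq_zero fun y _ => ind_neg fun q => hc q.2.2.2.1
        rw [this, zero_mul]
    rw [sum_congr rfl fun c _ => h1 c]
    have h2 : deg G a ≠ 0 := (lt_of_lt_of_le (by positivity) (hd a)).ne'
    have h3 : ∑ c, ind (G.Adj a c) * ((h a b - h a c) / deg G a) =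
        (deg G a * h a b - ∑ c, ind (G.Adj a c) * h a c) / deg G a := by
      rw [eq_div_iff h2, sum_mul, deg, sum_mul, ← sum_sub_distrib]
      refine sum_congr rfl fun c _ => ?_
      rw [← deg]; field_simp
    rw [h3, h0]; field_simp; ring
  · intro u w v
    have h1 : ∀ c, |∑ y, ind (Q G u v y w c) * (κ u w c + κ v w c - κ y w c)| ≤
        n * (3 * (4096 * H / n ^ 3)) := by
      intro c
      rw [hn]
      refine abs_sum_le _ _ fun y => abs_ind_mul _ _ _ (by rw [← hn]; positivity) fun q => ?_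
      rw [← hn]
      have a1 := κb u w c q.1.2.2.1 q.2.2.2.1
      have a2 := κb v w c q.1.2.2.2.symm q.2.2.2.2.1
      have a3 := κb y w c q.2.1.2.2.2.symm q.2.2.2.2.2
      have a4 := abs_sub (κ u w c + κ v w c) (κ y w c)
      have a5 := abs_add_le (κ u w c) (κ v w c)
      linarith
    refine (abs_sum_le _ _ h1).trans (le_of_eq ?_)
    rw [← hn]; field_simp; ring

lemma flow (n E : ℚ) (hn : n = Fintype.card V) (hn0 : 0 < n) (hE : 0 ≤ E) (D : V → ℚ)
    (h0 : ∑ a, D a = 0) (hD : ∀ a, |D a| ≤ E * n) (hc : ∀ u v, u ≠ v → n / 5 ≤ cod G u v) :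
    ∃ ψ : V → V → ℚ, (∀ a b, ψ a b = - ψ b a) ∧ (∀ a, ∑ b, ind (G.Adj a b) * ψ a b = D a) ∧
      ∀ a b, |ψ a b| ≤ 20 * E := by
  set f : V → V → ℚ := fun a a' => (D a - D a') / (n * cod G a a') with hf
  have fanti : ∀ a b, f a b = - f b a := by
    intro a b; simp only [hf]; rw [cod_symm b a]; ring
  have fb : ∀ a b, |f a b| ≤ 10 * E / n := by
    intro a b
    by_cases e : a = b
    · subst e; simp only [hf, sub_self, zero_div, abs_zero]; positivity
    · have h1 := hc a b e
      have h3 : n * (n / 5) ≤ n * cod G a b := mul_le_mul_of_nonneg_left h1 hn0.le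
      have h4 : |D a - D b| ≤ 2 * (E * n) := by
        have := abs_sub (D a) (D b)
        linarith [hD a, hD b]
      have h5 : 0 < n * cod G a b := lt_of_lt_of_le (by positivity) h3
      simp only [hf]
      rw [abs_div, abs_of_pos h5]
      calc _ ≤ 2 * (E * n) / (n * (n / 5)) := div_le_div₀ (by positivity) h4 (by positivity) h3
        _ = _ := by field_simp; ring
  set g : V → V → ℚ := fun a b => ∑ a', ind (G.Adj b a') * f a a' with hg
  have gb : ∀ a b, |g a b| ≤ 10 * E := by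
    intro a b
    refine (abs_sum_le _ (10 * E / n) fun a' =>
      abs_ind_mul _ _ _ (by positivity) fun _ => fb a a').trans (le_of_eq ?_)
    rw [← hn]; field_simp
  refine ⟨fun a b => g a b - g b a, fun a b => by ring, fun a => ?_, fun a b => ?_⟩
  · have e1 : ∑ b, ind (G.Adj a b) * g b a = 0 := by
      simp only [hg, mul_sum]
      refine anti_sum _ fun b c => ?_
      rw [fanti b c]; ring
    have e2 : ∑ b, ind (G.Adj a b) * g a b = D a := by
      simp only [hg, mul_sum]
      rw [sum_comm]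
      have e3 : ∀ a', ∑ b, ind (G.Adj a b) * (ind (G.Adj b a') * f a a') = (D a - D a') / n := by
        intro a'
        have e4 : ∑ b, ind (G.Adj a b) * (ind (G.Adj b a') * f a a') = cod G a a' * f a a' := by
          rw [cod, sum_mul]
          refine sum_congr rfl fun b _ => ?_
          by_cases p : G.Adj a b <;> by_cases q : G.Adj b a' <;> simp [ind, p, q]
        rw [e4]
        by_cases e : a = a'
        · subst e; simp [hf]
        · have h5 : cod G a a' ≠ 0 := (lt_of_lt_of_le (by positivity) (hc a a' e)).ne'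
          simp only [hf]; field_simp
      rw [sum_congr rfl fun a' _ => e3 a', ← sum_div, sum_sub_distrib, h0]
      simp only [sum_const, card_univ, nsmul_eq_mul, ← hn]
      field_simp; ring
    simp only [mul_sub, sum_sub_distrib, e1, e2, sub_zero]
  · have := abs_sub (g a b) (g b a)
    linarith [gb a b, gb b a]

structure PR (G : SimpleGraph V) (n η : ℚ) : Prop where
  h1 : ∀ u v, u ≠ v → |cod G u v - n / 4| ≤ η * n
  h2 : ∀ a b, G.Adj a b → |∑ v, ind (I G a b v) - n / 4| ≤ η * n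
  h3 : ∀ a, |deg G a - n / 2| ≤ η * n
  h4 : ∀ a, |non G a - n / 2| ≤ η * n
  h5 : ∀ a b c, G.Adj a b → G.Adj a c → b ≠ c → n ^ 2 / 512 ≤ T G a b c

lemma frac (n η : ℚ) (hn : n = Fintype.card V) (hn0 : 0 < n) (hη : η = 1 / 10 ^ 7)
    (hp : PR G n η) :
    (∀ u v, u ≠ v → 0 < cod G u v) ∧
    ∃ (x : V → V → V → ℚ) (lam : ℚ), 0 ≤ lam ∧ (∀ u w v, 0 ≤ x u w v) ∧
      (∀ u w v, x u w v = x v w u) ∧ (∀ u w v, ¬ I G u w v → x u w v = 0) ∧
      (∀ u v, u ≠ v → ¬ G.Adj u v → ∑ w, x u w v = 1) ∧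
      ∀ a b, G.Adj a b → ∑ v, x a b v + ∑ v, x b a v = lam := by
  obtain ⟨h1, h2, h3, h4, h5⟩ := hp
  have hη0 : 0 < η := by rw [hη]; norm_num
  have c1 : ∀ u v, u ≠ v → n / 5 ≤ cod G u v := by
    intro u v e
    have := (abs_le.1 (h1 u v e)).1
    rw [hη] at this; linarith
  have c0 : ∀ u v, u ≠ v → 0 < cod G u v := fun u v e => lt_of_lt_of_le (by positivity) (c1 u v e)
  refine ⟨c0, ?_⟩
  have d1 : ∀ a, n / 4 ≤ deg G a := by
    intro a
    have := (abs_le.1 (h3 a)).1
    rw [hη] at this; linarith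
  set x0 : V → V → V → ℚ := fun u w v => ind (I G u w v) / cod G u v with hx0
  have x0s : ∀ u v, u ≠ v → ¬ G.Adj u v → ∑ w, x0 u w v = 1 := by
    intro u v e na
    simp only [hx0]
    rw [← sum_div, div_eq_one_iff_eq (c0 u v e).ne', cod]
    exact sum_congr rfl fun w _ => ind_congr ⟨fun h => h.2.2, fun h => ⟨e, na, h⟩⟩
  have x0z : ∀ u w v, ¬ I G u w v → x0 u w v = 0 := by
    intro u w v h; simp only [hx0]; rw [ind_neg h, zero_div]
  set l0 : V → V → ℚ := fun a b => ∑ v, x0 a b v with hl0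
  have l0b : ∀ a b, G.Adj a b → |l0 a b - 1| ≤ 10 * η := by
    intro a b hab
    have lo : (∑ v, ind (I G a b v)) / (n / 4 + η * n) ≤ l0 a b := by
      rw [sum_div]
      refine sum_le_sum fun v _ => ?_
      by_cases h : I G a b v
      · exact div_le_div_of_nonneg_left (ind_nonneg _) (c0 a v h.1)
          (by linarith [(abs_le.1 (h1 a v h.1)).2])
      · rw [x0z a b v h, ind_neg h, zero_div]
    have hpos : 0 < n / 4 - η * n := by rw [hη]; linarith
    have hi : l0 a b ≤ (∑ v, ind (I G a b v)) / (n / 4 - η * n) := by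
      rw [sum_div]
      refine sum_le_sum fun v _ => ?_
      by_cases h : I G a b v
      · exact div_le_div_of_nonneg_left (ind_nonneg _) hpos
          (by linarith [(abs_le.1 (h1 a v h.1)).1])
      · rw [x0z a b v h, ind_neg h, zero_div]
    obtain ⟨k1, k2⟩ := abs_le.1 (h2 a b hab)
    have lo' : 1 - 10 * η ≤ (∑ v, ind (I G a b v)) / (n / 4 + η * n) := by
      rw [le_div_iff₀ (by positivity)]
      rw [hη] at k1 ⊢; nlinarith
    have hi' : (∑ v, ind (I G a b v)) / (n / 4 - η * n) ≤ 1 + 10 * η := by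
      rw [div_le_iff₀ hpos]
      rw [hη] at k2 ⊢; nlinarith
    rw [abs_le]; constructor <;> linarith
  have l0s : ∀ a, ∑ b, ind (G.Adj a b) * l0 a b = non G a := by
    intro a
    have e1 : ∀ b, ind (G.Adj a b) * l0 a b = l0 a b := by
      intro b
      by_cases h : G.Adj a b
      · rw [ind_pos h, one_mul]
      · rw [ind_neg h, zero_mul]
        exact (sum_eq_zero fun v _ => x0z a b v fun q => h q.2.2.1).symm
    rw [sum_congr rfl fun b _ => e1 b]
    simp only [hl0]
    rw [sum_comm, non]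
    refine sum_congr rfl fun v _ => ?_
    by_cases h : a ≠ v ∧ ¬ G.Adj a v
    · rw [ind_pos h, x0s a v h.1 h.2]
    · rw [ind_neg h]
      exact sum_eq_zero fun b _ => x0z a b v fun q => h ⟨q.1, q.2.1⟩
  have sd := abs_sum_le (fun a => deg G a - n / 2) (η * n) h3
  have sn := abs_sum_le (fun a => non G a - n / 2) (η * n) h4
  simp only [sum_sub_distrib, sum_const, card_univ, nsmul_eq_mul, ← hn] at sd sn
  obtain ⟨sd1, sd2⟩ := abs_le.1 sd
  obtain ⟨sn1, sn2⟩ := abs_le.1 sn
  have nn : 0 < n * n := by positivity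
  have sdp : 0 < ∑ a, deg G a := by rw [hη] at sd1; nlinarith
  set μ : ℚ := (∑ a, non G a) / ∑ a, deg G a with hμ
  have μ1 : 1 - 5 * η ≤ μ := by
    rw [hμ, le_div_iff₀ sdp]; rw [hη] at sd2 sn1 ⊢; nlinarith
  have μ2 : μ ≤ 1 + 5 * η := by
    rw [hμ, div_le_iff₀ sdp]; rw [hη] at sd1 sn2 ⊢; nlinarith
  obtain ⟨ψ, ψ1, ψ2, ψ3⟩ := flow (G := G) n (6 * η) hn hn0 (by positivity)
    (fun a => non G a - μ * deg G a)
    (by rw [sum_sub_distrib, ← mul_sum, hμ]; field_simp; ring)
    (by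
      intro a
      obtain ⟨a1, a2⟩ := abs_le.1 (h3 a)
      obtain ⟨a3, a4⟩ := abs_le.1 (h4 a)
      have a5 : 0 ≤ deg G a := le_trans (by positivity) (d1 a)
      have a6 := mul_le_mul_of_nonneg_right μ1 a5
      have a7 := mul_le_mul_of_nonneg_right μ2 a5
      rw [hη] at *
      rw [abs_le]; constructor <;> nlinarith) c1
  obtain ⟨y, y1, y2, y3, y4, y5⟩ := gadget (G := G) n (135 * η) hn hn0 (by positivity)
    (fun a b => μ + ψ a b - l0 a b)
    (by
      intro a b hab
      obtain ⟨a1, a2⟩ := abs_le.1 (ψ3 a b)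
      obtain ⟨a3, a4⟩ := abs_le.1 (l0b a b hab)
      rw [abs_le]; constructor <;> linarith)
    (by
      intro a
      simp only [mul_sub, mul_add, sum_sub_distrib, sum_add_distrib, ψ2, l0s]
      rw [← sum_mul, ← deg]; ring) d1 h5
  refine ⟨fun u w v => x0 u w v + y u w v, 2 * μ, by rw [hη] at μ1; linarith, ?_, ?_, ?_, ?_, ?_⟩
  · intro u w v
    by_cases h : I G u w v
    · have a1 : 1 / n ≤ x0 u w v := by
        simp only [hx0]
        rw [ind_pos h]
        refine one_div_le_one_div_of_le (c0 u v h.1) ?_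
        have := (abs_le.1 (h1 u v h.1)).2
        rw [hη] at this; linarith
      have a2 := (abs_le.1 (y5 u w v)).1
      have a3 : 12288 * (135 * η) / n ≤ 1 / n :=
        div_le_div_of_nonneg_right (by rw [hη]; norm_num) hn0.le
      linarith
    · simp [x0z u w v h, y2 u w v h]
  · intro u w v
    simp only [hx0]
    rw [y1 u w v, cod_symm u v, ind_congr ⟨I_symm, I_symm⟩]
  · intro u w v h
    simp [x0z u w v h, y2 u w v h]
  · intro u v e na
    rw [sum_add_distrib, x0s u v e na, y3, add_zero]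
  · intro a b hab
    simp only [sum_add_distrib]
    rw [y4 a b hab, y4 b a hab.symm, ψ1 b a]
    simp only [hl0]; ring

end Pool.Agent.H6.EPR
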