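import Pool.Agent.H6.EPR1

set_option autoImplicit false

open Finset

namespace Pool.Agent.H6.EPR

lemma common_den {ι : Type} [Fintype ι] (x : ι → ℚ) (hx : ∀ i, 0 ≤ x i) :
    ∃ k : ℕ, 1 ≤ k ∧ ∃ X : ι → ℕ, ∀ i, (X i : ℚ) = k * x i := by
  classical
  refine ⟨∏ i, (x i).den, prod_pos fun i _ => (x i).den_pos, ?_⟩
  have : ∀ i, ∃ X : ℕ, (X : ℚ) = (∏ i, (x i).den : ℕ) * x i := by
    intro i
    obtain ⟨c, hc⟩ := dvd_prod_of_mem (fun i => (x i).den) (mem_univ i)
    refine ⟨c * (x i).num.toNat, ?_⟩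
    have h1 : (((x i).num.toNat : ℤ) : ℚ) = (x i).num := by
      rw [Int.toNat_of_nonneg (Rat.num_nonneg.2 (hx i))]
    rw [hc]
    push_cast at h1 ⊢
    rw [h1, ← Rat.den_mul_eq_num]; ring
  choose X hX using this
  exact ⟨X, hX⟩

lemma midpts {V : Type} [Fintype V] (X : V → ℕ) (k : ℕ) (h : ∑ w, X w = k) :
    ∃ mid : Fin k → V, (∀ t, 0 < X (mid t)) ∧
      ∀ F : V → ℚ, ∑ t, F (mid t) = ∑ w, X w * F w := by
  have hc : Fintype.card (Σ w, Fin (X w)) = k := by simp [h]
  let e := Fintype.equivFinOfCardEq hc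
  refine ⟨fun t => (e.symm t).1, fun t => (e.symm t).2.pos, fun F => ?_⟩
  rw [← e.sum_comp]
  simp [Fintype.sum_sigma]

variable {n : ℕ} {G : SimpleGraph (Fin n)}

lemma count_ind (e f : Sym2 (Fin n)) (l : List (Sym2 (Fin n))) :
    (((f :: l).count e : ℕ) : ℚ) = ind (f = e) + l.count e := by
  rw [List.count_cons]
  by_cases h : f = e
  · simp [h, ind, add_comm]
  · simp [h, ind]

lemma lt_sum (F : Fin n → Fin n → ℚ) (hs : ∀ u v, F u v = F v u) (h0 : ∀ u, F u u = 0) :
    2 * ∑ u, ∑ v ∈ univ.filter (fun v => u < v), F u v = ∑ u, ∑ v, F u v := by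
  simp only [sum_filter]
  have h1 : ∑ u, ∑ v, (if u < v then F u v else 0) = ∑ u, ∑ v, (if v < u then F u v else 0) := by
    rw [sum_comm]
    exact sum_congr rfl fun u _ => sum_congr rfl fun v _ => by rw [hs]
  rw [two_mul]
  nth_rewrite 1 [h1]
  rw [← sum_add_distrib]
  refine sum_congr rfl fun u _ => ?_
  rw [← sum_add_distrib]
  refine sum_congr rfl fun v _ => ?_
  rcases lt_trichotomy u v with h | h | h
  · simp [h, h.not_gt]
  · simp [h, h0]
  · simp [h, h.not_gt]

lemma pair_sum (a b : Fin n) (hab : a ≠ b) (F : Fin n → Fin n → ℚ) :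
    ∑ u, ∑ w, F u w * ind (s(u, w) = s(a, b)) = F a b + F b a := by
  have h1 : ∀ u w, F u w * ind (s(u, w) = s(a, b)) =
      (if u = a then if w = b then F u w else 0 else 0) +
        (if u = b then if w = a then F u w else 0 else 0) := by
    intro u w
    by_cases h : s(u, w) = s(a, b)
    · rw [ind_pos h]
      rcases Sym2.eq_iff.1 h with ⟨rfl, rfl⟩ | ⟨rfl, rfl⟩
      · simp [hab]
      · simp [hab.symm]
    · rw [ind_neg h]
      have h2 : ¬ (u = a ∧ w = b) := fun q => h (Sym2.eq_iff.2 (Or.inl q))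
      have h3 : ¬ (u = b ∧ w = a) := fun q => h (Sym2.eq_iff.2 (Or.inr q))
      by_cases p1 : u = a <;> by_cases p2 : w = b <;> by_cases p3 : u = b <;>
        by_cases p4 : w = a <;> simp_all
  simp only [h1, sum_add_distrib]
  simp

def EPR (G : SimpleGraph (Fin n)) : Prop :=
  ∃ m k : ℕ, 1 ≤ m ∧ 1 ≤ k ∧
    ∃ P : ∀ u v : Fin n, Fin k → G.Walk u v,
      (∀ u v : Fin n, u < v → ∀ t : Fin k,
          (P u v t).IsPath ∧ (P u v t).length = G.dist u v) ∧
      (∀ e ∈ G.edgeSet,
          ∑ u : Fin n, ∑ v ∈ Finset.univ.filter (fun v => u < v), ∑ t : Fin k,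
            (P u v t).edges.count e = m)

lemma epr (η : ℚ) (hn0 : 0 < n) (hη : η = 1 / 10 ^ 7) (hp : PR G n η) : EPR G := by
  obtain ⟨-, x, lam, hl, x0, xs, xz, x1, xl⟩ := frac (G := G) n η (by simp) (by exact_mod_cast hn0) hη hp
  obtain ⟨k, hk, X, hX⟩ := common_den (fun p : Fin n × Fin n × Fin n => x p.1 p.2.1 p.2.2)
    (fun p => x0 _ _ _)
  set F : Sym2 (Fin n) → Fin n → Fin n → ℚ := fun e u v => k * (ind (G.Adj u v) * ind (s(u, v) = e) +
    ∑ w, x u w v * (ind (s(u, w) = e) + ind (s(w, v) = e))) with hF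
  have key : ∀ u v, ∃ P : Fin k → G.Walk u v, u ≠ v →
      (∀ t, (P t).IsPath ∧ (P t).length = G.dist u v) ∧
        ∀ e, ((∑ t, (P t).edges.count e : ℕ) : ℚ) = F e u v := by
    intro u v
    by_cases huv : u = v
    · subst huv
      exact ⟨fun _ => .nil, fun h => absurd rfl h⟩
    by_cases ha : G.Adj u v
    · refine ⟨fun _ => .cons ha .nil, fun _ => ⟨fun t => ⟨?_, ?_⟩, fun e => ?_⟩⟩
      · simp [huv]
      · simp [SimpleGraph.dist_eq_one_iff_adj.2 ha]
      · have : ∀ w, x u w v = 0 := fun w => xz u w v fun q => q.2.1 ha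
        simp only [hF, this, zero_mul, sum_const_zero, add_zero, ind_pos ha, one_mul]
        push_cast
        simp only [SimpleGraph.Walk.edges_cons, SimpleGraph.Walk.edges_nil, count_ind]
        simp
    · have hs : ∑ w, X (u, w, v) = k := by
        have : ((∑ w, X (u, w, v) : ℕ) : ℚ) = k := by
          push_cast
          simp only [hX]
          rw [← mul_sum, x1 u v huv ha, mul_one]
        exact_mod_cast this
      obtain ⟨mid, m1, m2⟩ := midpts (fun w => X (u, w, v)) k hs
      have hI : ∀ t, I G u (mid t) v := by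
        intro t
        by_contra q
        have h1 := hX (u, mid t, v)
        simp only [xz _ _ _ q, mul_zero, Nat.cast_eq_zero] at h1
        have := m1 t
        omega
      refine ⟨fun t => .cons (hI t).2.2.1 (.cons (hI t).2.2.2 .nil), fun _ =>
        ⟨fun t => ⟨?_, ?_⟩, fun e => ?_⟩⟩
      · simp [huv, (hI t).2.2.1.ne, (hI t).2.2.2.ne]
      · have d1 := SimpleGraph.dist_le
          (SimpleGraph.Walk.cons (hI t).2.2.1 (SimpleGraph.Walk.cons (hI t).2.2.2 .nil))
        have d2 : G.dist u v ≠ 0 := by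
          rw [Ne, SimpleGraph.dist_eq_zero_iff_eq_or_not_reachable]
          rintro (q | q)
          · exact huv q
          · exact q ((hI t).2.2.1.reachable.trans (hI t).2.2.2.reachable)
        have d3 : G.dist u v ≠ 1 := fun q => ha (SimpleGraph.dist_eq_one_iff_adj.1 q)
        simp only [SimpleGraph.Walk.length_cons, SimpleGraph.Walk.length_nil] at d1 ⊢
        omega
      · push_cast
        simp only [SimpleGraph.Walk.edges_cons, SimpleGraph.Walk.edges_nil, count_ind]
        simp only [List.count_nil, Nat.cast_zero, add_zero]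
        rw [m2 (fun w => ind (s(u, w) = e) + ind (s(w, v) = e))]
        simp only [hF, ind_neg ha, zero_mul, zero_add, hX, mul_sum]
        exact sum_congr rfl fun w _ => by ring
  choose P hP using key
  refine ⟨⌊(k : ℚ) * (1 + lam)⌋₊, k, ?_, hk, P, fun u v h => (hP u v h.ne).1, ?_⟩
  · refine Nat.le_floor ?_
    have : (1 : ℚ) ≤ k := by exact_mod_cast hk
    push_cast; nlinarith
  · intro e he
    induction e using Sym2.ind with
    | _ a b =>
    have hab : G.Adj a b := he
    have h1 : ((∑ u : Fin n, ∑ v ∈ Finset.univ.filter (fun v => u < v), ∑ t : Fin k,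
        (P u v t).edges.count s(a, b) : ℕ) : ℚ) =
        ∑ u : Fin n, ∑ v ∈ Finset.univ.filter (fun v => u < v), F s(a, b) u v := by
      rw [Nat.cast_sum]
      refine sum_congr rfl fun u _ => ?_
      rw [Nat.cast_sum]
      exact sum_congr rfl fun v hv => (hP u v (mem_filter.1 hv).2.ne).2 _
    have h2 := lt_sum (F s(a, b)) (by
      intro u v
      simp only [hF]
      rw [ind_congr (G.adj_comm u v), Sym2.eq_swap (a := u) (b := v)]
      congr 2
      refine sum_congr rfl fun w _ => ?_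
      rw [xs u w v, Sym2.eq_swap (a := u) (b := w), Sym2.eq_swap (a := w) (b := v), add_comm])
      (by
        intro u
        have : ∀ w, x u w u = 0 := fun w => xz u w u fun q => q.1 rfl
        simp only [hF, this, zero_mul, sum_const_zero, ind_neg (G.irrefl (v := u)), add_zero,
          mul_zero])
    have h3 : ∑ u, ∑ v, F s(a, b) u v = 2 * (k * (1 + lam)) := by
      simp only [hF, ← mul_sum, sum_add_distrib, mul_add]
      rw [pair_sum a b hab.ne (fun u v => ind (G.Adj u v)), ind_pos hab, ind_pos hab.symm]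
      have e1 : ∑ u, ∑ v, ∑ w, x u w v * ind (s(u, w) = s(a, b)) = lam := by
        rw [← xl a b hab, ← pair_sum a b hab.ne (fun u w => ∑ v, x u w v)]
        refine sum_congr rfl fun u _ => ?_
        rw [sum_comm]
        exact sum_congr rfl fun w _ => by rw [sum_mul]
      have e2 : ∑ u, ∑ v, ∑ w, x u w v * ind (s(w, v) = s(a, b)) = lam := by
        rw [← e1, sum_comm]
        refine sum_congr rfl fun u _ => sum_congr rfl fun v _ => sum_congr rfl fun w _ => ?_
        rw [xs v w u, Sym2.eq_swap (a := w) (b := u)]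
      rw [e1, e2]; ring
    have h4 : (k : ℚ) * (1 + lam) = ((∑ u : Fin n, ∑ v ∈ Finset.univ.filter (fun v => u < v),
        ∑ t : Fin k, (P u v t).edges.count s(a, b) : ℕ) : ℚ) := by linarith
    rw [h4, Nat.floor_natCast]

end Pool.Agent.H6.EPR
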