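import Pool.Agent.H6.EPR2

set_option autoImplicit false

open Finset

namespace Pool.Agent.H6.EPR

variable {n k : ℕ}

lemma card_graphs (n : ℕ) : Fintype.card (SimpleGraph (Fin n)) = 2 ^ n.choose 2 := by
  classical
  have h1 : (⊤ : SimpleGraph (Fin n)).edgeFinset.card = n.choose 2 := by
    rw [SimpleGraph.card_edgeFinset_top_eq_card_choose_two, Fintype.card_fin]
  rw [← h1, ← card_powerset, ← card_univ]
  refine card_bij (fun G _ => G.edgeFinset) (fun G _ => ?_) (fun G _ H _ e => ?_) (fun s hs => ?_)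
  · exact mem_powerset.2 (SimpleGraph.edgeFinset_mono le_top)
  · exact SimpleGraph.edgeFinset_inj.1 e
  · refine ⟨SimpleGraph.fromEdgeSet s, mem_univ _, ?_⟩
    ext e
    simp only [SimpleGraph.mem_edgeFinset, SimpleGraph.edgeSet_fromEdgeSet]
    refine ⟨fun h => h.1, fun h => ⟨h, ?_⟩⟩
    have := mem_powerset.1 hs h
    rw [SimpleGraph.mem_edgeFinset] at this
    exact SimpleGraph.not_isDiag_of_mem_edgeSet _ this

open Classical in
noncomputable def Y (s : Fin k → Fin n) (G : SimpleGraph (Fin n)) (v : Fin n) : Fin k → Bool :=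
  fun i => decide (G.Adj (s i) v)

def tog (s : Fin k → Fin n) (δ : Fin n → Fin k → Bool) : SimpleGraph (Fin n) :=
  SimpleGraph.fromRel fun u v => (∀ j, v ≠ s j) ∧ ∃ i, u = s i ∧ δ v i = true

lemma Y_tog (s : Fin k → Fin n) (hs : Function.Injective s) (δ : Fin n → Fin k → Bool)
    (G : SimpleGraph (Fin n)) (v : Fin n) (hv : ∀ j, v ≠ s j) :
    Y s (symmDiff G (tog s δ)) v = fun i => xor (Y s G v i) (δ v i) := by
  funext i
  have h : (tog s δ).Adj (s i) v ↔ δ v i = true := by
    rw [tog, SimpleGraph.fromRel_adj]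
    constructor
    · rintro ⟨-, ⟨-, j, e, h⟩ | ⟨h, -⟩⟩
      · rwa [hs e]
      · exact absurd rfl (h i)
    · exact fun h => ⟨(hv i).symm, Or.inl ⟨hv, i, rfl, h⟩⟩
  by_cases p : G.Adj (s i) v <;> cases hδ : δ v i <;> simp [Y, symmDiff, p, h, hδ]

lemma mgf (s : Fin k → Fin n) (hs : Function.Injective s) (g : (Fin k → Bool) → ℝ) (B : ℝ)
    (hg : ∀ q, 0 ≤ g q) (hB : 1 ≤ B) (hs2 : ∑ q, g q ≤ 2 ^ k * B) :
    ∑ G : SimpleGraph (Fin n), ∏ v, (if ∀ j, v ≠ s j then g (Y s G v) else 1) ≤
      2 ^ n.choose 2 * B ^ n := by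
  set φ : (Fin n → Fin k → Bool) → ℝ := fun y => ∏ v, (if ∀ j, v ≠ s j then g (y v) else 1)
    with hφ
  have h1 : ∀ δ : Fin n → Fin k → Bool, ∑ G : SimpleGraph (Fin n), φ (Y s G) =
      ∑ G : SimpleGraph (Fin n), φ (fun v i => xor (Y s G v i) (δ v i)) := by
    intro δ
    rw [← Equiv.sum_comp (symmDiff_left_involutive (tog s δ)).toPerm]
    refine sum_congr rfl fun G _ => prod_congr rfl fun v _ => ?_
    split_ifs with hv
    · exact congrArg g (Y_tog s hs δ G v hv)
    · rfl
  have h2 : ∀ y : Fin n → Fin k → Bool,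
      ∑ δ : Fin n → Fin k → Bool, φ (fun v i => xor (y v i) (δ v i)) = ∑ δ, φ δ := by
    intro y
    have hi : Function.Involutive
        fun δ : Fin n → Fin k → Bool => fun v i => xor (y v i) (δ v i) := by
      intro δ; funext v i; simp
    exact Equiv.sum_comp hi.toPerm φ
  have h3 : ∑ δ, φ δ ≤ (2 ^ k * B) ^ n := by
    simp only [hφ]
    rw [← Fintype.piFinset_univ,
      ← prod_univ_sum (fun _ => univ) fun v q => (if ∀ j, v ≠ s j then g q else 1)]
    calc _ ≤ ∏ _v : Fin n, (2 ^ k * B) := by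
          refine prod_le_prod (fun v _ => sum_nonneg fun q _ => ?_) fun v _ => ?_
          · split_ifs
            · exact hg q
            · exact zero_le_one
          · split_ifs
            · exact hs2
            · simp [hB]
      _ = _ := by simp
  have h4 : ((2 : ℝ) ^ k) ^ n * ∑ G : SimpleGraph (Fin n), φ (Y s G) =
      2 ^ n.choose 2 * ∑ δ, φ δ := by
    have e1 : ∑ _δ : Fin n → Fin k → Bool, ∑ G : SimpleGraph (Fin n), φ (Y s G) =
        ((2 : ℝ) ^ k) ^ n * ∑ G : SimpleGraph (Fin n), φ (Y s G) := by simp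
    rw [← e1, sum_congr rfl fun δ _ => h1 δ, sum_comm, sum_congr rfl fun G _ => h2 (Y s G)]
    simp [card_graphs]
  have h5 : (0 : ℝ) < (2 ^ k) ^ n := by positivity
  refine le_of_mul_le_mul_left ?_ h5
  rw [h4]
  calc _ ≤ 2 ^ n.choose 2 * (2 ^ k * B) ^ n := mul_le_mul_of_nonneg_left h3 (by positivity)
    _ = _ := by rw [mul_pow]; ring

noncomputable def X (s : Fin k → Fin n) (z : (Fin k → Bool) → ℝ) (G : SimpleGraph (Fin n)) : ℝ :=
  ∑ v, if ∀ j, v ≠ s j then z (Y s G v) else 0

open Classical in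
lemma tail (s : Fin k → Fin n) (hs : Function.Injective s) (z : (Fin k → Bool) → ℝ)
    (hz : ∀ q, |z q| ≤ 1) (h0 : ∑ q, z q = 0) (t : ℝ) (ht : 0 ≤ t) (ht1 : t ≤ 1) :
    ((univ.filter fun G : SimpleGraph (Fin n) => 2 * t * n ≤ X s z G).card : ℝ) ≤
      2 ^ n.choose 2 * Real.exp (- t ^ 2) ^ n := by
  have h1 := mgf s hs (fun q => Real.exp (t * z q)) (Real.exp (t ^ 2)) (fun q => (Real.exp_pos _).le)
    (Real.one_le_exp (by positivity)) (by
      have e1 : ∀ q, Real.exp (t * z q) ≤ 1 + t * z q + t ^ 2 := by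
        intro q
        have a1 : |t * z q| ≤ t := by
          rw [abs_mul, abs_of_nonneg ht]; exact mul_le_of_le_one_right ht (hz q)
        have a2 := (abs_le.1 (Real.abs_exp_sub_one_sub_id_le (a1.trans ht1))).2
        have a3 : (t * z q) ^ 2 ≤ t ^ 2 := by
          rw [← sq_abs (t * z q)]; exact pow_le_pow_left₀ (abs_nonneg _) a1 2
        linarith
      refine (sum_le_sum fun q _ => e1 q).trans ?_
      simp only [sum_add_distrib, ← mul_sum, h0]
      have := Real.add_one_le_exp (t ^ 2)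
      simp
      nlinarith [show (0 : ℝ) < 2 ^ k by positivity])
  have h2 : ∀ G : SimpleGraph (Fin n), ∏ v, (if ∀ j, v ≠ s j then Real.exp (t * z (Y s G v)) else 1)
      = Real.exp (t * X s z G) := by
    intro G
    rw [X, mul_sum, Real.exp_sum]
    refine prod_congr rfl fun v _ => ?_
    split_ifs <;> simp
  simp only [h2] at h1
  have h3 : ((univ.filter fun G : SimpleGraph (Fin n) => 2 * t * n ≤ X s z G).card : ℝ) *
      Real.exp (2 * t ^ 2) ^ n ≤ ∑ G : SimpleGraph (Fin n), Real.exp (t * X s z G) := by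
    refine le_trans ?_ (sum_le_sum_of_subset_of_nonneg (filter_subset
      (fun G : SimpleGraph (Fin n) => 2 * t * n ≤ X s z G) univ) fun G _ _ => (Real.exp_pos _).le)
    rw [← nsmul_eq_mul]
    refine card_nsmul_le_sum _ _ _ fun G hG => ?_
    rw [← Real.exp_nat_mul]
    refine Real.exp_le_exp.2 ?_
    have := mul_le_mul_of_nonneg_left (mem_filter.1 hG).2 ht
    nlinarith
  refine le_of_mul_le_mul_right (h3.trans (h1.trans (le_of_eq ?_)))
    (pow_pos (Real.exp_pos (2 * t ^ 2)) n)
  rw [mul_assoc, ← mul_pow, ← Real.exp_add]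
  congr 3
  ring

noncomputable def zz (p q : Fin k → Bool) : ℝ := (if q = p then 1 else 0) - 1 / 2 ^ k

def Bad (k : ℕ) (t : ℝ) (G : SimpleGraph (Fin n)) : Prop :=
  ∃ s : Fin k → Fin n, Function.Injective s ∧ ∃ p, 2 * t * n ≤ |X s (zz p) G|

open Classical in
lemma bad_card (k : ℕ) (t : ℝ) (ht : 0 ≤ t) (ht1 : t ≤ 1) :
    ((univ.filter fun G : SimpleGraph (Fin n) => Bad k t G).card : ℝ) ≤
      (n ^ k * 2 ^ k * 2) * (2 ^ n.choose 2 * Real.exp (- t ^ 2) ^ n) := by
  have hz : ∀ p q : Fin k → Bool, |zz p q| ≤ 1 := by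
    intro p q
    have a1 : (0 : ℝ) < 1 / 2 ^ k := by positivity
    have a2 : (1 : ℝ) / 2 ^ k ≤ 1 := by
      rw [div_le_one (by positivity)]; exact one_le_pow₀ one_le_two
    rw [zz, abs_le]; split_ifs <;> constructor <;> linarith
  have h0 : ∀ p : Fin k → Bool, ∑ q, zz p q = 0 := by
    intro p
    simp [zz]
  set A : (Fin k → Fin n) × (Fin k → Bool) × Bool → Finset (SimpleGraph (Fin n)) := fun r =>
    univ.filter fun G => Function.Injective r.1 ∧
      2 * t * n ≤ X r.1 (fun q => if r.2.2 then zz r.2.1 q else - zz r.2.1 q) G with hA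
  have h1 : (univ.filter fun G : SimpleGraph (Fin n) => Bad k t G) ⊆ univ.biUnion A := by
    intro G hG
    obtain ⟨s, hs, p, hp⟩ := (mem_filter.1 hG).2
    rcases le_abs.1 hp with h | h
    · exact mem_biUnion.2 ⟨(s, p, true), mem_univ _, mem_filter.2 ⟨mem_univ _, hs, h⟩⟩
    · refine mem_biUnion.2 ⟨(s, p, false), mem_univ _, mem_filter.2 ⟨mem_univ _, hs, ?_⟩⟩
      refine h.trans (le_of_eq ?_)
      simp only [X, ← sum_neg_distrib]
      refine sum_congr rfl fun v _ => ?_
      split_ifs <;> simp_all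
  have h2 : ∀ r, ((A r).card : ℝ) ≤ 2 ^ n.choose 2 * Real.exp (- t ^ 2) ^ n := by
    intro r
    by_cases hs : Function.Injective r.1
    · refine le_trans ?_ (tail r.1 hs (fun q => if r.2.2 then zz r.2.1 q else - zz r.2.1 q)
        (fun q => by split_ifs <;> simp [hz]) (by split_ifs <;> simp [h0]) t ht ht1)
      exact Nat.cast_le.2 (card_le_card fun G hG => mem_filter.2 ⟨mem_univ _, (mem_filter.1 hG).2.2⟩)
    · have : A r = ∅ := filter_eq_empty_iff.2 fun G _ h => hs h.1
      rw [this]; simp only [card_empty, Nat.cast_zero]; positivity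
  calc _ ≤ ((∑ r, (A r).card : ℕ) : ℝ) := Nat.cast_le.2 ((card_le_card h1).trans card_biUnion_le)
    _ ≤ ∑ _r : (Fin k → Fin n) × (Fin k → Bool) × Bool,
          (2 : ℝ) ^ n.choose 2 * Real.exp (- t ^ 2) ^ n := by
        rw [Nat.cast_sum]; exact sum_le_sum fun r _ => h2 r
    _ = _ := by simp; ring

noncomputable def cq (G : SimpleGraph (Fin n)) (s : Fin k → Fin n) (p : Fin k → Bool) : ℚ :=
  ∑ v, ind ((∀ j, v ≠ s j) ∧ Y s G v = p)

lemma cq_bound (G : SimpleGraph (Fin n)) (η : ℚ) (hk : k ≤ 4) (hn : 8 ≤ η * n)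
    (hG : ¬ Bad k (η / 4 : ℚ) G) (s : Fin k → Fin n) (hs : Function.Injective s) (p : Fin k → Bool) :
    |cq G s p - n / 2 ^ k| ≤ η * n := by
  classical
  have h1 : |X s (zz p) G| < 2 * ((η / 4 : ℚ) : ℝ) * n := by
    by_contra h
    exact hG ⟨s, hs, p, not_lt.1 h⟩
  have h2 : X s (zz p) G = (cq G s p : ℝ) - n / 2 ^ k +
      (∑ v, if ∀ j, v ≠ s j then 0 else 1) / 2 ^ k := by
    have : (n : ℝ) = ∑ _v : Fin n, 1 := by simp
    rw [X, cq, Rat.cast_sum, this]
    rw [sum_div, sum_div, ← sum_sub_distrib, ← sum_add_distrib]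
    refine sum_congr rfl fun v _ => ?_
    by_cases a : ∀ j, v ≠ s j
    · by_cases b : Y s G v = p
      · rw [if_pos a, if_pos a, ind_pos ⟨a, b⟩, zz, if_pos b]; simp
      · rw [if_pos a, if_pos a, ind_neg fun q => b q.2, zz, if_neg b]; simp
    · rw [if_neg a, if_neg a, ind_neg fun q => a q.1]; simp
  have h3 : (0 : ℝ) ≤ ∑ v, if ∀ j, v ≠ s j then 0 else 1 :=
    sum_nonneg fun v _ => by split_ifs <;> norm_num
  have h4 : (∑ v, if ∀ j, v ≠ s j then (0 : ℝ) else 1) ≤ k := by
    calc _ ≤ ∑ v, ∑ j, if v = s j then (1 : ℝ) else 0 := by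
          refine sum_le_sum fun v _ => ?_
          split_ifs with a
          · exact sum_nonneg fun j _ => by split_ifs <;> norm_num
          · push Not at a
            obtain ⟨j, hj⟩ := a
            refine le_trans ?_ (single_le_sum (f := fun j => if v = s j then (1 : ℝ) else 0)
              (fun j _ => by split_ifs <;> norm_num) (mem_univ j))
            simp [hj]
      _ = k := by rw [sum_comm]; simp
  have h5 : (∑ v, if ∀ j, v ≠ s j then (0 : ℝ) else 1) / 2 ^ k ≤ 4 := by
    refine (div_le_self h3 (one_le_pow₀ one_le_two)).trans (h4.trans ?_)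
    exact_mod_cast hk
  have h6 : (0 : ℝ) ≤ (∑ v, if ∀ j, v ≠ s j then (0 : ℝ) else 1) / 2 ^ k := by positivity
  have h7 : (8 : ℝ) ≤ η * n := by exact_mod_cast hn
  have h8 : |(cq G s p : ℝ) - n / 2 ^ k| ≤ η * n := by
    rw [h2, abs_lt] at h1
    push_cast at h1
    rw [abs_le]; constructor <;> linarith [h1.1, h1.2]
  have h9 : ((|cq G s p - n / 2 ^ k| : ℚ) : ℝ) ≤ ((η * n : ℚ) : ℝ) := by
    push_cast; exact h8
  exact Rat.cast_le.1 h9

lemma pr_of (G : SimpleGraph (Fin n)) (η : ℚ) (hη : η = 1 / 10 ^ 7) (hn : 8 ≤ η * n)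
    (b1 : ¬ Bad 1 (η / 4 : ℚ) G) (b2 : ¬ Bad 2 (η / 4 : ℚ) G) (b3 : ¬ Bad 3 (η / 4 : ℚ) G)
    (b4 : ¬ Bad 4 (η / 4 : ℚ) G) : PR G n η := by
  have i2 : ∀ a b : Fin n, a ≠ b → Function.Injective ![a, b] := by
    intro a b h i j
    fin_cases i <;> fin_cases j <;> simp [h, h.symm]
  have hn0 : (0 : ℚ) ≤ n := by positivity
  refine ⟨fun u v h => ?_, fun a b h => ?_, fun a => ?_, fun a => ?_, fun a b c hb hc h => ?_⟩
  · have := cq_bound G η (by norm_num) hn b2 ![u, v] (i2 u v h) ![true, true]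
    rw [show ((2 : ℚ) ^ 2) = 4 by norm_num] at this
    convert this using 3
    refine sum_congr rfl fun w _ => ind_congr ?_
    simp only [Y, funext_iff, Fin.forall_fin_two]
    simp
    exact ⟨fun q => ⟨⟨q.1.ne', q.2.ne⟩, q.1, q.2.symm⟩, fun q => ⟨q.2.1, q.2.2.symm⟩⟩
  · have := cq_bound G η (by norm_num) hn b2 ![a, b] (i2 a b h.ne) ![false, true]
    rw [show ((2 : ℚ) ^ 2) = 4 by norm_num] at this
    convert this using 3
    refine sum_congr rfl fun w _ => ind_congr ?_
    simp only [Y, funext_iff, Fin.forall_fin_two, I]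
    simp
    exact ⟨fun q => ⟨⟨fun e => q.1 e.symm, q.2.2.2.ne'⟩, q.2.1, q.2.2.2⟩,
      fun q => ⟨fun e => q.1.1 e.symm, q.2.1, h, q.2.2⟩⟩
  · have := cq_bound G η (by norm_num) hn b1 ![a] (Function.injective_of_subsingleton _) ![true]
    rw [pow_one] at this
    convert this using 3
    refine sum_congr rfl fun w _ => ind_congr ?_
    simp only [Y, funext_iff, Fin.forall_fin_one]
    simp
    exact fun q => q.ne'
  · have := cq_bound G η (by norm_num) hn b1 ![a] (Function.injective_of_subsingleton _) ![false]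
    rw [pow_one] at this
    convert this using 3
    refine sum_congr rfl fun w _ => ind_congr ?_
    simp only [Y, funext_iff, Fin.forall_fin_one]
    simp
    exact fun _ => ⟨fun q e => q e.symm, fun q e => q e.symm⟩
  · have i3 : Function.Injective ![a, b, c] := by
      intro i j
      fin_cases i <;> fin_cases j <;> simp [h, h.symm, hb.ne, hb.ne', hc.ne, hc.ne']
    have c3 := (abs_le.1 (cq_bound G η (by norm_num) hn b3 ![a, b, c] i3 ![false, true, true])).1
    have c4 : ∀ x, ind ((∀ j, x ≠ ![a, b, c] j) ∧ Y ![a, b, c] G x = ![false, true, true]) *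
        (n / 32) ≤ ∑ y, ind (Q G a x y b c) := by
      intro x
      by_cases hx : (∀ j, x ≠ ![a, b, c] j) ∧ Y ![a, b, c] G x = ![false, true, true]
      · rw [ind_pos hx, one_mul]
        simp only [Y, funext_iff, Fin.forall_fin_succ] at hx
        simp at hx
        obtain ⟨⟨x1, x2, x3⟩, x4, x5, x6⟩ := hx
        have i4 : Function.Injective ![a, b, c, x] := by
          intro i j
          fin_cases i <;> fin_cases j <;>
            simp [h, h.symm, hb.ne, hb.ne', hc.ne, hc.ne', x1, x2, x3, Ne.symm x1, Ne.symm x2,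
              Ne.symm x3]
        have c5 := (abs_le.1 (cq_bound G η (by norm_num) hn b4 ![a, b, c, x] i4
          ![false, true, true, false])).1
        have c6 : cq G ![a, b, c, x] ![false, true, true, false] ≤ ∑ y, ind (Q G a x y b c) := by
          refine sum_le_sum fun y _ => ?_
          by_cases hy : (∀ j, y ≠ ![a, b, c, x] j) ∧
              Y ![a, b, c, x] G y = ![false, true, true, false]
          · simp only [Y, funext_iff, Fin.forall_fin_succ] at hy
            simp at hy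
            obtain ⟨⟨y1, -, -, y2⟩, y3, y4, y5, y6⟩ := hy
            rw [ind_pos (p := Q G a x y b c) ⟨⟨Ne.symm x1, x4, hb, x5⟩, ⟨Ne.symm y1, y3, hb, y4⟩,
              ⟨Ne.symm y2, y6, x5.symm, y4⟩, hc, x6.symm, y5.symm⟩]
            exact ind_le _
          · rw [ind_neg hy]; exact ind_nonneg _
        rw [hη] at c5
        linarith
      · rw [ind_neg hx, zero_mul]
        exact sum_nonneg fun y _ => ind_nonneg _
    have c7 := sum_le_sum fun x (_ : x ∈ univ) => c4 x
    rw [← sum_mul, ← cq, ← T] at c7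
    rw [hη] at c3
    nlinarith

theorem main : Filter.Tendsto (fun n : ℕ =>
    (Nat.card {G : SimpleGraph (Fin n) // EPR G} : ℝ) / (2 : ℝ) ^ (n.choose 2))
    Filter.atTop (nhds 1) := by
  classical
  set η : ℚ := 1 / 10 ^ 7 with hη
  set t : ℝ := ((η / 4 : ℚ) : ℝ) with ht
  have t0 : 0 < t := by rw [ht, hη]; norm_num
  have t1 : t ≤ 1 := by rw [ht, hη]; norm_num
  have hr : |Real.exp (- t ^ 2)| < 1 := by
    rw [abs_of_pos (Real.exp_pos _), Real.exp_lt_one_iff]
    have := pow_pos t0 2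
    linarith
  have lim : Filter.Tendsto (fun n : ℕ => 1 - 128 * ((n : ℝ) ^ 4 * Real.exp (- t ^ 2) ^ n))
      Filter.atTop (nhds 1) := by
    have := ((tendsto_pow_const_mul_const_pow_of_abs_lt_one 4 hr).const_mul 128).const_sub 1
    simpa using this
  have hc : ∀ n : ℕ, (Nat.card {G : SimpleGraph (Fin n) // EPR G}) =
      (univ.filter fun G : SimpleGraph (Fin n) => EPR G).card := by
    intro n
    rw [Nat.card_eq_fintype_card, Fintype.card_subtype]
  refine tendsto_of_tendsto_of_tendsto_of_le_of_le' lim tendsto_const_nhds ?_ ?_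
  · filter_upwards [Filter.eventually_ge_atTop (8 * 10 ^ 7)] with n hn
    have hn0 : 0 < n := by omega
    have hn1 : (1 : ℝ) ≤ n := by exact_mod_cast hn0
    have hn8 : 8 ≤ η * n := by
      have : ((8 * 10 ^ 7 : ℕ) : ℚ) ≤ n := by exact_mod_cast hn
      rw [hη]; push_cast at this; linarith
    have h1 : (univ : Finset (SimpleGraph (Fin n))) ⊆ (univ.filter fun G => EPR G) ∪
        (range 4).biUnion fun k => univ.filter fun G => Bad (k + 1) t G := by
      intro G _
      by_contra hG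
      simp only [mem_union, mem_biUnion, mem_filter, mem_univ, true_and, not_or, not_exists,
        not_and, mem_range] at hG
      exact hG.1 (epr η hn0 hη (pr_of G η hη hn8 (hG.2 0 (by norm_num)) (hG.2 1 (by norm_num))
        (hG.2 2 (by norm_num)) (hG.2 3 (by norm_num))))
    have h2 := (card_le_card h1).trans ((card_union_le _ _).trans
      (Nat.add_le_add_left card_biUnion_le _))
    rw [card_univ, card_graphs] at h2
    have h3 : (2 : ℝ) ^ n.choose 2 ≤ (univ.filter fun G : SimpleGraph (Fin n) => EPR G).card +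
        ∑ k ∈ range 4, ((univ.filter fun G : SimpleGraph (Fin n) => Bad (k + 1) t G).card : ℝ) := by
      exact_mod_cast h2
    have h4 : ∑ k ∈ range 4,
        ((univ.filter fun G : SimpleGraph (Fin n) => Bad (k + 1) t G).card : ℝ) ≤
        ∑ _k ∈ range 4, (n ^ 4 * 2 ^ 4 * 2) * (2 ^ n.choose 2 * Real.exp (- t ^ 2) ^ n) := by
      refine sum_le_sum fun k hk => (bad_card (k + 1) t t0.le t1).trans ?_
      have hk' : k + 1 ≤ 4 := mem_range.1 hk
      gcongr
      exact one_le_two
    rw [hc, le_div_iff₀ (by positivity)]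
    simp only [sum_const, card_range, nsmul_eq_mul] at h4
    push_cast at h4
    nlinarith
  · refine Filter.Eventually.of_forall fun n => ?_
    rw [hc, div_le_one (by positivity)]
    have := card_filter_le (univ : Finset (SimpleGraph (Fin n))) fun G => EPR G
    rw [card_univ, card_graphs] at this
    exact_mod_cast this

end Pool.Agent.H6.EPR
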