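import Pool.Agent.H6.SEM1

set_option autoImplicit false

namespace Pool.Agent.H6.GS

open Pool.Agent.H6.SEM (card_I Ico_add tele sum_inj)

def pe (j : ℕ) : List ℕ → List ℕ
  | [] => []
  | [_] => []
  | a :: b :: l => (j - (a + b)) :: pe j (b :: l)

lemma pe_zip (j h : ℕ) : ∀ (l : List ℕ) (a : ℕ),
    pe j (a :: l ++ [h]) = List.zipWith (fun x y => j - (x + y)) (a :: l) (l ++ [h])
  | [], a => by simp [pe]
  | b :: l, a => by
    have := pe_zip j h l b
    simp only [List.cons_append, pe, List.zipWith_cons_cons] at this ⊢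
    rw [this]

lemma Ico_one (a : ℕ) : Multiset.Ico a (a + 1) = {a} := by simp [Multiset.Ico]

lemma Ico_l (a b : ℕ) (h : a < b) : Multiset.Ico a b = {a} + Multiset.Ico (a + 1) b := by
  rw [← Ico_one, Ico_add _ _ _ (by omega) (by omega)]

lemma Ico_r (a b : ℕ) (h : a ≤ b) : Multiset.Ico a (b + 1) = Multiset.Ico a b + {b} := by
  rw [← Ico_one, Ico_add _ _ _ (by omega) (by omega)]

def zf : ℕ → ℕ → ℕ → List ℕ
  | _, _, 0 => []
  | a, b, l + 1 => a :: b :: zf (a + 1) (b + 1) l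

def zr (a b : ℕ) : ℕ → List ℕ
  | 0 => []
  | l + 1 => (b + l) :: (a + l) :: zr a b l

lemma zf_coe : ∀ l a b : ℕ, ((zf a b l : List ℕ) : Multiset ℕ) =
    Multiset.Ico a (a + l) + Multiset.Ico b (b + l)
  | 0, a, b => by simp [zf]
  | l + 1, a, b => by
    rw [zf, ← Multiset.cons_coe, ← Multiset.cons_coe, zf_coe l, Ico_l a _ (by omega),
      Ico_l b _ (by omega), show a + 1 + l = a + (l + 1) by omega,
      show b + 1 + l = b + (l + 1) by omega]
    simp only [← Multiset.singleton_add]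
    abel

lemma zr_coe (a b : ℕ) : ∀ l : ℕ, ((zr a b l : List ℕ) : Multiset ℕ) =
    Multiset.Ico a (a + l) + Multiset.Ico b (b + l)
  | 0 => by simp [zr]
  | l + 1 => by
    rw [zr, ← Multiset.cons_coe, ← Multiset.cons_coe, zr_coe a b l, ← add_assoc a, ← add_assoc b,
      Ico_r a _ (by omega), Ico_r b _ (by omega)]
    simp only [← Multiset.singleton_add]
    abel

lemma pe_zf (j h e : ℕ) (t : List ℕ) : ∀ l a b : ℕ, a + b + e + 2 * l = j →
    ((pe j (zf a b (l + 1) ++ h :: t) : List ℕ) : Multiset ℕ) =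
      Multiset.Ico e (e + 2 * l + 1) + {j - (b + l + h)} + (pe j (h :: t) : List ℕ)
  | 0, a, b, q => by
    simp only [zf, List.cons_append, List.nil_append, pe, ← Multiset.cons_coe,
      ← Multiset.singleton_add, mul_zero, add_zero, Ico_one, show j - (a + b) = e by omega]
    abel
  | l + 1, a, b, q => by
    have := pe_zf j h e t l (a + 1) (b + 1) (by omega)
    rw [zf] at this
    rw [zf, zf]
    simp only [List.cons_append, pe, ← Multiset.cons_coe, ← Multiset.singleton_add] at this ⊢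
    rw [this, show j - (a + b) = e + 2 * l + 1 + 1 by omega,
      show j - (b + (a + 1)) = e + 2 * l + 1 by omega,
      show e + 2 * (l + 1) + 1 = e + 2 * l + 1 + 1 + 1 by omega, Ico_r e (_ + 1 + 1) (by omega),
      Ico_r e (_ + 1) (by omega), show b + 1 + l + h = b + (l + 1) + h by omega]
    abel

lemma pe_zr (j h a b : ℕ) (t : List ℕ) : ∀ l e : ℕ, a + b + e + 2 * l = j →
    ((pe j (zr a b (l + 1) ++ h :: t) : List ℕ) : Multiset ℕ) =
      Multiset.Ico e (e + 2 * l + 1) + {j - (a + h)} + (pe j (h :: t) : List ℕ)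
  | 0, e, q => by
    simp only [zr, List.cons_append, List.nil_append, pe, ← Multiset.cons_coe,
      ← Multiset.singleton_add, mul_zero, add_zero, Ico_one, show j - (b + a) = e by omega]
    abel
  | l + 1, e, q => by
    have := pe_zr j h a b t l (e + 1 + 1) (by omega)
    rw [zr] at this
    rw [zr, zr]
    simp only [List.cons_append, pe, ← Multiset.cons_coe, ← Multiset.singleton_add] at this ⊢
    rw [this, show j - (b + (l + 1) + (a + (l + 1))) = e by omega,
      show j - (a + (l + 1) + (b + l)) = e + 1 by omega, Ico_l e _ (by omega),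
      Ico_l (e + 1) _ (by omega), show e + 1 + 1 + 2 * l + 1 = e + 2 * (l + 1) + 1 by omega]
    abel

structure Ent where
  k : ℕ
  a : ℕ
  b : ℕ
  e : ℕ
  l : ℕ

def tl (e : Ent) : List ℕ := if e.k = 0 then [e.a, e.l] else [e.a, e.b, e.e, e.l]
def fs (c : ℕ → ℕ) (e : Ent) : ℕ := if e.k = 2 then c (e.b + 1) - 1 else c e.a
def ls (c : ℕ → ℕ) (e : Ent) : ℕ := if e.k = 1 then c (e.b + 1) - 1 else c e.a
def sg (c : ℕ → ℕ) (e : Ent) : List ℕ :=
  if e.k = 1 then zf (c e.a) (c e.b) (c (e.a + 1) - c e.a)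
  else if e.k = 2 then zr (c e.a) (c e.b) (c (e.a + 1) - c e.a) else [c e.a]

def W (j : ℕ) (c : ℕ → ℕ) (e : Ent) (h : ℕ) : Prop :=
  (if e.k = 0 then c (e.a + 1) = c e.a + 1
   else e.k ≤ 2 ∧ c e.a < c (e.a + 1) ∧ c (e.b + 1) + c e.a = c e.b + c (e.a + 1) ∧
    c (e.e + 1) + 1 + 2 * c e.a = c e.e + 2 * c (e.a + 1) ∧ c e.a + c e.b + c (e.e + 1) = j + 1) ∧
  c (e.l + 1) = c e.l + 1 ∧ ls c e + h + c e.l = j

def OK (j : ℕ) (c : ℕ → ℕ) (h : ℕ) : List Ent → Prop
  | [] => True
  | [e] => W j c e h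
  | e :: e' :: T => W j c e (fs c e') ∧ OK j c h (e' :: T)

def VL (c : ℕ → ℕ) : List Ent → List ℕ
  | [] => []
  | e :: T => sg c e ++ VL c T

def TL : List Ent → List ℕ
  | [] => []
  | e :: T => tl e ++ TL T

lemma W_lt {j h : ℕ} {c : ℕ → ℕ} {e : Ent} (w : W j c e h) : ∀ i ∈ tl e, c i < c (i + 1) := by
  unfold W at w; unfold tl
  split_ifs at w ⊢ <;> simp only [List.mem_cons, List.not_mem_nil, or_false, forall_eq_or_imp,
    forall_eq] <;> omega

lemma sg_cons {j h : ℕ} {c : ℕ → ℕ} {e : Ent} (w : W j c e h) : ∃ l, sg c e = fs c e :: l := by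
  unfold W at w; unfold sg fs
  by_cases k0 : e.k = 0
  · simp [k0]
  · rw [if_neg k0] at w
    obtain ⟨d, hd⟩ : ∃ d, c (e.a + 1) - c e.a = d + 1 := ⟨c (e.a + 1) - c e.a - 1, by omega⟩
    rw [hd]
    split_ifs
    · omega
    · exact ⟨_, rfl⟩
    · exact ⟨(c e.a + d) :: zr _ _ d, by rw [zr]; congr 1; omega⟩
    · omega

lemma pe_sg {j h : ℕ} {c : ℕ → ℕ} {e : Ent} (w : W j c e h) (t : List ℕ) :
    ((sg c e : List ℕ) : Multiset ℕ) + (pe j (sg c e ++ h :: t) : List ℕ) =
      ((tl e).map fun i => Multiset.Ico (c i) (c (i + 1))).sum + (pe j (h :: t) : List ℕ) := by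
  unfold W ls at w; unfold sg tl
  by_cases k0 : e.k = 0
  · simp only [k0, if_true, zero_ne_one, if_false, OfNat.zero_ne_ofNat] at w ⊢
    simp only [List.cons_append, List.nil_append, pe, List.map_cons, List.map_nil, List.sum_cons,
      List.sum_nil, w.1, w.2.1, Ico_one, ← Multiset.cons_coe, ← Multiset.singleton_add,
      show j - (c e.a + h) = c e.l by omega, Multiset.coe_nil]
    abel
  · rw [if_neg k0] at w
    obtain ⟨d, hd⟩ : ∃ d, c (e.a + 1) - c e.a = d + 1 := ⟨c (e.a + 1) - c e.a - 1, by omega⟩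
    have e1 : c (e.a + 1) = c e.a + (d + 1) := by omega
    have e2 : c (e.b + 1) = c e.b + (d + 1) := by omega
    have e3 : c (e.e + 1) = c e.e + 2 * d + 1 := by omega
    rw [hd, if_neg k0]
    simp only [List.map_cons, List.map_nil, List.sum_cons, List.sum_nil, e1, e2, e3, w.2.1, Ico_one]
    split_ifs with k1 k2
    · rw [if_pos k1] at w
      rw [zf_coe, pe_zf j h (c e.e) t d _ _ (by omega), show j - (c e.b + d + h) = c e.l by omega]
      abel
    · rw [if_neg k1] at w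
      rw [zr_coe, pe_zr j h _ _ t d (c e.e) (by omega), show j - (c e.a + h) = c e.l by omega]
      abel
    · omega

lemma OK_lt (j : ℕ) (c : ℕ → ℕ) (h : ℕ) : ∀ T : List Ent, OK j c h T → ∀ i ∈ TL T, c i < c (i + 1)
  | [], _, i, hi => by simp [TL] at hi
  | [e], ok, i, hi => W_lt ok i (by simpa [TL] using hi)
  | e :: e' :: T, ok, i, hi => by
    rcases List.mem_append.1 hi with q | q
    · exact W_lt ok.1 i q
    · exact OK_lt j c h (e' :: T) ok.2 i q

lemma OK_W {j h : ℕ} {c : ℕ → ℕ} {e : Ent} : ∀ {T : List Ent}, OK j c h (e :: T) → ∃ x, W j c e x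
  | [], ok => ⟨_, ok⟩
  | _ :: _, ok => ⟨_, ok.1⟩

lemma pe_VL (j : ℕ) (c : ℕ → ℕ) (x : ℕ) : ∀ T : List Ent, OK j c x T →
    ((VL c T : List ℕ) : Multiset ℕ) + (pe j (VL c T ++ [x]) : List ℕ) =
      ((TL T).map fun i => Multiset.Ico (c i) (c (i + 1))).sum
  | [], _ => by simp [VL, TL, pe]
  | [e], ok => by simpa [VL, TL, pe] using pe_sg ok []
  | e :: e' :: T, ok => by
    have ih := pe_VL j c x (e' :: T) ok.2
    obtain ⟨y, hy⟩ := OK_W ok.2
    obtain ⟨l, hl⟩ := sg_cons hy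
    have := pe_sg ok.1 (l ++ VL c T ++ [x])
    have e1 : VL c (e' :: T) ++ [x] = fs c e' :: (l ++ VL c T ++ [x]) := by rw [VL, hl]; simp
    rw [VL, List.append_assoc, e1, TL, List.map_append, List.sum_append, ← ih, e1,
      ← Multiset.coe_add, add_right_comm, this]
    abel

def Good (n j : ℕ) : Prop :=
  ∃ f g : Fin n → ℕ, Function.Injective (Sum.elim f g) ∧
    (∀ x, 1 ≤ Sum.elim f g x ∧ Sum.elim f g x ≤ 2 * n) ∧
    ∀ i i' : Fin n, i'.val = (i.val + 1) % n → f i + g i + f i' = j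

lemma Good.dual {n j : ℕ} (h : Good n j) : Good n (6 * n + 3 - j) := by
  obtain ⟨f, g, h1, h2, h3⟩ := h
  have e : Sum.elim (fun i => 2 * n + 1 - f i) (fun i => 2 * n + 1 - g i) =
      fun x => 2 * n + 1 - Sum.elim f g x := by
    funext x; cases x <;> rfl
  refine ⟨fun i => 2 * n + 1 - f i, fun i => 2 * n + 1 - g i, ?_, ?_, fun i i' q => ?_⟩
  · rw [e]
    intro u v q
    have a1 := h2 u
    have a2 := h2 v
    exact h1 (by simp only at q; omega)
  · rw [e]
    intro u
    have a1 := h2 u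
    beta_reduce
    omega
  · have a1 := h2 (Sum.inl i)
    have a2 := h2 (Sum.inr i)
    have a3 := h2 (Sum.inl i')
    have a4 := h3 i i' q
    simp only [Sum.elim_inl, Sum.elim_inr] at a1 a2 a3
    beta_reduce
    omega

lemma of_list (n j : ℕ) (A : List ℕ) (h : (A : Multiset ℕ) +
    (List.zipWith (fun x y => j - (x + y)) A (A.rotate 1) : List ℕ) = Multiset.Ico 1 (2 * n + 1)) :
    Good n j := by
  have hp : A.length = n := by
    have := congrArg Multiset.card h
    simp [card_I] at this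
    omega
  subst hp
  obtain ⟨v1, v2⟩ := sum_inj _ _ _ _ h (m := A.length) (n := A.length) rfl (by simp)
  refine ⟨_, _, v1, fun x => ⟨(v2 x).1, Nat.lt_succ_iff.1 (v2 x).2⟩, fun i i' q => ?_⟩
  have a1 := v2 (Sum.inr i)
  simp only [Sum.elim_inr, List.getElem_zipWith, List.getElem_rotate, ← q] at a1 ⊢
  omega

theorem key (n j r : ℕ) (c : ℕ → ℕ) (e : Ent) (T : List Ent)
    (p : (TL (e :: T)).Perm (List.range r))
    (h : c 0 = 1 ∧ c r = 2 * n + 1 ∧ OK j c (fs c e) (e :: T)) : Good n j := by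
  obtain ⟨h0, hr, ok⟩ := h
  have hl : ∀ i < r, c i < c (i + 1) := fun i hi =>
    OK_lt j c _ _ ok i (p.symm.subset (List.mem_range.2 hi))
  refine of_list n j (VL c (e :: T)) ?_
  obtain ⟨y, hy⟩ := OK_W ok
  obtain ⟨l, hl'⟩ := sg_cons hy
  have z : List.zipWith (fun x y => j - (x + y)) (VL c (e :: T)) ((VL c (e :: T)).rotate 1) =
      pe j (VL c (e :: T) ++ [fs c e]) := by
    rw [VL, hl', List.cons_append, pe_zip]
    simp
  rw [z, pe_VL j c _ _ ok, (p.map _).sum_eq]
  have := (tele c 0 r hl).1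
  simpa [h0, hr] using this

end Pool.Agent.H6.GS
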