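import Pool.Agent.H6.GS1

set_option autoImplicit false

namespace Pool.Agent.H6.GS

lemma S_8_24_1_1000 (y : ℕ) (h : 3 ≤ y) : Good (6 * y + 12) (18 * y + 34) :=
  key _ _ 52 (fun i => [1, 2, y, y + 1, y + 2, y + 3, y + 4, 2 * y + 3, 2 * y + 4, 2 * y + 5, 2 * y + 6, 2 * y + 7, 2 * y + 8, 3 * y + 7, 3 * y + 8, 3 * y + 9, 3 * y + 10, 5 * y + 7, 5 * y + 8, 5 * y + 9, 5 * y + 10, 5 * y + 11, 5 * y + 12, 5 * y + 13, 5 * y + 14, 7 * y + 11, 7 * y + 12, 7 * y + 13, 7 * y + 14, 7 * y + 15, 7 * y + 16, 7 * y + 17, 7 * y + 18, 9 * y + 13, 9 * y + 14, 9 * y + 15, 9 * y + 16, 9 * y + 17, 9 * y + 18, 9 * y + 19, 9 * y + 20, 10 * y + 18, 10 * y + 19, 10 * y + 20, 11 * y + 19, 11 * y + 20, 12 * y + 19, 12 * y + 20, 12 * y + 21, 12 * y + 22, 12 * y + 23, 12 * y + 24, 12 * y + 25].getD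 i 0)
    ⟨0, 18, 0, 0, 14⟩ [⟨0, 41, 0, 0, 26⟩, ⟨1, 6, 43, 24, 23⟩, ⟨0, 7, 0, 0, 37⟩, ⟨0, 28, 0, 0, 42⟩, ⟨0, 3, 0, 0, 50⟩, ⟨0, 20, 0, 0, 51⟩, ⟨0, 2, 0, 0, 49⟩, ⟨0, 22, 0, 0, 46⟩, ⟨0, 5, 0, 0, 47⟩, ⟨0, 21, 0, 0, 4⟩, ⟨0, 48, 0, 0, 13⟩, ⟨2, 45, 12, 16, 17⟩, ⟨0, 11, 0, 0, 36⟩, ⟨0, 25, 0, 0, 9⟩, ⟨0, 38, 0, 0, 35⟩, ⟨0, 0, 0, 0, 39⟩, ⟨0, 34, 0, 0, 30⟩, ⟨0, 8, 0, 0, 31⟩, ⟨0, 33, 0, 0, 29⟩, ⟨0, 10, 0, 0, 19⟩, ⟨0, 44, 0, 0, 27⟩, ⟨1, 1, 40, 32, 15⟩]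
    (by decide) (by
      simp only [OK, W, fs, ls, List.getD_cons_zero, List.getD_cons_succ, if_true, if_false, Nat.reduceAdd, Nat.reduceEqDiff, Nat.reduceLeDiff, le_refl, one_ne_zero, zero_ne_one, OfNat.ofNat_ne_zero, OfNat.ofNat_ne_one, OfNat.zero_ne_ofNat, OfNat.one_ne_ofNat, and_true, true_and]
      repeat' apply And.intro
      all_goals omega)

lemma S_2_7_2_1000 (y : ℕ) (h : 3 ≤ y) : Good (6 * y + 10) (18 * y + 27) :=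
  key _ _ 44 (fun i => [1, y, y + 1, y + 2, y + 3, y + 4, 2 * y + 2, 2 * y + 3, 2 * y + 4, 2 * y + 5, 2 * y + 6, 3 * y + 6, 3 * y + 7, 5 * y + 6, 5 * y + 7, 5 * y + 8, 5 * y + 9, 5 * y + 10, 5 * y + 11, 5 * y + 12, 7 * y + 7, 7 * y + 8, 7 * y + 9, 7 * y + 10, 7 * y + 11, 7 * y + 12, 7 * y + 13, 7 * y + 14, 9 * y + 11, 9 * y + 12, 9 * y + 13, 9 * y + 14, 9 * y + 15, 9 * y + 16, 10 * y + 15, 10 * y + 16, 10 * y + 17, 11 * y + 15, 11 * y + 16, 12 * y + 16, 12 * y + 17, 12 * y + 18, 12 * y + 19, 12 * y + 20, 12 * y + 21].getD i 0)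
    ⟨0, 14, 0, 0, 42⟩ [⟨0, 2, 0, 0, 43⟩, ⟨0, 13, 0, 0, 41⟩, ⟨0, 4, 0, 0, 16⟩, ⟨2, 10, 38, 12, 21⟩, ⟨0, 30, 0, 0, 22⟩, ⟨0, 9, 0, 0, 32⟩, ⟨0, 20, 0, 0, 35⟩, ⟨1, 5, 36, 19, 6⟩, ⟨0, 18, 0, 0, 39⟩, ⟨0, 1, 0, 0, 17⟩, ⟨0, 40, 0, 0, 15⟩, ⟨0, 3, 0, 0, 34⟩, ⟨0, 23, 0, 0, 31⟩, ⟨0, 7, 0, 0, 26⟩, ⟨0, 28, 0, 0, 25⟩, ⟨0, 8, 0, 0, 29⟩, ⟨0, 24, 0, 0, 37⟩, ⟨1, 0, 33, 27, 11⟩]
    (by decide) (by
      simp only [OK, W, fs, ls, List.getD_cons_zero, List.getD_cons_succ, if_true, if_false, Nat.reduceAdd, Nat.reduceEqDiff, Nat.reduceLeDiff, le_refl, one_ne_zero, zero_ne_one, OfNat.ofNat_ne_zero, OfNat.ofNat_ne_one, OfNat.zero_ne_ofNat, OfNat.one_ne_ofNat, and_true, true_and]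
      repeat' apply And.intro
      all_goals omega)

lemma S_5_16_1_1000 (y : ℕ) (h : 2 ≤ y) : Good (6 * y + 9) (18 * y + 26) :=
  key _ _ 42 (fun i => [1, y, y + 1, y + 2, y + 3, 2 * y + 2, 2 * y + 3, 2 * y + 4, 2 * y + 5, 2 * y + 6, 3 * y + 5, 3 * y + 6, 3 * y + 7, 3 * y + 8, 5 * y + 5, 5 * y + 6, 5 * y + 7, 5 * y + 8, 5 * y + 9, 5 * y + 10, 5 * y + 11, 5 * y + 12, 7 * y + 9, 7 * y + 10, 7 * y + 11, 7 * y + 12, 7 * y + 13, 7 * y + 14, 9 * y + 11, 9 * y + 12, 9 * y + 13, 9 * y + 14, 9 * y + 15, 10 * y + 14, 10 * y + 15, 11 * y + 14, 11 * y + 15, 11 * y + 16, 12 * y + 15, 12 * y + 16, 12 * y + 17, 12 * y + 18, 12 * y + 19].getD i 0)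
    ⟨0, 15, 0, 0, 11⟩ [⟨0, 33, 0, 0, 16⟩, ⟨0, 10, 0, 0, 40⟩, ⟨2, 37, 9, 13, 14⟩, ⟨0, 8, 0, 0, 28⟩, ⟨0, 23, 0, 0, 30⟩, ⟨0, 6, 0, 0, 31⟩, ⟨0, 22, 0, 0, 3⟩, ⟨1, 34, 4, 21, 26⟩, ⟨0, 29, 0, 0, 25⟩, ⟨0, 5, 0, 0, 36⟩, ⟨0, 18, 0, 0, 39⟩, ⟨0, 2, 0, 0, 19⟩, ⟨0, 38, 0, 0, 20⟩, ⟨0, 1, 0, 0, 41⟩, ⟨0, 17, 0, 0, 7⟩, ⟨0, 35, 0, 0, 24⟩, ⟨1, 0, 32, 27, 12⟩]
    (by decide) (by
      simp only [OK, W, fs, ls, List.getD_cons_zero, List.getD_cons_succ, if_true, if_false, Nat.reduceAdd, Nat.reduceEqDiff, Nat.reduceLeDiff, le_refl, one_ne_zero, zero_ne_one, OfNat.ofNat_ne_zero, OfNat.ofNat_ne_one, OfNat.zero_ne_ofNat, OfNat.one_ne_ofNat, and_true, true_and]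
      repeat' apply And.intro
      all_goals omega)

lemma F_4_12 (x y : ℕ) (h : 2 ≤ x ∧ 2 ≤ y) : Good (4 * x + 6 * y + 4) (10 * x + 18 * y + 12) :=
  key _ _ 36 (fun i => [1, 2, y + 1, y + 2, x + y + 3, x + 2 * y + 3, 2 * x + 2 * y + 2, 2 * x + 2 * y + 3, 2 * x + 3 * y + 2, 2 * x + 3 * y + 3, 2 * x + 3 * y + 4, 2 * x + 3 * y + 5, 2 * x + 5 * y + 2, 3 * x + 5 * y + 3, 3 * x + 7 * y + 2, 3 * x + 7 * y + 3, 3 * x + 7 * y + 4, 3 * x + 7 * y + 5, 4 * x + 7 * y + 4, 4 * x + 7 * y + 5, 4 * x + 7 * y + 6, 4 * x + 7 * y + 7, 4 * x + 9 * y + 4, 4 * x + 9 * y + 5, 4 * x + 9 * y + 6, 4 * x + 9 * y + 7, 4 * x + 9 * y + 8, 6 * x + 9 * y + 5, 6 * x + 9 * y + 6, 6 * x + 9 * y + 7, 6 * x + 10 * y + 6, 6 * x + 10 * y + 7, 6 * x + 10 * y + 8, 6 * x + 11 * y + 8, 6 * x + 12 * y + 7,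 6 * x + 12 * y + 8, 8 * x + 12 * y + 9].getD i 0)
    ⟨1, 32, 4, 13, 16⟩ [⟨0, 28, 0, 0, 15⟩, ⟨1, 5, 17, 26, 25⟩, ⟨0, 6, 0, 0, 18⟩, ⟨0, 24, 0, 0, 0⟩, ⟨0, 27, 0, 0, 23⟩, ⟨1, 1, 29, 21, 20⟩, ⟨0, 2, 0, 0, 30⟩, ⟨0, 19, 0, 0, 22⟩, ⟨1, 7, 33, 11, 10⟩, ⟨0, 8, 0, 0, 34⟩, ⟨0, 9, 0, 0, 31⟩, ⟨1, 12, 3, 35, 14⟩]
    (by decide) (by
      simp only [OK, W, fs, ls, List.getD_cons_zero, List.getD_cons_succ, if_true, if_false, Nat.reduceAdd, Nat.reduceEqDiff, Nat.reduceLeDiff, le_refl, one_ne_zero, zero_ne_one, OfNat.ofNat_ne_zero, OfNat.ofNat_ne_one, OfNat.zero_ne_ofNat, OfNat.one_ne_ofNat, and_true, true_and]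
      repeat' apply And.intro
      all_goals omega)

lemma F_5_16 (x y : ℕ) (h : 2 ≤ x ∧ 2 ≤ y) : Good (4 * x + 6 * y + 5) (10 * x + 18 * y + 16) :=
  key _ _ 34 (fun i => [1, 2, y + 1, y + 2, x + y + 3, x + 2 * y + 3, 2 * x + 2 * y + 2, 2 * x + 2 * y + 3, 2 * x + 3 * y + 3, 2 * x + 3 * y + 4, 2 * x + 3 * y + 5, 2 * x + 5 * y + 4, 3 * x + 5 * y + 5, 3 * x + 7 * y + 4, 3 * x + 7 * y + 5, 3 * x + 7 * y + 6, 3 * x + 7 * y + 7, 4 * x + 7 * y + 6, 4 * x + 7 * y + 7, 4 * x + 7 * y + 8, 4 * x + 7 * y + 9, 4 * x + 9 * y + 6, 4 * x + 9 * y + 7, 4 * x + 9 * y + 8, 4 * x + 9 * y + 9, 4 * x + 9 * y + 10, 6 * x + 9 * y + 7, 6 * x + 9 * y + 8, 6 * x + 9 * y + 9, 6 * x + 10 * y + 8, 6 * x + 10 * y + 9, 6 * x + 10 * y + 10, 6 * x + 11 * y + 10, 6 * x + 12 * y + 10, 8 * x + 12 * y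 + 11].getD i 0)
    ⟨1, 31, 4, 12, 15⟩ [⟨0, 27, 0, 0, 14⟩, ⟨1, 5, 16, 25, 24⟩, ⟨0, 6, 0, 0, 17⟩, ⟨0, 23, 0, 0, 0⟩, ⟨0, 26, 0, 0, 22⟩, ⟨1, 1, 28, 20, 19⟩, ⟨0, 2, 0, 0, 29⟩, ⟨0, 18, 0, 0, 21⟩, ⟨1, 7, 32, 10, 9⟩, ⟨0, 8, 0, 0, 30⟩, ⟨1, 11, 3, 33, 13⟩]
    (by decide) (by
      simp only [OK, W, fs, ls, List.getD_cons_zero, List.getD_cons_succ, if_true, if_false, Nat.reduceAdd, Nat.reduceEqDiff, Nat.reduceLeDiff, le_refl, one_ne_zero, zero_ne_one, OfNat.ofNat_ne_zero, OfNat.ofNat_ne_one, OfNat.zero_ne_ofNat, OfNat.one_ne_ofNat, and_true, true_and]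
      repeat' apply And.intro
      all_goals omega)

lemma S_3_9_0_1000 (y : ℕ) (h : 3 ≤ y) : Good (6 * y + 3) (18 * y + 9) :=
  key _ _ 34 (fun i => [1, y, y + 1, y + 2, 2 * y + 1, 2 * y + 2, 2 * y + 3, 2 * y + 4, 3 * y + 2, 3 * y + 3, 3 * y + 4, 3 * y + 5, 5 * y, 5 * y + 1, 5 * y + 2, 5 * y + 3, 5 * y + 4, 5 * y + 5, 7 * y + 2, 7 * y + 3, 7 * y + 4, 7 * y + 5, 7 * y + 6, 9 * y + 3, 9 * y + 4, 9 * y + 5, 9 * y + 6, 10 * y + 5, 10 * y + 6, 11 * y + 5, 11 * y + 6, 12 * y + 4, 12 * y + 5, 12 * y + 6, 12 * y + 7].getD i 0)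
    ⟨0, 13, 0, 0, 33⟩ [⟨1, 3, 28, 17, 15⟩, ⟨0, 5, 0, 0, 29⟩, ⟨0, 14, 0, 0, 8⟩, ⟨0, 27, 0, 0, 19⟩, ⟨0, 2, 0, 0, 31⟩, ⟨0, 16, 0, 0, 1⟩, ⟨0, 32, 0, 0, 9⟩, ⟨2, 30, 7, 11, 12⟩, ⟨0, 6, 0, 0, 18⟩, ⟨0, 24, 0, 0, 20⟩, ⟨0, 4, 0, 0, 21⟩, ⟨0, 23, 0, 0, 25⟩, ⟨1, 0, 26, 22, 10⟩]
    (by decide) (by
      simp only [OK, W, fs, ls, List.getD_cons_zero, List.getD_cons_succ, if_true, if_false, Nat.reduceAdd, Nat.reduceEqDiff, Nat.reduceLeDiff, le_refl, one_ne_zero, zero_ne_one, OfNat.ofNat_ne_zero, OfNat.ofNat_ne_one, OfNat.zero_ne_ofNat, OfNat.one_ne_ofNat, and_true, true_and]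
      repeat' apply And.intro
      all_goals omega)

lemma S_6_19_0_1000 (y : ℕ) (h : 2 ≤ y) : Good (6 * y + 6) (18 * y + 19) :=
  key _ _ 32 (fun i => [1, 2, y + 1, y + 2, y + 3, 2 * y + 2, 2 * y + 3, 2 * y + 4, 3 * y + 4, 3 * y + 5, 3 * y + 6, 5 * y + 5, 5 * y + 6, 5 * y + 7, 5 * y + 8, 5 * y + 9, 7 * y + 6, 7 * y + 7, 7 * y + 8, 7 * y + 9, 7 * y + 10, 7 * y + 11, 9 * y + 8, 9 * y + 9, 9 * y + 10, 10 * y + 9, 10 * y + 10, 10 * y + 11, 11 * y + 10, 11 * y + 11, 12 * y + 11, 12 * y + 12, 12 * y + 13].getD i 0)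
    ⟨0, 30, 0, 0, 12⟩ [⟨0, 3, 0, 0, 31⟩, ⟨0, 11, 0, 0, 25⟩, ⟨0, 9, 0, 0, 8⟩, ⟨2, 7, 29, 10, 23⟩, ⟨0, 16, 0, 0, 26⟩, ⟨1, 4, 27, 15, 14⟩, ⟨0, 5, 0, 0, 19⟩, ⟨0, 22, 0, 0, 6⟩, ⟨0, 18, 0, 0, 0⟩, ⟨0, 28, 0, 0, 17⟩, ⟨1, 1, 24, 21, 20⟩, ⟨0, 2, 0, 0, 13⟩]
    (by decide) (by
      simp only [OK, W, fs, ls, List.getD_cons_zero, List.getD_cons_succ, if_true, if_false, Nat.reduceAdd, Nat.reduceEqDiff, Nat.reduceLeDiff, le_refl, one_ne_zero, zero_ne_one, OfNat.ofNat_ne_zero, OfNat.ofNat_ne_one, OfNat.zero_ne_ofNat, OfNat.one_ne_ofNat, and_true, true_and]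
      repeat' apply And.intro
      all_goals omega)

lemma S_2_7_1000_1 (x : ℕ) (h : 2 ≤ x) : Good (4 * x + 8) (10 * x + 25) :=
  key _ _ 28 (fun i => [1, 2, x + 2, x + 3, x + 4, 2 * x + 3, 2 * x + 4, 2 * x + 5, 2 * x + 6, 2 * x + 7, 3 * x + 7, 3 * x + 8, 3 * x + 9, 3 * x + 10, 3 * x + 11, 4 * x + 10, 4 * x + 11, 4 * x + 12, 4 * x + 13, 4 * x + 14, 6 * x + 11, 6 * x + 12, 6 * x + 13, 6 * x + 14, 6 * x + 15, 6 * x + 16, 6 * x + 17, 6 * x + 18, 8 * x + 17].getD i 0)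
    ⟨0, 11, 0, 0, 2⟩ [⟨0, 24, 0, 0, 10⟩, ⟨0, 3, 0, 0, 12⟩, ⟨0, 22, 0, 0, 16⟩, ⟨0, 0, 0, 0, 18⟩, ⟨0, 20, 0, 0, 13⟩, ⟨1, 4, 14, 19, 6⟩, ⟨0, 17, 0, 0, 15⟩, ⟨0, 5, 0, 0, 26⟩, ⟨0, 7, 0, 0, 23⟩, ⟨0, 8, 0, 0, 21⟩, ⟨1, 9, 1, 27, 25⟩]
    (by decide) (by
      simp only [OK, W, fs, ls, List.getD_cons_zero, List.getD_cons_succ, if_true, if_false, Nat.reduceAdd, Nat.reduceEqDiff, Nat.reduceLeDiff, le_refl, one_ne_zero, zero_ne_one, OfNat.ofNat_ne_zero, OfNat.ofNat_ne_one, OfNat.zero_ne_ofNat, OfNat.one_ne_ofNat, and_true, true_and]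
      repeat' apply And.intro
      all_goals omega)

lemma S_6_18_1000_0 (x : ℕ) (h : 2 ≤ x) : Good (4 * x + 6) (10 * x + 18) :=
  key _ _ 28 (fun i => [1, 2, x + 1, x + 2, x + 3, 2 * x + 2, 2 * x + 3, 2 * x + 4, 3 * x + 3, 3 * x + 4, 3 * x + 5, 3 * x + 6, 3 * x + 7, 4 * x + 6, 4 * x + 7, 4 * x + 8, 4 * x + 9, 4 * x + 10, 4 * x + 11, 4 * x + 12, 6 * x + 9, 6 * x + 10, 6 * x + 11, 6 * x + 12, 6 * x + 13, 6 * x + 14, 6 * x + 15, 6 * x + 16, 8 * x + 13].getD i 0)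
    ⟨0, 9, 0, 0, 24⟩ [⟨0, 2, 0, 0, 22⟩, ⟨0, 11, 0, 0, 10⟩, ⟨0, 14, 0, 0, 21⟩, ⟨0, 0, 0, 0, 15⟩, ⟨0, 20, 0, 0, 3⟩, ⟨1, 12, 4, 19, 25⟩, ⟨0, 6, 0, 0, 16⟩, ⟨0, 13, 0, 0, 17⟩, ⟨0, 5, 0, 0, 23⟩, ⟨1, 7, 1, 27, 26⟩, ⟨0, 8, 0, 0, 18⟩]
    (by decide) (by
      simp only [OK, W, fs, ls, List.getD_cons_zero, List.getD_cons_succ, if_true, if_false, Nat.reduceAdd, Nat.reduceEqDiff, Nat.reduceLeDiff, le_refl, one_ne_zero, zero_ne_one, OfNat.ofNat_ne_zero, OfNat.ofNat_ne_one, OfNat.zero_ne_ofNat, OfNat.one_ne_ofNat, and_true, true_and]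
      repeat' apply And.intro
      all_goals omega)

lemma F_5_15 (x y : ℕ) (h : 0 ≤ x ∧ 2 ≤ y) : Good (4 * x + 6 * y + 5) (10 * x + 18 * y + 15) :=
  key _ _ 26 (fun i => [1, y, x + y + 1, x + y + 2, x + y + 3, x + 2 * y + 2, 2 * x + 2 * y + 3, 2 * x + 3 * y + 4, 2 * x + 5 * y + 5, 3 * x + 5 * y + 6, 3 * x + 5 * y + 7, 3 * x + 5 * y + 8, 3 * x + 7 * y + 5, 3 * x + 7 * y + 6, 4 * x + 7 * y + 7, 4 * x + 7 * y + 8, 4 * x + 7 * y + 9, 4 * x + 9 * y + 6, 4 * x + 9 * y + 7, 6 * x + 9 * y + 8, 6 * x + 9 * y + 9, 6 * x + 10 * y + 8, 6 * x + 11 * y + 7, 6 * x + 11 * y + 8, 6 * x + 12 * y + 9, 6 * x + 12 * y + 10, 8 * x + 12 * y + 11].getD i 0)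
    ⟨2, 6, 23, 7, 17⟩ [⟨2, 5, 13, 18, 19⟩, ⟨0, 12, 0, 0, 3⟩, ⟨1, 21, 4, 11, 10⟩, ⟨0, 22, 0, 0, 14⟩, ⟨1, 0, 20, 16, 15⟩, ⟨1, 1, 8, 25, 24⟩, ⟨0, 2, 0, 0, 9⟩]
    (by decide) (by
      simp only [OK, W, fs, ls, List.getD_cons_zero, List.getD_cons_succ, if_true, if_false, Nat.reduceAdd, Nat.reduceEqDiff, Nat.reduceLeDiff, le_refl, one_ne_zero, zero_ne_one, OfNat.ofNat_ne_zero, OfNat.ofNat_ne_one, OfNat.zero_ne_ofNat, OfNat.one_ne_ofNat, and_true, true_and]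
      repeat' apply And.intro
      all_goals omega)

lemma S_5_16_1000_1 (x : ℕ) (h : 1 ≤ x) : Good (4 * x + 11) (10 * x + 34) :=
  key _ _ 26 (fun i => [1, 2, x + 3, x + 4, x + 5, 2 * x + 5, 2 * x + 6, 2 * x + 7, 2 * x + 8, 2 * x + 9, 2 * x + 10, 3 * x + 11, 3 * x + 12, 3 * x + 13, 3 * x + 14, 4 * x + 14, 4 * x + 15, 4 * x + 16, 4 * x + 17, 6 * x + 16, 6 * x + 17, 6 * x + 18, 6 * x + 19, 6 * x + 20, 6 * x + 21, 6 * x + 22, 8 * x + 23].getD i 0)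
    ⟨0, 23, 0, 0, 9⟩ [⟨0, 5, 0, 0, 8⟩, ⟨0, 24, 0, 0, 7⟩, ⟨0, 6, 0, 0, 16⟩, ⟨2, 4, 14, 18, 11⟩, ⟨0, 21, 0, 0, 13⟩, ⟨0, 2, 0, 0, 12⟩, ⟨0, 22, 0, 0, 15⟩, ⟨0, 0, 0, 0, 20⟩, ⟨0, 17, 0, 0, 19⟩, ⟨1, 1, 10, 25, 3⟩]
    (by decide) (by
      simp only [OK, W, fs, ls, List.getD_cons_zero, List.getD_cons_succ, if_true, if_false, Nat.reduceAdd, Nat.reduceEqDiff, Nat.reduceLeDiff, le_refl, one_ne_zero, zero_ne_one, OfNat.ofNat_ne_zero, OfNat.ofNat_ne_one, OfNat.zero_ne_ofNat, OfNat.one_ne_ofNat, and_true, true_and]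
      repeat' apply And.intro
      all_goals omega)

lemma S_3_10_1000_1 (x : ℕ) (h : 0 ≤ x) : Good (4 * x + 9) (10 * x + 28) :=
  key _ _ 18 (fun i => [1, x + 2, x + 3, x + 4, 2 * x + 5, 2 * x + 6, 2 * x + 7, 2 * x + 8, 2 * x + 9, 3 * x + 10, 3 * x + 11, 4 * x + 12, 4 * x + 13, 6 * x + 14, 6 * x + 15, 6 * x + 16, 6 * x + 17, 6 * x + 18, 8 * x + 19].getD i 0)
    ⟨0, 16, 0, 0, 5⟩ [⟨0, 4, 0, 0, 6⟩, ⟨0, 15, 0, 0, 7⟩, ⟨2, 10, 3, 12, 13⟩, ⟨0, 2, 0, 0, 9⟩, ⟨0, 14, 0, 0, 11⟩, ⟨1, 0, 8, 17, 1⟩]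
    (by decide) (by
      simp only [OK, W, fs, ls, List.getD_cons_zero, List.getD_cons_succ, if_true, if_false, Nat.reduceAdd, Nat.reduceEqDiff, Nat.reduceLeDiff, le_refl, one_ne_zero, zero_ne_one, OfNat.ofNat_ne_zero, OfNat.ofNat_ne_one, OfNat.zero_ne_ofNat, OfNat.one_ne_ofNat, and_true, true_and]
      repeat' apply And.intro
      all_goals omega)

lemma S_3_10_1000_0 (x : ℕ) (h : 1 ≤ x) : Good (4 * x + 3) (10 * x + 10) :=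
  key _ _ 14 (fun i => [1, x + 1, 2 * x + 1, 2 * x + 2, 2 * x + 3, 3 * x + 3, 3 * x + 4, 3 * x + 5, 4 * x + 5, 4 * x + 6, 6 * x + 5, 6 * x + 6, 6 * x + 7, 6 * x + 8, 8 * x + 7].getD i 0)
    ⟨0, 11, 0, 0, 5⟩ [⟨1, 1, 7, 9, 8⟩, ⟨0, 2, 0, 0, 12⟩, ⟨0, 3, 0, 0, 10⟩, ⟨1, 4, 0, 13, 6⟩]
    (by decide) (by
      simp only [OK, W, fs, ls, List.getD_cons_zero, List.getD_cons_succ, if_true, if_false, Nat.reduceAdd, Nat.reduceEqDiff, Nat.reduceLeDiff, le_refl, one_ne_zero, zero_ne_one, OfNat.ofNat_ne_zero, OfNat.ofNat_ne_one, OfNat.zero_ne_ofNat, OfNat.one_ne_ofNat, and_true, true_and]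
      repeat' apply And.intro
      all_goals omega)

lemma S_1_4_1000_0 (x : ℕ) (h : 1 ≤ x) : Good (4 * x + 1) (10 * x + 4) :=
  key _ _ 6 (fun i => [1, 2 * x + 1, 2 * x + 2, 4 * x + 2, 4 * x + 3, 8 * x + 2, 8 * x + 3].getD i 0)
    ⟨1, 0, 2, 4, 3⟩ [⟨0, 1, 0, 0, 5⟩]
    (by decide) (by
      simp only [OK, W, fs, ls, List.getD_cons_zero, List.getD_cons_succ, if_true, if_false, Nat.reduceAdd, Nat.reduceEqDiff, Nat.reduceLeDiff, le_refl, one_ne_zero, zero_ne_one, OfNat.ofNat_ne_zero, OfNat.ofNat_ne_one, OfNat.zero_ne_ofNat, OfNat.one_ne_ofNat, and_true, true_and]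
      repeat' apply And.intro
      all_goals omega)

end Pool.Agent.H6.GS
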