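import Pool.Agent.H6.GS1

set_option autoImplicit false

namespace Pool.Agent.H6.GS

lemma S_4_13_1_1000 (y : ℕ) (h : 3 ≤ y) : Good (6 * y + 8) (18 * y + 23) :=
  key _ _ 48 (fun i => [1, 2, y, y + 1, y + 2, y + 3, 2 * y + 2, 2 * y + 3, 2 * y + 4, 2 * y + 5, 2 * y + 6, 3 * y + 4, 3 * y + 5, 3 * y + 6, 3 * y + 7, 3 * y + 8, 5 * y + 3, 5 * y + 4, 5 * y + 5, 5 * y + 6, 5 * y + 7, 5 * y + 8, 5 * y + 9, 5 * y + 10, 5 * y + 11, 7 * y + 8, 7 * y + 9, 7 * y + 10, 7 * y + 11, 7 * y + 12, 7 * y + 13, 9 * y + 8, 9 * y + 9, 9 * y + 10, 9 * y + 11, 9 * y + 12, 9 * y + 13, 9 * y + 14, 10 * y + 12, 10 * y + 13, 11 * y + 12, 11 * y + 13, 11 * y + 14, 11 * y + 15, 12 * y + 13, 12 * y + 14, 12 * y + 15, 12 * y + 16, 12 * y + 17].getD i 0)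
    ⟨0, 18, 0, 0, 38⟩ [⟨0, 13, 0, 0, 17⟩, ⟨1, 39, 5, 24, 40⟩, ⟨0, 23, 0, 0, 2⟩, ⟨0, 44, 0, 0, 22⟩, ⟨0, 3, 0, 0, 46⟩, ⟨0, 20, 0, 0, 4⟩, ⟨0, 45, 0, 0, 12⟩, ⟨0, 11, 0, 0, 47⟩, ⟨2, 43, 10, 15, 16⟩, ⟨0, 9, 0, 0, 27⟩, ⟨0, 31, 0, 0, 28⟩, ⟨0, 8, 0, 0, 19⟩, ⟨0, 41, 0, 0, 21⟩, ⟨0, 6, 0, 0, 29⟩, ⟨0, 32, 0, 0, 36⟩, ⟨0, 0, 0, 0, 42⟩, ⟨0, 25, 0, 0, 35⟩, ⟨0, 7, 0, 0, 26⟩, ⟨0, 34, 0, 0, 33⟩, ⟨1, 1, 37, 30, 14⟩]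
    (by decide) (by
      simp only [OK, W, fs, ls, List.getD_cons_zero, List.getD_cons_succ, if_true, if_false, Nat.reduceAdd, Nat.reduceEqDiff, Nat.reduceLeDiff, le_refl, one_ne_zero, zero_ne_one, OfNat.ofNat_ne_zero, OfNat.ofNat_ne_one, OfNat.zero_ne_ofNat, OfNat.one_ne_ofNat, and_true, true_and]
      repeat' apply And.intro
      all_goals omega)

lemma F_8_24 (x y : ℕ) (h : 2 ≤ x ∧ 2 ≤ y) : Good (4 * x + 6 * y + 8) (10 * x + 18 * y + 24) :=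
  key _ _ 44 (fun i => [1, 2, y + 1, x + y + 2, x + y + 3, x + 2 * y + 3, x + 2 * y + 4, 2 * x + 2 * y + 3, 2 * x + 2 * y + 4, 2 * x + 2 * y + 5, 2 * x + 3 * y + 4, 2 * x + 3 * y + 5, 2 * x + 3 * y + 6, 2 * x + 3 * y + 7, 2 * x + 3 * y + 8, 2 * x + 5 * y + 5, 2 * x + 5 * y + 6, 2 * x + 5 * y + 7, 3 * x + 5 * y + 8, 3 * x + 7 * y + 7, 3 * x + 7 * y + 8, 3 * x + 7 * y + 9, 3 * x + 7 * y + 10, 4 * x + 7 * y + 9, 4 * x + 7 * y + 10, 4 * x + 7 * y + 11, 4 * x + 7 * y + 12, 4 * x + 9 * y + 9, 4 * x + 9 * y + 10, 4 * x + 9 * y + 11, 4 * x + 9 * y + 12, 4 * x + 9 * y + 13, 4 * x + 9 * y + 14, 6 * x + 9 * y + 11, 6 * x + 9 * y + 12, 6 * x + 9 * y + 13, 6 * x + 9 * y + 14, 6 * x + 10 * y + 13, 6 * x + 10 * y + 14, 6 * x + 10 * y + 15, 6 * x + 11 * y + 15, 6 * x + 12 * y +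 14, 6 * x + 12 * y + 15, 6 * x + 12 * y + 16, 8 * x + 12 * y + 17].getD i 0)
    ⟨1, 4, 39, 18, 16⟩ [⟨0, 8, 0, 0, 28⟩, ⟨0, 24, 0, 0, 27⟩, ⟨1, 9, 40, 14, 13⟩, ⟨0, 10, 0, 0, 42⟩, ⟨0, 11, 0, 0, 38⟩, ⟨0, 15, 0, 0, 12⟩, ⟨0, 37, 0, 0, 3⟩, ⟨0, 21, 0, 0, 34⟩, ⟨0, 5, 0, 0, 20⟩, ⟨0, 35, 0, 0, 19⟩, ⟨1, 6, 22, 32, 31⟩, ⟨0, 7, 0, 0, 23⟩, ⟨0, 30, 0, 0, 0⟩, ⟨0, 33, 0, 0, 29⟩, ⟨1, 1, 36, 26, 25⟩, ⟨1, 2, 17, 43, 41⟩]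
    (by decide) (by
      simp only [OK, W, fs, ls, List.getD_cons_zero, List.getD_cons_succ, if_true, if_false, Nat.reduceAdd, Nat.reduceEqDiff, Nat.reduceLeDiff, le_refl, one_ne_zero, zero_ne_one, OfNat.ofNat_ne_zero, OfNat.ofNat_ne_one, OfNat.zero_ne_ofNat, OfNat.one_ne_ofNat, and_true, true_and]
      repeat' apply And.intro
      all_goals omega)

lemma S_3_10_1000_2 (x : ℕ) (h : 2 ≤ x) : Good (4 * x + 15) (10 * x + 46) :=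
  key _ _ 42 (fun i => [1, 2, 3, x + 2, x + 3, x + 4, x + 5, x + 6, x + 7, 2 * x + 7, 2 * x + 8, 2 * x + 9, 2 * x + 10, 2 * x + 11, 2 * x + 12, 2 * x + 13, 3 * x + 12, 3 * x + 13, 3 * x + 14, 3 * x + 15, 3 * x + 16, 3 * x + 17, 3 * x + 18, 4 * x + 18, 4 * x + 19, 4 * x + 20, 4 * x + 21, 4 * x + 22, 4 * x + 23, 6 * x + 22, 6 * x + 23, 6 * x + 24, 6 * x + 25, 6 * x + 26, 6 * x + 27, 6 * x + 28, 6 * x + 29, 6 * x + 30, 6 * x + 31, 6 * x + 32, 6 * x + 33, 6 * x + 34, 8 * x + 31].getD i 0)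
    ⟨0, 34, 0, 0, 14⟩ [⟨0, 9, 0, 0, 37⟩, ⟨0, 11, 0, 0, 13⟩, ⟨0, 33, 0, 0, 23⟩, ⟨0, 1, 0, 0, 32⟩, ⟨0, 24, 0, 0, 19⟩, ⟨0, 16, 0, 0, 38⟩, ⟨0, 4, 0, 0, 18⟩, ⟨0, 36, 0, 0, 5⟩, ⟨0, 17, 0, 0, 6⟩, ⟨0, 35, 0, 0, 12⟩, ⟨0, 10, 0, 0, 39⟩, ⟨2, 22, 8, 28, 29⟩, ⟨0, 7, 0, 0, 20⟩, ⟨0, 31, 0, 0, 26⟩, ⟨0, 0, 0, 0, 27⟩, ⟨0, 30, 0, 0, 25⟩, ⟨1, 2, 15, 41, 40⟩, ⟨0, 3, 0, 0, 21⟩]
    (by decide) (by
      simp only [OK, W, fs, ls, List.getD_cons_zero, List.getD_cons_succ, if_true, if_false, Nat.reduceAdd, Nat.reduceEqDiff, Nat.reduceLeDiff, le_refl, one_ne_zero, zero_ne_one, OfNat.ofNat_ne_zero, OfNat.ofNat_ne_one, OfNat.zero_ne_ofNat, OfNat.one_ne_ofNat, and_true, true_and]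
      repeat' apply And.intro
      all_goals omega)

lemma S_6_18_0_1000 (y : ℕ) (h : 3 ≤ y) : Good (6 * y + 6) (18 * y + 18) :=
  key _ _ 40 (fun i => [1, 2, y, y + 1, y + 2, 2 * y + 1, 2 * y + 2, 2 * y + 3, 2 * y + 4, 3 * y + 3, 3 * y + 4, 3 * y + 5, 3 * y + 6, 3 * y + 7, 5 * y + 4, 5 * y + 5, 5 * y + 6, 5 * y + 7, 5 * y + 8, 5 * y + 9, 7 * y + 6, 7 * y + 7, 7 * y + 8, 7 * y + 9, 7 * y + 10, 7 * y + 11, 9 * y + 6, 9 * y + 7, 9 * y + 8, 9 * y + 9, 9 * y + 10, 9 * y + 11, 10 * y + 9, 10 * y + 10, 10 * y + 11, 11 * y + 10, 11 * y + 11, 12 * y + 10, 12 * y + 11, 12 * y + 12, 12 * y + 13].getD i 0)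
    ⟨0, 14, 0, 0, 11⟩ [⟨0, 32, 0, 0, 10⟩, ⟨0, 15, 0, 0, 9⟩, ⟨0, 33, 0, 0, 21⟩, ⟨0, 3, 0, 0, 18⟩, ⟨2, 8, 36, 13, 20⟩, ⟨0, 28, 0, 0, 29⟩, ⟨0, 0, 0, 0, 22⟩, ⟨2, 4, 34, 19, 37⟩, ⟨0, 16, 0, 0, 39⟩, ⟨0, 2, 0, 0, 38⟩, ⟨0, 17, 0, 0, 35⟩, ⟨0, 5, 0, 0, 24⟩, ⟨0, 27, 0, 0, 6⟩, ⟨0, 23, 0, 0, 7⟩, ⟨0, 26, 0, 0, 30⟩, ⟨1, 1, 31, 25, 12⟩]
    (by decide) (by
      simp only [OK, W, fs, ls, List.getD_cons_zero, List.getD_cons_succ, if_true, if_false, Nat.reduceAdd, Nat.reduceEqDiff, Nat.reduceLeDiff, le_refl, one_ne_zero, zero_ne_one, OfNat.ofNat_ne_zero, OfNat.ofNat_ne_one, OfNat.zero_ne_ofNat, OfNat.one_ne_ofNat, and_true, true_and]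
      repeat' apply And.intro
      all_goals omega)

lemma S_8_24_0_1000 (y : ℕ) (h : 3 ≤ y) : Good (6 * y + 8) (18 * y + 24) :=
  key _ _ 36 (fun i => [1, 2, y, y + 1, y + 2, y + 3, 2 * y + 3, 2 * y + 4, 2 * y + 5, 3 * y + 5, 3 * y + 6, 3 * y + 7, 5 * y + 6, 5 * y + 7, 5 * y + 8, 5 * y + 9, 5 * y + 10, 5 * y + 11, 7 * y + 10, 7 * y + 11, 7 * y + 12, 7 * y + 13, 7 * y + 14, 9 * y + 9, 9 * y + 10, 9 * y + 11, 9 * y + 12, 9 * y + 13, 9 * y + 14, 10 * y + 12, 11 * y + 12, 11 * y + 13, 11 * y + 14, 12 * y + 14, 12 * y + 15, 12 * y + 16, 12 * y + 17].getD i 0)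
    ⟨0, 13, 0, 0, 4⟩ [⟨0, 34, 0, 0, 9⟩, ⟨2, 32, 8, 11, 12⟩, ⟨0, 7, 0, 0, 30⟩, ⟨0, 14, 0, 0, 35⟩, ⟨0, 2, 0, 0, 16⟩, ⟨0, 33, 0, 0, 15⟩, ⟨0, 3, 0, 0, 19⟩, ⟨1, 29, 5, 17, 21⟩, ⟨0, 23, 0, 0, 20⟩, ⟨0, 6, 0, 0, 25⟩, ⟨0, 18, 0, 0, 31⟩, ⟨0, 0, 0, 0, 27⟩, ⟨0, 24, 0, 0, 26⟩, ⟨1, 1, 28, 22, 10⟩]
    (by decide) (by
      simp only [OK, W, fs, ls, List.getD_cons_zero, List.getD_cons_succ, if_true, if_false, Nat.reduceAdd, Nat.reduceEqDiff, Nat.reduceLeDiff, le_refl, one_ne_zero, zero_ne_one, OfNat.ofNat_ne_zero, OfNat.ofNat_ne_one, OfNat.zero_ne_ofNat, OfNat.one_ne_ofNat, and_true, true_and]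
      repeat' apply And.intro
      all_goals omega)

lemma S_5_16_0_1000 (y : ℕ) (h : 3 ≤ y) : Good (6 * y + 5) (18 * y + 16) :=
  key _ _ 34 (fun i => [1, 2, y, y + 1, y + 2, 2 * y + 1, 2 * y + 2, 2 * y + 3, 3 * y + 3, 3 * y + 4, 3 * y + 5, 5 * y + 4, 5 * y + 5, 5 * y + 6, 5 * y + 7, 5 * y + 8, 7 * y + 5, 7 * y + 6, 7 * y + 7, 7 * y + 8, 7 * y + 9, 7 * y + 10, 7 * y + 11, 9 * y + 6, 9 * y + 7, 9 * y + 8, 9 * y + 9, 10 * y + 7, 10 * y + 8, 10 * y + 9, 10 * y + 10, 11 * y + 9, 11 * y + 10, 12 * y + 10, 12 * y + 11].getD i 0)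
    ⟨2, 7, 32, 10, 17⟩ [⟨0, 24, 0, 0, 25⟩, ⟨0, 0, 0, 0, 18⟩, ⟨2, 4, 30, 15, 33⟩, ⟨0, 11, 0, 0, 29⟩, ⟨0, 8, 0, 0, 28⟩, ⟨0, 12, 0, 0, 9⟩, ⟨0, 27, 0, 0, 3⟩, ⟨0, 19, 0, 0, 6⟩, ⟨0, 23, 0, 0, 20⟩, ⟨0, 5, 0, 0, 13⟩, ⟨0, 31, 0, 0, 16⟩, ⟨1, 1, 26, 22, 21⟩, ⟨0, 2, 0, 0, 14⟩]
    (by decide) (by
      simp only [OK, W, fs, ls, List.getD_cons_zero, List.getD_cons_succ, if_true, if_false, Nat.reduceAdd, Nat.reduceEqDiff, Nat.reduceLeDiff, le_refl, one_ne_zero, zero_ne_one, OfNat.ofNat_ne_zero, OfNat.ofNat_ne_one, OfNat.zero_ne_ofNat, OfNat.one_ne_ofNat, and_true, true_and]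
      repeat' apply And.intro
      all_goals omega)

lemma S_8_24_1000_1 (x : ℕ) (h : 1 ≤ x) : Good (4 * x + 14) (10 * x + 42) :=
  key _ _ 32 (fun i => [1, 2, 3, x + 4, x + 5, x + 6, 2 * x + 6, 2 * x + 7, 2 * x + 8, 2 * x + 9, 2 * x + 10, 2 * x + 11, 3 * x + 12, 3 * x + 13, 3 * x + 14, 3 * x + 15, 3 * x + 16, 4 * x + 16, 4 * x + 17, 4 * x + 18, 4 * x + 19, 4 * x + 20, 4 * x + 21, 4 * x + 22, 6 * x + 21, 6 * x + 22, 6 * x + 23, 6 * x + 24, 6 * x + 25, 6 * x + 26, 6 * x + 27, 6 * x + 28, 8 * x + 29].getD i 0)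
    ⟨0, 29, 0, 0, 3⟩ [⟨0, 12, 0, 0, 27⟩, ⟨1, 5, 16, 23, 22⟩, ⟨0, 6, 0, 0, 30⟩, ⟨0, 9, 0, 0, 28⟩, ⟨0, 8, 0, 0, 17⟩, ⟨0, 19, 0, 0, 7⟩, ⟨0, 18, 0, 0, 1⟩, ⟨0, 26, 0, 0, 14⟩, ⟨0, 4, 0, 0, 15⟩, ⟨0, 25, 0, 0, 20⟩, ⟨0, 0, 0, 0, 21⟩, ⟨0, 24, 0, 0, 10⟩, ⟨1, 11, 2, 31, 13⟩]
    (by decide) (by
      simp only [OK, W, fs, ls, List.getD_cons_zero, List.getD_cons_succ, if_true, if_false, Nat.reduceAdd, Nat.reduceEqDiff, Nat.reduceLeDiff, le_refl, one_ne_zero, zero_ne_one, OfNat.ofNat_ne_zero, OfNat.ofNat_ne_one, OfNat.zero_ne_ofNat, OfNat.one_ne_ofNat, and_true, true_and]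
      repeat' apply And.intro
      all_goals omega)

lemma S_4_12_0_1000 (y : ℕ) (h : 2 ≤ y) : Good (6 * y + 4) (18 * y + 12) :=
  key _ _ 28 (fun i => [1, y, y + 1, y + 2, 2 * y + 2, 2 * y + 3, 2 * y + 4, 3 * y + 3, 3 * y + 4, 5 * y + 1, 5 * y + 2, 5 * y + 3, 5 * y + 4, 5 * y + 5, 7 * y + 4, 7 * y + 5, 7 * y + 6, 7 * y + 7, 9 * y + 4, 9 * y + 5, 9 * y + 6, 9 * y + 7, 9 * y + 8, 10 * y + 7, 11 * y + 7, 11 * y + 8, 12 * y + 7, 12 * y + 8, 12 * y + 9].getD i 0)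
    ⟨0, 2, 0, 0, 11⟩ [⟨0, 27, 0, 0, 1⟩, ⟨0, 12, 0, 0, 24⟩, ⟨2, 23, 3, 13, 10⟩, ⟨0, 7, 0, 0, 26⟩, ⟨2, 25, 6, 8, 9⟩, ⟨0, 5, 0, 0, 19⟩, ⟨0, 14, 0, 0, 20⟩, ⟨0, 4, 0, 0, 16⟩, ⟨0, 18, 0, 0, 21⟩, ⟨1, 0, 22, 17, 15⟩]
    (by decide) (by
      simp only [OK, W, fs, ls, List.getD_cons_zero, List.getD_cons_succ, if_true, if_false, Nat.reduceAdd, Nat.reduceEqDiff, Nat.reduceLeDiff, le_refl, one_ne_zero, zero_ne_one, OfNat.ofNat_ne_zero, OfNat.ofNat_ne_one, OfNat.zero_ne_ofNat, OfNat.one_ne_ofNat, and_true, true_and]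
      repeat' apply And.intro
      all_goals omega)

lemma S_6_19_1000_1 (x : ℕ) (h : 1 ≤ x) : Good (4 * x + 12) (10 * x + 37) :=
  key _ _ 28 (fun i => [1, 2, 3, x + 3, x + 4, x + 5, 2 * x + 6, 2 * x + 7, 2 * x + 8, 2 * x + 9, 2 * x + 10, 3 * x + 10, 3 * x + 11, 3 * x + 12, 3 * x + 13, 3 * x + 14, 4 * x + 15, 4 * x + 16, 4 * x + 17, 4 * x + 18, 6 * x + 19, 6 * x + 20, 6 * x + 21, 6 * x + 22, 6 * x + 23, 6 * x + 24, 6 * x + 25, 6 * x + 26, 8 * x + 25].getD i 0)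
    ⟨0, 24, 0, 0, 12⟩ [⟨0, 3, 0, 0, 14⟩, ⟨0, 22, 0, 0, 9⟩, ⟨0, 7, 0, 0, 25⟩, ⟨0, 6, 0, 0, 17⟩, ⟨0, 16, 0, 0, 1⟩, ⟨0, 21, 0, 0, 13⟩, ⟨1, 5, 15, 19, 23⟩, ⟨0, 0, 0, 0, 18⟩, ⟨0, 20, 0, 0, 8⟩, ⟨1, 10, 2, 27, 26⟩, ⟨0, 11, 0, 0, 4⟩]
    (by decide) (by
      simp only [OK, W, fs, ls, List.getD_cons_zero, List.getD_cons_succ, if_true, if_false, Nat.reduceAdd, Nat.reduceEqDiff, Nat.reduceLeDiff, le_refl, one_ne_zero, zero_ne_one, OfNat.ofNat_ne_zero, OfNat.ofNat_ne_one, OfNat.zero_ne_ofNat, OfNat.one_ne_ofNat, and_true, true_and]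
      repeat' apply And.intro
      all_goals omega)

lemma S_5_15_1000_1 (x : ℕ) (h : 1 ≤ x) : Good (4 * x + 11) (10 * x + 33) :=
  key _ _ 26 (fun i => [1, 2, x + 2, x + 3, x + 4, x + 5, 2 * x + 6, 2 * x + 7, 2 * x + 8, 2 * x + 9, 3 * x + 9, 3 * x + 10, 3 * x + 11, 3 * x + 12, 4 * x + 13, 4 * x + 14, 4 * x + 15, 4 * x + 16, 6 * x + 17, 6 * x + 18, 6 * x + 19, 6 * x + 20, 6 * x + 21, 6 * x + 22, 6 * x + 23, 6 * x + 24, 8 * x + 23].getD i 0)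
    ⟨0, 11, 0, 0, 22⟩ [⟨0, 2, 0, 0, 21⟩, ⟨0, 12, 0, 0, 4⟩, ⟨0, 19, 0, 0, 3⟩, ⟨1, 13, 5, 17, 23⟩, ⟨0, 6, 0, 0, 8⟩, ⟨0, 20, 0, 0, 14⟩, ⟨0, 0, 0, 0, 16⟩, ⟨0, 18, 0, 0, 7⟩, ⟨1, 9, 1, 25, 24⟩, ⟨0, 10, 0, 0, 15⟩]
    (by decide) (by
      simp only [OK, W, fs, ls, List.getD_cons_zero, List.getD_cons_succ, if_true, if_false, Nat.reduceAdd, Nat.reduceEqDiff, Nat.reduceLeDiff, le_refl, one_ne_zero, zero_ne_one, OfNat.ofNat_ne_zero, OfNat.ofNat_ne_one, OfNat.zero_ne_ofNat, OfNat.one_ne_ofNat, and_true, true_and]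
      repeat' apply And.intro
      all_goals omega)

lemma S_4_12_1000_1 (x : ℕ) (h : 1 ≤ x) : Good (4 * x + 10) (10 * x + 30) :=
  key _ _ 20 (fun i => [1, x + 3, x + 4, x + 5, 2 * x + 5, 2 * x + 6, 2 * x + 7, 2 * x + 8, 2 * x + 9, 3 * x + 11, 4 * x + 11, 4 * x + 12, 4 * x + 13, 4 * x + 14, 4 * x + 15, 4 * x + 16, 6 * x + 15, 6 * x + 16, 6 * x + 17, 6 * x + 18, 8 * x + 21].getD i 0)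
    ⟨0, 17, 0, 0, 1⟩ [⟨1, 9, 3, 15, 14⟩, ⟨0, 10, 0, 0, 5⟩, ⟨0, 12, 0, 0, 11⟩, ⟨0, 4, 0, 0, 18⟩, ⟨0, 7, 0, 0, 6⟩, ⟨0, 16, 0, 0, 13⟩, ⟨1, 0, 8, 19, 2⟩]
    (by decide) (by
      simp only [OK, W, fs, ls, List.getD_cons_zero, List.getD_cons_succ, if_true, if_false, Nat.reduceAdd, Nat.reduceEqDiff, Nat.reduceLeDiff, le_refl, one_ne_zero, zero_ne_one, OfNat.ofNat_ne_zero, OfNat.ofNat_ne_one, OfNat.zero_ne_ofNat, OfNat.one_ne_ofNat, and_true, true_and]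
      repeat' apply And.intro
      all_goals omega)

lemma S_1_4_0_1000 (y : ℕ) (h : 2 ≤ y) : Good (6 * y + 1) (18 * y + 4) :=
  key _ _ 18 (fun i => [1, y + 2, y + 3, 2 * y + 2, 3 * y + 1, 3 * y + 2, 5 * y - 1, 5 * y, 5 * y + 1, 5 * y + 2, 7 * y - 1, 7 * y, 7 * y + 1, 9 * y + 2, 10 * y + 3, 11 * y + 2, 11 * y + 3, 11 * y + 4, 12 * y + 3].getD i 0)
    ⟨0, 8, 0, 0, 15⟩ [⟨2, 14, 2, 9, 10⟩, ⟨0, 1, 0, 0, 7⟩, ⟨2, 3, 17, 5, 6⟩, ⟨0, 16, 0, 0, 11⟩, ⟨1, 0, 13, 12, 4⟩]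
    (by decide) (by
      simp only [OK, W, fs, ls, List.getD_cons_zero, List.getD_cons_succ, if_true, if_false, Nat.reduceAdd, Nat.reduceEqDiff, Nat.reduceLeDiff, le_refl, one_ne_zero, zero_ne_one, OfNat.ofNat_ne_zero, OfNat.ofNat_ne_one, OfNat.zero_ne_ofNat, OfNat.one_ne_ofNat, and_true, true_and]
      repeat' apply And.intro
      all_goals omega)

lemma S_4_12_1000_0 (x : ℕ) (h : 1 ≤ x) : Good (4 * x + 4) (10 * x + 12) :=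
  key _ _ 16 (fun i => [1, 2, x + 2, x + 3, 2 * x + 3, 2 * x + 4, 3 * x + 4, 4 * x + 4, 4 * x + 5, 4 * x + 6, 4 * x + 7, 6 * x + 6, 6 * x + 7, 6 * x + 8, 8 * x + 7, 8 * x + 8, 8 * x + 9].getD i 0)
    ⟨1, 3, 6, 10, 9⟩ [⟨0, 4, 0, 0, 15⟩, ⟨0, 0, 0, 0, 8⟩, ⟨0, 11, 0, 0, 7⟩, ⟨1, 1, 5, 13, 12⟩, ⟨0, 2, 0, 0, 14⟩]
    (by decide) (by
      simp only [OK, W, fs, ls, List.getD_cons_zero, List.getD_cons_succ, if_true, if_false, Nat.reduceAdd, Nat.reduceEqDiff, Nat.reduceLeDiff, le_refl, one_ne_zero, zero_ne_one, OfNat.ofNat_ne_zero, OfNat.ofNat_ne_one, OfNat.zero_ne_ofNat, OfNat.one_ne_ofNat, and_true, true_and]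
      repeat' apply And.intro
      all_goals omega)

lemma S_7_21_1000_0 (x : ℕ) (h : 0 ≤ x) : Good (4 * x + 7) (10 * x + 21) :=
  key _ _ 14 (fun i => [1, 2, x + 3, x + 4, 2 * x + 5, 2 * x + 6, 3 * x + 7, 4 * x + 8, 4 * x + 9, 4 * x + 10, 6 * x + 11, 6 * x + 12, 6 * x + 13, 8 * x + 14, 8 * x + 15].getD i 0)
    ⟨1, 3, 6, 9, 4⟩ [⟨0, 8, 0, 0, 0⟩, ⟨0, 10, 0, 0, 7⟩, ⟨1, 1, 5, 12, 11⟩, ⟨0, 2, 0, 0, 13⟩]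
    (by decide) (by
      simp only [OK, W, fs, ls, List.getD_cons_zero, List.getD_cons_succ, if_true, if_false, Nat.reduceAdd, Nat.reduceEqDiff, Nat.reduceLeDiff, le_refl, one_ne_zero, zero_ne_one, OfNat.ofNat_ne_zero, OfNat.ofNat_ne_one, OfNat.zero_ne_ofNat, OfNat.one_ne_ofNat, and_true, true_and]
      repeat' apply And.intro
      all_goals omega)

end Pool.Agent.H6.GS
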