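import Pool.Agent.H6.GS1

set_option autoImplicit false

namespace Pool.Agent.H6.GS

lemma F_3_10 (x y : ℕ) (h : 2 ≤ x ∧ 3 ≤ y) : Good (4 * x + 6 * y + 3) (10 * x + 18 * y + 10) :=
  key _ _ 46 (fun i => [1, 2, y, x + y + 1, x + y + 2, x + 2 * y + 1, x + 2 * y + 2, 2 * x + 2 * y + 1, 2 * x + 2 * y + 2, 2 * x + 2 * y + 3, 2 * x + 3 * y + 1, 2 * x + 3 * y + 2, 2 * x + 3 * y + 3, 2 * x + 3 * y + 4, 2 * x + 3 * y + 5, 2 * x + 5 * y, 2 * x + 5 * y + 1, 2 * x + 5 * y + 2, 2 * x + 5 * y + 3, 2 * x + 5 * y + 4, 3 * x + 5 * y + 5, 3 * x + 7 * y + 2, 3 * x + 7 * y + 3, 3 * x + 7 * y + 4, 3 * x + 7 * y + 5, 4 * x + 7 * y + 4, 4 * x + 7 * y + 5, 4 * x + 7 * y + 6, 4 * x + 7 * y + 7, 4 * x + 9 * y + 2, 4 * x + 9 * y + 3, 4 * x + 9 * y + 4, 4 * x + 9 * y + 5, 4 * x + 9 * y + 6,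 4 * x + 9 * y + 7, 6 * x + 9 * y + 4, 6 * x + 9 * y + 5, 6 * x + 9 * y + 6, 6 * x + 9 * y + 7, 6 * x + 10 * y + 5, 6 * x + 10 * y + 6, 6 * x + 10 * y + 7, 6 * x + 11 * y + 6, 6 * x + 11 * y + 7, 6 * x + 11 * y + 8, 6 * x + 12 * y + 6, 8 * x + 12 * y + 7].getD i 0)
    ⟨2, 41, 4, 20, 21⟩ [⟨0, 3, 0, 0, 23⟩, ⟨0, 39, 0, 0, 11⟩, ⟨0, 18, 0, 0, 12⟩, ⟨2, 1, 38, 28, 31⟩, ⟨0, 35, 0, 0, 32⟩, ⟨0, 0, 0, 0, 30⟩, ⟨0, 37, 0, 0, 5⟩, ⟨0, 22, 0, 0, 36⟩, ⟨1, 6, 24, 34, 33⟩, ⟨0, 7, 0, 0, 17⟩, ⟨0, 43, 0, 0, 16⟩, ⟨0, 8, 0, 0, 27⟩, ⟨0, 29, 0, 0, 26⟩, ⟨1, 9, 44, 14, 10⟩, ⟨0, 13, 0, 0, 15⟩, ⟨0, 40, 0, 0, 25⟩, ⟨1, 2, 19, 45, 42⟩]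
    (by decide) (by
      simp only [OK, W, fs, ls, List.getD_cons_zero, List.getD_cons_succ, if_true, if_false, Nat.reduceAdd, Nat.reduceEqDiff, Nat.reduceLeDiff, le_refl, one_ne_zero, zero_ne_one, OfNat.ofNat_ne_zero, OfNat.ofNat_ne_one, OfNat.zero_ne_ofNat, OfNat.one_ne_ofNat, and_true, true_and]
      repeat' apply And.intro
      all_goals omega)

lemma S_3_10_1_1000 (y : ℕ) (h : 3 ≤ y) : Good (6 * y + 7) (18 * y + 20) :=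
  key _ _ 46 (fun i => [1, 2, y, y + 1, y + 2, y + 3, y + 4, 2 * y + 2, 2 * y + 3, 2 * y + 4, 3 * y + 3, 3 * y + 4, 3 * y + 5, 3 * y + 6, 3 * y + 7, 5 * y + 4, 5 * y + 5, 5 * y + 6, 5 * y + 7, 5 * y + 8, 5 * y + 9, 5 * y + 10, 7 * y + 5, 7 * y + 6, 7 * y + 7, 7 * y + 8, 7 * y + 9, 7 * y + 10, 7 * y + 11, 7 * y + 12, 7 * y + 13, 9 * y + 8, 9 * y + 9, 9 * y + 10, 9 * y + 11, 10 * y + 9, 10 * y + 10, 10 * y + 11, 10 * y + 12, 11 * y + 10, 11 * y + 11, 11 * y + 12, 11 * y + 13, 12 * y + 12, 12 * y + 13, 12 * y + 14, 12 * y + 15].getD i 0)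
    ⟨0, 10, 0, 0, 12⟩ [⟨0, 43, 0, 0, 18⟩, ⟨0, 3, 0, 0, 45⟩, ⟨0, 16, 0, 0, 11⟩, ⟨0, 37, 0, 0, 26⟩, ⟨0, 2, 0, 0, 20⟩, ⟨2, 9, 42, 14, 39⟩, ⟨0, 17, 0, 0, 41⟩, ⟨0, 7, 0, 0, 27⟩, ⟨0, 31, 0, 0, 28⟩, ⟨2, 38, 6, 21, 22⟩, ⟨0, 5, 0, 0, 44⟩, ⟨0, 15, 0, 0, 13⟩, ⟨0, 36, 0, 0, 4⟩, ⟨0, 25, 0, 0, 40⟩, ⟨0, 0, 0, 0, 32⟩, ⟨0, 33, 0, 0, 24⟩, ⟨0, 8, 0, 0, 23⟩, ⟨1, 34, 1, 30, 29⟩, ⟨0, 35, 0, 0, 19⟩]
    (by decide) (by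
      simp only [OK, W, fs, ls, List.getD_cons_zero, List.getD_cons_succ, if_true, if_false, Nat.reduceAdd, Nat.reduceEqDiff, Nat.reduceLeDiff, le_refl, one_ne_zero, zero_ne_one, OfNat.ofNat_ne_zero, OfNat.ofNat_ne_one, OfNat.zero_ne_ofNat, OfNat.one_ne_ofNat, and_true, true_and]
      repeat' apply And.intro
      all_goals omega)

lemma S_4_12_1_1000 (y : ℕ) (h : 3 ≤ y) : Good (6 * y + 8) (18 * y + 22) :=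
  key _ _ 44 (fun i => [1, 2, y, y + 1, y + 2, y + 3, 2 * y + 2, 2 * y + 3, 2 * y + 4, 2 * y + 5, 2 * y + 6, 3 * y + 5, 3 * y + 6, 3 * y + 7, 5 * y + 4, 5 * y + 5, 5 * y + 6, 5 * y + 7, 5 * y + 8, 5 * y + 9, 5 * y + 10, 7 * y + 7, 7 * y + 8, 7 * y + 9, 7 * y + 10, 7 * y + 11, 7 * y + 12, 9 * y + 7, 9 * y + 8, 9 * y + 9, 9 * y + 10, 9 * y + 11, 9 * y + 12, 9 * y + 13, 9 * y + 14, 10 * y + 12, 10 * y + 13, 11 * y + 12, 11 * y + 13, 12 * y + 12, 12 * y + 13, 12 * y + 14, 12 * y + 15, 12 * y + 16, 12 * y + 17].getD i 0)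
    ⟨0, 15, 0, 0, 35⟩ [⟨0, 11, 0, 0, 40⟩, ⟨2, 38, 10, 13, 14⟩, ⟨0, 9, 0, 0, 28⟩, ⟨0, 23, 0, 0, 32⟩, ⟨2, 36, 5, 20, 22⟩, ⟨0, 3, 0, 0, 19⟩, ⟨0, 39, 0, 0, 18⟩, ⟨0, 4, 0, 0, 41⟩, ⟨0, 16, 0, 0, 43⟩, ⟨0, 2, 0, 0, 42⟩, ⟨0, 17, 0, 0, 37⟩, ⟨0, 7, 0, 0, 29⟩, ⟨0, 24, 0, 0, 6⟩, ⟨0, 30, 0, 0, 0⟩, ⟨0, 31, 0, 0, 21⟩, ⟨0, 8, 0, 0, 25⟩, ⟨0, 27, 0, 0, 33⟩, ⟨1, 1, 34, 26, 12⟩]
    (by decide) (by
      simp only [OK, W, fs, ls, List.getD_cons_zero, List.getD_cons_succ, if_true, if_false, Nat.reduceAdd, Nat.reduceEqDiff, Nat.reduceLeDiff, le_refl, one_ne_zero, zero_ne_one, OfNat.ofNat_ne_zero, OfNat.ofNat_ne_one, OfNat.zero_ne_ofNat, OfNat.one_ne_ofNat, and_true, true_and]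
      repeat' apply And.intro
      all_goals omega)

lemma S_7_21_0_1000 (y : ℕ) (h : 3 ≤ y) : Good (6 * y + 7) (18 * y + 21) :=
  key _ _ 38 (fun i => [1, 2, y, y + 1, y + 2, 2 * y + 2, 2 * y + 3, 2 * y + 4, 2 * y + 5, 3 * y + 4, 3 * y + 5, 3 * y + 6, 3 * y + 7, 5 * y + 4, 5 * y + 5, 5 * y + 6, 5 * y + 7, 5 * y + 8, 5 * y + 9, 7 * y + 8, 7 * y + 9, 7 * y + 10, 7 * y + 11, 7 * y + 12, 7 * y + 13, 9 * y + 8, 9 * y + 9, 9 * y + 10, 9 * y + 11, 9 * y + 12, 10 * y + 10, 10 * y + 11, 10 * y + 12, 11 * y + 12, 11 * y + 13, 12 * y + 12, 12 * y + 13, 12 * y + 14, 12 * y + 15].getD i 0)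
    ⟨0, 3, 0, 0, 35⟩ [⟨0, 17, 0, 0, 36⟩, ⟨0, 2, 0, 0, 37⟩, ⟨0, 16, 0, 0, 31⟩, ⟨2, 34, 8, 12, 13⟩, ⟨0, 7, 0, 0, 20⟩, ⟨0, 25, 0, 0, 23⟩, ⟨2, 32, 4, 18, 9⟩, ⟨0, 14, 0, 0, 11⟩, ⟨0, 30, 0, 0, 10⟩, ⟨0, 15, 0, 0, 6⟩, ⟨0, 33, 0, 0, 0⟩, ⟨0, 19, 0, 0, 28⟩, ⟨0, 5, 0, 0, 21⟩, ⟨0, 26, 0, 0, 27⟩, ⟨1, 1, 29, 24, 22⟩]
    (by decide) (by
      simp only [OK, W, fs, ls, List.getD_cons_zero, List.getD_cons_succ, if_true, if_false, Nat.reduceAdd, Nat.reduceEqDiff, Nat.reduceLeDiff, le_refl, one_ne_zero, zero_ne_one, OfNat.ofNat_ne_zero, OfNat.ofNat_ne_one, OfNat.zero_ne_ofNat, OfNat.one_ne_ofNat, and_true, true_and]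
      repeat' apply And.intro
      all_goals omega)

lemma F_3_9 (x y : ℕ) (h : 1 ≤ x ∧ 3 ≤ y) : Good (4 * x + 6 * y + 3) (10 * x + 18 * y + 9) :=
  key _ _ 34 (fun i => [1, 2, y, x + y + 2, x + 2 * y + 1, x + 2 * y + 2, x + 2 * y + 3, 2 * x + 2 * y + 3, 2 * x + 2 * y + 4, 2 * x + 3 * y + 3, 2 * x + 3 * y + 4, 2 * x + 5 * y + 1, 2 * x + 5 * y + 2, 2 * x + 5 * y + 3, 3 * x + 5 * y + 5, 3 * x + 7 * y + 2, 3 * x + 7 * y + 3, 3 * x + 7 * y + 4, 4 * x + 7 * y + 4, 4 * x + 7 * y + 5, 4 * x + 7 * y + 6, 4 * x + 7 * y + 7, 4 * x + 9 * y + 2, 4 * x + 9 * y + 3, 4 * x + 9 * y + 4, 6 * x + 9 * y + 3, 6 * x + 9 * y + 4, 6 * x + 9 * y + 5, 6 * x + 9 * y + 6, 6 * x + 10 * y + 4, 6 * x + 10 * y + 5, 6 * x + 10 * y + 6, 6 * x + 11 * y + 5, 6 * x + 12 * y + 4, 8 * x + 12 * y + 7].getD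 i 0)
    ⟨2, 3, 31, 14, 16⟩ [⟨0, 29, 0, 0, 9⟩, ⟨0, 12, 0, 0, 30⟩, ⟨2, 32, 8, 10, 11⟩, ⟨0, 7, 0, 0, 18⟩, ⟨0, 22, 0, 0, 19⟩, ⟨2, 17, 6, 24, 25⟩, ⟨0, 5, 0, 0, 15⟩, ⟨0, 27, 0, 0, 0⟩, ⟨0, 23, 0, 0, 26⟩, ⟨1, 1, 28, 21, 20⟩, ⟨1, 2, 13, 33, 4⟩]
    (by decide) (by
      simp only [OK, W, fs, ls, List.getD_cons_zero, List.getD_cons_succ, if_true, if_false, Nat.reduceAdd, Nat.reduceEqDiff, Nat.reduceLeDiff, le_refl, one_ne_zero, zero_ne_one, OfNat.ofNat_ne_zero, OfNat.ofNat_ne_one, OfNat.zero_ne_ofNat, OfNat.one_ne_ofNat, and_true, true_and]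
      repeat' apply And.intro
      all_goals omega)

lemma F_7_21 (x y : ℕ) (h : 2 ≤ x ∧ 1 ≤ y) : Good (4 * x + 6 * y + 7) (10 * x + 18 * y + 21) :=
  key _ _ 34 (fun i => [1, 2, y + 2, x + y + 3, x + y + 4, x + 2 * y + 4, 2 * x + 2 * y + 3, 2 * x + 2 * y + 4, 2 * x + 3 * y + 4, 2 * x + 3 * y + 5, 2 * x + 3 * y + 6, 2 * x + 5 * y + 5, 3 * x + 5 * y + 6, 3 * x + 5 * y + 7, 3 * x + 7 * y + 6, 3 * x + 7 * y + 7, 3 * x + 7 * y + 8, 3 * x + 7 * y + 9, 4 * x + 7 * y + 8, 4 * x + 7 * y + 9, 4 * x + 7 * y + 10, 4 * x + 9 * y + 9, 4 * x + 9 * y + 10, 4 * x + 9 * y + 11, 4 * x + 9 * y + 12, 6 * x + 9 * y + 9, 6 * x + 9 * y + 10, 6 * x + 9 * y + 11, 6 * x + 10 * y + 11, 6 * x + 10 * y + 12, 6 * x + 11 * y + 12, 6 * x + 11 * y + 13, 6 * x + 12 * y + 13, 6 * x + 12 * y + 14,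 8 * x + 12 * y + 15].getD i 0)
    ⟨2, 29, 4, 13, 14⟩ [⟨0, 3, 0, 0, 16⟩, ⟨2, 1, 27, 20, 25⟩, ⟨0, 22, 0, 0, 0⟩, ⟨0, 26, 0, 0, 15⟩, ⟨1, 5, 17, 24, 23⟩, ⟨0, 6, 0, 0, 19⟩, ⟨0, 21, 0, 0, 18⟩, ⟨1, 7, 31, 10, 8⟩, ⟨0, 9, 0, 0, 28⟩, ⟨1, 11, 2, 33, 32⟩, ⟨0, 12, 0, 0, 30⟩]
    (by decide) (by
      simp only [OK, W, fs, ls, List.getD_cons_zero, List.getD_cons_succ, if_true, if_false, Nat.reduceAdd, Nat.reduceEqDiff, Nat.reduceLeDiff, le_refl, one_ne_zero, zero_ne_one, OfNat.ofNat_ne_zero, OfNat.ofNat_ne_one, OfNat.zero_ne_ofNat, OfNat.one_ne_ofNat, and_true, true_and]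
      repeat' apply And.intro
      all_goals omega)

lemma F_6_19 (x y : ℕ) (h : 1 ≤ x ∧ 2 ≤ y) : Good (4 * x + 6 * y + 6) (10 * x + 18 * y + 19) :=
  key _ _ 32 (fun i => [1, 2, y + 1, y + 2, x + y + 3, x + 2 * y + 3, 2 * x + 2 * y + 3, 2 * x + 2 * y + 4, 2 * x + 3 * y + 4, 2 * x + 3 * y + 5, 2 * x + 5 * y + 4, 2 * x + 5 * y + 5, 3 * x + 5 * y + 6, 3 * x + 5 * y + 7, 3 * x + 7 * y + 6, 3 * x + 7 * y + 7, 3 * x + 7 * y + 8, 4 * x + 7 * y + 8, 4 * x + 7 * y + 9, 4 * x + 7 * y + 10, 4 * x + 9 * y + 7, 4 * x + 9 * y + 8, 4 * x + 9 * y + 9, 4 * x + 9 * y + 10, 6 * x + 9 * y + 9, 6 * x + 9 * y + 10, 6 * x + 9 * y + 11, 6 * x + 10 * y + 10, 6 * x + 10 * y + 11, 6 * x + 11 * y + 11, 6 * x + 11 * y + 12, 6 * x + 12 * y + 12, 8 * x + 12 * y + 13].getD i 0)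
    ⟨2, 7, 30, 9, 17⟩ [⟨0, 20, 0, 0, 6⟩, ⟨0, 18, 0, 0, 2⟩, ⟨2, 1, 26, 19, 21⟩, ⟨0, 24, 0, 0, 22⟩, ⟨0, 0, 0, 0, 29⟩, ⟨2, 5, 16, 23, 14⟩, ⟨0, 25, 0, 0, 15⟩, ⟨2, 28, 4, 13, 10⟩, ⟨0, 8, 0, 0, 27⟩, ⟨1, 11, 3, 31, 12⟩]
    (by decide) (by
      simp only [OK, W, fs, ls, List.getD_cons_zero, List.getD_cons_succ, if_true, if_false, Nat.reduceAdd, Nat.reduceEqDiff, Nat.reduceLeDiff, le_refl, one_ne_zero, zero_ne_one, OfNat.ofNat_ne_zero, OfNat.ofNat_ne_one, OfNat.zero_ne_ofNat, OfNat.one_ne_ofNat, and_true, true_and]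
      repeat' apply And.intro
      all_goals omega)

lemma S_5_15_1000_0 (x : ℕ) (h : 3 ≤ x) : Good (4 * x + 5) (10 * x + 15) :=
  key _ _ 30 (fun i => [1, 2, x + 1, x + 2, x + 3, 2 * x + 1, 2 * x + 2, 2 * x + 3, 3 * x + 2, 3 * x + 3, 3 * x + 4, 3 * x + 5, 3 * x + 6, 3 * x + 7, 3 * x + 8, 4 * x + 6, 4 * x + 7, 4 * x + 8, 4 * x + 9, 4 * x + 10, 6 * x + 5, 6 * x + 6, 6 * x + 7, 6 * x + 8, 6 * x + 9, 6 * x + 10, 6 * x + 11, 6 * x + 12, 6 * x + 13, 6 * x + 14, 8 * x + 11].getD i 0)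
    ⟨0, 18, 0, 0, 20⟩ [⟨0, 0, 0, 0, 16⟩, ⟨0, 22, 0, 0, 13⟩, ⟨0, 2, 0, 0, 24⟩, ⟨0, 11, 0, 0, 23⟩, ⟨0, 3, 0, 0, 25⟩, ⟨0, 9, 0, 0, 15⟩, ⟨0, 12, 0, 0, 21⟩, ⟨1, 4, 14, 19, 17⟩, ⟨0, 6, 0, 0, 27⟩, ⟨0, 5, 0, 0, 26⟩, ⟨1, 7, 1, 29, 28⟩, ⟨0, 8, 0, 0, 10⟩]
    (by decide) (by
      simp only [OK, W, fs, ls, List.getD_cons_zero, List.getD_cons_succ, if_true, if_false, Nat.reduceAdd, Nat.reduceEqDiff, Nat.reduceLeDiff, le_refl, one_ne_zero, zero_ne_one, OfNat.ofNat_ne_zero, OfNat.ofNat_ne_one, OfNat.zero_ne_ofNat, OfNat.one_ne_ofNat, and_true, true_and]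
      repeat' apply And.intro
      all_goals omega)

lemma S_6_18_1000_1 (x : ℕ) (h : 1 ≤ x) : Good (4 * x + 12) (10 * x + 36) :=
  key _ _ 28 (fun i => [1, 2, x + 3, x + 4, x + 5, 2 * x + 5, 2 * x + 6, 2 * x + 7, 2 * x + 8, 2 * x + 9, 2 * x + 10, 3 * x + 11, 3 * x + 12, 3 * x + 13, 3 * x + 14, 4 * x + 14, 4 * x + 15, 4 * x + 16, 4 * x + 17, 4 * x + 18, 4 * x + 19, 6 * x + 18, 6 * x + 19, 6 * x + 20, 6 * x + 21, 6 * x + 22, 6 * x + 23, 6 * x + 24, 8 * x + 25].getD i 0)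
    ⟨0, 11, 0, 0, 25⟩ [⟨0, 2, 0, 0, 13⟩, ⟨0, 23, 0, 0, 3⟩, ⟨0, 12, 0, 0, 22⟩, ⟨1, 4, 14, 20, 19⟩, ⟨0, 5, 0, 0, 8⟩, ⟨0, 26, 0, 0, 7⟩, ⟨0, 6, 0, 0, 9⟩, ⟨0, 24, 0, 0, 15⟩, ⟨0, 0, 0, 0, 18⟩, ⟨0, 21, 0, 0, 17⟩, ⟨1, 1, 10, 27, 16⟩]
    (by decide) (by
      simp only [OK, W, fs, ls, List.getD_cons_zero, List.getD_cons_succ, if_true, if_false, Nat.reduceAdd, Nat.reduceEqDiff, Nat.reduceLeDiff, le_refl, one_ne_zero, zero_ne_one, OfNat.ofNat_ne_zero, OfNat.ofNat_ne_one, OfNat.zero_ne_ofNat, OfNat.one_ne_ofNat, and_true, true_and]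
      repeat' apply And.intro
      all_goals omega)

lemma S_3_9_1000_1 (x : ℕ) (h : 1 ≤ x) : Good (4 * x + 9) (10 * x + 27) :=
  key _ _ 26 (fun i => [1, 2, x + 2, x + 3, x + 4, 2 * x + 4, 2 * x + 5, 2 * x + 6, 2 * x + 7, 3 * x + 7, 3 * x + 8, 3 * x + 9, 3 * x + 10, 3 * x + 11, 4 * x + 11, 4 * x + 12, 4 * x + 13, 4 * x + 14, 6 * x + 13, 6 * x + 14, 6 * x + 15, 6 * x + 16, 6 * x + 17, 6 * x + 18, 6 * x + 19, 6 * x + 20, 8 * x + 19].getD i 0)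
    ⟨0, 22, 0, 0, 2⟩ [⟨0, 10, 0, 0, 11⟩, ⟨2, 4, 13, 17, 12⟩, ⟨0, 18, 0, 0, 16⟩, ⟨0, 0, 0, 0, 20⟩, ⟨0, 14, 0, 0, 15⟩, ⟨0, 5, 0, 0, 23⟩, ⟨0, 6, 0, 0, 21⟩, ⟨0, 7, 0, 0, 19⟩, ⟨1, 8, 1, 25, 24⟩, ⟨0, 9, 0, 0, 3⟩]
    (by decide) (by
      simp only [OK, W, fs, ls, List.getD_cons_zero, List.getD_cons_succ, if_true, if_false, Nat.reduceAdd, Nat.reduceEqDiff, Nat.reduceLeDiff, le_refl, one_ne_zero, zero_ne_one, OfNat.ofNat_ne_zero, OfNat.ofNat_ne_one, OfNat.zero_ne_ofNat, OfNat.one_ne_ofNat, and_true, true_and]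
      repeat' apply And.intro
      all_goals omega)

lemma S_2_7_0_1000 (y : ℕ) (h : 2 ≤ y) : Good (6 * y + 2) (18 * y + 7) :=
  key _ _ 20 (fun i => [1, y, y + 1, 2 * y + 1, 2 * y + 2, 3 * y + 2, 3 * y + 3, 5 * y + 2, 5 * y + 3, 5 * y + 4, 7 * y + 3, 7 * y + 4, 7 * y + 5, 9 * y + 2, 9 * y + 3, 9 * y + 4, 9 * y + 5, 10 * y + 4, 11 * y + 4, 12 * y + 4, 12 * y + 5].getD i 0)
    ⟨0, 5, 0, 0, 19⟩ [⟨2, 18, 4, 6, 8⟩, ⟨2, 17, 2, 9, 1⟩, ⟨0, 10, 0, 0, 14⟩, ⟨0, 3, 0, 0, 11⟩, ⟨0, 13, 0, 0, 15⟩, ⟨1, 0, 16, 12, 7⟩]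
    (by decide) (by
      simp only [OK, W, fs, ls, List.getD_cons_zero, List.getD_cons_succ, if_true, if_false, Nat.reduceAdd, Nat.reduceEqDiff, Nat.reduceLeDiff, le_refl, one_ne_zero, zero_ne_one, OfNat.ofNat_ne_zero, OfNat.ofNat_ne_one, OfNat.zero_ne_ofNat, OfNat.one_ne_ofNat, and_true, true_and]
      repeat' apply And.intro
      all_goals omega)

lemma S_8_24_1000_0 (x : ℕ) (h : 1 ≤ x) : Good (4 * x + 8) (10 * x + 24) :=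
  key _ _ 20 (fun i => [1, x + 2, x + 3, x + 4, 2 * x + 4, 2 * x + 5, 2 * x + 6, 2 * x + 7, 3 * x + 8, 3 * x + 9, 3 * x + 10, 4 * x + 10, 4 * x + 11, 4 * x + 12, 6 * x + 11, 6 * x + 12, 6 * x + 13, 6 * x + 14, 6 * x + 15, 6 * x + 16, 8 * x + 17].getD i 0)
    ⟨0, 17, 0, 0, 4⟩ [⟨0, 6, 0, 0, 16⟩, ⟨0, 5, 0, 0, 11⟩, ⟨2, 3, 10, 13, 14⟩, ⟨0, 9, 0, 0, 2⟩, ⟨0, 15, 0, 0, 12⟩, ⟨1, 0, 7, 19, 18⟩, ⟨0, 1, 0, 0, 8⟩]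
    (by decide) (by
      simp only [OK, W, fs, ls, List.getD_cons_zero, List.getD_cons_succ, if_true, if_false, Nat.reduceAdd, Nat.reduceEqDiff, Nat.reduceLeDiff, le_refl, one_ne_zero, zero_ne_one, OfNat.ofNat_ne_zero, OfNat.ofNat_ne_one, OfNat.zero_ne_ofNat, OfNat.one_ne_ofNat, and_true, true_and]
      repeat' apply And.intro
      all_goals omega)

lemma S_4_13_1000_0 (x : ℕ) (h : 1 ≤ x) : Good (4 * x + 4) (10 * x + 13) :=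
  key _ _ 16 (fun i => [1, 2, x + 2, x + 3, 2 * x + 3, 3 * x + 3, 3 * x + 4, 3 * x + 5, 4 * x + 5, 4 * x + 6, 4 * x + 7, 6 * x + 6, 6 * x + 7, 6 * x + 8, 6 * x + 9, 6 * x + 10, 8 * x + 9].getD i 0)
    ⟨0, 12, 0, 0, 5⟩ [⟨1, 3, 7, 10, 13⟩, ⟨0, 0, 0, 0, 9⟩, ⟨0, 11, 0, 0, 8⟩, ⟨1, 1, 4, 15, 14⟩, ⟨0, 2, 0, 0, 6⟩]
    (by decide) (by
      simp only [OK, W, fs, ls, List.getD_cons_zero, List.getD_cons_succ, if_true, if_false, Nat.reduceAdd, Nat.reduceEqDiff, Nat.reduceLeDiff, le_refl, one_ne_zero, zero_ne_one, OfNat.ofNat_ne_zero, OfNat.ofNat_ne_one, OfNat.zero_ne_ofNat, OfNat.one_ne_ofNat, and_true, true_and]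
      repeat' apply And.intro
      all_goals omega)

lemma S_2_7_1000_0 (x : ℕ) (h : 1 ≤ x) : Good (4 * x + 2) (10 * x + 7) :=
  key _ _ 12 (fun i => [1, x + 1, x + 2, 2 * x + 2, 2 * x + 3, 3 * x + 3, 4 * x + 3, 4 * x + 4, 6 * x + 3, 6 * x + 4, 6 * x + 5, 8 * x + 4, 8 * x + 5].getD i 0)
    ⟨1, 2, 5, 7, 3⟩ [⟨0, 6, 0, 0, 8⟩, ⟨1, 0, 4, 10, 9⟩, ⟨0, 1, 0, 0, 11⟩]
    (by decide) (by
      simp only [OK, W, fs, ls, List.getD_cons_zero, List.getD_cons_succ, if_true, if_false, Nat.reduceAdd, Nat.reduceEqDiff, Nat.reduceLeDiff, le_refl, one_ne_zero, zero_ne_one, OfNat.ofNat_ne_zero, OfNat.ofNat_ne_one, OfNat.zero_ne_ofNat, OfNat.one_ne_ofNat, and_true, true_and]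
      repeat' apply And.intro
      all_goals omega)

end Pool.Agent.H6.GS
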