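import Pool.Agent.H6.GS2a
import Pool.Agent.H6.GS2b
import Pool.Agent.H6.GS2c
import Pool.Agent.H6.GS2d

set_option autoImplicit false

namespace Pool.Agent.H6.GS

def tab : List (ℕ × ℕ × List ℕ) := [
  (4, 12, [1, 3, 2, 6]),
  (4, 13, [1, 5, 2, 8]),
  (6, 17, [3, 6, 7, 1, 5, 2]),
  (6, 18, [1, 8, 4, 2, 5, 10]),
  (6, 19, [2, 7, 11, 3, 4, 9]),
  (7, 19, [1, 5, 2, 6, 3, 7, 4]),
  (7, 20, [12, 2, 8, 3, 4, 5, 1]),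
  (7, 21, [4, 7, 9, 11, 2, 6, 3]),
  (7, 22, [2, 8, 4, 5, 14, 7, 9]),
  (8, 22, [4, 7, 5, 1, 12, 2, 6, 3]),
  (8, 23, [13, 4, 8, 1, 12, 2, 5, 3]),
  (8, 24, [1, 8, 6, 16, 5, 7, 4, 9]),
  (8, 25, [1, 8, 12, 7, 4, 10, 13, 9]),
  (9, 24, [1, 6, 2, 7, 3, 8, 4, 9, 5]),
  (9, 25, [1, 6, 7, 3, 5, 9, 2, 13, 8]),
  (9, 26, [1, 10, 2, 8, 6, 9, 4, 5, 18]),
  (9, 27, [3, 10, 5, 6, 4, 8, 18, 7, 11]),
  (9, 28, [17, 5, 16, 4, 11, 3, 15, 1, 9]),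
  (10, 27, [4, 9, 5, 10, 11, 1, 7, 2, 8, 3]),
  (10, 28, [1, 7, 9, 3, 11, 2, 18, 4, 5, 10]),
  (10, 29, [17, 7, 6, 11, 4, 15, 1, 8, 2, 9]),
  (10, 30, [1, 9, 5, 7, 4, 15, 13, 14, 10, 12]),
  (10, 31, [1, 10, 3, 9, 16, 8, 11, 15, 14, 13]),
  (11, 29, [1, 7, 2, 8, 3, 9, 4, 10, 5, 11, 6]),
  (11, 30, [18, 3, 11, 4, 12, 5, 6, 7, 1, 8, 2]),
  (11, 31, [5, 10, 6, 11, 13, 17, 2, 8, 3, 9, 4]),
  (11, 32, [19, 6, 11, 5, 17, 1, 18, 2, 8, 3, 9]),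
  (11, 33, [1, 12, 8, 11, 3, 9, 6, 22, 7, 16, 15]),
  (11, 34, [1, 11, 2, 15, 16, 13, 12, 18, 6, 8, 19]),
  (12, 32, [5, 10, 6, 11, 7, 1, 18, 2, 8, 3, 9, 4]),
  (12, 33, [19, 5, 11, 6, 12, 1, 18, 2, 7, 3, 8, 4]),
  (12, 34, [20, 8, 7, 13, 5, 12, 18, 1, 9, 2, 10, 3]),
  (12, 35, [1, 11, 6, 20, 8, 3, 13, 5, 16, 4, 21, 12]),
  (12, 36, [1, 13, 16, 14, 4, 8, 11, 23, 10, 5, 12, 15]),
  (12, 37, [1, 14, 17, 13, 4, 9, 23, 3, 16, 19, 10, 15]),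
  (13, 34, [1, 8, 2, 9, 3, 10, 4, 11, 5, 12, 6, 13, 7]),
  (13, 35, [1, 10, 9, 18, 5, 7, 2, 11, 4, 6, 15, 3, 13]),
  (13, 36, [2, 10, 11, 7, 6, 4, 12, 8, 3, 14, 5, 22, 13]),
  (13, 37, [23, 11, 14, 5, 19, 1, 15, 6, 7, 8, 9, 2, 10]),
  (13, 38, [23, 7, 22, 6, 15, 5, 14, 4, 21, 1, 11, 2, 12]),
  (13, 39, [2, 12, 19, 9, 6, 7, 17, 18, 20, 14, 3, 13, 16]),
  (13, 40, [11, 5, 23, 4, 26, 6, 25, 1, 20, 2, 21, 3, 22]),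
  (14, 37, [5, 12, 6, 13, 7, 14, 15, 1, 9, 2, 10, 3, 11, 4]),
  (14, 38, [10, 3, 12, 15, 1, 21, 13, 5, 7, 14, 6, 8, 2, 9]),
  (14, 39, [23, 9, 8, 15, 6, 14, 5, 21, 1, 10, 2, 11, 3, 12]),
  (14, 40, [22, 14, 6, 15, 17, 7, 10, 21, 1, 11, 2, 12, 3, 13]),
  (14, 41, [25, 12, 24, 8, 7, 16, 15, 6, 21, 1, 17, 2, 11, 3]),
  (14, 42, [2, 14, 6, 27, 10, 4, 13, 17, 18, 23, 11, 15, 3, 19]),
  (14, 43, [8, 7, 27, 6, 26, 4, 25, 3, 24, 17, 5, 20, 1, 23]),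
  (15, 39, [1, 9, 2, 10, 3, 11, 4, 12, 5, 13, 6, 14, 7, 15, 8]),
  (15, 40, [24, 4, 14, 5, 15, 6, 16, 7, 8, 9, 1, 10, 2, 11, 3]),
  (15, 41, [6, 13, 7, 14, 8, 15, 17, 23, 2, 10, 3, 11, 4, 12, 5]),
  (15, 42, [25, 8, 15, 7, 14, 6, 23, 1, 24, 2, 10, 3, 11, 4, 12]),
  (15, 43, [13, 3, 14, 24, 15, 6, 16, 7, 8, 25, 1, 23, 11, 2, 12]),
  (15, 44, [26, 7, 27, 8, 17, 6, 24, 4, 25, 1, 20, 2, 12, 3, 13]),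
  (15, 45, [1, 14, 6, 13, 9, 24, 10, 18, 19, 21, 20, 22, 16, 2, 15]),
  (15, 46, [1, 18, 5, 17, 25, 14, 2, 15, 22, 21, 12, 28, 10, 16, 19]),
  (16, 42, [6, 13, 7, 14, 8, 15, 9, 1, 24, 2, 10, 3, 11, 4, 12, 5]),
  (16, 43, [25, 6, 14, 7, 15, 8, 16, 1, 24, 2, 9, 3, 10, 4, 11, 5]),
  (16, 44, [26, 10, 9, 17, 7, 16, 6, 15, 24, 1, 11, 2, 12, 3, 13, 4]),
  (16, 45, [14, 27, 5, 25, 1, 23, 6, 17, 20, 7, 9, 10, 11, 2, 12, 3]),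
  (16, 46, [14, 4, 26, 15, 6, 17, 7, 29, 8, 27, 1, 24, 2, 12, 3, 13]),
  (16, 47, [29, 4, 27, 9, 8, 19, 26, 6, 17, 7, 18, 1, 25, 12, 3, 13]),
  (16, 48, [3, 32, 14, 5, 28, 4, 27, 9, 8, 30, 7, 18, 6, 22, 1, 26]),
  (16, 49, [1, 20, 10, 21, 3, 32, 5, 17, 23, 2, 16, 29, 13, 30, 8, 26]),
  (17, 44, [1, 10, 2, 11, 3, 12, 4, 13, 5, 14, 6, 15, 7, 16, 8, 17, 9]),
  (17, 45, [21, 1, 25, 4, 14, 5, 12, 15, 6, 17, 8, 7, 9, 2, 10, 3, 11]),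
  (17, 46, [15, 5, 13, 19, 18, 20, 1, 24, 6, 17, 7, 10, 2, 11, 3, 12, 4]),
  (17, 47, [29, 14, 18, 7, 17, 6, 25, 1, 19, 8, 9, 10, 11, 2, 12, 3, 13]),
  (17, 48, [29, 9, 28, 8, 19, 7, 18, 6, 17, 5, 27, 1, 13, 2, 14, 3, 15]),
  (17, 49, [1, 17, 12, 14, 27, 13, 33, 11, 4, 26, 7, 10, 15, 6, 22, 2, 18]),
  (17, 50, [30, 5, 29, 9, 31, 8, 18, 7, 26, 1, 27, 2, 28, 3, 13, 4, 14]),
  (17, 51, [32, 9, 31, 8, 30, 7, 20, 6, 19, 28, 5, 29, 1, 27, 2, 15, 3]),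
  (17, 52, [1, 19, 10, 25, 5, 33, 15, 34, 16, 6, 18, 8, 31, 12, 11, 21, 24]),
  (18, 47, [6, 15, 7, 16, 8, 17, 9, 18, 19, 1, 11, 2, 12, 3, 13, 4, 14, 5]),
  (18, 48, [13, 4, 15, 19, 1, 27, 16, 6, 17, 7, 9, 18, 8, 10, 2, 11, 3, 12]),
  (18, 49, [29, 11, 10, 19, 8, 18, 7, 17, 6, 27, 1, 12, 2, 13, 3, 14, 4, 15]),
  (18, 50, [28, 17, 7, 18, 8, 19, 21, 9, 12, 27, 1, 13, 2, 14, 3, 15, 4, 16]),
  (18, 51, [31, 15, 30, 10, 9, 20, 19, 8, 18, 7, 27, 1, 21, 2, 13, 3, 14, 4]),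
  (18, 52, [32, 15, 7, 19, 8, 11, 10, 22, 21, 29, 6, 28, 1, 27, 13, 3, 14, 4]),
  (18, 53, [1, 20, 3, 22, 19, 10, 16, 35, 11, 25, 5, 15, 34, 6, 18, 9, 8, 31]),
  (18, 54, [2, 16, 26, 3, 27, 4, 31, 22, 21, 20, 28, 18, 7, 14, 30, 15, 5, 17]),
  (18, 55, [35, 4, 15, 11, 34, 9, 33, 8, 20, 5, 31, 6, 26, 22, 32, 2, 28, 3]),
  (19, 49, [1, 11, 2, 12, 3, 13, 4, 14, 5, 15, 6, 16, 7, 17, 8, 18, 9, 19, 10]),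
  (19, 50, [30, 5, 17, 6, 18, 7, 19, 8, 20, 9, 10, 11, 1, 12, 2, 13, 3, 14, 4]),
  (19, 51, [7, 16, 8, 17, 9, 18, 10, 19, 21, 29, 2, 12, 3, 13, 4, 14, 5, 15, 6]),
  (19, 52, [31, 10, 19, 9, 18, 8, 17, 7, 29, 1, 30, 2, 12, 3, 13, 4, 14, 5, 15]),
  (19, 53, [16, 4, 17, 30, 18, 7, 19, 8, 20, 9, 10, 31, 1, 29, 13, 2, 14, 3, 15]),
  (19, 54, [32, 9, 33, 10, 21, 8, 20, 7, 30, 5, 31, 1, 24, 2, 14, 3, 15, 4, 16]),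
  (19, 55, [2, 21, 7, 12, 29, 3, 17, 5, 28, 8, 10, 11, 31, 6, 25, 26, 9, 16, 38]),
  (19, 56, [1, 20, 4, 22, 31, 14, 29, 25, 7, 23, 18, 33, 17, 12, 8, 10, 9, 19, 21]),
  (19, 57, [2, 17, 34, 4, 20, 23, 26, 22, 10, 11, 30, 24, 5, 21, 35, 15, 13, 12, 18]),
  (19, 58, [16, 7, 34, 6, 33, 5, 38, 9, 37, 8, 36, 1, 29, 2, 30, 3, 31, 4, 32]),
  (20, 52, [7, 16, 8, 17, 9, 18, 10, 19, 11, 1, 30, 2, 12, 3, 13, 4, 14, 5, 15, 6]),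
  (20, 53, [31, 7, 17, 8, 18, 9, 19, 10, 20, 1, 30, 2, 11, 3, 12, 4, 13, 5, 14, 6]),
  (20, 54, [32, 12, 11, 21, 9, 20, 8, 19, 7, 18, 30, 1, 13, 2, 14, 3, 15, 4, 16, 5]),
  (20, 55, [17, 33, 6, 31, 1, 29, 7, 20, 8, 21, 24, 9, 11, 12, 13, 2, 14, 3, 15, 4]),
  (20, 56, [17, 5, 32, 18, 7, 20, 8, 21, 9, 35, 10, 33, 1, 30, 2, 14, 3, 15, 4, 16]),
  (20, 57, [35, 5, 33, 11, 10, 23, 32, 7, 20, 8, 21, 9, 22, 1, 31, 14, 3, 15, 4, 16]),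
  (20, 58, [1, 17, 4, 16, 11, 22, 10, 19, 30, 13, 27, 23, 28, 24, 32, 14, 5, 20, 3, 21]),
  (20, 59, [1, 26, 3, 18, 33, 16, 9, 13, 27, 7, 28, 2, 36, 11, 31, 6, 39, 15, 4, 35]),
  (20, 60, [4, 16, 31, 21, 37, 22, 35, 11, 24, 6, 26, 5, 19, 7, 15, 33, 18, 10, 23, 17]),
  (20, 61, [11, 10, 39, 9, 38, 8, 37, 6, 36, 5, 35, 4, 34, 24, 7, 29, 1, 32, 2, 33]),
  (21, 54, [1, 12, 2, 13, 3, 14, 4, 15, 5, 16, 6, 17, 7, 18, 8, 19, 9, 20, 10, 21, 11]),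
  (21, 55, [25, 1, 31, 5, 17, 6, 15, 18, 7, 20, 8, 21, 10, 9, 11, 2, 12, 3, 13, 4, 14]),
  (21, 56, [18, 6, 16, 23, 22, 24, 1, 30, 7, 20, 8, 21, 9, 12, 2, 13, 3, 14, 4, 15, 5]),
  (21, 57, [35, 17, 22, 9, 21, 8, 20, 7, 31, 1, 23, 10, 11, 12, 13, 2, 14, 3, 15, 4, 16]),
  (21, 58, [35, 11, 34, 10, 23, 9, 22, 8, 21, 7, 20, 6, 33, 1, 15, 2, 16, 3, 17, 4, 18]),
  (21, 59, [7, 34, 6, 32, 2, 27, 31, 8, 22, 9, 26, 10, 36, 12, 14, 3, 15, 4, 16, 5, 17]),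
  (21, 60, [36, 6, 35, 11, 37, 10, 22, 9, 21, 8, 32, 1, 33, 2, 34, 3, 15, 4, 16, 5, 17]),
  (21, 61, [38, 11, 37, 10, 36, 9, 24, 8, 23, 7, 22, 34, 6, 35, 1, 33, 2, 17, 3, 18, 4]),
  (21, 62, [16, 34, 11, 10, 38, 9, 24, 7, 23, 35, 5, 30, 6, 19, 3, 39, 2, 18, 36, 1, 33]),
  (21, 63, [16, 5, 36, 6, 37, 8, 17, 35, 4, 19, 41, 10, 39, 9, 31, 7, 30, 1, 33, 2, 34]),
  (21, 64, [19, 34, 10, 40, 9, 16, 35, 17, 5, 36, 6, 37, 26, 31, 8, 38, 2, 32, 3, 33, 4]),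
  (22, 57, [7, 18, 8, 19, 9, 20, 10, 21, 11, 22, 23, 1, 13, 2, 14, 3, 15, 4, 16, 5, 17, 6]),
  (22, 58, [16, 5, 18, 23, 1, 33, 19, 7, 20, 8, 21, 9, 11, 22, 10, 12, 2, 13, 3, 14, 4, 15]),
  (22, 59, [35, 13, 12, 23, 10, 22, 9, 21, 8, 20, 7, 33, 1, 14, 2, 15, 3, 16, 4, 17, 5, 18]),
  (22, 60, [34, 20, 8, 21, 9, 22, 10, 23, 25, 11, 14, 33, 1, 15, 2, 16, 3, 17, 4, 18, 5, 19]),
  (22, 61, [37, 18, 36, 12, 11, 24, 23, 10, 22, 9, 21, 8, 33, 1, 25, 2, 15, 3, 16, 4, 17, 5]),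
  (22, 62, [38, 18, 8, 22, 9, 23, 10, 13, 12, 26, 25, 35, 7, 34, 1, 33, 15, 3, 16, 4, 17, 5]),
  (22, 63, [4, 15, 6, 31, 5, 34, 22, 40, 20, 10, 12, 21, 23, 8, 18, 17, 11, 13, 36, 25, 9, 16]),
  (22, 64, [8, 24, 9, 40, 10, 12, 41, 5, 36, 6, 37, 7, 38, 1, 33, 2, 34, 3, 35, 16, 4, 17]),
  (22, 65, [41, 11, 40, 10, 29, 27, 35, 2, 33, 1, 25, 8, 34, 7, 38, 6, 37, 12, 17, 4, 18, 5]),
  (22, 66, [4, 44, 19, 7, 39, 6, 38, 5, 37, 12, 11, 42, 10, 41, 9, 25, 8, 31, 1, 35, 2, 36]),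
  (22, 67, [18, 9, 41, 10, 42, 21, 43, 11, 12, 36, 5, 37, 6, 38, 7, 31, 8, 39, 1, 32, 2, 35]),
  (23, 59, [1, 13, 2, 14, 3, 15, 4, 16, 5, 17, 6, 18, 7, 19, 8, 20, 9, 21, 10, 22, 11, 23, 12]),
  (23, 60, [36, 6, 20, 7, 21, 8, 22, 9, 23, 10, 24, 11, 12, 13, 1, 14, 2, 15, 3, 16, 4, 17, 5]),
  (23, 61, [8, 19, 9, 20, 10, 21, 11, 22, 12, 23, 25, 35, 2, 14, 3, 15, 4, 16, 5, 17, 6, 18, 7]),
  (23, 62, [37, 12, 23, 11, 22, 10, 21, 9, 20, 8, 35, 1, 36, 2, 14, 3, 15, 4, 16, 5, 17, 6, 18]),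
  (23, 63, [19, 5, 20, 36, 21, 8, 22, 9, 23, 10, 24, 11, 12, 37, 1, 35, 15, 2, 16, 3, 17, 4, 18]),
  (23, 64, [38, 11, 39, 12, 25, 10, 24, 9, 23, 8, 36, 6, 37, 1, 28, 2, 16, 3, 17, 4, 18, 5, 19]),
  (23, 65, [22, 8, 24, 9, 25, 10, 11, 12, 14, 38, 21, 37, 5, 20, 4, 18, 28, 36, 2, 34, 16, 3, 17]),
  (23, 66, [39, 11, 13, 38, 2, 27, 18, 5, 41, 19, 40, 12, 10, 25, 9, 24, 8, 36, 1, 35, 3, 17, 4]),
  (23, 67, [1, 22, 15, 40, 20, 42, 19, 9, 13, 16, 10, 36, 14, 24, 18, 3, 37, 4, 28, 31, 2, 33, 23]),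
  (23, 68, [41, 7, 40, 6, 39, 12, 43, 11, 42, 10, 25, 9, 35, 1, 36, 2, 37, 3, 38, 4, 18, 5, 19]),
  (23, 69, [44, 12, 43, 11, 42, 10, 41, 9, 27, 8, 26, 38, 6, 39, 7, 40, 1, 36, 2, 37, 3, 20, 4]),
  (23, 70, [45, 11, 44, 10, 43, 9, 34, 1, 41, 6, 40, 5, 19, 12, 20, 37, 29, 33, 7, 42, 2, 36, 3]),
  (24, 62, [8, 19, 9, 20, 10, 21, 11, 22, 12, 23, 13, 1, 36, 2, 14, 3, 15, 4, 16, 5, 17, 6, 18, 7]),
  (24, 63, [37, 8, 20, 9, 21, 10, 22, 11, 23, 12, 24, 1, 36, 2, 13, 3, 14, 4, 15, 5, 16, 6, 17, 7]),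
  (24, 64, [38, 14, 13, 25, 11, 24, 10, 23, 9, 22, 8, 21, 36, 1, 15, 2, 16, 3, 17, 4, 18, 5, 19, 6]),
  (24, 65, [20, 39, 7, 37, 1, 35, 8, 23, 9, 24, 10, 25, 28, 11, 13, 14, 15, 2, 16, 3, 17, 4, 18, 5]),
  (24, 66, [20, 6, 38, 21, 8, 23, 9, 24, 10, 25, 11, 41, 12, 39, 1, 36, 2, 16, 3, 17, 4, 18, 5, 19]),
  (24, 67, [41, 6, 39, 13, 12, 27, 38, 8, 23, 9, 24, 10, 25, 11, 26, 1, 37, 16, 3, 17, 4, 18, 5, 19]),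
  (24, 68, [40, 7, 41, 8, 36, 9, 25, 10, 32, 35, 2, 37, 3, 27, 11, 42, 12, 13, 16, 4, 17, 5, 18, 6]),
  (24, 69, [40, 7, 41, 8, 36, 9, 26, 1, 35, 2, 37, 3, 28, 31, 11, 43, 14, 39, 17, 4, 18, 5, 19, 6]),
  (24, 70, [1, 21, 5, 47, 8, 42, 17, 30, 3, 34, 26, 32, 29, 27, 7, 24, 6, 19, 35, 22, 2, 25, 4, 38]),
  (24, 71, [19, 5, 40, 4, 28, 42, 8, 30, 9, 25, 10, 43, 11, 44, 12, 46, 3, 20, 6, 41, 7, 35, 2, 38]),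
  (24, 72, [19, 39, 20, 40, 4, 45, 11, 44, 10, 35, 1, 42, 6, 41, 5, 21, 3, 22, 7, 34, 30, 33, 2, 38]),
  (24, 73, [47, 5, 20, 14, 46, 12, 45, 11, 44, 10, 27, 6, 41, 7, 42, 8, 35, 29, 43, 2, 37, 3, 38, 4])]

lemma tab_ok : ∀ e ∈ tab, (e.2.2 : Multiset ℕ) +
    (List.zipWith (fun x y => e.2.1 - (x + y)) e.2.2 (e.2.2.rotate 1) : List ℕ) =
      Multiset.Ico 1 (2 * e.1 + 1) := by
  decide +kernel

lemma tab_cov : ∀ n ∈ List.range 25, ∀ j ∈ List.range 75,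
    (4 ≤ n ∧ n ≠ 5 ∧ 5 * n + 3 ≤ 2 * j ∧ j ≤ 3 * n + 1) → ∃ e ∈ tab, e.1 = n ∧ e.2.1 = j := by
  decide +kernel

lemma C_1_4 (x y : ℕ) (h : 25 ≤ 4 * x + 6 * y + 1) :
    Good (4 * x + 6 * y + 1) (10 * x + 18 * y + 4) := by
  have : (1 ≤ x ∧ 2 ≤ y) ∨ (x = 0 ∧ 2 ≤ y) ∨ (y = 0 ∧ 1 ≤ x) ∨ (y = 1 ∧ 1 ≤ x) := by omega
  rcases this with c | c | c | c
  · exact F_1_4 x y c
  · convert S_1_4_0_1000 y c.2 using 1 <;> omega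
  · convert S_1_4_1000_0 x c.2 using 1 <;> omega
  · convert S_1_4_1000_1 x c.2 using 1 <;> omega

lemma C_2_7 (x y : ℕ) (h : 25 ≤ 4 * x + 6 * y + 2) :
    Good (4 * x + 6 * y + 2) (10 * x + 18 * y + 7) := by
  have : (3 ≤ x ∧ 2 ≤ y) ∨ (x = 0 ∧ 2 ≤ y) ∨ (y = 0 ∧ 1 ≤ x) ∨ (y = 1 ∧ 2 ≤ x) ∨ (x = 1 ∧ 3 ≤ y) ∨ (x = 2 ∧ 3 ≤ y) := by omega
  rcases this with c | c | c | c | c | c
  · exact F_2_7 x y c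
  · convert S_2_7_0_1000 y c.2 using 1 <;> omega
  · convert S_2_7_1000_0 x c.2 using 1 <;> omega
  · convert S_2_7_1000_1 x c.2 using 1 <;> omega
  · convert S_2_7_1_1000 y c.2 using 1 <;> omega
  · convert S_2_7_2_1000 y c.2 using 1 <;> omega

lemma C_3_10 (x y : ℕ) (h : 25 ≤ 4 * x + 6 * y + 3) :
    Good (4 * x + 6 * y + 3) (10 * x + 18 * y + 10) := by
  have : (2 ≤ x ∧ 3 ≤ y) ∨ (x = 0 ∧ 3 ≤ y) ∨ (y = 0 ∧ 1 ≤ x) ∨ (y = 1 ∧ 0 ≤ x) ∨ (y = 2 ∧ 2 ≤ x) ∨ (x = 1 ∧ 3 ≤ y) := by omega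
  rcases this with c | c | c | c | c | c
  · exact F_3_10 x y c
  · convert S_3_10_0_1000 y c.2 using 1 <;> omega
  · convert S_3_10_1000_0 x c.2 using 1 <;> omega
  · convert S_3_10_1000_1 x c.2 using 1 <;> omega
  · convert S_3_10_1000_2 x c.2 using 1 <;> omega
  · convert S_3_10_1_1000 y c.2 using 1 <;> omega

lemma C_3_9 (x y : ℕ) (h : 25 ≤ 4 * x + 6 * y + 3) :
    Good (4 * x + 6 * y + 3) (10 * x + 18 * y + 9) := by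
  have : (1 ≤ x ∧ 3 ≤ y) ∨ (x = 0 ∧ 3 ≤ y) ∨ (y = 0 ∧ 0 ≤ x) ∨ (y = 1 ∧ 1 ≤ x) ∨ (y = 2 ∧ 2 ≤ x) := by omega
  rcases this with c | c | c | c | c
  · exact F_3_9 x y c
  · convert S_3_9_0_1000 y c.2 using 1 <;> omega
  · convert S_3_9_1000_0 x c.2 using 1 <;> omega
  · convert S_3_9_1000_1 x c.2 using 1 <;> omega
  · convert S_3_9_1000_2 x c.2 using 1 <;> omega

lemma C_4_12 (x y : ℕ) (h : 25 ≤ 4 * x + 6 * y + 4) :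
    Good (4 * x + 6 * y + 4) (10 * x + 18 * y + 12) := by
  have : (2 ≤ x ∧ 2 ≤ y) ∨ (x = 0 ∧ 2 ≤ y) ∨ (y = 0 ∧ 1 ≤ x) ∨ (y = 1 ∧ 1 ≤ x) ∨ (x = 1 ∧ 3 ≤ y) := by omega
  rcases this with c | c | c | c | c
  · exact F_4_12 x y c
  · convert S_4_12_0_1000 y c.2 using 1 <;> omega
  · convert S_4_12_1000_0 x c.2 using 1 <;> omega
  · convert S_4_12_1000_1 x c.2 using 1 <;> omega
  · convert S_4_12_1_1000 y c.2 using 1 <;> omega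

lemma C_4_13 (x y : ℕ) (h : 25 ≤ 4 * x + 6 * y + 4) :
    Good (4 * x + 6 * y + 4) (10 * x + 18 * y + 13) := by
  have : (2 ≤ x ∧ 2 ≤ y) ∨ (x = 0 ∧ 3 ≤ y) ∨ (y = 0 ∧ 1 ≤ x) ∨ (y = 1 ∧ 1 ≤ x) ∨ (x = 1 ∧ 3 ≤ y) := by omega
  rcases this with c | c | c | c | c
  · exact F_4_13 x y c
  · convert S_4_13_0_1000 y c.2 using 1 <;> omega
  · convert S_4_13_1000_0 x c.2 using 1 <;> omega
  · convert S_4_13_1000_1 x c.2 using 1 <;> omega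
  · convert S_4_13_1_1000 y c.2 using 1 <;> omega

lemma C_5_15 (x y : ℕ) (h : 25 ≤ 4 * x + 6 * y + 5) :
    Good (4 * x + 6 * y + 5) (10 * x + 18 * y + 15) := by
  have : (0 ≤ x ∧ 2 ≤ y) ∨ (y = 0 ∧ 3 ≤ x) ∨ (y = 1 ∧ 1 ≤ x) := by omega
  rcases this with c | c | c
  · exact F_5_15 x y c
  · convert S_5_15_1000_0 x c.2 using 1 <;> omega
  · convert S_5_15_1000_1 x c.2 using 1 <;> omega

lemma C_5_16 (x y : ℕ) (h : 25 ≤ 4 * x + 6 * y + 5) :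
    Good (4 * x + 6 * y + 5) (10 * x + 18 * y + 16) := by
  have : (2 ≤ x ∧ 2 ≤ y) ∨ (x = 0 ∧ 3 ≤ y) ∨ (y = 0 ∧ 3 ≤ x) ∨ (y = 1 ∧ 1 ≤ x) ∨ (x = 1 ∧ 2 ≤ y) := by omega
  rcases this with c | c | c | c | c
  · exact F_5_16 x y c
  · convert S_5_16_0_1000 y c.2 using 1 <;> omega
  · convert S_5_16_1000_0 x c.2 using 1 <;> omega
  · convert S_5_16_1000_1 x c.2 using 1 <;> omega
  · convert S_5_16_1_1000 y c.2 using 1 <;> omega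

lemma C_6_18 (x y : ℕ) (h : 25 ≤ 4 * x + 6 * y + 6) :
    Good (4 * x + 6 * y + 6) (10 * x + 18 * y + 18) := by
  have : (1 ≤ x ∧ 2 ≤ y) ∨ (x = 0 ∧ 3 ≤ y) ∨ (y = 0 ∧ 2 ≤ x) ∨ (y = 1 ∧ 1 ≤ x) := by omega
  rcases this with c | c | c | c
  · exact F_6_18 x y c
  · convert S_6_18_0_1000 y c.2 using 1 <;> omega
  · convert S_6_18_1000_0 x c.2 using 1 <;> omega
  · convert S_6_18_1000_1 x c.2 using 1 <;> omega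

lemma C_6_19 (x y : ℕ) (h : 25 ≤ 4 * x + 6 * y + 6) :
    Good (4 * x + 6 * y + 6) (10 * x + 18 * y + 19) := by
  have : (1 ≤ x ∧ 2 ≤ y) ∨ (x = 0 ∧ 2 ≤ y) ∨ (y = 0 ∧ 1 ≤ x) ∨ (y = 1 ∧ 1 ≤ x) := by omega
  rcases this with c | c | c | c
  · exact F_6_19 x y c
  · convert S_6_19_0_1000 y c.2 using 1 <;> omega
  · convert S_6_19_1000_0 x c.2 using 1 <;> omega
  · convert S_6_19_1000_1 x c.2 using 1 <;> omega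

lemma C_7_21 (x y : ℕ) (h : 25 ≤ 4 * x + 6 * y + 7) :
    Good (4 * x + 6 * y + 7) (10 * x + 18 * y + 21) := by
  have : (2 ≤ x ∧ 1 ≤ y) ∨ (x = 0 ∧ 3 ≤ y) ∨ (y = 0 ∧ 0 ≤ x) ∨ (x = 1 ∧ 3 ≤ y) := by omega
  rcases this with c | c | c | c
  · exact F_7_21 x y c
  · convert S_7_21_0_1000 y c.2 using 1 <;> omega
  · convert S_7_21_1000_0 x c.2 using 1 <;> omega
  · convert S_7_21_1_1000 y c.2 using 1 <;> omega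

lemma C_8_24 (x y : ℕ) (h : 25 ≤ 4 * x + 6 * y + 8) :
    Good (4 * x + 6 * y + 8) (10 * x + 18 * y + 24) := by
  have : (2 ≤ x ∧ 2 ≤ y) ∨ (x = 0 ∧ 3 ≤ y) ∨ (y = 0 ∧ 1 ≤ x) ∨ (y = 1 ∧ 1 ≤ x) ∨ (x = 1 ∧ 3 ≤ y) := by omega
  rcases this with c | c | c | c | c
  · exact F_8_24 x y c
  · convert S_8_24_0_1000 y c.2 using 1 <;> omega
  · convert S_8_24_1000_0 x c.2 using 1 <;> omega
  · convert S_8_24_1000_1 x c.2 using 1 <;> omega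
  · convert S_8_24_1_1000 y c.2 using 1 <;> omega

lemma low (n j : ℕ) (h1 : 4 ≤ n) (h2 : n ≠ 5) (h3 : 5 * n + 3 ≤ 2 * j) (h4 : j ≤ 3 * n + 1) :
    Good n j := by
  by_cases hs : n < 25
  · obtain ⟨e, he, rfl, rfl⟩ := tab_cov n (List.mem_range.2 hs) j (List.mem_range.2 (by omega))
      ⟨h1, h2, h3, h4⟩
    exact of_list _ _ _ (tab_ok e he)
  obtain ⟨x, r, hr, hx⟩ : ∃ x r, r < 4 ∧ 6 * n + 3 = 2 * j + 4 * x + r :=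
    ⟨(6 * n + 3 - 2 * j) / 4, (6 * n + 3 - 2 * j) % 4, by omega, by omega⟩
  obtain ⟨y, s, hs', hy⟩ : ∃ y s, s < 6 ∧ 2 * j = 3 + 5 * n + 6 * y + s :=
    ⟨(2 * j - 3 - 5 * n) / 6, (2 * j - 3 - 5 * n) % 6, by omega, by omega⟩
  obtain rfl | rfl | rfl | rfl : r = 0 ∨ r = 1 ∨ r = 2 ∨ r = 3 := by omega
  all_goals obtain rfl | rfl | rfl | rfl | rfl | rfl : s = 0 ∨ s = 1 ∨ s = 2 ∨ s = 3 ∨ s = 4 ∨ s = 5 := by omega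
  · omega
  · omega
  · omega
  · omega
  · omega
  · omega
  · rw [show j = 10 * x + 18 * y + 4 by omega, show n = 4 * x + 6 * y + 1 by omega]
    exact C_1_4 x y (by omega)
  · rw [show j = 10 * x + 18 * y + 7 by omega, show n = 4 * x + 6 * y + 2 by omega]
    exact C_2_7 x y (by omega)
  · rw [show j = 10 * x + 18 * y + 10 by omega, show n = 4 * x + 6 * y + 3 by omega]
    exact C_3_10 x y (by omega)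
  · rw [show j = 10 * x + 18 * y + 13 by omega, show n = 4 * x + 6 * y + 4 by omega]
    exact C_4_13 x y (by omega)
  · rw [show j = 10 * x + 18 * y + 16 by omega, show n = 4 * x + 6 * y + 5 by omega]
    exact C_5_16 x y (by omega)
  · rw [show j = 10 * x + 18 * y + 19 by omega, show n = 4 * x + 6 * y + 6 by omega]
    exact C_6_19 x y (by omega)
  · omega
  · omega
  · omega
  · omega
  · omega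
  · omega
  · rw [show j = 10 * x + 18 * y + 9 by omega, show n = 4 * x + 6 * y + 3 by omega]
    exact C_3_9 x y (by omega)
  · rw [show j = 10 * x + 18 * y + 12 by omega, show n = 4 * x + 6 * y + 4 by omega]
    exact C_4_12 x y (by omega)
  · rw [show j = 10 * x + 18 * y + 15 by omega, show n = 4 * x + 6 * y + 5 by omega]
    exact C_5_15 x y (by omega)
  · rw [show j = 10 * x + 18 * y + 18 by omega, show n = 4 * x + 6 * y + 6 by omega]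
    exact C_6_18 x y (by omega)
  · rw [show j = 10 * x + 18 * y + 21 by omega, show n = 4 * x + 6 * y + 7 by omega]
    exact C_7_21 x y (by omega)
  · rw [show j = 10 * x + 18 * y + 24 by omega, show n = 4 * x + 6 * y + 8 by omega]
    exact C_8_24 x y (by omega)

theorem main (n j : ℕ) (h1 : 4 ≤ n) (h2 : n ≠ 5) (h3 : 5 * n + 3 ≤ 2 * j) (h4 : 2 * j ≤ 7 * n + 3) :
    Good n j := by
  by_cases h : j ≤ 3 * n + 1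
  · exact low n j h1 h2 h3 h
  · have := (low n (6 * n + 3 - j) h1 h2 (by omega) (by omega)).dual
    rwa [show 6 * n + 3 - (6 * n + 3 - j) = j by omega] at this

lemma rot_val : ∀ (n : ℕ) (i : Fin n), (finRotate n i).val = (i.val + 1) % n
  | 0, i => i.elim0
  | n + 1, i => by rw [finRotate_apply, Fin.val_add, Fin.val_one', Nat.add_mod_mod]

theorem main_fin (n j : ℕ) (h1 : 4 ≤ n) (h2 : n ≠ 5) (h3 : 5 * n + 3 ≤ 2 * j)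
    (h4 : 2 * j ≤ 7 * n + 3) : ∃ f g : Fin n → ℕ, Function.Injective (Sum.elim f g) ∧
      (∀ x : Fin n ⊕ Fin n, Sum.elim f g x ∈ Finset.Icc 1 (2 * n)) ∧
      ∀ i : Fin n, g i + f i + f (finRotate n i) = j := by
  obtain ⟨f, g, a, b, c⟩ := main n j h1 h2 h3 h4
  refine ⟨f, g, a, fun x => Finset.mem_Icc.2 (b x), fun i => ?_⟩
  have := c i _ (rot_val n i)
  omega

theorem main_zmod (n j : ℕ) (h1 : 4 ≤ n) (h2 : n ≠ 5) (h3 : 5 * n + 3 ≤ 2 * j)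
    (h4 : 2 * j ≤ 7 * n + 3) : ∃ f : ZMod n ⊕ ZMod n → ℕ, Function.Injective f ∧
      (∀ x, 1 ≤ f x ∧ f x ≤ 2 * n) ∧
      ∀ i : ZMod n, f (Sum.inl i) + f (Sum.inr i) + f (Sum.inl (i + 1)) = j := by
  obtain ⟨m, rfl⟩ : ∃ m, n = m + 1 := ⟨n - 1, by omega⟩
  obtain ⟨f, g, a, b, c⟩ := main (m + 1) j h1 h2 h3 h4
  have d : ∀ i : Fin (m + 1), f i + g i + f (i + 1) = j := fun i => c i (i + 1) (by
    rw [Fin.val_add, Fin.val_one', Nat.add_mod_mod])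
  exact ⟨Sum.elim f g, a, b, d⟩

end Pool.Agent.H6.GS
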