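import Mathlib

namespace Pool.Agent.H6.IntA

open Polynomial TensorProduct

section
variable (D K A : Type) [CommRing D] [Field K] [Algebra D K] [Ring A] [Algebra D A]

/-- The image of `A` in `B = K ⊗[D] A`. -/
def imA : Set (K ⊗[D] A) := Set.range fun a : A => (1 : K) ⊗ₜ[D] a

/-- `f` maps `A` into `A`. -/
def Pres (f : K[X]) : Prop := ∀ b ∈ imA D K A, aeval b f ∈ imA D K A

variable {D K A}
theorem imA_eq : imA D K A =
    ((Algebra.TensorProduct.includeRight : A →ₐ[D] K ⊗[D] A).range : Set (K ⊗[D] A)) := by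
  ext x; simp [imA]
theorem pres_zero : Pres D K A 0 := fun _ _ => by rw [imA_eq, map_zero]; exact zero_mem _
theorem pres_one : Pres D K A 1 := fun _ _ => by rw [imA_eq, map_one]; exact one_mem _
theorem pres_neg {f : K[X]} (h : Pres D K A f) : Pres D K A (-f) := fun b hb => by
  have := h b hb
  rw [imA_eq] at this ⊢; rw [map_neg]; exact neg_mem this
theorem pres_add {f g : K[X]} (h : Pres D K A f) (h' : Pres D K A g) : Pres D K A (f + g) :=
  fun b hb => by
  have := h b hb
  have h2 := h' b hb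
  rw [imA_eq] at this h2 ⊢; rw [map_add]; exact add_mem this h2
theorem pres_mul {f g : K[X]} (h : Pres D K A f) (h' : Pres D K A g) : Pres D K A (f * g) :=
  fun b hb => by
  have := h b hb
  have h2 := h' b hb
  rw [imA_eq] at this h2 ⊢; rw [map_mul]; exact mul_mem this h2
variable (D K A)

/-- The ring `Int_K(A)`. -/
noncomputable def intK : Subring K[X] where
  carrier := {f | Pres D K A f}
  zero_mem' := pres_zero
  one_mem' := pres_one
  neg_mem' := pres_neg
  add_mem' := pres_add
  mul_mem' := pres_mul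

/-- The set `A'` of elements of `B` integral over `D`. -/
def intEl : Set (K ⊗[D] A) := {b | IsIntegral D b}

/-- The set `Int_K(A, A')`. -/
def intAA : Set K[X] := {f | ∀ b ∈ imA D K A, aeval b f ∈ intEl D K A}
end

theorem univ_poly (n : ℕ) (p : ℤ[X]) (hp : p.Monic) :
    ∃ φ : ℤ[X], φ.Monic ∧ φ.natDegree ≠ 0 ∧ ∀ (T : Type) [CommRing T] (c : Fin n → T) (x : T),
      (∀ i, aeval (c i) p = 0) → x ^ n + ∑ i : Fin n, c i * x ^ (i : ℕ) = 0 → aeval x φ = 0 := by
  classical
  let R := MvPolynomial (Option (Fin n)) ℤ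
  let y : Fin n → R := fun i => MvPolynomial.X (some i)
  let z : R := MvPolynomial.X none
  let I : Ideal R := Ideal.span (insert (z ^ n + ∑ i : Fin n, y i * z ^ (i : ℕ))
    (Set.range fun i => aeval (y i) p))
  let π : R →ₐ[ℤ] R ⧸ I := Ideal.Quotient.mkₐ ℤ I
  have hy : ∀ i, IsIntegral ℤ (π (y i)) := by
    intro i
    refine ⟨p, hp, ?_⟩
    rw [← aeval_def, aeval_algHom_apply]
    exact Ideal.Quotient.eq_zero_iff_mem.mpr
      (Ideal.subset_span (Set.mem_insert_of_mem _ ⟨i, rfl⟩))
  have hz : IsIntegral ℤ (π z) := by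
    let C' := integralClosure ℤ (R ⧸ I)
    let q : C'[X] := X ^ n + ∑ i : Fin n, C (⟨π (y i), hy i⟩ : C') * X ^ (i : ℕ)
    have hq : q.Monic := by
      exact monic_X_pow_add (degree_sum_fin_lt _)
    have : IsIntegral C' (π z) := by
      refine ⟨q, hq, ?_⟩
      have h0 : π (z ^ n + ∑ i : Fin n, y i * z ^ (i : ℕ)) = 0 :=
        Ideal.Quotient.eq_zero_iff_mem.mpr (Ideal.subset_span (Set.mem_insert _ _))
      rw [← h0, ← aeval_def]
      simp [q, map_sum]
    exact isIntegral_trans _ this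
  obtain ⟨φ, hφ, h0⟩ := hz
  refine ⟨X * φ, monic_X.mul hφ, ?_, ?_⟩
  · rw [monic_X.natDegree_mul hφ]; simp
  intro T _ c x hc hx
  let ψ : R →ₐ[ℤ] T := MvPolynomial.aeval (fun o => Option.elim o x c)
  have hψy : ∀ i, ψ (y i) = c i := fun i => MvPolynomial.aeval_X _ _
  have hψz : ψ z = x := MvPolynomial.aeval_X _ _
  have hI : ∀ a ∈ I, ψ a = 0 := by
    intro a ha
    have : I ≤ RingHom.ker ψ := by
      apply Ideal.span_le.mpr
      rintro _ (rfl | ⟨i, rfl⟩)
      · simp only [SetLike.mem_coe, RingHom.mem_ker, map_add, map_pow, map_sum, map_mul, hψy, hψz]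
        exact hx
      · simp only [SetLike.mem_coe, RingHom.mem_ker]
        rw [← aeval_algHom_apply, hψy, hc]
    exact this ha
  let ψ' : (R ⧸ I) →ₐ[ℤ] T := Ideal.Quotient.liftₐ I ψ hI
  have : ψ' (π z) = x := by
    rw [← hψz]; rfl
  rw [← aeval_def] at h0
  rw [map_mul, ← this, aeval_algHom_apply ψ' _ φ, h0, map_zero, mul_zero]

/-- Vandermonde-type product. -/
def W {R : Type} [CommRing R] (d : ℕ → R) : ℕ → R
  | 0 => 1
  | m + 1 => W d m * ∏ i ∈ Finset.range (m + 1), (d (m + 1) - d i)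

theorem W_map {R S : Type} [CommRing R] [CommRing S] (φ : R →+* S) (d : ℕ → R) (m : ℕ) :
    φ (W d m) = W (fun i => φ (d i)) m := by
  induction m with
  | zero => simp [W]
  | succ m ih => simp [W, ih, map_prod]

theorem W_monic (m : ℕ) : (W (fun i => (X : ℤ[X]) ^ i) m).Monic := by
  induction m with
  | zero => simp [W]
  | succ m ih =>
    refine ih.mul (monic_prod_of_monic _ _ fun i hi => ?_)
    apply monic_X_pow_sub
    rw [degree_X_pow]
    exact_mod_cast Finset.mem_range.mp hi

theorem W_lift {D K : Type} [CommRing D] [Field K] [Algebra D K] (d : ℕ → D) (m : ℕ) :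
    ∀ f : K[X], f.natDegree ≤ m →
      (∀ i ≤ m, f.eval (algebraMap D K (d i)) ∈ (algebraMap D K).range) →
      ∃ g : D[X], g.map (algebraMap D K) = C (algebraMap D K (W d m)) * f := by
  induction m with
  | zero =>
    intro f hf h
    obtain ⟨c, hc⟩ := h 0 le_rfl
    rw [eq_C_of_natDegree_le_zero hf] at hc ⊢
    exact ⟨C c, by simpa [W] using hc⟩
  | succ m ih =>
    intro f hf h
    set t := algebraMap D K (d (m + 1)) with ht
    obtain ⟨c, hc⟩ := h (m + 1) le_rfl
    have hdiv := X_sub_C_mul_divByMonic_eq_sub_modByMonic f t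
    rw [modByMonic_X_sub_C_eq_C_eval] at hdiv
    set g := f /ₘ (X - C t)
    let e : D := ∏ i ∈ Finset.range (m + 1), (d (m + 1) - d i)
    have hg : (C (algebraMap D K e) * g).natDegree ≤ m := by
      refine (natDegree_C_mul_le _ _).trans ?_
      rw [natDegree_divByMonic f (monic_X_sub_C t), natDegree_X_sub_C]
      omega
    obtain ⟨g', hg'⟩ := ih _ hg (by
      intro i hi
      obtain ⟨c', hc'⟩ := h i (by omega)
      have h1 := congrArg (eval (algebraMap D K (d i))) hdiv
      simp only [eval_mul, eval_sub, eval_X, eval_C] at h1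
      have hi' : i ∈ Finset.range (m + 1) := Finset.mem_range.mpr (by omega)
      refine ⟨(∏ j ∈ (Finset.range (m + 1)).erase i, (d (m + 1) - d j)) * (c - c'), ?_⟩
      simp only [e, eval_mul, eval_C]
      rw [← Finset.mul_prod_erase _ _ hi', map_mul, map_mul, map_sub, map_sub, hc, hc', ← ht]
      linear_combination (algebraMap D K
        (∏ j ∈ (Finset.range (m + 1)).erase i, (d (m + 1) - d j))) * h1)
    refine ⟨C (W d (m + 1) * c) + (X - C (d (m + 1))) * g', ?_⟩
    rw [Polynomial.map_add, Polynomial.map_mul, hg', map_C, Polynomial.map_sub, map_X, map_C,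
      map_mul, hc, ← ht]
    simp only [W, map_mul]
    linear_combination (C (algebraMap D K (W d m)) * C (algebraMap D K e)) * hdiv

section
variable {D K A : Type} [CommRing D] [IsDomain D] [Field K] [Algebra D K] [IsFractionRing D K]
  [Ring A] [Algebra D A]

theorem algK_inj [Module.IsTorsionFree D A] (hinj : Function.Injective (algebraMap D A)) :
    Function.Injective (algebraMap K (K ⊗[D] A)) := by
  haveI : Nontrivial A := hinj.nontrivial
  haveI : Nontrivial (K ⊗[D] A) := by
    haveI : IsLocalizedModule (nonZeroDivisors D) (TensorProduct.mk D K A 1) :=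
      (isLocalizedModule_iff_isBaseChange (nonZeroDivisors D) K _).mpr
        (TensorProduct.isBaseChange D A K)
    refine ⟨⟨1, 0, fun h => ?_⟩⟩
    have h1 : (TensorProduct.mk D K A 1) 1 = 0 := h
    obtain ⟨s, hs⟩ := (IsLocalizedModule.eq_zero_iff (nonZeroDivisors D) _).mp h1
    have : (s : D) • (1 : A) = 0 := hs
    rw [← Algebra.algebraMap_eq_smul_one] at this
    exact nonZeroDivisors.coe_ne_zero s (hinj (by rw [this, map_zero]))
  exact (algebraMap K (K ⊗[D] A)).injective

theorem exists_chi [IsIntegrallyClosed D] [Module.Finite D A] (b : K ⊗[D] A)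
    (hb : IsIntegral D b) :
    ∃ χ : D[X], χ.Monic ∧ χ.natDegree = Module.finrank K (K ⊗[D] A) ∧ aeval b χ = 0 := by
  obtain ⟨h, hm, h0⟩ := hb
  have hbK : IsIntegral K b := Algebra.IsIntegral.isIntegral b
  have hd : minpoly K b ∣ h.map (algebraMap D K) :=
    minpoly.dvd K b (by rw [aeval_map_algebraMap, aeval_def, h0])
  obtain ⟨g, hg⟩ := IsIntegrallyClosed.eq_map_mul_C_of_dvd K hm hd
  rw [(minpoly.monic hbK).leadingCoeff, C_1, mul_one] at hg
  have hi := IsFractionRing.injective D K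
  have hgm : g.Monic := monic_of_injective hi (hg ▸ minpoly.monic hbK)
  have hdeg : g.natDegree ≤ Module.finrank K (K ⊗[D] A) := by
    rw [← natDegree_map_eq_of_injective hi, hg]
    exact minpoly.natDegree_le b
  refine ⟨X ^ (Module.finrank K (K ⊗[D] A) - g.natDegree) * g, (monic_X_pow _).mul hgm, ?_, ?_⟩
  · rw [(monic_X_pow _).natDegree_mul hgm, natDegree_X_pow]; omega
  · rw [map_mul, ← aeval_map_algebraMap K b g, hg, minpoly.aeval, mul_zero]

theorem eval_mem [IsIntegrallyClosed D] [Module.IsTorsionFree D A]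
    (hinj : Function.Injective (algebraMap D A)) {f : K[X]} (hf : f ∈ intAA D K A) (d : D) :
    f.eval (algebraMap D K d) ∈ (algebraMap D K).range := by
  have h1 := hf _ ⟨algebraMap D A d, rfl⟩
  have h2 : ((1 : K) ⊗ₜ[D] (algebraMap D A d) : K ⊗[D] A) =
      algebraMap K (K ⊗[D] A) (algebraMap D K d) := by
    rw [← IsScalarTower.algebraMap_apply]
    exact (Algebra.TensorProduct.includeRight : A →ₐ[D] K ⊗[D] A).commutes d
  simp only [h2, aeval_algebraMap_apply, coe_aeval_eq_eval, intEl, Set.mem_ofPred_eq] at h1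
  have h3 : IsIntegral D (f.eval (algebraMap D K d)) :=
    (isIntegral_algHom_iff (IsScalarTower.toAlgHom D K (K ⊗[D] A)) (algK_inj hinj)).mp h1
  exact IsIntegrallyClosed.isIntegral_iff.mp h3

theorem main_monic [IsIntegrallyClosed D] [Module.IsTorsionFree D A] [Module.Finite D A]
    (hinj : Function.Injective (algebraMap D A)) {f : K[X]} (hf : f ∈ intAA D K A) :
    ∃ φ : ℤ[X], φ.Monic ∧ φ.natDegree ≠ 0 ∧ aeval f φ ∈ intK D K A := by
  classical
  set n := Module.finrank K (K ⊗[D] A)
  let ψ : ℤ[X] := W (fun i => (X : ℤ[X]) ^ i) f.natDegree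
  obtain ⟨φ, hφ, hφ0, hφ1⟩ := univ_poly n (ψ ^ n) ((W_monic _).pow n)
  refine ⟨φ, hφ, hφ0, ?_⟩
  rintro _ ⟨a, rfl⟩
  set a' : K ⊗[D] A := (1 : K) ⊗ₜ[D] a with ha'
  let S : Subalgebra D (K ⊗[D] A) := (Algebra.TensorProduct.includeRight : A →ₐ[D] K ⊗[D] A).range
  have haS : a' ∈ S := ⟨a, rfl⟩
  set b := aeval a' f with hb
  obtain ⟨χ, hχ, hχn, hχ0⟩ := exists_chi b (hf _ ⟨a, rfl⟩)
  have hJ : ∀ c : D, aeval c ψ • b ∈ S := by
    intro c
    obtain ⟨g, hg⟩ := W_lift (K := K) (fun i => c ^ i) f.natDegree f le_rfl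
      (fun i _ => eval_mem hinj hf _)
    have e : aeval c ψ = W (fun i => c ^ i) f.natDegree := by
      have := W_map (aeval c : ℤ[X] →ₐ[ℤ] D).toRingHom (fun i => (X : ℤ[X]) ^ i) f.natDegree
      simpa using this
    have h2 := congrArg (aeval a') hg
    rw [aeval_map_algebraMap, map_mul, aeval_C, ← IsScalarTower.algebraMap_apply,
      ← Algebra.smul_def, ← hb, ← e] at h2
    rw [← h2]
    exact ⟨aeval a g, (aeval_algHom_apply
      (Algebra.TensorProduct.includeRight : A →ₐ[D] K ⊗[D] A) a g).symm⟩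
  let I : Ideal D[X] :=
    { carrier := {g | ∀ h : D[X], aeval b (h * g) ∈ S}
      add_mem' := fun {g g'} h1 h2 h => by
        rw [mul_add, map_add]; exact add_mem (h1 h) (h2 h)
      zero_mem' := fun h => by rw [mul_zero, map_zero]; exact zero_mem _
      smul_mem' := fun c g h1 h => by rw [smul_eq_mul, ← mul_assoc]; exact h1 _ }
  have hχI : χ ∈ I := fun h => by rw [map_mul, hχ0, mul_zero]; exact zero_mem _
  have hCI : ∀ c : D, C (aeval c ψ ^ n) ∈ I := by
    intro c h
    nontriviality D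
    have e1 : aeval b (h * C (aeval c ψ ^ n)) = aeval c ψ ^ n • aeval b (h %ₘ χ) := by
      rw [aeval_modByMonic_eq_self_of_root hχ0, mul_comm, map_mul, aeval_C, Algebra.smul_def]
    rw [e1]
    have hlt : (h %ₘ χ).natDegree < n + 1 := by
      have := natDegree_modByMonic_le h hχ
      omega
    rw [aeval_eq_sum_range' hlt, Finset.smul_sum]
    refine sum_mem fun i hi => ?_
    have hi' : i ≤ n := Nat.lt_succ_iff.mp (Finset.mem_range.mp hi)
    rw [smul_comm]
    refine S.smul_mem ?_ _
    have : aeval c ψ ^ n • b ^ i = aeval c ψ ^ (n - i) • (aeval c ψ • b) ^ i := by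
      rw [_root_.smul_pow, smul_smul, ← pow_add, Nat.sub_add_cancel hi']
    rw [this]
    exact S.smul_mem (pow_mem (hJ c) i) _
  let π : D[X] →+* D[X] ⧸ I := Ideal.Quotient.mk I
  have key := hφ1 (D[X] ⧸ I) (fun i => π (C (χ.coeff i))) (π X) (by
    intro i
    have := aeval_algHom_apply ((π.comp C).toIntAlgHom) (χ.coeff i) (ψ ^ n)
    simp only [RingHom.toIntAlgHom_coe, RingHom.coe_comp, Function.comp_apply] at this
    rw [this, map_pow]
    exact Ideal.Quotient.eq_zero_iff_mem.mpr (hCI _)) (by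
    have h1 : π χ = 0 := Ideal.Quotient.eq_zero_iff_mem.mpr hχI
    rw [← h1]
    conv_rhs => rw [hχ.as_sum, hχn]
    rw [map_add, map_sum, map_pow, Finset.sum_range]
    simp only [map_mul, map_pow]
    rfl)
  have key2 : aeval (X : D[X]) φ ∈ I := by
    apply Ideal.Quotient.eq_zero_iff_mem.mp
    have := aeval_algHom_apply π.toIntAlgHom X φ
    simp only [RingHom.toIntAlgHom_coe] at this
    rw [← key, this]
    rfl
  have key3 := key2 1
  rw [one_mul] at key3
  have e3 := aeval_algHom_apply (aeval b : D[X] →ₐ[D] K ⊗[D] A).toRingHom.toIntAlgHom X φ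
  have e4 := aeval_algHom_apply (aeval a' : K[X] →ₐ[K] K ⊗[D] A).toRingHom.toIntAlgHom f φ
  simp only [RingHom.toIntAlgHom_coe, AlgHom.toRingHom_eq_coe, RingHom.coe_coe, aeval_X] at e3 e4
  rw [imA_eq]
  show aeval a' (aeval f φ) ∈ S
  rw [← e4, ← hb, e3]
  exact key3

theorem integral_of_mem [IsIntegrallyClosed D] [Module.IsTorsionFree D A] [Module.Finite D A]
    (hinj : Function.Injective (algebraMap D A)) {f : K[X]} (hf : f ∈ intAA D K A) :
    IsIntegral (intK D K A) f := by
  obtain ⟨φ, hφ, h0, h1⟩ := main_monic hinj hf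
  nontriviality (intK D K A)
  refine IsIntegral.of_aeval_monic (p := φ.map (algebraMap ℤ (intK D K A))) (hφ.map _)
    (by rwa [hφ.natDegree_map]) ?_
  rw [aeval_map_algebraMap]
  exact isIntegral_algebraMap (x := (⟨_, h1⟩ : intK D K A))

end

theorem trans_aux {D R T B : Type} [CommRing D] [CommRing R] [CommRing T] [Ring B] [Algebra D T]
    [Algebra D B] (S : Subring R) (π : R →+* T) (ι : T →ₐ[D] B) (hι : Function.Injective ι)
    (h1 : ∀ g ∈ S, IsIntegral D (ι (π g))) {f : R} (hf : IsIntegral S f) :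
    IsIntegral D (ι (π f)) := by
  let ρ : S →+* integralClosure D T :=
    (π.comp S.subtype).codRestrict (integralClosure D T).toSubring
      (fun g => (isIntegral_algHom_iff ι hι).mp (h1 g g.2))
  have h2 : IsIntegral (integralClosure D T) (π f) := hf.map_of_comp_eq ρ π rfl
  have h3 : IsIntegral D (π f) := isIntegral_trans _ h2
  exact h3.map ι

theorem mem_of_integral {D K A : Type} [CommRing D] [Field K] [Algebra D K]
    [Ring A] [Algebra D A] [Module.Finite D A] {f : K[X]} (hf : IsIntegral (intK D K A) f) :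
    f ∈ intAA D K A := by
  rintro _ ⟨a, rfl⟩
  let ev : K[X] →ₐ[D] K ⊗[D] A := (aeval ((1 : K) ⊗ₜ[D] a) : K[X] →ₐ[K] K ⊗[D] A).restrictScalars D
  have := trans_aux (D := D) (intK D K A) (Ideal.Quotient.mk (RingHom.ker ev))
    (Ideal.kerLiftAlg ev) (Ideal.kerLiftAlg_injective ev) (by
      intro g hg
      rw [Ideal.kerLiftAlg_mk]
      obtain ⟨a0, ha0⟩ := hg _ ⟨a, rfl⟩
      have e : ev g = (Algebra.TensorProduct.includeRight : A →ₐ[D] K ⊗[D] A) a0 := ha0.symm
      rw [e]
      exact (Algebra.IsIntegral.isIntegral (R := D) a0).map _) hf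
  rw [Ideal.kerLiftAlg_mk] at this
  exact this

end Pool.Agent.H6.IntA
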