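import Mathlib
import Pool.Agent.H6.IntA

namespace Pool.Agent.H6.IntB

open Polynomial TensorProduct Pool.Agent.H6.IntA

section
variable {Γ : Type*} [LinearOrderedCommGroupWithZero Γ]

/-- `γ` is zero or an integer power of `ρ`. -/
def Ph (ρ γ : Γ) : Prop := γ = 0 ∨ ∃ a b : ℕ, γ * ρ ^ a = ρ ^ b

theorem Ph.mul {ρ γ δ : Γ} (h : Ph ρ γ) (h' : Ph ρ δ) : Ph ρ (γ * δ) := by
  rcases h with rfl | ⟨a, b, h⟩
  · left; simp
  rcases h' with rfl | ⟨c, d, h'⟩
  · left; simp
  right
  refine ⟨a + c, b + d, ?_⟩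
  rw [pow_add, pow_add, ← h, ← h', mul_mul_mul_comm]

theorem Ph.le {ρ γ : Γ} (h : Ph ρ γ) (h0 : ρ ≠ 0) (h1 : ρ ≤ 1) (h2 : γ < 1) : γ ≤ ρ := by
  rcases h with rfl | ⟨a, b, h⟩
  · exact zero_le
  rcases lt_or_ge a b with hab | hab
  · obtain ⟨c, rfl⟩ := Nat.exists_eq_add_of_lt hab
    have : γ = ρ ^ c * ρ := by
      apply mul_right_cancel₀ (pow_ne_zero a h0)
      rw [h, pow_succ, pow_add]; ac_rfl
    rw [this]
    exact mul_le_of_le_one_left' (pow_le_one' h1 c)
  · obtain ⟨c, rfl⟩ := Nat.exists_eq_add_of_le hab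
    have : γ * ρ ^ c = 1 := by
      apply mul_right_cancel₀ (pow_ne_zero b h0)
      rw [one_mul, mul_assoc, ← pow_add, add_comm c b, h]
    exact absurd this (lt_of_le_of_lt (mul_le_of_le_one_right' (pow_le_one' h1 c)) h2).ne
end

section
variable {D L : Type} {Γ : Type*} [CommRing D] [IsDomain D] [Field L] [Algebra D L]
  [LinearOrderedCommGroupWithZero Γ] (v : Valuation L Γ) (hv : ∀ d : D, v (algebraMap D L d) ≤ 1)

/-- The centre of a valuation. -/
def cen : Ideal D where
  carrier := {d | v (algebraMap D L d) < 1}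
  add_mem' := fun {a b} ha hb => by
    simp only [Set.mem_ofPred_eq, map_add] at *
    exact v.map_add_lt ha hb
  zero_mem' := by simp
  smul_mem' := fun c d hd => by
    simp only [Set.mem_ofPred_eq, smul_eq_mul, map_mul] at *
    exact lt_of_le_of_lt (mul_le_of_le_one_left' (hv c)) hd

omit [IsDomain D] in
theorem mem_cen {d : D} : d ∈ cen v hv ↔ v (algebraMap D L d) < 1 := Iff.rfl

instance cen_prime : (cen v hv).IsPrime := by
  refine ⟨fun h => ?_, fun {a b} h => ?_⟩
  · have : (1 : D) ∈ cen v hv := by rw [h]; trivial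
    simp [mem_cen] at this
  · by_contra hc
    push Not at hc
    simp only [mem_cen, not_lt, map_mul] at hc h
    rw [le_antisymm (hv a) hc.1, le_antisymm (hv b) hc.2] at h
    simp at h

theorem max_of_prime
    (hD : ∀ (M : Ideal D) [M.IsMaximal], IsDiscreteValuationRing (Localization.AtPrime M))
    (P : Ideal D) [hP : P.IsPrime] {q : D} (hq : q ∈ P) (h0 : q ≠ 0) : P.IsMaximal := by
  obtain ⟨M, hM, hle⟩ := Ideal.exists_le_maximal P hP.ne_top
  suffices h : M ≤ P by rwa [le_antisymm hle h]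
  intro m hm
  haveI := hD M
  set S := Localization.AtPrime M
  have hinj : Function.Injective (algebraMap D S) :=
    IsLocalization.injective S M.primeCompl_le_nonZeroDivisors
  obtain ⟨ϖ, hϖ⟩ := IsDiscreteValuationRing.exists_irreducible S
  obtain ⟨e, u, hu⟩ := IsDiscreteValuationRing.eq_unit_mul_pow_irreducible
    (x := algebraMap D S q) ((map_ne_zero_iff _ hinj).mpr h0) hϖ
  have h1 : ϖ ∣ algebraMap D S m := by
    rw [← Ideal.mem_span_singleton, ← hϖ.maximalIdeal_eq]
    exact (IsLocalization.AtPrime.to_map_mem_maximal_iff S M m).mpr hm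
  have h2 : algebraMap D S q ∣ algebraMap D S (m ^ e) := by
    rw [hu, map_pow, Units.mul_left_dvd]
    exact pow_dvd_pow_of_dvd h1 e
  obtain ⟨c, hc⟩ := h2
  obtain ⟨⟨d, s⟩, rfl⟩ := IsLocalization.mk'_surjective M.primeCompl c
  have h3 : m ^ e * s = q * d := by
    apply hinj
    rw [map_mul, map_mul, hc, mul_assoc, IsLocalization.mk'_spec]
  have h4 : m ^ e * s ∈ P := h3 ▸ P.mul_mem_right _ hq
  rcases hP.mem_or_mem h4 with h | h
  · exact hP.mem_of_pow_mem _ h
  · exact absurd (hle h) s.2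

theorem val_base [IsDiscreteValuationRing (Localization.AtPrime (cen v hv))]
    {q : D} (h0 : q ≠ 0) (hq : q ∈ cen v hv) {N : ℕ}
    (hN : algebraMap D (Localization.AtPrime (cen v hv)) q ∉
      IsLocalRing.maximalIdeal (Localization.AtPrime (cen v hv)) ^ (N + 1))
    (d : D) (hd : d ≠ 0) :
    ∃ j : ℕ, v (algebraMap D L d) ^ N.factorial = v (algebraMap D L q) ^ j := by
  set S := Localization.AtPrime (cen v hv)
  have hinj : Function.Injective (algebraMap D S) :=
    IsLocalization.injective S (cen v hv).primeCompl_le_nonZeroDivisors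
  have hs1 : ∀ s : (cen v hv).primeCompl, v (algebraMap D L s) = 1 := fun s =>
    le_antisymm (hv s) (not_lt.mp s.2)
  have hu : ∀ s : (cen v hv).primeCompl, IsUnit (algebraMap D L s) := fun s =>
    IsUnit.mk0 _ (fun h => by simpa [h] using hs1 s)
  let ψ : S →+* L := IsLocalization.lift hu
  have hψ : ∀ d, ψ (algebraMap D S d) = algebraMap D L d := IsLocalization.lift_eq hu
  have hle : ∀ x : S, v (ψ x) ≤ 1 := by
    intro x
    obtain ⟨⟨d, s⟩, rfl⟩ := IsLocalization.mk'_surjective (cen v hv).primeCompl x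
    have := congrArg (fun y => v (ψ y)) (IsLocalization.mk'_spec S d s)
    simp only [map_mul, hψ, hs1, mul_one] at this
    exact this ▸ hv d
  have hun : ∀ u : Sˣ, v (ψ u) = 1 := by
    intro u
    have h1 : v (ψ u) * v (ψ ↑u⁻¹) = 1 := by rw [← map_mul, ← map_mul]; simp
    refine le_antisymm (hle _) ?_
    rw [← h1]
    exact mul_le_of_le_one_right' (hle _)
  obtain ⟨ϖ, hϖ⟩ := IsDiscreteValuationRing.exists_irreducible S
  have key : ∀ d : D, d ≠ 0 → ∃ (j : ℕ) (u : Sˣ), algebraMap D S d = u * ϖ ^ j ∧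
      v (algebraMap D L d) = v (ψ ϖ) ^ j := by
    intro d hd
    obtain ⟨j, u, hu⟩ := IsDiscreteValuationRing.eq_unit_mul_pow_irreducible
      (x := algebraMap D S d) ((map_ne_zero_iff _ hinj).mpr hd) hϖ
    exact ⟨j, u, hu, by rw [← hψ, hu, map_mul, map_mul, hun, one_mul, map_pow, map_pow]⟩
  obtain ⟨e, u, hu, he⟩ := key q h0
  obtain ⟨j, -, -, hj⟩ := key d hd
  have he0 : 0 < e := by
    rcases Nat.eq_zero_or_pos e with rfl | h
    · rw [mem_cen, he] at hq; simp at hq
    · exact h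
  have heN : e ≤ N := by
    by_contra hc
    apply hN
    rw [hϖ.maximalIdeal_eq, Ideal.span_singleton_pow, Ideal.mem_span_singleton, hu]
    exact (pow_dvd_pow _ (by omega)).mul_left _
  obtain ⟨k, hk⟩ := Nat.dvd_factorial he0 heN
  exact ⟨j * k, by rw [hj, he, hk, ← pow_mul, ← pow_mul]; congr 1; ring⟩

omit [IsDomain D] in
theorem val_alg {q : D} {N : ℕ} (hb : ∀ d : D, d ≠ 0 →
      ∃ j : ℕ, v (algebraMap D L d) ^ N.factorial = v (algebraMap D L q) ^ j)
    (hinj : Function.Injective (algebraMap D L))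
    {χ : D[X]} (hχ : χ.Monic) {x : L} (hx : aeval x χ = 0) :
    Ph (v (algebraMap D L q)) (v x ^ (χ.natDegree.factorial * N.factorial)) := by
  classical
  haveI : Nontrivial D := (algebraMap D L).domain_nontrivial
  by_cases hx0 : x = 0
  · left
    rw [hx0, map_zero, zero_pow (Nat.mul_ne_zero (Nat.factorial_ne_zero _) (Nat.factorial_ne_zero _))]
  have hvx : v x ≠ 0 := by simpa using hx0
  let t : ℕ → L := fun i => algebraMap D L (χ.coeff i) * x ^ i
  have hsum : ∑ i ∈ χ.support, t i = 0 := by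
    rw [← hx, aeval_def, eval₂_eq_sum, Polynomial.sum]
  obtain ⟨j, hj, hmax⟩ := Finset.exists_max_image χ.support (fun i => v (t i))
    (support_nonempty.mpr hχ.ne_zero)
  have hne : ∀ i ∈ χ.support, v (t i) ≠ 0 := fun i hi => by
    have := (map_ne_zero_iff _ hinj).mpr (mem_support_iff.mp hi)
    simp [t, this, hx0]
  have : ∃ i ∈ χ.support, i ≠ j ∧ v (t i) = v (t j) := by
    by_contra hc
    push Not at hc
    have := v.map_sum_eq_of_lt (f := t) hj (fun i hi => by
      rw [Finset.mem_sdiff, Finset.mem_singleton] at hi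
      exact lt_of_le_of_ne (hmax i hi.1) (hc i hi.1 hi.2))
    rw [hsum, map_zero] at this
    exact hne j hj this.symm
  obtain ⟨i, hi, hij, heq⟩ := this
  have main : ∀ i j, i ∈ χ.support → j ∈ χ.support → i < j → v (t i) = v (t j) →
      Ph (v (algebraMap D L q)) (v x ^ (χ.natDegree.factorial * N.factorial)) := by
    intro i j hi hj hij heq
    obtain ⟨c, rfl⟩ := Nat.exists_eq_add_of_lt hij
    obtain ⟨a, ha⟩ := hb _ (mem_support_iff.mp hi)
    obtain ⟨b, hb'⟩ := hb _ (mem_support_iff.mp hj)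
    have hle := le_natDegree_of_mem_supp _ hj
    obtain ⟨k, hk⟩ := Nat.dvd_factorial (Nat.succ_pos c) (show c + 1 ≤ χ.natDegree by omega)
    have h1 : v (algebraMap D L (χ.coeff i)) =
        v (algebraMap D L (χ.coeff (i + c + 1))) * v x ^ (c + 1) := by
      apply mul_right_cancel₀ (pow_ne_zero i hvx)
      simp only [t, map_mul, map_pow] at heq
      rw [heq, mul_assoc, ← pow_add]; congr 2; ring
    right
    refine ⟨b * k, a * k, ?_⟩
    rw [pow_mul _ b, pow_mul _ a, ← ha, ← hb', h1, hk, mul_pow, mul_pow, ← pow_mul (v x),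
      ← pow_mul (v x), mul_comm]
    congr 2
    simp only [Nat.succ_eq_add_one]; ring
  rcases lt_or_gt_of_ne hij with h | h
  · exact main i j hi hj h heq
  · exact main j i hj hi h heq.symm

omit [IsDomain D] in
theorem val_res [Finite (D ⧸ cen v hv)] {Cb : ℕ} (hC : Nat.card (D ⧸ cen v hv) ≤ Cb)
    {χ : D[X]} (hχ : χ.Monic) {x : L} (hx : aeval x χ = 0) (h1 : v x = 1) :
    v (1 - x ^ (Cb ^ χ.natDegree).factorial) < 1 := by
  classical
  haveI : Nontrivial D := (algebraMap D L).domain_nontrivial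
  set n := χ.natDegree
  have hne : χ ≠ 1 := by rintro rfl; simp at hx
  let F : Fin (Cb ^ n + 1) → (Fin n → D ⧸ cen v hv) := fun i k =>
    Ideal.Quotient.mk _ ((X ^ (i : ℕ) %ₘ χ).coeff k)
  haveI := Fintype.ofFinite (D ⧸ cen v hv)
  obtain ⟨a, b, hab, hF⟩ := Fintype.exists_ne_map_eq_of_card_lt F (by
    rw [Fintype.card_fun, Fintype.card_fin, Fintype.card_fin, ← Nat.card_eq_fintype_card]
    exact Nat.lt_succ_of_le (Nat.pow_le_pow_left hC n))
  have hlt : v (x ^ (a : ℕ) - x ^ (b : ℕ)) < 1 := by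
    have e : ∀ i : ℕ, x ^ i = ∑ k ∈ Finset.range n, (X ^ i %ₘ χ).coeff k • x ^ k := by
      intro i
      rw [← aeval_eq_sum_range' (natDegree_modByMonic_lt _ hχ hne),
        aeval_modByMonic_eq_self_of_root hx, aeval_X_pow]
    rw [e a, e b, ← Finset.sum_sub_distrib]
    refine v.map_sum_lt one_ne_zero fun k hk => ?_
    rw [← sub_smul, Algebra.smul_def, map_mul, map_pow, h1, one_pow, mul_one]
    exact Ideal.Quotient.eq.mp (congrFun hF ⟨k, Finset.mem_range.mp hk⟩)
  have main : ∀ a b : ℕ, b < a → a ≤ Cb ^ n → v (x ^ a - x ^ b) < 1 →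
      v (1 - x ^ (Cb ^ n).factorial) < 1 := by
    intro a b hab ha h
    obtain ⟨c, rfl⟩ := Nat.exists_eq_add_of_lt hab
    obtain ⟨k, hk⟩ := Nat.dvd_factorial (Nat.succ_pos c) (show c + 1 ≤ Cb ^ n by omega)
    have h2 : v (x ^ (c + 1) - 1) < 1 := by
      have : x ^ (b + c + 1) - x ^ b = x ^ b * (x ^ (c + 1) - 1) := by ring
      rwa [this, map_mul, map_pow, h1, one_pow, one_mul] at h
    rw [v.map_sub_swap, hk, pow_mul, ← geom_sum_mul, map_mul]
    refine lt_of_le_of_lt (mul_le_of_le_one_left' (v.map_sum_le fun i _ => ?_)) h2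
    simp [h1]
  rcases lt_or_gt_of_ne (Fin.val_ne_of_ne hab) with h | h
  · exact main b a h (Nat.lt_succ_iff.mp b.2) (by rwa [v.map_sub_swap])
  · exact main a b h (Nat.lt_succ_iff.mp a.2) hlt
end

theorem descend {R : Type} [CommRing R] [IsDomain R] (M : Ideal R) [hM : M.IsPrime] {q : R}
    (hq : q ≠ 0) (Φ : R → Prop)
    (step : ∀ a b, Φ a → Φ b → a ∈ M → b ∈ M →
      ∃ s, s ∉ M ∧ ∃ a' b', Φ a' ∧ Φ b' ∧ q * a' = a * s ∧ q * b' = b * s) (j : ℕ) :
    ∀ a b t U V, Φ a → Φ b → t ∉ M → t * q ^ j = U * a + V * b →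
      ∃ a' b', a' * b = a * b' ∧ (a' ∉ M ∨ b' ∉ M) := by
  induction j with
  | zero =>
    intro a b t U V _ _ ht h
    refine ⟨a, b, rfl, ?_⟩
    by_contra hc
    push Not at hc
    rw [pow_zero, mul_one] at h
    exact ht (h ▸ M.add_mem (M.mul_mem_left _ hc.1) (M.mul_mem_left _ hc.2))
  | succ j ih =>
    intro a b t U V ha hb ht h
    by_cases hc : a ∉ M ∨ b ∉ M
    · exact ⟨a, b, rfl, hc⟩
    push Not at hc
    obtain ⟨s, hs, a', b', ha', hb', e1, e2⟩ := step a b ha hb hc.1 hc.2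
    obtain ⟨a2, b2, e3, h4⟩ := ih a' b' (t * s) U V ha' hb'
      (fun h => (hM.mem_or_mem h).elim ht hs) (by
        apply mul_left_cancel₀ hq
        linear_combination s * h - U * e1 - V * e2)
    refine ⟨a2, b2, ?_, h4⟩
    have hs0 : s ≠ 0 := fun h => hs (h ▸ M.zero_mem)
    apply mul_left_cancel₀ hs0
    linear_combination q * e3 - a2 * e2 + b2 * e1

end Pool.Agent.H6.IntB
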