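import Mathlib

set_option autoImplicit false

open Set Topology Filter unitInterval

namespace Pool.Agent.H6.MonoA

/-- A directed intersection of compact preconnected sets is preconnected. -/
theorem preconn_iInter {X ι : Type} [TopologicalSpace X] [T2Space X] [CompactSpace X] [Nonempty ι]
    (V : ι → Set X) (hV : Directed (· ⊇ ·) V) (hc : ∀ i, IsClosed (V i))
    (hp : ∀ i, IsPreconnected (V i)) : IsPreconnected (⋂ i, V i) := by
  have hcl : IsClosed (⋂ i, V i) := isClosed_iInter hc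
  rw [isPreconnected_iff_subset_of_fully_disjoint_closed hcl]
  intro u v hu hv hs hd
  obtain ⟨U, W, hU, hW, huU, hvW, hUW⟩ := normal_separation hu hv hd
  obtain ⟨i, hi⟩ := exists_subset_nhds_of_isCompact' hV (fun i => (hc i).isCompact) hc
    (U := U ∪ W) (fun x hx => (hU.union hW).mem_nhds (by
      rcases hs hx with h | h
      · exact Or.inl (huU h)
      · exact Or.inr (hvW h)))
  rcases (hp i).subset_or_subset hU hW hUW hi with h | h
  · left
    intro x hx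
    rcases hs hx with h' | h'
    · exact h'
    · exact absurd (hUW.ne_of_mem (h (mem_iInter.1 hx i)) (hvW h')) (by simp)
  · right
    intro x hx
    rcases hs hx with h' | h'
    · exact absurd (hUW.ne_of_mem (huU h') (h (mem_iInter.1 hx i))) (by simp)
    · exact h'

/-- The set of functions with a strict peak in a given interval. -/
def Pk (a b : ℝ) : Set C(I, ℝ) :=
  {g | 0 ≤ a → a < b → b ≤ 1 → ∃ y1 y2 y3 : I, a ≤ y1 ∧ y1 < y2 ∧ y2 < y3 ∧ (y3 : ℝ) ≤ b ∧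
    g y1 < g y2 ∧ g y3 < g y2}

theorem Pk_open (a b : ℝ) : IsOpen (Pk a b) := by
  rw [isOpen_iff_mem_nhds]
  intro g hg
  by_cases h : 0 ≤ a ∧ a < b ∧ b ≤ 1
  · obtain ⟨y1, y2, y3, h1, h2, h3, h4, h5, h6⟩ := hg h.1 h.2.1 h.2.2
    have o1 : IsOpen {f : C(I, ℝ) | f y1 < f y2} :=
      isOpen_lt (continuous_eval_const y1) (continuous_eval_const y2)
    have o2 : IsOpen {f : C(I, ℝ) | f y3 < f y2} :=
      isOpen_lt (continuous_eval_const y3) (continuous_eval_const y2)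
    refine mem_of_superset ((o1.inter o2).mem_nhds ⟨h5, h6⟩) ?_
    intro f hf _ _ _
    exact ⟨y1, y2, y3, h1, h2, h3, h4, hf.1, hf.2⟩
  · refine mem_of_superset univ_mem ?_
    intro f _ h1 h2 h3
    exact absurd ⟨h1, h2, h3⟩ h

theorem Pk_dense (a b : ℝ) : Dense (Pk a b) := by
  by_cases h : 0 ≤ a ∧ a < b ∧ b ≤ 1
  swap
  · have : Pk a b = univ := by
      ext f
      simp only [mem_univ, iff_true]
      intro h1 h2 h3
      exact absurd ⟨h1, h2, h3⟩ h
    rw [this]; exact dense_univ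
  obtain ⟨ha, hab, hb⟩ := h
  rw [Metric.dense_iff]
  intro g r hr
  let y2 : I := ⟨(a + b) / 2, by constructor <;> linarith⟩
  obtain ⟨δ, hδ, hg⟩ := Metric.continuousAt_iff.1 (g.continuous.continuousAt (x := y2)) (r / 2)
    (by linarith)
  set η := min (δ / 2) ((b - a) / 2) with hη
  have hη0 : 0 < η := lt_min (by linarith) (by linarith)
  have hη1 : η ≤ δ / 2 := min_le_left _ _
  have hη2 : η ≤ (b - a) / 2 := min_le_right _ _
  let y1 : I := ⟨(a + b) / 2 - η, by constructor <;> linarith⟩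
  let y3 : I := ⟨(a + b) / 2 + η, by constructor <;> linarith⟩
  let β : C(I, ℝ) := ⟨fun y => r / 2 * max 0 (1 - |(y : ℝ) - (a + b) / 2| / η), by fun_prop⟩
  refine ⟨g + β, ?_, ?_⟩
  · rw [Metric.mem_ball, dist_eq_norm, add_sub_cancel_left]
    have : ‖β‖ ≤ r / 2 := by
      rw [ContinuousMap.norm_le _ (by linarith)]
      intro y
      have h0 : 0 ≤ |(y : ℝ) - (a + b) / 2| / η := by positivity
      have h1 : max 0 (1 - |(y : ℝ) - (a + b) / 2| / η) ≤ 1 := max_le (by norm_num) (by linarith)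
      have h2 : 0 ≤ max 0 (1 - |(y : ℝ) - (a + b) / 2| / η) := le_max_left _ _
      show ‖r / 2 * max 0 (1 - |(y : ℝ) - (a + b) / 2| / η)‖ ≤ r / 2
      rw [Real.norm_eq_abs, abs_of_nonneg (by positivity)]
      nlinarith
    linarith
  · intro _ _ _
    have e1 : β y1 = 0 := by
      show r / 2 * max 0 (1 - |((a + b) / 2 - η) - (a + b) / 2| / η) = 0
      rw [show (a + b) / 2 - η - (a + b) / 2 = -η by ring, abs_neg, abs_of_pos hη0,
        div_self hη0.ne']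
      simp
    have e3 : β y3 = 0 := by
      show r / 2 * max 0 (1 - |((a + b) / 2 + η) - (a + b) / 2| / η) = 0
      rw [show (a + b) / 2 + η - (a + b) / 2 = η by ring, abs_of_pos hη0, div_self hη0.ne']
      simp
    have e2 : β y2 = r / 2 := by
      show r / 2 * max 0 (1 - |((a + b) / 2) - (a + b) / 2| / η) = r / 2
      simp
    have d1 : dist y1 y2 < δ := by
      rw [Subtype.dist_eq, Real.dist_eq]
      show |((a + b) / 2 - η) - (a + b) / 2| < δ
      rw [show (a + b) / 2 - η - (a + b) / 2 = -η by ring, abs_neg, abs_of_pos hη0]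
      linarith
    have d3 : dist y3 y2 < δ := by
      rw [Subtype.dist_eq, Real.dist_eq]
      show |((a + b) / 2 + η) - (a + b) / 2| < δ
      rw [show (a + b) / 2 + η - (a + b) / 2 = η by ring, abs_of_pos hη0]
      linarith
    have g1 := hg d1
    have g3 := hg d3
    rw [Real.dist_eq, abs_lt] at g1 g3
    refine ⟨y1, y2, y3, ?_, ?_, ?_, ?_, ?_, ?_⟩
    · show a ≤ (a + b) / 2 - η
      linarith
    · show (a + b) / 2 - η < (a + b) / 2
      linarith
    · show (a + b) / 2 < (a + b) / 2 + η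
      linarith
    · show (a + b) / 2 + η ≤ b
      linarith
    · simp only [ContinuousMap.add_apply, e1, e2]; linarith
    · simp only [ContinuousMap.add_apply, e3, e2]; linarith

theorem ivt (g : C(I, ℝ)) (a b : I) (c : ℝ) (h : c ∈ uIcc (g a) (g b)) :
    ∃ y ∈ uIcc a b, g y = c :=
  intermediate_value_uIcc g.continuous.continuousOn h

/-- A function with an equal-level peak in every interval. -/
theorem exists_peak : ∃ g : C(I, ℝ), ∀ a b : I, a < b → ∃ y1 y2 y3 : I,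
    a < y1 ∧ y1 ≤ y2 ∧ y2 ≤ y3 ∧ y3 < b ∧ g y1 = g y3 ∧ g y1 < g y2 := by
  have hd := dense_iInter_of_isOpen (f := fun p : ℚ × ℚ => Pk p.1 p.2)
    (fun p => Pk_open _ _) (fun p => Pk_dense _ _)
  obtain ⟨g, hg⟩ := hd.nonempty
  refine ⟨g, fun a b hab => ?_⟩
  have hab' : (a : ℝ) < b := hab
  obtain ⟨p, hp1, hp2⟩ := exists_rat_btwn hab'
  obtain ⟨q, hq1, hq2⟩ := exists_rat_btwn hp2
  obtain ⟨y1, y2, y3, h1, h2, h3, h4, h5, h6⟩ := mem_iInter.1 hg (p, q)
    (le_trans a.2.1 hp1.le) hq1 (le_trans hq2.le b.2.2)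
  have k1 : a < y1 := show (a : ℝ) < y1 from lt_of_lt_of_le hp1 h1
  have k3 : y3 < b := show (y3 : ℝ) < b from lt_of_le_of_lt h4 hq2
  rcases le_total (g y1) (g y3) with h | h
  · obtain ⟨u, hu, hgu⟩ := ivt g y1 y2 (g y3) (mem_uIcc_of_le h h6.le)
    rw [uIcc_of_le h2.le] at hu
    exact ⟨u, y2, y3, lt_of_lt_of_le k1 hu.1, hu.2, h3.le, k3, hgu, hgu ▸ h6⟩
  · obtain ⟨u, hu, hgu⟩ := ivt g y2 y3 (g y1) (mem_uIcc_of_ge h h5.le)
    rw [uIcc_of_le h3.le] at hu
    exact ⟨y1, y2, u, k1, h2.le, hu.1, lt_of_le_of_lt hu.2 k3, hgu.symm, h5⟩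

/-- normalised version -/
theorem exists_peak' : ∃ g : C(I, ℝ), (∀ y, g y ∈ I) ∧ (∀ r : I, ∃ y, g y = r) ∧
    ∀ a b : I, a < b → ∃ y1 y2 y3 : I,
    a < y1 ∧ y1 ≤ y2 ∧ y2 ≤ y3 ∧ y3 < b ∧ g y1 = g y3 ∧ g y1 < g y2 := by
  obtain ⟨g, hg⟩ := exists_peak
  obtain ⟨m, -, hm⟩ := isCompact_univ.exists_isMinOn univ_nonempty g.continuous.continuousOn
  obtain ⟨M, -, hM⟩ := isCompact_univ.exists_isMaxOn univ_nonempty g.continuous.continuousOn
  have hm' : ∀ y, g m ≤ g y := fun y => hm (mem_univ y)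
  have hM' : ∀ y, g y ≤ g M := fun y => hM (mem_univ y)
  have hlt : g m < g M := by
    obtain ⟨y1, y2, y3, -, -, -, -, -, h⟩ := hg 0 1 (by norm_num)
    linarith [hm' y1, hM' y2]
  have hpos : 0 < g M - g m := by linarith
  let G : C(I, ℝ) := ⟨fun y => (g y - g m) / (g M - g m), by fun_prop⟩
  have hG : ∀ y, G y = (g y - g m) / (g M - g m) := fun y => rfl
  refine ⟨G, fun y => ?_, fun r => ?_, fun a b hab => ?_⟩
  · rw [hG]
    constructor
    · exact div_nonneg (by linarith [hm' y]) hpos.le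
    · rw [div_le_one hpos]; linarith [hM' y]
  · have e0 : G m = 0 := by rw [hG]; simp
    have e1 : G M = 1 := by rw [hG]; exact div_self hpos.ne'
    obtain ⟨y, -, hy⟩ := ivt G m M r (by rw [e0, e1]; exact mem_uIcc_of_le r.2.1 r.2.2)
    exact ⟨y, hy⟩
  · obtain ⟨y1, y2, y3, h1, h2, h3, h4, h5, h6⟩ := hg a b hab
    refine ⟨y1, y2, y3, h1, h2, h3, h4, by rw [hG, hG, h5], ?_⟩
    rw [hG, hG]
    exact div_lt_div_of_pos_right (by linarith) hpos

theorem uniform_peak (g : C(I, ℝ)) (hg : ∀ a b : I, a < b → ∃ y1 y2 y3 : I,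
    a < y1 ∧ y1 ≤ y2 ∧ y2 ≤ y3 ∧ y3 < b ∧ g y1 = g y3 ∧ g y1 < g y2) (l : ℝ) (hl : 0 < l) :
    ∃ ζ : ℝ, 0 < ζ ∧ ∀ a b : I, a ≤ b → l ≤ |g a - g b| → ∃ y1 y2 y3 : I,
      a < y1 ∧ y1 ≤ y2 ∧ y2 ≤ y3 ∧ y3 < b ∧ g y1 = g y3 ∧ g y1 + ζ < g y2 := by
  let S : Set (I × I) := {p | p.1 ≤ p.2 ∧ l ≤ |g p.1 - g p.2|}
  have hS : IsClosed S :=
    (isClosed_le (f := fun p : I × I => p.1) (g := fun p => p.2) continuous_fst
      continuous_snd).inter (isClosed_le (f := fun _ : I × I => l)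
        (g := fun p => |g p.1 - g p.2|) continuous_const (by fun_prop))
  let O : ℕ → Set (I × I) := fun n => {p | ∃ y1 y2 y3 : I,
      p.1 < y1 ∧ y1 ≤ y2 ∧ y2 ≤ y3 ∧ y3 < p.2 ∧ g y1 = g y3 ∧ g y1 + 1 / ((n : ℝ) + 1) < g y2}
  have hO : ∀ n, IsOpen (O n) := by
    intro n
    rw [isOpen_iff_mem_nhds]
    rintro p ⟨y1, y2, y3, h1, h2, h3, h4, h5, h6⟩
    have o1 : IsOpen {q : I × I | q.1 < y1} := isOpen_lt continuous_fst continuous_const
    have o2 : IsOpen {q : I × I | y3 < q.2} := isOpen_lt continuous_const continuous_snd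
    refine mem_of_superset ((o1.inter o2).mem_nhds ⟨h1, h4⟩) ?_
    intro q hq
    exact ⟨y1, y2, y3, hq.1, h2, h3, hq.2, h5, h6⟩
  have hmono : Monotone O := by
    rintro n m hnm p ⟨y1, y2, y3, h1, h2, h3, h4, h5, h6⟩
    refine ⟨y1, y2, y3, h1, h2, h3, h4, h5, lt_of_le_of_lt ?_ h6⟩
    have : (n : ℝ) ≤ m := by exact_mod_cast hnm
    have : 1 / ((m : ℝ) + 1) ≤ 1 / ((n : ℝ) + 1) :=
      one_div_le_one_div_of_le (by positivity) (by linarith)
    linarith
  obtain ⟨n, hn⟩ := hS.isCompact.elim_directed_cover O hO (by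
    rintro p ⟨h1, h2⟩
    have hne : p.1 < p.2 := by
      refine lt_of_le_of_ne h1 fun h => ?_
      rw [h] at h2
      simp at h2
      linarith
    obtain ⟨y1, y2, y3, k1, k2, k3, k4, k5, k6⟩ := hg _ _ hne
    obtain ⟨n, hn⟩ := exists_nat_one_div_lt (show 0 < g y2 - g y1 by linarith)
    exact mem_iUnion.2 ⟨n, y1, y2, y3, k1, k2, k3, k4, k5, by linarith⟩) hmono.directed_le
  exact ⟨1 / ((n : ℝ) + 1), by positivity, fun a b hab h => hn (show (a, b) ∈ S from ⟨hab, h⟩)⟩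

/-- The scales. -/
theorem exists_scales (g : C(I, ℝ)) (hg : ∀ a b : I, a < b → ∃ y1 y2 y3 : I,
    a < y1 ∧ y1 ≤ y2 ∧ y2 ≤ y3 ∧ y3 < b ∧ g y1 = g y3 ∧ g y1 < g y2) :
    ∃ e : ℕ → ℝ, e 0 = 1 ∧ (∀ j, 0 < e j) ∧ (∀ j, e (j + 1) ≤ e j / 100) ∧
      ∀ j, ∀ a b : I, a ≤ b → e j / 4 ≤ |g a - g b| → ∃ y1 y2 y3 : I,
      a < y1 ∧ y1 ≤ y2 ∧ y2 ≤ y3 ∧ y3 < b ∧ g y1 = g y3 ∧ g y1 + 40 * e (j + 1) < g y2 := by
  choose! ζ hζ hz using uniform_peak g hg
  let e : ℕ → ℝ := fun n => Nat.rec 1 (fun _ x => min (x / 100) (ζ (x / 4) / 40)) n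
  have hs : ∀ j, e (j + 1) = min (e j / 100) (ζ (e j / 4) / 40) := fun j => rfl
  have hp : ∀ j, 0 < e j := by
    intro j
    induction j with
    | zero => exact one_pos
    | succ j ih =>
      rw [hs]
      have := hζ (e j / 4) (by linarith)
      exact lt_min (by linarith) (by linarith)
  refine ⟨e, rfl, hp, fun j => by rw [hs]; exact min_le_left _ _, fun j a b hab h => ?_⟩
  obtain ⟨y1, y2, y3, k1, k2, k3, k4, k5, k6⟩ := hz (e j / 4) (by linarith [hp j]) a b hab h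
  refine ⟨y1, y2, y3, k1, k2, k3, k4, k5, lt_of_le_of_lt ?_ k6⟩
  have : e (j + 1) ≤ ζ (e j / 4) / 40 := by rw [hs]; exact min_le_right _ _
  linarith

end Pool.Agent.H6.MonoA
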