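import Pool.Agent.H6.MonoA

set_option autoImplicit false

open Set Topology Filter unitInterval

namespace Pool.Agent.H6.MonoB
open Pool.Agent.H6.MonoA

/-- The data of the construction. -/
structure Dat where
  g : C(I, ℝ)
  e : ℕ → ℝ
  g01 : ∀ y, g y ∈ I
  gsurj : ∀ r : I, ∃ y, g y = r
  e0 : e 0 = 1
  epos : ∀ j, 0 < e j
  estep : ∀ j, e (j + 1) ≤ e j / 100
  peak : ∀ j, ∀ a b : I, a ≤ b → e j / 4 ≤ |g a - g b| → ∃ y1 y2 y3 : I,
      a < y1 ∧ y1 ≤ y2 ∧ y2 ≤ y3 ∧ y3 < b ∧ g y1 = g y3 ∧ g y1 + 40 * e (j + 1) < g y2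

theorem dat_nonempty : Nonempty Dat := by
  obtain ⟨g, h1, h2, h3⟩ := exists_peak'
  obtain ⟨e, k1, k2, k3, k4⟩ := exists_scales g h3
  exact ⟨⟨g, e, h1, h2, k1, k2, k3, k4⟩⟩

namespace Dat
variable (T : Dat)

/-- the point of the zigzag arc with parameter `y` -/
def k (y : I) : I × I := (⟨T.g y, T.g01 y⟩, y)

/-- phase -/
noncomputable def ph (j : ℕ) (p : I × I) : ℝ := ((p.1 : ℝ) - T.g p.2) / T.e (j + 1)

noncomputable def bY (j : ℕ) (p : I × I) : I :=
  projIcc 0 1 zero_le_one ((p.2 : ℝ) + Real.sin (T.ph j p))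

noncomputable def bXr (j : ℕ) (p : I × I) : ℝ :=
  max ((p.1 : ℝ) - T.e j) (min ((p.1 : ℝ) + T.e j) (T.g (T.bY j p)))

theorem bXr_mem (j : ℕ) (p : I × I) : T.bXr j p ∈ I := by
  have h := T.g01 (T.bY j p)
  have h1 := T.epos j
  have h2 := p.1.2
  constructor
  · exact le_max_of_le_right (le_min (by linarith [h2.1]) h.1)
  · exact max_le (by linarith [h2.2]) (le_trans (min_le_right _ _) h.2)

/-- bonding map -/
noncomputable def b (j : ℕ) (p : I × I) : I × I := (⟨T.bXr j p, T.bXr_mem j p⟩, T.bY j p)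

theorem cont_ph (j : ℕ) : Continuous (T.ph j) := by
  unfold ph
  have := T.g.continuous
  fun_prop

theorem cont_bY (j : ℕ) : Continuous (T.bY j) := by
  unfold bY
  have := T.cont_ph j
  exact continuous_projIcc.comp (by fun_prop)

theorem cont_b (j : ℕ) : Continuous (T.b j) := by
  unfold b
  refine Continuous.prodMk (Continuous.subtype_mk ?_ _) (T.cont_bY j)
  unfold bXr
  have := T.cont_bY j
  have := T.g.continuous
  fun_prop

theorem cont_k : Continuous T.k := by
  unfold k
  exact Continuous.prodMk (Continuous.subtype_mk T.g.continuous _) continuous_id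

theorem b_near (j : ℕ) (p : I × I) : |((T.b j p).1 : ℝ) - p.1| ≤ T.e j := by
  have h1 := T.epos j
  show |T.bXr j p - p.1| ≤ T.e j
  rw [abs_le]
  constructor
  · have : (p.1 : ℝ) - T.e j ≤ T.bXr j p := le_max_left _ _
    linarith
  · have : T.bXr j p ≤ p.1 + T.e j := max_le (by linarith) (min_le_left _ _)
    linarith

theorem b_hit (j : ℕ) (p : I × I) (h : |T.g (T.b j p).2 - p.1| ≤ T.e j) :
    T.b j p = T.k (T.b j p).2 := by
  refine Prod.ext (Subtype.ext ?_) rfl
  show T.bXr j p = T.g (T.bY j p)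
  have h' : |T.g (T.bY j p) - p.1| ≤ T.e j := h
  rw [abs_le] at h'
  unfold bXr
  rw [min_eq_right (by linarith), max_eq_right (by linarith)]

theorem b_k (j : ℕ) (y : I) : T.b j (T.k y) = T.k y := by
  have h2 : (T.b j (T.k y)).2 = y := by
    show T.bY j (T.k y) = y
    unfold bY ph
    simp [k]
  rw [T.b_hit j (T.k y) (by rw [h2]; simp [k, (T.epos j).le]), h2]

theorem b_one (j : ℕ) (p : I × I) (h : Real.sin (T.ph j p) = 1) : (T.b j p).2 = 1 := by
  show T.bY j p = 1
  unfold bY
  rw [h, projIcc_of_right_le _ (by linarith [p.2.2.1])]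
  rfl

theorem b_zero (j : ℕ) (p : I × I) (h : Real.sin (T.ph j p) = -1) : (T.b j p).2 = 0 := by
  show T.bY j p = 0
  unfold bY
  rw [h, projIcc_of_le_left _ (by linarith [p.2.2.2])]
  rfl

/-- The ambient continuum. -/
def N : Set (I × (ℕ → I × I)) :=
  {w | ∀ j, w.2 j = T.b j (w.2 (j + 1)) ∧ |((w.2 j).1 : ℝ) - w.1| ≤ 2 * T.e j}

theorem N_closed : IsClosed T.N := by
  have : T.N = ⋂ j, ({w : I × (ℕ → I × I) | w.2 j = T.b j (w.2 (j + 1))} ∩
      {w | |((w.2 j).1 : ℝ) - w.1| ≤ 2 * T.e j}) := by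
    ext w; simp [N]
  rw [this]
  refine isClosed_iInter fun j => IsClosed.inter ?_ ?_
  · have := T.cont_b j
    exact isClosed_eq (by fun_prop) (by fun_prop)
  · exact isClosed_le (by fun_prop) continuous_const

/-- The zigzag arc in the ambient continuum. -/
def kk (y : I) : I × (ℕ → I × I) := (⟨T.g y, T.g01 y⟩, fun _ => T.k y)

theorem cont_kk : Continuous T.kk := by
  unfold kk
  exact Continuous.prodMk (Continuous.subtype_mk T.g.continuous _)
    (continuous_pi fun _ => T.cont_k)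

theorem kk_mem (y : I) : T.kk y ∈ T.N := by
  intro j
  refine ⟨(T.b_k j y).symm, ?_⟩
  simp [kk, k, (T.epos j).le]

/-- resetting the first coordinates -/
noncomputable def R : ℕ → (ℕ → I × I) → (ℕ → I × I)
  | 0, x => x
  | n + 1, x => R n (Function.update x n (T.b n (x (n + 1))))

theorem cont_R (n : ℕ) : Continuous (T.R n) := by
  induction n with
  | zero => exact continuous_id
  | succ n ih =>
    refine ih.comp (Continuous.update continuous_id n ?_)
    exact (T.cont_b n).comp (continuous_apply _)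

theorem R_ge (n : ℕ) : ∀ x j, n ≤ j → T.R n x j = x j := by
  induction n with
  | zero => intro x j _; rfl
  | succ n ih =>
    intro x j hj
    show T.R n _ j = _
    rw [ih _ j (by omega), Function.update_of_ne (by omega)]

def E (r : I) (n : ℕ) : Set (ℕ → I × I) :=
  {x | (∀ j < n, x j = T.b j (x (j + 1))) ∧ ∀ j, |((x j).1 : ℝ) - r| ≤ 2 * T.e j}

theorem R_mem (r : I) (n : ℕ) : ∀ x ∈ T.E r 0, T.R n x ∈ T.E r n := by
  induction n with
  | zero => intro x hx; exact hx
  | succ n ih =>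
    intro x hx
    have h' : Function.update x n (T.b n (x (n + 1))) ∈ T.E r 0 := by
      refine ⟨fun j hj => absurd hj (by omega), fun j => ?_⟩
      by_cases hj : j = n
      · subst hj
        rw [Function.update_self]
        have h1 := T.b_near j (x (j + 1))
        have h2 := hx.2 (j + 1)
        have h3 := T.estep j
        have h4 := T.epos j
        rw [abs_le] at h1 h2 ⊢
        constructor <;> linarith [h1.1, h1.2, h2.1, h2.2]
      · rw [Function.update_of_ne hj]; exact hx.2 j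
    have h2 := ih _ h'
    refine ⟨fun j hj => ?_, h2.2⟩
    rcases Nat.lt_succ_iff_lt_or_eq.1 hj with h | h
    · exact h2.1 j h
    · subst h
      show T.R j _ j = T.b j (T.R j _ (j + 1))
      rw [T.R_ge j _ j le_rfl, T.R_ge j _ (j + 1) (by omega), Function.update_self,
        Function.update_of_ne (by omega)]

theorem R_fix (r : I) (n : ℕ) : ∀ x ∈ T.E r n, T.R n x = x := by
  induction n with
  | zero => intro x _; rfl
  | succ n ih =>
    intro x hx
    show T.R n _ = _
    rw [← hx.1 n (by omega), Function.update_eq_self]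
    exact ih x ⟨fun j hj => hx.1 j (by omega), hx.2⟩

theorem E_closed (r : I) (n : ℕ) : IsClosed (T.E r n) := by
  have : T.E r n = (⋂ j, ⋂ (_ : j < n), {x : ℕ → I × I | x j = T.b j (x (j + 1))}) ∩
      ⋂ j, {x : ℕ → I × I | |((x j).1 : ℝ) - r| ≤ 2 * T.e j} := by
    ext w; simp [E]
  rw [this]
  refine IsClosed.inter (isClosed_iInter fun j => isClosed_iInter fun _ => ?_)
    (isClosed_iInter fun j => ?_)
  · have := T.cont_b j
    exact isClosed_eq (by fun_prop) (by fun_prop)
  · exact isClosed_le (by fun_prop) continuous_const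

theorem E_conn (r : I) (n : ℕ) : IsPreconnected (T.E r n) := by
  have h0 : IsPreconnected (T.E r 0) := by
    have : T.E r 0 = pi univ fun j => {u : I | |(u : ℝ) - r| ≤ 2 * T.e j} ×ˢ (univ : Set I) := by
      ext x; simp [E]
    rw [this]
    refine isPreconnected_univ_pi fun j => IsPreconnected.prod ?_ isPreconnected_univ
    apply OrdConnected.isPreconnected
    refine ⟨fun u hu v hv w hw => ?_⟩
    have h1 : (u : ℝ) ≤ w := hw.1
    have h2 : (w : ℝ) ≤ v := hw.2
    simp only [mem_setOf_eq, abs_le] at hu hv ⊢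
    constructor <;> linarith [hu.1, hv.2]
  have : T.E r n = T.R n '' T.E r 0 := by
    ext x
    constructor
    · intro hx
      exact ⟨x, ⟨fun j hj => absurd hj (by omega), hx.2⟩, T.R_fix r n x hx⟩
    · rintro ⟨y, hy, rfl⟩
      exact T.R_mem r n y hy
  rw [this]
  exact h0.image _ (T.cont_R n).continuousOn

theorem N_fiber (r : I) : IsPreconnected (T.N ∩ Prod.fst ⁻¹' {r}) := by
  have h1 : IsPreconnected (⋂ n, T.E r n) := by
    refine preconn_iInter _ ?_ (T.E_closed r) (T.E_conn r)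
    refine Antitone.directed_ge fun n m hnm x hx => ⟨fun j hj => hx.1 j (by omega), hx.2⟩
  have : T.N ∩ Prod.fst ⁻¹' {r} = Prod.mk r '' ⋂ n, T.E r n := by
    ext ⟨s, x⟩
    constructor
    · rintro ⟨h, h'⟩
      have : s = r := h'
      subst this
      exact ⟨x, mem_iInter.2 fun n => ⟨fun j _ => (h j).1, fun j => (h j).2⟩, rfl⟩
    · rintro ⟨y, hy, h⟩
      obtain ⟨rfl, rfl⟩ := Prod.mk.inj h
      rw [mem_iInter] at hy
      exact ⟨fun j => ⟨(hy (j + 1)).1 j (by omega), (hy 0).2 j⟩, rfl⟩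
  rw [this]
  exact h1.image _ (Continuous.prodMk_right r).continuousOn

/-- monotone closed subsets of the ambient continuum -/
def Mon : Set (Set (I × (ℕ → I × I))) :=
  {D | D ⊆ T.N ∧ IsClosed D ∧ ∀ t : I, IsConnected (D ∩ Prod.fst ⁻¹' {t})}

theorem N_mem : T.N ∈ T.Mon := by
  refine ⟨subset_rfl, T.N_closed, fun t => ⟨?_, T.N_fiber t⟩⟩
  obtain ⟨y, hy⟩ := T.gsurj t
  exact ⟨T.kk y, T.kk_mem y, Subtype.ext hy⟩

theorem exists_min : ∃ D, Minimal (· ∈ T.Mon) D := by
  obtain ⟨m, -, hm⟩ := zorn_superset_nonempty T.Mon (by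
    intro c hc hch hne
    have : Nonempty c := hne.to_subtype
    have hdir : ∀ t : I, Directed (· ⊇ ·) fun D : c =>
        (D : Set (I × (ℕ → I × I))) ∩ Prod.fst ⁻¹' {t} := by
      intro t D D'
      rcases hch.total D.2 D'.2 with h | h
      · exact ⟨D, subset_rfl, inter_subset_inter_left _ h⟩
      · exact ⟨D', inter_subset_inter_left _ h, subset_rfl⟩
    have hcl : ∀ t : I, ∀ D : c, IsClosed ((D : Set (I × (ℕ → I × I))) ∩ Prod.fst ⁻¹' {t}) :=
      fun t D => (hc D.2).2.1.inter (isClosed_singleton.preimage continuous_fst)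
    refine ⟨⋂ D : c, D, ⟨?_, isClosed_iInter fun D => (hc D.2).2.1, fun t => ?_⟩, ?_⟩
    · obtain ⟨D, hD⟩ := hne
      exact (iInter_subset _ (⟨D, hD⟩ : c)).trans (hc hD).1
    · rw [iInter_inter]
      refine ⟨?_, preconn_iInter _ (hdir t) (hcl t) fun D => ((hc D.2).2.2 t).2⟩
      exact IsCompact.nonempty_iInter_of_directed_nonempty_isCompact_isClosed _ (hdir t)
        (fun D => ((hc D.2).2.2 t).1) (fun D => (hcl t D).isCompact) (hcl t)
    · intro s hs
      exact iInter_subset _ (⟨s, hs⟩ : c)) T.N T.N_mem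
  exact ⟨m, hm⟩

theorem strip_conn {D : Set (I × (ℕ → I × I))} (hD : D ∈ T.Mon) (s t : I) :
    IsPreconnected (D ∩ Prod.fst ⁻¹' uIcc s t) := by
  have : CompactSpace D := isCompact_iff_compactSpace.1 hD.2.1.isCompact
  let f : D → I := fun d => d.1.1
  have hf : Continuous f := continuous_fst.comp continuous_subtype_val
  have hfib : ∀ r : I, IsConnected (f ⁻¹' {r}) := by
    intro r
    have e : Subtype.val '' (f ⁻¹' {r}) = D ∩ Prod.fst ⁻¹' {r} :=
      Subtype.image_preimage_coe D (Prod.fst ⁻¹' {r})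
    have h := hD.2.2 r
    rw [← e] at h
    exact ⟨h.1.of_image, IsInducing.subtypeVal.isPreconnected_image.1 h.2⟩
  have hq : IsQuotientMap f := hf.isClosedMap.isQuotientMap hf fun r => (hfib r).1
  have h := hq.isCoinducing.isConnected_preimage_of_isClosed hfib (t := uIcc s t)
    isClosed_Icc ⟨nonempty_uIcc, isPreconnected_uIcc⟩
  have e : Subtype.val '' (f ⁻¹' uIcc s t) = D ∩ Prod.fst ⁻¹' uIcc s t :=
    Subtype.image_preimage_coe D (Prod.fst ⁻¹' uIcc s t)
  rw [← e]
  exact h.2.image _ continuous_subtype_val.continuousOn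

end Dat
end Pool.Agent.H6.MonoB
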