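import Pool.Agent.H6.MonoB

set_option autoImplicit false

open Set Topology Filter unitInterval

namespace Pool.Agent.H6.MonoB
open Pool.Agent.H6.MonoA
namespace Dat
variable (T : Dat)

theorem e_le (j : ℕ) : T.e j ≤ (1 / 2) ^ j := by
  induction j with
  | zero => simp [T.e0]
  | succ j ih =>
    have := T.estep j
    have := T.epos j
    rw [pow_succ]
    linarith

theorem e_le_one (j : ℕ) : T.e j ≤ 1 :=
  (T.e_le j).trans (pow_le_one₀ (by norm_num) (by norm_num))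

/-- On a connected piece where the second coordinate misses a value, the phase is nearly
constant. -/
theorem phase_small {C : Set (I × (ℕ → I × I))} (hC : IsPreconnected C) (hN : C ⊆ T.N) (j : ℕ)
    (y0 : I) (hy : ∀ d ∈ C, (d.2 j).2 ≠ y0) :
    ∀ d ∈ C, ∀ d' ∈ C, T.ph j (d'.2 (j + 1)) - T.ph j (d.2 (j + 1)) < 7 := by
  intro d hd d' hd'
  by_contra hcon
  have hpi : 2 * Real.pi < 7 := by linarith [Real.pi_lt_d2]
  have hc : ContinuousOn (fun w : I × (ℕ → I × I) => T.ph j (w.2 (j + 1))) C := by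
    have := T.cont_ph j
    exact Continuous.continuousOn (by fun_prop)
  have hiv := hC.intermediate_value hd hd' hc
  obtain ⟨u, hu, hsu⟩ := Real.sin_periodic.exists_mem_Ico Real.two_pi_pos (Real.pi / 2)
    (T.ph j (d.2 (j + 1)))
  obtain ⟨v, hv, hsv⟩ := Real.sin_periodic.exists_mem_Ico Real.two_pi_pos (-(Real.pi / 2))
    (T.ph j (d.2 (j + 1)))
  obtain ⟨d1, hd1, e1⟩ := hiv (show u ∈ Icc _ _ from ⟨hu.1, by linarith [hu.2]⟩)
  obtain ⟨d0, hd0, e0⟩ := hiv (show v ∈ Icc _ _ from ⟨hv.1, by linarith [hv.2]⟩)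
  have k1 : (d1.2 j).2 = 1 := by
    rw [(hN hd1 j).1]
    apply T.b_one
    have e1' : T.ph j (d1.2 (j + 1)) = u := e1
    rw [e1', ← hsu, Real.sin_pi_div_two]
  have k0 : (d0.2 j).2 = 0 := by
    rw [(hN hd0 j).1]
    apply T.b_zero
    have e0' : T.ph j (d0.2 (j + 1)) = v := e0
    rw [e0', ← hsv, Real.sin_neg, Real.sin_pi_div_two]
  have hc2 : ContinuousOn (fun w : I × (ℕ → I × I) => (w.2 j).2) C :=
    Continuous.continuousOn (by fun_prop)
  obtain ⟨w, hw, ew⟩ := hC.intermediate_value hd0 hd1 hc2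
    (show y0 ∈ Icc _ _ from ⟨by rw [k0]; exact y0.2.1, by rw [k1]; exact y0.2.2⟩)
  exact hy w hw ew

theorem hit {D : Set (I × (ℕ → I × I))} (hD : D ∈ T.Mon) (j : ℕ) (y0 : I) :
    ∃ d ∈ D, (d.2 j).2 = y0 ∧ |(d.1 : ℝ) - T.g y0| ≤ T.e j / 2 := by
  have he := T.epos j
  have he' := T.epos (j + 1)
  have hs := T.estep j
  have h1 := T.e_le_one j
  have hr := T.g01 y0
  let s : I := ⟨min (T.g y0) (1 - T.e j / 2), le_min hr.1 (by linarith),
    (min_le_left _ _).trans hr.2⟩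
  let t : I := ⟨min (T.g y0) (1 - T.e j / 2) + T.e j / 2, by linarith [s.2.1],
    by linarith [min_le_right (T.g y0) (1 - T.e j / 2)]⟩
  have hst : (t : ℝ) = s + T.e j / 2 := rfl
  have hle : s ≤ t := show (s : ℝ) ≤ t by linarith
  have hs1 : (s : ℝ) ≤ T.g y0 := min_le_left _ _
  have ht1 : T.g y0 ≤ t := by
    show T.g y0 ≤ min (T.g y0) (1 - T.e j / 2) + T.e j / 2
    rcases le_total (T.g y0) (1 - T.e j / 2) with h | h
    · rw [min_eq_left h]; linarith
    · rw [min_eq_right h]; linarith [hr.2]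
  set C := D ∩ Prod.fst ⁻¹' uIcc s t with hCdef
  have hC : IsPreconnected C := T.strip_conn hD s t
  have hCN : C ⊆ T.N := inter_subset_left.trans hD.1
  by_contra hcon
  have hy : ∀ d ∈ C, (d.2 j).2 ≠ y0 := by
    intro d hd h
    apply hcon
    refine ⟨d, hd.1, h, ?_⟩
    have h2 : d.1 ∈ uIcc s t := hd.2
    rw [uIcc_of_le hle] at h2
    have a1 : (s : ℝ) ≤ d.1 := h2.1
    have a2 : (d.1 : ℝ) ≤ t := h2.2
    rw [abs_le]
    constructor <;> linarith
  have hph := T.phase_small hC hCN j y0 hy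
  -- the basic estimate
  have key : ∀ d ∈ C, ∀ d' ∈ C, (d'.1 : ℝ) - d.1 - (T.g (d'.2 (j + 1)).2 - T.g (d.2 (j + 1)).2)
      ≤ 11 * T.e (j + 1) := by
    intro d hd d' hd'
    have a := hph d hd d' hd'
    unfold ph at a
    rw [← sub_div, div_lt_iff₀ he'] at a
    have b1 := abs_le.1 (hCN hd (j + 1)).2
    have b2 := abs_le.1 (hCN hd' (j + 1)).2
    linarith [b1.1, b1.2, b2.1, b2.2]
  obtain ⟨ds, hds, hds'⟩ := (hD.2.2 s).1
  obtain ⟨dt, hdt, hdt'⟩ := (hD.2.2 t).1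
  have e1 : ds.1 = s := hds'
  have e2 : dt.1 = t := hdt'
  have m1 : ds ∈ C := ⟨hds, show ds.1 ∈ uIcc s t by rw [e1]; exact left_mem_uIcc⟩
  have m2 : dt ∈ C := ⟨hdt, show dt.1 ∈ uIcc s t by rw [e2]; exact right_mem_uIcc⟩
  have k1 := key ds m1 dt m2
  rw [e1, e2, hst] at k1
  have hc2 : Continuous (fun w : I × (ℕ → I × I) => (w.2 (j + 1)).2) := by fun_prop
  have hrange : ∀ y ∈ uIcc (ds.2 (j + 1)).2 (dt.2 (j + 1)).2, ∃ d ∈ C, (d.2 (j + 1)).2 = y := by
    intro y hy'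
    have := (hC.image _ hc2.continuousOn).ordConnected.uIcc_subset (mem_image_of_mem _ m1)
      (mem_image_of_mem _ m2) hy'
    exact this
  obtain ⟨y1, y2, y3, p1, p2, p3, p4, p5, p6⟩ : ∃ y1 y2 y3 : I,
      min (ds.2 (j + 1)).2 (dt.2 (j + 1)).2 < y1 ∧ y1 ≤ y2 ∧ y2 ≤ y3 ∧
      y3 < max (ds.2 (j + 1)).2 (dt.2 (j + 1)).2 ∧ T.g y1 = T.g y3 ∧
      T.g y1 + 40 * T.e (j + 1) < T.g y2 := by
    apply T.peak j _ _ min_le_max
    rcases le_total (ds.2 (j + 1)).2 (dt.2 (j + 1)).2 with h | h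
    · rw [min_eq_left h, max_eq_right h, abs_sub_comm]
      exact le_trans (by linarith) (le_abs_self _)
    · rw [min_eq_right h, max_eq_left h]
      exact le_trans (by linarith) (le_abs_self _)
  obtain ⟨d1, n1, f1⟩ := hrange y1 ⟨p1.le, (p2.trans p3).trans p4.le⟩
  obtain ⟨d3, n3, f3⟩ := hrange y3 ⟨(p1.le.trans p2).trans p3, p4.le⟩
  have hC' := T.strip_conn hD d1.1 d3.1
  have hsub : uIcc d1.1 d3.1 ⊆ uIcc s t := uIcc_subset_uIcc n1.2 n3.2
  obtain ⟨d2, n2, f2⟩ := hC'.intermediate_value (a := d1) (b := d3) ⟨n1.1, left_mem_uIcc⟩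
    ⟨n3.1, right_mem_uIcc⟩ hc2.continuousOn
    (show y2 ∈ Icc _ _ from ⟨by rw [f1]; exact p2, by rw [f3]; exact p3⟩)
  have f2' : (d2.2 (j + 1)).2 = y2 := f2
  have n2' : d2 ∈ C := ⟨n2.1, hsub n2.2⟩
  have q13 := key d1 n1 d3 n3
  have q21 := key d2 n2' d1 n1
  have q23 := key d2 n2' d3 n3
  have q31 := key d3 n3 d1 n1
  rw [f1, f3] at q13 q31
  rw [f1, f2'] at q21
  have hb : d2.1 ∈ uIcc d1.1 d3.1 := n2.2
  rcases le_total d1.1 d3.1 with h | h
  · rw [uIcc_of_le h] at hb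
    have a2 : (d2.1 : ℝ) ≤ d3.1 := hb.2
    linarith
  · rw [uIcc_of_ge h] at hb
    have a2 : (d2.1 : ℝ) ≤ d1.1 := hb.2
    linarith

theorem kk_mem_mon {D : Set (I × (ℕ → I × I))} (hD : D ∈ T.Mon) (y0 : I) : T.kk y0 ∈ D := by
  choose d hd h1 h2 using fun j => T.hit hD j y0
  have hk : ∀ j i, i ≤ j → (d j).2 i = T.k y0 := by
    intro j
    have hN := hD.1 (hd j)
    have top : (d j).2 j = T.k y0 := by
      have a := (hN j).1
      have a2 := h1 j
      rw [a] at a2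
      rw [a, T.b_hit j _ ?_, a2]
      rw [a2]
      have b1 := abs_le.1 (hN (j + 1)).2
      have b2 := abs_le.1 (h2 j)
      have := T.estep j
      have := T.epos j
      rw [abs_le]
      constructor <;> linarith [b1.1, b1.2, b2.1, b2.2]
    intro i hi
    induction hi using Nat.decreasingInduction with
    | self => exact top
    | of_succ i _ ih => rw [(hN i).1, ih, T.b_k]
  refine hD.2.1.mem_of_tendsto (f := d) (b := atTop) ?_ (Eventually.of_forall hd)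
  have : d = fun j => ((d j).1, (d j).2) := rfl
  rw [this]
  refine Tendsto.prodMk_nhds ?_ ?_
  · rw [tendsto_subtype_rng]
    show Tendsto (fun j => ((d j).1 : ℝ)) atTop (𝓝 (T.g y0))
    rw [tendsto_iff_dist_tendsto_zero]
    refine squeeze_zero (fun _ => dist_nonneg) (fun j => ?_)
      (tendsto_pow_atTop_nhds_zero_of_lt_one (r := (1 / 2 : ℝ)) (by norm_num) (by norm_num))
    rw [Real.dist_eq]
    linarith [h2 j, T.e_le j, T.epos j]
  · rw [tendsto_pi_nhds]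
    intro i
    refine tendsto_const_nhds.congr' ?_
    filter_upwards [eventually_ge_atTop i] with j hj
    exact (hk j i hj).symm

/-- No monotone closed subset is irreducible. -/
theorem not_irred {D : Set (I × (ℕ → I × I))} (hD : D ∈ T.Mon) (p q : I × (ℕ → I × I))
    (hp : p ∈ D) (hq : q ∈ D) :
    ∃ K ⊆ D, IsClosed K ∧ IsConnected K ∧ p ∈ K ∧ q ∈ K ∧ K ≠ D := by
  have hK : IsConnected (range T.kk) := isConnected_range T.cont_kk
  have hmeet : ∀ t : I, (range T.kk ∩ (D ∩ Prod.fst ⁻¹' {t})).Nonempty := by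
    intro t
    obtain ⟨y, hy⟩ := T.gsurj t
    exact ⟨T.kk y, mem_range_self y, T.kk_mem_mon hD y, Subtype.ext hy⟩
  have hcl : ∀ t : I, IsClosed (D ∩ Prod.fst ⁻¹' {t}) :=
    fun t => hD.2.1.inter (isClosed_singleton.preimage continuous_fst)
  refine ⟨range T.kk ∪ (D ∩ Prod.fst ⁻¹' {p.1}) ∪ (D ∩ Prod.fst ⁻¹' {q.1}), ?_, ?_, ?_,
    Or.inl (Or.inr ⟨hp, rfl⟩), Or.inr ⟨hq, rfl⟩, ?_⟩
  · refine union_subset (union_subset ?_ inter_subset_left) inter_subset_left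
    rintro _ ⟨y, rfl⟩
    exact T.kk_mem_mon hD y
  · exact (((isCompact_range T.cont_kk).isClosed).union (hcl _)).union (hcl _)
  · refine IsConnected.union ?_ (IsConnected.union (hmeet _) hK (hD.2.2 _)) (hD.2.2 _)
    exact (hmeet q.1).mono (inter_subset_inter_left _ subset_union_left)
  · intro hE
    obtain ⟨a, ha⟩ := T.gsurj 0
    obtain ⟨b, hb⟩ := T.gsurj 1
    obtain ⟨y1, y2, y3, -, p2, p3, -, p5, p6⟩ : ∃ y1 y2 y3 : I,
        min a b < y1 ∧ y1 ≤ y2 ∧ y2 ≤ y3 ∧ y3 < max a b ∧ T.g y1 = T.g y3 ∧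
        T.g y1 + 40 * T.e (0 + 1) < T.g y2 := by
      apply T.peak 0 _ _ min_le_max
      rw [T.e0]
      rcases le_total a b with h | h
      · rw [min_eq_left h, max_eq_right h, ha, hb]; norm_num
      · rw [min_eq_right h, max_eq_left h, ha, hb]; norm_num
    have hlt : T.g y1 < T.g y2 := by linarith [T.epos (0 + 1)]
    obtain ⟨l, hl, hl'⟩ := (Ioo_infinite hlt).exists_notMem_finset {(p.1 : ℝ), (q.1 : ℝ)}
    simp only [Finset.mem_insert, Finset.mem_singleton, not_or] at hl'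
    obtain ⟨u, hu, gu⟩ := ivt T.g y1 y2 l (mem_uIcc_of_le hl.1.le hl.2.le)
    obtain ⟨w, hw, gw⟩ := ivt T.g y2 y3 l (mem_uIcc_of_ge (p5 ▸ hl.1.le) hl.2.le)
    rw [uIcc_of_le p2] at hu
    rw [uIcc_of_le p3] at hw
    have hc2 : Continuous (fun w : I × (ℕ → I × I) => (w.2 0).2) := by fun_prop
    obtain ⟨d, hd, ed⟩ := (hD.2.2 (T.kk u).1).2.intermediate_value (a := T.kk u) (b := T.kk w)
      ⟨T.kk_mem_mon hD u, rfl⟩ ⟨T.kk_mem_mon hD w, Subtype.ext (gw.trans gu.symm)⟩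
      hc2.continuousOn (show y2 ∈ Icc u w from ⟨hu.2, hw.1⟩)
    have d1 : (d.1 : ℝ) = l := by
      have : d.1 = (T.kk u).1 := hd.2
      rw [this]; exact gu
    have hdD := hd.1
    rw [← hE] at hdD
    rcases hdD with (⟨y, rfl⟩ | h) | h
    · have : y = y2 := ed
      subst this
      exact hl.2.ne' d1
    · have : d.1 = p.1 := h.2
      exact hl'.1 (by rw [← d1, this])
    · have : d.1 = q.1 := h.2
      exact hl'.2 (by rw [← d1, this])

end Dat
end Pool.Agent.H6.MonoB
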