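import Mathlib

set_option autoImplicit false

open Set Metric Topology unitInterval

namespace Pool.Agent.H6.PM2

theorem stay_lt (φ : ℝ → ℝ) (hφ : Continuous φ) (c : ℝ) (h : ∀ t, φ t ≠ c) (h0 : φ 0 < c) :
    φ 1 < c := by
  by_contra hc
  obtain ⟨t, ht⟩ := intermediate_value_univ 0 1 hφ (show c ∈ Icc (φ 0) (φ 1) from
    ⟨h0.le, not_lt.1 hc⟩)
  exact h t ht

theorem stay_gt (φ : ℝ → ℝ) (hφ : Continuous φ) (c : ℝ) (h : ∀ t, φ t ≠ c) (h0 : c < φ 0) :
    c < φ 1 := by
  by_contra hc
  obtain ⟨t, ht⟩ := intermediate_value_univ 1 0 hφ (show c ∈ Icc (φ 1) (φ 0) from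
    ⟨not_lt.1 hc, h0.le⟩)
  exact h t ht

theorem angle (θ : ℝ × ℝ → ℝ) (hθ : Continuous θ) (h1 : ∀ s, Real.cos (θ (s, 0)) < 0)
    (h2 : ∀ s, 0 < Real.cos (θ (s, 1))) (h3 : ∀ t, Real.sin (θ (0, t)) < 0)
    (h4 : ∀ t, 0 < Real.sin (θ (1, t))) (ha : θ (0, 0) ∈ Ioc (-Real.pi) Real.pi) : False := by
  have pi_pos := Real.pi_pos
  have a1 : θ (0, 0) < 0 := by
    by_contra hc
    exact absurd (Real.sin_nonneg_of_nonneg_of_le_pi (not_lt.1 hc) ha.2) (not_le.2 (h3 0))
  have a2 : θ (0, 0) < -(Real.pi / 2) := by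
    by_contra hc
    exact absurd (Real.cos_nonneg_of_neg_pi_div_two_le_of_le (not_lt.1 hc) (by linarith))
      (not_le.2 (h1 0))
  have b1 : -Real.pi < θ (0, 1) := stay_gt (fun t => θ (0, t)) (by fun_prop) _ (fun t ht => by
    have := h3 t
    rw [ht] at this
    simp at this) ha.1
  have b2 : θ (0, 1) < 0 := stay_lt (fun t => θ (0, t)) (by fun_prop) _ (fun t ht => by
    have := h3 t
    rw [ht] at this
    simp at this) a1
  have b3 : -(Real.pi / 2) < θ (0, 1) := by
    by_contra hc
    have := Real.cos_nonpos_of_pi_div_two_le_of_le (x := -θ (0, 1)) (by linarith) (by linarith)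
    rw [Real.cos_neg] at this
    exact absurd this (not_le.2 (h2 0))
  have c1 : -(Real.pi / 2) < θ (1, 1) := stay_gt (fun s => θ (s, 1)) (by fun_prop) _
    (fun t ht => by
      have := h2 t
      rw [ht] at this
      simp at this) b3
  have d1 : θ (1, 0) < -(Real.pi / 2) := stay_lt (fun s => θ (s, 0)) (by fun_prop) _
    (fun t ht => by
      have := h1 t
      rw [ht] at this
      simp at this) a2
  have d2 : θ (1, 0) < -Real.pi := by
    by_contra hc
    have := Real.sin_nonpos_of_nonpos_of_neg_pi_le (x := θ (1, 0)) (by linarith) (not_lt.1 hc)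
    exact absurd this (not_le.2 (h4 0))
  have c2 : θ (1, 1) < -Real.pi := stay_lt (fun t => θ (1, t)) (by fun_prop) _
    (fun t ht => by
      have := h4 t
      rw [ht] at this
      simp at this) d2
  linarith

/-- Poincare-Miranda in the square -/
theorem pm (u v : I × I → ℝ) (hu : Continuous u) (hv : Continuous v)
    (h1 : ∀ s, u (s, 0) < 0) (h2 : ∀ s, 0 < u (s, 1)) (h3 : ∀ t, v (0, t) < 0)
    (h4 : ∀ t, 0 < v (1, t)) : ∃ z, u z = 0 ∧ v z = 0 := by
  by_contra hn
  push Not at hn
  let c : ℝ × ℝ → I × I := fun z => (projIcc 0 1 zero_le_one z.1, projIcc 0 1 zero_le_one z.2)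
  have hc : Continuous c :=
    (continuous_projIcc.comp continuous_fst).prodMk (continuous_projIcc.comp continuous_snd)
  let g : ℝ × ℝ → ℂ := fun z => (u (c z) : ℂ) + (v (c z) : ℂ) * Complex.I
  have hg : Continuous g := by
    have := hu.comp hc
    have := hv.comp hc
    fun_prop
  have hsc : IsSimplyConnected (univ : Set (ℝ × ℝ)) := by
    have : ContractibleSpace (univ : Set (ℝ × ℝ)) := convex_univ.contractibleSpace univ_nonempty
    exact (inferInstance : SimplyConnectedSpace (univ : Set (ℝ × ℝ)))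
  obtain ⟨f, hf, he⟩ := Complex.exists_continuousOn_eqOn_exp_comp hsc isOpen_univ
    hg.continuousOn (by
      rintro ⟨z, _, hz⟩
      have e1 := congrArg Complex.re hz
      have e2 := congrArg Complex.im hz
      simp [g] at e1 e2
      exact hn _ e1 e2)
  have hf' : Continuous f := continuousOn_univ.1 hf
  have eu : ∀ z, u (c z) = Real.exp (f z).re * Real.cos (f z).im := by
    intro z
    have := congrArg Complex.re (he (mem_univ z))
    simp [g, Complex.exp_re] at this
    exact this.symm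
  have ev : ∀ z, v (c z) = Real.exp (f z).re * Real.sin (f z).im := by
    intro z
    have := congrArg Complex.im (he (mem_univ z))
    simp [g, Complex.exp_im] at this
    exact this.symm
  have two_pi : 0 < 2 * Real.pi := by have := Real.pi_pos; linarith
  let k : ℤ := toIocDiv two_pi (-Real.pi) (f (0, 0)).im
  have c0 : projIcc (0 : ℝ) 1 zero_le_one 0 = 0 := projIcc_left _
  have c1 : projIcc (0 : ℝ) 1 zero_le_one 1 = 1 := projIcc_right _
  refine angle (fun z => (f z).im - k * (2 * Real.pi)) (by fun_prop) (fun s => ?_) (fun s => ?_)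
    (fun s => ?_) (fun s => ?_) ?_
  · rw [Real.cos_sub_int_mul_two_pi]
    have := h1 (projIcc 0 1 zero_le_one s)
    rw [← c0] at this
    have e := eu (s, 0)
    have hp := Real.exp_pos (f (s, 0)).re
    by_contra hc
    have := mul_nonneg hp.le (not_lt.1 hc)
    simp only [c] at e
    linarith
  · rw [Real.cos_sub_int_mul_two_pi]
    have := h2 (projIcc 0 1 zero_le_one s)
    rw [← c1] at this
    have e := eu (s, 1)
    have hp := Real.exp_pos (f (s, 1)).re
    by_contra hc
    have := mul_nonpos_of_nonneg_of_nonpos hp.le (not_lt.1 hc)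
    simp only [c] at e
    linarith
  · rw [Real.sin_sub_int_mul_two_pi]
    have := h3 (projIcc 0 1 zero_le_one s)
    rw [← c0] at this
    have e := ev (0, s)
    have hp := Real.exp_pos (f (0, s)).re
    by_contra hc
    have := mul_nonneg hp.le (not_lt.1 hc)
    simp only [c] at e
    linarith
  · rw [Real.sin_sub_int_mul_two_pi]
    have := h4 (projIcc 0 1 zero_le_one s)
    rw [← c1] at this
    have e := ev (1, s)
    have hp := Real.exp_pos (f (1, s)).re
    by_contra hc
    have := mul_nonpos_of_nonneg_of_nonpos hp.le (not_lt.1 hc)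
    simp only [c] at e
    linarith
  · have := sub_toIocDiv_zsmul_mem_Ioc two_pi (-Real.pi) (f (0, 0)).im
    simp only [zsmul_eq_mul] at this
    refine ⟨this.1, ?_⟩
    have h := this.2
    show (f (0, 0)).im - k * (2 * Real.pi) ≤ Real.pi
    linarith

theorem partition {X : Type} [MetricSpace X] [CompactSpace X] (U : Set X) (hU : IsOpen U)
    (P : I × I → X) (hP : Continuous P) (h1 : ∀ s, P (s, 0) ∈ U) (h2 : ∀ s, P (s, 1) ∉ closure U)
    (h3 : ∀ t t', P (0, t) ≠ P (1, t')) : ¬ HasSmallInductiveDimensionLT (frontier U) 1 := by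
  intro H
  rw [hasSmallInductiveDimensionLT_one_iff] at H
  haveI : CompactSpace (frontier U) := isCompact_iff_compactSpace.1 isClosed_frontier.isCompact
  haveI : TotallySeparatedSpace (frontier U) := totallySeparatedSpace_of_t0_of_basis_clopen H
  let A0 : Set X := range fun t => P (0, t)
  let A1 : Set X := range fun t => P (1, t)
  have hA0 : IsClosed A0 := (isCompact_range (by fun_prop)).isClosed
  have hA1 : IsClosed A1 := (isCompact_range (by fun_prop)).isClosed
  obtain ⟨W, hW, hW0, hW1⟩ := exists_clopen_of_closed_subset_open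
    (Z := (Subtype.val ⁻¹' A0 : Set (frontier U))) (U := (Subtype.val ⁻¹' A1)ᶜ)
    (hA0.preimage continuous_subtype_val) (hA1.preimage continuous_subtype_val).isOpen_compl (by
      rintro x ⟨t, ht⟩ ⟨t', ht'⟩
      exact h3 t t' (ht.trans ht'.symm))
  let B0 : Set X := A0 ∪ Subtype.val '' (W : Set (frontier U))
  let B1 : Set X := A1 ∪ Subtype.val '' (W : Set (frontier U))ᶜ
  have hB0 : IsClosed B0 := hA0.union
    (hW.isClosed.isCompact.image continuous_subtype_val).isClosed
  have hB1 : IsClosed B1 := hA1.union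
    (hW.compl.isClosed.isCompact.image continuous_subtype_val).isClosed
  have hd : ∀ x ∈ B0, x ∉ B1 := by
    rintro x (⟨t, ht⟩ | ⟨y, hy, rfl⟩) (⟨t', ht'⟩ | ⟨y', hy', e⟩)
    · exact h3 t t' (ht.trans ht'.symm)
    · exact hy' (hW0 ⟨t, ht.trans e.symm⟩)
    · exact hW1 hy ⟨t', ht'⟩
    · exact hy' (Subtype.ext e ▸ hy)
  have n0 : B0.Nonempty := ⟨_, Or.inl ⟨0, rfl⟩⟩
  have n1 : B1.Nonempty := ⟨_, Or.inl ⟨0, rfl⟩⟩
  have v0 : ∀ x ∈ B0, infDist x B0 - infDist x B1 < 0 := fun x hx => by
    rw [infDist_zero_of_mem hx]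
    have := (hB1.notMem_iff_infDist_pos n1).1 (hd x hx)
    linarith
  have v1 : ∀ x ∈ B1, 0 < infDist x B0 - infDist x B1 := fun x hx => by
    rw [infDist_zero_of_mem hx]
    have := (hB0.notMem_iff_infDist_pos n0).1 (fun h => hd x h hx)
    linarith
  have nU : U.Nonempty := ⟨_, h1 0⟩
  have nC : Uᶜ.Nonempty := ⟨_, fun h => h2 0 (subset_closure h)⟩
  have u0 : ∀ x ∈ U, infDist x U - infDist x Uᶜ < 0 := fun x hx => by
    rw [infDist_zero_of_mem hx]
    have := (hU.isClosed_compl.notMem_iff_infDist_pos nC).1 (fun h => h hx)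
    linarith
  have u1 : ∀ x ∉ closure U, 0 < infDist x U - infDist x Uᶜ := fun x hx => by
    rw [infDist_zero_of_mem (show x ∈ Uᶜ from fun h => hx (subset_closure h))]
    have := (infDist_pos_iff_notMem_closure nU).1 hx
    linarith
  obtain ⟨z, hz1, hz2⟩ := pm (fun z => infDist (P z) U - infDist (P z) Uᶜ)
    (fun z => infDist (P z) B0 - infDist (P z) B1)
    (((continuous_infDist_pt _).comp hP).sub ((continuous_infDist_pt _).comp hP))
    (((continuous_infDist_pt _).comp hP).sub ((continuous_infDist_pt _).comp hP))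
    (fun s => u0 _ (h1 s)) (fun s => u1 _ (h2 s)) (fun t => v0 _ (Or.inl ⟨t, rfl⟩))
    (fun t => v1 _ (Or.inl ⟨t, rfl⟩))
  have hF : P z ∈ frontier U := by
    rw [hU.frontier_eq]
    refine ⟨?_, fun h => (u0 _ h).ne hz1⟩
    by_contra h
    exact (u1 _ h).ne' hz1
  by_cases hw : (⟨P z, hF⟩ : frontier U) ∈ (W : Set (frontier U))
  · exact (v0 _ (Or.inr ⟨_, hw, rfl⟩)).ne hz2
  · exact (v1 _ (Or.inr ⟨_, hw, rfl⟩)).ne' hz2

theorem dim_finite (Y : Type) [TopologicalSpace Y] [T1Space Y] [Finite Y] :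
    HasSmallInductiveDimensionLT Y 1 := by
  rw [hasSmallInductiveDimensionLT_one_iff]
  have : {s : Set Y | IsClopen s} = {s | IsOpen s} := by
    ext s
    simp [isClopen_discrete]
  rw [this]
  exact TopologicalSpace.isTopologicalBasis_opens

theorem sphere_cases (z w : ℝ × ℝ) (r : ℝ) (h : w ∈ sphere z r) :
    w.1 ∈ ({z.1 + r, z.1 - r} : Set ℝ) ∨ w.2 ∈ ({z.2 + r, z.2 - r} : Set ℝ) := by
  rw [mem_sphere, Prod.dist_eq, Real.dist_eq, Real.dist_eq] at h
  simp only [mem_insert_iff, mem_singleton_iff]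
  rcases max_choice |w.1 - z.1| |w.2 - z.2| with e | e <;> rw [e] at h
  · left
    rcases abs_choice (w.1 - z.1) with e' | e' <;> rw [e'] at h
    · left; linarith
    · right; linarith
  · right
    rcases abs_choice (w.2 - z.2) with e' | e' <;> rw [e'] at h
    · left; linarith
    · right; linarith

theorem dim_lines (Y : Type) [TopologicalSpace Y] (j : Y → ℝ × ℝ) (hj : IsEmbedding j)
    (F1 F2 : Set ℝ) (h1 : F1.Finite) (h2 : F2.Finite) (h : ∀ y, (j y).1 ∈ F1 ∨ (j y).2 ∈ F2) :
    HasSmallInductiveDimensionLT Y 2 := by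
  haveI : T2Space Y := hj.t2Space
  refine .succ 1 {U | ∃ z : ℝ × ℝ, ∃ r, U = j ⁻¹' ball z r ∧ z.1 + r ∉ F1 ∧ z.1 - r ∉ F1 ∧
    z.2 + r ∉ F2 ∧ z.2 - r ∉ F2} ?_ ?_
  · refine TopologicalSpace.isTopologicalBasis_of_isOpen_of_nhds ?_ ?_
    · rintro _ ⟨z, r, rfl, _⟩
      exact isOpen_ball.preimage hj.continuous
    · intro y u hy hu
      obtain ⟨t, ht, rfl⟩ := hj.isInducing.isOpen_iff.1 hu
      obtain ⟨ε, hε, hb⟩ := Metric.isOpen_iff.1 ht _ hy
      have hfin : (((fun a => a - (j y).1) '' F1 ∪ (fun a => (j y).1 - a) '' F1) ∪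
          ((fun a => a - (j y).2) '' F2 ∪ (fun a => (j y).2 - a) '' F2)).Finite :=
        ((h1.image _).union (h1.image _)).union ((h2.image _).union (h2.image _))
      obtain ⟨r, hr, hr'⟩ := ((Ioo_infinite hε).diff hfin).nonempty
      simp only [mem_union, mem_image, not_or, not_exists, not_and] at hr'
      refine ⟨j ⁻¹' ball (j y) r, ⟨j y, r, rfl, fun hc => hr'.1.1 _ hc (by ring),
        fun hc => hr'.1.2 _ hc (by ring), fun hc => hr'.2.1 _ hc (by ring),
        fun hc => hr'.2.2 _ hc (by ring)⟩, mem_ball_self hr.1, ?_⟩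
      exact preimage_mono ((ball_subset_ball hr.2.le).trans hb)
  · rintro _ ⟨z, r, rfl, a1, a2, a3, a4⟩
    have hfin : (frontier (j ⁻¹' ball z r)).Finite := by
      have hT : ((({z.1 + r, z.1 - r} : Set ℝ) ×ˢ F2) ∪
          (F1 ×ˢ ({z.2 + r, z.2 - r} : Set ℝ))).Finite :=
        ((toFinite _).prod h2).union (h1.prod (toFinite _))
      refine (hT.preimage hj.injective.injOn).subset fun y hy => ?_
      have hs : j y ∈ sphere z r :=
        frontier_ball_subset_sphere (hj.continuous.frontier_preimage_subset _ hy)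
      rcases sphere_cases z _ r hs with e | e
      · left
        refine ⟨e, (h y).resolve_left fun hc => ?_⟩
        rcases e with e | e
        · exact a1 (e ▸ hc)
        · exact a2 (e ▸ hc)
      · right
        refine ⟨(h y).resolve_right fun hc => ?_, e⟩
        rcases e with e | e
        · exact a3 (e ▸ hc)
        · exact a4 (e ▸ hc)
    haveI := hfin.to_subtype
    exact dim_finite _

end Pool.Agent.H6.PM2
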