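import Mathlib

namespace Pool.Agent.H6.Pick

open Complex Metric Finset Filter Topology
open scoped ComplexConjugate

theorem one_sub_ne {a z : ℂ} (ha : ‖a‖ < 1) (hz : ‖z‖ ≤ 1) : 1 - conj a * z ≠ 0 := by
  intro h
  have h1 : ‖conj a * z‖ = 1 := by rw [← sub_eq_zero.1 h, norm_one]
  rw [norm_mul, norm_conj] at h1
  nlinarith [norm_nonneg a, norm_nonneg z]

variable {ι : Type} [Fintype ι]

noncomputable def kk (l d : ι → ℂ) (z : ℂ) : ℂ := ∑ j, conj (d j) / (1 - conj (l j) * z)

theorem kk_diff {l : ι → ℂ} (hl : ∀ i, ‖l i‖ < 1) (d : ι → ℂ) :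
    DiffContOnCl ℂ (kk l d) (ball 0 1) := by
  apply DifferentiableOn.diffContOnCl
  rw [closure_ball _ one_ne_zero]
  intro z hz
  refine DifferentiableAt.differentiableWithinAt ?_
  refine DifferentiableAt.fun_sum fun j _ => ?_
  exact (differentiableAt_const _).div (by fun_prop) (one_sub_ne (hl j) (by simpa using hz))

theorem rep {l : ι → ℂ} (hl : ∀ i, ‖l i‖ < 1) (d : ι → ℂ) {F : ℂ → ℂ}
    (hF : DiffContOnCl ℂ F (ball 0 1)) :
    Real.circleAverage (fun z => F z * conj (kk l d z)) 0 1 = ∑ j, d j * F (l j) := by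
  have hF' : DiffContOnCl ℂ F (ball 0 |1|) := by rwa [abs_one]
  have hc : ContinuousOn F (sphere 0 1) := hF.continuousOn_ball.mono sphere_subset_closedBall
  have hne : ∀ j, ∀ z ∈ sphere (0:ℂ) 1, z - l j ≠ 0 := by
    intro j z hz h
    have := hl j
    rw [← sub_eq_zero.1 h, mem_sphere_zero_iff_norm.1 hz] at this
    exact lt_irrefl _ this
  have h1 : Set.EqOn (fun z => F z * conj (kk l d z))
      (fun z => ∑ j, d j • (((z - 0) / (z - l j)) • F z)) (sphere 0 |1|) := by
    intro z hz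
    rw [abs_one] at hz
    have hz1 : ‖z‖ = 1 := mem_sphere_zero_iff_norm.1 hz
    have hz0 : z ≠ 0 := by rintro rfl; simp at hz1
    simp only [kk, map_sum, mul_sum, map_div₀, conj_conj, map_sub, map_one, map_mul, smul_eq_mul,
      sub_zero]
    refine sum_congr rfl fun j _ => ?_
    rw [← inv_eq_conj hz1]
    have := hne j z hz
    field_simp
  rw [Real.circleAverage_congr_sphere h1, Real.circleAverage_fun_sum]
  · refine sum_congr rfl fun j _ => ?_
    rw [Real.circleAverage_fun_smul, hF'.circleAverage_smul_div (by simpa using hl j), smul_eq_mul]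
  · intro j _
    refine ContinuousOn.circleIntegrable zero_le_one ?_
    have h9 : ContinuousOn (fun z : ℂ => (z - 0) / (z - l j)) (sphere 0 1) :=
      ContinuousOn.div (by fun_prop) (by fun_prop) (hne j)
    exact (h9.smul hc).const_smul (d j)

theorem pick0 {l : ι → ℂ} (hl : ∀ i, ‖l i‖ < 1) (c : ι → ℂ) {g : ℂ → ℂ}
    (hg : DiffContOnCl ℂ g (ball 0 1)) (hb : ∀ z ∈ sphere (0:ℂ) 1, ‖g z‖ ≤ 1) :
    0 ≤ (∑ i, ∑ j, c i * conj (c j) * (1 - g (l i) * conj (g (l j))) /
      (1 - conj (l j) * l i)).re := by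
  have hk := kk_diff hl c
  have hm := kk_diff hl (fun i => c i * g (l i))
  set k := kk l c
  set m := kk l (fun i => c i * g (l i))
  have ci : ∀ {F G : ℂ → ℂ}, DiffContOnCl ℂ F (ball 0 1) → DiffContOnCl ℂ G (ball 0 1) →
      CircleIntegrable (fun z => F z * conj (G z)) 0 1 := fun hF hG =>
    ContinuousOn.circleIntegrable zero_le_one
      ((hF.continuousOn_ball.mono sphere_subset_closedBall).mul
        (continuous_conj.comp_continuousOn (hG.continuousOn_ball.mono sphere_subset_closedBall)))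
  have hgm : DiffContOnCl ℂ (fun z => g z * m z) (ball 0 1) := ⟨hg.1.mul hm.1, hg.2.mul hm.2⟩
  have h1 := rep hl c hk
  have h2 := rep hl c hgm
  have h3 := rep hl (fun i => c i * g (l i)) hm
  have h4 : Real.circleAverage ((fun z => k z * conj (k z)) -
      (fun z => g z * m z * conj (k z)) - (fun z => g z * m z * conj (k z)) +
      fun z => m z * conj (m z)) 0 1 =
      ∑ i, ∑ j, c i * conj (c j) * (1 - g (l i) * conj (g (l j))) / (1 - conj (l j) * l i) := by
    rw [Real.circleAverage_add (((ci hk hk).sub (ci hgm hk)).sub (ci hgm hk)) (ci hm hm),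
      Real.circleAverage_sub ((ci hk hk).sub (ci hgm hk)) (ci hgm hk),
      Real.circleAverage_sub (ci hk hk) (ci hgm hk), h1, h2, h3,
      ← sum_sub_distrib, ← sum_sub_distrib, ← sum_add_distrib]
    refine sum_congr rfl fun i _ => ?_
    simp only [k, m, kk, mul_sum, ← sum_sub_distrib, ← sum_add_distrib, map_mul]
    refine sum_congr rfl fun j _ => ?_
    ring
  rw [← h4]
  have h5 := reCLM.circleAverage_comp_comm (c := 0) (R := 1)
    ((((ci hk hk).sub (ci hgm hk)).sub (ci hgm hk)).add (ci hm hm))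
  have h6 : 0 ≤ Real.circleAverage (reCLM ∘ ((fun z => k z * conj (k z)) -
      (fun z => g z * m z * conj (k z)) - (fun z => g z * m z * conj (k z)) +
      fun z => m z * conj (m z))) 0 1 := by
    refine Real.circleAverage_nonneg_of_nonneg fun z hz => ?_
    rw [abs_one] at hz
    simp only [Function.comp, Pi.add_apply, Pi.sub_apply, reCLM_apply, add_re, sub_re, mul_conj,
      ofReal_re, normSq_eq_norm_sq]
    have h7 : (g z * m z * conj (k z)).re ≤ ‖m z‖ * ‖k z‖ := by
      refine (re_le_norm _).trans ?_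
      rw [norm_mul, norm_mul, norm_conj]
      have := hb z hz
      have := mul_le_mul_of_nonneg_right this (norm_nonneg (m z))
      nlinarith [norm_nonneg (k z)]
    nlinarith [sq_nonneg (‖m z‖ - ‖k z‖)]
  rw [h5] at h6
  exact h6

theorem pick {l : ι → ℂ} (hl : ∀ i, ‖l i‖ < 1) (c : ι → ℂ) {g : ℂ → ℂ}
    (hg : DifferentiableOn ℂ g (ball 0 1)) (hb : ∀ z ∈ ball (0:ℂ) 1, ‖g z‖ ≤ 1) :
    0 ≤ (∑ i, ∑ j, c i * conj (c j) * (1 - g (l i) * conj (g (l j))) /
      (1 - conj (l j) * l i)).re := by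
  have hc : ∀ i, Tendsto (fun r : ℝ => g (r * l i)) (𝓝[<] 1) (𝓝 (g (l i))) := by
    intro i
    have h1 : ContinuousAt g (l i) :=
      hg.continuousOn.continuousAt (isOpen_ball.mem_nhds (by simpa using hl i))
    have h2 : Tendsto (fun r : ℝ => (r : ℂ) * l i) (𝓝 1) (𝓝 (l i)) := by
      have : Continuous fun r : ℝ => (r : ℂ) * l i := by fun_prop
      simpa using this.tendsto 1
    exact (h1.tendsto.comp h2).mono_left nhdsWithin_le_nhds
  have h3 : Tendsto (fun r : ℝ => (∑ i, ∑ j, c i * conj (c j) *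
      (1 - g (r * l i) * conj (g (r * l j))) / (1 - conj (l j) * l i)).re) (𝓝[<] 1)
      (𝓝 (∑ i, ∑ j, c i * conj (c j) * (1 - g (l i) * conj (g (l j))) /
        (1 - conj (l j) * l i)).re) :=
    (continuous_re.tendsto _).comp (tendsto_finsetSum _ fun i _ => tendsto_finsetSum _ fun j _ =>
      ((((hc i).mul ((continuous_conj.tendsto _).comp (hc j))).const_sub 1).const_mul _).div_const _)
  refine ge_of_tendsto h3 ?_
  filter_upwards [Ioo_mem_nhdsLT (zero_lt_one' ℝ)] with r hr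
  have hm : ∀ z ∈ closedBall (0:ℂ) 1, (r : ℂ) * z ∈ ball (0:ℂ) 1 := by
    intro z hz
    rw [mem_ball_zero_iff, norm_mul, norm_real, Real.norm_eq_abs, abs_of_pos hr.1]
    have := mem_closedBall_zero_iff.1 hz
    nlinarith [hr.1, hr.2]
  refine pick0 hl c (g := fun z => g (r * z)) ?_ fun z hz => hb _ (hm z (sphere_subset_closedBall hz))
  apply DifferentiableOn.diffContOnCl
  rw [closure_ball _ one_ne_zero]
  exact hg.comp (by fun_prop) hm

noncomputable def ph (s : ℂ) : ℂ := (s - 1) / (s + 1)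

theorem add_one_ne {s : ℂ} (hs : 0 < s.re) : s + 1 ≠ 0 := by
  intro h
  have := congrArg re h
  simp at this
  linarith

theorem ph_sq {s : ℂ} (hs : 0 < s.re) : 1 - ‖ph s‖ ^ 2 = 4 * s.re / ‖s + 1‖ ^ 2 := by
  have := norm_pos_iff.2 (add_one_ne hs)
  rw [ph, norm_div, div_pow]
  field_simp
  simp only [← normSq_eq_norm_sq, normSq_apply, add_re, one_re, add_im, one_im, sub_re, sub_im]
  ring

theorem ph_lt {s : ℂ} (hs : 0 < s.re) : ‖ph s‖ < 1 := by
  have h1 := ph_sq hs
  have := norm_pos_iff.2 (add_one_ne hs)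
  have h2 : 0 < 4 * s.re / ‖s + 1‖ ^ 2 := by positivity
  nlinarith [norm_nonneg (ph s)]

theorem add_conj_ne {s t : ℂ} (hs : 0 < s.re) (ht : 0 < t.re) : s + conj t ≠ 0 := by
  intro h
  have := congrArg re h
  simp at this
  linarith

theorem pickH {s : ι → ℂ} (hs : ∀ i, 0 < (s i).re) (c : ι → ℂ) {g : ℂ → ℂ}
    (hg : DifferentiableOn ℂ g (ball 0 1)) (hb : ∀ z ∈ ball (0:ℂ) 1, ‖g z‖ ≤ 1) :
    0 ≤ (∑ i, ∑ j, c i * conj (c j) * (1 - g (ph (s i)) * conj (g (ph (s j)))) /
      (s i + conj (s j))).re := by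
  have h := pick (l := fun i => ph (s i)) (fun i => ph_lt (hs i)) (fun i => c i / (s i + 1)) hg hb
  have h2 : ∑ i, ∑ j, c i * conj (c j) * (1 - g (ph (s i)) * conj (g (ph (s j)))) /
      (s i + conj (s j)) = 2 * ∑ i, ∑ j, c i / (s i + 1) * conj (c j / (s j + 1)) *
        (1 - g (ph (s i)) * conj (g (ph (s j)))) / (1 - conj (ph (s j)) * ph (s i)) := by
    simp only [mul_sum]
    refine sum_congr rfl fun i _ => sum_congr rfl fun j _ => ?_
    have a1 := add_one_ne (hs i)
    have a2 : conj (s j) + 1 ≠ 0 := add_one_ne (by simpa using hs j)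
    have a3 := add_conj_ne (hs i) (hs j)
    have a4 : 1 - conj (ph (s j)) * ph (s i) =
        2 * (s i + conj (s j)) / ((s i + 1) * (conj (s j) + 1)) := by
      simp only [ph, map_div₀, map_sub, map_add, map_one]
      field_simp
      ring
    rw [a4]
    simp only [map_div₀, map_add, map_one]
    field_simp
  rw [h2]
  simpa using h

theorem pickCS {s : ι → ℂ} (hs : ∀ i, 0 < (s i).re) (c : ι → ℂ) {g : ℂ → ℂ}
    (hg : DifferentiableOn ℂ g (ball 0 1)) (hb : ∀ z ∈ ball (0:ℂ) 1, ‖g z‖ ≤ 1)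
    {w : ℂ} (hw : 0 < w.re) :
    w.re * ‖∑ i, c i * (1 - g (ph (s i)) * conj (g (ph w))) / (s i + conj w)‖ ^ 2 ≤
    (∑ i, ∑ j, c i * conj (c j) * (1 - g (ph (s i)) * conj (g (ph (s j)))) /
      (s i + conj (s j))).re := by
  set L := ∑ i, c i * (1 - g (ph (s i)) * conj (g (ph w))) / (s i + conj w) with hL
  have h := pickH (ι := Option ι) (s := fun o => o.elim w s) (fun o => by cases o; exact hw; exact hs _)
    (fun o => o.elim (-(w.re : ℂ) * L) c) hg hb
  simp only [Fintype.sum_option, Option.elim_none, Option.elim_some, sum_add_distrib] at h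
  have h1 : ∑ j, -(w.re : ℂ) * L * conj (c j) * (1 - g (ph w) * conj (g (ph (s j)))) /
      (w + conj (s j)) = -(w.re : ℂ) * (L * conj L) := by
    conv_rhs => rw [← mul_assoc]; congr; rfl; rw [hL]
    simp only [map_sum, mul_sum, map_div₀, map_mul, map_sub, map_one, map_add, conj_conj]
    exact sum_congr rfl fun j _ => by ring
  have h2 : ∑ j, c j * conj (-(w.re : ℂ) * L) * (1 - g (ph (s j)) * conj (g (ph w))) /
      (s j + conj w) = -(w.re : ℂ) * (L * conj L) := by
    conv_rhs => rw [mul_comm L, ← mul_assoc]; congr; rfl; rw [hL]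
    simp only [mul_sum, map_mul, map_neg, conj_ofReal]
    exact sum_congr rfl fun j _ => by ring
  have h3 : -(w.re : ℂ) * L * conj (-(w.re : ℂ) * L) * (1 - g (ph w) * conj (g (ph w))) /
      (w + conj w) = ((w.re * ‖L‖ ^ 2 * (1 - ‖g (ph w)‖ ^ 2) / 2 : ℝ) : ℂ) := by
    have : (w.re : ℂ) ≠ 0 := by exact_mod_cast hw.ne'
    rw [add_conj, mul_conj, mul_conj, normSq_eq_norm_sq, normSq_eq_norm_sq, norm_mul, norm_neg,
      norm_real, Real.norm_eq_abs, abs_of_pos hw]
    push_cast
    field_simp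
  rw [h1, h2, h3, mul_conj, normSq_eq_norm_sq] at h
  simp only [add_re, ofReal_re, neg_mul, neg_re, ← ofReal_mul] at h
  have : 0 ≤ w.re * ‖L‖ ^ 2 * ‖g (ph w)‖ ^ 2 := by positivity
  have : 0 ≤ w.re * ‖L‖ ^ 2 := by positivity
  nlinarith

end Pool.Agent.H6.Pick
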