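import Mathlib

namespace Pool.Agent.H6.PrimeA

open Finset Complex

noncomputable def e (x : ℝ) : ℂ := Complex.exp (2 * Real.pi * I * x)

lemma e_add (x y : ℝ) : e (x + y) = e x * e y := by
  unfold e; rw [← Complex.exp_add]; push_cast; ring_nf

lemma e_zero : e 0 = 1 := by simp [e]

lemma e_int (n : ℤ) : e n = 1 := by
  unfold e
  have := Complex.exp_int_mul_two_pi_mul_I n
  rw [← this]; push_cast; ring_nf

lemma norm_e (x : ℝ) : ‖e x‖ = 1 := by
  unfold e
  have : (2 * Real.pi * I * x : ℂ) = ((2 * Real.pi * x : ℝ) : ℂ) * I := by push_cast; ring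
  rw [this, Complex.norm_exp_ofReal_mul_I]

lemma conj_e (x : ℝ) : (starRingEnd ℂ) (e x) = e (-x) := by
  unfold e
  rw [← Complex.exp_conj]
  simp [map_ofNat]

lemma e_nat_mul (n : ℕ) (x : ℝ) : e (n * x) = e x ^ n := by
  unfold e; rw [← Complex.exp_nat_mul]; push_cast; ring_nf

@[fun_prop] lemma cont_e : Continuous e := by
  unfold e; fun_prop

lemma int_e (h : ℤ) (c : ℝ) : ∫ θ in c..c + 1, e (h * θ) = if h = 0 then 1 else 0 := by
  split_ifs with h0
  · simp [h0, e_zero]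
  · have hc : (2 * Real.pi * I * h : ℂ) ≠ 0 := by
      simp [h0, Real.pi_ne_zero]
    have : ∀ θ : ℝ, e (h * θ) = Complex.exp ((2 * Real.pi * I * h : ℂ) * θ) := fun θ => by
      unfold e; push_cast; ring_nf
    simp only [this]
    rw [integral_exp_mul_complex hc, ← this, ← this, mul_add, e_add, mul_one, e_int]
    simp

lemma parseval {ι : Type} [DecidableEq ι] (S : Finset ι) (φ : ι → ℤ) (c : ℝ) :
    ∫ θ in c..c + 1, ‖∑ i ∈ S, e (φ i * θ)‖ ^ 2 =
      (((S ×ˢ S).filter fun p => φ p.1 = φ p.2).card : ℝ) := by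
  have h1 : ∀ θ : ℝ, ((‖∑ i ∈ S, e (φ i * θ)‖ ^ 2 : ℝ) : ℂ) =
      ∑ p ∈ S ×ˢ S, e (((φ p.1 - φ p.2 : ℤ) : ℝ) * θ) := fun θ => by
    rw [← Complex.normSq_eq_norm_sq, ← Complex.mul_conj, map_sum, Finset.sum_mul_sum,
      Finset.sum_product]
    refine sum_congr rfl fun i _ => sum_congr rfl fun j _ => ?_
    rw [conj_e, ← e_add]; push_cast; ring_nf
  apply Complex.ofReal_injective
  rw [← intervalIntegral.integral_ofReal]
  simp only [h1]
  rw [intervalIntegral.integral_finset_sum fun p _ =>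
    (by fun_prop : Continuous fun θ : ℝ => e (((φ p.1 - φ p.2 : ℤ) : ℝ) * θ)).intervalIntegrable _ _]
  simp only [int_e, sub_eq_zero]
  rw [Finset.card_filter]
  push_cast
  refine sum_congr rfl fun p _ => ?_
  split_ifs <;> simp

/-- The exponential sum of a finite set of naturals. -/
noncomputable def F (A : Finset ℕ) (θ : ℝ) : ℂ := ∑ a ∈ A, e (a * θ)

@[fun_prop] lemma cont_F (A : Finset ℕ) : Continuous (F A) := by
  unfold F; fun_prop

lemma int_F (A : Finset ℕ) (c : ℝ) : ∫ θ in c..c + 1, ‖F A θ‖ ^ 2 = A.card := by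
  have := parseval A (fun a => (a : ℤ)) c
  simp only [Int.cast_natCast] at this
  unfold F
  rw [this]
  congr 1
  symm
  apply Finset.card_bij (fun a _ => (a, a))
  · intro a ha; simp [ha]
  · intro a _ b _ h; exact (Prod.mk.inj h).1
  · rintro ⟨a, b⟩ h
    simp only [mem_filter, mem_product, Nat.cast_inj] at h
    exact ⟨a, h.1.1, by simp [h.2]⟩

lemma fejer (A : Finset ℕ) (H : ℕ) (c : ℝ) :
    (H : ℝ) * (((A ×ˢ A).filter fun p => p.1 < p.2 ∧ p.2 ≤ p.1 + H).card : ℝ) ≤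
      ∫ θ in c..c + 1, ‖F A θ‖ ^ 2 * ‖F (range (2 * H)) θ‖ ^ 2 := by
  have h1 : ∀ θ : ℝ, ‖F A θ‖ ^ 2 * ‖F (range (2 * H)) θ‖ ^ 2 =
      ‖∑ p ∈ A ×ˢ range (2 * H), e (((p.1 + p.2 : ℕ) : ℤ) * θ)‖ ^ 2 := fun θ => by
    rw [← mul_pow, ← norm_mul, F, F, Finset.sum_mul_sum, Finset.sum_product]
    congr 2
    refine sum_congr rfl fun i _ => sum_congr rfl fun j _ => ?_
    rw [← e_add]; push_cast; ring_nf
  simp only [h1]
  rw [parseval]
  have : (range H ×ˢ ((A ×ˢ A).filter fun p => p.1 < p.2 ∧ p.2 ≤ p.1 + H)).card ≤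
      (((A ×ˢ range (2 * H)) ×ˢ (A ×ˢ range (2 * H))).filter
        fun p => ((p.1.1 + p.1.2 : ℕ) : ℤ) = ((p.2.1 + p.2.2 : ℕ) : ℤ)).card := by
    apply Finset.card_le_card_of_injOn
      (fun x => ((x.2.1, x.1 + (x.2.2 - x.2.1)), (x.2.2, x.1)))
    · rintro ⟨n, a, b⟩ hx
      simp only [coe_product, Set.mem_prod, mem_coe, mem_range, mem_filter, mem_product,
        Nat.cast_inj] at hx ⊢
      obtain ⟨h1, ⟨h2, h3⟩, h4, h5⟩ := hx
      refine ⟨⟨⟨h2, by omega⟩, h3, by omega⟩, by omega⟩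
    · rintro ⟨n, a, b⟩ _ ⟨n', a', b'⟩ _ h
      simp only [Prod.mk.injEq] at h ⊢
      omega
  rw [card_product, card_range] at this
  exact_mod_cast this

lemma norm_D_le (L : ℕ) (θ : ℝ) : ‖F (range L) θ‖ ≤ L := by
  refine (norm_sum_le _ _).trans ?_
  simp [norm_e]

lemma norm_D_le' (L : ℕ) {θ : ℝ} (hθ : |θ| ≤ 1 / 2) : ‖F (range L) θ‖ * (2 * |θ|) ≤ 1 := by
  have h1 : F (range L) θ * (e θ - 1) = e θ ^ L - 1 := by
    unfold F
    simp only [e_nat_mul]
    exact geom_sum_mul _ _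
  have h2 : ‖e θ ^ L - 1‖ ≤ 2 := by
    refine (norm_sub_le _ _).trans ?_
    rw [norm_pow, norm_e]; norm_num
  have h3 : 4 * |θ| ≤ ‖e θ - 1‖ := by
    have : e θ = Complex.exp (I * ((2 * Real.pi * θ : ℝ) : ℂ)) := by
      unfold e; push_cast; ring_nf
    rw [this, Complex.norm_exp_I_mul_ofReal_sub_one]
    have hp := Real.pi_pos
    have h4 : |2 * Real.pi * θ / 2| = Real.pi * |θ| := by
      rw [show 2 * Real.pi * θ / 2 = Real.pi * θ by ring, abs_mul, abs_of_pos hp]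
    have h5 := Real.mul_abs_le_abs_sin (x := 2 * Real.pi * θ / 2) (by rw [h4]; nlinarith)
    rw [h4, show 2 / Real.pi * (Real.pi * |θ|) = 2 * |θ| by field_simp] at h5
    rw [Real.norm_eq_abs, abs_mul, abs_two]
    linarith
  rw [← h1, norm_mul] at h2
  nlinarith [norm_nonneg (F (range L) θ)]

/-- The kernel. -/
noncomputable def K (n : ℕ) (θ : ℝ) : ℝ := ∑ i ∈ range n, ‖F (range (2 * 2 ^ i)) θ‖ ^ 2 / 4 ^ i

lemma term_le (i : ℕ) (θ : ℝ) : ‖F (range (2 * 2 ^ i)) θ‖ ^ 2 / 4 ^ i ≤ 4 := by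
  rw [div_le_iff₀ (by positivity)]
  have h := norm_D_le (2 * 2 ^ i) θ
  have h2 : (4 : ℝ) * 4 ^ i = ((2 * 2 ^ i : ℕ) : ℝ) ^ 2 := by
    push_cast
    rw [mul_pow, ← pow_mul, mul_comm i 2, pow_mul]; norm_num
  rw [h2]
  exact pow_le_pow_left₀ (norm_nonneg _) h 2

lemma K_le (n : ℕ) (θ : ℝ) : K n θ ≤ 4 * n := by
  refine (sum_le_card_nsmul _ _ 4 fun i _ => term_le i θ).trans ?_
  simp [mul_comm]

lemma K_le' (n m : ℕ) {θ : ℝ} (h1 : |θ| ≤ 1 / 2) (h2 : 1 / 2 ^ m ≤ |θ|) : K n θ ≤ 4 * m + 1 := by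
  have h3 : K n θ ≤ K (m + n) θ :=
    sum_le_sum_of_subset_of_nonneg (range_subset_range.2 (by omega)) fun _ _ _ => by positivity
  refine h3.trans ?_
  unfold K
  rw [Finset.sum_range_add]
  have h4 := K_le m θ
  unfold K at h4
  have h5 : ∑ j ∈ range n, ‖F (range (2 * 2 ^ (m + j))) θ‖ ^ 2 / 4 ^ (m + j) ≤
      ∑ j ∈ range n, (1 / 4 : ℝ) * (1 / 2) ^ j := by
    refine sum_le_sum fun j _ => ?_
    have h6 := norm_D_le' (2 * 2 ^ (m + j)) h1
    set x := ‖F (range (2 * 2 ^ (m + j))) θ‖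
    have hx : 0 ≤ x := norm_nonneg _
    have hm : (0 : ℝ) < 2 ^ m := by positivity
    have h7 : 2 * x ≤ 2 ^ m := by
      rw [div_le_iff₀ hm] at h2
      nlinarith [mul_le_mul_of_nonneg_left h2 hx, mul_le_mul_of_nonneg_right h6 hm.le]
    have h8 : (4 : ℝ) ^ (m + j) = (2 ^ m) ^ 2 * (2 ^ j) ^ 2 := by
      rw [← mul_pow, ← pow_add, ← pow_mul, mul_comm _ 2, pow_mul]; norm_num
    have hj : (1 : ℝ) ≤ 2 ^ j := one_le_pow₀ (by norm_num)
    rw [h8, div_le_iff₀ (by positivity), one_div_pow]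
    have h9 : 1 / 4 * (1 / 2 ^ j) * ((2 ^ m) ^ 2 * (2 ^ j) ^ 2) =
        (1 / 4 : ℝ) * (2 ^ m) ^ 2 * 2 ^ j := by field_simp
    rw [h9]
    have h10 : (2 * x) ^ 2 ≤ (2 ^ m) ^ 2 := pow_le_pow_left₀ (by positivity) h7 2
    nlinarith [sq_nonneg ((2 : ℝ) ^ m)]
  rw [← Finset.mul_sum] at h5
  have := sum_geometric_two_le n
  linarith

@[fun_prop] lemma cont_K (n : ℕ) : Continuous (K n) := by
  unfold K; fun_prop

/-- The reciprocal sum over pairs. -/
noncomputable def S (A : Finset ℕ) : ℝ :=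
  ∑ p ∈ A, ∑ q ∈ A.filter (fun q => p < q), (1 : ℝ) / ((q : ℝ) - (p : ℝ))

lemma S_le (A : Finset ℕ) (n : ℕ) (hA : ∀ a ∈ A, a ≤ 2 ^ n) (c : ℝ) :
    S A ≤ 2 * ∫ θ in c..c + 1, ‖F A θ‖ ^ 2 * K (n + 1) θ := by
  have h1 : S A ≤ ∑ i ∈ range (n + 1), 2 / 2 ^ i *
      (((A ×ˢ A).filter fun p => p.1 < p.2 ∧ p.2 ≤ p.1 + 2 ^ i).card : ℝ) := by
    simp only [S, Finset.sum_filter, Finset.card_filter, Nat.cast_sum, Finset.mul_sum,
      Finset.sum_product]
    rw [Finset.sum_comm (s := range (n + 1))]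
    refine sum_le_sum fun p _ => ?_
    rw [Finset.sum_comm (s := range (n + 1))]
    refine sum_le_sum fun q hq => ?_
    split_ifs with hpq
    · obtain ⟨h, rfl⟩ := Nat.exists_eq_add_of_lt hpq
      have hq' := hA _ hq
      have hi : Nat.clog 2 (h + 1) ≤ n := (Nat.clog_le_iff_le_pow (by norm_num)).2 (by omega)
      have h2 : h + 1 ≤ 2 ^ Nat.clog 2 (h + 1) := Nat.le_pow_clog (by norm_num) _
      have h3 : 2 ^ Nat.clog 2 (h + 1) ≤ 2 * (h + 1) := by
        rcases Nat.eq_zero_or_pos h with rfl | hh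
        · simp
        · have h4 := Nat.pow_pred_clog_lt_self (b := 2) (by norm_num) (x := h + 1) (by omega)
          have h5 : 0 < Nat.clog 2 (h + 1) := Nat.clog_pos (by norm_num) (by omega)
          obtain ⟨k, hk⟩ := Nat.exists_eq_succ_of_ne_zero h5.ne'
          rw [hk] at h4 ⊢
          simp only [Nat.succ_eq_add_one, Nat.pred_eq_sub_one, Nat.add_sub_cancel] at h4
          rw [Nat.succ_eq_add_one, pow_succ]; omega
      refine le_trans ?_ (single_le_sum (f := fun i => (2 : ℝ) / 2 ^ i *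
        ((if p < p + h + 1 ∧ p + h + 1 ≤ p + 2 ^ i then 1 else 0 : ℕ) : ℝ))
        (fun _ _ => by positivity) (mem_range.2 (Nat.lt_succ_of_le hi)))
      rw [if_pos ⟨hpq, by omega⟩]
      have h6 : ((p + h + 1 : ℕ) : ℝ) - p = h + 1 := by push_cast; ring
      rw [h6, Nat.cast_one, mul_one, div_le_div_iff₀ (by positivity) (by positivity), one_mul]
      exact_mod_cast h3
    · exact sum_nonneg fun _ _ => by positivity
  refine h1.trans ?_
  simp only [K, Finset.mul_sum]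
  rw [intervalIntegral.integral_finset_sum fun i _ =>
    (by fun_prop : Continuous fun θ : ℝ =>
      ‖F A θ‖ ^ 2 * (‖F (range (2 * 2 ^ i)) θ‖ ^ 2 / 4 ^ i)).intervalIntegrable _ _,
    Finset.mul_sum]
  refine sum_le_sum fun i _ => ?_
  have h2 := fejer A (2 ^ i) c
  simp only [← mul_div_assoc]
  rw [intervalIntegral.integral_div]
  have h8 : (4 : ℝ) ^ i = 2 ^ i * 2 ^ i := by rw [← mul_pow]; norm_num
  push_cast at h2
  rw [h8, ← mul_div_assoc, div_mul_eq_mul_div, div_le_div_iff₀ (by positivity) (by positivity)]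
  have : (0 : ℝ) < 2 ^ i := by positivity
  nlinarith

lemma ramanujan {q a : ℕ} (hq : 0 < q) (h : a.Coprime q) :
    ∑ b ∈ (range q).filter (fun b => b.Coprime q), e (a * (b / q)) =
      (ArithmeticFunction.moebius q : ℂ) := by
  have hz : IsPrimitiveRoot (e (a / q)) q := by
    have := Complex.isPrimitiveRoot_exp_of_coprime a q hq.ne' h
    unfold e; push_cast; exact this
  have h1 : ∀ b : ℕ, e (a * (b / q)) = e (a / q) ^ b := fun b => by
    rw [← e_nat_mul]; congr 1; ring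
  simp only [h1]
  set z := e (a / q)
  have h2 : ∀ b : ℕ, (if b.Coprime q then z ^ b else 0) =
      ∑ d ∈ q.divisors, if d ∣ b then (ArithmeticFunction.moebius d : ℂ) * z ^ b else 0 := by
    intro b
    rw [← Finset.sum_filter, ← Finset.sum_mul]
    have h3 : q.divisors.filter (fun d => d ∣ b) = (Nat.gcd b q).divisors := by
      ext d
      simp only [mem_filter, Nat.mem_divisors, Nat.dvd_gcd_iff]
      have := (Nat.gcd_pos_of_pos_right b hq).ne'
      have := hq.ne'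
      tauto
    have h4 := congrArg (fun f : ArithmeticFunction ℤ => f (Nat.gcd b q))
      ArithmeticFunction.moebius_mul_coe_zeta
    simp only [ArithmeticFunction.coe_mul_zeta_apply, ArithmeticFunction.one_apply] at h4
    rw [h3, ← Int.cast_sum, h4]
    by_cases hb : b.Coprime q
    · rw [if_pos hb, if_pos hb]; simp
    · rw [if_neg hb, if_neg hb]; simp
  rw [Finset.sum_filter]
  simp only [h2]
  rw [Finset.sum_comm, Finset.sum_eq_single q]
  · rw [Finset.sum_eq_single 0]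
    · simp
    · intro b hb hb0
      rw [if_neg]
      exact fun hd => absurd (Nat.le_of_dvd (Nat.pos_of_ne_zero hb0) hd) (by simpa using hb)
    · intro h0; exact absurd (mem_range.2 hq) h0
  · intro d hd hdq
    obtain ⟨k, hk⟩ := Nat.dvd_of_mem_divisors hd
    have hd0 : 0 < d := Nat.pos_of_mem_divisors hd
    have hk1 : 1 < k := by
      rcases k with _ | _ | k
      · omega
      · omega
      · omega
    have h5 := (hz.pow hq hk).geom_sum_eq_zero hk1
    rw [← Finset.sum_filter, ← Finset.mul_sum]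
    have h6 : ∑ b ∈ (range q).filter (fun b => d ∣ b), z ^ b = ∑ c ∈ range k, (z ^ d) ^ c := by
      symm
      apply Finset.sum_bij (fun c _ => d * c)
      · intro c hc
        simp only [mem_filter, mem_range] at hc ⊢
        exact ⟨hk ▸ Nat.mul_lt_mul_of_pos_left hc hd0, Dvd.intro _ rfl⟩
      · intro c _ c' _ hcc; exact Nat.eq_of_mul_eq_mul_left hd0 hcc
      · intro b hb
        simp only [mem_filter, mem_range] at hb
        obtain ⟨hb1, c, rfl⟩ := hb
        exact ⟨c, mem_range.2 (Nat.lt_of_mul_lt_mul_left (hk ▸ hb1)), rfl⟩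
      · intro c _; rw [pow_mul]
    rw [h6, h5, mul_zero]
  · intro h0; exact absurd (Nat.mem_divisors_self q hq.ne') h0

lemma sieve {A : Finset ℕ} {q : ℕ} (hq : Squarefree q) (hA : ∀ a ∈ A, a.Coprime q) (β : ℝ)
    (v : ℕ → ℝ) (hv : ∀ b, 0 < v b) :
    ‖F A β‖ ^ 2 / ∑ b ∈ (range q).filter (fun b => b.Coprime q), v b ≤
      ∑ b ∈ (range q).filter (fun b => b.Coprime q), ‖F A (β + b / q)‖ ^ 2 / v b := by
  have hq0 : 0 < q := Nat.pos_of_ne_zero hq.ne_zero
  have h1 : ∑ b ∈ (range q).filter (fun b => b.Coprime q), F A (β + b / q) =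
      F A β * (ArithmeticFunction.moebius q : ℂ) := by
    unfold F
    rw [Finset.sum_comm, Finset.sum_mul]
    refine sum_congr rfl fun a ha => ?_
    rw [← ramanujan hq0 (hA a ha), Finset.mul_sum]
    refine sum_congr rfl fun b _ => ?_
    rw [← e_add, mul_add]
  have h2 : ‖F A β‖ ≤ ∑ b ∈ (range q).filter (fun b => b.Coprime q), ‖F A (β + b / q)‖ := by
    refine le_trans ?_ (norm_sum_le _ _)
    rw [h1, norm_mul, ArithmeticFunction.moebius_apply_of_squarefree hq]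
    simp
  refine le_trans ?_ (Finset.sq_sum_div_le_sum_sq_div _ _ fun b _ => hv b)
  exact div_le_div_of_nonneg_right (pow_le_pow_left₀ (norm_nonneg _) h2 2)
    (sum_nonneg fun b _ => (hv b).le)

end Pool.Agent.H6.PrimeA
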