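import Pool.Agent.H6.PrimeA

namespace Pool.Agent.H6.PrimeB

open Finset MeasureTheory Pool.Agent.H6.PrimeA

lemma ind_int {G : ℝ → ℝ} (hG : Continuous G) (a b : ℝ) :
    Integrable ((Set.Icc a b).indicator G) :=
  (integrable_indicator_iff measurableSet_Icc).2 hG.integrableOn_Icc

lemma ind_eq (G : ℝ → ℝ) {a b : ℝ} (h : a ≤ b) :
    ∫ x in a..b, G x = ∫ x, (Set.Icc a b).indicator G x := by
  rw [integral_indicator measurableSet_Icc, intervalIntegral.integral_of_le h,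
    integral_Icc_eq_integral_Ioc]

lemma sum_ind {ι : Type} {G : ℝ → ℝ} (hG : Continuous G) (T : Finset ι) (c a b : ι → ℝ)
    (h : ∀ i ∈ T, a i ≤ b i) : ∑ i ∈ T, c i * ∫ x in a i..b i, G x =
      ∫ x, ∑ i ∈ T, c i * (Set.Icc (a i) (b i)).indicator G x := by
  rw [integral_finsetSum _ fun i _ => (ind_int hG _ _).const_mul _]
  refine sum_congr rfl fun i hi => ?_
  rw [ind_eq G (h i hi), integral_const_mul]

lemma harm {Y : ℕ} (hY : 1 ≤ Y) :
    Real.log Y - 1 ≤ ∑ q ∈ (Ioc Y (Y ^ 4)).filter Squarefree, (q : ℝ)⁻¹ := by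
  set X := Y ^ 4 with hX
  have hYX : Y ≤ X := Nat.le_self_pow (by norm_num) Y
  have h1 : Real.log X ≤ ∑ n ∈ Icc 1 X, (n : ℝ)⁻¹ := by
    have := log_add_one_le_harmonic X
    simp only [harmonic_eq_sum_Icc, Rat.cast_sum, Rat.cast_inv, Rat.cast_natCast] at this
    refine le_trans (Real.log_le_log (by exact_mod_cast (by omega : 0 < X)) ?_) this
    push_cast; linarith
  have h2 : ∑ n ∈ Icc 1 Y, (n : ℝ)⁻¹ ≤ 1 + Real.log Y := by
    have := harmonic_le_one_add_log Y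
    simpa only [harmonic_eq_sum_Icc, Rat.cast_sum, Rat.cast_inv, Rat.cast_natCast] using this
  have h3 : Icc 1 X ⊆ (((Icc 1 X).filter Squarefree) ×ˢ Ioo 0 (X + 1)).image
      fun p => p.2 ^ 2 * p.1 := by
    intro n hn
    rw [mem_Icc] at hn
    obtain ⟨a, b, hab, ha⟩ := Nat.sq_mul_squarefree n
    have ha0 : 0 < a := Nat.pos_of_ne_zero ha.ne_zero
    have hb0 : 0 < b := by
      rcases Nat.eq_zero_or_pos b with rfl | h
      · simp at hab; omega
      · exact h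
    refine mem_image.2 ⟨(a, b), ?_, hab⟩
    simp only [mem_product, mem_filter, mem_Icc, mem_Ioo]
    have : 1 ≤ b ^ 2 := Nat.one_le_pow _ _ hb0
    refine ⟨⟨⟨ha0, by nlinarith⟩, ha⟩, hb0, by nlinarith⟩
  have h4 : ∑ n ∈ Icc 1 X, (n : ℝ)⁻¹ ≤ 2 * ∑ q ∈ (Icc 1 X).filter Squarefree, (q : ℝ)⁻¹ := by
    refine (sum_le_sum_of_subset_of_nonneg h3 fun _ _ _ => by positivity).trans ?_
    refine (Finset.sum_image_le_of_nonneg fun _ _ => by positivity).trans ?_
    rw [Finset.sum_product, Finset.mul_sum]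
    refine sum_le_sum fun q _ => ?_
    have := sum_Ioo_inv_sq_le (α := ℝ) 0 (X + 1)
    simp only [Nat.cast_mul, Nat.cast_pow, mul_inv, ← Finset.sum_mul]
    refine mul_le_mul_of_nonneg_right (by simpa using this) (by positivity)
  have h5 : ∑ q ∈ (Icc 1 X).filter Squarefree, (q : ℝ)⁻¹ ≤
      ∑ n ∈ Icc 1 Y, (n : ℝ)⁻¹ + ∑ q ∈ (Ioc Y X).filter Squarefree, (q : ℝ)⁻¹ := by
    rw [← Finset.sum_union]
    · refine sum_le_sum_of_subset_of_nonneg ?_ fun _ _ _ => by positivity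
      intro q hq
      simp only [mem_filter, mem_Icc, mem_union, mem_Ioc] at hq ⊢
      by_cases h : q ≤ Y
      · exact Or.inl ⟨hq.1.1, h⟩
      · exact Or.inr ⟨⟨by omega, hq.1.2⟩, hq.2⟩
    · rw [Finset.disjoint_left]
      intro q h1 h2
      simp only [mem_filter, mem_Icc, mem_Ioc] at h1 h2
      omega
  have h6 : Real.log X = 4 * Real.log Y := by
    rw [hX, Nat.cast_pow, Real.log_pow]; norm_num
  linarith

def y (k : ℕ) : ℕ := 4 * 10 ^ k
def u (k : ℕ) : ℕ := 2 ^ y k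
def R (k : ℕ) : Finset ℕ := (Ioc (u k) (u k ^ 4)).filter Squarefree
def X (k : ℕ) : Finset (Σ _ : ℕ, ℕ) :=
  (R k).sigma fun q => (range q).filter fun b => b.Coprime q
noncomputable def fr (x : Σ _ : ℕ, ℕ) : ℝ := x.2 / x.1
noncomputable def δ (k : ℕ) : ℝ := 1 / (u k : ℝ) ^ 10
open Classical in
noncomputable def v (k : ℕ) (t : ℝ) : ℝ :=
  1 + ∑ j ∈ range k, ∑ x ∈ X j, if |t - fr x| ≤ 2 * δ j then (u j : ℝ) else 0

lemma y_succ (k : ℕ) : y (k + 1) = 10 * y k := by unfold y; ring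
lemma y_ge (k : ℕ) : 4 ≤ y k := by
  unfold y; have := Nat.one_le_pow k 10 (by norm_num); omega
lemma y_gt (k : ℕ) : k < y k := by
  unfold y; have := Nat.lt_pow_self (n := k) (a := 10) (by norm_num); omega
lemma u_succ (k : ℕ) : u (k + 1) = u k ^ 10 := by
  unfold u; rw [y_succ, ← pow_mul, mul_comm]
lemma u_ge (k : ℕ) : 16 ≤ u k := Nat.pow_le_pow_right (n := 2) (by norm_num) (y_ge k)
lemma u_mono {j k : ℕ} (h : j ≤ k) : u j ≤ u k := by
  unfold u y
  exact Nat.pow_le_pow_right (by norm_num)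
    (Nat.mul_le_mul_left _ (Nat.pow_le_pow_right (by norm_num) h))
lemma u_pos (k : ℕ) : (0 : ℝ) < u k := by exact_mod_cast (by have := u_ge k; omega : 0 < u k)
lemma δ_pos (k : ℕ) : 0 < δ k := by unfold δ; have := u_pos k; positivity
lemma δ_eq (k : ℕ) : δ k = 1 / 2 ^ y (k + 1) := by
  unfold δ; rw [← Nat.cast_pow, ← u_succ, u]; push_cast; rfl
lemma δ_anti {j k : ℕ} (h : j ≤ k) : δ k ≤ δ j := by
  unfold δ
  have := u_pos j
  have h2 : (u j : ℝ) ≤ u k := by exact_mod_cast u_mono h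
  gcongr
lemma δ_le (k : ℕ) : δ k ≤ 1 / 2 := by
  rw [δ_eq]
  have := y_ge (k + 1)
  exact one_div_le_one_div_of_le (by norm_num) (le_self_pow₀ (by norm_num) (by omega))

lemma sum_inv_u (k : ℕ) : ∑ j ∈ range k, (u j : ℝ)⁻¹ ≤ 1 := by
  have h1 : ∑ j ∈ range k, (u j : ℝ)⁻¹ ≤ ∑ j ∈ range k, (1 / 2 : ℝ) * (1 / 2) ^ j := by
    refine sum_le_sum fun j _ => ?_
    rw [← pow_succ', one_div_pow, one_div, u]
    push_cast
    exact inv_anti₀ (by positivity) (pow_le_pow_right₀ (by norm_num) (y_gt j))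
  rw [← Finset.mul_sum] at h1
  have := sum_geometric_two_le k
  linarith

lemma sum_R (k : ℕ) : (y k : ℝ) / 3 ≤ ∑ q ∈ R k, (q : ℝ)⁻¹ := by
  refine le_trans ?_ (harm (by have := u_ge k; omega))
  rw [u, Nat.cast_pow, Real.log_pow]
  have h1 := Real.log_two_gt_d9
  have h2 : (4 : ℝ) ≤ y k := by exact_mod_cast y_ge k
  push_cast
  nlinarith

lemma one_le_v (k : ℕ) (t : ℝ) : 1 ≤ v k t := by
  unfold v
  refine le_add_of_nonneg_right (sum_nonneg fun j _ => sum_nonneg fun x _ => ?_)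
  split_ifs <;> positivity

lemma card_X (k : ℕ) : ((X k).card : ℝ) ≤ (u k : ℝ) ^ 8 := by
  have : (X k).card ≤ u k ^ 8 := by
    rw [X, card_sigma]
    refine (sum_le_card_nsmul _ _ (u k ^ 4) fun q hq => ?_).trans ?_
    · refine (card_filter_le _ _).trans ?_
      rw [card_range]
      exact (mem_Ioc.1 (mem_filter.1 hq).1).2
    · rw [smul_eq_mul, show u k ^ 8 = u k ^ 4 * u k ^ 4 by ring]
      refine Nat.mul_le_mul_right _ ((card_filter_le _ _).trans ?_)
      rw [Nat.card_Ioc]; omega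
  exact_mod_cast this

open Classical in
lemma count {q : ℕ} (hq : 0 < q) (t d : ℝ) (hd : 0 ≤ d) :
    (((range q).filter fun b : ℕ => |(b : ℝ) / q - t| ≤ d).card : ℝ) ≤ 2 * d * q + 1 := by
  have hq' : (0 : ℝ) < q := by exact_mod_cast hq
  have h1 : ((range q).filter fun b : ℕ => |(b : ℝ) / q - t| ≤ d).card ≤
      (Icc ⌈(t - d) * q⌉ ⌊(t + d) * q⌋).card := by
    apply Finset.card_le_card_of_injOn (fun b : ℕ => (b : ℤ))
    · intro b hb
      simp only [coe_filter, Set.mem_setOf_eq, abs_le] at hb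
      obtain ⟨-, h2, h3⟩ := hb
      simp only [coe_Icc, Set.mem_Icc, Int.ceil_le, Int.le_floor, Int.cast_natCast]
      rw [← le_div_iff₀ hq', ← div_le_iff₀ hq']
      constructor <;> linarith
    · intro a _ b _ h; exact Nat.cast_injective (R := ℤ) h
  have h2 := Int.le_ceil ((t - d) * q)
  have h3 := Int.floor_le ((t + d) * q)
  have h4 : ((Icc ⌈(t - d) * q⌉ ⌊(t + d) * q⌋).card : ℝ) ≤ 2 * d * q + 1 := by
    rw [Int.card_Icc]
    rcases le_total (⌊(t + d) * q⌋ + 1 - ⌈(t - d) * q⌉) 0 with h | h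
    · rw [Int.toNat_of_nonpos h]; simp only [Nat.cast_zero]; positivity
    · have : (((⌊(t + d) * q⌋ + 1 - ⌈(t - d) * q⌉).toNat : ℤ) : ℝ) =
          ((⌊(t + d) * q⌋ + 1 - ⌈(t - d) * q⌉ : ℤ) : ℝ) := by rw [Int.toNat_of_nonneg h]
      push_cast at this
      rw [this]; linarith
  exact le_trans (by exact_mod_cast h1) h4

lemma sum_v {k q : ℕ} (hq : q ∈ R k) :
    ∑ b ∈ (range q).filter (fun b => b.Coprime q), v k (b / q) ≤ 6 * q := by
  classical
  have hq1 : u k < q := (mem_Ioc.1 (mem_filter.1 hq).1).1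
  have hq0 : 0 < q := by omega
  have hq' : (0 : ℝ) < q := by exact_mod_cast hq0
  refine (sum_le_sum_of_subset_of_nonneg (filter_subset _ _)
    fun b _ _ => zero_le_one.trans (one_le_v _ _)).trans ?_
  unfold v
  rw [sum_add_distrib, Finset.sum_comm]
  have h1 : ∑ j ∈ range k, ∑ b ∈ range q, ∑ x ∈ X j,
      (if |(b : ℝ) / q - fr x| ≤ 2 * δ j then (u j : ℝ) else 0) ≤
      ∑ j ∈ range k, 5 * q * (u j : ℝ)⁻¹ := by
    refine sum_le_sum fun j hj => ?_
    rw [Finset.sum_comm]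
    have hu := u_pos j
    have h2 : (u j : ℝ) ^ 10 ≤ q := by
      have := u_mono (show j + 1 ≤ k from mem_range.1 hj)
      rw [u_succ] at this
      exact_mod_cast this.trans hq1.le
    have h3 : 1 ≤ δ j * q := by
      unfold δ; rw [div_mul_eq_mul_div, le_div_iff₀ (by positivity)]; linarith
    refine (sum_le_card_nsmul _ _ (5 * δ j * q * u j) fun x _ => ?_).trans ?_
    · rw [← Finset.sum_filter, sum_const, nsmul_eq_mul]
      refine mul_le_mul_of_nonneg_right ?_ hu.le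
      refine (count hq0 _ _ (by have := δ_pos j; positivity)).trans ?_
      linarith
    · rw [nsmul_eq_mul]
      have := δ_pos j
      refine (mul_le_mul_of_nonneg_right (card_X j) (by positivity)).trans (le_of_eq ?_)
      unfold δ; field_simp
  rw [← Finset.mul_sum] at h1
  have := mul_le_mul_of_nonneg_left (sum_inv_u k) (by positivity : (0 : ℝ) ≤ 5 * q)
  simp only [sum_const, card_range, nsmul_eq_mul, mul_one] at this ⊢
  linarith

lemma spacing {k : ℕ} {x x' : Σ _ : ℕ, ℕ} (hx : x ∈ X k) (hx' : x' ∈ X k)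
    (h : |fr x - fr x'| ≤ 2 * δ k) : x = x' := by
  obtain ⟨q, b⟩ := x
  obtain ⟨q', b'⟩ := x'
  simp only [X, R, mem_sigma, mem_filter, mem_Ioc, mem_range] at hx hx'
  obtain ⟨⟨⟨h1, h2⟩, -⟩, -, h3⟩ := hx
  obtain ⟨⟨⟨h1', h2'⟩, -⟩, -, h3'⟩ := hx'
  have hq : (0 : ℝ) < q := by exact_mod_cast (by omega : 0 < q)
  have hq' : (0 : ℝ) < q' := by exact_mod_cast (by omega : 0 < q')
  have e1 : b * q' = b' * q := by
    by_contra hne
    have h4 : (1 : ℝ) ≤ |(b : ℝ) * q' - b' * q| := by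
      have : (1 : ℤ) ≤ |(b : ℤ) * q' - b' * q| :=
        Int.one_le_abs (sub_ne_zero.2 (by exact_mod_cast hne))
      exact_mod_cast this
    have h5 : fr ⟨q, b⟩ - fr ⟨q', b'⟩ = ((b : ℝ) * q' - b' * q) / (q * q') := by
      simp only [fr]; field_simp
    rw [h5, abs_div, abs_of_pos (mul_pos hq hq'), div_le_iff₀ (mul_pos hq hq')] at h
    have hu : (16 : ℝ) ≤ u k := by exact_mod_cast u_ge k
    have h6 : (q : ℝ) ≤ (u k : ℝ) ^ 4 := by exact_mod_cast h2
    have h7 : (q' : ℝ) ≤ (u k : ℝ) ^ 4 := by exact_mod_cast h2'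
    have h8 : (q : ℝ) * q' ≤ (u k : ℝ) ^ 4 * (u k : ℝ) ^ 4 := by gcongr
    have h9 : 2 * δ k * ((u k : ℝ) ^ 4 * (u k : ℝ) ^ 4) = 2 / (u k : ℝ) ^ 2 := by
      unfold δ; field_simp
    have h10 := mul_le_mul_of_nonneg_left h8 (by have := δ_pos k; positivity : 0 ≤ 2 * δ k)
    have h11 : 2 / (u k : ℝ) ^ 2 < 1 := by rw [div_lt_one (by positivity)]; nlinarith
    linarith
  have e2 : q = q' := Nat.dvd_antisymm
    (h3.symm.dvd_of_dvd_mul_left (e1 ▸ Dvd.intro_left _ rfl))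
    (h3'.symm.dvd_of_dvd_mul_left (e1 ▸ Dvd.intro_left _ rfl))
  subst e2
  rw [Nat.eq_of_mul_eq_mul_right (by omega) e1]

open Classical in
noncomputable def a (k : ℕ) (α : ℝ) : ℝ :=
  ∑ x ∈ X k, if |α - fr x| ≤ δ k then (v k (fr x))⁻¹ else 0

lemma a_le {k : ℕ} {α B : ℝ} (hB : 0 ≤ B)
    (h : ∀ x ∈ X k, |α - fr x| ≤ δ k → (v k (fr x))⁻¹ ≤ B) : a k α ≤ B := by
  classical
  unfold a
  rw [← Finset.sum_filter]
  refine (sum_le_card_nsmul _ _ B fun x hx => h x (mem_filter.1 hx).1 (mem_filter.1 hx).2).trans ?_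
  have : ((X k).filter fun x => |α - fr x| ≤ δ k).card ≤ 1 := by
    refine card_le_one.2 fun x hx x' hx' => spacing (mem_filter.1 hx).1 (mem_filter.1 hx').1 ?_
    have h1 := abs_le.1 (mem_filter.1 hx).2
    have h2 := abs_le.1 (mem_filter.1 hx').2
    rw [abs_le]; constructor <;> linarith
  rw [nsmul_eq_mul]
  exact mul_le_of_le_one_left hB (by exact_mod_cast this)

lemma mult_aux (α : ℝ) (n : ℕ) : ∑ k ∈ range n, a k α ≤ 0 ∨
    ∃ l < n, (∃ x ∈ X l, |α - fr x| ≤ δ l) ∧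
      ∑ k ∈ range n, a k α ≤ 1 + ∑ j ∈ range l, (u j : ℝ)⁻¹ := by
  classical
  induction n with
  | zero => simp
  | succ n ih =>
    rw [sum_range_succ]
    by_cases hn : ∃ x ∈ X n, |α - fr x| ≤ δ n
    · refine Or.inr ⟨n, n.lt_succ_self, hn, ?_⟩
      rcases ih with ih | ⟨l, hl, ⟨x', hx', hx''⟩, ih⟩
      · have h1 : a n α ≤ 1 := a_le zero_le_one fun x _ _ => inv_le_one_of_one_le₀ (one_le_v _ _)
        have h2 : 0 ≤ ∑ j ∈ range n, (u j : ℝ)⁻¹ := sum_nonneg fun _ _ => by positivity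
        linarith
      · have h1 : a n α ≤ (u l : ℝ)⁻¹ := by
          refine a_le (by positivity) fun x _ hx => inv_anti₀ (u_pos l) ?_
          have h3 : |fr x - fr x'| ≤ 2 * δ l := by
            have h4 := abs_le.1 hx
            have h5 := abs_le.1 hx''
            have := δ_anti hl.le
            rw [abs_le]; constructor <;> linarith
          unfold v
          refine le_trans ?_ (le_add_of_nonneg_left zero_le_one)
          refine le_trans ?_ (single_le_sum (f := fun j => ∑ x' ∈ X j,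
            if |fr x - fr x'| ≤ 2 * δ j then (u j : ℝ) else 0)
            (fun j _ => sum_nonneg fun _ _ => by split_ifs <;> positivity) (mem_range.2 hl))
          refine le_trans ?_ (single_le_sum (f := fun x' =>
            if |fr x - fr x'| ≤ 2 * δ l then (u l : ℝ) else 0)
            (fun _ _ => by split_ifs <;> positivity) hx')
          rw [if_pos h3]
        have h2 : ∑ j ∈ range (l + 1), (u j : ℝ)⁻¹ ≤ ∑ j ∈ range n, (u j : ℝ)⁻¹ :=
          sum_le_sum_of_subset_of_nonneg (range_subset_range.2 hl) fun _ _ _ => by positivity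
        rw [sum_range_succ] at h2
        linarith
    · have h1 : a n α ≤ 0 := a_le le_rfl fun x hx hx' => absurd ⟨x, hx, hx'⟩ hn
      rcases ih with ih | ⟨l, hl, hx, ih⟩
      · left; linarith
      · exact Or.inr ⟨l, by omega, hx, by linarith⟩

lemma mult (α : ℝ) (n : ℕ) : ∑ k ∈ range n, a k α ≤ 2 := by
  rcases mult_aux α n with h | ⟨l, -, -, h⟩
  · linarith
  · have := sum_inv_u l
    linarith

end Pool.Agent.H6.PrimeB
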