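import Pool.Agent.H6.PrimeB

namespace Pool.Agent.H6.PrimeC

open Finset MeasureTheory Pool.Agent.H6.PrimeA Pool.Agent.H6.PrimeB

noncomputable def G (A : Finset ℕ) (θ : ℝ) : ℝ := ‖F A θ‖ ^ 2

@[fun_prop] lemma cont_G (A : Finset ℕ) : Continuous (G A) := by unfold G; fun_prop

lemma G_nonneg (A : Finset ℕ) (θ : ℝ) : 0 ≤ G A θ := by unfold G; positivity

lemma int_G (A : Finset ℕ) (c : ℝ) : ∫ θ in c..c + 1, G A θ = A.card := int_F A c

lemma point {A : Finset ℕ} {k : ℕ} (hA : ∀ q ∈ R k, ∀ a ∈ A, a.Coprime q) (β : ℝ) :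
    (y k : ℝ) / 18 * G A β ≤ ∑ x ∈ X k, (v k (fr x))⁻¹ * G A (β + fr x) := by
  rw [X, Finset.sum_sigma]
  have h1 : (y k : ℝ) / 18 * G A β ≤ ∑ q ∈ R k, G A β / (6 * q) := by
    have h2 : ∑ q ∈ R k, G A β / (6 * q) = (∑ q ∈ R k, (q : ℝ)⁻¹) / 6 * G A β := by
      rw [Finset.sum_div, Finset.sum_mul]
      refine sum_congr rfl fun q _ => ?_
      ring
    rw [h2]
    refine mul_le_mul_of_nonneg_right ?_ (G_nonneg _ _)
    have := sum_R k
    linarith
  refine h1.trans (sum_le_sum fun q hq => ?_)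
  have hsq : Squarefree q := (mem_filter.1 hq).2
  have h3 := sieve hsq (hA q hq) β (fun b => v k (b / q))
    fun b => zero_lt_one.trans_le (one_le_v _ _)
  have hq1 : u k < q := (mem_Ioc.1 (mem_filter.1 hq).1).1
  have hu := u_ge k
  have h4 : 0 < ∑ b ∈ (range q).filter (fun b => b.Coprime q), v k (b / q) :=
    sum_pos (fun b _ => zero_lt_one.trans_le (one_le_v _ _))
      ⟨1, mem_filter.2 ⟨mem_range.2 (by omega), Nat.coprime_one_left _⟩⟩
  refine (div_le_div_of_nonneg_left (G_nonneg _ _) h4 (sum_v hq)).trans (h3.trans (le_of_eq ?_))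
  refine sum_congr rfl fun b _ => ?_
  simp only [fr, G]
  ring

lemma fr_mem {k : ℕ} {x : Σ _ : ℕ, ℕ} (hx : x ∈ X k) : 0 ≤ fr x ∧ fr x ≤ 1 := by
  have h := mem_range.1 (mem_filter.1 (mem_sigma.1 hx).2).1
  unfold fr
  refine ⟨by positivity, div_le_one_of_le₀ (by exact_mod_cast h.le) (by positivity)⟩

lemma large {A : Finset ℕ} {n : ℕ} (hA : ∀ k < n, ∀ q ∈ R k, ∀ a ∈ A, a.Coprime q) :
    ∑ k ∈ range n, (y k : ℝ) * ∫ β in (-δ k)..δ k, G A β ≤ 108 * A.card := by
  classical
  have h1 : ∀ k ∈ range n, (y k : ℝ) * ∫ β in (-δ k)..δ k, G A β ≤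
      18 * ∑ x ∈ X k, (v k (fr x))⁻¹ * ∫ α in (-δ k + fr x)..(δ k + fr x), G A α := by
    intro k hk
    have hd := δ_pos k
    have h2 := intervalIntegral.integral_mono_on (μ := volume) (a := -δ k) (b := δ k) (by linarith)
      ((by fun_prop : Continuous fun β => (y k : ℝ) / 18 * G A β).intervalIntegrable _ _)
      ((by fun_prop : Continuous fun β =>
        ∑ x ∈ X k, (v k (fr x))⁻¹ * G A (β + fr x)).intervalIntegrable _ _)
      fun β _ => point (hA k (mem_range.1 hk)) β
    rw [intervalIntegral.integral_const_mul, intervalIntegral.integral_finsetSum fun x _ =>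
      (by fun_prop : Continuous fun β => (v k (fr x))⁻¹ * G A (β + fr x)).intervalIntegrable _ _]
      at h2
    simp only [intervalIntegral.integral_const_mul, intervalIntegral.integral_comp_add_right] at h2
    linarith
  refine (sum_le_sum h1).trans ?_
  rw [← Finset.mul_sum]
  have h3 : ∑ k ∈ range n, ∑ x ∈ X k,
      (v k (fr x))⁻¹ * ∫ α in (-δ k + fr x)..(δ k + fr x), G A α ≤
      ∫ α in (-1 : ℝ)..2, 2 * G A α := by
    rw [Finset.sum_sigma', sum_ind (cont_G A) _ _ _ _ fun i _ => by have := δ_pos i.1; linarith,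
      ind_eq _ (by norm_num)]
    refine integral_mono (integrable_finsetSum _ fun i _ => (ind_int (cont_G A) _ _).const_mul _)
      (ind_int (by fun_prop) _ _) fun α => ?_
    simp only
    rw [Finset.sum_sigma]
    have h4 : ∀ k, ∑ x ∈ X k, (v k (fr x))⁻¹ *
        (Set.Icc (-δ k + fr x) (δ k + fr x)).indicator (G A) α = a k α * G A α := by
      intro k
      rw [a, Finset.sum_mul]
      refine sum_congr rfl fun x _ => ?_
      by_cases h : |α - fr x| ≤ δ k
      · rw [if_pos h, Set.indicator_of_mem]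
        rw [abs_le] at h
        constructor <;> linarith
      · rw [if_neg h, Set.indicator_of_notMem, mul_zero, zero_mul]
        intro h'
        apply h
        rw [abs_le]
        constructor <;> linarith [h'.1, h'.2]
    simp only [h4]
    rw [← Finset.sum_mul]
    by_cases hα : α ∈ Set.Icc (-1 : ℝ) 2
    · rw [Set.indicator_of_mem hα]
      exact mul_le_mul_of_nonneg_right (mult α n) (G_nonneg _ _)
    · rw [Set.indicator_of_notMem hα]
      refine mul_nonpos_of_nonpos_of_nonneg (sum_nonpos fun k _ => a_le le_rfl fun x hx h => ?_)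
        (G_nonneg _ _)
      exfalso
      apply hα
      have := δ_le k
      have := fr_mem hx
      rw [abs_le] at h
      constructor <;> linarith
  have h5 : ∫ α in (-1 : ℝ)..2, G A α = 3 * A.card := by
    have i1 := int_G A (-1)
    have i2 := int_G A 0
    have i3 := int_G A 1
    norm_num at i1 i2 i3
    rw [← intervalIntegral.integral_add_adjacent_intervals (b := 0)
      ((cont_G A).intervalIntegrable _ _) ((cont_G A).intervalIntegrable _ _),
      ← intervalIntegral.integral_add_adjacent_intervals (a := 0) (b := 1)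
      ((cont_G A).intervalIntegrable _ _) ((cont_G A).intervalIntegrable _ _), i1, i2, i3]
    ring
  rw [intervalIntegral.integral_const_mul, h5] at h3
  linarith

open Classical in
lemma kern {s n : ℕ} (hs : s ≤ 4 * y n) {β : ℝ} (hβ : |β| ≤ 1 / 2) :
    K (s + 3) β ≤ 172 + ∑ k ∈ range n, if |β| ≤ δ k then 430 * (y k : ℝ) else 0 := by
  have hnn : ∀ k ∈ range n, 0 ≤ if |β| ≤ δ k then 430 * (y k : ℝ) else 0 := fun k _ => by
    split_ifs <;> positivity
  have h0 : ∀ m, (m = n ∨ δ m ≤ |β|) → K (s + 3) β ≤ 43 * y m := by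
    intro m hm
    have h4 : (4 : ℝ) ≤ y m := by exact_mod_cast y_ge m
    rcases hm with rfl | hm
    · have h1 := K_le (s + 3) β
      have h2 : (s : ℝ) ≤ 4 * y m := by exact_mod_cast hs
      push_cast at h1
      linarith
    · have h1 := K_le' (s + 3) (y (m + 1)) hβ (by rw [← δ_eq]; exact hm)
      rw [y_succ] at h1
      push_cast at h1
      linarith
  have h1 : ∀ m ≤ n, (m = n ∨ δ m ≤ |β|) → K (s + 3) β ≤
      172 + ∑ k ∈ range n, if |β| ≤ δ k then 430 * (y k : ℝ) else 0 := by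
    intro m
    induction m with
    | zero =>
      intro _ hm
      have := h0 0 hm
      have h2 := sum_nonneg hnn
      norm_num [y] at this
      linarith
    | succ m ih =>
      intro hm hm'
      by_cases h : |β| ≤ δ m
      · have h2 := h0 _ hm'
        have h3 := single_le_sum hnn (mem_range.2 (show m < n from hm))
        rw [if_pos h] at h3
        rw [y_succ] at h2
        push_cast at h2
        linarith
      · exact ih (by omega) (Or.inr (not_le.1 h).le)
  exact h1 n le_rfl (Or.inl rfl)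

lemma block {A : Finset ℕ} {s : ℕ} (hA : ∀ p ∈ A, p.Prime ∧ 2 ^ s ≤ p ∧ p ≤ 2 ^ (s + 2)) :
    S A ≤ 93224 * A.card := by
  classical
  have hex : ∃ n, s ≤ 4 * y n := ⟨s, by have := y_gt s; omega⟩
  set n := Nat.find hex
  have hn : s ≤ 4 * y n := Nat.find_spec hex
  have hcop : ∀ k < n, ∀ q ∈ R k, ∀ a ∈ A, a.Coprime q := by
    intro k hk q hq p hp
    have h1 : 4 * y k < s := not_le.1 (Nat.find_min hex hk)
    obtain ⟨h2, h3⟩ := mem_Ioc.1 (mem_filter.1 hq).1
    obtain ⟨h4, h5, -⟩ := hA p hp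
    have h6 : u k ^ 4 < 2 ^ s := by
      rw [u, ← pow_mul, mul_comm]
      exact Nat.pow_lt_pow_right (by norm_num) h1
    exact Nat.coprime_of_lt_prime (by omega) (by omega) h4
  have h1 := large hcop
  have h2 := S_le A (s + 2) (fun a ha => (hA a ha).2.2) (-1 / 2)
  have h3 := int_G A (-1 / 2)
  rw [show (-1 / 2 : ℝ) + 1 = 1 / 2 by norm_num] at h2 h3
  have h4 : ∫ θ in (-1 / 2 : ℝ)..1 / 2, (G A θ * K (s + 3) θ - 172 * G A θ) ≤
      ∑ k ∈ range n, (430 * y k : ℝ) * ∫ β in (-δ k)..δ k, G A β := by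
    rw [sum_ind (cont_G A) _ _ _ _ fun i _ => by have := δ_pos i; linarith,
      ind_eq _ (by norm_num)]
    refine integral_mono (ind_int (by fun_prop) _ _)
      (integrable_finsetSum _ fun i _ => (ind_int (cont_G A) _ _).const_mul _) fun β => ?_
    simp only
    have h5 : ∀ k, (430 * y k : ℝ) * (Set.Icc (-δ k) (δ k)).indicator (G A) β =
        (if |β| ≤ δ k then 430 * (y k : ℝ) else 0) * G A β := by
      intro k
      by_cases h : |β| ≤ δ k
      · rw [if_pos h, Set.indicator_of_mem (Set.mem_Icc.2 (abs_le.1 h))]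
      · rw [if_neg h, Set.indicator_of_notMem (fun h' => h (abs_le.2 (Set.mem_Icc.1 h'))), mul_zero, zero_mul]
    simp only [h5]
    rw [← Finset.sum_mul]
    by_cases hβ : β ∈ Set.Icc (-1 / 2 : ℝ) (1 / 2)
    · rw [Set.indicator_of_mem hβ]
      have := mul_le_mul_of_nonneg_right
        (kern hn (β := β) (abs_le.2 ⟨by linarith [hβ.1], hβ.2⟩)) (G_nonneg A β)
      linarith
    · rw [Set.indicator_of_notMem hβ]
      exact mul_nonneg (sum_nonneg fun k _ => by split_ifs <;> positivity) (G_nonneg _ _)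
  rw [intervalIntegral.integral_sub
    ((by fun_prop : Continuous fun θ => G A θ * K (s + 3) θ).intervalIntegrable _ _)
    ((by fun_prop : Continuous fun θ => 172 * G A θ).intervalIntegrable _ _),
    intervalIntegral.integral_const_mul, h3] at h4
  simp only [mul_assoc, ← Finset.mul_sum] at h4
  change S A ≤ 2 * ∫ θ in (-1 / 2 : ℝ)..1 / 2, G A θ * K (s + 3) θ at h2
  linarith

theorem main (A : Finset ℕ) (hA : ∀ p ∈ A, p.Prime) : S A ≤ 186450 * A.card := by
  classical
  set N := A.sup id + 1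
  let B : ℕ → Finset ℕ := fun s => A.filter fun p => 2 ^ s ≤ p ∧ p < 2 ^ (s + 2)
  have hlog : ∀ p ∈ A, Nat.log 2 p ∈ range N := fun p hp => by
    have h1 : p ≤ A.sup id := le_sup (f := id) hp
    have := Nat.log_le_self 2 p
    exact mem_range.2 (by omega)
  have h1 : S A = (∑ p ∈ A, ∑ q ∈ A.filter (fun q => p < q ∧ q < 2 * p),
      (1 : ℝ) / ((q : ℝ) - (p : ℝ))) + ∑ p ∈ A, ∑ q ∈ A.filter (fun q => p < q ∧ ¬ q < 2 * p),
      (1 : ℝ) / ((q : ℝ) - (p : ℝ)) := by
    rw [S, ← sum_add_distrib]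
    refine sum_congr rfl fun p _ => ?_
    rw [← filter_filter, ← filter_filter, sum_filter_add_sum_filter_not]
  have hpos : ∀ p q : ℕ, p < q → 0 ≤ (1 : ℝ) / ((q : ℝ) - (p : ℝ)) := fun p q h => by
    have : (p : ℝ) < q := by exact_mod_cast h
    exact one_div_nonneg.2 (by linarith)
  have h2 : ∑ p ∈ A, ∑ q ∈ A.filter (fun q => p < q ∧ ¬ q < 2 * p),
      (1 : ℝ) / ((q : ℝ) - (p : ℝ)) ≤ 2 * A.card := by
    simp only [Finset.sum_filter]
    rw [Finset.sum_comm]
    refine (sum_le_card_nsmul _ _ 2 fun q _ => ?_).trans (by simp [mul_comm])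
    rw [← Finset.sum_filter]
    rcases Nat.eq_zero_or_pos q with rfl | hq
    · simp
    have hq' : (0 : ℝ) < q := by exact_mod_cast hq
    refine (sum_le_card_nsmul _ _ (2 / (q : ℝ)) fun p hp => ?_).trans ?_
    · obtain ⟨h3, h4⟩ := (mem_filter.1 hp).2
      have h5 : (2 : ℝ) * p ≤ q := by exact_mod_cast not_lt.1 h4
      rw [div_le_div_iff₀ (by linarith) hq']
      linarith
    · have h3 : (A.filter fun p => p < q ∧ ¬ q < 2 * p).card ≤ q := by
        refine le_trans (card_le_card fun p hp => mem_range.2 (mem_filter.1 hp).2.1) ?_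
        rw [card_range]
      have h4 : ((A.filter fun p => p < q ∧ ¬ q < 2 * p).card : ℝ) ≤ q := by exact_mod_cast h3
      rw [nsmul_eq_mul, mul_div_assoc', div_le_iff₀ hq']
      linarith
  have h3 : ∑ p ∈ A, ∑ q ∈ A.filter (fun q => p < q ∧ q < 2 * p),
      (1 : ℝ) / ((q : ℝ) - (p : ℝ)) ≤ ∑ s ∈ range N, S (B s) := by
    rw [← Finset.sum_fiberwise_of_maps_to hlog]
    refine sum_le_sum fun s _ => ?_
    have h4 : ∀ p ∈ A.filter (fun p => Nat.log 2 p = s), 2 ^ s ≤ p ∧ p < 2 ^ (s + 1) := by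
      intro p hp
      obtain ⟨h5, rfl⟩ := mem_filter.1 hp
      exact ⟨Nat.pow_log_le_self 2 (hA p h5).ne_zero, Nat.lt_pow_succ_log_self (by norm_num) p⟩
    refine le_trans (sum_le_sum fun p hp => ?_) (sum_le_sum_of_subset_of_nonneg (fun p hp => ?_)
      fun p _ _ => sum_nonneg fun q hq => hpos p q (mem_filter.1 hq).2)
    · refine sum_le_sum_of_subset_of_nonneg (fun q hq => ?_)
        fun q hq _ => hpos p q (mem_filter.1 hq).2
      obtain ⟨h5, h6⟩ := h4 p hp
      obtain ⟨h7, h8, h9⟩ := mem_filter.1 hq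
      rw [pow_succ] at h6
      exact mem_filter.2 ⟨mem_filter.2 ⟨h7, by omega, by rw [pow_succ, pow_succ]; omega⟩, h8⟩
    · obtain ⟨h5, h6⟩ := h4 p hp
      rw [pow_succ] at h6
      exact mem_filter.2 ⟨(mem_filter.1 hp).1, h5, by rw [pow_succ, pow_succ]; omega⟩
  have h4 : ∑ s ∈ range N, S (B s) ≤ ∑ s ∈ range N, 93224 * ((B s).card : ℝ) :=
    sum_le_sum fun s _ => block (s := s) fun p hp =>
      ⟨hA p (mem_filter.1 hp).1, (mem_filter.1 hp).2.1, (mem_filter.1 hp).2.2.le⟩
  have h5 : ∑ s ∈ range N, (B s).card ≤ 2 * A.card := by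
    simp only [B, card_filter]
    rw [Finset.sum_comm]
    refine (sum_le_card_nsmul _ _ 2 fun p _ => ?_).trans (by simp [mul_comm])
    rw [← card_filter]
    refine le_trans (card_le_card (t := {Nat.log 2 p, Nat.log 2 p - 1}) fun s hs => ?_) card_le_two
    obtain ⟨h6, h7⟩ := (mem_filter.1 hs).2
    have h8 := Nat.le_log_of_pow_le (by norm_num) h6
    have h9 := Nat.log_lt_of_lt_pow' (by omega) h7
    simp only [mem_insert, mem_singleton]
    omega
  have h6 : ∑ s ∈ range N, ((B s).card : ℝ) ≤ 2 * A.card := by exact_mod_cast h5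
  rw [← Finset.mul_sum] at h4
  linarith

end Pool.Agent.H6.PrimeC
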