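import Mathlib

set_option autoImplicit false

open Cardinal Set Order

namespace Pool.Agent.H6.RS

variable {P : Type}

/-- Elements lying (in direction `r`) over at least `l'` members of `Z l'`, for some regular
`l' ≥ l`. -/
def Lg (r : P → P → Prop) (Z : Cardinal.{0} → Set P) (l : Cardinal.{0}) : Set P :=
  {x | ∃ l', l ≤ l' ∧ l'.IsRegular ∧ l' ≤ #{z | z ∈ Z l' ∧ r z x}}

lemma Lg_mono (r : P → P → Prop) {Z Z' : Cardinal.{0} → Set P} (h : ∀ l, Z l ⊆ Z' l)
    (l : Cardinal.{0}) : Lg r Z l ⊆ Lg r Z' l := by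
  rintro x ⟨l', h1, h2, h3⟩
  exact ⟨l', h1, h2, h3.trans (mk_le_mk_of_subset fun z hz => ⟨h l' hz.1, hz.2⟩)⟩

lemma Lg_level (r : P → P → Prop) (Z : Cardinal.{0} → Set P) {l l' : Cardinal.{0}} (h : l ≤ l') :
    Lg r Z l' ⊆ Lg r Z l := by
  rintro x ⟨m, h1, h2, h3⟩
  exact ⟨m, h.trans h1, h2, h3⟩

lemma Lg_up {r : P → P → Prop} (htr : ∀ a b c, r a b → r b c → r a c)
    {Z : Cardinal.{0} → Set P} {l : Cardinal.{0}} {x y : P} (hx : x ∈ Lg r Z l) (hxy : r x y) :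
    y ∈ Lg r Z l := by
  obtain ⟨m, h1, h2, h3⟩ := hx
  exact ⟨m, h1, h2, h3.trans (mk_le_mk_of_subset fun z hz => ⟨hz.1, htr _ _ _ hz.2 hxy⟩)⟩

lemma Lg_core {r : P → P → Prop} (hwf : WellFounded r) (htr : ∀ a b c, r a b → r b c → r a c)
    (Z : Cardinal.{0} → Set P) (l : Cardinal.{0}) :
    Lg r Z l ⊆ Lg r (fun m => Z m \ Lg r Z m) l := by
  intro x
  induction x using hwf.induction with
  | _ x ih =>
    intro hx
    by_cases h : ∃ z, r z x ∧ z ∈ Lg r Z l
    · obtain ⟨z, hz, hzl⟩ := h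
      exact Lg_up htr (ih z hz hzl) hz
    · push Not at h
      obtain ⟨m, h1, h2, h3⟩ := hx
      refine ⟨m, h1, h2, h3.trans (mk_le_mk_of_subset fun z hz => ⟨⟨hz.1, fun hc => ?_⟩, hz.2⟩)⟩
      exact h z hz.2 (Lg_level r Z h1 hc)

theorem exists_kernel {r s : P → P → Prop} (hr : WellFounded r) (hs : WellFounded s)
    (htr : ∀ a b c, r a b → r b c → r a c) (hts : ∀ a b c, s a b → s b c → s a c) :
    ∃ X : Cardinal.{0} → Set P, ∀ l x, x ∈ X l ↔ x ∉ Lg r X l ∧ x ∉ Lg s X l := by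
  let F : (Cardinal.{0} → Set P) →o (Cardinal.{0} → Set P) :=
    ⟨fun Y l => (Lg r (fun m => (Lg s Y m)ᶜ) l)ᶜ, fun Y Y' h l => by
      apply compl_subset_compl.2
      apply Lg_mono
      intro m
      exact compl_subset_compl.2 (Lg_mono s (fun k => h k) m)⟩
  obtain ⟨Y, hY⟩ : ∃ Y, F Y = Y := ⟨_, F.map_lfp⟩
  set Z : Cardinal.{0} → Set P := fun m => (Lg s Y m)ᶜ with hZ
  have hY' : ∀ l, Y l = (Lg r Z l)ᶜ := fun l => (congrFun hY l).symm
  refine ⟨fun l => Y l ∩ Z l, fun l x => ?_⟩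
  have e1 : Lg r (fun l => Y l ∩ Z l) l = Lg r Z l := by
    apply Subset.antisymm (Lg_mono r (fun m => inter_subset_right) l)
    refine (Lg_core hr htr Z l).trans (Lg_mono r (Z' := fun l => Y l ∩ Z l)
      (fun m z hz => ⟨?_, hz.1⟩) l)
    rw [hY']; exact hz.2
  have e2 : Lg s (fun l => Y l ∩ Z l) l = Lg s Y l := by
    apply Subset.antisymm (Lg_mono s (fun m => inter_subset_left) l)
    exact (Lg_core hs hts Y l).trans (Lg_mono s (Z' := fun l => Y l ∩ Z l)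
      (fun m z hz => ⟨hz.1, hz.2⟩) l)
  rw [e1, e2, mem_inter_iff, hY']
  rfl

/-- Transfinite dependent choice. -/
lemma rec_exists {J : Type} {α : Type 1} (r : J → J → Prop) (hr : WellFounded r) [Nonempty α]
    (Q : J → α → Prop) (Rel : J → α → J → α → Prop)
    (step : ∀ j (g : J → α), (∀ i, r i j → Q i (g i)) →
      (∀ i i', r i j → r i' j → r i i' → Rel i (g i) i' (g i')) →
      ∃ a, Q j a ∧ ∀ i, r i j → Rel i (g i) j a) :
    ∃ f : J → α, (∀ j, Q j (f j)) ∧ ∀ i j, r i j → Rel i (f i) j (f j) := by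
  classical
  let ext : ∀ j, (∀ i, r i j → α) → J → α := fun j g i =>
    if h : r i j then g i h else Classical.arbitrary α
  let F : ∀ j, (∀ i, r i j → α) → α := fun j g =>
    Classical.epsilon fun a => Q j a ∧ ∀ i, r i j → Rel i (ext j g i) j a
  let f : J → α := hr.fix F
  have hf : ∀ j, f j = F j (fun i _ => f i) := fun j => hr.fix_eq F j
  have hext : ∀ j i, r i j → ext j (fun i _ => f i) i = f i := by
    intro j i h
    simp [ext, h]
  have key : ∀ j, Q j (f j) ∧ ∀ i, r i j → Rel i (f i) j (f j) := by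
    intro j
    induction j using hr.induction with
    | _ j ih =>
      have h1 := step j (ext j (fun i _ => f i))
        (fun i hi => by rw [hext j i hi]; exact (ih i hi).1)
        (fun i i' hi hi' hii => by rw [hext j i hi, hext j i' hi']; exact (ih i' hi').2 i hii)
      have h2 := Classical.epsilon_spec h1
      rw [hf j]
      refine ⟨h2.1, fun i hi => ?_⟩
      have := h2.2 i hi
      rwa [hext j i hi] at this
  exact ⟨f, fun j => (key j).1, fun i j h => (key j).2 i h⟩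

lemma mk_Iio_lt' {c : Cardinal.{0}} (i : c.ord.ToType) : #(Iio i) < c := by
  simpa using mk_Iio_lt i

lemma exists_Iio_eq {c t : Cardinal.{0}} (h : c < t) : ∃ i : t.ord.ToType, #(Iio i) = c := by
  have h1 : c.ord < Ordinal.type (α := t.ord.ToType) (· < ·) := by
    rw [Ordinal.type_toType]; exact ord_lt_ord.2 h
  refine ⟨Ordinal.enum (α := t.ord.ToType) (· < ·) ⟨c.ord, h1⟩, ?_⟩
  have := Ordinal.card_typein (r := ((· < ·) : t.ord.ToType → t.ord.ToType → Prop))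
    (Ordinal.enum (α := t.ord.ToType) (· < ·) ⟨c.ord, h1⟩)
  rw [Ordinal.typein_enum, card_ord] at this
  exact this.symm

lemma exists_rank (A : Set P) {t : Cardinal.{0}} (hA : #A ≤ t) :
    ∃ g : P → Cardinal.{0}, (∀ y ∈ A, g y < t) ∧ ∀ c, #{y | y ∈ A ∧ g y < c} ≤ c := by
  classical
  rw [← mk_ord_toType t] at hA
  obtain ⟨e⟩ := (Cardinal.le_def _ _).1 hA
  refine ⟨fun y => if h : y ∈ A then #(Iio (e ⟨y, h⟩)) else 0, fun y hy => ?_, fun c => ?_⟩
  · simp only [hy, dif_pos]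
    exact mk_Iio_lt' _
  · rcases lt_or_ge c t with hc | hc
    · obtain ⟨i, hi⟩ := exists_Iio_eq hc
      rw [← hi]
      refine mk_le_of_injective (f := fun y => ⟨e ⟨y.1, y.2.1⟩, ?_⟩) ?_
      · have h2 := y.2.2
        simp only [y.2.1, dif_pos] at h2
        by_contra hn
        have : #(Iio i) ≤ #(Iio (e ⟨y.1, y.2.1⟩)) :=
          mk_le_mk_of_subset (Iio_subset_Iio (not_lt.1 hn))
        exact absurd h2 (not_lt.2 this)
      · intro y y' hyy
        have h3 := e.injective (congrArg Subtype.val hyy)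
        exact Subtype.ext (Subtype.mk.inj h3)
    · rw [mk_ord_toType] at hA
      exact (mk_le_mk_of_subset (fun y hy => hy.1)).trans (hA.trans hc)

lemma mk_iUnion_le_of_le {ι : Type} {c : Cardinal.{0}} (hc : ℵ₀ ≤ c) (hι : #ι ≤ c)
    (f : ι → Set P) (hf : ∀ i, #(f i) ≤ c) : #(⋃ i, f i) ≤ c := by
  have := (card_iUnion_lt_iff_forall_of_isRegular (t := f) (isRegular_succ hc)
    (lt_succ_iff.2 hι)).2 (fun i => lt_succ_iff.2 (hf i))
  exact lt_succ_iff.1 this

lemma mk_union_lt {c : Cardinal.{0}} (hc : ℵ₀ ≤ c) {A B : Set P} (hA : #A < c) (hB : #B < c) :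
    #(A ∪ B : Set P) < c :=
  (mk_union_le A B).trans_lt (add_lt_of_lt hc hA hB)

lemma mk_union_le' {c : Cardinal.{0}} (hc : ℵ₀ ≤ c) {A B : Set P} (hA : #A ≤ c) (hB : #B ≤ c) :
    #(A ∪ B : Set P) ≤ c :=
  lt_succ_iff.1 (mk_union_lt (hc.trans (le_succ c)) (lt_succ_iff.2 hA) (lt_succ_iff.2 hB))

lemma exists_closure {c : Cardinal.{0}} (hc : ℵ₀ ≤ c) (G : P → Set P) (hG : ∀ x, #(G x) ≤ c)
    (W : Set P) (hW : #W ≤ c) : ∃ N : Set P, W ⊆ N ∧ #N ≤ c ∧ ∀ x ∈ N, G x ⊆ N := by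
  let T : ℕ → Set P := fun n => Nat.rec W (fun _ A => ⋃ x : A, G x) n
  have hT : ∀ n, #↥(T n) ≤ c := by
    intro n
    induction n with
    | zero => exact hW
    | succ n ih => exact mk_iUnion_le_of_le hc ih (fun x : T n => G x.1) (fun x => hG x.1)
  refine ⟨⋃ n, T n, subset_iUnion T 0, mk_iUnion_le_of_le hc (by simpa using hc) T hT, ?_⟩
  intro x hx y hy
  obtain ⟨n, hn⟩ := mem_iUnion.1 hx
  exact mem_iUnion.2 ⟨n + 1, mem_iUnion.2 ⟨⟨x, hn⟩, hy⟩⟩

/-- Greedy choice of pairwise non-conflicting representatives. -/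
lemma serve {m : Cardinal.{0}} (hm : m.IsRegular) (X : Set P) (G : P → P → Prop)
    (hG : ∀ z ∈ X, #{z' | z' ∈ X ∧ (G z z' ∨ G z' z)} < m) {I : Type} (hI : #I ≤ m)
    (C : I → Set P) (hC : ∀ i, C i ⊆ X) (hC' : ∀ i, m ≤ #(C i)) (B : Set P) (hB : #B < m) :
    ∃ f : I → P, (∀ i, f i ∈ C i ∧ f i ∉ B) ∧ ∀ i j, i ≠ j → ¬ G (f i) (f j) := by
  rcases isEmpty_or_nonempty I with hE | ⟨⟨i0⟩⟩
  · exact ⟨fun i => hE.elim i, fun i => hE.elim i, fun i => hE.elim i⟩
  have hne : Nonempty (ULift.{1} P) := by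
    have : #(C i0) ≠ 0 := (hm.pos.trans_le (hC' i0)).ne'
    obtain ⟨x⟩ := mk_ne_zero_iff.1 this
    exact ⟨⟨x.1⟩⟩
  rw [← mk_ord_toType m] at hI
  obtain ⟨e⟩ := (Cardinal.le_def _ _).1 hI
  have hwf : WellFounded (fun i j : I => e i < e j) := InvImage.wf e wellFounded_lt
  obtain ⟨f, hf1, hf2⟩ := rec_exists (α := ULift.{1} P) (fun i j : I => e i < e j) hwf
    (fun i a => a.down ∈ C i ∧ a.down ∉ B)
    (fun _ a _ b => ¬ G a.down b.down ∧ ¬ G b.down a.down) (by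
      intro j g hg _
      have h1 : #{i : I // e i < e j} < m := by
        refine lt_of_le_of_lt ?_ (mk_Iio_lt' (e j))
        exact mk_le_of_injective (f := fun i => ⟨e i.1, i.2⟩)
          (fun a b hab => Subtype.ext (e.injective (congrArg Subtype.val hab)))
      have h2 : #(B ∪ ⋃ i : {i : I // e i < e j},
          {z' | z' ∈ X ∧ (G (g i.1).down z' ∨ G z' (g i.1).down)} : Set P) < m := by
        apply mk_union_lt hm.aleph0_le hB
        exact (card_iUnion_lt_iff_forall_of_isRegular hm h1).2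
          fun i => hG _ (hC _ (hg i.1 i.2).1)
      have h3 : ¬ C j ⊆ (B ∪ ⋃ i : {i : I // e i < e j},
          {z' | z' ∈ X ∧ (G (g i.1).down z' ∨ G z' (g i.1).down)} : Set P) := fun h =>
        absurd ((hC' j).trans (mk_le_mk_of_subset h)) (not_le.2 h2)
      obtain ⟨a, ha, hna⟩ := not_subset.1 h3
      refine ⟨⟨a⟩, ⟨ha, fun h => hna (Or.inl h)⟩, fun i hi => ⟨fun h => hna (Or.inr ?_),
        fun h => hna (Or.inr ?_)⟩⟩
      · exact mem_iUnion.2 ⟨⟨i, hi⟩, hC j ha, Or.inl h⟩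
      · exact mem_iUnion.2 ⟨⟨i, hi⟩, hC j ha, Or.inr h⟩)
  refine ⟨fun i => (f i).down, hf1, fun i j hij => ?_⟩
  rcases lt_trichotomy (e i) (e j) with h | h | h
  · exact (hf2 i j h).1
  · exact absurd (e.injective h) hij
  · exact (hf2 j i h).2

end Pool.Agent.H6.RS
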