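import Pool.Agent.H6.RSA

set_option autoImplicit false

open Cardinal Set Order

namespace Pool.Agent.H6.RS

variable {P : Type}

/-- A reflexive symmetric relation with a kernel system indexed by cardinals. -/
structure Sys (P : Type) where
  R : P → P → Prop
  symm : ∀ a b, R a b → R b a
  refl : ∀ a, R a a
  X : Cardinal.{0} → Set P
  K : ∀ l x, x ∈ X l ↔ ∀ m, l ≤ m → m.IsRegular → #{z | z ∈ X m ∧ R x z} < m

namespace Sys

variable (T : Sys P)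

def S (x : P) (m : Cardinal.{0}) : Prop := m.IsRegular ∧ m ≤ #{z | z ∈ T.X m ∧ T.R x z}

lemma mem_X (l : Cardinal.{0}) (x : P) : x ∈ T.X l ↔ ∀ m, l ≤ m → ¬ T.S x m := by
  rw [T.K]
  constructor
  · intro h m hm hS
    exact absurd (h m hm hS.1) (not_lt.2 hS.2)
  · intro h m hm hr
    by_contra hn
    exact h m hm ⟨hr, not_lt.1 hn⟩

lemma X_mono {l l' : Cardinal.{0}} (h : l ≤ l') : T.X l ⊆ T.X l' := by
  intro x hx
  rw [T.mem_X] at hx ⊢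
  exact fun m hm => hx m (h.trans hm)

lemma deg {m : Cardinal.{0}} (hm : m.IsRegular) {x : P} (hx : x ∈ T.X m) :
    #{z | z ∈ T.X m ∧ T.R x z} < m := (T.K m x).1 hx m le_rfl hm

end Sys

structure St (P : Type) : Type 1 where
  l : Cardinal.{0}
  N : Set P
  H : Set P

structure Valid (T : Sys P) (s : St P) : Prop where
  reg : s.l.IsRegular
  card : #s.N < s.l
  subN : s.H ⊆ s.N
  subX : s.H ⊆ T.X s.l
  anti : ∀ h ∈ s.H, ∀ h' ∈ s.H, T.R h h' → h = h'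
  dich : ∀ x ∈ s.N, x ∈ T.X s.l →
    {h | h ∈ s.H ∧ T.R x h}.Subsingleton ∨ {h | h ∈ s.H ∧ T.R x h}.Infinite
  clo : ∀ h ∈ s.H, ∀ y ∈ T.X s.l, T.R h y → y ∈ s.N

structure Ext (T : Sys P) (s t : St P) : Prop where
  le : s.l ≤ t.l
  subN : s.N ⊆ t.N
  subH : s.H ⊆ t.H
  noNew : ∀ x ∈ s.N, x ∈ T.X s.l → ∀ h ∈ t.H, T.R x h → h ∈ s.H
  srv : ∀ x ∈ s.N, ∀ m, s.l ≤ m → m < t.l → T.S x m → {h | h ∈ t.H ∧ T.R x h}.Infinite

variable {T : Sys P}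

lemma Ext.rfl' (s : St P) : Ext T s s :=
  ⟨le_rfl, Subset.rfl, Subset.rfl, fun _ _ _ _ h _ => h,
    fun _ _ _ h1 h2 _ => absurd h2 (not_lt.2 h1)⟩

lemma Ext.trans {s t u : St P} (h1 : Ext T s t) (h2 : Ext T t u) : Ext T s u := by
  refine ⟨h1.le.trans h2.le, h1.subN.trans h2.subN, h1.subH.trans h2.subH, ?_, ?_⟩
  · intro x hx hX h hh hR
    exact h1.noNew x hx hX h (h2.noNew x (h1.subN hx) (T.X_mono h1.le hX) h hh hR) hR
  · intro x hx m hm hm' hS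
    rcases lt_or_ge m t.l with h | h
    · exact (h1.srv x hx m hm h hS).mono fun z hz => ⟨h2.subH hz.1, hz.2⟩
    · exact h2.srv x (h1.subN hx) m h hm' hS

/-- Enlarging `N` at the same level. -/
lemma ext_same {s : St P} (hs : Valid T s) (D : Set P) (hD : #D < s.l) :
    Valid T ⟨s.l, s.N ∪ D, s.H⟩ ∧ Ext T s ⟨s.l, s.N ∪ D, s.H⟩ := by
  refine ⟨⟨hs.reg, mk_union_lt hs.reg.aleph0_le hs.card hD, hs.subN.trans subset_union_left,
    hs.subX, hs.anti, ?_, fun h hh y hy hR => Or.inl (hs.clo h hh y hy hR)⟩,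
    ⟨le_rfl, subset_union_left, Subset.rfl, fun _ _ _ _ h _ => h,
      fun _ _ _ h1 h2 _ => absurd h2 (not_lt.2 h1)⟩⟩
  intro x _ hX
  by_cases hx : x ∈ s.N
  · exact hs.dich x hx hX
  · left
    intro h hh
    exact absurd (hs.clo h hh.1 x hX (T.symm _ _ hh.2)) hx

/-- Unions of chains of states. -/
lemma union_valid (C : Set (St P)) (hv : ∀ s ∈ C, Valid T s)
    (hch : ∀ s ∈ C, ∀ t ∈ C, Ext T s t ∨ Ext T t s) (l : Cardinal.{0}) (hl : l.IsRegular)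
    (hle : ∀ s ∈ C, s.l ≤ l) (U1 : #{x | ∃ s ∈ C, x ∈ s.N} < l)
    (U2 : ∀ s ∈ C, ∀ x ∈ s.N, ∀ m, s.l ≤ m → m < l → T.S x m →
      ∃ t ∈ C, ∃ m', s.l ≤ m' ∧ m' < t.l ∧ T.S x m')
    (U3 : ∀ s ∈ C, ∀ h ∈ s.H, ∀ y ∈ T.X l, T.R h y → ∃ t ∈ C, y ∈ t.N) :
    Valid T ⟨l, {x | ∃ s ∈ C, x ∈ s.N}, {x | ∃ s ∈ C, x ∈ s.H}⟩ ∧
      ∀ s ∈ C, Ext T s ⟨l, {x | ∃ s ∈ C, x ∈ s.N}, {x | ∃ s ∈ C, x ∈ s.H}⟩ := by
  have hE : ∀ s ∈ C, Ext T s ⟨l, {x | ∃ s ∈ C, x ∈ s.N}, {x | ∃ s ∈ C, x ∈ s.H}⟩ := by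
    intro s hs
    refine ⟨hle s hs, fun x hx => ⟨s, hs, hx⟩, fun x hx => ⟨s, hs, hx⟩, ?_, ?_⟩
    · rintro x hx hX h ⟨t, ht, hh⟩ hR
      rcases hch s hs t ht with h1 | h1
      · exact h1.noNew x hx hX h hh hR
      · exact h1.subH hh
    · intro x hx m hm hm' hS
      obtain ⟨t, ht, m', h1, h2, h3⟩ := U2 s hs x hx m hm hm' hS
      rcases hch s hs t ht with h4 | h4
      · exact (h4.srv x hx m' h1 h2 h3).mono fun z hz => ⟨⟨t, ht, hz.1⟩, hz.2⟩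
      · exact absurd (h2.trans_le h4.le) (not_lt.2 h1)
  refine ⟨⟨hl, U1, ?_, ?_, ?_, ?_, ?_⟩, hE⟩
  · rintro x ⟨s, hs, hx⟩
    exact ⟨s, hs, (hv s hs).subN hx⟩
  · rintro x ⟨s, hs, hx⟩
    exact T.X_mono (hle s hs) ((hv s hs).subX hx)
  · rintro h ⟨s, hs, hh⟩ h' ⟨t, ht, hh'⟩ hR
    rcases hch s hs t ht with h1 | h1
    · exact (hv t ht).anti h (h1.subH hh) h' hh' hR
    · exact (hv s hs).anti h hh h' (h1.subH hh') hR
  · rintro x ⟨s, hs, hx⟩ hX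
    by_cases hXs : x ∈ T.X s.l
    · rcases (hv s hs).dich x hx hXs with h1 | h1
      · left
        exact h1.anti fun z hz => ⟨(hE s hs).noNew x hx hXs z hz.1 hz.2, hz.2⟩
      · right
        exact h1.mono fun z hz => ⟨⟨s, hs, hz.1⟩, hz.2⟩
    · right
      rw [T.mem_X] at hXs hX
      push Not at hXs
      obtain ⟨m, hm, hS⟩ := hXs
      have hm' : m < l := by
        by_contra hn
        exact hX m (not_lt.1 hn) hS
      exact (hE s hs).srv x hx m hm hm' hS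
  · rintro h ⟨s, hs, hh⟩ y hy hR
    exact U3 s hs h hh y hy hR

lemma ball_lt {m : Cardinal.{0}} (hm : m.IsRegular) {A : Set P} (hA : #A < m)
    (hAX : A ⊆ T.X m) : #{z | z ∈ T.X m ∧ ∃ y ∈ A, T.R y z} < m := by
  have h := (card_iUnion_lt_iff_forall_of_isRegular
    (t := fun y : A => {z | z ∈ T.X m ∧ T.R y.1 z}) hm hA).2 fun y => T.deg hm (hAX y.2)
  refine lt_of_le_of_lt (mk_le_mk_of_subset ?_) h
  rintro z ⟨hz, y, hy, hR⟩
  exact mem_iUnion.2 ⟨⟨y, hy⟩, hz, hR⟩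

lemma conflict_lt {m : Cardinal.{0}} (hm : m.IsRegular) (z : P) (hz : z ∈ T.X m) :
    #{z' | z' ∈ T.X m ∧ ((∃ y ∈ T.X m, T.R y z ∧ T.R y z') ∨
      (∃ y ∈ T.X m, T.R y z' ∧ T.R y z))} < m := by
  refine lt_of_le_of_lt (mk_le_mk_of_subset ?_)
    (ball_lt hm (T.deg hm hz) (fun y hy => hy.1))
  rintro z' ⟨hz', ⟨y, hy, h1, h2⟩ | ⟨y, hy, h2, h1⟩⟩
  · exact ⟨hz', y, ⟨hy, T.symm _ _ h1⟩, h2⟩
  · exact ⟨hz', y, ⟨hy, T.symm _ _ h1⟩, h2⟩

/-- The service step: from a regular level to its successor. -/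
lemma ext_succ {s : St P} (hs : Valid T s) (D : Set P) (hD : #D ≤ s.l) :
    ∃ t, Valid T t ∧ Ext T s t ∧ t.l = succ s.l ∧ D ⊆ t.N := by
  classical
  have hm := hs.reg
  have hm' := isRegular_succ hm.aleph0_le
  have hC : ∀ x, ∃ C : Set P, #C ≤ s.l ∧ (T.S x s.l → s.l ≤ #C) ∧
      C ⊆ {z | z ∈ T.X s.l ∧ T.R x z} := by
    intro x
    by_cases hS : T.S x s.l
    · obtain ⟨C, h1, h2⟩ := le_mk_iff_exists_subset.1 hS.2
      exact ⟨C, h2.le, fun _ => h2.ge, h1⟩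
    · exact ⟨∅, by simp, fun h => absurd h hS, empty_subset _⟩
  choose C hC1 hC2 hC3 using hC
  let G : P → Set P := fun x => {z | x ∈ T.X (succ s.l) ∧ z ∈ T.X (succ s.l) ∧ T.R x z} ∪ C x
  have hG : ∀ x, #(G x) ≤ s.l := by
    intro x
    refine mk_union_le' hm.aleph0_le ?_ (hC1 x)
    by_cases hx : x ∈ T.X (succ s.l)
    · exact (mk_le_mk_of_subset fun z hz => hz.2).trans (lt_succ_iff.1 (T.deg hm' hx))
    · have : {z | x ∈ T.X (succ s.l) ∧ z ∈ T.X (succ s.l) ∧ T.R x z} = ∅ := by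
        ext z; simp [hx]
      rw [this]; simp
  obtain ⟨N', hN1, hN2, hN3⟩ := exists_closure hm.aleph0_le G hG (s.N ∪ D)
    (mk_union_le' hm.aleph0_le hs.card.le hD)
  have hI : #({x // x ∈ N' ∧ T.S x s.l} × ℕ) ≤ s.l := by
    rw [mk_prod, lift_id, lift_id, mk_nat]
    refine (mul_le_mul' (b := s.l) (d := s.l) ?_ hm.aleph0_le).trans
      (mul_eq_self hm.aleph0_le).le
    exact (mk_le_mk_of_subset (s := {x | x ∈ N' ∧ T.S x s.l}) fun z hz => hz.1).trans hN2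
  have hB : #{z | z ∈ T.X s.l ∧ ∃ y ∈ s.N ∩ T.X s.l, T.R y z} < s.l :=
    ball_lt hm ((mk_le_mk_of_subset inter_subset_left).trans_lt hs.card) inter_subset_right
  obtain ⟨f, hf1, hf2⟩ := serve hm (T.X s.l) (fun z z' => ∃ y ∈ T.X s.l, T.R y z ∧ T.R y z')
    (conflict_lt hm) hI (fun i => C i.1.1) (fun i z hz => (hC3 _ hz).1)
    (fun i => hC2 _ i.1.2.2) _ hB
  have hfX : ∀ i, f i ∈ T.X s.l := fun i => (hC3 _ (hf1 i).1).1
  have hfN : ∀ i, f i ∈ N' := fun i => hN3 _ i.1.2.1 (Or.inr (hf1 i).1)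
  have hfB : ∀ i, ∀ y ∈ s.N, y ∈ T.X s.l → ¬ T.R y (f i) := fun i y h1 h2 h3 =>
    (hf1 i).2 ⟨hfX i, y, ⟨h1, h2⟩, h3⟩
  have hinf : ∀ x ∈ N', T.S x s.l → {h | h ∈ s.H ∪ range f ∧ T.R x h}.Infinite := by
    intro x hx hS
    refine infinite_of_injective_forall_mem (f := fun n : ℕ => f (⟨x, hx, hS⟩, n)) ?_ ?_
    · intro a b hab
      by_contra hne
      refine hf2 (⟨x, hx, hS⟩, a) (⟨x, hx, hS⟩, b) (fun h => hne (congrArg Prod.snd h))
        ⟨_, hfX _, T.refl _, ?_⟩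
      have hab' : f (⟨x, hx, hS⟩, a) = f (⟨x, hx, hS⟩, b) := hab
      rw [hab']
      exact T.refl _
    · intro n
      exact ⟨Or.inr (mem_range_self _), (hC3 _ (hf1 (⟨x, hx, hS⟩, n)).1).2⟩
  have hsubN : s.H ∪ range f ⊆ N' := by
    rintro h (hh | ⟨i, rfl⟩)
    · exact hN1 (Or.inl (hs.subN hh))
    · exact hfN i
  have hsubX : s.H ∪ range f ⊆ T.X (succ s.l) := by
    rintro h (hh | ⟨i, rfl⟩)
    · exact T.X_mono (le_succ _) (hs.subX hh)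
    · exact T.X_mono (le_succ _) (hfX i)
  refine ⟨⟨succ s.l, N', s.H ∪ range f⟩, ⟨hm', lt_succ_iff.2 hN2, hsubN, hsubX, ?_, ?_, ?_⟩,
    ⟨le_succ _, subset_union_left.trans hN1, subset_union_left, ?_, ?_⟩, rfl,
    subset_union_right.trans hN1⟩
  · rintro h (hh | ⟨i, rfl⟩) h' (hh' | ⟨j, rfl⟩) hR
    · exact hs.anti h hh h' hh' hR
    · exact absurd hR (hfB j h (hs.subN hh) (hs.subX hh))
    · exact absurd (T.symm _ _ hR) (hfB i h' (hs.subN hh') (hs.subX hh'))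
    · by_contra hne
      exact hf2 i j (fun h => hne (by rw [h])) ⟨_, hfX i, T.refl _, hR⟩
  · intro x hx hX
    by_cases hS : T.S x s.l
    · exact Or.inr (hinf x hx hS)
    have hX' : x ∈ T.X s.l := by
      rw [T.mem_X] at hX ⊢
      intro m hm1 hS'
      rcases hm1.lt_or_eq with h | h
      · exact hX m (succ_le_of_lt h) hS'
      · exact hS (h ▸ hS')
    by_cases hxN : x ∈ s.N
    · rcases hs.dich x hxN hX' with h1 | h1
      · left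
        refine h1.anti ?_
        rintro z ⟨hz | ⟨i, rfl⟩, hR⟩
        · exact ⟨hz, hR⟩
        · exact absurd hR (hfB i x hxN hX')
      · right
        exact h1.mono fun z hz => ⟨Or.inl hz.1, hz.2⟩
    · left
      rintro z ⟨hz | ⟨i, rfl⟩, hR⟩
      · exact absurd (hs.clo z hz x hX' (T.symm _ _ hR)) hxN
      rintro z' ⟨hz' | ⟨j, rfl⟩, hR'⟩
      · exact absurd (hs.clo z' hz' x hX' (T.symm _ _ hR')) hxN
      by_contra hne
      exact hf2 i j (fun h => hne (by rw [h])) ⟨x, hX', hR, hR'⟩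
  · intro h hh y hy hR
    exact hN3 h (hsubN hh) (Or.inl ⟨hsubX hh, hy, hR⟩)
  · rintro x hx hX h (hh | ⟨i, rfl⟩) hR
    · exact hh
    · exact absurd hR (hfB i x hx hX)
  · intro x hx m h1 h2 hS
    have : m = s.l := le_antisymm (lt_succ_iff.1 h2) h1
    exact hinf x (hN1 (Or.inl hx)) (this ▸ hS)

end Pool.Agent.H6.RS
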