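import Pool.Agent.H6.RSB

set_option autoImplicit false

open Cardinal Set Order

namespace Pool.Agent.H6.RS

variable {P : Type} {T : Sys P}

def EXT (T : Sys P) (l : Cardinal.{0}) : Prop :=
  ∀ s, Valid T s → s.l ≤ l → ∀ D : Set P, #D < l →
    ∃ t, Valid T t ∧ Ext T s t ∧ t.l = l ∧ D ⊆ t.N

lemma ext_limit {l : Cardinal.{0}} (hl : l.IsRegular) (hlim : ∀ m < l, succ m < l)
    (IH : ∀ m < l, m.IsRegular → EXT T m) {s : St P} (hs : Valid T s) (hsl : s.l < l)
    (D : Set P) (hD : #D < l) : ∃ t, Valid T t ∧ Ext T s t ∧ t.l = l ∧ D ⊆ t.N := by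
  have step : ∀ s : {s : St P // Valid T s ∧ s.l < l}, ∃ t : {s : St P // Valid T s ∧ s.l < l},
      Ext T s.1 t.1 ∧ D ⊆ t.1.N ∧ (∀ h ∈ s.1.H, ∀ y ∈ T.X l, T.R h y → y ∈ t.1.N) ∧
      (∀ x ∈ s.1.N, ∀ m, s.1.l ≤ m → m < l → T.S x m →
        ∃ m', s.1.l ≤ m' ∧ m' < t.1.l ∧ T.S x m') := by
    rintro ⟨s, hs, hsl⟩
    have hb : ∀ x, ∃ c < l, (∃ m, s.l ≤ m ∧ m < l ∧ T.S x m) → s.l ≤ c ∧ T.S x c := by
      intro x
      by_cases h : ∃ m, s.l ≤ m ∧ m < l ∧ T.S x m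
      · obtain ⟨m, h1, h2, h3⟩ := h
        exact ⟨m, h2, fun _ => ⟨h1, h3⟩⟩
      · exact ⟨s.l, hsl, fun h' => absurd h' h⟩
    choose b hb1 hb2 using hb
    have hsup : ⨆ x : s.N, b x.1 < l :=
      iSup_lt_of_lt_cof_ord (by rw [hl.cof_ord]; exact hs.card.trans hsl) fun x => hb1 x.1
    have hball : #{z | z ∈ T.X l ∧ ∃ y ∈ s.H, T.R y z} < l :=
      ball_lt hl ((mk_le_mk_of_subset hs.subN).trans_lt (hs.card.trans hsl))
        (hs.subX.trans (T.X_mono hsl.le))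
    have hD' := mk_union_lt hl.aleph0_le hD hball
    set c := max (max s.l #(D ∪ {z | z ∈ T.X l ∧ ∃ y ∈ s.H, T.R y z} : Set P))
      (⨆ x : s.N, b x.1) with hc
    have hcl : c < l := max_lt (max_lt hsl hD') hsup
    have hsc : s.l ≤ c := (le_max_left _ _).trans (le_max_left _ _)
    obtain ⟨t, ht1, ht2, ht3, ht4⟩ := IH (succ c) (hlim c hcl)
      (isRegular_succ (hs.reg.aleph0_le.trans hsc)) s hs (hsc.trans (le_succ c)) _
      (lt_succ_iff.2 ((le_max_right _ _).trans (le_max_left _ _)))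
    refine ⟨⟨t, ht1, ht3 ▸ hlim c hcl⟩, ht2, subset_union_left.trans ht4, ?_, ?_⟩
    · intro h hh y hy hR
      exact ht4 (Or.inr ⟨hy, h, hh, hR⟩)
    · intro x hx m h1 h2 h3
      obtain ⟨h4, h5⟩ := hb2 x ⟨m, h1, h2, h3⟩
      refine ⟨b x, h4, ?_, h5⟩
      show b x < t.l
      rw [ht3, lt_succ_iff]
      exact (le_ciSup (f := fun x : s.N => b x.1) bddAbove_of_small ⟨x, hx⟩).trans
        (le_max_right _ _)
  choose nx h1 h2 h3 h4 using step
  let u : ℕ → {s : St P // Valid T s ∧ s.l < l} := fun n => nx^[n] ⟨s, hs, hsl⟩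
  have hu : ∀ n, u (n + 1) = nx (u n) := fun n => Function.iterate_succ_apply' _ _ _
  have hmono : ∀ i j, i ≤ j → Ext T (u i).1 (u j).1 := by
    intro i j hij
    induction j, hij using Nat.le_induction with
    | base => exact Ext.rfl' _
    | succ j _ ih => rw [hu]; exact ih.trans (h1 _)
  have hU := union_valid (T := T) (range fun n => (u n).1) (by rintro _ ⟨n, rfl⟩; exact (u n).2.1)
    (by
      rintro _ ⟨i, rfl⟩ _ ⟨j, rfl⟩
      rcases le_total i j with h | h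
      · exact Or.inl (hmono i j h)
      · exact Or.inr (hmono j i h)) l hl (by rintro _ ⟨n, rfl⟩; exact (u n).2.2.le)
    (by
      have := (card_iUnion_lt_iff_forall_of_isRegular (t := fun n : ℕ => (u n).1.N) hl
        (by rw [mk_nat]; exact hs.reg.aleph0_le.trans_lt hsl)).2
        fun n => (u n).2.1.card.trans (u n).2.2
      refine lt_of_le_of_lt (mk_le_mk_of_subset ?_) this
      rintro x ⟨_, ⟨n, rfl⟩, hx⟩
      exact mem_iUnion.2 ⟨n, hx⟩)
    (by
      rintro _ ⟨n, rfl⟩ x hx m a1 a2 a3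
      refine ⟨_, ⟨n + 1, rfl⟩, ?_⟩
      have := h4 (u n) x hx m a1 a2 a3
      rwa [← hu] at this)
    (by
      rintro _ ⟨n, rfl⟩ h hh y hy hR
      refine ⟨_, ⟨n + 1, rfl⟩, ?_⟩
      have := h3 (u n) h hh y hy hR
      rwa [← hu] at this)
  refine ⟨_, hU.1, hU.2 s ⟨0, rfl⟩, rfl, fun x hx => ⟨_, ⟨0 + 1, rfl⟩, ?_⟩⟩
  have := h2 (u 0) hx
  rwa [← hu] at this

lemma ext_singular {μ : Cardinal.{0}} (hμ : μ.IsSingular)
    (IH : ∀ m < μ, m.IsRegular → EXT T m) {s : St P} (hs : Valid T s) (hsl : s.l < μ)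
    (D : Set P) (hD : #D ≤ μ) : ∃ t, Valid T t ∧ Ext T s t ∧ t.l = succ μ ∧ D ⊆ t.N := by
  classical
  have hlim : ∀ m < μ, succ m < μ := fun m hm => hμ.isSuccLimit.succ_lt hm
  obtain ⟨J, hJ, hJc⟩ := Order.exists_cof_eq μ.ord.ToType
  rw [Ordinal.cof_toType] at hJc
  set b := max s.l #J with hb
  have hbμ : b < μ := max_lt hsl (hJc ▸ hμ.cof_ord_lt)
  have hb0 : ℵ₀ ≤ b := hs.reg.aleph0_le.trans (le_max_left _ _)
  have hJb : #J ≤ b := le_max_right _ _
  obtain ⟨s0, hs0, hss0, hs0l, -⟩ := IH (succ b) (hlim b hbμ) (isRegular_succ hb0) s hs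
    ((le_max_left _ _).trans (le_succ b)) ∅ (by simp)
  let ρ : J → Cardinal.{0} := fun j => max b #(Iio j.1)
  have hbρ : ∀ j, b ≤ ρ j := fun j => le_max_left _ _
  have hρμ : ∀ j, ρ j < μ := fun j => max_lt hbμ (mk_Iio_lt' _)
  have hρm : ∀ i j, i ≤ j → ρ i ≤ ρ j := fun i j h =>
    max_le_max le_rfl (mk_le_mk_of_subset (Iio_subset_Iio h))
  have hρc : ∀ c < μ, ∃ j, c < ρ j := by
    intro c hc
    obtain ⟨i, hi⟩ := exists_Iio_eq (hlim c hc)
    obtain ⟨j, hj, hij⟩ := hJ i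
    refine ⟨⟨j, hj⟩, (lt_succ c).trans_le ?_⟩
    rw [← hi]
    exact (mk_le_mk_of_subset (Iio_subset_Iio hij)).trans (le_max_right _ _)
  let bel : Option J → Set J := fun o => {i | ∀ j, o = some j → i < j}
  let τ : Option J → Cardinal.{0} := fun o => max b (⨆ i : bel o, ρ i.1)
  have hbτ : ∀ o, b ≤ τ o := fun o => le_max_left _ _
  have hρτ : ∀ o, ∀ i ∈ bel o, ρ i ≤ τ o := fun o i hi =>
    (le_ciSup (f := fun i : bel o => ρ i.1) bddAbove_of_small ⟨i, hi⟩).trans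
      (le_max_right _ _)
  have hτlt : ∀ o c, b ≤ c → c < τ o → ∃ i ∈ bel o, c < ρ i := by
    intro o c h1 h2
    by_contra hn
    push Not at hn
    exact absurd h2 (not_lt.2 (max_le h1 (ciSup_le' fun i => hn i.1 i.2)))
  have hτle : ∀ o c, b ≤ c → (∀ i ∈ bel o, ρ i ≤ c) → τ o ≤ c := fun o c h1 h2 =>
    max_le h1 (ciSup_le' fun i => h2 i.1 i.2)
  have hbelc : ∀ o, #(bel o) ≤ b := fun o => (mk_set_le _).trans hJb
  have hτreg : ∀ o, (succ (τ o)).IsRegular := fun o => isRegular_succ (hb0.trans (hbτ o))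
  have hτnone : τ none = μ := by
    apply le_antisymm (hτle _ _ hbμ.le fun i _ => (hρμ i).le)
    apply le_of_forall_lt
    intro c hc
    obtain ⟨j, hj⟩ := hρc c hc
    exact hj.trans_le (hρτ none j (fun _ h => by cases h))
  let A : Option J → P → Set P := fun o x =>
    {z | x ∈ T.X (succ (τ o)) ∧ z ∈ T.X (succ (τ o)) ∧ T.R x z}
  have hA : ∀ o x, #(A o x) ≤ τ o := by
    intro o x
    by_cases hx : x ∈ T.X (succ (τ o))
    · exact (mk_le_mk_of_subset fun z hz => hz.2).trans (lt_succ_iff.1 (T.deg (hτreg o) hx))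
    · have : A o x = ∅ := by
        ext z; simp [A, hx]
      rw [this]; simp
  choose g hg1 hg2 using fun o x => exists_rank (A o x) (hA o x)
  obtain ⟨gD, hgD1, hgD2⟩ := exists_rank D hD
  let F : Cardinal.{0} → P → Set P := fun c x => ⋃ o, {y | y ∈ A o x ∧ g o x y < c}
  have hF : ∀ c, b ≤ c → ∀ x, #(F c x) ≤ c := by
    intro c hc x
    refine mk_iUnion_le_of_le (hb0.trans hc) ?_ _ (fun o => hg2 o x c)
    rw [mk_option]
    exact (add_le_add (hJb.trans hc) (one_le_aleph0.trans (hb0.trans hc))).trans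
      (add_eq_self (hb0.trans hc)).le
  let Q : J → St P → Prop := fun j t => Valid T t ∧ t.l = succ (ρ j) ∧ Ext T s0 t ∧
    {y | y ∈ D ∧ gD y < ρ j} ⊆ t.N ∧ ∀ x ∈ s0.N, F (ρ j) x ⊆ t.N
  let Rel : J → St P → J → St P → Prop := fun _ s j t =>
    Ext T s t ∧ ∀ x ∈ s.N, F (ρ j) x ⊆ t.N
  have UN : ∀ o (f : J → St P), (∀ i ∈ bel o, Q i (f i)) →
      (∀ i i', i ∈ bel o → i' ∈ bel o → i < i' → Rel i (f i) i' (f i')) →
      ∃ u, Valid T u ∧ u.l = succ (τ o) ∧ Ext T s0 u ∧ ∀ i ∈ bel o, Ext T (f i) u := by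
    intro o f hQ hR
    have hv : ∀ s ∈ insert s0 (f '' bel o), Valid T s := by
      rintro _ (rfl | ⟨i, hi, rfl⟩)
      · exact hs0
      · exact (hQ i hi).1
    have hch : ∀ s ∈ insert s0 (f '' bel o), ∀ t ∈ insert s0 (f '' bel o),
        Ext T s t ∨ Ext T t s := by
      rintro _ (rfl | ⟨i, hi, rfl⟩) _ (rfl | ⟨j, hj, rfl⟩)
      · exact Or.inl (Ext.rfl' _)
      · exact Or.inl (hQ j hj).2.2.1
      · exact Or.inr (hQ i hi).2.2.1
      · rcases lt_trichotomy i j with h | h | h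
        · exact Or.inl (hR i j hi hj h).1
        · rw [h]; exact Or.inl (Ext.rfl' _)
        · exact Or.inr (hR j i hj hi h).1
    have hle : ∀ s ∈ insert s0 (f '' bel o), s.l ≤ succ (τ o) := by
      rintro _ (rfl | ⟨i, hi, rfl⟩)
      · rw [hs0l]; exact succ_le_succ (hbτ o)
      · rw [(hQ i hi).2.1]; exact succ_le_succ (hρτ o i hi)
    have hge : ∀ s ∈ insert s0 (f '' bel o), succ b ≤ s.l := by
      rintro _ (rfl | ⟨i, hi, rfl⟩)
      · exact hs0l.ge
      · rw [(hQ i hi).2.1]; exact succ_le_succ (hbρ i)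
    have hU := union_valid (T := T) (insert s0 (f '' bel o)) hv hch (succ (τ o)) (hτreg o) hle
      (by
        have h1 := (card_iUnion_lt_iff_forall_of_isRegular (t := fun i : bel o => (f i.1).N)
          (hτreg o) (lt_succ_iff.2 ((hbelc o).trans (hbτ o)))).2
          fun i => (hQ i.1 i.2).1.card.trans_le (hle _ (Or.inr ⟨i.1, i.2, rfl⟩))
        have h2 := mk_union_lt (hτreg o).aleph0_le (hs0.card.trans_le (hle _ (Or.inl rfl))) h1
        refine lt_of_le_of_lt (mk_le_mk_of_subset ?_) h2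
        rintro x ⟨_, rfl | ⟨i, hi, rfl⟩, hx⟩
        · exact Or.inl hx
        · exact Or.inr (mem_iUnion.2 ⟨⟨i, hi⟩, hx⟩))
      (by
        intro s hs x hx m a1 a2 a3
        have hbm : b < m := (lt_succ b).trans_le ((hge s hs).trans a1)
        have : ∃ i ∈ bel o, m ≤ ρ i := by
          by_contra hn
          push Not at hn
          have h1 : ⨆ i : bel o, ρ i.1 < m :=
            iSup_lt_of_lt_cof_ord (by rw [a3.1.cof_ord]; exact (hbelc o).trans_lt hbm)
              fun i => hn i.1 i.2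
          exact absurd (lt_succ_iff.1 a2) (not_le.2 (max_lt hbm h1))
        obtain ⟨i, hi, hm⟩ := this
        refine ⟨f i, Or.inr ⟨i, hi, rfl⟩, m, a1, ?_, a3⟩
        rw [(hQ i hi).2.1]
        exact lt_succ_iff.2 hm)
      (by
        intro s hs h hh y hy hR'
        by_cases htop : ∃ t ∈ insert s0 (f '' bel o), succ (τ o) ≤ t.l
        · obtain ⟨t, ht, htl⟩ := htop
          rcases hch s hs t ht with h1 | h1
          · exact ⟨t, ht, (hv t ht).clo h (h1.subH hh) y (T.X_mono htl hy) hR'⟩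
          · exact ⟨s, hs, (hv s hs).clo h hh y (T.X_mono (htl.trans h1.le) hy) hR'⟩
        push Not at htop
        have hyA : y ∈ A o h := ⟨T.X_mono (hle s hs) ((hv s hs).subX hh), hy, hR'⟩
        have hc := hg1 o h y hyA
        have hhN := (hv s hs).subN hh
        rcases hs with rfl | ⟨i, hi, rfl⟩
        · have h1 : b < τ o := by
            have := htop _ (Or.inl rfl)
            rw [hs0l] at this
            exact succ_lt_succ_iff.1 this
          obtain ⟨k, hk, hk'⟩ := hτlt o (max (g o h y) b) (le_max_right _ _) (max_lt hc h1)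
          refine ⟨f k, Or.inr ⟨k, hk, rfl⟩, (hQ k hk).2.2.2.2 h hhN ?_⟩
          exact mem_iUnion.2 ⟨o, hyA, (le_max_left _ _).trans_lt hk'⟩
        · have h1 : ρ i < τ o := by
            have := htop _ (Or.inr ⟨i, hi, rfl⟩)
            rw [(hQ i hi).2.1] at this
            exact succ_lt_succ_iff.1 this
          obtain ⟨k, hk, hk'⟩ := hτlt o (max (g o h y) (ρ i)) ((hbρ i).trans (le_max_right _ _))
            (max_lt hc h1)
          have hik : i < k := by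
            by_contra hn
            exact absurd ((le_max_right _ _).trans_lt hk') (not_lt.2 (hρm k i (not_lt.1 hn)))
          refine ⟨f k, Or.inr ⟨k, hk, rfl⟩, (hR i k hi hk hik).2 h hhN ?_⟩
          exact mem_iUnion.2 ⟨o, hyA, (le_max_left _ _).trans_lt hk'⟩)
    exact ⟨_, hU.1, rfl, hU.2 _ (Or.inl rfl), fun i hi => hU.2 _ (Or.inr ⟨i, hi, rfl⟩)⟩
  have hbel : ∀ i j : J, i ∈ bel (some j) ↔ i < j := by
    intro i j
    constructor
    · intro h; exact h j rfl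
    · intro h k hk; cases hk; exact h
  have : Nonempty (St P) := ⟨s⟩
  obtain ⟨f, hf1, hf2⟩ := rec_exists (α := St P) (fun i j : J => i < j) wellFounded_lt Q Rel (by
    intro j f hQ hR
    obtain ⟨u, hu1, hu2, hu3, hu4⟩ := UN (some j) f (fun i hi => hQ i ((hbel i j).1 hi))
      (fun i i' hi hi' h => hR i i' ((hbel i j).1 hi) ((hbel i' j).1 hi') h)
    have hτρ : τ (some j) ≤ ρ j := hτle _ _ (hbρ j) fun i hi => hρm i j ((hbel i j).1 hi).le
    have h0 : ℵ₀ ≤ ρ j := hb0.trans (hbρ j)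
    have hc : #({y | y ∈ D ∧ gD y < ρ j} ∪ ⋃ x : u.N, F (ρ j) x.1 : Set P) ≤ ρ j := by
      refine mk_union_le' h0 (hgD2 _) (mk_iUnion_le_of_le h0 ?_ _ fun x => hF _ (hbρ j) x.1)
      have := hu1.card
      rw [hu2] at this
      exact (lt_succ_iff.1 this).trans hτρ
    obtain ⟨t, ht1, ht2, ht3, ht4⟩ := IH (succ (ρ j)) (hlim _ (hρμ j)) (isRegular_succ h0) u hu1
      (by rw [hu2]; exact succ_le_succ hτρ) _ (lt_succ_iff.2 hc)
    have hFt : ∀ x ∈ u.N, F (ρ j) x ⊆ t.N := fun x hx y hy =>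
      ht4 (Or.inr (mem_iUnion.2 ⟨⟨x, hx⟩, hy⟩))
    refine ⟨t, ⟨ht1, ht3, hu3.trans ht2, subset_union_left.trans ht4,
      fun x hx => hFt x (hu3.subN hx)⟩, fun i hi => ?_⟩
    have := hu4 i ((hbel i j).2 hi)
    exact ⟨this.trans ht2, fun x hx => hFt x (this.subN hx)⟩)
  obtain ⟨u, hu1, hu2, hu3, hu4⟩ := UN none f (fun i _ => hf1 i) (fun i i' _ _ h => hf2 i i' h)
  refine ⟨u, hu1, hss0.trans hu3, by rw [hu2, hτnone], fun y hy => ?_⟩
  obtain ⟨j, hj⟩ := hρc _ (hgD1 y hy)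
  exact (hu4 j (fun _ h => by cases h)).subN ((hf1 j).2.2.2.1 ⟨hy, hj⟩)

theorem ext_all (T : Sys P) (l : Cardinal.{0}) : l.IsRegular → EXT T l := by
  induction l using WellFoundedLT.induction with
  | _ l IH =>
    intro hl s hs hsl D hD
    rcases hsl.lt_or_eq with hlt | heq
    swap
    · subst heq
      exact ⟨_, (ext_same hs D hD).1, (ext_same hs D hD).2, rfl, subset_union_right⟩
    by_cases hlim : ∀ m < l, succ m < l
    · exact ext_limit hl hlim IH hs hlt D hD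
    push Not at hlim
    obtain ⟨m, hm1, hm2⟩ := hlim
    have hml : l = succ m := le_antisymm hm2 (succ_le_of_lt hm1)
    subst hml
    have hsm : s.l ≤ m := lt_succ_iff.1 hlt
    rcases isRegular_or_isSingular (hs.reg.aleph0_le.trans hsm) with hr | hsing
    · obtain ⟨t, ht1, ht2, ht3, -⟩ := IH m hm1 hr s hs hsm ∅ (by simpa using hr.pos)
      obtain ⟨u, hu1, hu2, hu3, hu4⟩ := ext_succ ht1 D (by rw [ht3]; exact lt_succ_iff.1 hD)
      exact ⟨u, hu1, ht2.trans hu2, by rw [hu3, ht3], hu4⟩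
    · refine ext_singular hsing (fun k hk => IH k (hk.trans hm1)) hs ?_ D (lt_succ_iff.1 hD)
      exact lt_of_le_of_ne hsm fun h => hsing.not_isRegular (h ▸ hs.reg)

theorem good (T : Sys P) [Infinite P] : ∃ H : Set P, H.Infinite ∧
    (∀ h ∈ H, ∀ h' ∈ H, T.R h h' → h = h') ∧
    ∀ x, {h | h ∈ H ∧ T.R x h}.Subsingleton ∨ {h | h ∈ H ∧ T.R x h}.Infinite := by
  by_cases hS : ∃ x m, T.S x m
  · obtain ⟨x, m, hS⟩ := hS
    have h0 : ℵ₀ ≤ #P := aleph0_le_mk P
    have hv : Valid T ⟨ℵ₀, {x}, ∅⟩ :=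
      ⟨isRegular_aleph0, by simp, empty_subset _, empty_subset _, fun h hh => hh.elim,
        fun _ _ _ => Or.inl fun h hh => hh.1.elim, fun h hh => hh.elim⟩
    obtain ⟨t, ht1, ht2, ht3, ht4⟩ := ext_all T (succ #P) (isRegular_succ h0) _ hv
      (h0.trans (le_succ _)) univ (by simp)
    refine ⟨t.H, ?_, ht1.anti, fun y => ht1.dich y (ht4 (mem_univ y)) ?_⟩
    · refine (ht2.srv x rfl m hS.1.aleph0_le ?_ hS).mono fun z hz => hz.1
      rw [ht3, lt_succ_iff]
      exact hS.2.trans (mk_set_le _)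
    · rw [T.mem_X, ht3]
      intro k hk hS'
      exact absurd ((hk.trans hS'.2).trans (mk_set_le _)) (not_le.2 (lt_succ _))
  · push Not at hS
    have hX : ∀ x, x ∈ T.X ℵ₀ := fun x => (T.mem_X _ _).2 fun m _ => hS x m
    obtain ⟨f, -, hf2⟩ := serve isRegular_aleph0 (T.X ℵ₀)
      (fun z z' => ∃ y ∈ T.X ℵ₀, T.R y z ∧ T.R y z') (conflict_lt isRegular_aleph0) (I := ℕ)
      (by simp) (fun _ => univ) (fun _ z _ => hX z) (fun _ => by simp) ∅ (by simpa using aleph0_pos)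
    refine ⟨range f, infinite_range_of_injective fun i j hij => ?_, ?_, fun x => Or.inl ?_⟩
    · by_contra hne
      exact hf2 i j hne ⟨f i, hX _, T.refl _, hij ▸ T.refl _⟩
    · rintro _ ⟨i, rfl⟩ _ ⟨j, rfl⟩ hR
      by_contra hne
      exact hf2 i j (fun h => hne (by rw [h])) ⟨_, hX _, T.refl _, hR⟩
    · rintro _ ⟨⟨i, rfl⟩, hi⟩ _ ⟨⟨j, rfl⟩, hj⟩
      by_contra hne
      exact hf2 i j (fun h => hne (by rw [h])) ⟨x, hX _, hi, hj⟩

end Pool.Agent.H6.RS
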