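import Mathlib

set_option autoImplicit false

namespace Pool.Agent.H6.SEM

def lab (k j : ℕ) : ℕ := if j % 2 = 0 then k + 1 + j / 2 else 1 + j / 2

def pe (k : ℕ) : List ℕ → List ℕ
  | [] => []
  | [_] => []
  | a :: b :: l => (lab k a + lab k b) :: pe k (b :: l)

lemma pe_zip (k h : ℕ) : ∀ (l : List ℕ) (a : ℕ),
    pe k (a :: l ++ [h]) = List.zipWith (fun x y => lab k x + lab k y) (a :: l) (l ++ [h])
  | [], a => by simp [pe]
  | b :: l, a => by
    have := pe_zip k h l b
    simp only [List.cons_append, pe, List.zipWith_cons_cons] at this ⊢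
    rw [this]

lemma lab_succ (k j : ℕ) : lab k j + lab k (j + 1) = k + 2 + j := by
  unfold lab; split_ifs <;> omega

def up : ℕ → ℕ → List ℕ
  | _, 0 => []
  | a, l + 1 => a :: up (a + 1) l

def dn : ℕ → ℕ → List ℕ
  | _, 0 => []
  | a, l + 1 => (a + l) :: dn a l

lemma up_coe : ∀ l a : ℕ, ((up a l : List ℕ) : Multiset ℕ) = Multiset.Ico a (a + l)
  | 0, a => by simp [up]
  | l + 1, a => by
    rw [up, ← Multiset.cons_coe, up_coe l (a + 1)]
    ext x
    simp only [Multiset.count_cons, Multiset.count_eq_of_nodup Multiset.nodup_Ico,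
      Multiset.mem_Ico]
    split_ifs <;> omega

lemma dn_coe : ∀ l a : ℕ, ((dn a l : List ℕ) : Multiset ℕ) = Multiset.Ico a (a + l)
  | 0, a => by simp [dn]
  | l + 1, a => by
    rw [dn, ← Multiset.cons_coe, dn_coe l a]
    ext x
    simp only [Multiset.count_cons, Multiset.count_eq_of_nodup Multiset.nodup_Ico,
      Multiset.mem_Ico]
    split_ifs <;> omega

lemma card_I (a b : ℕ) : (Multiset.Ico a b).card = b - a := Nat.card_Ico a b

lemma Ico_add (a b c : ℕ) (h1 : a ≤ b) (h2 : b ≤ c) :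
    Multiset.Ico a b + Multiset.Ico b c = Multiset.Ico a c := by
  ext x
  simp only [Multiset.count_add, Multiset.count_eq_of_nodup Multiset.nodup_Ico, Multiset.mem_Ico]
  split_ifs <;> omega

lemma pe_up (k h : ℕ) (t : List ℕ) : ∀ l a : ℕ, ((pe k (up a (l + 1) ++ h :: t) : List ℕ) : Multiset ℕ) =
    Multiset.Ico (k + 2 + a) (k + 2 + a + l) + {lab k (a + l) + lab k h} + (pe k (h :: t) : List ℕ)
  | 0, a => by simp [up, pe]
  | l + 1, a => by
    have := pe_up k h t l (a + 1)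
    simp only [up, List.cons_append, pe] at this ⊢
    rw [← Multiset.cons_coe, this, lab_succ, ← Multiset.singleton_add,
      ← Ico_add (k + 2 + a) (k + 2 + a + 1) (k + 2 + a + (l + 1)) (by omega) (by omega)]
    have e : Multiset.Ico (k + 2 + a) (k + 2 + a + 1) = {k + 2 + a} := by
      simp [Multiset.Ico]
    rw [e, show k + 2 + (a + 1) = k + 2 + a + 1 by omega,
      show k + 2 + a + 1 + l = k + 2 + a + (l + 1) by omega, show a + 1 + l = a + (l + 1) by omega]
    simp only [add_assoc]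

lemma pe_dn (k h a : ℕ) (t : List ℕ) : ∀ l : ℕ, ((pe k (dn a (l + 1) ++ h :: t) : List ℕ) : Multiset ℕ) =
    Multiset.Ico (k + 2 + a) (k + 2 + a + l) + {lab k a + lab k h} + (pe k (h :: t) : List ℕ)
  | 0 => by simp [dn, pe]
  | l + 1 => by
    have := pe_dn k h a t l
    simp only [dn, List.cons_append, pe] at this ⊢
    rw [← Multiset.cons_coe, this, ← add_assoc a l 1, add_comm (lab k (a + l + 1)), lab_succ,
      ← Multiset.singleton_add,
      ← Ico_add (k + 2 + a) (k + 2 + a + l) (k + 2 + a + (l + 1)) (by omega) (by omega)]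
    have e : Multiset.Ico (k + 2 + a + l) (k + 2 + a + (l + 1)) = {k + 2 + (a + l)} := by
      rw [← add_assoc _ l 1, ← add_assoc _ a l]
      simp [Multiset.Ico]
    rw [e]
    abel

abbrev Ent := ℕ × Bool × ℕ × ℕ

def fs (c : ℕ → ℕ) (e : Ent) : ℕ := if e.2.1 then c e.1 else c (e.1 + 1) - 1
def ls (c : ℕ → ℕ) (e : Ent) : ℕ := if e.2.1 then c (e.1 + 1) - 1 else c e.1
def sg (c : ℕ → ℕ) (e : Ent) : List ℕ :=
  if e.2.1 then up (c e.1) (c (e.1 + 1) - c e.1) else dn (c e.1) (c (e.1 + 1) - c e.1)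

def R (k a b e t : ℕ) : Prop :=
  if t = 0 then a + b + 1 = 2 * e
  else if t = 1 then a % 2 = 0 ∧ b % 2 = 0 ∧ a + b + 2 * k + 2 = 2 * e
  else a % 2 = 1 ∧ b % 2 = 1 ∧ a + b = 2 * e + 2 * k

lemma R_lab {k a b e t : ℕ} (h : R k a b e t) : lab k a + lab k b = k + 1 + e := by
  unfold R at h; unfold lab; split_ifs at h ⊢ <;> omega

def OK (k : ℕ) (c : ℕ → ℕ) (h : ℕ) : List Ent → Prop
  | [] => True
  | [e] => R k (ls c e) h (c (e.2.2.1 + 1)) e.2.2.2
  | e :: e' :: T => R k (ls c e) (fs c e') (c (e.2.2.1 + 1)) e.2.2.2 ∧ OK k c h (e' :: T)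

def VL (c : ℕ → ℕ) : List Ent → List ℕ
  | [] => []
  | e :: T => sg c e ++ VL c T

lemma sg_cons (c : ℕ → ℕ) (e : Ent) (h : c e.1 < c (e.1 + 1)) : ∃ l, sg c e = fs c e :: l := by
  obtain ⟨d, hd⟩ : ∃ d, c (e.1 + 1) - c e.1 = d + 1 := ⟨c (e.1 + 1) - c e.1 - 1, by omega⟩
  unfold sg fs
  rw [hd]
  split_ifs
  · exact ⟨_, rfl⟩
  · exact ⟨dn (c e.1) d, by rw [dn]; congr 1; omega⟩

lemma sg_coe (c : ℕ → ℕ) (e : Ent) (h : c e.1 < c (e.1 + 1)) :
    ((sg c e : List ℕ) : Multiset ℕ) = Multiset.Ico (c e.1) (c (e.1 + 1)) := by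
  unfold sg
  split_ifs
  · rw [up_coe]; congr 1; omega
  · rw [dn_coe]; congr 1; omega

lemma pe_sg (k : ℕ) (c : ℕ → ℕ) (e : Ent) (h : c e.1 < c (e.1 + 1)) (x : ℕ) (t : List ℕ) :
    ((pe k (sg c e ++ x :: t) : List ℕ) : Multiset ℕ) =
      Multiset.Ico (k + 2 + c e.1) (k + 1 + c (e.1 + 1)) + {lab k (ls c e) + lab k x} +
        (pe k (x :: t) : List ℕ) := by
  obtain ⟨d, hd⟩ : ∃ d, c (e.1 + 1) - c e.1 = d + 1 := ⟨c (e.1 + 1) - c e.1 - 1, by omega⟩
  have e1 : k + 1 + c (e.1 + 1) = k + 2 + c e.1 + d := by omega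
  have e2 : c (e.1 + 1) - 1 = c e.1 + d := by omega
  unfold sg ls
  rw [hd, e1, e2]
  split_ifs
  · exact pe_up k x t d _
  · exact pe_dn k x _ t d

lemma VL_coe (c : ℕ → ℕ) : ∀ T : List Ent, (∀ e ∈ T, c e.1 < c (e.1 + 1)) →
    ((VL c T : List ℕ) : Multiset ℕ) =
      ((T.map Prod.fst).map fun i => Multiset.Ico (c i) (c (i + 1))).sum
  | [], _ => by simp [VL]
  | e :: T, h => by
    rw [VL, ← Multiset.coe_add, sg_coe c e (h e List.mem_cons_self),
      VL_coe c T fun x hx => h x (List.mem_cons_of_mem _ hx)]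
    simp

lemma pe_VL (k : ℕ) (c : ℕ → ℕ) (x : ℕ) : ∀ T : List Ent, (∀ e ∈ T, c e.1 < c (e.1 + 1)) →
    OK k c x T → ((pe k (VL c T ++ [x]) : List ℕ) : Multiset ℕ) =
      ((T.map Prod.fst).map fun i => Multiset.Ico (k + 2 + c i) (k + 1 + c (i + 1))).sum +
      ((T.map fun e => e.2.2.1).map fun i => ({k + 1 + c (i + 1)} : Multiset ℕ)).sum
  | [], _, _ => by simp [VL, pe]
  | [e], h, ok => by
    have := pe_sg k c e (h e List.mem_cons_self) x []
    rw [R_lab ok] at this
    simpa [VL, pe] using this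
  | e :: e' :: T, h, ok => by
    have ih := pe_VL k c x (e' :: T) (fun y hy => h y (List.mem_cons_of_mem _ hy)) ok.2
    obtain ⟨l, hl⟩ := sg_cons c e' (h e' (by simp))
    have := pe_sg k c e (h e List.mem_cons_self) (fs c e') (l ++ VL c T ++ [x])
    rw [R_lab ok.1] at this
    rw [VL, hl] at ih
    rw [VL, VL, hl]
    simp only [List.cons_append, List.append_assoc] at this ih ⊢
    rw [this, ih]
    simp only [List.map_cons, List.sum_cons]
    abel

lemma tele (c : ℕ → ℕ) (o : ℕ) : ∀ r : ℕ, (∀ i < r, c i < c (i + 1)) →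
    ((List.range r).map fun i => Multiset.Ico (o + c i) (o + c (i + 1))).sum =
      Multiset.Ico (o + c 0) (o + c r) ∧ c 0 ≤ c r
  | 0, _ => by simp
  | r + 1, h => by
    obtain ⟨h1, h2⟩ := tele c o r fun i hi => h i (by omega)
    have := h r (by omega)
    refine ⟨?_, by omega⟩
    rw [List.range_succ, List.map_append, List.sum_append, h1]
    simpa using Ico_add _ _ _ (by omega) (by omega)

def Good (m n : ℕ) : Prop :=
  ∃ f : Fin m ⊕ Fin n → ℕ, ∃ g : Fin m ⊕ Fin n → ℕ, ∃ k : ℕ,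
    Function.Injective f ∧
    Function.Injective g ∧
    (∀ v, 1 ≤ f v ∧ f v ≤ m + n) ∧
    (∀ e, m + n + 1 ≤ g e ∧ g e ≤ 2 * (m + n)) ∧
    (∀ i j : Fin m, j.val = (i.val + 1) % m →
        f (Sum.inl i) + f (Sum.inl j) + g (Sum.inl i) = k) ∧
    (∀ i j : Fin n, j.val = (i.val + 1) % n →
        f (Sum.inr i) + f (Sum.inr j) + g (Sum.inr i) = k)

lemma Good.symm {m n : ℕ} (h : Good m n) : Good n m := by
  obtain ⟨f, g, k, h1, h2, h3, h4, h5, h6⟩ := h
  refine ⟨f ∘ Sum.swap, g ∘ Sum.swap, k, h1.comp Sum.swap_leftInverse.injective,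
    h2.comp Sum.swap_leftInverse.injective, fun v => ?_, fun v => ?_, h6, h5⟩
  · rw [add_comm n m]; exact h3 _
  · rw [add_comm n m]; exact h4 _

lemma sum_inj (A B : List ℕ) (a b : ℕ) (h : (A : Multiset ℕ) + B = Multiset.Ico a b) {m n : ℕ}
    (hm : A.length = m) (hn : B.length = n) :
    Function.Injective (Sum.elim (fun i : Fin m => A[i.1]'(hm ▸ i.2))
      (fun i : Fin n => B[i.1]'(hn ▸ i.2))) ∧
    ∀ v, a ≤ Sum.elim (fun i : Fin m => A[i.1]'(hm ▸ i.2)) (fun i : Fin n => B[i.1]'(hn ▸ i.2)) v ∧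
      Sum.elim (fun i : Fin m => A[i.1]'(hm ▸ i.2)) (fun i : Fin n => B[i.1]'(hn ▸ i.2)) v < b := by
  have h1 : (A ++ B).Nodup := by
    rw [← Multiset.coe_nodup, ← Multiset.coe_add, h]; exact Multiset.nodup_Ico
  have h2 : ∀ x ∈ A ++ B, a ≤ x ∧ x < b := by
    intro x hx
    rw [← Multiset.mem_coe, ← Multiset.coe_add, h] at hx
    exact Multiset.mem_Ico.1 hx
  obtain ⟨h3, h4, h5⟩ := List.nodup_append.1 h1
  refine ⟨?_, ?_⟩
  · rintro (i | i) (j | j) e
    · exact congrArg _ (Fin.ext (h3.getElem_inj_iff.1 e))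
    · exact absurd e (h5 _ (List.getElem_mem _) _ (List.getElem_mem _))
    · exact absurd e.symm (h5 _ (List.getElem_mem _) _ (List.getElem_mem _))
    · exact congrArg _ (Fin.ext (h4.getElem_inj_iff.1 e))
  · rintro (i | i)
    · exact h2 _ (List.mem_append_left _ (List.getElem_mem _))
    · exact h2 _ (List.mem_append_right _ (List.getElem_mem _))

lemma of_lists (k : ℕ) (A B : List ℕ) (hv : (A : Multiset ℕ) + B = Multiset.Ico 0 (2 * k + 1))
    (he : ((List.zipWith (fun x y => lab k x + lab k y) A (A.rotate 1) : List ℕ) : Multiset ℕ) +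
      (List.zipWith (fun x y => lab k x + lab k y) B (B.rotate 1) : List ℕ) =
        Multiset.Ico (k + 2) (k + 2 + (2 * k + 1))) : Good A.length B.length := by
  have hp : A.length + B.length = 2 * k + 1 := by simpa [card_I] using congrArg Multiset.card hv
  obtain ⟨v1, v2⟩ := sum_inj A B _ _ hv rfl rfl
  obtain ⟨e1, e2⟩ := sum_inj _ _ _ _ he (m := A.length) (n := B.length) (by simp) (by simp)
  refine ⟨fun v => lab k (Sum.elim (fun i : Fin A.length => A[i.1]) (fun i : Fin B.length => B[i.1]) v),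
    fun v => 5 * k + 4 - Sum.elim
      (fun i : Fin A.length => (List.zipWith (fun x y => lab k x + lab k y) A (A.rotate 1))[i.1]'(by simp))
      (fun i : Fin B.length => (List.zipWith (fun x y => lab k x + lab k y) B (B.rotate 1))[i.1]'(by simp))
      v, 5 * k + 4, fun u v h => v1 ?_, fun u v h => e1 ?_,
    fun v => ?_, fun v => ?_, fun i j h => ?_, fun i j h => ?_⟩
  · have a1 := v2 u
    have a2 := v2 v
    simp only [lab] at h
    split_ifs at h <;> omega
  · have a1 := e2 u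
    have a2 := e2 v
    simp only at h
    omega
  · have a1 := v2 v
    simp only [lab]
    split_ifs <;> omega
  · have a1 := e2 v
    beta_reduce
    omega
  · have a1 := e2 (Sum.inl i)
    simp only [Sum.elim_inl, List.getElem_zipWith, List.getElem_rotate, ← h] at a1 ⊢
    omega
  · have a1 := e2 (Sum.inr i)
    simp only [Sum.elim_inr, List.getElem_zipWith, List.getElem_rotate, ← h] at a1 ⊢
    omega

def len (c : ℕ → ℕ) : List Ent → ℕ
  | [] => 0
  | e :: T => (c (e.1 + 1) - c e.1) + len c T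

lemma len_VL (c : ℕ → ℕ) : ∀ T : List Ent, (∀ e ∈ T, c e.1 < c (e.1 + 1)) →
    (VL c T).length = len c T
  | [], _ => rfl
  | e :: T, h => by
    have := congrArg Multiset.card (sg_coe c e (h e List.mem_cons_self))
    simp only [Multiset.coe_card, card_I] at this
    rw [VL, len, List.length_append, len_VL c T fun x hx => h x (List.mem_cons_of_mem _ hx), this]

def Inc (c : ℕ → ℕ) : ℕ → Prop
  | 0 => True
  | r + 1 => c r < c (r + 1) ∧ Inc c r

lemma Inc_lt (c : ℕ → ℕ) : ∀ r, Inc c r → ∀ i < r, c i < c (i + 1)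
  | 0, _, _, hi => absurd hi (Nat.not_lt_zero _)
  | r + 1, h, i, hi => by
    rcases Nat.lt_succ_iff_lt_or_eq.1 hi with a | a
    · exact Inc_lt c r h.2 i a
    · rw [a]; exact h.1

theorem key (k n r : ℕ) (c : ℕ → ℕ) (e1 e2 : Ent) (T1 T2 : List Ent)
    (p1 : ((e1 :: T1).map Prod.fst ++ (e2 :: T2).map Prod.fst).Perm (List.range r))
    (p2 : (((e1 :: T1).map fun e => e.2.2.1) ++ (e2 :: T2).map fun e => e.2.2.1).Perm (List.range r))
    (h : c 0 = 0 ∧ c r = 2 * k + 1 ∧ Inc c r ∧ OK k c (fs c e1) (e1 :: T1) ∧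
      OK k c (fs c e2) (e2 :: T2) ∧ len c (e1 :: T1) = n) : Good n (2 * k + 1 - n) := by
  obtain ⟨h0, hr, hi, o1, o2, hn⟩ := h
  have hl := Inc_lt c r hi
  have m1 : ∀ e ∈ e1 :: T1, c e.1 < c (e.1 + 1) := fun e he => hl _ (List.mem_range.1
    (p1.subset (List.mem_append_left _ (List.mem_map_of_mem he))))
  have m2 : ∀ e ∈ e2 :: T2, c e.1 < c (e.1 + 1) := fun e he => hl _ (List.mem_range.1
    (p1.subset (List.mem_append_right _ (List.mem_map_of_mem he))))
  have hv : ((VL c (e1 :: T1) : List ℕ) : Multiset ℕ) + (VL c (e2 :: T2) : List ℕ) =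
      Multiset.Ico 0 (2 * k + 1) := by
    rw [VL_coe c _ m1, VL_coe c _ m2, ← List.sum_append, ← List.map_append, (p1.map _).sum_eq]
    have := (tele c 0 r hl).1
    simpa [h0, hr] using this
  have z : ∀ (e : Ent) (T : List Ent), c e.1 < c (e.1 + 1) →
      List.zipWith (fun x y => lab k x + lab k y) (VL c (e :: T)) ((VL c (e :: T)).rotate 1) =
        pe k (VL c (e :: T) ++ [fs c e]) := by
    intro e T he
    obtain ⟨l, hl⟩ := sg_cons c e he
    rw [VL, hl, List.cons_append, pe_zip]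
    simp
  have := of_lists k _ _ hv (by
    rw [z _ _ (m1 _ List.mem_cons_self), z _ _ (m2 _ List.mem_cons_self), pe_VL k c _ _ m1 o1,
      pe_VL k c _ _ m2 o2, add_add_add_comm, ← List.sum_append, ← List.map_append,
      (p1.map _).sum_eq, ← List.sum_append, ← List.map_append, (p2.map _).sum_eq,
      ← List.sum_map_add]
    have t := (tele c (k + 2) r hl).1
    rw [h0, hr, add_zero] at t
    rw [← t]
    congr 1
    refine List.map_congr_left fun i hi => ?_
    have a := hl i (List.mem_range.1 hi)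
    rw [← Ico_add (k + 2 + c i) (k + 1 + c (i + 1)) (k + 2 + c (i + 1)) (by omega) (by omega),
      show k + 2 + c (i + 1) = k + 1 + c (i + 1) + 1 by omega]
    simp [Multiset.Ico])
  have hp : (VL c (e1 :: T1)).length + (VL c (e2 :: T2)).length = 2 * k + 1 := by
    simpa [card_I] using congrArg Multiset.card hv
  rw [len_VL c _ m1, hn] at this hp
  rwa [show 2 * k + 1 - n = (VL c (e2 :: T2)).length by omega]

end Pool.Agent.H6.SEM
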