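import Pool.Agent.H6.SEM1

set_option autoImplicit false

namespace Pool.Agent.H6.SEM

lemma f0_0 (q t n : ℕ) (hq : 2 ≤ q) (h : 1 ≤ t ∧ t + 1 ≤ 2 * q ∧ 4 * t + n = 16 * q + 1) :
    Good n (2 * (8 * q + 0) + 1 - n) :=
  key _ n 11 (fun i => [0, 1, 2 * t + 1, 4 * q + 1, 4 * q + 2, 4 * q + 2 * t + 1, 4 * q + 2 * t + 2, 8 * q + 2, 8 * q + 2 * t + 2, 12 * q + 2, 12 * q + 2 * t + 2, 16 * q + 1].getD i 0)
    (0, true, 2, 0) (1, true, 4, 0)
    [(6, false, 9, 1), (4, false, 8, 1), (2, false, 5, 0), (8, true, 0, 2), (3, true, 6, 0), (9, true, 1, 2), (5, true, 7, 0), (10, true, 10, 1)]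
    [(7, false, 3, 0)]
    (by decide) (by decide) (by
      simp only [Inc, OK, R, fs, ls, len, List.getD_cons_zero, List.getD_cons_succ, if_true, if_false, Bool.false_eq_true, Nat.reduceAdd, Nat.reduceEqDiff, one_ne_zero, OfNat.ofNat_ne_zero, OfNat.ofNat_ne_one, and_true, true_and]
      repeat' apply And.intro
      all_goals first | omega | trivial)

lemma f0_1 (q t n : ℕ) (hq : 2 ≤ q) (h : 1 ≤ t ∧ t + 1 ≤ 2 * q ∧ n + 1 = 8 * q + 4 * t) :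
    Good n (2 * (8 * q + 0) + 1 - n) :=
  key _ n 11 (fun i => [0, 2, 2 * t + 1, 4 * q + 2, 4 * q + 2 * t + 1, 4 * q + 2 * t + 2, 8 * q + 2, 8 * q + 3, 8 * q + 2 * t + 2, 12 * q + 3, 12 * q + 2 * t + 2, 16 * q + 1].getD i 0)
    (0, true, 2, 0) (2, true, 5, 0)
    [(6, true, 8, 1), (1, true, 3, 0), (7, false, 0, 2), (5, false, 9, 1), (3, false, 6, 0), (9, true, 1, 2), (4, true, 7, 0), (10, true, 10, 1)]
    [(8, false, 4, 0)]
    (by decide) (by decide) (by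
      simp only [Inc, OK, R, fs, ls, len, List.getD_cons_zero, List.getD_cons_succ, if_true, if_false, Bool.false_eq_true, Nat.reduceAdd, Nat.reduceEqDiff, one_ne_zero, OfNat.ofNat_ne_zero, OfNat.ofNat_ne_one, and_true, true_and]
      repeat' apply And.intro
      all_goals first | omega | trivial)

lemma f0_2 (q t n : ℕ) (hq : 2 ≤ q) (h : 1 ≤ t ∧ t + 2 ≤ 2 * q ∧ 4 * t + n + 1 = 8 * q) :
    Good n (2 * (8 * q + 0) + 1 - n) :=
  key _ n 11 (fun i => [0, 1, 2 * t + 2, 4 * q + 1, 4 * q + 2, 4 * q + 2 * t + 2, 8 * q + 2, 8 * q + 2 * t + 2, 8 * q + 2 * t + 3, 12 * q + 2, 12 * q + 2 * t + 3, 16 * q + 1].getD i 0)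
    (0, true, 2, 0) (1, true, 4, 0)
    [(5, false, 7, 0), (10, true, 10, 1)]
    [(7, true, 9, 1), (2, true, 8, 1), (4, true, 6, 0), (9, false, 5, 0), (3, false, 0, 2), (8, false, 1, 2), (6, false, 3, 0)]
    (by decide) (by decide) (by
      simp only [Inc, OK, R, fs, ls, len, List.getD_cons_zero, List.getD_cons_succ, if_true, if_false, Bool.false_eq_true, Nat.reduceAdd, Nat.reduceEqDiff, one_ne_zero, OfNat.ofNat_ne_zero, OfNat.ofNat_ne_one, and_true, true_and]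
      repeat' apply And.intro
      all_goals first | omega | trivial)

lemma f0_3 (q t n : ℕ) (hq : 2 ≤ q) (h : 1 ≤ t ∧ t + 1 ≤ q ∧ 4 * t + n = 8 * q + 1) :
    Good n (2 * (8 * q + 0) + 1 - n) :=
  key _ n 12 (fun i => [0, 2, 2 * t + 1, 2 * q + 2 * t + 1, 4 * q + 2, 4 * q + 2 * t + 1, 4 * q + 2 * t + 2, 6 * q + 2 * t + 2, 8 * q + 2, 8 * q + 3, 12 * q + 3, 12 * q + 2 * t + 2, 16 * q + 1].getD i 0)
    (3, true, 7, 0) (0, true, 3, 0)
    [(9, false, 0, 2), (7, false, 5, 0)]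
    [(8, true, 9, 1), (1, true, 2, 0), (5, true, 1, 2), (10, false, 8, 0), (4, true, 10, 1), (6, true, 4, 0), (2, false, 6, 0), (11, true, 11, 1)]
    (by decide) (by decide) (by
      simp only [Inc, OK, R, fs, ls, len, List.getD_cons_zero, List.getD_cons_succ, if_true, if_false, Bool.false_eq_true, Nat.reduceAdd, Nat.reduceEqDiff, one_ne_zero, OfNat.ofNat_ne_zero, OfNat.ofNat_ne_one, and_true, true_and]
      repeat' apply And.intro
      all_goals first | omega | trivial)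

lemma f0_4 (q t n : ℕ) (hq : 2 ≤ q) (h : 1 ≤ t ∧ t + 1 ≤ q ∧ 4 * t + n = 4 * q + 1) :
    Good n (2 * (8 * q + 0) + 1 - n) :=
  key _ n 13 (fun i => [0, 1, 2 * t + 1, 2 * q + 2 * t + 1, 4 * q + 1, 4 * q + 2, 4 * q + 2 * t + 1, 6 * q + 2 * t + 1, 8 * q + 2, 8 * q + 2 * t + 1, 10 * q + 2 * t + 2, 12 * q + 2, 14 * q + 2 * t + 2, 16 * q + 1].getD i 0)
    (0, true, 3, 0) (1, true, 2, 0)
    [(7, false, 9, 0), (12, true, 12, 1)]
    [(6, true, 8, 0), (9, false, 6, 0), (5, false, 10, 1), (3, false, 1, 2), (11, false, 7, 0), (4, false, 0, 2), (10, false, 11, 1), (2, false, 5, 0), (8, false, 4, 0)]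
    (by decide) (by decide) (by
      simp only [Inc, OK, R, fs, ls, len, List.getD_cons_zero, List.getD_cons_succ, if_true, if_false, Bool.false_eq_true, Nat.reduceAdd, Nat.reduceEqDiff, one_ne_zero, OfNat.ofNat_ne_zero, OfNat.ofNat_ne_one, and_true, true_and]
      repeat' apply And.intro
      all_goals first | omega | trivial)

lemma f0_5 (q t n : ℕ) (hq : 2 ≤ q) (h : 2 * q ≤ t + 1 ∧ t + 1 ≤ 2 * q ∧ n = 3) :
    Good n (2 * (8 * q + 0) + 1 - n) :=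
  key _ n 10 (fun i => [0, 1, 2 * t + 2, 4 * q + 1, 4 * q + 2, 4 * q + 2 * t + 2, 8 * q + 2, 8 * q + 2 * t + 2, 8 * q + 2 * t + 3, 12 * q + 2, 12 * q + 2 * t + 3].getD i 0)
    (0, true, 2, 0) (1, true, 4, 0)
    [(5, false, 7, 1)]
    [(7, true, 9, 1), (2, true, 8, 1), (4, true, 6, 0), (9, false, 5, 0), (3, false, 0, 2), (8, false, 1, 2), (6, false, 3, 0)]
    (by decide) (by decide) (by
      simp only [Inc, OK, R, fs, ls, len, List.getD_cons_zero, List.getD_cons_succ, if_true, if_false, Bool.false_eq_true, Nat.reduceAdd, Nat.reduceEqDiff, one_ne_zero, OfNat.ofNat_ne_zero, OfNat.ofNat_ne_one, and_true, true_and]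
      repeat' apply And.intro
      all_goals first | omega | trivial)

lemma f0_6 (q t n : ℕ) (hq : 2 ≤ q) (h : 2 * q + 1 ≤ t ∧ t + 1 ≤ 3 * q ∧ n + 3 = 4 * t) :
    Good n (2 * (8 * q + 0) + 1 - n) :=
  key _ n 12 (fun i => [0, 2, 4 * q + 2, 2 * t + 1, 2 * q + 2 * t + 1, 2 * q + 2 * t + 2, 8 * q + 2, 8 * q + 3, 4 * q + 2 * t + 2, 6 * q + 2 * t + 2, 12 * q + 3, 10 * q + 2 * t + 2, 16 * q + 1].getD i 0)
    (2, true, 3, 0) (0, true, 1, 0)
    [(7, false, 0, 2), (5, false, 10, 1), (3, false, 4, 0), (8, true, 2, 2), (10, false, 6, 0)]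
    [(6, true, 9, 1), (1, true, 5, 0), (9, false, 7, 0), (4, true, 8, 0), (11, true, 11, 1)]
    (by decide) (by decide) (by
      simp only [Inc, OK, R, fs, ls, len, List.getD_cons_zero, List.getD_cons_succ, if_true, if_false, Bool.false_eq_true, Nat.reduceAdd, Nat.reduceEqDiff, one_ne_zero, OfNat.ofNat_ne_zero, OfNat.ofNat_ne_one, and_true, true_and]
      repeat' apply And.intro
      all_goals first | omega | trivial)

lemma f0_7 (q t n : ℕ) (hq : 2 ≤ q) (h : 0 ≤ t ∧ t + 1 ≤ q ∧ n = 4 * q + 4 * t + 3) :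
    Good n (2 * (8 * q + 0) + 1 - n) :=
  key _ n 12 (fun i => [0, 1, 2 * t + 2, 4 * q + 2 * t + 2, 6 * q + 1, 6 * q + 2, 8 * q + 2 * t + 2, 8 * q + 2 * t + 3, 10 * q + 2, 12 * q + 2, 12 * q + 2 * t + 3, 14 * q + 2, 16 * q + 1].getD i 0)
    (1, true, 2, 0) (0, true, 3, 0)
    [(6, true, 9, 1), (2, true, 5, 0), (9, false, 4, 0)]
    [(8, false, 8, 0), (10, false, 6, 0), (3, true, 10, 1), (5, true, 1, 2), (7, true, 0, 2), (4, true, 7, 0), (11, true, 11, 1)]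
    (by decide) (by decide) (by
      simp only [Inc, OK, R, fs, ls, len, List.getD_cons_zero, List.getD_cons_succ, if_true, if_false, Bool.false_eq_true, Nat.reduceAdd, Nat.reduceEqDiff, one_ne_zero, OfNat.ofNat_ne_zero, OfNat.ofNat_ne_one, and_true, true_and]
      repeat' apply And.intro
      all_goals first | omega | trivial)

lemma f0_8 (q t n : ℕ) (hq : 2 ≤ q) (h : 1 ≤ t ∧ t + 1 ≤ q ∧ 4 * t + n + 3 = 8 * q) :
    Good n (2 * (8 * q + 0) + 1 - n) :=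
  key _ n 13 (fun i => [0, 1, 2 * t + 2, 2 * q + 2 * t + 2, 4 * q + 1, 4 * q + 2, 4 * q + 2 * t + 2, 4 * q + 2 * t + 3, 6 * q + 2 * t + 3, 8 * q + 2, 8 * q + 2 * t + 3, 12 * q + 2, 12 * q + 2 * t + 3, 16 * q + 1].getD i 0)
    (0, true, 3, 0) (1, true, 2, 0)
    [(8, false, 6, 0), (3, true, 10, 1), (5, true, 1, 2), (12, true, 12, 1)]
    [(6, true, 7, 0), (10, true, 0, 2), (4, true, 8, 0), (11, true, 9, 0), (7, true, 5, 0), (2, false, 11, 1), (9, false, 4, 0)]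
    (by decide) (by decide) (by
      simp only [Inc, OK, R, fs, ls, len, List.getD_cons_zero, List.getD_cons_succ, if_true, if_false, Bool.false_eq_true, Nat.reduceAdd, Nat.reduceEqDiff, one_ne_zero, OfNat.ofNat_ne_zero, OfNat.ofNat_ne_one, and_true, true_and]
      repeat' apply And.intro
      all_goals first | omega | trivial)

lemma g0 (q n : ℕ) (hq : 2 ≤ q) (h0 : n % 2 = 1) (h1 : 3 ≤ n) (h2 : n + 3 ≤ 2 * (8 * q + 0)) :
    Good n (2 * (8 * q + 0) + 1 - n) := by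
  have : (n % 4 = 1 ∧ 8 * q + 5 ≤ n ∧ n + 3 ≤ 16 * q) ∨ (n % 4 = 3 ∧ 8 * q + 3 ≤ n ∧ n + 5 ≤ 16 * q) ∨ (n % 4 = 3 ∧ 7 ≤ n ∧ n + 5 ≤ 8 * q) ∨ (n % 4 = 1 ∧ 4 * q + 5 ≤ n ∧ n + 3 ≤ 8 * q) ∨ (n % 4 = 1 ∧ 5 ≤ n ∧ n + 3 ≤ 4 * q) ∨ (n % 4 = 3 ∧ 3 ≤ n ∧ n ≤ 3) ∨ (n % 4 = 1 ∧ 8 * q + 1 ≤ n ∧ n + 7 ≤ 12 * q) ∨ (n % 4 = 3 ∧ 4 * q + 3 ≤ n ∧ n + 1 ≤ 8 * q) ∨ (n % 4 = 1 ∧ 4 * q + 1 ≤ n ∧ n + 7 ≤ 8 * q) := by
    omega
  rcases this with c | c | c | c | c | c | c | c | c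
  · exact f0_0 q ((16 * q + 1 - (n + 0)) / 4) n hq (by omega)
  · exact f0_1 q ((n + 1 - (8 * q + 0)) / 4) n hq (by omega)
  · exact f0_2 q ((8 * q + 0 - (n + 1)) / 4) n hq (by omega)
  · exact f0_3 q ((8 * q + 1 - (n + 0)) / 4) n hq (by omega)
  · exact f0_4 q ((4 * q + 1 - (n + 0)) / 4) n hq (by omega)
  · exact f0_5 q (2 * q - 1) n hq (by omega)
  · exact f0_6 q ((n + 3 - (0 * q + 0)) / 4) n hq (by omega)
  · exact f0_7 q ((n + 0 - (4 * q + 3)) / 4) n hq (by omega)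
  · exact f0_8 q ((8 * q + 0 - (n + 3)) / 4) n hq (by omega)

lemma f1_0 (q t n : ℕ) (hq : 2 ≤ q) (h : 1 ≤ t ∧ t + 1 ≤ 2 * q ∧ 4 * t + n = 16 * q + 3) :
    Good n (2 * (8 * q + 1) + 1 - n) :=
  key _ n 11 (fun i => [0, 1, 2 * t + 1, 4 * q + 1, 4 * q + 2, 4 * q + 2 * t + 1, 4 * q + 2 * t + 2, 8 * q + 2, 8 * q + 2 * t + 2, 12 * q + 3, 12 * q + 2 * t + 3, 16 * q + 3].getD i 0)
    (0, true, 2, 0) (1, true, 4, 0)
    [(6, false, 9, 1), (4, false, 8, 1), (2, false, 5, 0), (8, true, 6, 0), (3, true, 0, 2), (9, true, 7, 0), (5, true, 1, 2), (10, true, 10, 1)]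
    [(7, false, 3, 0)]
    (by decide) (by decide) (by
      simp only [Inc, OK, R, fs, ls, len, List.getD_cons_zero, List.getD_cons_succ, if_true, if_false, Bool.false_eq_true, Nat.reduceAdd, Nat.reduceEqDiff, one_ne_zero, OfNat.ofNat_ne_zero, OfNat.ofNat_ne_one, and_true, true_and]
      repeat' apply And.intro
      all_goals first | omega | trivial)

lemma f1_1 (q t n : ℕ) (hq : 2 ≤ q) (h : 1 ≤ t ∧ t + 1 ≤ 2 * q ∧ 4 * t + n = 8 * q + 1) :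
    Good n (2 * (8 * q + 1) + 1 - n) :=
  key _ n 11 (fun i => [0, 1, 2 * t + 1, 4 * q + 1, 4 * q + 2, 4 * q + 2 * t + 2, 8 * q + 2, 8 * q + 2 * t + 2, 8 * q + 2 * t + 3, 12 * q + 3, 12 * q + 2 * t + 3, 16 * q + 3].getD i 0)
    (0, true, 2, 0) (1, true, 9, 1)
    [(5, false, 7, 0), (10, true, 10, 1)]
    [(7, true, 4, 0), (2, true, 8, 1), (4, true, 6, 0), (9, false, 0, 2), (3, false, 5, 0), (8, false, 1, 2), (6, false, 3, 0)]
    (by decide) (by decide) (by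
      simp only [Inc, OK, R, fs, ls, len, List.getD_cons_zero, List.getD_cons_succ, if_true, if_false, Bool.false_eq_true, Nat.reduceAdd, Nat.reduceEqDiff, one_ne_zero, OfNat.ofNat_ne_zero, OfNat.ofNat_ne_one, and_true, true_and]
      repeat' apply And.intro
      all_goals first | omega | trivial)

lemma f1_2 (q t n : ℕ) (hq : 2 ≤ q) (h : 1 ≤ t ∧ t + 1 ≤ 2 * q ∧ n = 8 * q + 4 * t + 1) :
    Good n (2 * (8 * q + 1) + 1 - n) :=
  key _ n 11 (fun i => [0, 1, 2 * t + 1, 4 * q + 2, 4 * q + 2 * t + 1, 4 * q + 2 * t + 2, 8 * q + 2, 8 * q + 3, 8 * q + 2 * t + 2, 12 * q + 3, 12 * q + 2 * t + 3, 16 * q + 3].getD i 0)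
    (0, true, 8, 1) (2, true, 5, 0)
    [(6, true, 2, 0), (1, true, 3, 0), (7, false, 0, 2), (5, false, 9, 1), (3, false, 6, 0), (9, true, 7, 0), (4, true, 1, 2), (10, true, 10, 1)]
    [(8, false, 4, 0)]
    (by decide) (by decide) (by
      simp only [Inc, OK, R, fs, ls, len, List.getD_cons_zero, List.getD_cons_succ, if_true, if_false, Bool.false_eq_true, Nat.reduceAdd, Nat.reduceEqDiff, one_ne_zero, OfNat.ofNat_ne_zero, OfNat.ofNat_ne_one, and_true, true_and]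
      repeat' apply And.intro
      all_goals first | omega | trivial)

lemma f1_3 (q t n : ℕ) (hq : 2 ≤ q) (h : q ≤ t ∧ t + 1 ≤ 2 * q ∧ n = 4 * t + 3) :
    Good n (2 * (8 * q + 1) + 1 - n) :=
  key _ n 13 (fun i => [0, 1, 2 * t + 2, 4 * q + 1, 4 * q + 2, 4 * q + 2 * t + 3, 8 * q + 2, 6 * q + 2 * t + 3, 8 * q + 2 * t + 3, 8 * q + 2 * t + 4, 12 * q + 3, 10 * q + 2 * t + 4, 12 * q + 2 * t + 4, 16 * q + 3].getD i 0)
    (1, true, 4, 0) (0, true, 2, 0)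
    [(9, true, 5, 0), (3, true, 0, 2), (10, true, 7, 0), (6, false, 3, 0)]
    [(5, false, 1, 2), (11, false, 8, 0), (7, true, 11, 1), (2, true, 9, 1), (4, true, 6, 0), (8, true, 10, 0), (12, true, 12, 1)]
    (by decide) (by decide) (by
      simp only [Inc, OK, R, fs, ls, len, List.getD_cons_zero, List.getD_cons_succ, if_true, if_false, Bool.false_eq_true, Nat.reduceAdd, Nat.reduceEqDiff, one_ne_zero, OfNat.ofNat_ne_zero, OfNat.ofNat_ne_one, and_true, true_and]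
      repeat' apply And.intro
      all_goals first | omega | trivial)

lemma f1_4 (q t n : ℕ) (hq : 2 ≤ q) (h : 0 ≤ t ∧ t + 1 ≤ q ∧ 4 * t + n + 1 = 4 * q) :
    Good n (2 * (8 * q + 1) + 1 - n) :=
  key _ n 13 (fun i => [0, 1, 2 * t + 2, 4 * q + 1, 4 * q + 2, 4 * q + 2 * t + 3, 6 * q + 2 * t + 3, 8 * q + 2, 8 * q + 2 * t + 3, 10 * q + 2 * t + 4, 12 * q + 3, 12 * q + 2 * t + 4, 14 * q + 2 * t + 4, 16 * q + 3].getD i 0)
    (0, true, 2, 0) (1, true, 5, 0)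
    [(6, false, 8, 0), (12, true, 12, 1)]
    [(11, true, 10, 0), (9, true, 6, 0), (3, true, 0, 2), (10, true, 1, 2), (5, true, 7, 0), (8, false, 4, 0), (2, true, 9, 1), (4, true, 11, 1), (7, false, 3, 0)]
    (by decide) (by decide) (by
      simp only [Inc, OK, R, fs, ls, len, List.getD_cons_zero, List.getD_cons_succ, if_true, if_false, Bool.false_eq_true, Nat.reduceAdd, Nat.reduceEqDiff, one_ne_zero, OfNat.ofNat_ne_zero, OfNat.ofNat_ne_one, and_true, true_and]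
      repeat' apply And.intro
      all_goals first | omega | trivial)

lemma f1_5 (q t n : ℕ) (hq : 2 ≤ q) (h : 1 ≤ t ∧ t ≤ 1 ∧ n = 8 * q + 1) :
    Good n (2 * (8 * q + 1) + 1 - n) :=
  key _ n 13 (fun i => [0, 1, 2 * t + 1, 2 * q + 2 * t + 2, 4 * q + 1, 4 * q + 2, 4 * q + 2 * t + 2, 6 * q + 2 * t + 3, 8 * q + 2, 8 * q + 2 * t + 3, 12 * q + 3, 12 * q + 2 * t + 4, 14 * q + 2 * t + 4, 16 * q + 3].getD i 0)
    (0, true, 3, 0) (3, true, 9, 1)
    [(7, false, 2, 2), (11, false, 11, 1), (1, false, 4, 0), (8, true, 5, 0), (2, true, 8, 0), (12, true, 12, 1)]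
    [(5, true, 1, 2), (10, false, 0, 2), (4, false, 7, 0), (9, false, 6, 0), (6, true, 10, 1)]
    (by decide) (by decide) (by
      simp only [Inc, OK, R, fs, ls, len, List.getD_cons_zero, List.getD_cons_succ, if_true, if_false, Bool.false_eq_true, Nat.reduceAdd, Nat.reduceEqDiff, one_ne_zero, OfNat.ofNat_ne_zero, OfNat.ofNat_ne_one, and_true, true_and]
      repeat' apply And.intro
      all_goals first | omega | trivial)

lemma f1_6 (q t n : ℕ) (hq : 2 ≤ q) (h : 2 * q ≤ t + 1 ∧ t + 1 ≤ 2 * q ∧ n = 8 * q + 3) :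
    Good n (2 * (8 * q + 1) + 1 - n) :=
  key _ n 12 (fun i => [0, 1, 2 * t + 2, 4 * q + 1, 4 * q + 2, 2 * q + 2 * t + 3, 4 * q + 2 * t + 3, 8 * q + 2, 6 * q + 2 * t + 4, 8 * q + 2 * t + 4, 12 * q + 3, 10 * q + 2 * t + 4, 12 * q + 2 * t + 5].getD i 0)
    (0, true, 2, 0) (1, true, 5, 0)
    [(6, false, 8, 0), (11, false, 7, 0), (5, true, 10, 1), (2, true, 9, 1), (4, true, 11, 1), (8, true, 4, 0)]
    [(9, true, 6, 0), (3, true, 0, 2), (10, true, 1, 2), (7, false, 3, 0)]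
    (by decide) (by decide) (by
      simp only [Inc, OK, R, fs, ls, len, List.getD_cons_zero, List.getD_cons_succ, if_true, if_false, Bool.false_eq_true, Nat.reduceAdd, Nat.reduceEqDiff, one_ne_zero, OfNat.ofNat_ne_zero, OfNat.ofNat_ne_one, and_true, true_and]
      repeat' apply And.intro
      all_goals first | omega | trivial)

lemma g1 (q n : ℕ) (hq : 2 ≤ q) (h0 : n % 2 = 1) (h1 : 3 ≤ n) (h2 : n + 3 ≤ 2 * (8 * q + 1)) :
    Good n (2 * (8 * q + 1) + 1 - n) := by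
  have : (n % 4 = 3 ∧ 8 * q + 7 ≤ n ∧ n + 1 ≤ 16 * q) ∨ (n % 4 = 1 ∧ 5 ≤ n ∧ n + 3 ≤ 8 * q) ∨ (n % 4 = 1 ∧ 8 * q + 5 ≤ n ∧ n + 3 ≤ 16 * q) ∨ (n % 4 = 3 ∧ 4 * q + 3 ≤ n ∧ n + 1 ≤ 8 * q) ∨ (n % 4 = 3 ∧ 3 ≤ n ∧ n + 1 ≤ 4 * q) ∨ (n % 4 = 1 ∧ 8 * q + 1 ≤ n ∧ n ≤ 8 * q + 1) ∨ (n % 4 = 3 ∧ 8 * q + 3 ≤ n ∧ n ≤ 8 * q + 3) := by
    omega
  rcases this with c | c | c | c | c | c | c
  · exact f1_0 q ((16 * q + 3 - (n + 0)) / 4) n hq (by omega)
  · exact f1_1 q ((8 * q + 1 - (n + 0)) / 4) n hq (by omega)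
  · exact f1_2 q ((n + 0 - (8 * q + 1)) / 4) n hq (by omega)
  · exact f1_3 q ((n + 0 - (0 * q + 3)) / 4) n hq (by omega)
  · exact f1_4 q ((4 * q + 0 - (n + 1)) / 4) n hq (by omega)
  · exact f1_5 q (1) n hq (by omega)
  · exact f1_6 q (2 * q - 1) n hq (by omega)

lemma f2_0 (q t n : ℕ) (hq : 2 ≤ q) (h : 1 ≤ t ∧ t + 1 ≤ 2 * q ∧ 4 * t + n = 16 * q + 5) :
    Good n (2 * (8 * q + 2) + 1 - n) :=
  key _ n 11 (fun i => [0, 2, 2 * t + 2, 4 * q + 3, 4 * q + 4, 4 * q + 2 * t + 3, 4 * q + 2 * t + 4, 8 * q + 5, 8 * q + 2 * t + 5, 12 * q + 6, 12 * q + 2 * t + 6, 16 * q + 5].getD i 0)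
    (0, true, 2, 0) (1, true, 4, 0)
    [(6, false, 9, 1), (4, false, 8, 1), (2, false, 5, 0), (8, true, 0, 2), (3, true, 6, 0), (9, true, 1, 2), (5, true, 7, 0), (10, true, 10, 1)]
    [(7, false, 3, 0)]
    (by decide) (by decide) (by
      simp only [Inc, OK, R, fs, ls, len, List.getD_cons_zero, List.getD_cons_succ, if_true, if_false, Bool.false_eq_true, Nat.reduceAdd, Nat.reduceEqDiff, one_ne_zero, OfNat.ofNat_ne_zero, OfNat.ofNat_ne_one, and_true, true_and]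
      repeat' apply And.intro
      all_goals first | omega | trivial)

lemma f2_1 (q t n : ℕ) (hq : 2 ≤ q) (h : 1 ≤ t ∧ t + 1 ≤ 2 * q ∧ 4 * t + n = 8 * q + 3) :
    Good n (2 * (8 * q + 2) + 1 - n) :=
  key _ n 11 (fun i => [0, 2, 2 * t + 2, 4 * q + 3, 4 * q + 4, 4 * q + 2 * t + 3, 8 * q + 5, 8 * q + 2 * t + 4, 8 * q + 2 * t + 5, 12 * q + 6, 12 * q + 2 * t + 6, 16 * q + 5].getD i 0)
    (0, true, 2, 0) (1, true, 4, 0)
    [(5, false, 7, 0), (10, true, 10, 1)]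
    [(7, true, 9, 1), (2, true, 8, 1), (4, true, 6, 0), (9, false, 5, 0), (3, false, 0, 2), (8, false, 1, 2), (6, false, 3, 0)]
    (by decide) (by decide) (by
      simp only [Inc, OK, R, fs, ls, len, List.getD_cons_zero, List.getD_cons_succ, if_true, if_false, Bool.false_eq_true, Nat.reduceAdd, Nat.reduceEqDiff, one_ne_zero, OfNat.ofNat_ne_zero, OfNat.ofNat_ne_one, and_true, true_and]
      repeat' apply And.intro
      all_goals first | omega | trivial)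

lemma f2_2 (q t n : ℕ) (hq : 2 ≤ q) (h : 1 ≤ t ∧ t + 1 ≤ 2 * q ∧ n = 8 * q + 4 * t + 3) :
    Good n (2 * (8 * q + 2) + 1 - n) :=
  key _ n 11 (fun i => [0, 2, 2 * t + 2, 4 * q + 3, 4 * q + 2 * t + 3, 4 * q + 2 * t + 4, 8 * q + 4, 8 * q + 5, 8 * q + 2 * t + 5, 12 * q + 6, 12 * q + 2 * t + 6, 16 * q + 5].getD i 0)
    (0, true, 2, 0) (2, true, 5, 0)
    [(6, true, 8, 1), (1, true, 3, 0), (7, false, 0, 2), (5, false, 9, 1), (3, false, 6, 0), (9, true, 1, 2), (4, true, 7, 0), (10, true, 10, 1)]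
    [(8, false, 4, 0)]
    (by decide) (by decide) (by
      simp only [Inc, OK, R, fs, ls, len, List.getD_cons_zero, List.getD_cons_succ, if_true, if_false, Bool.false_eq_true, Nat.reduceAdd, Nat.reduceEqDiff, one_ne_zero, OfNat.ofNat_ne_zero, OfNat.ofNat_ne_one, and_true, true_and]
      repeat' apply And.intro
      all_goals first | omega | trivial)

lemma f2_3 (q t n : ℕ) (hq : 2 ≤ q) (h : q + 1 ≤ t ∧ t ≤ 2 * q ∧ 4 * t + n = 12 * q + 5) :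
    Good n (2 * (8 * q + 2) + 1 - n) :=
  key _ n 13 (fun i => [0, 1, 2 * q + 1, 2 * q + 2, 2 * t + 1, 4 * q + 2, 2 * q + 2 * t + 1, 2 * q + 2 * t + 2, 6 * q + 3, 4 * q + 2 * t + 2, 6 * q + 2 * t + 3, 10 * q + 4, 10 * q + 2 * t + 4, 16 * q + 5].getD i 0)
    (0, true, 1, 0) (1, true, 10, 1)
    [(4, false, 6, 0), (9, true, 8, 0), (6, true, 9, 0), (12, true, 12, 1)]
    [(3, true, 5, 0), (8, false, 0, 2), (10, false, 3, 2), (11, false, 7, 0), (2, false, 4, 0), (7, false, 11, 1), (5, false, 2, 0)]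
    (by decide) (by decide) (by
      simp only [Inc, OK, R, fs, ls, len, List.getD_cons_zero, List.getD_cons_succ, if_true, if_false, Bool.false_eq_true, Nat.reduceAdd, Nat.reduceEqDiff, one_ne_zero, OfNat.ofNat_ne_zero, OfNat.ofNat_ne_one, and_true, true_and]
      repeat' apply And.intro
      all_goals first | omega | trivial)

lemma f2_4 (q t n : ℕ) (hq : 2 ≤ q) (h : q + 2 ≤ t ∧ t ≤ 2 * q ∧ 4 * t + n = 8 * q + 5) :
    Good n (2 * (8 * q + 2) + 1 - n) :=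
  key _ n 13 (fun i => [0, 2, 2 * t + 1, 4 * q + 3, 4 * q + 4, 2 * q + 2 * t + 1, 4 * q + 2 * t + 3, 8 * q + 5, 6 * q + 2 * t + 3, 8 * q + 2 * t + 4, 12 * q + 6, 10 * q + 2 * t + 4, 12 * q + 2 * t + 4, 16 * q + 5].getD i 0)
    (0, true, 2, 0) (1, true, 10, 1)
    [(6, false, 8, 0), (12, true, 12, 1)]
    [(5, false, 7, 0), (11, true, 4, 2), (8, false, 1, 2), (10, false, 6, 0), (3, false, 0, 2), (9, false, 5, 0), (2, true, 9, 1), (4, true, 11, 1), (7, false, 3, 0)]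
    (by decide) (by decide) (by
      simp only [Inc, OK, R, fs, ls, len, List.getD_cons_zero, List.getD_cons_succ, if_true, if_false, Bool.false_eq_true, Nat.reduceAdd, Nat.reduceEqDiff, one_ne_zero, OfNat.ofNat_ne_zero, OfNat.ofNat_ne_one, and_true, true_and]
      repeat' apply And.intro
      all_goals first | omega | trivial)

lemma f2_5 (q t n : ℕ) (hq : 2 ≤ q) (h : 2 ≤ t ∧ t ≤ q ∧ 4 * t + n = 12 * q + 5) :
    Good n (2 * (8 * q + 2) + 1 - n) :=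
  key _ n 13 (fun i => [0, 2, 2 * t + 1, 2 * q + 2 * t + 1, 4 * q + 3, 4 * q + 4, 4 * q + 2 * t + 3, 6 * q + 2 * t + 3, 8 * q + 5, 8 * q + 2 * t + 4, 10 * q + 2 * t + 4, 12 * q + 6, 12 * q + 2 * t + 4, 16 * q + 5].getD i 0)
    (0, true, 3, 0) (1, true, 9, 1)
    [(7, false, 1, 2), (9, false, 5, 0), (2, true, 11, 1), (6, false, 8, 0), (12, true, 12, 1)]
    [(5, false, 10, 1), (3, false, 6, 0), (10, true, 0, 2), (4, true, 7, 0), (11, true, 2, 2), (8, false, 4, 0)]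
    (by decide) (by decide) (by
      simp only [Inc, OK, R, fs, ls, len, List.getD_cons_zero, List.getD_cons_succ, if_true, if_false, Bool.false_eq_true, Nat.reduceAdd, Nat.reduceEqDiff, one_ne_zero, OfNat.ofNat_ne_zero, OfNat.ofNat_ne_one, and_true, true_and]
      repeat' apply And.intro
      all_goals first | omega | trivial)

lemma f2_6 (q t n : ℕ) (hq : 2 ≤ q) (h : 2 ≤ t ∧ t ≤ 2 ∧ n = 8 * q + 3) :
    Good n (2 * (8 * q + 2) + 1 - n) :=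
  key _ n 13 (fun i => [0, 2, 2 * t + 1, 2 * q + 2 * t + 2, 4 * q + 3, 4 * q + 4, 4 * q + 2 * t + 2, 6 * q + 2 * t + 3, 8 * q + 5, 8 * q + 2 * t + 3, 10 * q + 2 * t + 4, 12 * q + 6, 12 * q + 2 * t + 5, 16 * q + 5].getD i 0)
    (2, true, 6, 0) (0, true, 3, 0)
    [(10, true, 0, 2), (4, true, 7, 0), (11, true, 8, 0), (5, false, 10, 1), (3, false, 11, 1), (6, false, 2, 0)]
    [(7, false, 1, 2), (9, false, 5, 0), (1, false, 4, 0), (8, true, 9, 0), (12, true, 12, 1)]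
    (by decide) (by decide) (by
      simp only [Inc, OK, R, fs, ls, len, List.getD_cons_zero, List.getD_cons_succ, if_true, if_false, Bool.false_eq_true, Nat.reduceAdd, Nat.reduceEqDiff, one_ne_zero, OfNat.ofNat_ne_zero, OfNat.ofNat_ne_one, and_true, true_and]
      repeat' apply And.intro
      all_goals first | omega | trivial)

lemma f2_7 (q t n : ℕ) (hq : 2 ≤ q) (h : 0 ≤ t ∧ t ≤ 0 ∧ n = 4 * q + 1) :
    Good n (2 * (8 * q + 2) + 1 - n) :=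
  key _ n 13 (fun i => [0, 2 * t + 1, 2, 2 * q + 2 * t + 2, 4 * q + 2 * t + 2, 4 * q + 3, 4 * q + 4, 6 * q + 2 * t + 3, 8 * q + 2 * t + 4, 8 * q + 5, 10 * q + 2 * t + 5, 12 * q + 6, 14 * q + 2 * t + 6, 16 * q + 5].getD i 0)
    (0, true, 3, 0) (1, true, 4, 0)
    [(7, false, 9, 0), (12, true, 12, 1)]
    [(8, false, 6, 0), (3, false, 11, 1), (9, false, 5, 0), (2, true, 0, 2), (11, false, 8, 0), (5, false, 1, 2), (10, false, 7, 0), (6, false, 10, 1), (4, false, 2, 0)]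
    (by decide) (by decide) (by
      simp only [Inc, OK, R, fs, ls, len, List.getD_cons_zero, List.getD_cons_succ, if_true, if_false, Bool.false_eq_true, Nat.reduceAdd, Nat.reduceEqDiff, one_ne_zero, OfNat.ofNat_ne_zero, OfNat.ofNat_ne_one, and_true, true_and]
      repeat' apply And.intro
      all_goals first | omega | trivial)

lemma f2_8 (q t n : ℕ) (hq : 2 ≤ q) (h : 1 ≤ t ∧ t + 1 ≤ q ∧ n + 1 = 4 * t) :
    Good n (2 * (8 * q + 2) + 1 - n) :=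
  key _ n 13 (fun i => [0, 2, 2 * t + 1, 2 * q + 2 * t + 2, 4 * q + 3, 4 * q + 2 * t + 2, 6 * q + 2 * t + 4, 8 * q + 4, 8 * q + 5, 8 * q + 2 * t + 4, 12 * q + 6, 12 * q + 2 * t + 6, 14 * q + 2 * t + 6, 16 * q + 5].getD i 0)
    (4, true, 1, 2) (0, true, 3, 0)
    [(10, false, 7, 0)]
    [(7, true, 9, 1), (1, true, 4, 0), (8, false, 0, 2), (6, false, 10, 1), (3, true, 6, 0), (9, false, 11, 1), (5, true, 2, 2), (11, false, 5, 0), (2, true, 8, 0), (12, true, 12, 1)]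
    (by decide) (by decide) (by
      simp only [Inc, OK, R, fs, ls, len, List.getD_cons_zero, List.getD_cons_succ, if_true, if_false, Bool.false_eq_true, Nat.reduceAdd, Nat.reduceEqDiff, one_ne_zero, OfNat.ofNat_ne_zero, OfNat.ofNat_ne_one, and_true, true_and]
      repeat' apply And.intro
      all_goals first | omega | trivial)

lemma g2 (q n : ℕ) (hq : 2 ≤ q) (h0 : n % 2 = 1) (h1 : 3 ≤ n) (h2 : n + 3 ≤ 2 * (8 * q + 2)) :
    Good n (2 * (8 * q + 2) + 1 - n) := by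
  have : (n % 4 = 1 ∧ 8 * q + 9 ≤ n ∧ n ≤ 16 * q + 1) ∨ (n % 4 = 3 ∧ 7 ≤ n ∧ n + 1 ≤ 8 * q) ∨ (n % 4 = 3 ∧ 8 * q + 7 ≤ n ∧ n + 1 ≤ 16 * q) ∨ (n % 4 = 1 ∧ 4 * q + 5 ≤ n ∧ n ≤ 8 * q + 1) ∨ (n % 4 = 1 ∧ 5 ≤ n ∧ n + 3 ≤ 4 * q) ∨ (n % 4 = 1 ∧ 8 * q + 5 ≤ n ∧ n + 3 ≤ 12 * q) ∨ (n % 4 = 3 ∧ 8 * q + 3 ≤ n ∧ n ≤ 8 * q + 3) ∨ (n % 4 = 1 ∧ 4 * q + 1 ≤ n ∧ n ≤ 4 * q + 1) ∨ (n % 4 = 3 ∧ 3 ≤ n ∧ n + 5 ≤ 4 * q) := by
    omega
  rcases this with c | c | c | c | c | c | c | c | c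
  · exact f2_0 q ((16 * q + 5 - (n + 0)) / 4) n hq (by omega)
  · exact f2_1 q ((8 * q + 3 - (n + 0)) / 4) n hq (by omega)
  · exact f2_2 q ((n + 0 - (8 * q + 3)) / 4) n hq (by omega)
  · exact f2_3 q ((12 * q + 5 - (n + 0)) / 4) n hq (by omega)
  · exact f2_4 q ((8 * q + 5 - (n + 0)) / 4) n hq (by omega)
  · exact f2_5 q ((12 * q + 5 - (n + 0)) / 4) n hq (by omega)
  · exact f2_6 q (2) n hq (by omega)
  · exact f2_7 q (0) n hq (by omega)
  · exact f2_8 q ((n + 1 - (0 * q + 0)) / 4) n hq (by omega)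

lemma f3_0 (q t n : ℕ) (hq : 2 ≤ q) (h : 1 ≤ t ∧ t ≤ 2 * q ∧ 4 * t + n = 16 * q + 7) :
    Good n (2 * (8 * q + 3) + 1 - n) :=
  key _ n 11 (fun i => [0, 1, 2 * t + 1, 4 * q + 3, 4 * q + 2 * t + 3, 8 * q + 4, 8 * q + 5, 8 * q + 2 * t + 4, 8 * q + 2 * t + 5, 12 * q + 6, 12 * q + 2 * t + 6, 16 * q + 7].getD i 0)
    (0, true, 8, 1) (3, true, 6, 0)
    [(5, true, 2, 0), (1, true, 9, 1), (7, true, 3, 0), (2, true, 4, 0), (8, false, 1, 2), (6, false, 0, 2), (4, false, 7, 0), (10, true, 10, 1)]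
    [(9, false, 5, 0)]
    (by decide) (by decide) (by
      simp only [Inc, OK, R, fs, ls, len, List.getD_cons_zero, List.getD_cons_succ, if_true, if_false, Bool.false_eq_true, Nat.reduceAdd, Nat.reduceEqDiff, one_ne_zero, OfNat.ofNat_ne_zero, OfNat.ofNat_ne_one, and_true, true_and]
      repeat' apply And.intro
      all_goals first | omega | trivial)

lemma f3_1 (q t n : ℕ) (hq : 2 ≤ q) (h : 1 ≤ t ∧ t ≤ 2 * q ∧ 4 * t + n = 8 * q + 5) :
    Good n (2 * (8 * q + 3) + 1 - n) :=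
  key _ n 11 (fun i => [0, 2, 2 * t + 1, 4 * q + 3, 4 * q + 4, 4 * q + 2 * t + 3, 8 * q + 5, 8 * q + 2 * t + 4, 8 * q + 2 * t + 5, 12 * q + 7, 12 * q + 2 * t + 6, 16 * q + 7].getD i 0)
    (0, true, 2, 0) (1, true, 9, 1)
    [(5, false, 7, 0), (10, true, 10, 1)]
    [(7, true, 4, 0), (2, true, 8, 1), (4, true, 6, 0), (9, false, 0, 2), (3, false, 5, 0), (8, false, 1, 2), (6, false, 3, 0)]
    (by decide) (by decide) (by
      simp only [Inc, OK, R, fs, ls, len, List.getD_cons_zero, List.getD_cons_succ, if_true, if_false, Bool.false_eq_true, Nat.reduceAdd, Nat.reduceEqDiff, one_ne_zero, OfNat.ofNat_ne_zero, OfNat.ofNat_ne_one, and_true, true_and]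
      repeat' apply And.intro
      all_goals first | omega | trivial)

lemma f3_2 (q t n : ℕ) (hq : 2 ≤ q) (h : 1 ≤ t ∧ t + 1 ≤ 2 * q ∧ n = 8 * q + 4 * t + 5) :
    Good n (2 * (8 * q + 3) + 1 - n) :=
  key _ n 11 (fun i => [0, 1, 2 * t + 2, 4 * q + 3, 4 * q + 2 * t + 3, 4 * q + 2 * t + 4, 8 * q + 4, 8 * q + 5, 8 * q + 2 * t + 5, 12 * q + 6, 12 * q + 2 * t + 7, 16 * q + 7].getD i 0)
    (0, true, 8, 1) (2, true, 5, 0)
    [(6, true, 2, 0), (1, true, 3, 0), (7, false, 0, 2), (5, false, 9, 1), (3, false, 6, 0), (9, true, 7, 0), (4, true, 1, 2), (10, true, 10, 1)]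
    [(8, false, 4, 0)]
    (by decide) (by decide) (by
      simp only [Inc, OK, R, fs, ls, len, List.getD_cons_zero, List.getD_cons_succ, if_true, if_false, Bool.false_eq_true, Nat.reduceAdd, Nat.reduceEqDiff, one_ne_zero, OfNat.ofNat_ne_zero, OfNat.ofNat_ne_one, and_true, true_and]
      repeat' apply And.intro
      all_goals first | omega | trivial)

lemma f3_3 (q t n : ℕ) (hq : 2 ≤ q) (h : q + 1 ≤ t ∧ t ≤ 2 * q ∧ n + 1 = 4 * t) :
    Good n (2 * (8 * q + 3) + 1 - n) :=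
  key _ n 12 (fun i => [0, 1, 2 * t + 1, 4 * q + 3, 8 * q + 4, 8 * q + 5, 6 * q + 2 * t + 4, 8 * q + 2 * t + 4, 8 * q + 2 * t + 5, 12 * q + 6, 10 * q + 2 * t + 5, 12 * q + 2 * t + 6, 16 * q + 7].getD i 0)
    (3, true, 0, 2) (0, true, 8, 1)
    [(5, true, 6, 0), (9, false, 4, 0)]
    [(4, true, 2, 0), (1, true, 10, 1), (7, true, 9, 0), (10, false, 7, 0), (6, true, 1, 2), (8, true, 3, 0), (2, false, 5, 0), (11, true, 11, 1)]
    (by decide) (by decide) (by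
      simp only [Inc, OK, R, fs, ls, len, List.getD_cons_zero, List.getD_cons_succ, if_true, if_false, Bool.false_eq_true, Nat.reduceAdd, Nat.reduceEqDiff, one_ne_zero, OfNat.ofNat_ne_zero, OfNat.ofNat_ne_one, and_true, true_and]
      repeat' apply And.intro
      all_goals first | omega | trivial)

lemma f3_4 (q t n : ℕ) (hq : 2 ≤ q) (h : 0 ≤ t ∧ t + 1 ≤ q ∧ n = 4 * t + 3) :
    Good n (2 * (8 * q + 3) + 1 - n) :=
  key _ n 13 (fun i => [0, 1, 2 * t + 2, 2 * q + 2 * t + 3, 4 * q + 3, 4 * q + 2 * t + 4, 6 * q + 2 * t + 5, 8 * q + 4, 8 * q + 5, 8 * q + 2 * t + 6, 10 * q + 2 * t + 7, 12 * q + 6, 12 * q + 2 * t + 8, 16 * q + 7].getD i 0)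
    (4, true, 1, 2) (0, true, 10, 1)
    [(11, false, 7, 0)]
    [(7, true, 3, 0), (1, true, 2, 0), (5, true, 8, 0), (10, true, 6, 0), (3, false, 5, 0), (9, false, 11, 1), (2, true, 4, 0), (6, true, 0, 2), (8, true, 9, 0), (12, true, 12, 1)]
    (by decide) (by decide) (by
      simp only [Inc, OK, R, fs, ls, len, List.getD_cons_zero, List.getD_cons_succ, if_true, if_false, Bool.false_eq_true, Nat.reduceAdd, Nat.reduceEqDiff, one_ne_zero, OfNat.ofNat_ne_zero, OfNat.ofNat_ne_one, and_true, true_and]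
      repeat' apply And.intro
      all_goals first | omega | trivial)

lemma f3_5 (q t n : ℕ) (hq : 2 ≤ q) (h : 1 ≤ t ∧ t ≤ q ∧ 4 * t + n = 12 * q + 5) :
    Good n (2 * (8 * q + 3) + 1 - n) :=
  key _ n 12 (fun i => [0, 1, 2 * t + 1, 2 * q + 2 * t + 1, 2 * q + 2 * t + 2, 4 * q + 3, 4 * q + 2 * t + 2, 6 * q + 2 * t + 3, 8 * q + 4, 8 * q + 5, 10 * q + 2 * t + 5, 12 * q + 6, 16 * q + 7].getD i 0)
    (2, true, 9, 1) (0, true, 10, 1)
    [(4, true, 7, 0), (10, false, 1, 2), (7, true, 0, 2), (9, true, 6, 0), (3, false, 5, 0), (6, false, 3, 0)]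
    [(8, true, 4, 0), (1, true, 2, 0), (5, false, 8, 0), (11, true, 11, 1)]
    (by decide) (by decide) (by
      simp only [Inc, OK, R, fs, ls, len, List.getD_cons_zero, List.getD_cons_succ, if_true, if_false, Bool.false_eq_true, Nat.reduceAdd, Nat.reduceEqDiff, one_ne_zero, OfNat.ofNat_ne_zero, OfNat.ofNat_ne_one, and_true, true_and]
      repeat' apply And.intro
      all_goals first | omega | trivial)

lemma f3_6 (q t n : ℕ) (hq : 2 ≤ q) (h : q ≤ t ∧ t ≤ q ∧ n = 8 * q + 3) :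
    Good n (2 * (8 * q + 3) + 1 - n) :=
  key _ n 11 (fun i => [0, 1, 2 * t + 1, 2 * q + 2 * t + 2, 4 * q + 3, 4 * q + 2 * t + 3, 8 * q + 4, 8 * q + 5, 8 * q + 2 * t + 4, 8 * q + 2 * t + 5, 12 * q + 6, 14 * q + 2 * t + 7].getD i 0)
    (2, true, 7, 0) (0, true, 9, 1)
    [(10, false, 6, 0), (4, true, 10, 1), (8, false, 4, 0)]
    [(6, true, 3, 0), (1, true, 2, 0), (5, true, 0, 2), (7, true, 1, 2), (9, true, 5, 0), (3, false, 8, 1)]
    (by decide) (by decide) (by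
      simp only [Inc, OK, R, fs, ls, len, List.getD_cons_zero, List.getD_cons_succ, if_true, if_false, Bool.false_eq_true, Nat.reduceAdd, Nat.reduceEqDiff, one_ne_zero, OfNat.ofNat_ne_zero, OfNat.ofNat_ne_one, and_true, true_and]
      repeat' apply And.intro
      all_goals first | omega | trivial)

lemma g3 (q n : ℕ) (hq : 2 ≤ q) (h0 : n % 2 = 1) (h1 : 3 ≤ n) (h2 : n + 3 ≤ 2 * (8 * q + 3)) :
    Good n (2 * (8 * q + 3) + 1 - n) := by
  have : (n % 4 = 3 ∧ 8 * q + 7 ≤ n ∧ n ≤ 16 * q + 3) ∨ (n % 4 = 1 ∧ 5 ≤ n ∧ n ≤ 8 * q + 1) ∨ (n % 4 = 1 ∧ 8 * q + 9 ≤ n ∧ n ≤ 16 * q + 1) ∨ (n % 4 = 3 ∧ 4 * q + 3 ≤ n ∧ n + 1 ≤ 8 * q) ∨ (n % 4 = 3 ∧ 3 ≤ n ∧ n + 1 ≤ 4 * q) ∨ (n % 4 = 1 ∧ 8 * q + 5 ≤ n ∧ n ≤ 12 * q + 1) ∨ (n % 4 = 3 ∧ 8 * q + 3 ≤ n ∧ n ≤ 8 * q + 3) := by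
    omega
  rcases this with c | c | c | c | c | c | c
  · exact f3_0 q ((16 * q + 7 - (n + 0)) / 4) n hq (by omega)
  · exact f3_1 q ((8 * q + 5 - (n + 0)) / 4) n hq (by omega)
  · exact f3_2 q ((n + 0 - (8 * q + 5)) / 4) n hq (by omega)
  · exact f3_3 q ((n + 1 - (0 * q + 0)) / 4) n hq (by omega)
  · exact f3_4 q ((n + 0 - (0 * q + 3)) / 4) n hq (by omega)
  · exact f3_5 q ((12 * q + 5 - (n + 0)) / 4) n hq (by omega)
  · exact f3_6 q (1 * q) n hq (by omega)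

end Pool.Agent.H6.SEM
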