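import Pool.Agent.H6.SEM2
import Pool.Agent.H6.SEM3

set_option autoImplicit false

namespace Pool.Agent.H6.SEM

def tab : List (ℕ × List ℕ × List ℕ) := [
  (4, [0, 6, 2], [1, 4, 3, 7, 5, 8]),
  (4, [5, 8, 7, 2, 6], [1, 0, 3, 4]),
  (5, [3, 2, 4], [1, 0, 10, 9, 5, 6, 7, 8]),
  (5, [5, 7, 8, 9, 0], [1, 2, 6, 4, 3, 10]),
  (5, [1, 6, 2, 3, 9, 5, 8], [7, 10, 0, 4]),
  (6, [7, 9, 2], [1, 0, 5, 12, 3, 10, 11, 8, 4, 6]),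
  (6, [3, 11, 7, 9, 4], [1, 10, 5, 12, 0, 6, 2, 8]),
  (6, [3, 11, 7, 9, 6, 2, 4], [1, 8, 5, 12, 0, 10]),
  (6, [1, 4, 5, 8, 7, 10, 9, 2, 6], [3, 11, 12, 0]),
  (7, [11, 13, 10], [1, 6, 4, 8, 7, 9, 2, 3, 0, 14, 5, 12]),
  (7, [0, 1, 8, 7, 14], [2, 10, 3, 4, 6, 13, 5, 12, 11, 9]),
  (7, [5, 6, 13, 11, 7, 9, 12], [1, 4, 3, 10, 2, 8, 0, 14]),
  (7, [3, 10, 2, 12, 13, 5, 11, 9, 14], [1, 8, 7, 4, 0, 6]),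
  (7, [0, 8, 1, 2, 10, 3, 4, 11, 9, 7, 14], [5, 6, 13, 12]),
  (8, [0, 9, 8], [1, 2, 3, 12, 4, 6, 7, 16, 15, 14, 5, 13, 11, 10]),
  (8, [3, 12, 11, 7, 14], [1, 2, 9, 13, 16, 15, 4, 5, 8, 0, 10, 6]),
  (8, [1, 10, 2, 3, 4, 5, 14], [0, 13, 12, 15, 6, 8, 9, 11, 7, 16]),
  (8, [3, 0, 5, 13, 16, 15, 10, 6, 4], [1, 12, 11, 8, 9, 2, 7, 14]),
  (8, [0, 1, 10, 2, 11, 9, 8, 6, 15, 7, 16], [3, 4, 5, 14, 13, 12]),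
  (8, [0, 9, 8, 6, 4, 3, 12, 13, 5, 14, 15, 7, 16], [1, 2, 11, 10]),
  (9, [0, 9, 18], [1, 16, 17, 14, 5, 15, 7, 8, 13, 12, 11, 2, 3, 4, 6, 10]),
  (9, [0, 9, 8, 17, 18], [1, 2, 12, 3, 4, 6, 7, 16, 15, 5, 14, 13, 11, 10]),
  (9, [1, 2, 3, 14, 5, 15, 10], [0, 9, 17, 16, 11, 12, 4, 6, 7, 8, 13, 18]),
  (9, [3, 8, 10, 13, 14, 2, 12, 0, 6], [1, 18, 11, 4, 9, 17, 7, 15, 5, 16]),
  (9, [0, 9, 18, 17, 16, 7, 8, 4, 6, 12, 13], [1, 2, 3, 14, 5, 15, 11, 10]),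
  (9, [0, 10, 1, 2, 11, 9, 8, 6, 15, 16, 7, 17, 18], [3, 4, 5, 14, 13, 12]),
  (9, [0, 9, 8, 6, 4, 3, 12, 13, 14, 5, 15, 16, 7, 17, 18], [1, 2, 11, 10]),
  (10, [13, 15, 16], [1, 0, 20, 19, 18, 17, 10, 5, 14, 11, 12, 9, 8, 4, 7, 6, 3, 2]),
  (10, [0, 11, 10, 9, 20], [1, 12, 5, 4, 14, 13, 2, 3, 19, 18, 7, 17, 16, 15, 8, 6]),
  (10, [0, 1, 12, 11, 10, 9, 20], [2, 3, 14, 4, 5, 6, 8, 19, 18, 7, 17, 16, 15, 13]),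
  (10, [0, 5, 10, 11, 12, 7, 18, 19, 20], [1, 2, 4, 9, 13, 17, 16, 15, 14, 3, 8, 6]),
  (10, [3, 19, 20, 17, 18, 11, 10, 13, 15, 12, 0], [1, 4, 16, 9, 8, 2, 7, 6, 5, 14]),
  (10, [3, 20, 11, 8, 5, 10, 15, 7, 17, 12, 0, 9, 18], [1, 4, 13, 19, 16, 2, 14, 6]),
  (10, [0, 1, 12, 2, 3, 14, 13, 11, 10, 8, 7, 18, 19, 9, 20], [4, 5, 6, 17, 16, 15]),
  (10, [0, 1, 12, 11, 10, 8, 6, 5, 4, 15, 16, 17, 7, 18, 19, 9, 20], [2, 3, 14, 13]),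
  (11, [7, 19, 18], [0, 12, 1, 8, 9, 10, 17, 6, 5, 16, 15, 14, 2, 3, 4, 11, 13, 20, 21, 22]),
  (11, [0, 1, 12, 11, 22], [2, 3, 4, 16, 5, 6, 8, 9, 10, 21, 20, 19, 7, 18, 17, 15, 14, 13]),
  (11, [7, 8, 9, 10, 11, 13, 18], [0, 12, 1, 2, 3, 4, 16, 21, 20, 19, 14, 15, 17, 6, 5, 22]),
  (11, [0, 1, 12, 11, 10, 9, 20, 21, 22], [2, 14, 3, 4, 5, 6, 8, 19, 7, 18, 17, 16, 15, 13]),
  (11, [3, 4, 5, 22, 21, 20, 19, 18, 7, 8, 14], [0, 12, 1, 2, 9, 10, 11, 13, 15, 16, 17, 6]),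
  (11, [3, 4, 6, 17, 11, 13, 14, 15, 16, 5, 10, 9, 8], [0, 12, 1, 2, 7, 18, 19, 20, 21, 22]),
  (11, [0, 12, 1, 2, 3, 4, 16, 5, 6, 17, 15, 14, 13, 11, 22], [7, 8, 9, 10, 21, 20, 19, 18]),
  (11, [0, 12, 1, 2, 3, 14, 13, 11, 10, 8, 7, 18, 19, 20, 9, 21, 22], [4, 5, 6, 17, 16, 15]),
  (11, [0, 12, 1, 2, 14, 3, 4, 5, 6, 17, 16, 15, 13, 11, 10, 9, 20, 21, 22], [7, 8, 19, 18]),
  (12, [0, 13, 12], [1, 2, 3, 4, 5, 18, 6, 8, 9, 10, 11, 24, 23, 22, 21, 20, 7, 19, 17, 16, 15, 14]),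
  (12, [5, 23, 10, 11, 12], [0, 1, 8, 7, 6, 19, 20, 21, 22, 9, 2, 3, 16, 4, 18, 17, 15, 14, 13, 24]),
  (12, [0, 13, 12, 11, 10, 23, 24], [1, 2, 3, 16, 4, 5, 6, 8, 9, 22, 21, 20, 7, 19, 18, 17, 15, 14]),
  (12, [6, 7, 20, 19, 18, 17, 16, 15, 13], [0, 1, 14, 2, 9, 21, 8, 10, 11, 12, 5, 4, 3, 22, 23, 24]),
  (12, [3, 4, 23, 22, 9, 21, 20, 19, 18, 17, 16], [0, 1, 14, 8, 10, 11, 12, 13, 15, 2, 7, 6, 5, 24]),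
  (12, [0, 13, 6, 8, 10, 11, 12, 5, 4, 3, 22, 23, 24], [1, 2, 9, 21, 20, 7, 19, 18, 17, 16, 15, 14]),
  (12, [0, 1, 14, 2, 15, 13, 12, 11, 10, 8, 21, 9, 22, 23, 24], [3, 4, 5, 6, 7, 20, 19, 18, 17, 16]),
  (12, [0, 13, 12, 10, 9, 8, 6, 5, 18, 19, 7, 20, 21, 22, 23, 11, 24], [1, 2, 3, 4, 17, 16, 15, 14]),
  (12, [0, 1, 14, 2, 3, 4, 17, 16, 15, 13, 12, 10, 9, 8, 21, 22, 23, 11, 24], [5, 6, 7, 20, 19, 18]),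
  (12, [0, 13, 12, 11, 10, 8, 6, 5, 4, 3, 16, 17, 18, 19, 7, 20, 21, 9, 22, 23, 24], [1, 2, 15, 14]),
  (13, [1, 2, 14], [0, 13, 19, 20, 7, 21, 15, 16, 17, 18, 4, 3, 22, 23, 24, 5, 6, 8, 9, 10, 11, 12, 25, 26]),
  (13, [0, 13, 12, 25, 26], [1, 2, 3, 4, 18, 5, 6, 8, 9, 10, 11, 24, 23, 22, 21, 7, 20, 19, 17, 16, 15, 14]),
  (13, [5, 6, 8, 9, 10, 11, 18], [0, 13, 12, 4, 3, 2, 1, 14, 21, 7, 20, 19, 17, 16, 15, 22, 23, 24, 25, 26]),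
  (13, [0, 13, 12, 11, 10, 23, 24, 25, 26], [1, 2, 16, 3, 4, 5, 6, 8, 9, 22, 21, 7, 20, 19, 18, 17, 15, 14]),
  (13, [0, 13, 19, 20, 7, 21, 22, 3, 4, 5, 26], [1, 2, 16, 17, 18, 6, 8, 9, 10, 11, 12, 25, 24, 23, 15, 14]),
  (13, [3, 4, 5, 20, 7, 6, 12, 11, 10, 9, 22, 21, 8], [0, 14, 1, 2, 15, 13, 19, 18, 17, 16, 23, 24, 25, 26]),
  (13, [1, 8, 6, 5, 24, 23, 22, 15, 16, 17, 18, 4, 3, 2, 14], [0, 13, 12, 11, 10, 9, 21, 7, 20, 19, 25, 26]),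
  (13, [0, 14, 1, 2, 15, 13, 12, 11, 10, 8, 21, 22, 9, 23, 24, 25, 26], [3, 4, 5, 6, 7, 20, 19, 18, 17, 16]),
  (13, [0, 13, 12, 10, 9, 8, 6, 5, 18, 19, 20, 7, 21, 22, 23, 24, 11, 25, 26], [1, 2, 3, 4, 17, 16, 15, 14]),
  (13, [0, 14, 1, 2, 3, 4, 17, 16, 15, 13, 12, 10, 9, 8, 21, 22, 23, 24, 11, 25, 26], [5, 6, 7, 20, 19, 18]),
  (13, [0, 13, 12, 11, 10, 8, 6, 5, 4, 3, 16, 17, 18, 19, 20, 7, 21, 22, 9, 23, 24, 25, 26], [1, 2, 15, 14]),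
  (14, [0, 1, 16], [2, 3, 4, 18, 19, 20, 21, 22, 6, 5, 26, 27, 28, 7, 8, 10, 11, 12, 13, 14, 15, 23, 9, 24, 25, 17]),
  (14, [2, 3, 4, 18, 17], [0, 1, 16, 23, 9, 24, 25, 13, 14, 15, 22, 21, 20, 5, 6, 7, 8, 10, 11, 12, 19, 26, 27, 28]),
  (14, [0, 1, 16, 15, 14, 13, 28], [2, 3, 4, 5, 20, 6, 7, 8, 10, 11, 12, 27, 26, 25, 24, 9, 23, 22, 21, 19, 18, 17]),
  (14, [0, 1, 8, 14, 13, 19, 26, 27, 28], [2, 3, 4, 6, 7, 22, 15, 16, 17, 18, 25, 24, 23, 21, 20, 5, 12, 11, 10, 9]),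
  (14, [0, 1, 16, 15, 14, 13, 12, 11, 26, 27, 28], [2, 3, 18, 4, 5, 6, 7, 8, 10, 25, 24, 9, 23, 22, 21, 20, 19, 17]),
  (14, [0, 22, 21, 20, 19, 25, 24, 9, 10, 11, 26, 27, 28], [1, 16, 2, 3, 4, 12, 13, 14, 15, 17, 18, 5, 6, 7, 23, 8]),
  (14, [1, 16, 17, 2, 12, 14, 10, 3, 20, 8, 4, 11, 19, 21, 28], [5, 26, 13, 23, 24, 27, 18, 7, 25, 9, 0, 6, 15, 22]),
  (14, [1, 16, 15, 8, 10, 11, 19, 20, 21, 22, 23, 9, 24, 25, 12, 13, 14], [0, 7, 6, 5, 4, 18, 17, 2, 3, 26, 27, 28]),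
  (14, [0, 1, 16, 2, 3, 18, 17, 15, 14, 13, 12, 10, 9, 24, 25, 11, 26, 27, 28], [4, 5, 6, 7, 8, 23, 22, 21, 20, 19]),
  (14, [0, 1, 16, 15, 14, 12, 11, 10, 8, 7, 6, 21, 22, 23, 9, 24, 25, 26, 27, 13, 28], [2, 3, 4, 5, 20, 19, 18, 17]),
  (14, [0, 1, 16, 2, 3, 4, 5, 20, 19, 18, 17, 15, 14, 12, 11, 10, 9, 24, 25, 26, 27, 13, 28], [6, 7, 8, 23, 22, 21]),
  (14, [0, 1, 16, 15, 14, 13, 12, 10, 8, 7, 6, 5, 4, 19, 20, 21, 22, 23, 9, 24, 25, 11, 26, 27, 28], [2, 3, 18, 17]),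
  (15, [9, 25, 24], [0, 16, 1, 10, 19, 20, 21, 22, 23, 8, 7, 6, 15, 17, 18, 2, 3, 4, 5, 14, 13, 12, 11, 26, 27, 28, 29, 30]),
  (15, [0, 1, 16, 15, 30], [2, 3, 4, 5, 6, 22, 7, 8, 10, 11, 12, 13, 14, 29, 28, 27, 26, 25, 9, 24, 23, 21, 20, 19, 18, 17]),
  (15, [3, 4, 5, 6, 20, 19, 18], [0, 16, 1, 2, 11, 12, 13, 28, 27, 26, 25, 24, 9, 10, 17, 15, 14, 21, 22, 23, 8, 7, 29, 30]),
  (15, [0, 1, 16, 15, 14, 13, 28, 29, 30], [2, 3, 4, 20, 5, 6, 7, 8, 10, 11, 12, 27, 26, 25, 9, 24, 23, 22, 21, 19, 18, 17]),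
  (15, [9, 10, 11, 12, 13, 14, 15, 17, 18, 25, 24], [0, 16, 1, 2, 3, 4, 5, 6, 22, 29, 28, 27, 26, 19, 20, 21, 23, 8, 7, 30]),
  (15, [0, 1, 16, 15, 14, 13, 12, 11, 26, 27, 28, 29, 30], [2, 18, 3, 4, 5, 6, 7, 8, 10, 25, 9, 24, 23, 22, 21, 20, 19, 17]),
  (15, [2, 3, 4, 5, 6, 7, 8, 23, 22, 21, 13, 28, 27, 26, 25], [0, 16, 1, 24, 9, 10, 11, 12, 14, 15, 17, 18, 19, 20, 29, 30]),
  (15, [4, 5, 6, 8, 23, 15, 17, 18, 19, 20, 21, 22, 7, 14, 13, 12, 11], [0, 16, 1, 2, 3, 10, 9, 24, 25, 26, 27, 28, 29, 30]),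
  (15, [0, 16, 1, 2, 3, 4, 5, 6, 22, 7, 8, 23, 21, 20, 19, 18, 17, 15, 30], [9, 10, 11, 12, 13, 14, 29, 28, 27, 26, 25, 24]),
  (15, [0, 16, 1, 2, 3, 18, 17, 15, 14, 13, 12, 10, 9, 24, 25, 26, 11, 27, 28, 29, 30], [4, 5, 6, 7, 8, 23, 22, 21, 20, 19]),
  (15, [0, 16, 1, 2, 3, 4, 20, 5, 6, 7, 8, 23, 22, 21, 19, 18, 17, 15, 14, 13, 28, 29, 30], [9, 10, 11, 12, 27, 26, 25, 24]),
  (15, [0, 16, 1, 2, 3, 4, 5, 20, 19, 18, 17, 15, 14, 12, 11, 10, 9, 24, 25, 26, 27, 28, 13, 29, 30], [6, 7, 8, 23, 22, 21]),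
  (15, [0, 16, 1, 2, 18, 3, 4, 5, 6, 7, 8, 23, 22, 21, 20, 19, 17, 15, 14, 13, 12, 11, 26, 27, 28, 29, 30], [9, 10, 25, 24])]

lemma tab_ok : ∀ e ∈ tab, ((e.2.1 : Multiset ℕ) + e.2.2 = Multiset.Ico 0 (2 * e.1 + 1)) ∧
    ((List.zipWith (fun x y => lab e.1 x + lab e.1 y) e.2.1 (e.2.1.rotate 1) : List ℕ) : Multiset ℕ) +
      (List.zipWith (fun x y => lab e.1 x + lab e.1 y) e.2.2 (e.2.2.rotate 1) : List ℕ) =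
        Multiset.Ico (e.1 + 2) (e.1 + 2 + (2 * e.1 + 1)) := by
  decide +kernel

lemma tab_cov : ∀ k ∈ List.range 16, ∀ n ∈ List.range 32,
    (4 ≤ k ∧ n % 2 = 1 ∧ 3 ≤ n ∧ n + 3 ≤ 2 * k) →
    ∃ e ∈ tab, e.2.1.length = n ∧ e.2.2.length = 2 * k + 1 - n := by
  decide +kernel

lemma good_odd (k n : ℕ) (hk : 4 ≤ k) (h0 : n % 2 = 1) (h1 : 3 ≤ n) (h2 : n + 3 ≤ 2 * k) :
    Good n (2 * k + 1 - n) := by
  by_cases hs : k < 16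
  · obtain ⟨e, he, a, b⟩ := tab_cov k (List.mem_range.2 hs) n
      (List.mem_range.2 (by omega)) ⟨hk, h0, h1, h2⟩
    have := of_lists _ _ _ (tab_ok e he).1 (tab_ok e he).2
    rwa [a, b] at this
  · obtain ⟨q, hq⟩ : ∃ q, k = 8 * q + 0 ∨ k = 8 * q + 1 ∨ k = 8 * q + 2 ∨ k = 8 * q + 3 ∨
        k = 8 * q + 4 ∨ k = 8 * q + 5 ∨ k = 8 * q + 6 ∨ k = 8 * q + 7 := ⟨k / 8, by omega⟩
    rcases hq with rfl | rfl | rfl | rfl | rfl | rfl | rfl | rfl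
    · exact g0 q n (by omega) h0 h1 h2
    · exact g1 q n (by omega) h0 h1 h2
    · exact g2 q n (by omega) h0 h1 h2
    · exact g3 q n (by omega) h0 h1 h2
    · exact g4 q n (by omega) h0 h1 h2
    · exact g5 q n (by omega) h0 h1 h2
    · exact g6 q n (by omega) h0 h1 h2
    · exact g7 q n (by omega) h0 h1 h2

lemma sum_bij {ι : Type} [Fintype ι] (f : ι → ℕ) (a p : ℕ) (hc : Fintype.card ι = p)
    (hf : Function.Injective f) (h : ∀ v, a ≤ f v ∧ f v < a + p) :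
    2 * ∑ v, f v + p = 2 * (p * a) + p * p := by
  have h1 : Finset.univ.image f = Finset.Ico a (a + p) := by
    refine Finset.eq_of_subset_of_card_le (fun x hx => ?_) ?_
    · obtain ⟨v, -, rfl⟩ := Finset.mem_image.1 hx
      exact Finset.mem_Ico.2 (h v)
    · rw [Finset.card_image_of_injective _ hf]; simp [hc]
  have h2 : ∑ v, f v = ∑ x ∈ Finset.Ico a (a + p), x := by
    rw [← h1, Finset.sum_image fun x _ y _ e => hf e]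
  rw [h2]
  clear h1 h2 h hc
  induction p with
  | zero => simp
  | succ p ih =>
    rw [← add_assoc a p 1, Finset.sum_Ico_succ_top (Nat.le_add_right a p)]
    nlinarith

lemma cyc_sum (m : ℕ) (hm : 3 ≤ m) (f g : Fin m → ℕ) (k : ℕ)
    (h : ∀ i j : Fin m, j.val = (i.val + 1) % m → f i + f j + g i = k) :
    2 * ∑ i, f i + ∑ i, g i = m * k := by
  obtain ⟨m, rfl⟩ : ∃ l, m = l + 1 := ⟨m - 1, by omega⟩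
  have h1 : ∀ i : Fin (m + 1), f i + f (i + 1) + g i = k := fun i => h i (i + 1) (by
    rw [Fin.val_add, Fin.val_one', Nat.add_mod_mod])
  have h2 : ∑ i, f (i + 1) = ∑ i, f i := Equiv.sum_comp (Equiv.addRight (1 : Fin (m + 1))) f
  have h3 := Finset.sum_congr rfl fun i (_ : i ∈ Finset.univ) => h1 i
  simp only [Finset.sum_add_distrib, h2, Finset.sum_const, Finset.card_univ, Fintype.card_fin,
    smul_eq_mul] at h3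
  omega

theorem main (m n : ℕ) (hm : 3 ≤ m) (hn : 3 ≤ n) (h : ¬ ((m = 3 ∧ n = 4) ∨ (m = 4 ∧ n = 3))) :
    Good m n ↔ Odd (m + n) := by
  constructor
  · rintro ⟨f, g, k, h1, h2, h3, h4, h5, h6⟩
    have a1 := sum_bij f 1 (m + n) (by simp) h1 fun v => ⟨(h3 v).1, by have := (h3 v).2; omega⟩
    have a2 := sum_bij g (m + n + 1) (m + n) (by simp) h2
      fun v => ⟨(h4 v).1, by have := (h4 v).2; omega⟩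
    have a3 := cyc_sum m hm (fun i => f (Sum.inl i)) (fun i => g (Sum.inl i)) k h5
    have a4 := cyc_sum n hn (fun i => f (Sum.inr i)) (fun i => g (Sum.inr i)) k h6
    rw [Fintype.sum_sum_type] at a1 a2
    have a5 : (m + n) * (2 * k) = (m + n) * (5 * (m + n) + 3) := by nlinarith
    have a6 := Nat.eq_of_mul_eq_mul_left (by omega) a5
    rw [Nat.odd_iff]; omega
  · rintro ⟨k, hk⟩
    rcases Nat.mod_two_eq_zero_or_one n with p | p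
    · have := good_odd k m (by omega) (by omega) hm (by omega)
      rwa [show 2 * k + 1 - m = n by omega] at this
    · have := good_odd k n (by omega) p hn (by omega)
      rw [show 2 * k + 1 - n = m by omega] at this
      exact this.symm

end Pool.Agent.H6.SEM
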