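import Mathlib

namespace Pool.Agent.H6.SelfInv

open MvPowerSeries

/-- The Hessian matrix. -/
noncomputable def Hes {n : ℕ} (P : MvPowerSeries (Fin n) ℂ) :
    Matrix (Fin n) (Fin n) (MvPowerSeries (Fin n) ℂ) :=
  Matrix.of fun i j => pderiv ℂ i (pderiv ℂ j P)

/-- The formal map `z + t ∇P`. -/
noncomputable def sh {n : ℕ} (t : ℂ) (P : MvPowerSeries (Fin n) ℂ) (j : Fin n) :
    MvPowerSeries (Fin n) ℂ := X j + C t * pderiv ℂ j P

/-- `P` has order at least two, nilpotent Hessian at the origin, and `z + ∇P` is the two-sided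
formal inverse of `z - ∇P`. -/
def SelfInverting {n : ℕ} (P : MvPowerSeries (Fin n) ℂ) : Prop :=
  2 ≤ P.order ∧ IsNilpotent ((Hes P).map constantCoeff) ∧
    (∀ i, subst (sh 1 P) (sh (-1) P i) = X i) ∧ (∀ i, subst (sh (-1) P) (sh 1 P i) = X i)

theorem selfInv_of {n : ℕ} (P : MvPowerSeries (Fin n) ℂ) (h1 : 2 ≤ P.order)
    (h2 : IsNilpotent ((Hes P).map constantCoeff))
    (h3 : ∀ (t : ℂ) (φ : MvPowerSeries (Fin n) ℂ →ₐ[ℂ] MvPowerSeries (Fin n) ℂ),
      (∀ j, φ (X j) = X j + C t * pderiv ℂ j P) → ∀ j, φ (pderiv ℂ j P) = pderiv ℂ j P) :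
    SelfInverting P := by
  have hs : ∀ t, HasSubst (sh t P) := by
    intro t
    apply hasSubst_of_constantCoeff_zero
    intro j
    have : constantCoeff (pderiv ℂ j P) = 0 := by
      rw [← coeff_zero_eq_constantCoeff_apply, coeff_pderiv, coeff_of_lt_order, zero_mul]
      refine lt_of_lt_of_le ?_ h1
      simp
    simp [sh, this]
  have key : ∀ (t t' : ℂ) (i : Fin n), t + t' = 0 → subst (sh t P) (sh t' P i) = X i := by
    intro t t' i h
    have hX : ∀ j, substAlgHom (R := ℂ) (hs t) (X j) = X j + C t * pderiv ℂ j P :=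
      fun j => substAlgHom_X (hs t) j
    rw [← substAlgHom_apply (hs t)]
    have hC : substAlgHom (R := ℂ) (hs t) (C t') = C t' := (substAlgHom (hs t)).commutes t'
    simp only [sh, map_add, map_mul, hX, hC, h3 t _ hX]
    rw [add_assoc, ← add_mul, ← map_add, h, map_zero, zero_mul, add_zero]
  exact ⟨h1, h2, fun i => key _ _ i (by ring), fun i => key _ _ i (by ring)⟩

theorem pX {n : ℕ} (i j : Fin n) :
    pderiv ℂ i (X j : MvPowerSeries (Fin n) ℂ) = if j = i then 1 else 0 := by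
  split_ifs with h
  · subst h; exact pderiv_X_self
  · exact pderiv_X_of_ne h

end Pool.Agent.H6.SelfInv
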