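import Mathlib

namespace Pool.Agent.H6.SidE

open Finset

section defs
variable {V : Type} [Fintype V]

def ff (D : V → V → ℝ) (o y : V) : ℝ := ∑ u, D o u * D u y
def gg (D : V → V → ℝ) (o x : V) : ℝ := ∑ y, ff D o y * D y x
def t7 (D : V → V → ℝ) (o : V) : ℝ := ∑ x, ∑ z, D x z * gg D o x * gg D o z
def d1 (D : V → V → ℝ) (y : V) : ℝ := ∑ x, D y x
def kk (D : V → V → ℝ) (o : V) : ℝ := ∑ y, d1 D y * (ff D o y * ff D o y)
def TT (D : V → V → ℝ) : ℝ := ∑ o, t7 D o * kk D o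
def cod (W : V → V → V → ℝ) (x y : V) : ℝ := ∑ z, W x y z

def tens (D : V → V → ℝ) (p q : V × V) : ℝ := D p.1 q.1 * D p.2 q.2

lemma sum_pair (a b : V → ℝ) : ∑ p : V × V, a p.1 * b p.2 = (∑ x, a x) * ∑ x, b x := by
  rw [Fintype.sum_prod_type, sum_mul_sum]

lemma ff_tens (D : V → V → ℝ) (o y : V × V) :
    ff (tens D) o y = ff D o.1 y.1 * ff D o.2 y.2 := by
  unfold ff tens
  rw [← sum_pair]
  exact sum_congr rfl fun _ _ => by ring

lemma gg_tens (D : V → V → ℝ) (o y : V × V) :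
    gg (tens D) o y = gg D o.1 y.1 * gg D o.2 y.2 := by
  unfold gg
  rw [← sum_pair]
  exact sum_congr rfl fun _ _ => by rw [ff_tens]; unfold tens; ring

lemma d1_tens (D : V → V → ℝ) (y : V × V) : d1 (tens D) y = d1 D y.1 * d1 D y.2 := by
  unfold d1 tens
  rw [← sum_pair]

lemma t7_tens (D : V → V → ℝ) (o : V × V) : t7 (tens D) o = t7 D o.1 * t7 D o.2 := by
  unfold t7
  rw [← sum_pair]
  refine sum_congr rfl fun x _ => ?_
  rw [← sum_pair]
  exact sum_congr rfl fun _ _ => by rw [gg_tens, gg_tens]; unfold tens; ring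

lemma kk_tens (D : V → V → ℝ) (o : V × V) : kk (tens D) o = kk D o.1 * kk D o.2 := by
  unfold kk
  rw [← sum_pair]
  exact sum_congr rfl fun _ _ => by rw [ff_tens, d1_tens]; ring

lemma TT_tens (D : V → V → ℝ) : TT (tens D) = TT D * TT D := by
  unfold TT
  rw [← sum_pair]
  exact sum_congr rfl fun _ _ => by rw [t7_tens, kk_tens]; ring

structure Good (W : V → V → V → ℝ) : Prop where
  nn : ∀ x y z, 0 ≤ W x y z
  s1 : ∀ x y z, W x y z = W y x z
  s2 : ∀ x y z, W x y z = W x z y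

def tens3 (W : V → V → V → ℝ) (p q r : V × V) : ℝ := W p.1 q.1 r.1 * W p.2 q.2 r.2

lemma good_tens {W : V → V → V → ℝ} (h : Good W) : Good (tens3 W) where
  nn := fun _ _ _ => mul_nonneg (h.nn _ _ _) (h.nn _ _ _)
  s1 := fun x y z => by unfold tens3; rw [h.s1 x.1, h.s1 x.2]
  s2 := fun x y z => by unfold tens3; rw [h.s2 x.1, h.s2 x.2]

lemma cod_tens (W : V → V → V → ℝ) : cod (tens3 W) = tens (cod W) := by
  funext p q
  unfold cod tens3 tens
  rw [← sum_pair]

lemma pointwise {W : V → V → V → ℝ} (h : Good W) (o : V) :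
    (∑ x, gg (cod W) o x) ^ 4 ≤ 64 * (Fintype.card V : ℝ) ^ 2 * (t7 (cod W) o * kk (cod W) o) := by
  classical
  set D := cod W with hD
  have hD0 : ∀ x y, 0 ≤ D x y := fun x y => sum_nonneg fun z _ => h.nn _ _ _
  have hf0 : ∀ y, 0 ≤ ff D o y := fun y => sum_nonneg fun u _ => mul_nonneg (hD0 _ _) (hD0 _ _)
  have hg0 : ∀ y, 0 ≤ gg D o y := fun y => sum_nonneg fun u _ => mul_nonneg (hf0 _) (hD0 _ _)
  set P := ∑ x, gg D o x with hP
  have hP0 : 0 ≤ P := sum_nonneg fun x _ => hg0 x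
  have hN : (0 : ℝ) < Fintype.card V := by
    have : Nonempty V := ⟨o⟩
    exact_mod_cast Fintype.card_pos
  set N : ℝ := (Fintype.card V : ℝ) with hNdef
  set θ := P / (4 * N) with hθ
  have hθ0 : 0 ≤ θ := by positivity
  set a : V → ℝ := fun x => if θ ≤ gg D o x then 1 else 0 with ha
  have ha01 : ∀ x, 0 ≤ a x ∧ a x ≤ 1 ∧ a x * a x = a x ∧ θ * a x ≤ gg D o x ∧
      (1 - a x) * gg D o x ≤ θ := by
    intro x
    have := hg0 x
    simp only [ha]
    split_ifs with hx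
    · refine ⟨by norm_num, le_rfl, by norm_num, by linarith, by linarith⟩
    · push Not at hx
      refine ⟨le_rfl, by norm_num, by norm_num, by linarith, by linarith⟩
  -- sums over triples
  have e1 : ∀ c : V → ℝ, ∑ t : V × V × V, W t.1 t.2.1 t.2.2 * ff D o t.1 * c t.2.1 =
      ∑ x, c x * gg D o x := by
    intro c
    simp only [Fintype.sum_prod_type]
    rw [sum_comm]
    refine sum_congr rfl fun x _ => ?_
    unfold gg
    rw [mul_sum]
    refine sum_congr rfl fun y _ => ?_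
    rw [hD]
    unfold cod
    rw [mul_sum, mul_sum]
    exact sum_congr rfl fun z _ => by ring
  have e2 : ∀ c : V → ℝ, ∑ t : V × V × V, W t.1 t.2.1 t.2.2 * ff D o t.1 * c t.2.2 =
      ∑ x, c x * gg D o x := by
    intro c
    rw [← e1 c]
    simp only [Fintype.sum_prod_type]
    refine sum_congr rfl fun y _ => ?_
    rw [sum_comm]
    exact sum_congr rfl fun x _ => sum_congr rfl fun z _ => by rw [h.s2 y z x]
  have hbad : ∑ x, (1 - a x) * gg D o x ≤ P / 4 := by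
    calc _ ≤ ∑ _x : V, θ := sum_le_sum fun x _ => (ha01 x).2.2.2.2
      _ = N * θ := by simp [hNdef]
      _ = P / 4 := by rw [hθ]; field_simp
  have hL : P / 2 ≤ ∑ t : V × V × V, W t.1 t.2.1 t.2.2 * ff D o t.1 * (a t.2.1 * a t.2.2) := by
    have b0 := e1 fun _ => 1
    have b1 := e1 fun x => 1 - a x
    have b2 := e2 fun x => 1 - a x
    simp only [one_mul] at b0
    have : ∑ t : V × V × V, (W t.1 t.2.1 t.2.2 * ff D o t.1 * 1 -
        W t.1 t.2.1 t.2.2 * ff D o t.1 * (1 - a t.2.1) -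
        W t.1 t.2.1 t.2.2 * ff D o t.1 * (1 - a t.2.2)) ≤
        ∑ t : V × V × V, W t.1 t.2.1 t.2.2 * ff D o t.1 * (a t.2.1 * a t.2.2) := by
      refine sum_le_sum fun t _ => ?_
      have c1 := mul_nonneg (h.nn t.1 t.2.1 t.2.2) (hf0 t.1)
      have c2 := mul_nonneg (sub_nonneg.2 (ha01 t.2.1).2.1) (sub_nonneg.2 (ha01 t.2.2).2.1)
      nlinarith [mul_nonneg c1 c2]
    rw [sum_sub_distrib, sum_sub_distrib, b0, b1, b2] at this
    linarith
  have hCS : (∑ t : V × V × V, W t.1 t.2.1 t.2.2 * ff D o t.1 * (a t.2.1 * a t.2.2)) ^ 2 ≤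
      (∑ t : V × V × V, W t.1 t.2.1 t.2.2 * (ff D o t.1 * ff D o t.1)) *
      ∑ t : V × V × V, W t.1 t.2.1 t.2.2 * (a t.2.1 * a t.2.2) := by
    refine sum_sq_le_sum_mul_sum_of_sq_eq_mul _ ?_ ?_ ?_
    · intro t _
      exact mul_nonneg (h.nn _ _ _) (mul_self_nonneg _)
    · intro t _
      exact mul_nonneg (h.nn _ _ _) (mul_nonneg (ha01 _).1 (ha01 _).1)
    · intro t _
      have c1 := (ha01 t.2.1).2.2.1
      have c2 := (ha01 t.2.2).2.2.1
      calc _ = W t.1 t.2.1 t.2.2 * (ff D o t.1 * ff D o t.1) * (W t.1 t.2.1 t.2.2 *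
            ((a t.2.1 * a t.2.1) * (a t.2.2 * a t.2.2))) := by ring
        _ = _ := by rw [c1, c2]
  have hK : ∑ t : V × V × V, W t.1 t.2.1 t.2.2 * (ff D o t.1 * ff D o t.1) = kk D o := by
    simp only [Fintype.sum_prod_type]
    unfold kk d1
    refine sum_congr rfl fun y _ => ?_
    rw [sum_mul]
    refine sum_congr rfl fun x _ => ?_
    rw [hD]
    unfold cod
    rw [sum_mul]
  have hT : θ ^ 2 * ∑ t : V × V × V, W t.1 t.2.1 t.2.2 * (a t.2.1 * a t.2.2) ≤ t7 D o := by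
    have : t7 D o = ∑ t : V × V × V, W t.1 t.2.1 t.2.2 * (gg D o t.2.1 * gg D o t.2.2) := by
      simp only [Fintype.sum_prod_type]
      rw [sum_comm]
      unfold t7
      refine sum_congr rfl fun x _ => ?_
      rw [sum_comm]
      refine sum_congr rfl fun z _ => ?_
      rw [← sum_mul, mul_assoc]
      congr 1
      rw [hD]
      unfold cod
      exact sum_congr rfl fun y _ => by rw [h.s2 x z y, h.s1 x y z]
    rw [this, mul_sum]
    refine sum_le_sum fun t _ => ?_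
    have c1 := (ha01 t.2.1).2.2.2.1
    have c2 := (ha01 t.2.2).2.2.2.1
    have c3 := mul_le_mul c1 c2 (mul_nonneg hθ0 (ha01 _).1) (hg0 _)
    calc _ = W t.1 t.2.1 t.2.2 * (θ * a t.2.1 * (θ * a t.2.2)) := by ring
      _ ≤ _ := mul_le_mul_of_nonneg_left c3 (h.nn _ _ _)
  rw [hK] at hCS
  have hk0 : 0 ≤ kk D o := by
    rw [← hK]
    exact sum_nonneg fun t _ => mul_nonneg (h.nn _ _ _) (mul_self_nonneg _)
  have h1 : (P / 2) ^ 2 ≤ kk D o * ∑ t : V × V × V, W t.1 t.2.1 t.2.2 * (a t.2.1 * a t.2.2) :=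
    (pow_le_pow_left₀ (by positivity) hL 2).trans hCS
  have h2 : θ ^ 2 * (P / 2) ^ 2 ≤ kk D o * t7 D o := by
    calc _ ≤ θ ^ 2 * (kk D o * ∑ t : V × V × V, W t.1 t.2.1 t.2.2 * (a t.2.1 * a t.2.2)) :=
          mul_le_mul_of_nonneg_left h1 (by positivity)
      _ = kk D o * (θ ^ 2 * ∑ t : V × V × V, W t.1 t.2.1 t.2.2 * (a t.2.1 * a t.2.2)) := by ring
      _ ≤ _ := mul_le_mul_of_nonneg_left hT hk0
  have h3 : P ^ 4 = 64 * N ^ 2 * (θ ^ 2 * (P / 2) ^ 2) := by
    rw [hθ]; field_simp; ring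
  rw [h3, mul_comm (t7 D o)]
  exact mul_le_mul_of_nonneg_left h2 (by positivity)

lemma sq_sum_le (u : V → ℝ) : (∑ x, u x) ^ 2 ≤ (Fintype.card V : ℝ) * ∑ x, u x ^ 2 := by
  have := sq_sum_le_card_mul_sum_sq (s := (univ : Finset V)) (f := u)
  simpa using this

lemma weak {W : V → V → V → ℝ} (h : Good W) :
    (∑ x, d1 (cod W) x) ^ 12 ≤ 64 * ((Fintype.card V : ℝ) ^ 13 * TT (cod W)) := by
  set D := cod W with hD
  have hD0 : ∀ x y, 0 ≤ D x y := fun x y => sum_nonneg fun z _ => h.nn _ _ _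
  have hs : ∀ x y, D x y = D y x := fun x y => sum_congr rfl fun z _ => h.s1 _ _ _
  set N : ℝ := (Fintype.card V : ℝ) with hN
  have hN0 : 0 ≤ N := Nat.cast_nonneg _
  set d2 : V → ℝ := fun x => ∑ y, D x y * d1 D y with hd2
  set d3 : V → ℝ := fun x => ∑ y, D x y * d2 y with hd3
  have adj : ∀ u v : V → ℝ, ∑ x, u x * ∑ y, D x y * v y = ∑ y, (∑ x, D y x * u x) * v y := by
    intro u v
    simp only [mul_sum, sum_mul]
    rw [sum_comm]
    exact sum_congr rfl fun y _ => sum_congr rfl fun x _ => by rw [hs x y]; ring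
  have e3 : ∀ o, ∑ x, gg D o x = d3 o := by
    intro o
    unfold gg ff
    rw [sum_comm]
    simp only [hd3, hd2, d1, mul_sum, sum_mul]
    rw [sum_comm]
    conv_rhs => rw [sum_comm]
    rw [sum_comm]
    refine sum_congr rfl fun y _ => ?_
    rw [sum_comm]
    exact sum_congr rfl fun u _ => sum_congr rfl fun x _ => by ring
  have h1 := sq_sum_le (d1 D)
  have e2 : ∑ x, d2 x = ∑ x, d1 D x ^ 2 := by
    have := adj (fun _ => 1) (d1 D)
    simp only [one_mul, mul_one] at this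
    rw [hd2, this]
    exact sum_congr rfl fun y _ => by unfold d1; ring
  have h2 := sq_sum_le d2
  have e4 : ∑ x, d2 x ^ 2 = ∑ x, d1 D x * d3 x := by
    rw [hd3, adj]
    exact sum_congr rfl fun y _ => by rw [hd2]; ring
  have h3 := sum_mul_sq_le_sq_mul_sq univ (d1 D) d3
  have h4 := sq_sum_le fun x => d3 x ^ 2
  have h5 : ∑ x, (d3 x ^ 2) ^ 2 ≤ 64 * N ^ 2 * TT D := by
    unfold TT
    rw [mul_sum]
    refine sum_le_sum fun o _ => ?_
    have := pointwise h o
    rw [← hD, e3] at this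
    calc _ = d3 o ^ 4 := by ring
      _ ≤ _ := this
  rw [e2] at h2
  rw [← e4] at h3
  set w1 := ∑ x, d1 D x
  set w2 := ∑ x, d1 D x ^ 2 with hw2
  set w4 := ∑ x, d2 x ^ 2
  set w6 := ∑ x, d3 x ^ 2 with hw6
  have p2 : 0 ≤ w2 := sum_nonneg fun _ _ => sq_nonneg _
  have p6 : 0 ≤ w6 := sum_nonneg fun _ _ => sq_nonneg _
  have a1 : w2 ^ 3 ≤ N ^ 2 * w6 := by
    rcases p2.eq_or_lt with e | e
    · rw [← e]; simp; positivity
    · have b1 : (w2 ^ 2) ^ 2 ≤ (N * w4) ^ 2 := pow_le_pow_left₀ (by positivity) h2 2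
      have b2 : N ^ 2 * w4 ^ 2 ≤ N ^ 2 * (w2 * w6) := mul_le_mul_of_nonneg_left h3 (by positivity)
      have b3 : w2 * w2 ^ 3 ≤ w2 * (N ^ 2 * w6) := by nlinarith
      exact le_of_mul_le_mul_left b3 e
  have a2 : (w1 ^ 2) ^ 6 ≤ (N * w2) ^ 6 := pow_le_pow_left₀ (by positivity) h1 6
  have a3 : (w2 ^ 3) ^ 2 ≤ (N ^ 2 * w6) ^ 2 := pow_le_pow_left₀ (by positivity) a1 2
  have a4 : w6 ^ 2 ≤ N * (64 * N ^ 2 * TT D) := h4.trans (mul_le_mul_of_nonneg_left h5 hN0)
  calc w1 ^ 12 = (w1 ^ 2) ^ 6 := by ring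
    _ ≤ (N * w2) ^ 6 := a2
    _ = N ^ 6 * (w2 ^ 3) ^ 2 := by ring
    _ ≤ N ^ 6 * (N ^ 2 * w6) ^ 2 := mul_le_mul_of_nonneg_left a3 (by positivity)
    _ = N ^ 10 * w6 ^ 2 := by ring
    _ ≤ N ^ 10 * (N * (64 * N ^ 2 * TT D)) := mul_le_mul_of_nonneg_left a4 (by positivity)
    _ = _ := by ring

end defs

lemma power (j : ℕ) : ∀ (V : Type) [Fintype V] (W : V → V → V → ℝ), Good W →
    ((∑ x, d1 (cod W) x) ^ 12) ^ (2 ^ j) ≤
      64 * ((Fintype.card V : ℝ) ^ 13 * TT (cod W)) ^ (2 ^ j) := by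
  induction j with
  | zero => intro V _ W h; simpa using weak h
  | succ j ih =>
    intro V _ W h
    have := ih (V × V) (tens3 W) (good_tens h)
    rw [cod_tens, TT_tens, Fintype.card_prod] at this
    simp only [d1_tens] at this
    rw [sum_pair] at this
    push_cast at this
    rw [pow_succ 2 j, mul_comm (2 ^ j) 2, pow_mul _ 2, pow_mul _ 2]
    have e1 : ((∑ x, d1 (cod W) x) ^ 12) ^ 2 =
        ((∑ x, d1 (cod W) x) * ∑ x, d1 (cod W) x) ^ 12 := by ring
    have e2 : ((Fintype.card V : ℝ) ^ 13 * TT (cod W)) ^ 2 =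
        ((Fintype.card V : ℝ) * Fintype.card V) ^ 13 * (TT (cod W) * TT (cod W)) := by ring
    rw [e1, e2]
    exact this

theorem strong {V : Type} [Fintype V] {W : V → V → V → ℝ} (h : Good W) :
    (∑ x, d1 (cod W) x) ^ 12 ≤ (Fintype.card V : ℝ) ^ 13 * TT (cod W) := by
  by_contra hc
  push Not at hc
  set A := (∑ x, d1 (cod W) x) ^ 12 with hA
  set B := (Fintype.card V : ℝ) ^ 13 * TT (cod W) with hB
  have hA0 : 0 ≤ A := Even.pow_nonneg (by decide) _
  have hB0 : 0 ≤ B := by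
    have := weak h
    rw [← hA, ← hB] at this
    linarith
  have hApos : 0 < A := lt_of_le_of_lt hB0 hc
  obtain ⟨j, hj⟩ := exists_pow_lt_of_lt_one (x := 1 / 64) (y := B / A) (by norm_num)
    ((div_lt_one hApos).2 hc)
  have h1 : (B / A) ^ (2 ^ j) ≤ (B / A) ^ j :=
    pow_le_pow_of_le_one (by positivity) ((div_le_one hApos).2 hc.le) Nat.lt_two_pow_self.le
  have h2 := power j V W h
  rw [← hA, ← hB] at h2
  have h3 : (B / A) ^ (2 ^ j) < 1 / 64 := lt_of_le_of_lt h1 hj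
  rw [div_pow, div_lt_iff₀ (by positivity)] at h3
  linarith

def ea : Fin 12 → Fin 11 := ![5, 0, 10, 9, 0, 8, 7, 1, 0, 3, 0, 2]
def eb : Fin 12 → Fin 11 := ![6, 10, 9, 5, 8, 7, 6, 4, 3, 1, 2, 1]

lemma sum_cons {V : Type} [Fintype V] (k : ℕ) (F : (Fin (k + 1) → V) → ℝ) :
    ∑ φ, F φ = ∑ x, ∑ φ : Fin k → V, F (Fin.cons x φ) := by
  rw [← Fintype.sum_prod_type']
  exact (Fintype.sum_equiv (Fin.consEquiv fun _ => V) _ _ fun _ => rfl).symm

lemma TT_eq {V : Type} [Fintype V] (D : V → V → ℝ) :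
    ∑ φ : Fin 11 → V, ∏ i, D (φ (ea i)) (φ (eb i)) = TT D := by
  have : ∀ φ : Fin 11 → V, ∏ i, D (φ (ea i)) (φ (eb i)) =
      D (φ 5) (φ 6) * (D (φ 0) (φ 10) * D (φ 10) (φ 9) * D (φ 9) (φ 5)) *
        (D (φ 0) (φ 8) * D (φ 8) (φ 7) * D (φ 7) (φ 6)) *
        (D (φ 1) (φ 4) * (D (φ 0) (φ 3) * D (φ 3) (φ 1) * (D (φ 0) (φ 2) * D (φ 2) (φ 1)))) := by
    intro φ
    simp only [Fin.prod_univ_succ, Fin.prod_univ_zero]
    change D (φ 5) (φ 6) * (D (φ 0) (φ 10) * (D (φ 10) (φ 9) * (D (φ 9) (φ 5) *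
      (D (φ 0) (φ 8) * (D (φ 8) (φ 7) * (D (φ 7) (φ 6) * (D (φ 1) (φ 4) * (D (φ 0) (φ 3) *
      (D (φ 3) (φ 1) * (D (φ 0) (φ 2) * (D (φ 2) (φ 1) * 1))))))))))) = _
    ring
  simp only [this]
  simp only [TT, t7, kk, gg, ff, d1, mul_sum, sum_mul]
  iterate 11
    rw [sum_cons]
    refine sum_congr rfl fun _ _ => ?_
  rw [Fintype.sum_unique]
  rfl

theorem hyper (n : ℕ) (hn : 0 < n) (G : Finset (Finset (Fin n))) (hG : ∀ g ∈ G, g.card = 3) :
    (((Nat.factorial 3 * G.card : ℕ) : ℝ) / (n : ℝ) ^ 3) ^ 12 ≤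
      ((univ.filter (fun f : Fin 11 ⊕ (Fin 12 × Fin 1) → Fin n => ∀ i : Fin 12,
        (({ea i, eb i} : Finset (Fin 11)).image (Sum.inl : Fin 11 → Fin 11 ⊕ (Fin 12 × Fin 1)) ∪
          (univ : Finset (Fin 1)).image (fun j : Fin 1 =>
            (Sum.inr (i, j) : Fin 11 ⊕ (Fin 12 × Fin 1)))).image f ∈ G)).card : ℝ)
        / (n : ℝ) ^ (11 + 12 * 1) := by
  set W : Fin n → Fin n → Fin n → ℝ := fun x y z => if ({x, y, z} : Finset (Fin n)) ∈ G then 1 else 0
    with hW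
  have hgood : Good W := by
    refine ⟨fun x y z => ?_, fun x y z => ?_, fun x y z => ?_⟩
    · simp only [hW]; split_ifs <;> norm_num
    · simp only [hW]; rw [insert_comm]
    · simp only [hW]; rw [pair_comm]
  have hs := strong hgood
  rw [← TT_eq, Fintype.card_fin] at hs
  have e1 : ∑ x, d1 (cod W) x = ((Nat.factorial 3 * G.card : ℕ) : ℝ) := by
    have a1 : ∑ x, d1 (cod W) x = ((univ.filter fun t : Fin n × Fin n × Fin n =>
        ({t.1, t.2.1, t.2.2} : Finset (Fin n)) ∈ G).card : ℝ) := by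
      rw [card_filter]
      push_cast
      simp only [Fintype.sum_prod_type, d1, cod, hW]
    rw [a1]
    congr 1
    rw [card_eq_sum_card_fiberwise (f := fun t : Fin n × Fin n × Fin n =>
      ({t.1, t.2.1, t.2.2} : Finset (Fin n))) (t := G) (fun t ht => by simpa using ht)]
    rw [mul_comm, ← smul_eq_mul, ← sum_const]
    refine sum_congr rfl fun g hg => ?_
    obtain ⟨a, b, c, hab, hac, hbc, rfl⟩ := card_eq_three.1 (hG g hg)
    have : ((univ.filter fun t : Fin n × Fin n × Fin n =>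
        ({t.1, t.2.1, t.2.2} : Finset (Fin n)) ∈ G).filter fun t =>
          ({t.1, t.2.1, t.2.2} : Finset (Fin n)) = {a, b, c}) =
        {(a, b, c), (a, c, b), (b, a, c), (b, c, a), (c, a, b), (c, b, a)} := by
      ext ⟨x, y, z⟩
      simp only [mem_filter, mem_univ, true_and, mem_insert, mem_singleton, Prod.mk.injEq]
      constructor
      · rintro ⟨_, h⟩
        have h1 : x ∈ ({a, b, c} : Finset (Fin n)) := by rw [← h]; simp
        have h2 : y ∈ ({a, b, c} : Finset (Fin n)) := by rw [← h]; simp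
        have h3 : z ∈ ({a, b, c} : Finset (Fin n)) := by rw [← h]; simp
        have h4 : a ∈ ({x, y, z} : Finset (Fin n)) := by rw [h]; simp
        have h5 : b ∈ ({x, y, z} : Finset (Fin n)) := by rw [h]; simp
        have h6 : c ∈ ({x, y, z} : Finset (Fin n)) := by rw [h]; simp
        simp only [mem_insert, mem_singleton] at h1 h2 h3 h4 h5 h6
        grind
      · intro h
        have : ({x, y, z} : Finset (Fin n)) = {a, b, c} := by
          ext w
          simp only [mem_insert, mem_singleton]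
          grind
        exact ⟨by rw [this]; exact hg, this⟩
    rw [this]
    rw [card_insert_of_notMem (by simp; grind), card_insert_of_notMem (by simp; grind),
      card_insert_of_notMem (by simp; grind), card_insert_of_notMem (by simp; grind),
      card_insert_of_notMem (by simp; grind), card_singleton]
    rfl
  have e2 : ((univ.filter (fun f : Fin 11 ⊕ (Fin 12 × Fin 1) → Fin n => ∀ i : Fin 12,
        (({ea i, eb i} : Finset (Fin 11)).image (Sum.inl : Fin 11 → Fin 11 ⊕ (Fin 12 × Fin 1)) ∪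
          (univ : Finset (Fin 1)).image (fun j : Fin 1 =>
            (Sum.inr (i, j) : Fin 11 ⊕ (Fin 12 × Fin 1)))).image f ∈ G)).card : ℝ) =
      ∑ φ : Fin 11 → Fin n, ∏ i, cod W (φ (ea i)) (φ (eb i)) := by
    rw [card_filter]
    push_cast
    simp only [cod]
    simp only [prod_univ_sum, Fintype.piFinset_univ]
    rw [← Fintype.sum_prod_type']
    refine Fintype.sum_equiv ((Equiv.sumArrowEquivProdArrow _ _ _).trans
      (Equiv.prodCongr (Equiv.refl _) (Equiv.arrowCongr (Equiv.prodUnique _ _) (Equiv.refl _))))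
      _ _ fun f => ?_
    simp only [hW]
    rw [prod_ite_zero]
    simp only [prod_const_one, mem_univ, forall_true_left]
    refine if_congr (forall_congr' fun i => ?_) rfl rfl
    have : (({ea i, eb i} : Finset (Fin 11)).image (Sum.inl : Fin 11 → Fin 11 ⊕ (Fin 12 × Fin 1)) ∪
          (univ : Finset (Fin 1)).image (fun j : Fin 1 =>
            (Sum.inr (i, j) : Fin 11 ⊕ (Fin 12 × Fin 1)))).image f =
        {f (Sum.inl (ea i)), f (Sum.inl (eb i)), f (Sum.inr (i, default))} := by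
      ext w
      simp
    rw [this]
    rfl
  rw [e2, ← e1, div_pow, div_le_div_iff₀ (by positivity) (by positivity)]
  calc _ ≤ ((n : ℝ) ^ 13 * ∑ φ : Fin 11 → Fin n, ∏ i, cod W (φ (ea i)) (φ (eb i))) *
        (n : ℝ) ^ (11 + 12 * 1) := mul_le_mul_of_nonneg_right hs (by positivity)
    _ = _ := by ring

end Pool.Agent.H6.SidE
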