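import Mathlib

set_option autoImplicit false

namespace Pool.Agent.H6.SolAut

universe u

abbrev X := ℤ → ZMod 2

def sh (n : ℤ) (ξ : X) : X := fun j => ξ (j - n)

@[simp] lemma sh_zero (ξ : X) : sh 0 ξ = ξ := by funext j; simp [sh]
@[simp] lemma sh_zero' (n : ℤ) : sh n 0 = 0 := by funext j; simp [sh]
lemma sh_sh (m n : ℤ) (ξ : X) : sh m (sh n ξ) = sh (m + n) ξ := by
  funext j; simp only [sh]; congr 1; ring
lemma sh_add (n : ℤ) (ξ η : X) : sh n (ξ + η) = sh n ξ + sh n η := by funext j; simp [sh]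
lemma sh_neg (n : ℤ) (ξ : X) : sh n (-ξ) = - sh n ξ := by funext j; simp [sh]

@[ext] structure Big (U : Type u) where
  n : ℤ
  c : X
  χ : X → ℤˣ
  a : X → U

variable {U : Type u} [AddCommGroup U]

def act (p : Big U) (ξ : X) : X := sh p.n ξ + p.c

instance : Mul (Big U) :=
  ⟨fun p q => ⟨p.n + q.n, sh p.n q.c + p.c, fun ξ => p.χ (act q ξ) * q.χ ξ,
    fun ξ => p.χ (act q ξ) • q.a ξ + p.a (act q ξ)⟩⟩

instance : One (Big U) := ⟨⟨0, 0, 1, 0⟩⟩

instance : Inv (Big U) :=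
  ⟨fun p => ⟨-p.n, - sh (-p.n) p.c, fun ξ => (p.χ (sh (-p.n) ξ + - sh (-p.n) p.c))⁻¹,
    fun ξ => -((p.χ (sh (-p.n) ξ + - sh (-p.n) p.c))⁻¹ • p.a (sh (-p.n) ξ + - sh (-p.n) p.c))⟩⟩

@[simp] lemma mul_n (p q : Big U) : (p * q).n = p.n + q.n := rfl
@[simp] lemma mul_c (p q : Big U) : (p * q).c = sh p.n q.c + p.c := rfl
@[simp] lemma mul_χ (p q : Big U) (ξ : X) : (p * q).χ ξ = p.χ (act q ξ) * q.χ ξ := rfl
@[simp] lemma mul_a (p q : Big U) (ξ : X) :
    (p * q).a ξ = p.χ (act q ξ) • q.a ξ + p.a (act q ξ) := rfl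
@[simp] lemma one_n : (1 : Big U).n = 0 := rfl
@[simp] lemma one_c : (1 : Big U).c = 0 := rfl
@[simp] lemma one_χ : (1 : Big U).χ = 1 := rfl
@[simp] lemma one_a : (1 : Big U).a = 0 := rfl
@[simp] lemma inv_n (p : Big U) : (p⁻¹).n = -p.n := rfl
@[simp] lemma inv_c (p : Big U) : (p⁻¹).c = - sh (-p.n) p.c := rfl
lemma inv_χ (p : Big U) (ξ : X) : (p⁻¹).χ ξ = (p.χ (act p⁻¹ ξ))⁻¹ := rfl
lemma inv_a (p : Big U) (ξ : X) :
    (p⁻¹).a ξ = -((p.χ (act p⁻¹ ξ))⁻¹ • p.a (act p⁻¹ ξ)) := rfl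

lemma act_mul (p q : Big U) (ξ : X) : act (p * q) ξ = act p (act q ξ) := by
  simp only [act, mul_n, mul_c, sh_add, sh_sh]; abel

@[simp] lemma act_one (ξ : X) : act (1 : Big U) ξ = ξ := by simp [act]

lemma act_inv (p : Big U) (ξ : X) : act p⁻¹ (act p ξ) = ξ := by
  simp only [act, inv_n, inv_c, sh_add, sh_sh]; simp

instance : Group (Big U) :=
  Group.ofLeftAxioms
    (fun p q r => by
      refine Big.ext ?_ ?_ ?_ ?_
      · simp [add_assoc]
      · simp only [mul_c, mul_n, sh_add, sh_sh]; abel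
      · funext ξ; simp [act_mul, mul_assoc]
      · funext ξ; simp [act_mul, mul_smul, add_assoc])
    (fun p => by
      refine Big.ext ?_ ?_ ?_ ?_
      · simp
      · simp
      · funext ξ; simp
      · funext ξ; simp)
    (fun p => by
      refine Big.ext ?_ ?_ ?_ ?_
      · simp
      · simp
      · funext ξ; simp [inv_χ, act_inv]
      · funext ξ; simp [inv_χ, inv_a, act_inv])

def L1 (U : Type u) [AddCommGroup U] : Subgroup (Big U) where
  carrier := {p | p.n = 0}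
  mul_mem' := by intro p q hp hq; simp_all
  one_mem' := by simp
  inv_mem' := by intro p hp; simp_all

def L2 (U : Type u) [AddCommGroup U] : Subgroup (Big U) where
  carrier := {p | p.n = 0 ∧ p.c = 0}
  mul_mem' := by intro p q hp hq; simp_all
  one_mem' := by simp
  inv_mem' := by intro p hp; simp_all

def L3 (U : Type u) [AddCommGroup U] : Subgroup (Big U) where
  carrier := {p | p.n = 0 ∧ p.c = 0 ∧ p.χ = 1}
  mul_mem' := by
    rintro p q ⟨h1, h2, h3⟩ ⟨k1, k2, k3⟩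
    refine ⟨by simp [h1, k1], by simp [h2, k2], ?_⟩
    funext ξ; simp [h3, k3]
  one_mem' := by simp
  inv_mem' := by
    rintro p ⟨h1, h2, h3⟩
    refine ⟨by simp [h1], by simp [h2], ?_⟩
    funext ξ; simp [inv_χ, h3]

lemma act_L2 {p : Big U} (h1 : p.n = 0) (h2 : p.c = 0) (ξ : X) : act p ξ = ξ := by
  simp [act, h1, h2]

open scoped commutatorElement in
theorem derived_big : derivedSeries (Big U) 4 = ⊥ := by
  have h1 : derivedSeries (Big U) 1 ≤ L1 U := by
    rw [derivedSeries_succ, Subgroup.commutator_le]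
    intro p _ q _
    show (⁅p, q⁆ : Big U).n = 0
    simp [commutatorElement_def]
  have h2 : derivedSeries (Big U) 2 ≤ L2 U := by
    rw [derivedSeries_succ, Subgroup.commutator_le]
    intro p hp q hq
    have hp' : p.n = 0 := h1 hp
    have hq' : q.n = 0 := h1 hq
    show (⁅p, q⁆ : Big U).n = 0 ∧ (⁅p, q⁆ : Big U).c = 0
    refine ⟨by simp [commutatorElement_def], ?_⟩
    simp only [commutatorElement_def, mul_c, mul_n, inv_n, inv_c, hp', hq', neg_zero, add_zero,
      sh_zero]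
    abel
  have h3 : derivedSeries (Big U) 3 ≤ L3 U := by
    rw [derivedSeries_succ, Subgroup.commutator_le]
    intro p hp q hq
    obtain ⟨p1, p2⟩ : p.n = 0 ∧ p.c = 0 := h2 hp
    obtain ⟨q1, q2⟩ : q.n = 0 ∧ q.c = 0 := h2 hq
    show (⁅p, q⁆ : Big U).n = 0 ∧ (⁅p, q⁆ : Big U).c = 0 ∧ (⁅p, q⁆ : Big U).χ = 1
    refine ⟨by simp [commutatorElement_def], by simp [commutatorElement_def, p1, p2, q1, q2], ?_⟩
    funext ξ
    have a1 : ∀ ξ, act p⁻¹ ξ = ξ := act_L2 (by simp [p1]) (by simp [p2])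
    have a2 : ∀ ξ, act q⁻¹ ξ = ξ := act_L2 (by simp [q1]) (by simp [q2])
    have a3 : ∀ ξ, act q ξ = ξ := act_L2 q1 q2
    simp only [commutatorElement_def, mul_χ, inv_χ, a1, a2, a3, Pi.one_apply]
    rw [mul_comm (p.χ ξ) (q.χ ξ)]; group
  rw [derivedSeries_succ, eq_bot_iff, Subgroup.commutator_le]
  intro p hp q hq
  obtain ⟨p1, p2, p3⟩ : p.n = 0 ∧ p.c = 0 ∧ p.χ = 1 := h3 hp
  obtain ⟨q1, q2, q3⟩ : q.n = 0 ∧ q.c = 0 ∧ q.χ = 1 := h3 hq
  rw [Subgroup.mem_bot, commutatorElement_eq_one_iff_mul_comm]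
  refine Big.ext ?_ ?_ ?_ ?_
  · simp [p1, q1]
  · simp [p1, q1, p2, q2]
  · funext ξ; simp [p3, q3]
  · funext ξ; simp [p3, q3, act_L2 p1 p2, act_L2 q1 q2, add_comm]

/-- translation -/
def tr (w : X → U) : Big U := ⟨0, 0, 1, w⟩

lemma tr_mul (w w' : X → U) : tr w * tr w' = tr (w + w') := by
  refine Big.ext ?_ ?_ ?_ ?_
  · simp [tr]
  · simp [tr]
  · funext ξ; simp [tr]
  · funext ξ; simp [tr, act, add_comm]

lemma tr_conj (w : X → U) (p : Big U) :
    tr w * p = p * tr (fun ξ => (p.χ ξ)⁻¹ • w (act p ξ)) := by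
  refine Big.ext ?_ ?_ ?_ ?_
  · simp [tr]
  · simp [tr]
  · funext ξ; simp [tr, act]
  · funext ξ
    have : ∀ w' : X → U, act (tr w') ξ = ξ := fun w' => by simp [tr, act]
    simp only [mul_a, this]
    simp [tr, add_comm, smul_smul]

lemma tr_mem_conj {S : Subgroup (Big U)} {w : X → U} {p : Big U} (hw : tr w ∈ S) (hp : p ∈ S) :
    tr (fun ξ => (p.χ ξ)⁻¹ • w (act p ξ)) ∈ S := by
  have : tr (fun ξ => (p.χ ξ)⁻¹ • w (act p ξ)) = p⁻¹ * (tr w * p) := by
    rw [tr_conj]; group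
  rw [this]
  exact S.mul_mem (S.inv_mem hp) (S.mul_mem hw hp)

def tt : Big U := ⟨1, 0, 1, 0⟩
def ff : Big U := ⟨0, Pi.single 0 1, 1, 0⟩
def ss : Big U := ⟨0, 0, fun ξ => if ξ 0 = 0 then 1 else -1, 0⟩

def pre (b : ZMod 2) (ξ : X) : X := sh 1 (Function.update ξ 0 b)

lemma tr_mem_pre {S : Subgroup (Big U)} (h3 : ∀ x : U, x + x + (x + x) = x)
    (ht : tt ∈ S) (hf : ff ∈ S) (hs : ss ∈ S) {w : X → U} (hw : tr w ∈ S) (b : ZMod 2) :
    tr (fun ξ => w (pre b ξ)) ∈ S := by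
  have hT : ∀ w : X → U, tr w ∈ S → tr (fun ξ => w (sh 1 ξ)) ∈ S := by
    intro w hw
    have := tr_mem_conj hw ht
    simpa [tt, act] using this
  have hF : ∀ w : X → U, tr w ∈ S → tr (fun ξ => w (ξ + Pi.single 0 1)) ∈ S := by
    intro w hw
    have := tr_mem_conj hw hf
    simpa [ff, act] using this
  have hS : ∀ w : X → U, tr w ∈ S → tr (fun ξ => if ξ 0 = 0 then w ξ else - w ξ) ∈ S := by
    intro w hw
    have := tr_mem_conj hw hs
    convert this using 3 with ξ
    by_cases h : ξ 0 = 0 <;> simp [ss, act, h]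
  have hA : ∀ w w' : X → U, tr w ∈ S → tr w' ∈ S → tr (w + w') ∈ S := by
    intro w w' h h'
    rw [← tr_mul]; exact S.mul_mem h h'
  have h01 : ∀ z : ZMod 2, z = 0 ∨ z = 1 := by decide
  have h0 : ∀ w : X → U, tr w ∈ S → tr (fun ξ => w (Function.update ξ 0 0)) ∈ S := by
    intro w hw
    have k1 := hA _ _ hw (hS w hw)
    have k2 := hA _ _ k1 (hF _ k1)
    have k3 := hA _ _ k2 k2
    convert k3 using 2
    funext ξ
    rcases h01 (ξ 0) with h | h
    · have e : Function.update ξ 0 0 = ξ := by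
        rw [← h]; simp
      simp [e, h, h3]
    · have e : Function.update ξ 0 0 = ξ + Pi.single 0 1 := by
        funext j
        by_cases hj : j = 0
        · subst hj; simp [h]; decide
        · simp [hj]
      have e2 : (1 : ZMod 2) + 1 = 0 := by decide
      simp [e, h, h3, e2]
  rcases h01 b with rfl | rfl
  · exact h0 _ (hT w hw)
  · have := h0 _ (hF _ (hT w hw))
    convert this using 3 with ξ
    unfold pre
    congr 2
    funext j
    by_cases hj : j = 0
    · subst hj; simp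
    · simp [hj]

section Grp

variable {G : Type u} [Group G]

inductive R (g : ℕ → G) : ℕ → (ℕ → ZMod 2) → G → Prop
  | base (k : ℕ) (ξ : ℕ → ZMod 2) : (∀ j, ξ j = 1) → R g k ξ 1
  | one (k : ℕ) (ξ : ℕ → ZMod 2) (h : G) :
      ξ 0 = 1 → R g (k + 1) (fun j => ξ (j + 1)) h → R g k ξ h
  | zero (k : ℕ) (ξ : ℕ → ZMod 2) (h : G) :
      ξ 0 = 0 → R g 0 (fun j => ξ (j + 1)) h → R g k ξ (g k * h)

lemma R_one (g : ℕ → G) (k : ℕ) (ξ : ℕ → ZMod 2) (h : G) (h0 : ξ 0 = 1) :
    R g k ξ h ↔ R g (k + 1) (fun j => ξ (j + 1)) h := by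
  refine ⟨fun H => ?_, fun H => R.one k ξ h h0 H⟩
  cases H with
  | base _ _ hb => exact R.base _ _ (fun j => hb _)
  | one _ _ _ _ H => exact H
  | zero _ _ _ h1 _ => rw [h0] at h1; exact absurd h1 (by decide)

lemma R_zero (g : ℕ → G) (k : ℕ) (ξ : ℕ → ZMod 2) (h : G) (h0 : ξ 0 = 0) :
    R g k ξ h ↔ R g 0 (fun j => ξ (j + 1)) ((g k)⁻¹ * h) := by
  refine ⟨fun H => ?_, fun H => ?_⟩
  · cases H with
    | base _ _ hb => rw [hb] at h0; exact absurd h0 (by decide)
    | one _ _ _ h1 _ => rw [h0] at h1; exact absurd h1 (by decide)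
    | zero _ _ _ h1 H => simpa using H
  · have := R.zero k ξ _ h0 H
    simpa using this

lemma R_ones (g : ℕ → G) (k : ℕ) (ξ : ℕ → ZMod 2) (h : G) (H : R g k ξ h) :
    (∀ j, ξ j = 1) → h = 1 := by
  induction H with
  | base _ _ _ => intro _; rfl
  | one _ _ _ _ _ ih => intro hb; exact ih (fun j => hb _)
  | zero _ _ _ h1 _ _ => intro hb; rw [hb] at h1; exact absurd h1 (by decide)

open Classical in
noncomputable def vv (g : ℕ → G) (k : ℕ) (ξ : X) : G → ZMod 3 :=
  fun h => if R g k (fun j : ℕ => ξ ((j : ℤ) + 1)) h then 1 else 0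

lemma pre_tail (b : ZMod 2) (ξ : X) :
    (fun j : ℕ => pre b ξ (((j + 1 : ℕ) : ℤ) + 1)) = fun j : ℕ => ξ ((j : ℤ) + 1) := by
  funext j
  have : ((j + 1 : ℕ) : ℤ) + 1 - 1 = (j : ℤ) + 1 := by push_cast; ring
  simp only [pre, sh, this]
  rw [Function.update_of_ne (by omega)]

lemma pre_head (b : ZMod 2) (ξ : X) : pre b ξ (((0 : ℕ) : ℤ) + 1) = b := by
  simp [pre, sh]

lemma vv_one (g : ℕ → G) (k : ℕ) (ξ : X) : vv g k (pre 1 ξ) = vv g (k + 1) ξ := by
  funext h
  unfold vv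
  rw [R_one g k _ h (pre_head 1 ξ), pre_tail]

lemma vv_zero (g : ℕ → G) (k : ℕ) (ξ : X) :
    vv g k (pre 0 ξ) = fun h => vv g 0 ξ ((g k)⁻¹ * h) := by
  funext h
  unfold vv
  rw [R_zero g k _ h (pre_head 0 ξ), pre_tail]

def rho (x : G) (p : Big (G → ZMod 3)) : Big (G → ZMod 3) :=
  ⟨p.n, p.c, p.χ, fun ξ h => p.a ξ (x⁻¹ * h)⟩

lemma rho_mul (x : G) (p q : Big (G → ZMod 3)) : rho x (p * q) = rho x p * rho x q := rfl

lemma rho_rho (x y : G) (p : Big (G → ZMod 3)) : rho x (rho y p) = rho (x * y) p := by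
  refine Big.ext rfl rfl rfl ?_
  funext ξ h
  simp [rho, mul_assoc]

lemma rho_one (p : Big (G → ZMod 3)) : rho 1 p = p := by
  refine Big.ext rfl rfl rfl ?_
  funext ξ h
  simp [rho]

def rhoHom (x : G) : Big (G → ZMod 3) →* Big (G → ZMod 3) :=
  MonoidHom.mk' (rho x) (rho_mul x)

theorem main (G : Type u) [Group G] [Countable G] :
    ∃ (S : Type u) (_ : Group S), Group.FG S ∧ derivedSeries S 4 = ⊥ ∧
      ∃ f : G →* MulAut S, Function.Injective f := by
  obtain ⟨g, hg⟩ := exists_surjective_nat G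
  let T : Set (Big (G → ZMod 3)) := {tr (vv g 0), tt, ff, ss}
  let S : Subgroup (Big (G → ZMod 3)) := Subgroup.closure T
  have hv : tr (vv g 0) ∈ S := Subgroup.subset_closure (by simp [T])
  have ht : tt ∈ S := Subgroup.subset_closure (by simp [T])
  have hf : ff ∈ S := Subgroup.subset_closure (by simp [T])
  have hs : ss ∈ S := Subgroup.subset_closure (by simp [T])
  have h3 : ∀ x : G → ZMod 3, x + x + (x + x) = x := by
    intro x; funext h
    have : ∀ z : ZMod 3, z + z + (z + z) = z := by decide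
    exact this _
  have hk : ∀ k, tr (vv g k) ∈ S := by
    intro k
    induction k with
    | zero => exact hv
    | succ k ih =>
      have := tr_mem_pre h3 ht hf hs ih 1
      simpa only [vv_one] using this
  have hx : ∀ x : G, rho x (tr (vv g 0)) ∈ S := by
    intro x
    obtain ⟨k, rfl⟩ := hg x
    have := tr_mem_pre h3 ht hf hs (hk k) 0
    simp only [vv_zero] at this
    exact this
  have hinv : ∀ x : G, ∀ p ∈ S, rho x p ∈ S := by
    intro x p hp
    have : S ≤ S.comap (rhoHom x) := by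
      rw [Subgroup.closure_le]
      intro y hy
      simp only [T, Set.mem_insert_iff, Set.mem_singleton_iff] at hy
      rcases hy with rfl | rfl | rfl | rfl
      · exact hx x
      · exact ht
      · exact hf
      · exact hs
    exact this hp
  let e : G → MulAut S := fun x =>
    { toFun := fun p => ⟨rho x p, hinv x p p.2⟩
      invFun := fun p => ⟨rho x⁻¹ p, hinv x⁻¹ p p.2⟩
      left_inv := fun p => Subtype.ext (by simp [rho_rho, rho_one])
      right_inv := fun p => Subtype.ext (by simp [rho_rho, rho_one])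
      map_mul' := fun p q => Subtype.ext (rho_mul x p q) }
  have he : ∀ x y, e (x * y) = e x * e y := by
    intro x y
    ext p : 2
    exact (rho_rho x y p).symm
  have hfin : Finite T := by
    have : T.Finite := by simp [T]
    exact this
  refine ⟨S, inferInstance, Group.closure_finite_fg T, ?_, MonoidHom.mk' e he, ?_⟩
  · have h1 := map_derivedSeries_le_derivedSeries S.subtype 4
    rw [derived_big, le_bot_iff, Subgroup.map_eq_bot_iff_of_injective _ S.subtype_injective] at h1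
    exact h1
  · rw [injective_iff_map_eq_one]
    intro x hx1
    have h1 : e x ⟨tr (vv g 0), hv⟩ = ⟨tr (vv g 0), hv⟩ := by
      have : e x = 1 := hx1
      rw [this]; rfl
    have h2 : rho x (tr (vv g 0)) = tr (vv g 0) := congrArg Subtype.val h1
    have h4 : vv g 0 (fun _ => 1) (x⁻¹ * x) = vv g 0 (fun _ => 1) x :=
      congrFun (congrFun (congrArg Big.a h2) (fun _ => 1)) x
    have h5 : R g 0 (fun _ : ℕ => (1 : ZMod 2)) 1 := R.base _ _ (fun _ => rfl)
    by_contra hne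
    have h6 : ¬ R g 0 (fun _ : ℕ => (1 : ZMod 2)) x := fun H => hne (R_ones g 0 _ x H (fun _ => rfl))
    rw [inv_mul_cancel] at h4
    unfold vv at h4
    rw [if_pos h5, if_neg h6] at h4
    exact absurd h4 (by decide)

end Grp

end Pool.Agent.H6.SolAut
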