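import Mathlib

namespace Pool.Agent.H6.Spec

open MeasureTheory Filter Topology Finset Complex

noncomputable def e (x : ℝ) : ℂ := exp (-2 * Real.pi * I * x)

theorem e_add (x y : ℝ) : e (x + y) = e x * e y := by
  simp only [e, ← exp_add]; congr 1; push_cast; ring

theorem e_zero : e 0 = 1 := by simp [e]

theorem e_eq (x : ℝ) : e x = exp (I * ((-2 * Real.pi * x : ℝ) : ℂ)) := by
  unfold e; congr 1; push_cast; ring

theorem e_norm (x : ℝ) : ‖e x‖ = 1 := by
  rw [e_eq, mul_comm, norm_exp_ofReal_mul_I]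

theorem e_conj (x : ℝ) : (starRingEnd ℂ) (e x) = e (-x) := by
  simp only [e, ← exp_conj]; congr 1; simp [map_ofNat]

theorem e_cont : Continuous e := by unfold e; fun_prop

theorem e_sub_one (x : ℝ) : ‖e x - 1‖ ≤ 7 * |x| := by
  rw [e_eq]
  refine Real.norm_exp_I_mul_ofReal_sub_one_le.trans ?_
  rw [Real.norm_eq_abs, abs_mul, abs_mul, abs_of_pos Real.pi_pos]
  have := Real.pi_lt_d2
  have h2 : |(-2:ℝ)| = 2 := by norm_num
  rw [h2]
  exact mul_le_mul_of_nonneg_right (by linarith) (abs_nonneg _)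

theorem e_eq_one {x : ℝ} : e x = 1 ↔ ∃ n : ℤ, x = n := by
  unfold e
  rw [exp_eq_one_iff]
  have hπ : (2 * Real.pi * I : ℂ) ≠ 0 := two_pi_I_ne_zero
  constructor
  · rintro ⟨n, hn⟩
    refine ⟨-n, ?_⟩
    have : (x : ℂ) = ((-n : ℤ) : ℂ) := by
      apply mul_left_cancel₀ hπ
      push_cast
      linear_combination -hn
    exact_mod_cast this
  · rintro ⟨n, rfl⟩
    exact ⟨-n, by push_cast; ring⟩

theorem e_int (n : ℤ) : e n = 1 := e_eq_one.2 ⟨n, rfl⟩

theorem e_nat_mul (n : ℕ) (x : ℝ) : e (n * x) = e x ^ n := by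
  induction n with
  | zero => simp [e_zero]
  | succ n ih => rw [Nat.cast_succ, add_mul, one_mul, e_add, ih, pow_succ]

theorem geo (N : ℕ) (y : ℝ) : (∑ d ∈ range N, e (d * y)) * (e y - 1) = e (N * y) - 1 := by
  simp only [e_nat_mul]
  exact geom_sum_mul _ _

theorem geo_zero {N : ℕ} (hN : 0 < N) {y : ℝ} :
    ∑ d ∈ range N, e (d * y) = 0 ↔ ∃ m : ℤ, N * y = m ∧ ¬ (N : ℤ) ∣ m := by
  have hN' : (N : ℝ) ≠ 0 := by positivity
  constructor
  · intro h
    have h1 := geo N y
    rw [h, zero_mul, eq_comm, sub_eq_zero, e_eq_one] at h1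
    obtain ⟨m, hm⟩ := h1
    refine ⟨m, hm, ?_⟩
    rintro ⟨k, rfl⟩
    have hy : y = k := by
      apply mul_left_cancel₀ hN'
      rw [hm]; push_cast; ring
    have : ∀ d : ℕ, e (d * y) = 1 := fun d => by rw [e_nat_mul, hy, e_int, one_pow]
    simp only [this, sum_const, card_range, nsmul_eq_mul, mul_one] at h
    exact hN.ne' (by exact_mod_cast h)
  · rintro ⟨m, hm, hm2⟩
    have h1 := geo N y
    rw [hm, e_int, sub_self, mul_eq_zero] at h1
    refine h1.resolve_right fun h2 => hm2 ?_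
    obtain ⟨k, hk⟩ := e_eq_one.1 (sub_eq_zero.1 h2)
    refine ⟨k, ?_⟩
    rw [hk] at hm
    exact_mod_cast hm.symm

theorem dft {N : ℕ} (hN : 0 < N) (g : ℕ → ℂ) (hg : ∀ d, ‖g d‖ ≤ 1) :
    ∃ a : ℕ → ℂ, (∀ c, ‖a c‖ ≤ 1) ∧
      ∀ d < N, g d = ∑ c ∈ range N, a c * e (c * ((d : ℝ) / N)) := by
  have hN' : (N : ℝ) ≠ 0 := by positivity
  have hN2 : (N : ℂ) ≠ 0 := by exact_mod_cast hN.ne'
  refine ⟨fun c => (N : ℂ)⁻¹ * ∑ j ∈ range N, g j * e (c * (-(j : ℝ) / N)), fun c => ?_,
    fun d hd => ?_⟩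
  · rw [norm_mul, norm_inv, norm_natCast]
    have : ‖∑ j ∈ range N, g j * e (c * (-(j : ℝ) / N))‖ ≤ N := by
      refine (norm_sum_le _ _).trans ?_
      refine (sum_le_sum (g := fun _ => (1:ℝ)) fun j _ => ?_).trans (by simp)
      rw [norm_mul, e_norm, mul_one]; exact hg j
    calc _ ≤ (N : ℝ)⁻¹ * N := by gcongr
      _ = 1 := inv_mul_cancel₀ hN'
  · have h1 : ∀ j ∈ range N, ∑ c ∈ range N, e (c * (((d : ℝ) - j) / N)) =
        if j = d then (N : ℂ) else 0 := by
      intro j hj
      split_ifs with h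
      · subst h; simp [e_zero]
      · rw [geo_zero hN]
        refine ⟨(d : ℤ) - j, by push_cast; field_simp, fun hdiv => h ?_⟩
        have := mem_range.1 hj
        have := Int.eq_zero_of_abs_lt_dvd hdiv (by rw [abs_lt]; constructor <;> omega)
        omega
    calc g d = (N : ℂ)⁻¹ * ∑ j ∈ range N, g j * (if j = d then (N : ℂ) else 0) := by
          simp only [mul_ite, mul_zero, sum_ite_eq', mem_range, hd, if_true]
          field_simp
      _ = (N : ℂ)⁻¹ * ∑ j ∈ range N, g j * ∑ c ∈ range N, e (c * (((d : ℝ) - j) / N)) := by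
          congr 1
          exact sum_congr rfl fun j hj => by rw [h1 j hj]
      _ = _ := by
          simp only [mul_sum, sum_mul]
          rw [sum_comm]
          refine sum_congr rfl fun c _ => sum_congr rfl fun j _ => ?_
          rw [mul_assoc, mul_assoc, ← e_add]
          congr 3
          ring

theorem zero_of_fourier (μ : Measure ℝ) [IsFiniteMeasure μ] {f : ℝ → ℂ} (hf : Integrable f μ)
    (h : ∀ ξ : ℝ, ∫ x, e (ξ * x) * f x ∂μ = 0) : ∀ᵐ x ∂μ, f x = 0 := by
  refine ae_eq_zero_of_integral_contDiff_smul_eq_zero hf.locallyIntegrable fun g hg hg2 => ?_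
  have hG2 : HasCompactSupport (fun x => (g x : ℂ)) := hg2.comp_left (g := fun r : ℝ => (r : ℂ)) (by simp)
  have hG : ContDiff ℝ (⊤ : ℕ∞) (fun x => (g x : ℂ)) := ofRealCLM.contDiff.comp hg
  let G := hG2.toSchwartzMap hG
  have hi : Integrable (FourierTransform.fourier (fun x => (g x : ℂ))) := by
    have := (FourierTransform.fourier G).integrable (μ := volume)
    rwa [SchwartzMap.fourier_coe] at this
  have hinv := hG.continuous.fourierInv_fourier_eq G.integrable hi
  set H := FourierTransform.fourier (fun x => (g x : ℂ))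
  have h1 : ∀ x, g x • f x = ∫ ξ, H ξ * (e (-ξ * x) * f x) := by
    intro x
    have := congrFun hinv x
    rw [Real.fourierInv_eq'] at this
    rw [real_smul, ← this, ← integral_mul_const]
    congr 1
    funext ξ
    rw [smul_eq_mul, mul_comm _ (H ξ), mul_assoc]
    congr 2
    unfold e
    congr 1
    simp only [Real.inner_apply]
    push_cast
    ring
  simp only [h1]
  rw [integral_integral_swap]
  · simp only [integral_const_mul, h, mul_zero, integral_zero]
  · have h2 := (hf.mul_prod hi).bdd_mul (c := 1) (f := fun z : ℝ × ℝ => e (-z.2 * z.1))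
      (e_cont.comp (by fun_prop)).aestronglyMeasurable
      (Eventually.of_forall fun z => (e_norm _).le)
    refine h2.congr (Eventually.of_forall fun z => ?_)
    simp only [Function.uncurry]
    ring

end Pool.Agent.H6.Spec
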