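import Mathlib
import Pool.Agent.H6.Spec1

namespace Pool.Agent.H6.Spec

open MeasureTheory Filter Topology Finset Complex

abbrev Om : Type := (k : ℕ) → ZMod (k + 2)

def A : ℕ → ℕ
  | 0 => 1
  | k + 1 => ((k + 2) * A k) ^ 3

theorem A_pos (k : ℕ) : 0 < A k := by
  induction k with
  | zero => simp [A]
  | succ k ih => simp only [A]; positivity

theorem two_le (k : ℕ) : 2 ≤ (k + 2) * A k := by have := A_pos k; nlinarith

theorem A_succ_ge (k : ℕ) : 4 * ((k + 2) * A k) ≤ A (k + 1) := by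
  have := two_le k
  simp only [A]
  generalize (k + 2) * A k = b at this
  nlinarith [Nat.mul_le_mul this this]

theorem A_add (n k : ℕ) : 2 ^ k * A n ≤ A (k + n) := by
  induction k with
  | zero => simp
  | succ k ih =>
    have := A_succ_ge (k + n)
    rw [show k + 1 + n = k + n + 1 by ring, pow_succ]
    nlinarith

theorem B_dvd {j k : ℕ} (h : j < k) : (j + 2) * A j ∣ A k := by
  induction k, h using Nat.le_induction with
  | base => exact Dvd.intro_left (((j + 2) * A j) ^ 2) (by simp only [A]; ring)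
  | succ k _ ih => exact ih.trans (Dvd.intro_left (((k + 2) * A k) ^ 2 * (k + 2)) (by
      simp only [A]; ring))

noncomputable def tm (k : ℕ) (ω : Om) : ℝ := ((ω k).val : ℝ) / (((k + 2) * A k : ℕ) : ℝ)

theorem tm_nonneg (k : ℕ) (ω : Om) : 0 ≤ tm k ω := by unfold tm; positivity

theorem tm_le (n k : ℕ) (ω : Om) : tm (k + n) ω ≤ (A n : ℝ)⁻¹ * (1 / 2) ^ k := by
  have h1 : (((ω (k + n)).val : ℕ) : ℝ) ≤ ((k + n + 2 : ℕ) : ℝ) := by
    exact_mod_cast (ZMod.val_lt (ω (k + n))).le
  have h2 : (2:ℝ) ^ k * A n ≤ A (k + n) := by exact_mod_cast A_add n k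
  have h3 : (0:ℝ) < A n := by exact_mod_cast A_pos n
  have h4 : (0:ℝ) < A (k + n) := by exact_mod_cast A_pos (k + n)
  unfold tm
  rw [Nat.cast_mul]
  calc _ ≤ ((k + n + 2 : ℕ) : ℝ) / (((k + n + 2 : ℕ) : ℝ) * A (k + n)) := by gcongr
    _ = 1 / A (k + n) := by field_simp
    _ ≤ 1 / (2 ^ k * A n) := by gcongr
    _ = _ := by field_simp; rw [← mul_pow]; simp

theorem tm_cont (k : ℕ) : Continuous (tm k) :=
  (continuous_of_discreteTopology (f := fun z : ZMod (k + 2) =>
    (z.val : ℝ) / (((k + 2) * A k : ℕ) : ℝ))).comp (continuous_apply k)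

noncomputable def T (n : ℕ) (ω : Om) : ℝ := ∑' k, tm (k + n) ω

theorem sg (n : ℕ) : Summable fun k : ℕ => (A n : ℝ)⁻¹ * (1 / 2) ^ k :=
  summable_geometric_two.mul_left _

theorem tm_summ (n : ℕ) (ω : Om) : Summable fun k => tm (k + n) ω :=
  Summable.of_nonneg_of_le (fun _ => tm_nonneg _ _) (fun k => tm_le n k ω) (sg n)

theorem T_cont (n : ℕ) : Continuous (T n) :=
  continuous_tsum (fun _ => tm_cont _) (sg n) fun k ω => by
    rw [Real.norm_eq_abs, abs_of_nonneg (tm_nonneg _ _)]; exact tm_le n k ω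

theorem T_nonneg (n : ℕ) (ω : Om) : 0 ≤ T n ω := tsum_nonneg fun _ => tm_nonneg _ _

theorem T_le (n : ℕ) (ω : Om) : T n ω ≤ 2 / A n := by
  refine ((tm_summ n ω).tsum_le_tsum (fun k => tm_le n k ω) (sg n)).trans_eq ?_
  rw [tsum_mul_left, tsum_geometric_two]; ring

theorem T_succ (n : ℕ) (ω : Om) : T n ω = tm n ω + T (n + 1) ω := by
  unfold T
  rw [(tm_summ n ω).tsum_eq_zero_add, zero_add]
  congr 2
  funext k
  congr 1; ring

noncomputable def X (n : ℕ) (ω : Om) : ℝ := ∑ k ∈ range n, tm k ω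

theorem X_cont (n : ℕ) : Continuous (X n) := continuous_finsetSum _ fun k _ => tm_cont k

theorem T_zero (n : ℕ) (ω : Om) : T 0 ω = X n ω + T n ω := by
  induction n with
  | zero => simp [X]
  | succ n ih => rw [ih, T_succ n, X, X, sum_range_succ]; ring

theorem T_shift {n k : ℕ} (h : k < n) (s : ZMod (k + 2)) (ω : Om) :
    T n (Pi.single k s + ω) = T n ω := by
  unfold T
  congr 1
  funext j
  have : j + n ≠ k := by omega
  simp [tm, Pi.single_eq_of_ne this]

theorem X_shift {n k : ℕ} (h : n ≤ k) (s : ZMod (k + 2)) (ω : Om) :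
    X n (Pi.single k s + ω) = X n ω := by
  refine sum_congr rfl fun j hj => ?_
  have : j ≠ k := by have := mem_range.1 hj; omega
  simp [tm, Pi.single_eq_of_ne this]

noncomputable def P : Measure Om := Measure.addHaarMeasure ⊤

instance : P.IsAddLeftInvariant := by unfold P; infer_instance

instance : IsProbabilityMeasure P := ⟨by
  have := Measure.addHaarMeasure_self (G := Om) (K₀ := ⊤)
  simpa [P] using this⟩

theorem intg {g : Om → ℂ} (hg : Continuous g) : Integrable g P :=
  hg.integrable_of_hasCompactSupport (HasCompactSupport.of_compactSpace g)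

theorem cmul (η : ℝ) {g : Om → ℝ} (hg : Continuous g) : Continuous fun ω => η * g ω :=
  continuous_const.mul hg

theorem cE {g : Om → ℝ} (hg : Continuous g) : Continuous fun ω => e (g ω) := e_cont.comp hg

theorem sum_shift (n : ℕ) (a : ZMod (n + 2)) (g : ℕ → ℂ) :
    ∑ s : ZMod (n + 2), g (s + a).val = ∑ d ∈ range (n + 2), g d := by
  rw [← Fin.sum_univ_eq_sum_range g (n + 2)]
  exact Equiv.sum_comp (Equiv.addRight a) (fun s : ZMod (n + 2) => g s.val)

noncomputable def II (n : ℕ) (η : ℝ) : ℂ := ∫ ω, e (η * T n ω) ∂P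

noncomputable def mm (n : ℕ) (η : ℝ) : ℂ :=
  ∑ d ∈ range (n + 2), e (d * (η / (((n + 2) * A n : ℕ) : ℝ)))

theorem II_succ (n : ℕ) (η : ℝ) : ((n + 2 : ℕ) : ℂ) * II n η = mm n η * II (n + 1) η := by
  have h1 : ∀ g : Om, II n η = ∫ ω, e (η * T n (g + ω)) ∂P := fun g =>
    (integral_add_left_eq_self (fun ω => e (η * T n ω)) g).symm
  have h2 : ∀ g : Om, Integrable (fun ω => e (η * T n (g + ω))) P := fun g =>
    (intg (cE (cmul η (T_cont n)))).comp_add_left g
  have h3 : ∀ ω : Om, ∑ s : ZMod (n + 2), e (η * T n (Pi.single n s + ω)) =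
      mm n η * e (η * T (n + 1) ω) := by
    intro ω
    rw [mm, ← sum_shift n (ω n), sum_mul]
    refine sum_congr rfl fun s _ => ?_
    rw [T_succ n, T_shift (Nat.lt_succ_self n), mul_add, e_add]
    have : η * tm n (Pi.single n s + ω) =
        ((s + ω n).val : ℝ) * (η / (((n + 2) * A n : ℕ) : ℝ)) := by
      simp only [tm, Pi.add_apply, Pi.single_eq_same]
      ring
    rw [this]
  have h4 : ((n + 2 : ℕ) : ℂ) * II n η = ∑ s : ZMod (n + 2), II n η := by
    rw [sum_const, card_univ, ZMod.card, nsmul_eq_mul]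
  rw [h4, sum_congr rfl fun s _ => h1 (Pi.single n s),
    ← integral_finsetSum _ fun s _ => h2 (Pi.single n s)]
  simp only [h3]
  exact integral_const_mul _ _

theorem II_zero_of {η : ℝ} {j : ℕ} (h : mm j η = 0) : II 0 η = 0 := by
  have h1 : II j η = 0 := by
    have := II_succ j η
    rw [h, zero_mul, mul_eq_zero] at this
    exact this.resolve_left (Nat.cast_ne_zero.2 (by omega))
  clear h
  induction j with
  | zero => exact h1
  | succ j ih =>
    apply ih
    have := II_succ j η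
    rw [h1, mul_zero, mul_eq_zero] at this
    exact this.resolve_left (Nat.cast_ne_zero.2 (by omega))

theorem A_ge (n : ℕ) : n < A n := by
  have := A_add 0 n
  have h2 := Nat.lt_two_pow_self (n := n)
  simp only [A, mul_one, add_zero] at this
  omega

theorem exists_mm {η : ℝ} (h : II 0 η = 0) : ∃ j, mm j η = 0 := by
  by_contra hn
  push Not at hn
  have h1 : ∀ n, II n η = 0 := by
    intro n
    induction n with
    | zero => exact h
    | succ n ih =>
      have := II_succ n η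
      rw [ih, mul_zero, eq_comm, mul_eq_zero] at this
      exact this.resolve_left (hn n)
  obtain ⟨n, hn⟩ := exists_nat_gt (14 * |η|)
  have hA : (n : ℝ) < A n := by exact_mod_cast A_ge n
  have hA0 : (0 : ℝ) < A n := by exact_mod_cast A_pos n
  have h2 : ‖∫ ω, (e (η * T n ω) - 1) ∂P‖ ≤ 7 * (|η| * (2 / A n)) * P.real Set.univ := by
    refine norm_integral_le_of_norm_le_const (Eventually.of_forall fun ω => ?_)
    refine (e_sub_one _).trans ?_
    rw [abs_mul, abs_of_nonneg (T_nonneg _ _)]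
    have := T_le n ω
    gcongr
  rw [integral_sub (intg (cE (cmul η (T_cont n)))) (integrable_const _)] at h2
  have h3 : ∫ ω, e (η * T n ω) ∂P = 0 := h1 n
  rw [h3] at h2
  simp only [integral_const, probReal_univ, one_smul, zero_sub, norm_neg, norm_one, mul_one] at h2
  have : 7 * (|η| * (2 / A n)) = 14 * |η| / A n := by ring
  rw [this, le_div_iff₀ hA0] at h2
  linarith

theorem II_zero_iff {η : ℝ} :
    II 0 η = 0 ↔ ∃ (j : ℕ) (m : ℤ), η = m * A j ∧ ¬ ((j + 2 : ℕ) : ℤ) ∣ m := by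
  have key : ∀ j, mm j η = 0 ↔ ∃ m : ℤ, η = m * A j ∧ ¬ ((j + 2 : ℕ) : ℤ) ∣ m := by
    intro j
    have hA0 : (0 : ℝ) < A j := by exact_mod_cast A_pos j
    rw [mm, geo_zero (by omega)]
    refine exists_congr fun m => and_congr_left fun _ => ?_
    rw [Nat.cast_mul, ← mul_div_assoc, mul_div_mul_left _ _ (by positivity), div_eq_iff hA0.ne']
  constructor
  · intro h
    obtain ⟨j, hj⟩ := exists_mm h
    exact ⟨j, (key j).1 hj⟩
  · rintro ⟨j, hj⟩
    exact II_zero_of ((key j).2 hj)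

def Lam : ℕ → Set ℕ
  | 0 => {0}
  | m + 1 => {x | ∃ l ∈ Lam m, ∃ c < m + 2, x = l + c * A m}

theorem Lam_mono {m n : ℕ} (h : m ≤ n) : Lam m ⊆ Lam n := by
  induction n, h using Nat.le_induction with
  | base => exact subset_rfl
  | succ n _ ih => exact fun x hx => ⟨x, ih hx, 0, by omega, by simp⟩

theorem Lam_le {m x : ℕ} (h : x ∈ Lam (m + 1)) : x ≤ 2 * ((m + 2) * A m) := by
  induction m generalizing x with
  | zero =>
    obtain ⟨l, hl, c, hc, rfl⟩ := h
    have : l = 0 := hl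
    have : c < 2 := hc
    simp only [A]; omega
  | succ m ih =>
    obtain ⟨l, hl, c, hc, rfl⟩ := h
    have h1 := ih hl
    have h2 := A_succ_ge m
    nlinarith

theorem Lam_diff {m x y : ℕ} (hx : x ∈ Lam m) (hy : y ∈ Lam m) (h : x ≠ y) :
    ∃ j < m, ∃ r : ℤ, (x : ℤ) - y = r * A j ∧ ¬ ((j + 2 : ℕ) : ℤ) ∣ r := by
  induction m generalizing x y with
  | zero => exact absurd ((show x = 0 from hx).trans (show y = 0 from hy).symm) h
  | succ m ih =>
    obtain ⟨l, hl, c, hc, rfl⟩ := hx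
    obtain ⟨l', hl', c', hc', rfl⟩ := hy
    by_cases hll : l = l'
    · subst hll
      refine ⟨m, Nat.lt_succ_self m, (c : ℤ) - c', by push_cast; ring, fun hd => h ?_⟩
      have := Int.eq_zero_of_abs_lt_dvd hd (by rw [abs_lt]; constructor <;> omega)
      rw [show c = c' by omega]
    · obtain ⟨j, hj, r, hr, hr2⟩ := ih hl hl' hll
      obtain ⟨u, hu⟩ := B_dvd hj
      refine ⟨j, by omega, r + ((j + 2 : ℕ) : ℤ) * (u * ((c : ℤ) - c')), ?_, ?_⟩
      · rw [hu]; push_cast; linear_combination hr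
      · rwa [dvd_add_left (Dvd.intro _ rfl)]

theorem e_AX (m c : ℕ) (ω : Om) : e (((c * A m : ℕ) : ℝ) * X m ω) = 1 := by
  rw [X, mul_sum]
  refine sum_induction _ (fun x => e x = 1) (fun a b ha hb => by rw [e_add, ha, hb, one_mul])
    e_zero fun j hj => ?_
  obtain ⟨u, hu⟩ := B_dvd (mem_range.1 hj)
  have hA0 : (0 : ℝ) < A j := by exact_mod_cast A_pos j
  refine e_eq_one.2 ⟨(c * u * (ω j).val : ℕ), ?_⟩
  rw [hu, tm]
  push_cast
  field_simp

theorem approx (m : ℕ) : ∀ (G : Om → ℂ), Integrable G P → ∀ (ξ ε : ℝ),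
    (∀ l ∈ Lam m, ‖∫ ω, e (l * X m ω) * G ω ∂P‖ ≤ ε) →
    ‖∫ ω, e (ξ * X m ω) * G ω ∂P‖ ≤ (m + 1).factorial * ε := by
  induction m with
  | zero =>
    intro G _ ξ ε h
    simpa [X] using h 0 rfl
  | succ m ih =>
    intro G hG ξ ε h
    have hb : ∀ {g : Om → ℝ}, Continuous g → Integrable (fun ω => e (g ω) * G ω) P := fun hg =>
      hG.bdd_mul (c := 1) (e_cont.comp hg).aestronglyMeasurable
        (Eventually.of_forall fun z => (e_norm _).le)
    have h1 := ih (fun ω => e (ξ * tm m ω) * G ω) (hb (cmul _ (tm_cont m))) ξ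
      ((m + 2 : ℕ) * ε) fun l hl => by
        obtain ⟨a, ha, ha2⟩ := dft (N := m + 2) (by omega)
          (fun d => e ((ξ - l) * ((d : ℝ) / (((m + 2) * A m : ℕ) : ℝ)))) (fun d => (e_norm _).le)
        have h2 : ∀ ω, e (l * X m ω) * (e (ξ * tm m ω) * G ω) =
            ∑ c ∈ range (m + 2), a c * (e (((l + c * A m : ℕ) : ℝ) * X (m + 1) ω) * G ω) := by
          intro ω
          have h3 := ha2 (ω m).val (ZMod.val_lt _)
          have hA0 : (0 : ℝ) < A m := by exact_mod_cast A_pos m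
          have h4 : e (ξ * tm m ω) = e (l * tm m ω) * e ((ξ - l) * tm m ω) := by
            rw [← e_add]; congr 1; ring
          rw [h4, tm, h3, mul_sum, sum_mul, mul_sum]
          refine sum_congr rfl fun c _ => ?_
          have h5 : ((l + c * A m : ℕ) : ℝ) * X (m + 1) ω = ((c * A m : ℕ) : ℝ) * X m ω +
              (l * X m ω + (l * tm m ω + c * (((ω m).val : ℝ) / ((m + 2 : ℕ) : ℝ)))) := by
            rw [X, sum_range_succ, ← X, tm]
            push_cast
            field_simp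
            ring
          rw [h5, e_add, e_AX, e_add, e_add, tm]
          ring
        simp only [h2]
        rw [integral_finsetSum _ fun c _ =>
          (hb (cmul _ (X_cont (m + 1)))).const_mul _]
        refine (norm_sum_le _ _).trans ((sum_le_sum (g := fun _ => ε) fun c hc => ?_).trans
          (by simp))
        rw [integral_const_mul, norm_mul]
        have := h _ ⟨l, hl, c, mem_range.1 hc, rfl⟩
        calc _ ≤ 1 * ε := mul_le_mul (ha c) this (norm_nonneg _) zero_le_one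
          _ = ε := one_mul ε
    have h6 : ∀ ω, e (ξ * X (m + 1) ω) * G ω = e (ξ * X m ω) * (e (ξ * tm m ω) * G ω) := by
      intro ω
      rw [X, sum_range_succ, ← X, mul_add, e_add, mul_assoc]
    simp only [h6]
    refine h1.trans_eq ?_
    rw [Nat.factorial_succ (m + 1)]
    push_cast
    ring

theorem fac_le (m : ℕ) : (m + 2).factorial ≤ (m + 2) * A m := by
  induction m with
  | zero => simp [A]
  | succ m ih =>
    rw [Nat.factorial_succ (m + 2)]
    have := A_succ_ge m
    exact Nat.mul_le_mul le_rfl (by omega)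

theorem complete {G : Om → ℂ} (hG : Integrable G P)
    (h : ∀ m, ∀ l ∈ Lam m, ∫ ω, e (l * T 0 ω) * G ω ∂P = 0) (ξ : ℝ) :
    ∫ ω, e (ξ * T 0 ω) * G ω ∂P = 0 := by
  have hb : ∀ {g : Om → ℝ}, Continuous g → Integrable (fun ω => e (g ω) * G ω) P := fun hg =>
    hG.bdd_mul (c := 1) (e_cont.comp hg).aestronglyMeasurable
      (Eventually.of_forall fun z => (e_norm _).le)
  set C := ∫ ω, ‖G ω‖ ∂P
  have hC : 0 ≤ C := integral_nonneg fun _ => norm_nonneg _
  have h1 : ∀ (n : ℕ) (η : ℝ), ‖∫ ω, e (η * T 0 ω) * G ω ∂P - ∫ ω, e (η * X n ω) * G ω ∂P‖ ≤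
      7 * (|η| * (2 / A n)) * C := by
    intro n η
    rw [← integral_sub (hb (cmul _ (T_cont 0))) (hb (cmul _ (X_cont n))),
      ← integral_const_mul]
    refine norm_integral_le_of_norm_le (hG.norm.const_mul _) (Eventually.of_forall fun ω => ?_)
    rw [T_zero n, mul_add, e_add, ← sub_mul, ← mul_sub_one, norm_mul, norm_mul, e_norm, one_mul]
    refine mul_le_mul_of_nonneg_right ((e_sub_one _).trans ?_) (norm_nonneg _)
    rw [abs_mul, abs_of_nonneg (T_nonneg _ _)]
    have := T_le n ω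
    gcongr
  have h2 : ∀ m : ℕ, ‖∫ ω, e (ξ * T 0 ω) * G ω ∂P‖ ≤ (14 * |ξ| + 28) * C * (1 / ((m : ℝ) + 1)) := by
    intro m
    set b : ℝ := (((m + 2) * A m : ℕ) : ℝ) with hb'
    have hb1 : (m : ℝ) + 1 ≤ b := by
      have := A_pos m
      rw [hb']
      exact_mod_cast (by nlinarith : m + 1 ≤ (m + 2) * A m)
    have hb2 : 1 ≤ b := by have : (0:ℝ) ≤ m := Nat.cast_nonneg m; linarith
    have hA : (A (m + 1) : ℝ) = b ^ 3 := by rw [hb']; simp only [A]; push_cast; ring
    have h3 := approx (m + 1) G hG ξ (7 * (2 * b * (2 / b ^ 3)) * C) fun l hl => by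
      have h4 := h1 (m + 1) l
      rw [h _ l hl, zero_sub, norm_neg, hA, Nat.abs_cast] at h4
      have h5 : (l : ℝ) ≤ 2 * b := by rw [hb']; exact_mod_cast Lam_le hl
      refine h4.trans ?_
      gcongr
    have h4 := h1 (m + 1) ξ
    rw [hA] at h4
    have h5 : ((m + 1 + 1).factorial : ℝ) ≤ b := by rw [hb']; exact_mod_cast fac_le m
    have h6 := norm_le_norm_add_norm_sub' (∫ ω, e (ξ * T 0 ω) * G ω ∂P)
      (∫ ω, e (ξ * X (m + 1) ω) * G ω ∂P)
    have h7 : 2 / b ^ 3 ≤ 2 / b := by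
      gcongr
      exact le_self_pow₀ hb2 (by norm_num)
    calc _ ≤ b * (7 * (2 * b * (2 / b ^ 3)) * C) + 7 * (|ξ| * (2 / b)) * C := by
          refine h6.trans (add_le_add (h3.trans ?_) (h4.trans ?_)) <;> gcongr
      _ = (14 * |ξ| + 28) * C * (1 / b) := by field_simp; ring
      _ ≤ _ := by gcongr
  have h3 := tendsto_one_div_add_atTop_nhds_zero_nat.const_mul ((14 * |ξ| + 28) * C)
  rw [mul_zero] at h3
  exact norm_le_zero_iff.1 (ge_of_tendsto' h3 h2)

end Pool.Agent.H6.Spec
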