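import Mathlib

set_option autoImplicit false

namespace Pool.Agent.H6.SqCount

open Classical
open scoped commutatorElement

variable {G : Type} [Group G]

/-- data for the twisted Frobenius-Schur sums -/
structure Good (H Z : Subgroup G) (g : G) (ψ : G → ℂ) : Prop where
  le : Z ≤ H
  gH : ∀ h ∈ H, g⁻¹ * h * g ∈ H
  gZ : ∀ z ∈ Z, g⁻¹ * z * g ∈ Z
  hZ : ∀ h ∈ H, ∀ z ∈ Z, h⁻¹ * z * h ∈ Z
  off : ∀ y, y ∉ Z → ψ y = 0
  one : ψ 1 = 1
  mul : ∀ a ∈ Z, ∀ b ∈ Z, ψ (a * b) = ψ a * ψ b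
  inv : ∀ h ∈ H, ∀ z ∈ Z, ψ (h⁻¹ * z * h) = ψ z

noncomputable def F (H : Subgroup G) (g : G) (ψ : G → ℂ) (x : G) : ℂ :=
  if g⁻¹ * x ∈ H then ψ (x * x) else 0

theorem F_pos {H : Subgroup G} {g : G} (ψ : G → ℂ) {x : G} (h : g⁻¹ * x ∈ H) :
    F H g ψ x = ψ (x * x) := if_pos h

theorem F_neg {H : Subgroup G} {g : G} (ψ : G → ℂ) {x : G} (h : g⁻¹ * x ∉ H) :
    F H g ψ x = 0 := if_neg h

noncomputable def S [Fintype G] (H : Subgroup G) (g : G) (ψ : G → ℂ) : ℂ :=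
  ∑ x : G, F H g ψ x

theorem conj_back [Finite G] (H : Subgroup G) (g : G) (hg : ∀ h ∈ H, g⁻¹ * h * g ∈ H) :
    ∀ h ∈ H, g * h * g⁻¹ ∈ H := by
  have key : ∀ n : ℕ, ∀ h ∈ H, (g ^ n)⁻¹ * h * g ^ n ∈ H := by
    intro n
    induction n with
    | zero => intro h hh; simpa using hh
    | succ n ih =>
      intro h hh
      have := hg _ (ih h hh)
      convert this using 1
      group
  intro h hh
  have hpos : 0 < orderOf g := orderOf_pos g
  have e : g ^ (orderOf g - 1) = g⁻¹ := by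
    rw [eq_inv_iff_mul_eq_one, ← pow_succ, Nat.sub_add_cancel hpos, pow_orderOf_eq_one]
  have := key (orderOf g - 1) h hh
  rwa [e, inv_inv] at this

theorem Good.mulr {H Z : Subgroup G} {g : G} {ψ : G → ℂ} (hG : Good H Z g ψ) (y u : G)
    (hu : u ∈ Z) : ψ (y * u) = ψ y * ψ u := by
  by_cases hy : y ∈ Z
  · exact hG.mul y hy u hu
  · have : y * u ∉ Z := fun h => hy (by simpa using Z.mul_mem h (Z.inv_mem hu))
    rw [hG.off _ hy, hG.off _ this, zero_mul]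

theorem Good.inv_mul {H Z : Subgroup G} {g : G} {ψ : G → ℂ} (hG : Good H Z g ψ) (u : G)
    (hu : u ∈ Z) : ψ u⁻¹ * ψ u = 1 := by
  rw [← hG.mulr _ _ hu, inv_mul_cancel, hG.one]

theorem Good.vanish [Fintype G] {H Z : Subgroup G} {g : G} {ψ : G → ℂ} (hG : Good H Z g ψ) (z : G)
    (hz : z ∈ Z) (hne : ψ (g⁻¹ * z * g) * ψ z ≠ 1) : S H g ψ = 0 := by
  have h1 : S H g ψ = S H g ψ * (ψ (g⁻¹ * z * g) * ψ z) := by
    conv_lhs => unfold S; rw [← Equiv.sum_comp (Equiv.mulRight z)]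
    unfold S
    rw [Finset.sum_mul]
    refine Finset.sum_congr rfl fun x _ => ?_
    simp only [Equiv.coe_mulRight]
    by_cases hx : g⁻¹ * x ∈ H
    · have hx' : g⁻¹ * (x * z) ∈ H := by
        rw [← mul_assoc]; exact H.mul_mem hx (hG.le hz)
      rw [F_pos ψ hx, F_pos ψ hx']
      have e : x * z * (x * z) = x * x * ((g⁻¹ * x)⁻¹ * (g⁻¹ * z * g) * (g⁻¹ * x)) * z := by group
      rw [e, hG.mulr _ _ hz, hG.mulr _ _ (hG.hZ _ hx _ (hG.gZ _ hz)), hG.inv _ hx _ (hG.gZ _ hz)]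
      ring
    · have hx' : g⁻¹ * (x * z) ∉ H := by
        intro h
        apply hx
        have := H.mul_mem h (H.inv_mem (hG.le hz))
        simpa [mul_assoc] using this
      rw [F_neg ψ hx, F_neg ψ hx', zero_mul]
  have h2 : S H g ψ * (1 - ψ (g⁻¹ * z * g) * ψ z) = 0 := by linear_combination h1
  rcases mul_eq_zero.1 h2 with h | h
  · exact h
  · exact absurd (by linear_combination -h) hne

theorem Good.base [Fintype G] {H Z : Subgroup G} {g : G} {ψ : G → ℂ} (hG : Good H Z g ψ)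
    (hle : H ≤ Z) (hall : ∀ z ∈ Z, ψ (g⁻¹ * z * g) * ψ z = 1) :
    ∃ k : ℤ, S H g ψ = (Nat.card Z : ℂ) * k := by
  have hHZ : H = Z := le_antisymm hle hG.le
  have h1 : S H g ψ = (Nat.card Z : ℂ) * ψ (g * g) := by
    unfold S
    rw [← Equiv.sum_comp (Equiv.mulLeft g)]
    simp only [Equiv.coe_mulLeft]
    have : ∀ x : G, F H g ψ (g * x) =
        if x ∈ Z then ψ (g * g) else 0 := by
      intro x
      by_cases hx : x ∈ Z
      · rw [F_pos ψ (by simpa using hG.le hx), if_pos hx]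
        have e : g * x * (g * x) = g * g * (g⁻¹ * x * g) * x := by group
        rw [e, hG.mulr _ _ hx, hG.mulr _ _ (hG.gZ _ hx), mul_assoc, hall x hx, mul_one]
      · rw [F_neg ψ (by simpa using fun h => hx (hle h)), if_neg hx]
    simp only [this]
    rw [← Finset.sum_filter, Finset.sum_const, nsmul_eq_mul]
    congr 2
    rw [Nat.card_eq_fintype_card, Fintype.card_subtype]
  by_cases hg : g * g ∈ Z
  · have h2 := hall _ hg
    have e : g⁻¹ * (g * g) * g = g * g := by group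
    rw [e] at h2
    rcases mul_self_eq_one_iff.1 h2 with h | h
    · exact ⟨1, by rw [h1, h]; simp⟩
    · exact ⟨-1, by rw [h1, h]; simp⟩
  · exact ⟨0, by rw [h1, hG.off _ hg]; simp⟩

theorem exists_w [Finite G] (hG : IsPGroup 2 G) (H Z : Subgroup G) (hn : ¬ H ≤ Z) :
    ∃ w ∈ H, w ∉ Z ∧ w * w ∈ Z ∧
      ∀ y : G, (∀ h ∈ H, y⁻¹ * h * y ∈ H) → w⁻¹ * (y⁻¹ * w * y) ∈ Z := by
  have : Fact (Nat.Prime 2) := ⟨Nat.prime_two⟩
  have := hG.isNilpotent
  obtain ⟨n, hn'⟩ := Group.IsNilpotent.nilpotent G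
  have hex : ∃ i : ℕ, ∃ w ∈ H, w ∉ Z ∧ w ∈ Subgroup.upperCentralSeries G i := by
    obtain ⟨w, hw, hwZ⟩ := SetLike.not_le_iff_exists.1 hn
    exact ⟨n, w, hw, hwZ, by rw [hn']; trivial⟩
  obtain ⟨w0, hw0, hw0Z, hw0i⟩ := Nat.find_spec hex
  obtain ⟨k, hk⟩ := hG w0
  have hex2 : ∃ j : ℕ, w0 ^ (2 ^ j) ∈ Z := ⟨k, by rw [hk]; exact Z.one_mem⟩
  have hj0 : Nat.find hex2 ≠ 0 := by
    intro h
    have := Nat.find_spec hex2
    rw [h] at this
    exact hw0Z (by simpa using this)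
  obtain ⟨j, hj⟩ := Nat.exists_eq_succ_of_ne_zero hj0
  have hjn : w0 ^ (2 ^ j) ∉ Z := Nat.find_min hex2 (by omega)
  have hjs : w0 ^ (2 ^ (j + 1)) ∈ Z := by
    have := Nat.find_spec hex2
    rwa [hj] at this
  refine ⟨w0 ^ (2 ^ j), H.pow_mem hw0 _, hjn, ?_, ?_⟩
  · rw [← pow_add, ← two_mul, ← pow_succ']; exact hjs
  · intro y hy
    set w := w0 ^ (2 ^ j) with hw
    have hwH : w ∈ H := H.pow_mem hw0 _
    have hwi : w ∈ Subgroup.upperCentralSeries G (Nat.find hex) := Subgroup.pow_mem _ hw0i _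
    have hi0 : Nat.find hex ≠ 0 := by
      intro h
      rw [h, Subgroup.upperCentralSeries_zero, Subgroup.mem_bot] at hwi
      exact hjn (by rw [hwi]; exact Z.one_mem)
    obtain ⟨i, hi⟩ := Nat.exists_eq_succ_of_ne_zero hi0
    rw [hi] at hwi
    have h1 := Subgroup.mem_upperCentralSeries_succ_iff.1 (Subgroup.inv_mem _ hwi) y⁻¹
    have e : ⁅w⁻¹, y⁻¹⁆ = w⁻¹ * (y⁻¹ * w * y) := by
      rw [commutatorElement_def]; group
    rw [e] at h1
    by_contra hc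
    exact Nat.find_min hex (show i < Nat.find hex by omega)
      ⟨_, H.mul_mem (H.inv_mem hwH) (hy w hwH), hc, h1⟩

theorem card_double [Finite G] (A B : Subgroup G) (a : G) (hAB : A ≤ B) (ha : a ∈ B) (haA : a ∉ A)
    (h : ∀ b ∈ B, b ∈ A ∨ a⁻¹ * b ∈ A) : Nat.card B = 2 * Nat.card A := by
  have e : (B : Set G) = (A : Set G) ∪ (fun x => a * x) '' (A : Set G) := by
    ext b
    constructor
    · intro hb
      rcases h b hb with h1 | h1
      · exact Or.inl h1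
      · exact Or.inr ⟨_, h1, by simp⟩
    · rintro (h1 | ⟨x, hx, rfl⟩)
      · exact hAB h1
      · exact B.mul_mem ha (hAB hx)
  have hd : Disjoint (A : Set G) ((fun x => a * x) '' (A : Set G)) := by
    rw [Set.disjoint_left]
    rintro y hy ⟨x, hx, rfl⟩
    exact haA (by simpa using A.mul_mem hy (A.inv_mem hx))
  have h1 : Nat.card B = (B : Set G).ncard := rfl
  have h2 : Nat.card A = (A : Set G).ncard := rfl
  rw [h1, h2, e, Set.ncard_union_eq hd, Set.ncard_image_of_injective _ (mul_right_injective a)]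
  ring

theorem card_map_le [Finite G] {V : Type} [Group V] (π : G →* V) (A B : Subgroup G) (a : G)
    (h : ∀ b ∈ B, b ∈ A ∨ a⁻¹ * b ∈ A) :
    Nat.card (B.map π) ≤ 2 * Nat.card (A.map π) := by
  have hf : (A.map π : Set V).Finite := by
    rw [Subgroup.coe_map]; exact (Set.toFinite _).image _
  have e : (B.map π : Set V) ⊆ (A.map π : Set V) ∪ (fun x => π a * x) '' (A.map π : Set V) := by
    rintro _ ⟨b, hb, rfl⟩
    rcases h b hb with h1 | h1
    · exact Or.inl ⟨b, h1, rfl⟩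
    · exact Or.inr ⟨_, ⟨_, h1, rfl⟩, by simp⟩
  have h1 : Nat.card (B.map π) = (B.map π : Set V).ncard := rfl
  have h2 : Nat.card (A.map π) = (A.map π : Set V).ncard := rfl
  rw [h1, h2]
  calc _ ≤ _ := Set.ncard_le_ncard e (hf.union (hf.image _))
    _ ≤ _ := Set.ncard_union_le _ _
    _ = _ := by rw [Set.ncard_image_of_injective _ (mul_right_injective (π a))]; ring

/-- the subgroup generated by Z and w -/
def Zp (Z : Subgroup G) (w : G) (h1 : w * w ∈ Z) (h2 : ∀ z ∈ Z, w⁻¹ * z * w ∈ Z) : Subgroup G where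
  carrier := {y | y ∈ Z ∨ w⁻¹ * y ∈ Z}
  one_mem' := Or.inl Z.one_mem
  mul_mem' := by
    rintro a b (ha | ha) (hb | hb)
    · exact Or.inl (Z.mul_mem ha hb)
    · right
      have e : w⁻¹ * (a * b) = (w⁻¹ * a * w) * (w⁻¹ * b) := by group
      rw [e]; exact Z.mul_mem (h2 _ ha) hb
    · right
      rw [← mul_assoc]; exact Z.mul_mem ha hb
    · left
      have e : a * b = (w * w) * (w⁻¹ * (w⁻¹ * a) * w) * (w⁻¹ * b) := by group
      rw [e]; exact Z.mul_mem (Z.mul_mem h1 (h2 _ ha)) hb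
  inv_mem' := by
    rintro a (ha | ha)
    · exact Or.inl (Z.inv_mem ha)
    · right
      have e : w⁻¹ * a⁻¹ = (w⁻¹ * (w⁻¹ * a)⁻¹ * w) * (w * w)⁻¹ := by group
      rw [e]; exact Z.mul_mem (h2 _ (Z.inv_mem ha)) (Z.inv_mem h1)

/-- the kernel of the commutator character -/
def Hone {H Z : Subgroup G} {g : G} {ψ : G → ℂ} (hG : Good H Z g ψ) (w : G)
    (hw : ∀ h ∈ H, w⁻¹ * (h⁻¹ * w * h) ∈ Z) : Subgroup G where
  carrier := {h | h ∈ H ∧ ψ (w⁻¹ * (h⁻¹ * w * h)) = 1}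
  one_mem' := ⟨H.one_mem, by simpa using hG.one⟩
  mul_mem' := by
    rintro a b ⟨ha, ha'⟩ ⟨hb, hb'⟩
    refine ⟨H.mul_mem ha hb, ?_⟩
    have e : w⁻¹ * ((a * b)⁻¹ * w * (a * b)) =
        (w⁻¹ * (b⁻¹ * w * b)) * (b⁻¹ * (w⁻¹ * (a⁻¹ * w * a)) * b) := by group
    rw [e, hG.mulr _ _ (hG.hZ _ hb _ (hw _ ha)), hG.inv _ hb _ (hw _ ha), ha', hb', one_mul]
  inv_mem' := by
    rintro a ⟨ha, ha'⟩
    refine ⟨H.inv_mem ha, ?_⟩
    have e : w⁻¹ * (a⁻¹⁻¹ * w * a⁻¹) = a⁻¹⁻¹ * (w⁻¹ * (a⁻¹ * w * a))⁻¹ * a⁻¹ := by group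
    rw [e, hG.inv _ (H.inv_mem ha) _ (Z.inv_mem (hw _ ha))]
    have := hG.inv_mul _ (hw _ ha)
    rwa [ha', mul_one] at this

/-- the extension of the character -/
noncomputable def ext (ψ : G → ℂ) (w : G) (s : ℂ) : G → ℂ := fun y => ψ y + s * ψ (w⁻¹ * y)

theorem ext_Z {H Z : Subgroup G} {g : G} {ψ : G → ℂ} (hG : Good H Z g ψ) {w : G} (hw : w ∉ Z)
    (s : ℂ) {y : G} (hy : y ∈ Z) : ext ψ w s y = ψ y := by
  have : w⁻¹ * y ∉ Z := fun h => hw (by simpa using Z.mul_mem hy (Z.inv_mem h))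
  simp [ext, hG.off _ this]

theorem ext_wZ {H Z : Subgroup G} {g : G} {ψ : G → ℂ} (hG : Good H Z g ψ) {w : G} (hw : w ∉ Z)
    (s : ℂ) {y : G} (hy : w⁻¹ * y ∈ Z) : ext ψ w s y = s * ψ (w⁻¹ * y) := by
  have : y ∉ Z := fun h => hw (by simpa using Z.mul_mem h (Z.inv_mem hy))
  simp [ext, hG.off _ this]

theorem good_ext {H Z : Subgroup G} {g : G} {ψ : G → ℂ} (hG : Good H Z g ψ) {w : G}
    (hwH : w ∈ H) (hwZ : w ∉ Z) (hw2 : w * w ∈ Z)
    (hw : ∀ h ∈ H, w⁻¹ * (h⁻¹ * w * h) ∈ Z) (s : ℂ) (hs : s * s = ψ (w * w))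
    (g' : G) (hg'Z : ∀ z ∈ Z, g'⁻¹ * z * g' ∈ Z) (hg'w : w⁻¹ * (g'⁻¹ * w * g') ∈ Z)
    (hg'H : ∀ h ∈ Hone hG w hw, g'⁻¹ * h * g' ∈ Hone hG w hw) :
    Good (Hone hG w hw) (Zp Z w hw2 (hG.hZ w hwH)) g' (ext ψ w s) where
  le := by
    have hwm : w ∈ Hone hG w hw := ⟨hwH, by simpa using hG.one⟩
    have hZm : ∀ z ∈ Z, z ∈ Hone hG w hw := by
      intro z hz
      refine ⟨hG.le hz, ?_⟩
      have e : w⁻¹ * (z⁻¹ * w * z) = (w⁻¹ * z⁻¹ * w) * z := by group
      rw [e, hG.mulr _ _ hz, hG.inv _ hwH _ (Z.inv_mem hz), hG.inv_mul _ hz]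
    rintro y (hy | hy)
    · exact hZm y hy
    · have := (Hone hG w hw).mul_mem hwm (hZm _ hy)
      simpa using this
  gH := hg'H
  gZ := by
    rintro y (hy | hy)
    · exact Or.inl (hg'Z y hy)
    · right
      have e : w⁻¹ * (g'⁻¹ * y * g') = (w⁻¹ * (g'⁻¹ * w * g')) * (g'⁻¹ * (w⁻¹ * y) * g') := by group
      rw [e]; exact Z.mul_mem hg'w (hg'Z _ hy)
  hZ := by
    rintro h ⟨hh, -⟩ y (hy | hy)
    · exact Or.inl (hG.hZ h hh y hy)
    · right
      have e : w⁻¹ * (h⁻¹ * y * h) = (w⁻¹ * (h⁻¹ * w * h)) * (h⁻¹ * (w⁻¹ * y) * h) := by group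
      rw [e]; exact Z.mul_mem (hw h hh) (hG.hZ h hh _ hy)
  off := by
    intro y hy
    have h1 : y ∉ Z := fun h => hy (Or.inl h)
    have h2 : w⁻¹ * y ∉ Z := fun h => hy (Or.inr h)
    simp [ext, hG.off _ h1, hG.off _ h2]
  one := by rw [ext_Z hG hwZ s Z.one_mem, hG.one]
  mul := by
    rintro a (ha | ha) b (hb | hb)
    · rw [ext_Z hG hwZ s ha, ext_Z hG hwZ s hb, ext_Z hG hwZ s (Z.mul_mem ha hb), hG.mul _ ha _ hb]
    · have e : w⁻¹ * (a * b) = (w⁻¹ * a * w) * (w⁻¹ * b) := by group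
      have hm : w⁻¹ * (a * b) ∈ Z := by rw [e]; exact Z.mul_mem (hG.hZ _ hwH _ ha) hb
      rw [ext_Z hG hwZ s ha, ext_wZ hG hwZ s hb, ext_wZ hG hwZ s hm, e, hG.mulr _ _ hb,
        hG.inv _ hwH _ ha]
      ring
    · have e : w⁻¹ * (a * b) = (w⁻¹ * a) * b := by group
      have hm : w⁻¹ * (a * b) ∈ Z := by rw [e]; exact Z.mul_mem ha hb
      rw [ext_wZ hG hwZ s ha, ext_Z hG hwZ s hb, ext_wZ hG hwZ s hm, e, hG.mulr _ _ hb]
      ring
    · have e : a * b = (w * w) * (w⁻¹ * (w⁻¹ * a) * w) * (w⁻¹ * b) := by group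
      have hm : a * b ∈ Z := by
        rw [e]; exact Z.mul_mem (Z.mul_mem hw2 (hG.hZ _ hwH _ ha)) hb
      rw [ext_wZ hG hwZ s ha, ext_wZ hG hwZ s hb, ext_Z hG hwZ s hm, e, hG.mulr _ _ hb,
        hG.mulr _ _ (hG.hZ _ hwH _ ha), hG.inv _ hwH _ ha, ← hs]
      ring
  inv := by
    rintro h ⟨hh, hh'⟩ y (hy | hy)
    · rw [ext_Z hG hwZ s hy, ext_Z hG hwZ s (hG.hZ h hh y hy), hG.inv h hh y hy]
    · have e : w⁻¹ * (h⁻¹ * y * h) = (w⁻¹ * (h⁻¹ * w * h)) * (h⁻¹ * (w⁻¹ * y) * h) := by group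
      have hm : w⁻¹ * (h⁻¹ * y * h) ∈ Z := by
        rw [e]; exact Z.mul_mem (hw h hh) (hG.hZ h hh _ hy)
      rw [ext_wZ hG hwZ s hy, ext_wZ hG hwZ s hm, e, hG.mulr _ _ (hG.hZ h hh _ hy), hh',
        hG.inv h hh _ hy, one_mul]

theorem beta_sq {H Z : Subgroup G} {g : G} {ψ : G → ℂ} (hG : Good H Z g ψ) {w : G}
    (hwH : w ∈ H) (hw2 : w * w ∈ Z)
    (hw : ∀ h ∈ H, w⁻¹ * (h⁻¹ * w * h) ∈ Z) (h : G) (hh : h ∈ H) :
    ψ (w⁻¹ * (h⁻¹ * w * h)) = 1 ∨ ψ (w⁻¹ * (h⁻¹ * w * h)) = -1 := by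
  apply mul_self_eq_one_iff.1
  have h1 := hG.inv h hh _ hw2
  have e : h⁻¹ * (w * w) * h =
      (w * w) * (w⁻¹ * (w⁻¹ * (h⁻¹ * w * h)) * w) * (w⁻¹ * (h⁻¹ * w * h)) := by group
  rw [e, hG.mulr _ _ (hw h hh), hG.mulr _ _ (hG.hZ _ hwH _ (hw h hh)),
    hG.inv _ hwH _ (hw h hh)] at h1
  have h2 := hG.inv_mul _ hw2
  linear_combination (ψ (w * w)⁻¹) * h1 - (ψ (w⁻¹ * (h⁻¹ * w * h)) ^ 2 - 1) * h2

theorem main [Fintype G] (hP : IsPGroup 2 G) {V : Type} [Group V] (π : G →* V)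
    (hπ : ∀ x : G, π (x * x) = 1) (n : ℕ) :
    ∀ (H Z : Subgroup G) (g : G) (ψ : G → ℂ), Good H Z g ψ → Nat.card H - Nat.card Z = n →
      ∀ a : ℕ, 4 ^ a * Nat.card (Z.map π) ≤ 2 * Nat.card Z ^ 2 * Nat.card (H.map π) →
        ∃ k : ℤ, S H g ψ = 2 ^ a * k := by
  induction n using Nat.strong_induction_on with
  | _ n ih =>
  intro H Z g ψ hG hn a ha
  have : Fact (Nat.Prime 2) := ⟨Nat.prime_two⟩
  by_cases hall : ∀ z ∈ Z, ψ (g⁻¹ * z * g) * ψ z = 1
  swap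
  · push Not at hall
    obtain ⟨z, hz, hne⟩ := hall
    exact ⟨0, by rw [hG.vanish z hz hne]; simp⟩
  by_cases hle : H ≤ Z
  · obtain ⟨k, hk⟩ := hG.base hle hall
    have hHZ : H = Z := le_antisymm hle hG.le
    obtain ⟨e, he⟩ := IsPGroup.iff_card.1 (hP.to_subgroup Z)
    rw [hHZ] at ha
    have hfin : Finite (Z.map π) := by
      have : (Z.map π : Set V).Finite := by
        rw [Subgroup.coe_map]; exact (Set.toFinite _).image _
      exact this
    have hpos : 0 < Nat.card (Z.map π) := Nat.card_pos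
    have h1 : 4 ^ a ≤ 2 * Nat.card Z ^ 2 := Nat.le_of_mul_le_mul_right ha hpos
    rw [he] at h1
    have h2 : 2 ^ (2 * a) ≤ 2 ^ (2 * e + 1) := by
      calc 2 ^ (2 * a) = 4 ^ a := by rw [pow_mul]; norm_num
        _ ≤ _ := h1
        _ = _ := by ring
    have h3 : a ≤ e := by
      have := (Nat.pow_le_pow_iff_right (by norm_num : 1 < 2)).1 h2
      omega
    obtain ⟨d, rfl⟩ := Nat.exists_eq_add_of_le h3
    refine ⟨2 ^ d * k, ?_⟩
    rw [hk, he]; push_cast; ring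
  obtain ⟨w, hwH, hwZ, hw2, hwy⟩ := exists_w hP H Z hle
  have hw : ∀ h ∈ H, w⁻¹ * (h⁻¹ * w * h) ∈ Z := fun h hh =>
    hwy h fun x hx => H.mul_mem (H.mul_mem (H.inv_mem hh) hx) hh
  obtain ⟨s, hs⟩ : ∃ s : ℂ, s * s = ψ (w * w) := by
    obtain ⟨s, hs⟩ := IsAlgClosed.exists_eq_mul_self (ψ (w * w))
    exact ⟨s, hs.symm⟩
  have hs' : (-s) * (-s) = ψ (w * w) := by rw [← hs]; ring
  have hgH1 : ∀ h ∈ Hone hG w hw, g⁻¹ * h * g ∈ Hone hG w hw := by
    rintro h ⟨hh, hh'⟩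
    refine ⟨hG.gH h hh, ?_⟩
    have hc : w⁻¹ * (g⁻¹⁻¹ * w * g⁻¹) ∈ Z := hwy g⁻¹ (by simpa using conj_back H g hG.gH)
    set c := w⁻¹ * (g⁻¹⁻¹ * w * g⁻¹) with hcdef
    have hu : c⁻¹ * (w⁻¹ * (h⁻¹ * w * h)) * (h⁻¹ * c * h) ∈ Z :=
      Z.mul_mem (Z.mul_mem (Z.inv_mem hc) (hw h hh)) (hG.hZ h hh c hc)
    have h1 := hall _ hu
    have e : w⁻¹ * ((g⁻¹ * h * g)⁻¹ * w * (g⁻¹ * h * g)) =
        g⁻¹ * (c⁻¹ * (w⁻¹ * (h⁻¹ * w * h)) * (h⁻¹ * c * h)) * g := by
      rw [hcdef]; group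
    rw [hG.mulr _ _ (hG.hZ h hh c hc), hG.mulr _ _ (hw h hh), hG.inv h hh c hc, hh', mul_one,
      hG.inv_mul c hc, mul_one] at h1
    rw [e, h1]
  have hcZ : Nat.card (Zp Z w hw2 (hG.hZ w hwH)) = 2 * Nat.card Z :=
    card_double Z _ w (fun z hz => Or.inl hz) (Or.inr (by simp)) hwZ (fun b hb => hb)
  have hcZm : Nat.card ((Zp Z w hw2 (hG.hZ w hwH)).map π) ≤ 2 * Nat.card (Z.map π) :=
    card_map_le π Z _ w (fun b hb => hb)
  have hZpos : 0 < Nat.card Z := Nat.card_pos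
  have G1 := good_ext hG hwH hwZ hw2 hw s hs g hG.gZ (hwy g hG.gH) hgH1
  have G2 := good_ext hG hwH hwZ hw2 hw (-s) hs' g hG.gZ (hwy g hG.gH) hgH1
  have hsplit : S H g ψ = (S H g (ext ψ w s) + S H g (ext ψ w (-s))) / 2 := by
    unfold S
    rw [← Finset.sum_add_distrib, Finset.sum_div]
    refine Finset.sum_congr rfl fun x _ => ?_
    by_cases hx : g⁻¹ * x ∈ H
    · simp only [F_pos _ hx, ext]; ring
    · simp only [F_neg _ hx]; ring
  have hle2 : 2 * Nat.card Z ≤ Nat.card (Hone hG w hw) := by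
    rw [← hcZ]; exact Subgroup.card_le_of_le G1.le
  by_cases hA : H ≤ Hone hG w hw
  · have hE : Hone hG w hw = H := le_antisymm (fun h hh => hh.1) hA
    rw [hE] at G1 G2 hle2
    have hlt : Nat.card H - Nat.card (Zp Z w hw2 (hG.hZ w hwH)) < n := by omega
    by_cases hm : π w ∈ Z.map π
    · have hmap : (Zp Z w hw2 (hG.hZ w hwH)).map π = Z.map π := by
        apply le_antisymm
        · rintro _ ⟨y, (hy | hy), rfl⟩
          · exact ⟨y, hy, rfl⟩
          · have := (Z.map π).mul_mem hm (Subgroup.mem_map_of_mem π hy)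
            simpa using this
        · exact Subgroup.map_mono (fun z hz => Or.inl hz)
      have hb : 4 ^ (a + 1) * Nat.card ((Zp Z w hw2 (hG.hZ w hwH)).map π) ≤
          2 * Nat.card (Zp Z w hw2 (hG.hZ w hwH)) ^ 2 * Nat.card (H.map π) := by
        rw [hmap, hcZ]
        calc _ = 4 * (4 ^ a * Nat.card (Z.map π)) := by ring
          _ ≤ 4 * (2 * Nat.card Z ^ 2 * Nat.card (H.map π)) := Nat.mul_le_mul_left _ ha
          _ = _ := by ring
      obtain ⟨k1, hk1⟩ := ih _ hlt H _ g _ G1 rfl (a + 1) hb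
      obtain ⟨k2, hk2⟩ := ih _ hlt H _ g _ G2 rfl (a + 1) hb
      refine ⟨k1 + k2, ?_⟩
      rw [hsplit, hk1, hk2]; push_cast; ring
    · have hb : 4 ^ a * Nat.card ((Zp Z w hw2 (hG.hZ w hwH)).map π) ≤
          2 * Nat.card (Zp Z w hw2 (hG.hZ w hwH)) ^ 2 * Nat.card (H.map π) := by
        rw [hcZ]
        calc _ ≤ 4 ^ a * (2 * Nat.card (Z.map π)) := Nat.mul_le_mul_left _ hcZm
          _ = 2 * (4 ^ a * Nat.card (Z.map π)) := by ring
          _ ≤ 2 * (2 * Nat.card Z ^ 2 * Nat.card (H.map π)) := Nat.mul_le_mul_left _ ha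
          _ ≤ 4 * (2 * Nat.card Z ^ 2 * Nat.card (H.map π)) := Nat.mul_le_mul_right _ (by norm_num)
          _ = _ := by ring
      obtain ⟨k1, hk1⟩ := ih _ hlt H _ g _ G1 rfl a hb
      refine ⟨k1, ?_⟩
      rw [← hk1]
      unfold S
      refine Finset.sum_congr rfl fun x _ => ?_
      by_cases hx : g⁻¹ * x ∈ H
      · have : w⁻¹ * (x * x) ∉ Z := by
          intro h
          apply hm
          have := (Z.map π).inv_mem (Subgroup.mem_map_of_mem π h)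
          rw [map_mul, hπ] at this
          simpa using this
        simp only [F_pos _ hx, ext, hG.off _ this]; ring
      · simp only [F_neg _ hx]
  · obtain ⟨h0, hh0, hh0'⟩ := SetLike.not_le_iff_exists.1 hA
    have hb0 : ψ (w⁻¹ * (h0⁻¹ * w * h0)) = -1 :=
      (beta_sq hG hwH hw2 hw h0 hh0).resolve_left fun h => hh0' ⟨hh0, h⟩
    have hbmul : ∀ a ∈ H, ∀ b ∈ H, ψ (w⁻¹ * ((a * b)⁻¹ * w * (a * b))) =
        ψ (w⁻¹ * (a⁻¹ * w * a)) * ψ (w⁻¹ * (b⁻¹ * w * b)) := by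
      intro a ha b hb
      have e : w⁻¹ * ((a * b)⁻¹ * w * (a * b)) =
        (w⁻¹ * (b⁻¹ * w * b)) * (b⁻¹ * (w⁻¹ * (a⁻¹ * w * a)) * b) := by group
      rw [e, hG.mulr _ _ (hG.hZ _ hb _ (hw _ ha)), hG.inv _ hb _ (hw _ ha), mul_comm]
    have hb0i : ψ (w⁻¹ * (h0⁻¹⁻¹ * w * h0⁻¹)) = -1 :=
      (beta_sq hG hwH hw2 hw h0⁻¹ (H.inv_mem hh0)).resolve_left fun h =>
        hh0' (by simpa using (Hone hG w hw).inv_mem (show h0⁻¹ ∈ Hone hG w hw from ⟨H.inv_mem hh0, h⟩))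
    have hcov : ∀ b ∈ H, b ∈ Hone hG w hw ∨ h0⁻¹ * b ∈ Hone hG w hw := by
      intro b hb
      rcases beta_sq hG hwH hw2 hw b hb with h | h
      · exact Or.inl ⟨hb, h⟩
      · refine Or.inr ⟨H.mul_mem (H.inv_mem hh0) hb, ?_⟩
        rw [hbmul _ (H.inv_mem hh0) _ hb, hb0i, h]; ring
    have hcH : Nat.card H = 2 * Nat.card (Hone hG w hw) :=
      card_double _ H h0 (fun h hh => hh.1) hh0 hh0' hcov
    have hcHm : Nat.card (H.map π) ≤ 2 * Nat.card ((Hone hG w hw).map π) :=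
      card_map_le π _ H h0 hcov
    have hh0H1 : ∀ h ∈ Hone hG w hw, h0⁻¹ * h * h0 ∈ Hone hG w hw := by
      rintro h ⟨hh, hh'⟩
      refine ⟨H.mul_mem (H.mul_mem (H.inv_mem hh0) hh) hh0, ?_⟩
      rw [hbmul _ (H.mul_mem (H.inv_mem hh0) hh) _ hh0, hbmul _ (H.inv_mem hh0) _ hh, hb0i, hb0, hh']
      ring
    have G3 := good_ext hG hwH hwZ hw2 hw s hs (g * h0)
      (by
        intro z hz
        have := hG.hZ h0 hh0 _ (hG.gZ z hz)
        convert this using 1; group)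
      (by
        apply hwy
        intro h hh
        have := H.mul_mem (H.mul_mem (H.inv_mem hh0) (hG.gH h hh)) hh0
        convert this using 1; group)
      (by
        intro h hh
        have := hh0H1 _ (hgH1 h hh)
        convert this using 1; group)
    have hlt : Nat.card (Hone hG w hw) - Nat.card (Zp Z w hw2 (hG.hZ w hwH)) < n := by omega
    have hb : 4 ^ a * Nat.card ((Zp Z w hw2 (hG.hZ w hwH)).map π) ≤
        2 * Nat.card (Zp Z w hw2 (hG.hZ w hwH)) ^ 2 * Nat.card ((Hone hG w hw).map π) := by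
      rw [hcZ]
      calc _ ≤ 4 ^ a * (2 * Nat.card (Z.map π)) := Nat.mul_le_mul_left _ hcZm
        _ = 2 * (4 ^ a * Nat.card (Z.map π)) := by ring
        _ ≤ 2 * (2 * Nat.card Z ^ 2 * Nat.card (H.map π)) := Nat.mul_le_mul_left _ ha
        _ ≤ 2 * (2 * Nat.card Z ^ 2 * (2 * Nat.card ((Hone hG w hw).map π))) :=
          Nat.mul_le_mul_left _ (Nat.mul_le_mul_left _ hcHm)
        _ = _ := by ring
    obtain ⟨k1, hk1⟩ := ih _ hlt _ _ g _ G1 rfl a hb
    obtain ⟨k2, hk2⟩ := ih _ hlt _ _ (g * h0) _ G3 rfl a hb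
    have hswap : S H g (ext ψ w (-s)) = S H g (ext ψ w s) := by
      unfold S
      rw [← Equiv.sum_comp ((Equiv.mulLeft h0⁻¹).trans (Equiv.mulRight h0))]
      refine Finset.sum_congr rfl fun x _ => ?_
      show F H g (ext ψ w (-s)) (h0⁻¹ * x * h0) = _
      have hc : g⁻¹ * h0⁻¹ * g ∈ H := hG.gH _ (H.inv_mem hh0)
      by_cases hx : g⁻¹ * x ∈ H
      · have hx' : g⁻¹ * (h0⁻¹ * x * h0) ∈ H := by
          have := H.mul_mem (H.mul_mem hc hx) hh0
          convert this using 1; group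
        rw [F_pos _ hx, F_pos _ hx']
        have e : h0⁻¹ * x * h0 * (h0⁻¹ * x * h0) = h0⁻¹ * (x * x) * h0 := by group
        rw [e]
        generalize x * x = y
        have hinv : ∀ u : G, ψ (h0⁻¹ * u * h0) = ψ u := by
          intro u
          by_cases hu : u ∈ Z
          · exact hG.inv h0 hh0 u hu
          · rw [hG.off _ hu, hG.off]
            intro h
            apply hu
            have := hG.hZ _ (H.inv_mem hh0) _ h
            convert this using 1; group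
        have e2 : w⁻¹ * (h0⁻¹ * y * h0) =
            h0⁻¹ * ((w⁻¹ * y) * (y⁻¹ * w * (w⁻¹ * (h0⁻¹⁻¹ * w * h0⁻¹))⁻¹ * (w⁻¹ * y))) * h0 := by
          group
        simp only [ext]
        rw [hinv y, e2, hinv]
        by_cases hy : w⁻¹ * y ∈ Z
        · have hcz := hw _ (H.inv_mem hh0)
          have e3 : y⁻¹ * w = (w⁻¹ * y)⁻¹ := by group
          have h5 := hG.inv_mul _ hcz
          rw [hb0i] at h5
          have h6 : ψ (w⁻¹ * (h0⁻¹⁻¹ * w * h0⁻¹))⁻¹ = -1 := by linear_combination -h5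
          rw [e3, hG.mulr _ _ (hG.hZ _ (hG.le hy) _ (Z.inv_mem hcz)),
            hG.inv _ (hG.le hy) _ (Z.inv_mem hcz), h6]
          ring
        · have hcz := hw _ (H.inv_mem hh0)
          have : w⁻¹ * y * (y⁻¹ * w * (w⁻¹ * (h0⁻¹⁻¹ * w * h0⁻¹))⁻¹ * (w⁻¹ * y)) ∉ Z := by
            intro h
            apply hy
            have := Z.mul_mem hcz h
            convert this using 1; group
          rw [hG.off _ this, hG.off _ hy]; ring
      · have hx' : g⁻¹ * (h0⁻¹ * x * h0) ∉ H := by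
          intro h
          apply hx
          have := H.mul_mem (H.mul_mem (H.inv_mem hc) h) (H.inv_mem hh0)
          convert this using 1; group
        rw [F_neg _ hx, F_neg _ hx']
    have hdec : S H g (ext ψ w s) =
        S (Hone hG w hw) g (ext ψ w s) + S (Hone hG w hw) (g * h0) (ext ψ w s) := by
      unfold S
      rw [← Finset.sum_add_distrib]
      refine Finset.sum_congr rfl fun x _ => ?_
      have e : (g * h0)⁻¹ * x = h0⁻¹ * (g⁻¹ * x) := by group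
      by_cases hx : g⁻¹ * x ∈ H
      · rw [F_pos _ hx]
        by_cases h1 : g⁻¹ * x ∈ Hone hG w hw
        · have h2 : (g * h0)⁻¹ * x ∉ Hone hG w hw := by
            intro h
            apply hh0'
            have := (Hone hG w hw).mul_mem h1 ((Hone hG w hw).inv_mem h)
            convert this using 1; group
          rw [F_pos _ h1, F_neg _ h2, add_zero]
        · have h2 : (g * h0)⁻¹ * x ∈ Hone hG w hw := by
            rw [e]; exact (hcov _ hx).resolve_left h1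
          rw [F_neg _ h1, F_pos _ h2, zero_add]
      · have h1 : g⁻¹ * x ∉ Hone hG w hw := fun h => hx h.1
        have h2 : (g * h0)⁻¹ * x ∉ Hone hG w hw := by
          intro h
          apply hx
          have := H.mul_mem hh0 h.1
          convert this using 1; group
        rw [F_neg _ hx, F_neg _ h1, F_neg _ h2, add_zero]
    refine ⟨k1 + k2, ?_⟩
    rw [hsplit, hswap, hdec, hk1, hk2]; push_cast; ring

/-- In a finite 2-group with a surjection onto V killing squares, 2^a divides the number of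
solutions of x^2 = 1 whenever 4^a ≤ 2 |V|. -/
theorem two_pow_dvd [Finite G] (hP : IsPGroup 2 G) {V : Type} [Group V] (π : G →* V)
    (hπ : ∀ x : G, π (x * x) = 1) (hs : Function.Surjective π) (a : ℕ)
    (ha : 4 ^ a ≤ 2 * Nat.card V) : 2 ^ a ∣ Nat.card {x : G // x * x = 1} := by
  have := Fintype.ofFinite G
  have hG : Good (⊤ : Subgroup G) ⊥ 1 (fun y => if y = 1 then 1 else 0) :=
    { le := bot_le
      gH := fun _ _ => trivial
      gZ := by intro z hz; simpa using hz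
      hZ := by intro h _ z hz; rw [Subgroup.mem_bot] at hz; simp [hz]
      off := by intro y hy; rw [Subgroup.mem_bot] at hy; simp [hy]
      one := by simp
      mul := by
        intro a ha b hb
        rw [Subgroup.mem_bot] at ha hb; simp [ha, hb]
      inv := by intro h _ z hz; rw [Subgroup.mem_bot] at hz; simp [hz] }
  obtain ⟨k, hk⟩ := main hP π hπ _ ⊤ ⊥ 1 _ hG rfl a (by
    rw [Subgroup.map_bot, Subgroup.map_top_of_surjective π hs]
    simpa using ha)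
  have e : S (⊤ : Subgroup G) 1 (fun y => if y = 1 then (1 : ℂ) else 0) =
      (Nat.card {x : G // x * x = 1} : ℂ) := by
    unfold S
    simp only [F_pos _ (Subgroup.mem_top _)]
    rw [Finset.sum_boole, Nat.card_eq_fintype_card, Fintype.card_subtype]
  rw [e] at hk
  have h2 : ((Nat.card {x : G // x * x = 1} : ℕ) : ℤ) = 2 ^ a * k := by exact_mod_cast hk
  exact Int.natCast_dvd_natCast.1 ⟨k, by push_cast; exact h2⟩

end Pool.Agent.H6.SqCount
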