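import Pool.Agent.H6.GS1
import Pool.Agent.H6.SEM4

set_option autoImplicit false

namespace Pool.Agent.H6.GS

open Pool.Agent.H6.SEM (card_I Ico_add tele sum_inj)

def Good2 (m n : ℕ) : Prop :=
  ∃ v e : Fin m ⊕ Fin n → ℕ, ∃ k : ℕ,
    Function.Injective (Sum.elim v e) ∧
    (∀ x, 1 ≤ Sum.elim v e x ∧ Sum.elim v e x ≤ 2 * (m + n)) ∧
    (∀ i j : Fin m, j.val = (i.val + 1) % m →
      v (Sum.inl i) + e (Sum.inl i) + v (Sum.inl j) = k) ∧
    (∀ i j : Fin n, j.val = (i.val + 1) % n →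
      v (Sum.inr i) + e (Sum.inr i) + v (Sum.inr j) = k)

lemma Good2.symm {m n : ℕ} (h : Good2 m n) : Good2 n m := by
  obtain ⟨v, e, k, h1, h2, h3, h4⟩ := h
  have q : Sum.elim (v ∘ Sum.swap) (e ∘ Sum.swap) = Sum.elim v e ∘ Sum.map Sum.swap Sum.swap := by
    funext x; cases x <;> rfl
  refine ⟨v ∘ Sum.swap, e ∘ Sum.swap, k, ?_, fun x => ?_, h4, h3⟩
  · rw [q]
    exact h1.comp (Sum.swap_leftInverse.injective.sumMap Sum.swap_leftInverse.injective)
  · rw [q, add_comm n m]; exact h2 _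

lemma of_sem {m n : ℕ} (h : SEM.Good m n) : Good2 m n := by
  obtain ⟨f, g, k, h1, h2, h3, h4, h5, h6⟩ := h
  refine ⟨f, g, k, ?_, ?_, fun i j q => ?_, fun i j q => ?_⟩
  · refine Function.Injective.sumElim h1 h2 fun a b q => ?_
    have := h4 b
    have := h3 a
    omega
  · rintro (x | x)
    · have := h3 x
      simp only [Sum.elim_inl]
      omega
    · have := h4 x
      simp only [Sum.elim_inr]
      omega
  · have := h5 i j q
    omega
  · have := h6 i j q
    omega

def el (A B : List ℕ) {m n : ℕ} (hm : A.length = m) (hn : B.length = n) : Fin m ⊕ Fin n → ℕ :=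
  Sum.elim (fun i : Fin m => A[i.1]'(hm ▸ i.2)) (fun i : Fin n => B[i.1]'(hn ▸ i.2))

lemma el_mem (A B : List ℕ) {m n : ℕ} (hm : A.length = m) (hn : B.length = n) :
    ∀ x, el A B hm hn x ∈ A ++ B := by
  rintro (i | i)
  · exact List.mem_append_left _ (List.getElem_mem _)
  · exact List.mem_append_right _ (List.getElem_mem _)

lemma el_inj (A B : List ℕ) {m n : ℕ} (hm : A.length = m) (hn : B.length = n)
    (h1 : (A ++ B).Nodup) : Function.Injective (el A B hm hn) := by
  obtain ⟨h3, h4, h5⟩ := List.nodup_append.1 h1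
  rintro (i | i) (j | j) e
  · exact congrArg _ (Fin.ext (h3.getElem_inj_iff.1 e))
  · exact absurd e (h5 _ (List.getElem_mem _) _ (List.getElem_mem _))
  · exact absurd e.symm (h5 _ (List.getElem_mem _) _ (List.getElem_mem _))
  · exact congrArg _ (Fin.ext (h4.getElem_inj_iff.1 e))

def Z (j : ℕ) (A : List ℕ) : List ℕ := List.zipWith (fun x y => j - (x + y)) A (A.rotate 1)

lemma Z_len (j : ℕ) (A : List ℕ) : (Z j A).length = A.length := by simp [Z]

lemma of_lists2 (N j : ℕ) (A B : List ℕ)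
    (h : ((A : Multiset ℕ) + (Z j A : List ℕ)) + ((B : Multiset ℕ) + (Z j B : List ℕ)) =
      Multiset.Ico 1 (2 * N + 1)) : Good2 A.length B.length ∧ A.length + B.length = N := by
  have hp : A.length + B.length = N := by
    have := congrArg Multiset.card h
    simp [card_I, Z_len] at this
    omega
  have h0 : (((A ++ B) ++ (Z j A ++ Z j B) : List ℕ) : Multiset ℕ) = Multiset.Ico 1 (2 * N + 1) := by
    rw [← h]
    simp only [← Multiset.coe_add]
    abel
  have h1 : ((A ++ B) ++ (Z j A ++ Z j B)).Nodup := by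
    rw [← Multiset.coe_nodup, h0]; exact Multiset.nodup_Ico
  have h2 : ∀ x ∈ (A ++ B) ++ (Z j A ++ Z j B), 1 ≤ x ∧ x ≤ 2 * (A.length + B.length) := by
    intro x hx
    rw [← Multiset.mem_coe, h0, Multiset.mem_Ico] at hx
    omega
  obtain ⟨h3, h4, h5⟩ := List.nodup_append.1 h1
  refine ⟨⟨el A B rfl rfl, el _ _ (Z_len j A) (Z_len j B), j,
    (el_inj _ _ _ _ h3).sumElim (el_inj _ _ _ _ h4)
      fun a b => h5 _ (el_mem _ _ _ _ _) _ (el_mem _ _ _ _ _), ?_, fun i i' q => ?_,
      fun i i' q => ?_⟩, hp⟩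
  · rintro (x | x)
    · exact h2 _ (List.mem_append_left _ (el_mem A B rfl rfl x))
    · exact h2 _ (List.mem_append_right _ (el_mem _ _ (Z_len j A) (Z_len j B) x))
  · have a1 := h2 _ (List.mem_append_right _ (el_mem _ _ (Z_len j A) (Z_len j B) (Sum.inl i)))
    simp only [el, Z, Sum.elim_inl, List.getElem_zipWith, List.getElem_rotate, ← q] at a1 ⊢
    omega
  · have a1 := h2 _ (List.mem_append_right _ (el_mem _ _ (Z_len j A) (Z_len j B) (Sum.inr i)))
    simp only [el, Z, Sum.elim_inr, List.getElem_zipWith, List.getElem_rotate, ← q] at a1 ⊢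
    omega

def ln (c : ℕ → ℕ) : List Ent → ℕ
  | [] => 0
  | e :: T => (if e.k = 1 then 2 * (c (e.a + 1) - c e.a)
      else if e.k = 2 then 2 * (c (e.a + 1) - c e.a) else 1) + ln c T

lemma ln_VL (c : ℕ → ℕ) : ∀ T : List Ent, (VL c T).length = ln c T
  | [] => rfl
  | e :: T => by
    rw [VL, ln, List.length_append, ln_VL c T, sg]
    congr 1
    split_ifs
    · have := congrArg Multiset.card (zf_coe (c (e.a + 1) - c e.a) (c e.a) (c e.b))
      simp only [Multiset.coe_card, Multiset.card_add, card_I] at this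
      omega
    · have := congrArg Multiset.card (zr_coe (c e.a) (c e.b) (c (e.a + 1) - c e.a))
      simp only [Multiset.coe_card, Multiset.card_add, card_I] at this
      omega
    · rfl

lemma Z_VL {j : ℕ} {c : ℕ → ℕ} {e : Ent} {T : List Ent} (ok : OK j c (fs c e) (e :: T)) :
    ((VL c (e :: T) : List ℕ) : Multiset ℕ) + (Z j (VL c (e :: T)) : List ℕ) =
      ((TL (e :: T)).map fun i => Multiset.Ico (c i) (c (i + 1))).sum := by
  obtain ⟨y, hy⟩ := OK_W ok
  obtain ⟨l, hl'⟩ := sg_cons hy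
  have z : Z j (VL c (e :: T)) = pe j (VL c (e :: T) ++ [fs c e]) := by
    rw [Z, VL, hl', List.cons_append, pe_zip]
    simp
  rw [z, pe_VL j c _ _ ok]

theorem key2 (a b j r : ℕ) (c : ℕ → ℕ) (e1 e2 : Ent) (T1 T2 : List Ent)
    (p : (TL (e1 :: T1) ++ TL (e2 :: T2)).Perm (List.range r))
    (h : c 0 = 1 ∧ c r = 2 * (a + b) + 1 ∧ ln c (e1 :: T1) = a ∧ OK j c (fs c e1) (e1 :: T1) ∧
      OK j c (fs c e2) (e2 :: T2)) : Good2 a b := by
  obtain ⟨h0, hr, ha, o1, o2⟩ := h
  have hl : ∀ i < r, c i < c (i + 1) := fun i hi => by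
    rcases List.mem_append.1 (p.symm.subset (List.mem_range.2 hi)) with q | q
    · exact OK_lt j c _ _ o1 i q
    · exact OK_lt j c _ _ o2 i q
  obtain ⟨g, q⟩ := of_lists2 (a + b) j (VL c (e1 :: T1)) (VL c (e2 :: T2)) (by
    rw [Z_VL o1, Z_VL o2, ← List.sum_append, ← List.map_append, (p.map _).sum_eq]
    have := (tele c 0 r hl).1
    simpa [h0, hr] using this)
  rw [ln_VL, ha] at g q
  rwa [show (VL c (e2 :: T2)).length = b by omega] at g

end Pool.Agent.H6.GS
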