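import Pool.Agent.H6.TC1

set_option autoImplicit false

namespace Pool.Agent.H6.GS

lemma C3_2_7_2 (a b x y : ℕ) (h : a = 3 ∧ b = 4 * x + 6 * y + 41) : Good2 a b := by
  obtain ⟨rfl, rfl⟩ := h
  exact key2 _ _ (10 * x + 18 * y + 127) 84 (fun i => [1, 2, 3, y + 4, y + 5, y + 6, x + y + 7, x + y + 8, x + y + 9, x + y + 10, x + y + 11, x + 2 * y + 13, x + 2 * y + 14, x + 2 * y + 15, x + 2 * y + 16, 2 * x + 2 * y + 17, 2 * x + 2 * y + 18, 2 * x + 2 * y + 19, 2 * x + 3 * y + 20, 2 * x + 3 * y + 21, 2 * x + 3 * y + 22, 2 * x + 3 * y + 23, 2 * x + 3 * y + 24, 2 * x + 3 * y + 25, 2 * x + 3 * y + 26, 2 * x + 3 * y + 27, 2 * x + 3 * y + 28, 2 * x + 3 * y + 29, 2 * x + 5 * y + 30, 2 * x + 5 * y + 31, 2 * x + 5 * y + 32, 2 * x + 5 * y + 33, 3 * x + 5 * y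 + 34, 3 * x + 5 * y + 35, 3 * x + 5 * y + 36, 3 * x + 5 * y + 37, 3 * x + 5 * y + 38, 3 * x + 5 * y + 39, 3 * x + 5 * y + 40, 3 * x + 5 * y + 41, 3 * x + 7 * y + 44, 3 * x + 7 * y + 45, 3 * x + 7 * y + 46, 3 * x + 7 * y + 47, 3 * x + 7 * y + 48, 4 * x + 7 * y + 49, 4 * x + 7 * y + 50, 4 * x + 7 * y + 51, 4 * x + 7 * y + 52, 4 * x + 7 * y + 53, 4 * x + 7 * y + 54, 4 * x + 7 * y + 55, 4 * x + 9 * y + 56, 4 * x + 9 * y + 57, 4 * x + 9 * y + 58, 4 * x + 9 * y + 59, 4 * x + 9 * y + 60, 4 * x + 9 * y + 61, 4 * x + 9 * y + 62, 4 * x + 9 * y + 63, 6 * x + 9 * y + 64, 6 * x + 9 * y + 65, 6 * x + 9 * y + 66, 6 * x + 9 * y + 67, 6 * x + 9 * y + 68, 6 * x + 9 * y + 69, 6 * x + 10 * y + 70, 6 * x + 10 * y + 71, 6 * x + 10 * y + 72, 6 * x + 10 * y + 73, 6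 * x + 11 * y + 75, 6 * x + 11 * y + 76, 6 * x + 11 * y + 77, 6 * x + 11 * y + 78, 6 * x + 11 * y + 79, 6 * x + 12 * y + 80, 6 * x + 12 * y + 81, 6 * x + 12 * y + 82, 6 * x + 12 * y + 83, 6 * x + 12 * y + 84, 6 * x + 12 * y + 85, 6 * x + 12 * y + 86, 6 * x + 12 * y + 87, 6 * x + 12 * y + 88, 8 * x + 12 * y + 89].getD i 0)
    ⟨0, 18, 0, 0, 81⟩ ⟨0, 33, 0, 0, 73⟩ [⟨0, 19, 0, 0, 24⟩, ⟨0, 75, 0, 0, 25⟩] [⟨0, 12, 0, 0, 62⟩, ⟨0, 43, 0, 0, 61⟩, ⟨0, 13, 0, 0, 41⟩, ⟨0, 63, 0, 0, 40⟩, ⟨1, 14, 44, 59, 58⟩, ⟨0, 15, 0, 0, 50⟩, ⟨0, 52, 0, 0, 49⟩, ⟨0, 16, 0, 0, 54⟩, ⟨0, 47, 0, 0, 70⟩, ⟨0, 0, 0, 0, 72⟩, ⟨0, 45, 0, 0, 55⟩, ⟨1, 17, 74, 27, 38⟩, ⟨0, 7, 0, 0, 34⟩, ⟨0, 78, 0, 0, 9⟩, ⟨0, 32, 0, 0, 79⟩, ⟨0, 8, 0, 0, 35⟩, ⟨0, 76, 0, 0, 22⟩, ⟨0, 20, 0, 0, 77⟩, ⟨0, 21,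 0, 0, 29⟩, ⟨1, 69, 10, 39, 37⟩, ⟨0, 71, 0, 0, 36⟩, ⟨0, 11, 0, 0, 42⟩, ⟨0, 64, 0, 0, 53⟩, ⟨0, 1, 0, 0, 57⟩, ⟨0, 60, 0, 0, 56⟩, ⟨1, 2, 65, 51, 26⟩, ⟨0, 28, 0, 0, 68⟩, ⟨0, 23, 0, 0, 30⟩, ⟨0, 66, 0, 0, 4⟩, ⟨0, 48, 0, 0, 3⟩, ⟨0, 67, 0, 0, 46⟩, ⟨1, 5, 31, 83, 82⟩, ⟨0, 6, 0, 0, 80⟩]
    (by decide +kernel) (by
      simp only [OK, W, fs, ls, ln, List.getD_cons_zero, List.getD_cons_succ, if_true, if_false, Nat.reduceAdd, Nat.reduceEqDiff, Nat.reduceLeDiff, le_refl, one_ne_zero, zero_ne_one, OfNat.ofNat_ne_zero, OfNat.ofNat_ne_one, OfNat.zero_ne_ofNat, OfNat.one_ne_ofNat, and_true, true_and]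
      repeat' apply And.intro
      all_goals omega)

lemma A15_6_18_2 (a b x y : ℕ) (h : a = 2 * y + 15 ∧ b = 4 * x + 4 * y + 27) : Good2 a b := by
  obtain ⟨rfl, rfl⟩ := h
  exact key2 _ _ (10 * x + 18 * y + 120) 80 (fun i => [1, 2, 3, y + 4, y + 5, x + y + 7, x + y + 8, x + y + 9, x + y + 10, x + y + 11, x + 2 * y + 12, x + 2 * y + 13, x + 2 * y + 14, x + 2 * y + 15, 2 * x + 2 * y + 16, 2 * x + 2 * y + 17, 2 * x + 2 * y + 18, 2 * x + 2 * y + 19, 2 * x + 3 * y + 20, 2 * x + 3 * y + 21, 2 * x + 3 * y + 22, 2 * x + 3 * y + 23, 2 * x + 3 * y + 24, 2 * x + 3 * y + 25, 2 * x + 3 * y + 26, 2 * x + 3 * y + 27, 2 * x + 5 * y + 28, 2 * x + 5 * y + 29, 2 * x + 5 * y + 30, 2 * x + 5 * y + 31, 3 * x + 5 * y + 33, 3 * x + 5 * y + 34, 3 * x + 5 * y + 35,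 3 * x + 5 * y + 36, 3 * x + 5 * y + 37, 3 * x + 5 * y + 38, 3 * x + 5 * y + 39, 3 * x + 5 * y + 40, 3 * x + 7 * y + 41, 3 * x + 7 * y + 42, 3 * x + 7 * y + 43, 3 * x + 7 * y + 44, 3 * x + 7 * y + 45, 4 * x + 7 * y + 46, 4 * x + 7 * y + 47, 4 * x + 7 * y + 48, 4 * x + 7 * y + 49, 4 * x + 7 * y + 50, 4 * x + 7 * y + 51, 4 * x + 9 * y + 52, 4 * x + 9 * y + 53, 4 * x + 9 * y + 54, 4 * x + 9 * y + 55, 4 * x + 9 * y + 56, 4 * x + 9 * y + 57, 4 * x + 9 * y + 58, 4 * x + 9 * y + 59, 4 * x + 9 * y + 60, 6 * x + 9 * y + 61, 6 * x + 9 * y + 62, 6 * x + 9 * y + 63, 6 * x + 9 * y + 64, 6 * x + 9 * y + 65, 6 * x + 9 * y + 66, 6 * x + 10 * y + 67, 6 * x + 10 * y + 68, 6 * x + 10 * y + 69, 6 * x + 11 * y + 70, 6 * x + 11 * y + 71, 6 * x + 11 * y + 72, 6 * x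 + 11 * y + 73, 6 * x + 11 * y + 74, 6 * x + 12 * y + 75, 6 * x + 12 * y + 76, 6 * x + 12 * y + 77, 6 * x + 12 * y + 78, 6 * x + 12 * y + 79, 6 * x + 12 * y + 80, 6 * x + 12 * y + 81, 6 * x + 12 * y + 82, 8 * x + 12 * y + 85].getD i 0)
    ⟨0, 11, 0, 0, 39⟩ ⟨0, 72, 0, 0, 22⟩ [⟨0, 62, 0, 0, 50⟩, ⟨0, 1, 0, 0, 52⟩, ⟨0, 60, 0, 0, 40⟩, ⟨0, 12, 0, 0, 68⟩, ⟨0, 32, 0, 0, 7⟩, ⟨0, 73, 0, 0, 33⟩, ⟨0, 6, 0, 0, 76⟩, ⟨0, 30, 0, 0, 8⟩, ⟨0, 74, 0, 0, 21⟩, ⟨0, 18, 0, 0, 75⟩, ⟨0, 20, 0, 0, 27⟩, ⟨1, 66, 9, 37, 36⟩, ⟨0, 67, 0, 0, 34⟩] [⟨0, 19, 0, 0, 77⟩, ⟨2, 71, 17, 25, 31⟩, ⟨0, 10, 0, 0, 41⟩, ⟨0, 61, 0, 0, 38⟩, ⟨1, 13, 42, 57, 56⟩, ⟨0, 14, 0, 0, 51⟩, ⟨0, 47, 0, 0, 49⟩, ⟨0, 16, 0, 0, 69⟩, ⟨0, 28, 0, 0, 70⟩, ⟨0, 15, 0, 0, 43⟩, ⟨0, 54, 0, 0, 59⟩, ⟨0, 0, 0, 0, 55⟩,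 ⟨0, 58, 0, 0, 53⟩, ⟨1, 2, 63, 48, 24⟩, ⟨0, 26, 0, 0, 23⟩, ⟨0, 64, 0, 0, 46⟩, ⟨0, 3, 0, 0, 45⟩, ⟨0, 65, 0, 0, 44⟩, ⟨1, 4, 29, 79, 78⟩, ⟨0, 5, 0, 0, 35⟩]
    (by decide +kernel) (by
      simp only [OK, W, fs, ls, ln, List.getD_cons_zero, List.getD_cons_succ, if_true, if_false, Nat.reduceAdd, Nat.reduceEqDiff, Nat.reduceLeDiff, le_refl, one_ne_zero, zero_ne_one, OfNat.ofNat_ne_zero, OfNat.ofNat_ne_one, OfNat.zero_ne_ofNat, OfNat.one_ne_ofNat, and_true, true_and]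
      repeat' apply And.intro
      all_goals omega)

lemma A5_4_12_2 (a b x y : ℕ) (h : a = 2 * y + 5 ∧ b = 4 * x + 4 * y + 39) : Good2 a b := by
  obtain ⟨rfl, rfl⟩ := h
  exact key2 _ _ (10 * x + 18 * y + 124) 76 (fun i => [1, 2, 3, y + 4, y + 5, x + y + 9, x + y + 10, x + y + 11, x + y + 12, x + 2 * y + 13, x + 2 * y + 14, x + 2 * y + 15, x + 2 * y + 16, x + 2 * y + 17, 2 * x + 2 * y + 18, 2 * x + 2 * y + 19, 2 * x + 2 * y + 20, 2 * x + 3 * y + 21, 2 * x + 3 * y + 22, 2 * x + 3 * y + 23, 2 * x + 3 * y + 24, 2 * x + 3 * y + 25, 2 * x + 3 * y + 26, 2 * x + 3 * y + 27, 2 * x + 5 * y + 28, 2 * x + 5 * y + 29, 2 * x + 5 * y + 30, 2 * x + 5 * y + 31, 3 * x + 5 * y + 35, 3 * x + 5 * y + 36, 3 * x + 5 * y + 37, 3 * x + 5 * y + 38, 3 * x + 5 * y +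 39, 3 * x + 7 * y + 40, 3 * x + 7 * y + 41, 3 * x + 7 * y + 42, 3 * x + 7 * y + 43, 3 * x + 7 * y + 44, 3 * x + 7 * y + 45, 3 * x + 7 * y + 46, 4 * x + 7 * y + 47, 4 * x + 7 * y + 48, 4 * x + 7 * y + 49, 4 * x + 7 * y + 50, 4 * x + 7 * y + 51, 4 * x + 7 * y + 52, 4 * x + 9 * y + 53, 4 * x + 9 * y + 54, 4 * x + 9 * y + 55, 4 * x + 9 * y + 56, 4 * x + 9 * y + 57, 4 * x + 9 * y + 58, 4 * x + 9 * y + 59, 4 * x + 9 * y + 60, 4 * x + 9 * y + 61, 6 * x + 9 * y + 62, 6 * x + 9 * y + 63, 6 * x + 9 * y + 64, 6 * x + 9 * y + 65, 6 * x + 9 * y + 66, 6 * x + 9 * y + 67, 6 * x + 9 * y + 68, 6 * x + 9 * y + 69, 6 * x + 10 * y + 70, 6 * x + 10 * y + 71, 6 * x + 10 * y + 72, 6 * x + 10 * y + 73, 6 * x + 11 * y + 74, 6 * x + 11 * y + 75, 6 * x + 11 * y + 76, 6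 * x + 11 * y + 77, 6 * x + 12 * y + 78, 6 * x + 12 * y + 79, 6 * x + 12 * y + 80, 6 * x + 12 * y + 81, 6 * x + 12 * y + 82, 8 * x + 12 * y + 89].getD i 0)
    ⟨0, 38, 0, 0, 59⟩ ⟨2, 16, 70, 23, 46⟩ [⟨0, 9, 0, 0, 30⟩, ⟨0, 67, 0, 0, 40⟩, ⟨1, 2, 62, 45, 6⟩] [⟨0, 44, 0, 0, 47⟩, ⟨0, 15, 0, 0, 25⟩, ⟨0, 69, 0, 0, 29⟩, ⟨2, 66, 8, 32, 33⟩, ⟨0, 7, 0, 0, 28⟩, ⟨0, 71, 0, 0, 21⟩, ⟨0, 17, 0, 0, 73⟩, ⟨0, 19, 0, 0, 72⟩, ⟨0, 18, 0, 0, 26⟩, ⟨0, 65, 0, 0, 20⟩, ⟨0, 24, 0, 0, 22⟩, ⟨0, 63, 0, 0, 3⟩, ⟨0, 43, 0, 0, 49⟩, ⟨0, 14, 0, 0, 50⟩, ⟨0, 42, 0, 0, 51⟩, ⟨2, 39, 13, 54, 55⟩, ⟨0, 12, 0, 0, 57⟩, ⟨0, 37, 0, 0, 58⟩, ⟨0, 11, 0, 0, 34⟩, ⟨0, 61, 0, 0, 35⟩, ⟨0, 10, 0, 0, 36⟩, ⟨0, 60, 0, 0, 48⟩, ⟨0, 1, 0, 0, 52⟩, ⟨0, 56, 0, 0, 53⟩, ⟨0, 0, 0, 0, 68⟩, ⟨0, 41, 0, 0, 64⟩, ⟨1,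 4, 27, 75, 74⟩, ⟨0, 5, 0, 0, 31⟩]
    (by decide +kernel) (by
      simp only [OK, W, fs, ls, ln, List.getD_cons_zero, List.getD_cons_succ, if_true, if_false, Nat.reduceAdd, Nat.reduceEqDiff, Nat.reduceLeDiff, le_refl, one_ne_zero, zero_ne_one, OfNat.ofNat_ne_zero, OfNat.ofNat_ne_one, OfNat.zero_ne_ofNat, OfNat.one_ne_ofNat, and_true, true_and]
      repeat' apply And.intro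
      all_goals omega)

lemma A7_6_18_2 (a b x y : ℕ) (h : a = 2 * y + 9 ∧ b = 4 * x + 4 * y + 35) : Good2 a b := by
  obtain ⟨rfl, rfl⟩ := h
  exact key2 _ _ (10 * x + 18 * y + 128) 76 (fun i => [1, 2, 3, 4, y + 5, y + 6, x + y + 7, x + y + 8, x + y + 9, x + y + 10, x + y + 11, x + 2 * y + 14, x + 2 * y + 15, 2 * x + 2 * y + 17, 2 * x + 2 * y + 18, 2 * x + 2 * y + 19, 2 * x + 3 * y + 20, 2 * x + 3 * y + 21, 2 * x + 3 * y + 22, 2 * x + 3 * y + 23, 2 * x + 3 * y + 24, 2 * x + 3 * y + 25, 2 * x + 3 * y + 26, 2 * x + 3 * y + 27, 2 * x + 3 * y + 28, 2 * x + 3 * y + 29, 2 * x + 5 * y + 30, 2 * x + 5 * y + 31, 2 * x + 5 * y + 32, 2 * x + 5 * y + 33, 2 * x + 5 * y + 34, 3 * x + 5 * y + 35, 3 * x + 5 * y + 36, 3 * x + 5 * y + 37, 3 * x + 5 * y + 38,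 3 * x + 5 * y + 39, 3 * x + 5 * y + 40, 3 * x + 7 * y + 45, 3 * x + 7 * y + 46, 3 * x + 7 * y + 47, 3 * x + 7 * y + 48, 4 * x + 7 * y + 50, 4 * x + 7 * y + 51, 4 * x + 7 * y + 52, 4 * x + 7 * y + 53, 4 * x + 7 * y + 54, 4 * x + 7 * y + 55, 4 * x + 9 * y + 56, 4 * x + 9 * y + 57, 4 * x + 9 * y + 58, 4 * x + 9 * y + 59, 4 * x + 9 * y + 60, 4 * x + 9 * y + 61, 4 * x + 9 * y + 62, 4 * x + 9 * y + 63, 6 * x + 9 * y + 66, 6 * x + 9 * y + 67, 6 * x + 9 * y + 68, 6 * x + 9 * y + 69, 6 * x + 10 * y + 70, 6 * x + 10 * y + 71, 6 * x + 10 * y + 72, 6 * x + 10 * y + 73, 6 * x + 11 * y + 76, 6 * x + 11 * y + 77, 6 * x + 11 * y + 78, 6 * x + 11 * y + 79, 6 * x + 11 * y + 80, 6 * x + 12 * y + 81, 6 * x + 12 * y + 82, 6 * x + 12 * y + 83, 6 * x + 12 * y + 84,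 6 * x + 12 * y + 85, 6 * x + 12 * y + 86, 6 * x + 12 * y + 87, 6 * x + 12 * y + 88, 8 * x + 12 * y + 89].getD i 0)
    ⟨0, 18, 0, 0, 21⟩ ⟨0, 71, 0, 0, 19⟩ [⟨0, 68, 0, 0, 35⟩, ⟨0, 7, 0, 0, 72⟩, ⟨0, 31, 0, 0, 66⟩, ⟨0, 11, 0, 0, 34⟩, ⟨0, 63, 0, 0, 29⟩, ⟨1, 15, 67, 25, 24⟩, ⟨0, 16, 0, 0, 73⟩] [⟨0, 17, 0, 0, 20⟩, ⟨0, 70, 0, 0, 8⟩, ⟨0, 32, 0, 0, 69⟩, ⟨0, 9, 0, 0, 38⟩, ⟨0, 61, 0, 0, 43⟩, ⟨2, 58, 3, 46, 47⟩, ⟨0, 2, 0, 0, 49⟩, ⟨0, 56, 0, 0, 50⟩, ⟨0, 1, 0, 0, 51⟩, ⟨0, 55, 0, 0, 52⟩, ⟨0, 0, 0, 0, 64⟩, ⟨0, 41, 0, 0, 4⟩, ⟨1, 62, 10, 36, 39⟩, ⟨0, 57, 0, 0, 37⟩, ⟨1, 12, 40, 54, 53⟩, ⟨0, 13, 0, 0, 45⟩, ⟨0, 48, 0, 0, 44⟩, ⟨0, 14, 0, 0, 65⟩, ⟨0, 28, 0, 0, 22⟩, ⟨0, 59, 0, 0, 27⟩, ⟨0, 23, 0, 0, 26⟩, ⟨0, 60, 0, 0, 42⟩, ⟨1, 5, 30, 75, 74⟩, ⟨0, 6, 0, 0, 33⟩]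
    (by decide +kernel) (by
      simp only [OK, W, fs, ls, ln, List.getD_cons_zero, List.getD_cons_succ, if_true, if_false, Nat.reduceAdd, Nat.reduceEqDiff, Nat.reduceLeDiff, le_refl, one_ne_zero, zero_ne_one, OfNat.ofNat_ne_zero, OfNat.ofNat_ne_one, OfNat.zero_ne_ofNat, OfNat.one_ne_ofNat, and_true, true_and]
      repeat' apply And.intro
      all_goals omega)

lemma A11_4_13_2 (a b x y : ℕ) (h : a = 2 * y + 11 ∧ b = 4 * x + 4 * y + 29) : Good2 a b := by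
  obtain ⟨rfl, rfl⟩ := h
  exact key2 _ _ (10 * x + 18 * y + 115) 68 (fun i => [1, 2, 3, y + 4, y + 5, x + y + 8, x + y + 9, x + y + 10, x + y + 11, x + 2 * y + 13, x + 2 * y + 14, x + 2 * y + 15, 2 * x + 2 * y + 16, 2 * x + 2 * y + 17, 2 * x + 2 * y + 18, 2 * x + 3 * y + 19, 2 * x + 3 * y + 20, 2 * x + 3 * y + 21, 2 * x + 3 * y + 22, 2 * x + 3 * y + 23, 2 * x + 3 * y + 24, 2 * x + 3 * y + 25, 2 * x + 5 * y + 26, 2 * x + 5 * y + 27, 2 * x + 5 * y + 28, 2 * x + 5 * y + 29, 2 * x + 5 * y + 30, 3 * x + 5 * y + 33, 3 * x + 5 * y + 34, 3 * x + 5 * y + 35, 3 * x + 7 * y + 38, 3 * x + 7 * y + 39, 3 * x + 7 * y + 40, 3 * x + 7 * y + 41, 3 * x + 7 * y + 42, 3 * x + 7 * y + 43, 4 * x + 7 * y + 44, 4 * x + 7 * y + 45, 4 * x + 7 * y + 46, 4 * x + 7 * y +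 47, 4 * x + 7 * y + 48, 4 * x + 7 * y + 49, 4 * x + 7 * y + 50, 4 * x + 9 * y + 51, 4 * x + 9 * y + 52, 4 * x + 9 * y + 53, 4 * x + 9 * y + 54, 4 * x + 9 * y + 55, 4 * x + 9 * y + 56, 4 * x + 9 * y + 57, 6 * x + 9 * y + 58, 6 * x + 9 * y + 59, 6 * x + 9 * y + 60, 6 * x + 9 * y + 61, 6 * x + 9 * y + 62, 6 * x + 10 * y + 63, 6 * x + 10 * y + 64, 6 * x + 10 * y + 65, 6 * x + 10 * y + 66, 6 * x + 10 * y + 67, 6 * x + 11 * y + 69, 6 * x + 11 * y + 70, 6 * x + 11 * y + 71, 6 * x + 11 * y + 72, 6 * x + 12 * y + 73, 6 * x + 12 * y + 74, 6 * x + 12 * y + 75, 6 * x + 12 * y + 76, 8 * x + 12 * y + 81].getD i 0)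
    ⟨0, 58, 0, 0, 3⟩ ⟨0, 66, 0, 0, 15⟩ [⟨0, 37, 0, 0, 45⟩, ⟨0, 13, 0, 0, 36⟩, ⟨0, 46, 0, 0, 52⟩, ⟨0, 0, 0, 0, 48⟩, ⟨0, 50, 0, 0, 47⟩, ⟨0, 1, 0, 0, 44⟩, ⟨0, 53, 0, 0, 32⟩, ⟨0, 10, 0, 0, 31⟩, ⟨1, 54, 2, 42, 38⟩] [⟨0, 17, 0, 0, 65⟩, ⟨0, 16, 0, 0, 64⟩, ⟨0, 18, 0, 0, 25⟩, ⟨0, 56, 0, 0, 20⟩, ⟨0, 23, 0, 0, 19⟩, ⟨0, 57, 0, 0, 33⟩, ⟨0, 6, 0, 0, 28⟩, ⟨2, 14, 63, 21, 22⟩, ⟨0, 62, 0, 0, 24⟩, ⟨0, 12, 0, 0, 40⟩, ⟨0, 43, 0, 0, 41⟩, ⟨2, 35, 11, 49, 51⟩, ⟨0, 9, 0, 0, 60⟩, ⟨0, 27, 0, 0, 61⟩, ⟨2, 59, 8, 29, 30⟩, ⟨0, 7, 0, 0, 34⟩, ⟨0, 55, 0, 0, 39⟩, ⟨1, 4, 26, 67, 5⟩]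
    (by decide +kernel) (by
      simp only [OK, W, fs, ls, ln, List.getD_cons_zero, List.getD_cons_succ, if_true, if_false, Nat.reduceAdd, Nat.reduceEqDiff, Nat.reduceLeDiff, le_refl, one_ne_zero, zero_ne_one, OfNat.ofNat_ne_zero, OfNat.ofNat_ne_one, OfNat.zero_ne_ofNat, OfNat.one_ne_ofNat, and_true, true_and]
      repeat' apply And.intro
      all_goals omega)

end Pool.Agent.H6.GS
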