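import Pool.Agent.H6.TC2a
import Pool.Agent.H6.TC2b
import Pool.Agent.H6.TC2c
import Pool.Agent.H6.TC2d

set_option autoImplicit false

namespace Pool.Agent.H6.GS

lemma cl00 (p q : ℕ) (h1 : 3 ≤ 2 * p + 0) (h2 : 2 * p + 0 ≤ 4 * q + 0) (h3 : 60 ≤ 2 * p + 0 + (4 * q + 0)) :
    Good2 (2 * p + 0) (4 * q + 0) := by
  have : (10 ≤ q ∧ p = 2) ∨ (2 * q + 11 ≤ 2 * p ∧ p ≤ 2 * q) ∨ (2 * q ≤ 2 * p + 4 ∧ p + 10 ≤ 2 * q) ∨ (2 * q ≤ 2 * p + 1 ∧ p + 8 ≤ 2 * q) ∨ (2 * q + 5 ≤ 2 * p ∧ p + 4 ≤ 2 * q) ∨ (2 * q ≤ 2 * p + 10 ∧ p + 14 ≤ 2 * q) ∨ (p + 6 ≤ q ∧ 3 ≤ p) := by omega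
  rcases this with c | c | c | c | c | c | c
  · exact C4_2_7_2 _ _ (q - (10)) (0 - (0)) (by omega)
  · exact B22_2_7_2 _ _ (2 * p - (2 * q + 11)) (2 * q - (p)) (by omega)
  · exact B12_2_7_2 _ _ (2 * p + 4 - (2 * q)) (2 * q - (p + 10)) (by omega)
  · exact B14_2_7_2 _ _ (2 * p + 1 - (2 * q)) (2 * q - (p + 8)) (by omega)
  · exact B18_2_7_2 _ _ (2 * p - (2 * q + 5)) (2 * q - (p + 4)) (by omega)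
  · exact B8_2_7_2 _ _ (2 * p + 10 - (2 * q)) (2 * q - (p + 14)) (by omega)
  · exact A4_4_12_2 _ _ (q - (p + 6)) (p - (3)) (by omega)

lemma cl02 (p q : ℕ) (h1 : 3 ≤ 2 * p + 0) (h2 : 2 * p + 0 ≤ 4 * q + 2) (h3 : 60 ≤ 2 * p + 0 + (4 * q + 2)) :
    Good2 (2 * p + 0) (4 * q + 2) := by
  have : (2 * q + 12 ≤ 2 * p ∧ p ≤ 2 * q + 1) ∨ (2 * q ≤ 2 * p + 3 ∧ p + 9 ≤ 2 * q) ∨ (2 * q ≤ 2 * p ∧ p + 7 ≤ 2 * q) ∨ (2 * q + 6 ≤ 2 * p ∧ p + 3 ≤ 2 * q) ∨ (p + 8 ≤ q ∧ 2 ≤ p) ∨ (p + 2 ≤ q ∧ 5 ≤ p) := by omega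
  rcases this with c | c | c | c | c | c
  · exact B22_2_7_2 _ _ (2 * p - (2 * q + 12)) (2 * q + 1 - (p)) (by omega)
  · exact B12_2_7_2 _ _ (2 * p + 3 - (2 * q)) (2 * q - (p + 9)) (by omega)
  · exact B14_2_7_2 _ _ (2 * p - (2 * q)) (2 * q - (p + 7)) (by omega)
  · exact B18_2_7_2 _ _ (2 * p - (2 * q + 6)) (2 * q - (p + 3)) (by omega)
  · exact A2_4_13_2 _ _ (q - (p + 8)) (p - (2)) (by omega)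
  · exact A8_6_18_2 _ _ (q - (p + 2)) (p - (5)) (by omega)

lemma cl11 (p q : ℕ) (h1 : 3 ≤ 2 * p + 1) (h2 : 2 * p + 1 ≤ 4 * q + 1) (h3 : 60 ≤ 2 * p + 1 + (4 * q + 1)) :
    Good2 (2 * p + 1) (4 * q + 1) := by
  have : (10 ≤ q ∧ p = 1) ∨ (2 * q ≤ 2 * p + 3 ∧ p + 9 ≤ 2 * q) ∨ (2 * q + 3 ≤ 2 * p ∧ p + 5 ≤ 2 * q) ∨ (2 * q + 10 ≤ 2 * p ∧ p ≤ 2 * q) ∨ (p + 9 ≤ q ∧ 2 ≤ p) ∨ (p + 2 ≤ q ∧ 5 ≤ p) := by omega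
  rcases this with c | c | c | c | c | c
  · exact C3_2_7_2 _ _ (q - (10)) (0 - (0)) (by omega)
  · exact B13_2_7_2 _ _ (2 * p + 3 - (2 * q)) (2 * q - (p + 9)) (by omega)
  · exact B17_2_7_2 _ _ (2 * p - (2 * q + 3)) (2 * q - (p + 5)) (by omega)
  · exact B23_4_12_2 _ _ (2 * p - (2 * q + 10)) (2 * q - (p)) (by omega)
  · exact A3_4_13_2 _ _ (q - (p + 9)) (p - (2)) (by omega)
  · exact A11_4_13_2 _ _ (q - (p + 2)) (p - (5)) (by omega)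

lemma cl13 (p q : ℕ) (h1 : 3 ≤ 2 * p + 1) (h2 : 2 * p + 1 ≤ 4 * q + 3) (h3 : 60 ≤ 2 * p + 1 + (4 * q + 3)) :
    Good2 (2 * p + 1) (4 * q + 3) := by
  have : (11 ≤ q ∧ p = 1) ∨ (2 * q + 4 ≤ 2 * p ∧ p + 4 ≤ 2 * q) ∨ (p + 7 ≤ q ∧ 2 ≤ p) ∨ (2 * q + 11 ≤ 2 * p ∧ p ≤ 2 * q + 1) ∨ (2 * q + 9 ≤ 2 * p ∧ p + 1 ≤ 2 * q) ∨ (p + 4 ≤ q ∧ 4 ≤ p) ∨ (p ≤ q + 1 ∧ 7 ≤ p) := by omega
  rcases this with c | c | c | c | c | c | c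
  · exact C3_2_7_2 _ _ (q - (11)) (1 - (0)) (by omega)
  · exact B17_2_7_2 _ _ (2 * p - (2 * q + 4)) (2 * q - (p + 4)) (by omega)
  · exact A5_4_12_2 _ _ (q - (p + 7)) (p - (2)) (by omega)
  · exact B23_4_12_2 _ _ (2 * p - (2 * q + 11)) (2 * q + 1 - (p)) (by omega)
  · exact B21_4_12_2 _ _ (2 * p - (2 * q + 9)) (2 * q - (p + 1)) (by omega)
  · exact A7_6_18_2 _ _ (q - (p + 4)) (p - (4)) (by omega)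
  · exact A15_6_18_2 _ _ (q + 1 - (p)) (p - (7)) (by omega)

lemma big (a b : ℕ) (h1 : 3 ≤ a) (h2 : a ≤ b) (h3 : 60 ≤ a + b) (h4 : (a + b) % 2 = 0) :
    Good2 a b := by
  obtain ⟨p, hp⟩ : ∃ p, a = 2 * p + 0 ∨ a = 2 * p + 1 := ⟨a / 2, by omega⟩
  obtain ⟨q, hq⟩ : ∃ q, b = 4 * q + 0 ∨ b = 4 * q + 1 ∨ b = 4 * q + 2 ∨ b = 4 * q + 3 :=
    ⟨b / 4, by omega⟩
  rcases hp with rfl | rfl <;> rcases hq with rfl | rfl | rfl | rfl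
  · exact cl00 p q h1 h2 h3
  · omega
  · exact cl02 p q h1 h2 h3
  · omega
  · omega
  · exact cl11 p q h1 h2 h3
  · omega
  · exact cl13 p q h1 h2 h3

end Pool.Agent.H6.GS
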