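import Pool.Agent.H6.TC1

set_option autoImplicit false

namespace Pool.Agent.H6.GS

def mask : List ℕ → ℕ
  | [] => 0
  | x :: L => 2 ^ x ||| mask L

lemma mask_bit (i : ℕ) : ∀ L : List ℕ, (mask L).testBit i = true ↔ i ∈ L
  | [] => by simp [mask]
  | x :: L => by
    rw [mask, Nat.testBit_or, Bool.or_eq_true, mask_bit i L, Nat.testBit_two_pow, List.mem_cons,
      decide_eq_true_iff, eq_comm]

lemma mask_disj (L M : List ℕ) (h : ∀ a ∈ L, ∀ b ∈ M, a ≠ b) : mask L &&& mask M = 0 := by
  refine Nat.eq_of_testBit_eq fun i => ?_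
  rw [Nat.testBit_and, Nat.zero_testBit, Bool.and_eq_false_imp]
  intro h1
  rw [← Bool.not_eq_true]
  exact fun h2 => h i ((mask_bit i L).1 h1) i ((mask_bit i M).1 h2) rfl

lemma of_mask (a b j : ℕ) (A B : List ℕ) (h : A.length = a ∧ B.length = b ∧
    mask ((A ++ Z j A) ++ (B ++ Z j B)) = mask (List.range' 1 (2 * (a + b)))) : Good2 a b := by
  obtain ⟨rfl, rfl, h⟩ := h
  refine (of_lists2 (A.length + B.length) j A B ?_).1
  simp only [Multiset.coe_add]
  symm
  refine Multiset.eq_of_le_of_card_le ((Multiset.le_iff_subset Multiset.nodup_Ico).2 fun i hi => ?_) ?_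
  · rw [Multiset.mem_Ico] at hi
    rw [Multiset.mem_coe, ← mask_bit, h, mask_bit, List.mem_range'_1]
    omega
  · simp only [Multiset.coe_card, List.length_append, Z_len, SEM.card_I]
    omega

end Pool.Agent.H6.GS
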