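import Pool.Agent.H6.TC4

set_option autoImplicit false

namespace Pool.Agent.H6.GS

def SS : List (List ℕ) := [[], [], [], [], [], [], [], [], [], [126], [126, 190, 238], [126, 222, 350, 374, 462], [126, 190, 222, 246, 250, 252, 378, 414, 442, 630, 670, 726, 910], [246, 252, 350, 380, 414, 438, 476, 798, 858, 1206, 1254, 1310, 1430, 1806], [238, 250, 252, 438, 444, 486, 490, 670, 700, 730, 748, 798, 822, 924, 1242, 1258, 1386, 1566, 1690, 2278, 2358, 2470, 2590, 2838, 3598], [252, 374, 378, 380, 444, 486, 492, 500, 504, 630, 756, 822, 828, 870, 882, 884, 1260, 1310, 1340, 1370, 1394, 1452, 1566, 1590, 1650, 1820, 2394, 2730, 3102, 3354, 4454, 4550, 4662, 4902, 5150, 5654, 7182], [442, 462, 490, 492, 504, 700, 730, 760, 828, 870, 876, 952, 966, 970, 1206, 1450, 1458, 1590, 1596, 1638, 1716, 2412, 2482, 2508, 2590, 2620, 2650, 2860, 3102, 3126, 3250, 3612, 4522, 4554, 4698, 4810, 5418, 6174, 6682], [476, 500, 504,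 726, 876, 888, 966, 972, 980, 1242, 1340, 1370, 1400, 1460, 1496, 1596, 1638, 1644, 1734, 1746, 1848, 2358, 2484, 2516, 2730, 2772, 3126, 3132, 3174, 3380, 4556, 4716, 4818, 4940, 5150, 5180, 5210, 5330, 5676, 6174, 6198, 6450, 7196], [504, 748, 756, 760, 858, 882, 888, 910, 970, 972, 984, 1000, 1008, 1254, 1258, 1260, 1450, 1512, 1644, 1656, 1734, 1740, 1764, 1768, 1926, 1930, 2278, 2394, 2520, 2620, 2650, 2680, 2740, 2788, 2890, 2898, 2904, 3132, 3174, 3180, 3270, 3298, 3300, 3640, 4662, 4788, 4914, 5290, 5346, 5460, 6198, 6204, 6246, 6370, 6708], [884, 924, 980, 984, 1008, 1386, 1394, 1400, 1430, 1458, 1460, 1520, 1656, 1740, 1752, 1904, 1926, 1932, 1940, 2412, 2730, 2900, 2916, 3180, 3192, 3270, 3276, 3432, 3462, 3474, 4454, 4698, 4824, 4964, 5016, 5180, 5210, 5240, 5300, 5450, 5474, 5720, 6204, 6246, 6252, 6342, 6500, 7224], [952, 1000, 1008, 1452, 1650, 1690, 1746, 1752, 1776, 1806, 1930, 1932, 1944, 1960,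 2470, 2482, 2484, 2680, 2740, 2800, 2890, 2920, 2992, 3192, 3276, 3288, 3462, 3468, 3492, 3696, 3846, 3850, 4522, 4716, 4968, 5032, 5290, 5460, 5544, 5770, 5778, 6252, 6264, 6342, 6348, 6534, 6562, 6760], [1008, 1496, 1512, 1520, 1716, 1764, 1776, 1820, 1940, 1944, 1968, 2000, 2016, 2508, 2516, 2520, 2730, 2838, 2898, 2900, 3024, 3288, 3312, 3468, 3480, 3528, 3536, 3846, 3852, 3860, 4550, 4554, 4556, 4788, 4914, 5040, 5240, 5300, 5360, 5450, 5480, 5576, 5780, 5796, 5808, 6264, 6348, 6360, 6534, 6540, 6596, 6600, 6918, 6930, 7280], [1768, 1848, 1960, 1968, 2016, 2772, 2788, 2800, 2860, 2916, 2920, 3040, 3250, 3298, 3312, 3354, 3474, 3480, 3504, 3598, 3808, 3850, 3852, 3864, 3880, 4810, 4818, 4824, 4902, 5460, 5770, 5800, 5832, 6360, 6384, 6540, 6552, 6864, 6918, 6924, 6948, 7686, 7690], [1904, 2000, 2016, 2904, 3300, 3380, 3492, 3504, 3552, 3612, 3860, 3864, 3888, 3920, 4940, 4964, 4968, 5330, 5346, 5360, 5418, 5474,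 5480, 5600, 5654, 5778, 5780, 5840, 5984, 6384, 6552, 6576, 6924, 6936, 6984, 7392, 7686, 7692, 7700], [2016, 2992, 3024, 3040, 3432, 3528, 3552, 3640, 3880, 3888, 3936, 4000, 4032, 5016, 5032, 5040, 5460, 5676, 5796, 5800, 6048, 6370, 6450, 6562, 6576, 6624, 6682, 6930, 6936, 6960, 7056, 7072, 7182, 7690, 7692, 7704, 7720], [3536, 3696, 3920, 3936, 4032, 5544, 5576, 5600, 5720, 5832, 5840, 6080, 6500, 6596, 6624, 6708, 6948, 6960, 7008, 7196, 7616, 7700, 7704, 7728, 7760], [3808, 4000, 4032, 5808, 6600, 6760, 6984, 7008, 7104, 7224, 7720, 7728, 7776, 7840], [4032, 5984, 6048, 6080, 6864, 7056, 7104, 7280, 7760, 7776, 7872, 8000, 8064], [7072, 7392, 7840, 7872, 8064], [7616, 8000, 8064], [8064], [], [], [], [], [], []]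

def P (a : ℕ) : Prop := ∀ b ∈ List.range' 1 12, a ≠ b → ∀ x ∈ List.range' 1 12, x ≠ a → x ≠ b →
    ∀ c ∈ List.range' 1 12, c ≠ a → c ≠ b → c ≠ x → c < a + x → c < b + x → a + x - c ≤ 12 → b + x - c ≤ 12 →
    [a + x - c, b + x - c, a, b, x, c].Nodup →
    mask [a, b, x, c, a + x - c, b + x - c] ∈ SS.getD (a + x + b) []

lemma p1 : P 1 := by
  unfold P
  decide +kernel

lemma p2 : P 2 := by
  unfold P
  decide +kernel

lemma p3 : P 3 := by
  unfold P
  decide +kernel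

lemma p4 : P 4 := by
  unfold P
  decide +kernel

lemma p5 : P 5 := by
  unfold P
  decide +kernel

lemma p6 : P 6 := by
  unfold P
  decide +kernel

lemma p7 : P 7 := by
  unfold P
  decide +kernel

lemma p8 : P 8 := by
  unfold P
  decide +kernel

lemma p9 : P 9 := by
  unfold P
  decide +kernel

lemma p10 : P 10 := by
  unfold P
  decide +kernel

lemma p11 : P 11 := by
  unfold P
  decide +kernel

lemma p12 : P 12 := by
  unfold P
  decide +kernel

lemma n1 (a : ℕ) (h1 : 1 ≤ a) (h2 : a ≤ 12) : P a := by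
  interval_cases a
  exacts [p1, p2, p3, p4, p5, p6, p7, p8, p9, p10, p11, p12]

lemma n2 : ∀ k ∈ List.range 37, ∀ m ∈ SS.getD k [], ∀ m' ∈ SS.getD k [], m &&& m' ≠ 0 := by
  decide +kernel

lemma n3 (k a b c x y z : ℕ) (h : a + x + b = k ∧ b + y + c = k ∧ c + z + a = k)
    (r : ∀ t ∈ [a, b, x, c, y, z], 1 ≤ t ∧ t ≤ 12) (N : [a, b, x, c, y, z].Nodup) :
    mask [a, b, x, c, y, z] ∈ SS.getD k [] ∧ k < 37 := by
  have N0 : [y, z, a, b, x, c].Nodup :=
    (List.perm_append_comm (l₁ := [a, b, x, c]) (l₂ := [y, z])).nodup N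
  simp only [List.mem_cons, List.not_mem_nil, or_false, forall_eq_or_imp, forall_eq] at r
  simp only [List.nodup_cons, List.mem_cons, not_or] at N
  have := n1 a (by omega) (by omega) b (List.mem_range'_1.2 (by omega)) (by omega) x
    (List.mem_range'_1.2 (by omega)) (by omega) (by omega) c (List.mem_range'_1.2 (by omega))
    (by omega) (by omega) (by omega) (by omega) (by omega)
  rw [show a + x - c = y by omega, show b + x - c = z by omega, h.1] at this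
  exact ⟨this (by omega) (by omega) N0, by omega⟩

lemma no33 : ¬ Good2 3 3 := by
  rintro ⟨v, e, k, h1, h2, h3, h4⟩
  have N : ([Sum.inl (Sum.inl 0), Sum.inl (Sum.inl 1), Sum.inr (Sum.inl 0), Sum.inl (Sum.inl 2),
      Sum.inr (Sum.inl 1), Sum.inr (Sum.inl 2)].map (Sum.elim v e) ++
      [Sum.inl (Sum.inr 0), Sum.inl (Sum.inr 1), Sum.inr (Sum.inr 0), Sum.inl (Sum.inr 2),
      Sum.inr (Sum.inr 1), Sum.inr (Sum.inr 2)].map (Sum.elim v e)).Nodup := by
    rw [← List.map_append]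
    exact List.Nodup.map h1 (by decide)
  obtain ⟨N1, N2, N3⟩ := List.nodup_append.1 N
  have r : ∀ (L : List ((Fin 3 ⊕ Fin 3) ⊕ (Fin 3 ⊕ Fin 3))), ∀ t ∈ L.map (Sum.elim v e),
      1 ≤ t ∧ t ≤ 12 := by
    intro L t q
    obtain ⟨x, -, rfl⟩ := List.mem_map.1 q
    exact h2 x
  have A := n3 k _ _ _ _ _ _ ⟨h3 0 1 rfl, h3 1 2 rfl, h3 2 0 rfl⟩ (r [Sum.inl (Sum.inl 0), Sum.inl (Sum.inl 1), Sum.inr (Sum.inl 0), Sum.inl (Sum.inl 2),
      Sum.inr (Sum.inl 1), Sum.inr (Sum.inl 2)]) N1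
  have B := n3 k _ _ _ _ _ _ ⟨h4 0 1 rfl, h4 1 2 rfl, h4 2 0 rfl⟩ (r [Sum.inl (Sum.inr 0), Sum.inl (Sum.inr 1), Sum.inr (Sum.inr 0), Sum.inl (Sum.inr 2),
      Sum.inr (Sum.inr 1), Sum.inr (Sum.inr 2)]) N2
  exact n2 k (List.mem_range.2 A.2) _ A.1 _ B.1 (mask_disj _ _ N3)

end Pool.Agent.H6.GS
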