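import Pool.Agent.H6.TC3
import Pool.Agent.H6.TC5
import Pool.Agent.H6.TC6

set_option autoImplicit false

namespace Pool.Agent.H6.GS

theorem good2_le (m n : ℕ) (hn : 3 ≤ n) (hmn : n ≤ m) (h : ¬ (m = 3 ∧ n = 3)) : Good2 m n := by
  by_cases p : (n + m) % 2 = 0
  · by_cases q : n + m < 60
    · exact (small n m (by omega)).symm
    · exact (big n m hn hmn (by omega) p).symm
  · by_cases q : n + m = 7
    · exact (small n m (by omega)).symm
    · exact of_sem ((Pool.Agent.H6.SEM.main m n (by omega) hn (by omega)).2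
        (Nat.odd_iff.2 (by omega)))

theorem good2 (m n : ℕ) (hm : 3 ≤ m) (hn : 3 ≤ n) (h : ¬ (m = 3 ∧ n = 3)) : Good2 m n := by
  rcases le_total n m with q | q
  · exact good2_le m n hn q h
  · exact (good2_le n m hm q (by omega)).symm

theorem vmtl (m n : ℕ) (hm : 3 ≤ m) (hn : 3 ≤ n) (h : ¬ (m = 3 ∧ n = 3)) :
    ∃ v e : Fin m ⊕ Fin n → ℕ, ∃ k : ℕ,
      Set.BijOn (Sum.elim v e) Set.univ (Set.Icc 1 ((m + n) + (m + n))) ∧
      (∀ i j : Fin m, j.val = (i.val + 1) % m →
        v (Sum.inl i) + (e (Sum.inl i) + e (Sum.inl j)) = k) ∧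
      (∀ i j : Fin n, j.val = (i.val + 1) % n →
        v (Sum.inr i) + (e (Sum.inr i) + e (Sum.inr j)) = k) := by
  obtain ⟨v, e, k, h1, h2, h3, h4⟩ := good2 m n hm hn h
  have s : Sum.elim e v = Sum.elim v e ∘ Sum.swap := by
    funext x; cases x <;> rfl
  have g1 : Function.Injective (Sum.elim e v) := by
    rw [s]; exact h1.comp Sum.swap_leftInverse.injective
  have g2 : ∀ x, 1 ≤ Sum.elim e v x ∧ Sum.elim e v x ≤ 2 * (m + n) := fun x => by
    rw [s]; exact h2 _
  refine ⟨e, v, k, ⟨fun x _ => ?_, g1.injOn, ?_⟩, fun i j q => ?_, fun i j q => ?_⟩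
  · have := g2 x
    constructor <;> omega
  · have q : Finset.univ.image (Sum.elim e v) = Finset.Icc 1 ((m + n) + (m + n)) := by
      refine Finset.eq_of_subset_of_card_le (fun x hx => ?_) ?_
      · obtain ⟨y, -, rfl⟩ := Finset.mem_image.1 hx
        have := g2 y
        exact Finset.mem_Icc.2 (by omega)
      · rw [Finset.card_image_of_injective _ g1]; simp
    intro x hx
    have : x ∈ Finset.univ.image (Sum.elim e v) := by
      rw [q]; exact Finset.mem_Icc.2 hx
    obtain ⟨y, -, rfl⟩ := Finset.mem_image.1 this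
    exact ⟨y, Set.mem_univ y, rfl⟩
  · have := h3 i j q
    omega
  · have := h4 i j q
    omega

theorem vmtl33 : ¬ ∃ v e : Fin 3 ⊕ Fin 3 → ℕ, ∃ k : ℕ,
      Set.BijOn (Sum.elim v e) Set.univ (Set.Icc 1 ((3 + 3) + (3 + 3))) ∧
      (∀ i j : Fin 3, j.val = (i.val + 1) % 3 →
        v (Sum.inl i) + (e (Sum.inl i) + e (Sum.inl j)) = k) ∧
      (∀ i j : Fin 3, j.val = (i.val + 1) % 3 →
        v (Sum.inr i) + (e (Sum.inr i) + e (Sum.inr j)) = k) := by
  rintro ⟨v, e, k, h1, h3, h4⟩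
  have s : Sum.elim e v = Sum.elim v e ∘ Sum.swap := by
    funext x; cases x <;> rfl
  refine no33 ⟨e, v, k, ?_, fun x => ?_, fun i j q => ?_, fun i j q => ?_⟩
  · rw [s]; exact (Set.injOn_univ.1 h1.injOn).comp Sum.swap_leftInverse.injective
  · rw [s]; exact h1.mapsTo (Set.mem_univ _)
  · have := h3 i j q
    omega
  · have := h4 i j q
    omega

end Pool.Agent.H6.GS
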