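import Mathlib

set_option autoImplicit false

namespace Pool.Agent.H6.TPI

universe u

inductive Tm
  | v (i : ℕ)
  | b (s t : Tm)
  | m (s t : Tm)

open Tm

def x0 := v 0
def x1 := v 1
def x2 := v 2
def x3 := v 3
def x4 := v 4

def beq : Tm → Tm → Bool
  | v i, v j => Nat.beq i j
  | b s t, b s' t' => beq s s' && beq t t'
  | m s t, m s' t' => beq s s' && beq t t'
  | _, _ => false

lemma beq_eq : ∀ s t : Tm, beq s t = true → s = t := by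
  intro s
  induction s with
  | v i => rintro (j | _ | _) h <;> simp_all [beq]
  | b s t h1 h2 =>
    rintro (_ | ⟨s', t'⟩ | _) h <;> simp only [beq, Bool.and_eq_true, Bool.false_eq_true] at h
    rw [h1 _ h.1, h2 _ h.2]
  | m s t h1 h2 =>
    rintro (_ | _ | ⟨s', t'⟩) h <;> simp only [beq, Bool.and_eq_true, Bool.false_eq_true] at h
    rw [h1 _ h.1, h2 _ h.2]

def code : Tm → ℕ
  | v i => 7919 * i + 104729
  | b s t => (code s * 1000003 + code t * code t * 15485863 + 11) % 1000000000039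
  | m s t => (code s * 3000017 + code t * code t * 32452843 + 17) % 1000000000039

def canon : Tm → ℤ × Tm
  | v i => (1, v i)
  | b s t =>
    match canon s, canon t with
    | (c, s'), (d, t') =>
      if beq s' t' then (0, s') else
      if Nat.ble (code s') (code t') then (c * d, b s' t') else (-(c * d), b t' s')
  | m s t =>
    match canon s, canon t with
    | (c, s'), (d, t') =>
      if Nat.ble (code s') (code t') then (c * d, m s' t') else (c * d, m t' s')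

structure Rel where
  c : ℤ
  k : Bool
  A : Tm
  B : Tm
  C : Tm
  ctx : List (Bool × Tm)

def wrap (ctx : List (Bool × Tm)) (t : Tm) : Tm :=
  ctx.foldr (fun p t => if p.1 then b p.2 t else m p.2 t) t

def expand (r : Rel) : List (ℤ × Tm) :=
  if r.k then [(r.c, wrap r.ctx (b r.A (b r.B r.C))), (r.c, wrap r.ctx (b r.B (b r.C r.A))),
    (r.c, wrap r.ctx (b r.C (b r.A r.B)))]
  else [(2 * r.c, wrap r.ctx (m r.A (b r.B r.C))), (-r.c, wrap r.ctx (b (m r.A r.B) r.C)),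
    (-r.c, wrap r.ctx (b r.B (m r.A r.C)))]

inductive BT
  | nil
  | node (l : BT) (k : ℕ) (t : Tm) (c : ℤ) (r : BT)

def ins (k : ℕ) (t : Tm) (c : ℤ) : BT → BT
  | .nil => .node .nil k t c .nil
  | .node l k' t' c' r =>
    if Nat.beq k k' && beq t t' then .node l k' t' (c + c') r else
    if Nat.ble k k' then .node (ins k t c l) k' t' c' r else .node l k' t' c' (ins k t c r)

def allZ : BT → Bool
  | .nil => true
  | .node l _ _ c r => decide (c = 0) && allZ l && allZ r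

def build : List (ℤ × Tm) → BT
  | [] => .nil
  | p :: l => match canon p.2 with
    | (c, t) => ins (code t) t (p.1 * c) (build l)

section
variable {F A : Type u} [Field F] [AddCommGroup A] [Module F A]
  (mul br : A →ₗ[F] A →ₗ[F] A) (ρ : ℕ → A)

def ev : Tm → A
  | v i => ρ i
  | b s t => br (ev s) (ev t)
  | m s t => mul (ev s) (ev t)

def evL (l : List (ℤ × Tm)) : A := (l.map fun p => p.1 • ev mul br ρ p.2).sum

def evT : BT → A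
  | .nil => 0
  | .node l _ t c r => evT l + c • ev mul br ρ t + evT r

lemma evT_ins (k : ℕ) (t : Tm) (c : ℤ) (T : BT) :
    evT mul br ρ (ins k t c T) = c • ev mul br ρ t + evT mul br ρ T := by
  induction T with
  | nil => simp [ins, evT]
  | node l k' t' c' r h1 h2 =>
    unfold ins
    split_ifs with a1 a2
    · rw [Bool.and_eq_true] at a1
      rw [beq_eq _ _ a1.2]
      simp only [evT, add_smul]
      abel
    · simp only [evT, h1]; abel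
    · simp only [evT, h2]; abel

lemma evT_zero (T : BT) (h : allZ T = true) : evT mul br ρ T = 0 := by
  induction T with
  | nil => rfl
  | node l k t c r h1 h2 =>
    simp only [allZ, Bool.and_eq_true, decide_eq_true_eq] at h
    simp [evT, h1 h.1.2, h2 h.2, h.1.1]

variable (hc : ∀ x y, mul x y = mul y x) (hs : ∀ x, br x x = 0)
include hc hs

lemma canon_ok (t : Tm) : ev mul br ρ t = (canon t).1 • ev mul br ρ (canon t).2 := by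
  have hk : ∀ x y, br x y = -br y x := by
    intro x y
    have := hs (x + y)
    simp only [map_add, LinearMap.add_apply, hs, zero_add, add_zero] at this
    exact eq_neg_of_add_eq_zero_right this
  induction t with
  | v i => simp [canon]
  | b s t h1 h2 =>
    simp only [canon, ev]
    rw [h1, h2]
    generalize canon s = p
    generalize canon t = q
    obtain ⟨c, s'⟩ := p
    obtain ⟨d, t'⟩ := q
    simp only [map_zsmul, LinearMap.smul_apply]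
    split_ifs with a1 a2
    · rw [beq_eq _ _ a1, hs]; simp
    · simp only [ev, smul_smul, mul_comm]
    · simp only [ev, smul_smul, neg_smul]
      rw [hk, smul_neg, mul_comm]
  | m s t h1 h2 =>
    simp only [canon, ev]
    rw [h1, h2]
    generalize canon s = p
    generalize canon t = q
    obtain ⟨c, s'⟩ := p
    obtain ⟨d, t'⟩ := q
    simp only [map_zsmul, LinearMap.smul_apply]
    split_ifs with a1
    · simp only [ev, smul_smul, mul_comm]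
    · simp only [ev, smul_smul]
      rw [hc, mul_comm]

lemma build_ok (l : List (ℤ × Tm)) : evT mul br ρ (build l) = evL mul br ρ l := by
  induction l with
  | nil => rfl
  | cons p l ih =>
    have h := canon_ok mul br ρ hc hs p.2
    simp only [build, evL, List.map_cons, List.sum_cons] at ih ⊢
    rw [evT_ins, ih, h, smul_smul]

omit hc hs in
lemma wrap_ok (ctx : List (Bool × Tm)) : ∃ φ : A →ₗ[F] A, ∀ t,
    ev mul br ρ (wrap ctx t) = φ (ev mul br ρ t) := by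
  induction ctx with
  | nil => exact ⟨LinearMap.id, fun _ => rfl⟩
  | cons p ctx ih =>
    obtain ⟨φ, h⟩ := ih
    obtain ⟨k, s⟩ := p
    cases k
    · exact ⟨mul (ev mul br ρ s) ∘ₗ φ, fun t => by rw [LinearMap.comp_apply, ← h]; rfl⟩
    · exact ⟨br (ev mul br ρ s) ∘ₗ φ, fun t => by rw [LinearMap.comp_apply, ← h]; rfl⟩

omit hc hs in
lemma expand_ok (hj : ∀ x y z, br x (br y z) + br y (br z x) + br z (br x y) = 0)
    (ht : ∀ x y z, (2 : F) • mul z (br x y) = br (mul z x) y + br x (mul z y)) (r : Rel) :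
    evL mul br ρ (expand r) = 0 := by
  obtain ⟨φ, h⟩ := wrap_ok mul br ρ r.ctx
  unfold expand
  split_ifs
  · simp only [evL, List.map_cons, List.map_nil, List.sum_cons, List.sum_nil, h, ev, add_zero]
    rw [← smul_add, ← smul_add, ← map_add, ← map_add, ← add_assoc, hj, map_zero, smul_zero]
  · simp only [evL, List.map_cons, List.map_nil, List.sum_cons, List.sum_nil, h, ev, add_zero]
    have := congrArg φ (ht (ev mul br ρ r.B) (ev mul br ρ r.C) (ev mul br ρ r.A))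
    rw [two_smul, map_add, map_add] at this
    rw [← smul_add, ← this, mul_comm, mul_smul, two_smul, neg_smul, add_neg_cancel]

end

def cert0 : List Rel := [
  ⟨(4), false, (b (b (b x0 x4) x2) x4), x1, x3, []⟩,
  ⟨(4), false, x3, (b (b (b x0 x4) x2) x4), x1, []⟩,
  ⟨(-8), true, (b (b x0 x4) x2), x1, x4, [(false, x3)]⟩,
  ⟨(16), true, (b x0 x4), x1, x2, [(false, x3), (true, x4)]⟩,
  ⟨(-4), false, x1, (b (b (b x0 x4) x2) x4), x3, []⟩,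
  ⟨(6), true, (b x0 x4), x2, x4, [(false, (b x1 x3))]⟩,
  ⟨(3), false, (b (b (b x2 x3) x4) x4), x0, x1, []⟩,
  ⟨(3), false, x1, (b (b (b x2 x3) x4) x4), x0, []⟩,
  ⟨(6), true, (b x2 x3), x0, x4, [(false, x1), (true, x4)]⟩,
  ⟨(-6), true, (b (b x2 x3) x4), x0, x4, [(false, x1)]⟩,
  ⟨(6), true, x0, x2, x3, [(false, x1), (true, x4), (true, x4)]⟩,
  ⟨(10), true, (b x1 x4), (b x2 x3), x4, [(false, x0)]⟩,
  ⟨(-3), false, x0, (b (b (b x2 x3) x4) x4), x1, []⟩,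
  ⟨(-6), true, (b x2 x3), x1, x4, [(false, x0), (true, x4)]⟩,
  ⟨(6), true, (b (b x2 x3) x4), x1, x4, [(false, x0)]⟩,
  ⟨(-6), true, x1, x2, x3, [(false, x0), (true, x4), (true, x4)]⟩,
  ⟨(-4), false, (b (b (b x0 x4) x3) x4), x1, x2, []⟩,
  ⟨(-4), false, x2, (b (b (b x0 x4) x3) x4), x1, []⟩,
  ⟨(8), true, (b (b x0 x4) x3), x1, x4, [(false, x2)]⟩,
  ⟨(-16), true, (b x0 x4), x1, x3, [(false, x2), (true, x4)]⟩,
  ⟨(4), false, x1, (b (b (b x0 x4) x3) x4), x2, []⟩,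
  ⟨(-8), true, (b (b x0 x4) x3), x2, x4, [(false, x1)]⟩,
  ⟨(16), true, (b x0 x4), x2, x3, [(false, x1), (true, x4)]⟩,
  ⟨(-6), true, (b x0 x4), x3, x4, [(false, (b x1 x2))]⟩,
  ⟨(-10), true, (b x0 x4), (b x2 x3), x4, [(false, x1)]⟩,
  ⟨(4), false, (b (b (b x0 x4) x4) x3), x1, x2, []⟩,
  ⟨(4), false, x2, (b (b (b x0 x4) x4) x3), x1, []⟩,
  ⟨(-8), true, (b (b x0 x4) x4), x1, x3, [(false, x2)]⟩,
  ⟨(-4), false, x1, (b (b (b x0 x4) x4) x3), x2, []⟩,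
  ⟨(8), true, (b (b x0 x4) x4), x2, x3, [(false, x1)]⟩,
  ⟨(-8), true, (b (b x0 x4) x1), x3, x4, [(false, x2)]⟩,
  ⟨(10), true, (b x0 x4), (b x1 x3), x4, [(false, x2)]⟩,
  ⟨(-4), false, (b (b (b x0 x4) x4) x2), x1, x3, []⟩,
  ⟨(-4), false, x3, (b (b (b x0 x4) x4) x2), x1, []⟩,
  ⟨(8), true, (b (b x0 x4) x4), x1, x2, [(false, x3)]⟩,
  ⟨(4), false, x1, (b (b (b x0 x4) x4) x2), x3, []⟩,
  ⟨(8), true, (b (b x0 x4) x1), x2, x4, [(false, x3)]⟩,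
  ⟨(-10), true, (b x0 x4), (b x1 x2), x4, [(false, x3)]⟩,
  ⟨(8), true, (b (b x0 x4) x2), x3, x4, [(false, x1)]⟩,
  ⟨(8), true, (b x0 x4), x1, x2, [(false, (b x3 x4))]⟩,
  ⟨(8), true, (b x0 x4), (b x1 x3), x2, [(false, x4)]⟩,
  ⟨(-8), true, (b x0 x4), (b x1 x2), x3, [(false, x4)]⟩,
  ⟨(-4), true, (b x1 x3), x2, x4, [(false, (b x0 x4))]⟩,
  ⟨(2), false, (b x0 x4), (b (b x1 x2) x4), x3, []⟩,
  ⟨(-2), false, (b (b x1 x2) x4), (b x0 x4), x3, []⟩,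
  ⟨(2), false, (b x2 x4), (b x0 x4), (b x1 x3), []⟩,
  ⟨(-2), false, (b x0 x4), (b (b x1 x3) x4), x2, []⟩,
  ⟨(2), false, (b (b x1 x3) x4), (b x0 x4), x2, []⟩,
  ⟨(-2), false, (b x1 x3), (b x0 x4), (b x2 x4), []⟩,
  ⟨(2), false, (b x0 x4), (b x1 x3), (b x2 x4), []⟩,
  ⟨(-2), false, x3, (b (b x1 x2) x4), (b x0 x4), []⟩,
  ⟨(2), false, (b x0 x4), (b (b x2 x3) x4), x1, []⟩,
  ⟨(-8), true, (b x1 x4), x2, x3, [(false, (b x0 x4))]⟩,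
  ⟨(-4), true, (b x2 x3), x1, x4, [(false, (b x0 x4))]⟩,
  ⟨(-4), true, x1, x2, x3, [(false, (b x0 x4)), (true, x4)]⟩,
  ⟨(-2), false, (b (b x2 x3) x4), (b x0 x4), x1, []⟩,
  ⟨(-2), false, (b x3 x4), (b x0 x4), (b x1 x2), []⟩,
  ⟨(2), false, (b x1 x2), (b x0 x4), (b x3 x4), []⟩,
  ⟨(-2), false, (b x0 x4), (b x1 x2), (b x3 x4), []⟩,
  ⟨(4), true, (b x1 x2), x3, x4, [(false, (b x0 x4))]⟩]

def cert1 : List Rel := [
  ⟨(2), false, x2, (b (b x1 x3) x4), (b x0 x4), []⟩,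
  ⟨(-2), false, x1, (b (b x2 x3) x4), (b x0 x4), []⟩,
  ⟨(-4), false, (b (b (b x1 x4) x2) x3), x0, x4, []⟩,
  ⟨(-4), false, x4, (b (b (b x1 x4) x2) x3), x0, []⟩,
  ⟨(8), true, (b (b x1 x4) x2), x0, x3, [(false, x4)]⟩,
  ⟨(-8), true, (b x1 x4), x0, x2, [(false, x4), (true, x3)]⟩,
  ⟨(-8), true, (b x0 x2), (b x1 x4), x3, [(false, x4)]⟩,
  ⟨(4), false, x0, (b (b (b x1 x4) x2) x3), x4, []⟩,
  ⟨(4), false, (b (b (b x1 x4) x3) x2), x0, x4, []⟩,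
  ⟨(4), false, x4, (b (b (b x1 x4) x3) x2), x0, []⟩,
  ⟨(-8), true, (b (b x1 x4) x3), x0, x2, [(false, x4)]⟩,
  ⟨(8), true, (b x1 x4), x0, x3, [(false, x4), (true, x2)]⟩,
  ⟨(8), true, x0, x1, x4, [(false, x4), (true, (b x2 x3))]⟩,
  ⟨(-8), true, (b (b x1 x4) x0), x2, x3, [(false, x4)]⟩,
  ⟨(-4), false, x0, (b (b (b x1 x4) x3) x2), x4, []⟩,
  ⟨(8), true, (b x0 x3), (b x1 x4), x2, [(false, x4)]⟩,
  ⟨(-2), false, (b x1 x4), (b x0 x4), (b x2 x3), []⟩,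
  ⟨(-1), false, (b (b x1 x4) x4), (b x2 x3), x0, []⟩,
  ⟨(-2), true, x0, x2, x3, [(false, (b (b x1 x4) x4))]⟩,
  ⟨(1), false, (b x2 x3), (b (b x1 x4) x4), x0, []⟩,
  ⟨(-2), true, (b x1 x4), x0, x4, [(false, (b x2 x3))]⟩,
  ⟨(-2), true, x0, x1, x4, [(false, (b x2 x3)), (true, x4)]⟩,
  ⟨(2), false, (b x2 x3), (b x0 x4), (b x1 x4), []⟩,
  ⟨(-6), true, (b x0 x4), x1, x4, [(false, (b x2 x3))]⟩,
  ⟨(-1), false, x0, (b (b x1 x4) x4), (b x2 x3), []⟩,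
  ⟨(2), false, (b x0 x4), (b x1 x4), (b x2 x3), []⟩,
  ⟨(3), false, (b (b (b x0 x1) x4) x4), x2, x3, []⟩,
  ⟨(1), false, (b x0 x2), (b (b x1 x4) x4), x3, []⟩,
  ⟨(-1), false, (b x0 x3), (b (b x1 x4) x4), x2, []⟩,
  ⟨(-1), false, (b (b x1 x4) x4), (b x0 x2), x3, []⟩,
  ⟨(1), false, (b (b x1 x4) x4), (b x0 x3), x2, []⟩,
  ⟨(1), false, x2, (b (b x1 x4) x4), (b x0 x3), []⟩,
  ⟨(-3), false, x2, (b (b (b x0 x1) x4) x4), x3, []⟩,
  ⟨(6), true, (b (b x0 x1) x4), x3, x4, [(false, x2)]⟩,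
  ⟨(3), false, x3, (b (b (b x0 x1) x4) x4), x2, []⟩,
  ⟨(-6), true, (b (b x0 x1) x4), x2, x4, [(false, x3)]⟩,
  ⟨(-1), false, x3, (b (b x1 x4) x4), (b x0 x2), []⟩,
  ⟨(-2), false, (b (b x0 x1) x4), (b x2 x4), x3, []⟩,
  ⟨(2), false, (b (b x0 x2) x4), (b x1 x4), x3, []⟩,
  ⟨(2), false, (b x2 x4), (b (b x0 x1) x4), x3, []⟩,
  ⟨(-2), false, (b x1 x4), (b (b x0 x2) x4), x3, []⟩,
  ⟨(-2), false, (b (b x0 x3) x4), (b x1 x4), x2, []⟩,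
  ⟨(2), false, (b x1 x4), (b (b x0 x3) x4), x2, []⟩,
  ⟨(-10), true, (b x0 x2), (b x1 x4), x4, [(false, x3)]⟩,
  ⟨(-2), false, x3, (b (b x0 x1) x4), (b x2 x4), []⟩,
  ⟨(2), false, x3, (b (b x0 x2) x4), (b x1 x4), []⟩,
  ⟨(-6), true, (b x1 x4), x2, x4, [(false, (b x0 x3))]⟩,
  ⟨(10), true, (b x0 x3), (b x1 x4), x4, [(false, x2)]⟩,
  ⟨(-2), false, x2, (b (b x0 x3) x4), (b x1 x4), []⟩,
  ⟨(6), true, (b x1 x4), x3, x4, [(false, (b x0 x2))]⟩,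
  ⟨(-1), false, (b x0 x1), (b (b x2 x4) x4), x3, []⟩,
  ⟨(1), false, (b x0 x3), (b (b x2 x4) x4), x1, []⟩,
  ⟨(-2), true, (b x2 x4), x1, x4, [(false, (b x0 x3))]⟩,
  ⟨(-2), true, x1, x2, x4, [(false, (b x0 x3)), (true, x4)]⟩,
  ⟨(-1), false, (b x1 x3), (b (b x2 x4) x4), x0, []⟩,
  ⟨(2), true, (b x2 x4), x0, x4, [(false, (b x1 x3))]⟩,
  ⟨(2), true, x0, x2, x4, [(false, (b x1 x3)), (true, x4)]⟩,
  ⟨(1), false, (b (b x2 x4) x4), (b x0 x1), x3, []⟩,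
  ⟨(-1), false, (b (b x2 x4) x4), (b x0 x3), x1, []⟩,
  ⟨(1), false, (b (b x2 x4) x4), (b x1 x3), x0, []⟩]

def cert2 : List Rel := [
  ⟨(2), true, x0, x1, x3, [(false, (b (b x2 x4) x4))]⟩,
  ⟨(3), false, (b (b (b x1 x2) x4) x4), x0, x3, []⟩,
  ⟨(3), false, x1, (b (b (b x0 x2) x4) x4), x3, []⟩,
  ⟨(-6), true, (b (b x0 x2) x4), x3, x4, [(false, x1)]⟩,
  ⟨(-3), false, x0, (b (b (b x1 x2) x4) x4), x3, []⟩,
  ⟨(6), true, (b (b x1 x2) x4), x3, x4, [(false, x0)]⟩,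
  ⟨(1), false, x3, (b (b x2 x4) x4), (b x0 x1), []⟩,
  ⟨(2), true, (b x0 x1), (b x2 x4), x4, [(false, x3)]⟩,
  ⟨(-2), true, (b x0 x1), x2, x4, [(false, x3), (true, x4)]⟩,
  ⟨(-3), false, x3, (b (b (b x0 x2) x4) x4), x1, []⟩,
  ⟨(6), true, (b (b x0 x2) x4), x1, x4, [(false, x3)]⟩,
  ⟨(2), true, (b x0 x2), x1, x4, [(false, x3), (true, x4)]⟩,
  ⟨(3), false, x3, (b (b (b x1 x2) x4) x4), x0, []⟩,
  ⟨(6), true, (b x1 x2), x0, x4, [(false, x3), (true, x4)]⟩,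
  ⟨(-6), true, (b (b x1 x2) x4), x0, x4, [(false, x3)]⟩,
  ⟨(6), true, x0, x1, x2, [(false, x3), (true, x4), (true, x4)]⟩,
  ⟨(-3), false, (b (b (b x0 x2) x4) x4), x1, x3, []⟩,
  ⟨(-1), false, x1, (b (b x2 x4) x4), (b x0 x3), []⟩,
  ⟨(-2), true, (b x1 x3), x2, x4, [(false, x0), (true, x4)]⟩,
  ⟨(1), false, (b x0 x1), (b (b x3 x4) x4), x2, []⟩,
  ⟨(-6), true, (b x2 x4), x3, x4, [(false, (b x0 x1))]⟩,
  ⟨(-2), true, (b x3 x4), x2, x4, [(false, (b x0 x1))]⟩,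
  ⟨(-2), true, x2, x3, x4, [(false, (b x0 x1)), (true, x4)]⟩,
  ⟨(-1), false, (b x0 x2), (b (b x3 x4) x4), x1, []⟩,
  ⟨(2), true, (b x3 x4), x1, x4, [(false, (b x0 x2))]⟩,
  ⟨(2), true, x1, x3, x4, [(false, (b x0 x2)), (true, x4)]⟩,
  ⟨(-3), false, (b (b (b x1 x3) x4) x4), x0, x2, []⟩,
  ⟨(1), false, (b x1 x2), (b (b x3 x4) x4), x0, []⟩,
  ⟨(-2), true, (b x3 x4), x0, x4, [(false, (b x1 x2))]⟩,
  ⟨(-2), true, x0, x3, x4, [(false, (b x1 x2)), (true, x4)]⟩,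
  ⟨(-1), false, (b (b x3 x4) x4), (b x0 x1), x2, []⟩,
  ⟨(1), false, (b (b x3 x4) x4), (b x0 x2), x1, []⟩,
  ⟨(-1), false, (b (b x3 x4) x4), (b x1 x2), x0, []⟩,
  ⟨(-2), true, x0, x1, x2, [(false, (b (b x3 x4) x4))]⟩,
  ⟨(1), false, x1, (b (b x3 x4) x4), (b x0 x2), []⟩,
  ⟨(2), true, (b x0 x2), (b x3 x4), x4, [(false, x1)]⟩,
  ⟨(-2), true, (b x0 x2), x3, x4, [(false, x1), (true, x4)]⟩,
  ⟨(-10), true, (b x0 x3), (b x2 x4), x4, [(false, x1)]⟩,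
  ⟨(-3), false, x1, (b (b (b x0 x3) x4) x4), x2, []⟩,
  ⟨(6), true, (b (b x0 x3) x4), x2, x4, [(false, x1)]⟩,
  ⟨(2), true, (b x0 x3), x2, x4, [(false, x1), (true, x4)]⟩,
  ⟨(3), false, x0, (b (b (b x1 x3) x4) x4), x2, []⟩,
  ⟨(-6), true, (b (b x1 x3) x4), x2, x4, [(false, x0)]⟩,
  ⟨(-1), false, x2, (b (b x3 x4) x4), (b x0 x1), []⟩,
  ⟨(-2), true, (b x0 x1), (b x3 x4), x4, [(false, x2)]⟩,
  ⟨(2), true, (b x0 x1), x3, x4, [(false, x2), (true, x4)]⟩,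
  ⟨(3), false, x2, (b (b (b x0 x3) x4) x4), x1, []⟩,
  ⟨(-6), true, (b (b x0 x3) x4), x1, x4, [(false, x2)]⟩,
  ⟨(-2), true, (b x0 x3), x1, x4, [(false, x2), (true, x4)]⟩,
  ⟨(-3), false, x2, (b (b (b x1 x3) x4) x4), x0, []⟩,
  ⟨(-6), true, (b x1 x3), x0, x4, [(false, x2), (true, x4)]⟩,
  ⟨(6), true, (b (b x1 x3) x4), x0, x4, [(false, x2)]⟩,
  ⟨(-6), true, x0, x1, x3, [(false, x2), (true, x4), (true, x4)]⟩,
  ⟨(3), false, (b (b (b x0 x3) x4) x4), x1, x2, []⟩,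
  ⟨(-1), false, x0, (b (b x3 x4) x4), (b x1 x2), []⟩,
  ⟨(-2), true, (b x1 x2), (b x3 x4), x4, [(false, x0)]⟩,
  ⟨(2), true, (b x1 x2), x3, x4, [(false, x0), (true, x4)]⟩,
  ⟨(1), false, x0, (b (b x2 x4) x4), (b x1 x3), []⟩,
  ⟨(10), true, (b x1 x3), (b x2 x4), x4, [(false, x0)]⟩,
  ⟨(-4), false, (b (b (b x1 x3) x2) x4), x0, x4, []⟩]

def cert3 : List Rel := [
  ⟨(-4), false, x4, (b (b (b x1 x3) x2) x4), x0, []⟩,
  ⟨(8), true, (b (b x1 x3) x2), x0, x4, [(false, x4)]⟩,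
  ⟨(-8), true, (b x1 x3), x0, x2, [(false, x4), (true, x4)]⟩,
  ⟨(4), false, x0, (b (b (b x1 x3) x2) x4), x4, []⟩,
  ⟨(4), false, (b (b (b x1 x3) x4) x2), x0, x4, []⟩,
  ⟨(4), false, x4, (b (b (b x1 x3) x4) x2), x0, []⟩,
  ⟨(-8), true, (b (b x1 x3) x4), x0, x2, [(false, x4)]⟩,
  ⟨(8), true, (b x1 x3), x0, x4, [(false, x4), (true, x2)]⟩,
  ⟨(8), true, x0, x1, x3, [(false, x4), (true, (b x2 x4))]⟩,
  ⟨(-8), true, (b (b x1 x3) x0), x2, x4, [(false, x4)]⟩,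
  ⟨(-4), false, x0, (b (b (b x1 x3) x4) x2), x4, []⟩,
  ⟨(-4), false, (b (b (b x0 x1) x4) x3), x2, x4, []⟩,
  ⟨(-4), false, x4, (b (b (b x0 x1) x4) x3), x2, []⟩,
  ⟨(8), true, (b (b x0 x1) x4), x2, x3, [(false, x4)]⟩,
  ⟨(4), false, x2, (b (b (b x0 x1) x4) x3), x4, []⟩,
  ⟨(-4), false, (b (b (b x1 x2) x4) x3), x0, x4, []⟩,
  ⟨(-4), false, x4, (b (b (b x1 x2) x4) x3), x0, []⟩,
  ⟨(8), true, (b (b x1 x2) x4), x0, x3, [(false, x4)]⟩,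
  ⟨(-8), true, (b x1 x2), x0, x4, [(false, x4), (true, x3)]⟩,
  ⟨(-8), true, x0, x1, x2, [(false, x4), (true, (b x3 x4))]⟩,
  ⟨(8), true, (b (b x1 x2) x0), x3, x4, [(false, x4)]⟩,
  ⟨(4), false, x0, (b (b (b x1 x2) x4) x3), x4, []⟩,
  ⟨(8), true, (b (b x0 x1) x2), x3, x4, [(false, x4)]⟩,
  ⟨(4), false, (b (b (b x0 x2) x4) x3), x1, x4, []⟩,
  ⟨(4), false, x4, (b (b (b x0 x2) x4) x3), x1, []⟩,
  ⟨(-8), true, (b (b x0 x2) x4), x1, x3, [(false, x4)]⟩,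
  ⟨(-8), true, (b (b x0 x2) x1), x3, x4, [(false, x4)]⟩,
  ⟨(-4), false, x1, (b (b (b x0 x2) x4) x3), x4, []⟩,
  ⟨(-4), false, (b (b (b x0 x3) x4) x2), x1, x4, []⟩,
  ⟨(-4), false, x4, (b (b (b x0 x3) x4) x2), x1, []⟩,
  ⟨(8), true, (b (b x0 x3) x4), x1, x2, [(false, x4)]⟩,
  ⟨(8), true, (b (b x0 x3) x1), x2, x4, [(false, x4)]⟩,
  ⟨(4), false, x1, (b (b (b x0 x3) x4) x2), x4, []⟩,
  ⟨(-8), true, (b x0 x4), x1, x3, [(false, (b x2 x4))]⟩,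
  ⟨(8), true, (b x0 x4), x2, x3, [(false, (b x1 x4))]⟩,
  ⟨(-16), true, (b x1 x4), x2, x3, [(false, x0), (true, x4)]⟩,
  ⟨(4), false, (b (b (b x0 x3) x2) x4), x1, x4, []⟩,
  ⟨(4), false, x4, (b (b (b x0 x3) x2) x4), x1, []⟩,
  ⟨(-8), true, (b (b x0 x3) x2), x1, x4, [(false, x4)]⟩,
  ⟨(8), true, (b x0 x3), x1, x2, [(false, x4), (true, x4)]⟩,
  ⟨(-4), false, x1, (b (b (b x0 x3) x2) x4), x4, []⟩,
  ⟨(4), false, (b (b (b x0 x1) x3) x4), x2, x4, []⟩,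
  ⟨(4), false, x4, (b (b (b x0 x1) x3) x4), x2, []⟩,
  ⟨(-8), true, (b (b x0 x1) x3), x2, x4, [(false, x4)]⟩,
  ⟨(-4), false, x2, (b (b (b x0 x1) x3) x4), x4, []⟩,
  ⟨(4), false, (b (b (b x1 x2) x3) x4), x0, x4, []⟩,
  ⟨(-4), false, x0, (b (b (b x1 x2) x3) x4), x4, []⟩,
  ⟨(4), false, x4, (b (b (b x1 x2) x3) x4), x0, []⟩,
  ⟨(-8), true, (b (b x1 x2) x3), x0, x4, [(false, x4)]⟩,
  ⟨(8), true, (b x1 x2), x0, x3, [(false, x4), (true, x4)]⟩,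
  ⟨(-4), false, (b (b (b x0 x2) x3) x4), x1, x4, []⟩,
  ⟨(-8), true, (b x0 x1), (b x2 x3), x4, [(false, x4)]⟩,
  ⟨(8), true, (b x0 x1), x2, x3, [(false, x4), (true, x4)]⟩,
  ⟨(-4), false, x4, (b (b (b x0 x2) x3) x4), x1, []⟩,
  ⟨(8), true, (b (b x0 x2) x3), x1, x4, [(false, x4)]⟩,
  ⟨(-8), true, (b x0 x2), x1, x3, [(false, x4), (true, x4)]⟩,
  ⟨(4), false, x1, (b (b (b x0 x2) x3) x4), x4, []⟩,
  ⟨(-4), false, (b (b (b x0 x4) x1) x4), x2, x3, []⟩,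
  ⟨(-4), false, x3, (b (b (b x0 x4) x1) x4), x2, []⟩,
  ⟨(4), false, x2, (b (b (b x0 x4) x1) x4), x3, []⟩]

def cert4 : List Rel := [
  ⟨(4), false, (b (b (b x0 x4) x4) x1), x2, x3, []⟩,
  ⟨(4), false, x3, (b (b (b x0 x4) x4) x1), x2, []⟩,
  ⟨(-4), false, x2, (b (b (b x0 x4) x4) x1), x3, []⟩,
  ⟨(4), false, (b (b (b x0 x4) x3) x1), x2, x4, []⟩,
  ⟨(4), false, x4, (b (b (b x0 x4) x3) x1), x2, []⟩,
  ⟨(-4), false, x2, (b (b (b x0 x4) x3) x1), x4, []⟩,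
  ⟨(-4), false, (b (b (b x0 x4) x3) x2), x1, x4, []⟩,
  ⟨(-4), false, x4, (b (b (b x0 x4) x3) x2), x1, []⟩,
  ⟨(8), true, (b (b x0 x4) x3), x1, x2, [(false, x4)]⟩,
  ⟨(4), false, x1, (b (b (b x0 x4) x3) x2), x4, []⟩,
  ⟨(-8), true, (b x0 x4), (b x1 x4), x3, [(false, x2)]⟩,
  ⟨(8), true, (b x0 x4), (b x2 x4), x3, [(false, x1)]⟩,
  ⟨(1), false, (b (b x0 x4) x4), (b x1 x2), x3, []⟩,
  ⟨(-1), false, (b x1 x2), (b (b x0 x4) x4), x3, []⟩,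
  ⟨(2), false, x0, (b (b x1 x2) x4), (b x3 x4), []⟩,
  ⟨(2), false, (b (b x1 x2) x4), (b x3 x4), x0, []⟩,
  ⟨(4), true, x0, x3, x4, [(false, (b (b x1 x2) x4))]⟩,
  ⟨(-2), false, (b x3 x4), (b (b x1 x2) x4), x0, []⟩,
  ⟨(4), true, (b x1 x2), x0, x4, [(false, (b x3 x4))]⟩,
  ⟨(4), true, x0, x1, x2, [(false, (b x3 x4)), (true, x4)]⟩,
  ⟨(-2), false, (b x1 x2), (b (b x0 x3) x4), x4, []⟩,
  ⟨(2), false, (b (b x0 x3) x4), (b x1 x2), x4, []⟩,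
  ⟨(2), false, x4, (b (b x0 x3) x4), (b x1 x2), []⟩,
  ⟨(-1), false, (b (b x0 x4) x4), (b x1 x3), x2, []⟩,
  ⟨(1), false, (b x1 x3), (b (b x0 x4) x4), x2, []⟩,
  ⟨(4), false, (b (b (b x1 x4) x3) x4), x0, x2, []⟩,
  ⟨(-4), false, (b (b (b x1 x4) x2) x4), x0, x3, []⟩,
  ⟨(4), false, x2, (b (b (b x1 x4) x3) x4), x0, []⟩,
  ⟨(-8), true, (b (b x1 x4) x3), x0, x4, [(false, x2)]⟩,
  ⟨(8), true, (b x1 x4), x0, x3, [(false, x2), (true, x4)]⟩,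
  ⟨(-4), false, x0, (b (b (b x1 x4) x3) x4), x2, []⟩,
  ⟨(8), true, (b (b x1 x4) x3), x2, x4, [(false, x0)]⟩,
  ⟨(-4), false, x3, (b (b (b x1 x4) x2) x4), x0, []⟩,
  ⟨(8), true, (b (b x1 x4) x2), x0, x4, [(false, x3)]⟩,
  ⟨(-8), true, (b x1 x4), x0, x2, [(false, x3), (true, x4)]⟩,
  ⟨(4), false, x0, (b (b (b x1 x4) x2) x4), x3, []⟩,
  ⟨(-8), true, (b x1 x4), (b x2 x4), x3, [(false, x0)]⟩,
  ⟨(-4), false, (b (b (b x2 x4) x3) x4), x0, x1, []⟩,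
  ⟨(-4), false, x1, (b (b (b x2 x4) x3) x4), x0, []⟩,
  ⟨(8), true, (b (b x2 x4) x3), x0, x4, [(false, x1)]⟩,
  ⟨(-8), true, (b x2 x4), x0, x3, [(false, x1), (true, x4)]⟩,
  ⟨(4), false, x0, (b (b (b x2 x4) x3) x4), x1, []⟩,
  ⟨(-8), true, (b (b x2 x4) x3), x1, x4, [(false, x0)]⟩,
  ⟨(8), true, (b x2 x4), x1, x3, [(false, x0), (true, x4)]⟩,
  ⟨(2), false, (b x0 x1), (b x2 x4), (b x3 x4), []⟩,
  ⟨(4), false, (b (b (b x2 x4) x4) x3), x0, x1, []⟩,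
  ⟨(4), false, x1, (b (b (b x2 x4) x4) x3), x0, []⟩,
  ⟨(-8), true, (b (b x2 x4) x4), x0, x3, [(false, x1)]⟩,
  ⟨(8), true, (b x2 x4), x0, x4, [(false, x1), (true, x3)]⟩,
  ⟨(8), true, x0, x2, x4, [(false, x1), (true, (b x3 x4))]⟩,
  ⟨(-8), true, (b (b x2 x4) x0), x3, x4, [(false, x1)]⟩,
  ⟨(-4), false, x0, (b (b (b x2 x4) x4) x3), x1, []⟩,
  ⟨(8), true, (b (b x2 x4) x4), x1, x3, [(false, x0)]⟩,
  ⟨(-8), true, (b x2 x4), x1, x4, [(false, x0), (true, x3)]⟩,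
  ⟨(-8), true, x1, x2, x4, [(false, x0), (true, (b x3 x4))]⟩,
  ⟨(8), true, (b (b x2 x4) x1), x3, x4, [(false, x0)]⟩,
  ⟨(-2), false, x1, (b (b x0 x2) x4), (b x3 x4), []⟩,
  ⟨(2), false, x1, (b (b x0 x3) x4), (b x2 x4), []⟩,
  ⟨(-2), false, x0, (b (b x1 x3) x4), (b x2 x4), []⟩,
  ⟨(-2), false, (b x2 x4), (b x0 x1), (b x3 x4), []⟩]

def cert5 : List Rel := [
  ⟨(4), true, (b x0 x1), x3, x4, [(false, (b x2 x4))]⟩,
  ⟨(-2), false, (b (b x1 x3) x4), (b x2 x4), x0, []⟩,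
  ⟨(-4), true, x0, x2, x4, [(false, (b (b x1 x3) x4))]⟩,
  ⟨(2), false, (b x2 x4), (b (b x1 x3) x4), x0, []⟩,
  ⟨(-4), true, (b x1 x3), x0, x4, [(false, (b x2 x4))]⟩,
  ⟨(-4), true, x0, x1, x3, [(false, (b x2 x4)), (true, x4)]⟩,
  ⟨(2), false, (b (b x0 x3) x4), (b x2 x4), x1, []⟩,
  ⟨(4), true, x1, x2, x4, [(false, (b (b x0 x3) x4))]⟩,
  ⟨(-2), false, (b x2 x4), (b (b x0 x3) x4), x1, []⟩,
  ⟨(-4), true, (b x0 x3), x1, x4, [(false, (b x2 x4))]⟩,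
  ⟨(-8), true, (b (b x1 x4) x2), x3, x4, [(false, x0)]⟩,
  ⟨(2), false, (b x3 x4), (b x0 x1), (b x2 x4), []⟩,
  ⟨(-4), true, (b x0 x1), x2, x4, [(false, (b x3 x4))]⟩,
  ⟨(-2), false, (b (b x0 x2) x4), (b x3 x4), x1, []⟩,
  ⟨(-4), true, x1, x3, x4, [(false, (b (b x0 x2) x4))]⟩,
  ⟨(2), false, (b x3 x4), (b (b x0 x2) x4), x1, []⟩,
  ⟨(4), true, (b x0 x2), x1, x4, [(false, (b x3 x4))]⟩,
  ⟨(1), false, (b (b x0 x4) x4), (b x2 x3), x1, []⟩,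
  ⟨(2), true, x1, x2, x3, [(false, (b (b x0 x4) x4))]⟩,
  ⟨(-1), false, (b x2 x3), (b (b x0 x4) x4), x1, []⟩,
  ⟨(2), false, x4, (b (b x0 x1) x4), (b x2 x3), []⟩,
  ⟨(1), false, x1, (b (b x0 x4) x4), (b x2 x3), []⟩,
  ⟨(-2), false, (b x1 x4), (b x0 x3), (b x2 x4), []⟩,
  ⟨(2), false, (b x2 x4), (b x0 x3), (b x1 x4), []⟩,
  ⟨(4), false, (b (b (b x1 x4) x4) x2), x0, x3, []⟩,
  ⟨(4), true, (b x0 x3), x2, x4, [(false, (b x1 x4))]⟩,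
  ⟨(4), false, x3, (b (b (b x1 x4) x4) x2), x0, []⟩,
  ⟨(-8), true, (b (b x1 x4) x4), x0, x2, [(false, x3)]⟩,
  ⟨(8), true, (b x1 x4), x0, x4, [(false, x3), (true, x2)]⟩,
  ⟨(8), true, x0, x1, x4, [(false, x3), (true, (b x2 x4))]⟩,
  ⟨(-8), true, (b (b x1 x4) x0), x2, x4, [(false, x3)]⟩,
  ⟨(8), true, (b x0 x4), (b x1 x4), x2, [(false, x3)]⟩,
  ⟨(-4), false, x0, (b (b (b x1 x4) x4) x2), x3, []⟩,
  ⟨(2), false, (b x0 x3), (b x1 x4), (b x2 x4), []⟩,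
  ⟨(2), false, (b (b x0 x1) x4), (b x3 x4), x2, []⟩,
  ⟨(4), true, x2, x3, x4, [(false, (b (b x0 x1) x4))]⟩,
  ⟨(2), false, (b x1 x4), (b x0 x2), (b x3 x4), []⟩,
  ⟨(-4), true, (b x0 x2), x3, x4, [(false, (b x1 x4))]⟩,
  ⟨(-2), false, (b x3 x4), (b (b x0 x1) x4), x2, []⟩,
  ⟨(-2), false, (b x3 x4), (b x0 x2), (b x1 x4), []⟩,
  ⟨(-4), false, (b (b (b x1 x4) x4) x3), x0, x2, []⟩,
  ⟨(-4), false, x2, (b (b (b x1 x4) x4) x3), x0, []⟩,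
  ⟨(8), true, (b (b x1 x4) x4), x0, x3, [(false, x2)]⟩,
  ⟨(-8), true, (b x1 x4), x0, x4, [(false, x2), (true, x3)]⟩,
  ⟨(-8), true, x0, x1, x4, [(false, x2), (true, (b x3 x4))]⟩,
  ⟨(8), true, (b (b x1 x4) x0), x3, x4, [(false, x2)]⟩,
  ⟨(4), false, x0, (b (b (b x1 x4) x4) x3), x2, []⟩,
  ⟨(-8), true, (b (b x1 x4) x4), x2, x3, [(false, x0)]⟩,
  ⟨(2), false, x2, (b (b x0 x1) x4), (b x3 x4), []⟩,
  ⟨(-2), false, (b x0 x2), (b x1 x4), (b x3 x4), []⟩,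
  ⟨(-2), false, (b x1 x4), (b (b x2 x3) x4), x0, []⟩,
  ⟨(4), true, (b x2 x3), x0, x4, [(false, (b x1 x4))]⟩,
  ⟨(4), true, x0, x2, x3, [(false, (b x1 x4)), (true, x4)]⟩,
  ⟨(2), false, (b (b x2 x3) x4), (b x1 x4), x0, []⟩,
  ⟨(4), true, x0, x1, x4, [(false, (b (b x2 x3) x4))]⟩,
  ⟨(2), false, x0, (b (b x2 x3) x4), (b x1 x4), []⟩,
  ⟨(-2), false, (b x0 x3), (b (b x1 x2) x4), x4, []⟩,
  ⟨(2), false, (b (b x1 x2) x4), (b x0 x3), x4, []⟩,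
  ⟨(-2), false, x4, (b (b x0 x2) x4), (b x1 x3), []⟩,
  ⟨(-2), false, x4, (b (b x1 x3) x4), (b x0 x2), []⟩]

def cert6 : List Rel := [
  ⟨(2), false, (b x0 x2), (b (b x1 x3) x4), x4, []⟩,
  ⟨(-2), false, (b (b x1 x3) x4), (b x0 x2), x4, []⟩,
  ⟨(2), false, (b x1 x3), (b (b x0 x2) x4), x4, []⟩,
  ⟨(-2), false, (b (b x0 x2) x4), (b x1 x3), x4, []⟩,
  ⟨(2), false, x4, (b (b x1 x2) x4), (b x0 x3), []⟩,
  ⟨(2), false, (b (b x0 x1) x4), (b x2 x3), x4, []⟩,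
  ⟨(-2), false, (b x2 x3), (b (b x0 x1) x4), x4, []⟩,
  ⟨(-2), false, (b x0 x1), (b (b x2 x3) x4), x4, []⟩,
  ⟨(2), false, (b (b x2 x3) x4), (b x0 x1), x4, []⟩,
  ⟨(2), false, x4, (b (b x2 x3) x4), (b x0 x1), []⟩,
  ⟨(-1), false, x2, (b (b x0 x4) x4), (b x1 x3), []⟩,
  ⟨(1), false, x3, (b (b x0 x4) x4), (b x1 x2), []⟩,
  ⟨(-4), false, (b (b (b x0 x4) x2) x1), x3, x4, []⟩,
  ⟨(-4), false, x4, (b (b (b x0 x4) x2) x1), x3, []⟩,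
  ⟨(4), false, x3, (b (b (b x0 x4) x2) x1), x4, []⟩,
  ⟨(4), false, (b (b (b x0 x4) x2) x3), x1, x4, []⟩,
  ⟨(4), false, x4, (b (b (b x0 x4) x2) x3), x1, []⟩,
  ⟨(-8), true, (b (b x0 x4) x2), x1, x3, [(false, x4)]⟩,
  ⟨(-4), false, x1, (b (b (b x0 x4) x2) x3), x4, []⟩,
  ⟨(4), false, (b (b (b x0 x4) x1) x2), x3, x4, []⟩,
  ⟨(-4), false, x3, (b (b (b x0 x4) x1) x2), x4, []⟩,
  ⟨(4), false, x4, (b (b (b x0 x4) x1) x2), x3, []⟩,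
  ⟨(8), true, (b (b x0 x4) x1), x2, x3, [(false, x4)]⟩,
  ⟨(-4), false, (b (b (b x0 x4) x1) x3), x2, x4, []⟩,
  ⟨(-4), false, x4, (b (b (b x0 x4) x1) x3), x2, []⟩,
  ⟨(4), false, x2, (b (b (b x0 x4) x1) x3), x4, []⟩,
  ⟨(4), false, (b (b (b x0 x3) x4) x1), x2, x4, []⟩,
  ⟨(4), false, x4, (b (b (b x0 x3) x4) x1), x2, []⟩,
  ⟨(-4), false, x2, (b (b (b x0 x3) x4) x1), x4, []⟩,
  ⟨(-4), false, (b (b (b x0 x3) x1) x4), x2, x4, []⟩,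
  ⟨(4), false, x2, (b (b (b x0 x3) x1) x4), x4, []⟩,
  ⟨(-4), false, x4, (b (b (b x0 x3) x1) x4), x2, []⟩,
  ⟨(-4), false, (b (b (b x0 x2) x4) x1), x3, x4, []⟩,
  ⟨(-4), false, x4, (b (b (b x0 x2) x4) x1), x3, []⟩,
  ⟨(4), false, x3, (b (b (b x0 x2) x4) x1), x4, []⟩,
  ⟨(4), false, (b (b (b x0 x2) x1) x4), x3, x4, []⟩,
  ⟨(-4), false, x3, (b (b (b x0 x2) x1) x4), x4, []⟩,
  ⟨(4), false, x4, (b (b (b x0 x2) x1) x4), x3, []⟩,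
  ⟨(4), false, (b (b (b x0 x1) x4) x2), x3, x4, []⟩,
  ⟨(4), false, x4, (b (b (b x0 x1) x4) x2), x3, []⟩,
  ⟨(-4), false, x3, (b (b (b x0 x1) x4) x2), x4, []⟩,
  ⟨(-4), false, (b (b (b x0 x1) x2) x4), x3, x4, []⟩,
  ⟨(4), false, x3, (b (b (b x0 x1) x2) x4), x4, []⟩,
  ⟨(-4), false, x4, (b (b (b x0 x1) x2) x4), x3, []⟩]

def cert : List Rel := cert0 ++ cert1 ++ cert2 ++ cert3 ++ cert4 ++ cert5 ++ cert6

def tgt : List (ℤ × Tm) := [(12, (m x4 (b (b x0 x1) (b (b x2 x3) x4)))), (12, (m x4 (b (b x2 x3) (b (b x0 x1) x4)))), (12, (m x4 (b (b x0 x2) (b (b x3 x1) x4)))), (12, (m x4 (b (b x3 x1) (b (b x0 x2) x4)))), (12, (m x4 (b (b x0 x3) (b (b x1 x2) x4)))), (12, (m x4 (b (b x1 x2) (b (b x0 x3) x4))))]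

lemma check : allZ (build (tgt ++ cert.flatMap expand)) = true := by decide +kernel

theorem ident {F A : Type u} [Field F] [CharZero F] [AddCommGroup A] [Module F A]
    (mul br : A →ₗ[F] A →ₗ[F] A) (hc : ∀ x y, mul x y = mul y x) (hs : ∀ x, br x x = 0)
    (hj : ∀ x y z, br x (br y z) + br y (br z x) + br z (br x y) = 0)
    (ht : ∀ x y z, (2 : F) • mul z (br x y) = br (mul z x) y + br x (mul z y)) (p q r s a : A) :
    mul a (br (br p q) (br (br r s) a) + br (br r s) (br (br p q) a)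
      + br (br p r) (br (br s q) a) + br (br s q) (br (br p r) a)
      + br (br p s) (br (br q r) a) + br (br q r) (br (br p s) a)) = 0 := by
  let ρ : ℕ → A := fun i => [p, q, r, s, a].getD i 0
  have h1 := evT_zero mul br ρ _ check
  rw [build_ok mul br ρ hc hs] at h1
  have h2 : ∀ l : List Rel, evL mul br ρ (l.flatMap expand) = 0 := by
    intro l
    induction l with
    | nil => rfl
    | cons r l ih =>
      have := expand_ok mul br ρ hj ht r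
      simp only [evL, List.flatMap_cons, List.map_append, List.sum_append] at ih this ⊢
      rw [ih, this, add_zero]
  have h3 := h2 cert
  simp only [evL, List.map_append, List.sum_append] at h1 h3
  rw [h3, add_zero] at h1
  simp only [tgt, List.map_cons, List.map_nil, List.sum_cons, List.sum_nil, ev, x0, x1, x2, x3, x4,
    ρ, List.getD_cons_succ, List.getD_cons_zero, add_zero, ← smul_add, ← map_add] at h1
  rw [← Int.cast_smul_eq_zsmul F, smul_eq_zero] at h1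
  rcases h1 with h1 | h1
  · exact absurd h1 (by norm_num)
  · simpa only [add_assoc] using h1

end Pool.Agent.H6.TPI
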