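import Mathlib

set_option autoImplicit false
open MeasureTheory Complex
open scoped FourierTransform ContDiff Real

namespace Pool.Agent.H6.TZ

noncomputable def E (s : ℝ) : ℂ := cexp (((2 * π * s : ℝ) : ℂ) * I)

lemma E_add (a b : ℝ) : E (a + b) = E a * E b := by
  unfold E; rw [← Complex.exp_add]; congr 1; push_cast; ring

lemma E_norm (a : ℝ) : ‖E a‖ = 1 := by
  unfold E; exact Complex.norm_exp_ofReal_mul_I _

lemma E_conj (a : ℝ) : (starRingEnd ℂ) (E a) = E (-a) := by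
  unfold E; rw [← Complex.exp_conj]; congr 1
  rw [map_mul, Complex.conj_ofReal, Complex.conj_I]; push_cast; ring

lemma E_zero : E 0 = 1 := by simp [E]

lemma E_smooth : ContDiff ℝ ∞ E := by
  unfold E
  refine ContDiff.cexp ?_
  refine ContDiff.mul ?_ contDiff_const
  exact Complex.ofRealCLM.contDiff.comp (contDiff_const.mul contDiff_id)

lemma E_cont : Continuous E := E_smooth.continuous

def Good (v : ℝ → ℂ) : Prop := ContDiff ℝ ∞ v ∧ ∀ t, t ∉ Set.Icc (1/8 : ℝ) (3/8) → v t = 0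

lemma Good.cs {v : ℝ → ℂ} (h : Good v) : HasCompactSupport v :=
  HasCompactSupport.intro isCompact_Icc h.2

lemma Good.cont {v : ℝ → ℂ} (h : Good v) : Continuous v := h.1.continuous

lemma Good.integrable {v : ℝ → ℂ} (h : Good v) : Integrable v :=
  h.cont.integrable_of_hasCompactSupport h.cs

lemma Good.mul_right {v u : ℝ → ℂ} (h : Good v) (hu : ContDiff ℝ ∞ u) :
    Good (fun t => v t * u t) :=
  ⟨h.1.mul hu, fun t ht => by simp [h.2 t ht]⟩

noncomputable def Good.sw {v : ℝ → ℂ} (h : Good v) : SchwartzMap ℝ ℂ := h.cs.toSchwartzMap h.1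

lemma Good.sw_coe {v : ℝ → ℂ} (h : Good v) : (h.sw : ℝ → ℂ) = v := rfl

lemma Good.four_coe {v : ℝ → ℂ} (h : Good v) : ((𝓕 h.sw : SchwartzMap ℝ ℂ) : ℝ → ℂ) = 𝓕 v := by
  rw [SchwartzMap.fourier_coe]; rfl

lemma sw_decay (S : SchwartzMap ℝ ℂ) : ∃ K : ℝ, 0 ≤ K ∧ ∀ x : ℝ, ‖S x‖ ≤ K / (1 + x ^ 2) := by
  obtain ⟨C0, hC0, h0⟩ := S.decay 0 0
  obtain ⟨C2, hC2, h2⟩ := S.decay 2 0
  refine ⟨C0 + C2, by positivity, fun x => ?_⟩
  have a := h0 x
  have b := h2 x
  simp only [pow_zero, one_mul, norm_iteratedFDeriv_zero, Real.norm_eq_abs, sq_abs] at a b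
  rw [le_div_iff₀ (by positivity)]
  nlinarith

lemma Good.decay {v : ℝ → ℂ} (h : Good v) :
    ∃ K : ℝ, 0 ≤ K ∧ ∀ x : ℝ, ‖𝓕 v x‖ ≤ K / (1 + x ^ 2) := by
  obtain ⟨K, hK, hh⟩ := sw_decay (𝓕 h.sw)
  exact ⟨K, hK, fun x => by have := hh x; rwa [h.four_coe] at this⟩

lemma Good.four_integrable {v : ℝ → ℂ} (h : Good v) : Integrable (𝓕 v) := by
  have := (𝓕 h.sw : SchwartzMap ℝ ℂ).integrable (μ := volume)
  rwa [h.four_coe] at this

lemma Good.four_cont {v : ℝ → ℂ} (h : Good v) : Continuous (𝓕 v) := by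
  have := (𝓕 h.sw : SchwartzMap ℝ ℂ).continuous
  rwa [h.four_coe] at this

lemma F_eq (v : ℝ → ℂ) (x : ℝ) : 𝓕 v x = ∫ t, E (-(t * x)) * v t := by
  rw [Real.fourier_real_eq_integral_exp_smul]
  congr 1; ext t
  rw [smul_eq_mul]; congr 1; unfold E; congr 2; push_cast; ring

lemma summable_base (K : ℝ) : Summable (fun k : ℤ => K / (1 + (k : ℝ) ^ 2)) := by
  have h : Summable (fun k : ℤ => 1 / (k : ℝ) ^ 2) := Real.summable_one_div_int_pow.mpr one_lt_two
  have h2 : Summable (fun k : ℤ => 1 / (1 + (k : ℝ) ^ 2)) := by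
    refine Summable.of_norm_bounded_eventually (g := fun k : ℤ => 1 / (k : ℝ) ^ 2) h ?_
    have : ∀ᶠ k : ℤ in Filter.cofinite, k ≠ 0 := Filter.eventually_cofinite_ne 0
    filter_upwards [this] with k hk
    have : (0 : ℝ) < (k : ℝ) ^ 2 := by positivity
    rw [Real.norm_of_nonneg (by positivity)]
    exact one_div_le_one_div_of_le this (by linarith)
  simpa [div_eq_mul_inv] using h2.mul_left K

lemma shift_bound (K a s : ℝ) (hK : 0 ≤ K) :
    K / (1 + (a + s) ^ 2) ≤ (K * (2 + 2 * s ^ 2)) / (1 + a ^ 2) := by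
  rw [div_le_div_iff₀ (by positivity) (by positivity)]
  have : 1 + a ^ 2 ≤ (2 + 2 * s ^ 2) * (1 + (a + s) ^ 2) := by
    nlinarith [sq_nonneg (a + 2 * s), sq_nonneg (s * (a + s)), sq_nonneg (a + s)]
  nlinarith

/-- summability along perturbed integer sequences -/
lemma summable_of_decay {G : Type*} [NormedAddCommGroup G] (u : ℝ → G) (K : ℝ) (hK : 0 ≤ K)
    (hu : ∀ x, ‖u x‖ ≤ K / (1 + x ^ 2)) (c : ℤ → ℝ) (B : ℝ)
    (hc : ∀ k : ℤ, |c k - k| ≤ B ∨ |c k + k| ≤ B) :
    Summable (fun k : ℤ => ‖u (c k)‖) := by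
  refine Summable.of_nonneg_of_le (fun _ => norm_nonneg _) (fun k => ?_)
    (summable_base (K * (2 + 2 * B ^ 2)))
  rcases hc k with h | h
  · have h1 := shift_bound K k (c k - k) hK
    have e : (k : ℝ) + (c k - k) = c k := by ring
    rw [e] at h1
    have : (c k - k) ^ 2 ≤ B ^ 2 := by
      rw [← sq_abs]; exact pow_le_pow_left₀ (abs_nonneg _) h 2
    refine (hu _).trans (h1.trans ?_)
    gcongr
  · have h1 := shift_bound K (-k) (c k + k) hK
    have e : (-k : ℝ) + (c k + k) = c k := by ring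
    rw [e, neg_sq] at h1
    have : (c k + k) ^ 2 ≤ B ^ 2 := by
      rw [← sq_abs]; exact pow_le_pow_left₀ (abs_nonneg _) h 2
    refine (hu _).trans (h1.trans ?_)
    gcongr

lemma Good.summ_sub {v : ℝ → ℂ} (h : Good v) (y : ℝ) :
    Summable (fun k : ℤ => ‖𝓕 v (k - y)‖) := by
  obtain ⟨K, hK, hh⟩ := h.decay
  exact summable_of_decay _ K hK hh (fun k => k - y) |y| (fun k => Or.inl (by simp))

lemma Good.summ_sub' {v : ℝ → ℂ} (h : Good v) (x : ℝ) :
    Summable (fun k : ℤ => ‖𝓕 v (x - k)‖) := by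
  obtain ⟨K, hK, hh⟩ := h.decay
  exact summable_of_decay _ K hK hh (fun k => x - k) |x| (fun k => Or.inr (by simp))

lemma poisson0 {θ : ℝ → ℂ} (h : Good θ) (y t : ℝ) :
    HasSum (fun k : ℤ => 𝓕 θ (k - y) * E (k * t)) (∑' n : ℤ, θ (t + n) * E (y * (t + n))) := by
  have hG : Good (fun s => θ s * E (y * s)) :=
    h.mul_right (E_smooth.comp (contDiff_const.mul contDiff_id))
  have P := SchwartzMap.tsum_eq_tsum_fourier hG.sw t
  have e1 : ∀ k : ℤ, (𝓕 hG.sw : SchwartzMap ℝ ℂ) k * fourier k (t : UnitAddCircle)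
      = 𝓕 θ (k - y) * E (k * t) := by
    intro k
    rw [hG.four_coe, F_eq, F_eq, fourier_coe_apply]
    congr 1
    · congr 1; ext s
      have : -(s * ((k : ℝ) - y)) = -(s * k) + y * s := by ring
      rw [this, E_add]; ring
    · unfold E; congr 1; push_cast; ring
  simp_rw [e1] at P
  have hs : Summable (fun k : ℤ => 𝓕 θ (k - y) * E (k * t)) := by
    refine Summable.of_norm ?_
    simpa [E_norm] using h.summ_sub y
  have := hs.hasSum
  rw [← P] at this
  exact this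

noncomputable def T (θ : ℝ → ℂ) (s : ℝ) : ℝ := 2 * (𝓕 θ s).re

lemma T_abs (θ : ℝ → ℂ) (s : ℝ) : |T θ s| ≤ 2 * ‖𝓕 θ s‖ := by
  unfold T; rw [abs_mul, abs_two]
  have := Complex.abs_re_le_norm (𝓕 θ s)
  linarith

lemma symbol {θ : ℝ → ℂ} (h : Good θ) (y t : ℝ) (ht : t ∈ Set.Icc (1/8 : ℝ) (3/8)) :
    HasSum (fun k : ℤ => ((T θ (k - y) : ℝ) : ℂ) * E (k * t)) (θ t * E (y * t)) := by
  have h1 := poisson0 h y t
  have h2 := poisson0 h y (-t)
  have e1 : (∑' n : ℤ, θ (t + n) * E (y * (t + n))) = θ t * E (y * t) := by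
    rw [tsum_eq_single 0]
    · simp
    · intro n hn
      rw [h.2, zero_mul]
      rintro ⟨a, b⟩
      have a1 : (-1 : ℝ) < n := by linarith [ht.2]
      have a2 : (n : ℝ) < 1 := by linarith [ht.1]
      have a3 : (-1 : ℤ) < n := by exact_mod_cast a1
      have a4 : n < (1 : ℤ) := by exact_mod_cast a2
      omega
  have e2 : (∑' n : ℤ, θ (-t + n) * E (y * (-t + n))) = 0 := by
    have : ∀ n : ℤ, θ (-t + n) * E (y * (-t + n)) = 0 := by
      intro n
      rw [h.2, zero_mul]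
      rintro ⟨a, b⟩
      have a1 : (0 : ℝ) < n := by linarith [ht.1]
      have a2 : (n : ℝ) < 1 := by linarith [ht.2]
      have a3 : (0 : ℤ) < n := by exact_mod_cast a1
      have a4 : n < (1 : ℤ) := by exact_mod_cast a2
      omega
    simp [this]
  rw [e1] at h1
  rw [e2] at h2
  have h3 := h2.star
  have h4 := h1.add h3
  simp only [star_zero, add_zero] at h4
  convert h4 using 2 with k
  rw [star_mul', Complex.star_def, E_conj]
  have : -((k : ℝ) * -t) = k * t := by ring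
  rw [this, ← add_mul, Complex.add_conj]
  simp [T]

lemma repro {θ w : ℝ → ℂ} (h : Good θ) (hw : Good w) (x y : ℝ) :
    HasSum (fun k : ℤ => ((T θ (k - y) : ℝ) : ℂ) * 𝓕 w (x - k))
      (𝓕 (fun t => θ t * w t) (x - y)) := by
  set F : ℤ → ℝ → ℂ := fun k t => ((T θ (k - y) : ℝ) : ℂ) * (E (-(t * (x - k))) * w t) with hF
  have hI : ∀ k, Integrable (F k) := by
    intro k
    refine Integrable.const_mul ?_ _
    have : Good (fun t => w t * E (-(t * (x - k)))) :=
      hw.mul_right (E_smooth.comp (contDiff_id.mul contDiff_const).neg)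
    simpa [mul_comm] using this.integrable
  have hS : Summable (fun k => ∫ t, ‖F k t‖) := by
    have e : ∀ k, ∫ t, ‖F k t‖ = |T θ (k - y)| * ∫ t, ‖w t‖ := by
      intro k
      rw [← integral_const_mul]
      congr 1; ext t
      simp [hF, E_norm]
    simp_rw [e]
    refine Summable.mul_right _ ?_
    exact Summable.of_nonneg_of_le (fun _ => abs_nonneg _) (fun k => T_abs _ _)
      ((h.summ_sub y).mul_left 2)
  have H := hasSum_integral_of_summable_integral_norm hI hS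
  have A1 : (fun k : ℤ => ((T θ (k - y) : ℝ) : ℂ) * 𝓕 w (x - k)) = fun k => ∫ a, F k a := by
    ext k
    rw [F_eq, ← integral_const_mul]
  have A2 : 𝓕 (fun t => θ t * w t) (x - y) = ∫ a, ∑' i, F i a := by
    rw [F_eq]
    congr 1; ext t
    by_cases ht : t ∈ Set.Icc (1/8 : ℝ) (3/8)
    · have h1 := ((symbol h y t ht).mul_right (E (-(t * x)) * w t)).tsum_eq
      have e : ∀ k : ℤ, F k t = ((T θ (k - y) : ℝ) : ℂ) * E (k * t) * (E (-(t * x)) * w t) := by
        intro k
        have : -(t * (x - k)) = k * t + -(t * x) := by ring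
        simp only [hF]
        rw [this, E_add]; ring
      simp_rw [e]
      rw [h1]
      have : -(t * (x - y)) = y * t + -(t * x) := by ring
      rw [this, E_add]; ring
    · simp [hF, hw.2 t ht]
  rw [A1, A2]; exact H

noncomputable def dd (t : ℝ) : ℂ := -2 * π * I * t

lemma dd_smooth : ContDiff ℝ ∞ dd := by
  unfold dd
  exact contDiff_const.mul Complex.ofRealCLM.contDiff

lemma Good.deriv {v : ℝ → ℂ} (h : Good v) (x : ℝ) :
    HasDerivAt (T v) (T (fun t => v t * dd t) x) x := by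
  have h1 : Integrable (fun t : ℝ => t • v t) := by
    have := (h.mul_right (Complex.ofRealCLM.contDiff (n := ∞))).integrable
    simpa [mul_comm] using this
  have h2 := Real.hasDerivAt_fourier h.integrable h1 x
  have e : (fun t : ℝ => (-2 * π * I * t : ℂ) • v t) = fun t => v t * dd t := by
    ext t; simp [dd, mul_comm]
  rw [e] at h2
  have h3 := (Complex.reCLM.hasFDerivAt.comp_hasDerivAt x h2).const_mul 2
  exact h3

lemma four_norm_le (v : ℝ → ℂ) (x : ℝ) : ‖𝓕 v x‖ ≤ ∫ t, ‖v t‖ := by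
  rw [F_eq]
  refine (norm_integral_le_integral_norm _).trans (le_of_eq ?_)
  congr 1; ext t; simp [E_norm]

end Pool.Agent.H6.TZ
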