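import Pool.Agent.H6.TZa

set_option autoImplicit false
open MeasureTheory
open scoped BoundedContinuousFunction

namespace Pool.Agent.H6.TZ

def rho (T1 T0 : ℝ → ℝ) (j a : ℝ) : ℝ := T1 (j - a) - T1 j + a * T0 j

lemma mvt_sym (g g' : ℝ → ℝ) (r C : ℝ) (hg : ∀ s, HasDerivAt g (g' s) s)
    (hb : ∀ s, |s| ≤ r → |g' s| ≤ C) (a b : ℝ) (ha : |a| ≤ r) (hb' : |b| ≤ r) :
    |g a - g b| ≤ C * |a - b| := by
  have := Convex.norm_image_sub_le_of_norm_hasDerivWithin_le (f := g) (f' := g')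
    (s := Set.Icc (-r) r) (C := C) (x := b) (y := a) (fun s _ => (hg s).hasDerivWithinAt)
    (fun s hs => hb s (abs_le.mpr hs)) (convex_Icc _ _) (abs_le.mp hb') (abs_le.mp ha)
  simpa using this

lemma rho_lip {T1 T0 T2 : ℝ → ℝ} {K : ℝ} (hK : 0 ≤ K) (h1 : ∀ s, HasDerivAt T1 (T0 s) s)
    (h0 : ∀ s, HasDerivAt T0 (T2 s) s) (h2 : ∀ s, |T2 s| ≤ K / (1 + s ^ 2))
    (r : ℝ) (hr0 : 0 ≤ r) (hr : r ≤ 1) (j a b : ℝ) (ha : |a| ≤ r) (hb : |b| ≤ r) :
    |rho T1 T0 j a - rho T1 T0 j b| ≤ r * (4 * K / (1 + j ^ 2)) * |a - b| := by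
  refine mvt_sym (fun a => rho T1 T0 j a) (fun a => -(T0 (j - a)) + T0 j) r _ (fun s => ?_)
    (fun s hs => ?_) a b ha hb
  · unfold rho
    have e1 : HasDerivAt (fun a : ℝ => T1 (j - a)) (T0 (j - s) * (-1)) s :=
      (h1 (j - s)).comp s ((hasDerivAt_id s).const_sub j)
    have e2 := (e1.sub_const (T1 j)).add ((hasDerivAt_id s).mul_const (T0 j))
    have e3 : -T0 (j - s) + T0 j = T0 (j - s) * -1 + 1 * T0 j := by ring
    rw [e3]
    exact e2
  · have := mvt_sym (fun a => T0 (j - a)) (fun a => T2 (j - a) * (-1)) r (4 * K / (1 + j ^ 2))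
      (fun u => (h0 (j - u)).comp u ((hasDerivAt_id u).const_sub j)) (fun u hu => by
        rw [abs_mul, abs_neg, abs_one, mul_one]
        refine (h2 _).trans ?_
        have h3 := shift_bound K j (-u) hK
        rw [← sub_eq_add_neg] at h3
        refine h3.trans ?_
        have : u ^ 2 ≤ 1 := by
          rw [← sq_abs]; nlinarith [abs_nonneg u]
        rw [neg_sq]
        exact div_le_div_of_nonneg_right (by nlinarith) (by positivity)) 0 s (by simpa using hr0) hs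
    simp only [sub_zero, zero_sub, abs_neg] at this
    have e : -T0 (j - s) + T0 j = T0 j - T0 (j - s) := by ring
    rw [e]
    refine this.trans ?_
    rw [mul_comm]
    gcongr

lemma rho_zero (T1 T0 : ℝ → ℝ) (j : ℝ) : rho T1 T0 j 0 = 0 := by simp [rho]

noncomputable def cl (r a : ℝ) : ℝ := max (-r) (min r a)

lemma cl_abs {r : ℝ} (hr : 0 ≤ r) (a : ℝ) : |cl r a| ≤ r := by
  unfold cl
  rw [abs_le]
  exact ⟨le_max_left _ _, max_le (by linarith) (min_le_left _ _)⟩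

lemma cl_lip (r a b : ℝ) : |cl r a - cl r b| ≤ |a - b| := by
  unfold cl
  refine (abs_max_sub_max_le_max _ _ _ _).trans (max_le (by simp) ?_)
  refine (abs_min_sub_min_le_max _ _ _ _).trans (max_le (by simp) le_rfl)

lemma cl_eq {r a : ℝ} (h : |a| ≤ r) : cl r a = a := by
  unfold cl
  rw [abs_le] at h
  rw [min_eq_right h.2, max_eq_right h.1]

lemma fixed {T1 T0 T2 : ℝ → ℝ} {K : ℝ} (hK : 0 ≤ K) (h1 : ∀ s, HasDerivAt T1 (T0 s) s)
    (h0 : ∀ s, HasDerivAt T0 (T2 s) s) (h2 : ∀ s, |T2 s| ≤ K / (1 + s ^ 2)) :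
    ∃ δ : ℝ, 0 < δ ∧ ∀ β : ℤ → ℝ, (∀ k, |β k| ≤ δ) → ∃ α : ℤ → ℝ, (∀ n, |α n| ≤ 1 / 8) ∧
      (∀ k : ℤ, α k = β k + ∑' n : ℤ, rho T1 T0 ((k : ℝ) - n) (α n)) ∧
      (∀ (j : ℝ) (n : ℤ), |rho T1 T0 j (α n)| ≤ 4 * K / (1 + j ^ 2)) := by
  set c : ℤ → ℝ := fun j => 4 * K / (1 + (j : ℝ) ^ 2) with hc
  have hcs : Summable c := summable_base _
  set C := ∑' j, c j with hC
  have hC0 : 0 ≤ C := tsum_nonneg (fun j => by simp only [hc]; positivity)
  have hck : ∀ k : ℤ, HasSum (fun n : ℤ => 4 * K / (1 + ((k : ℝ) - n) ^ 2)) C := by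
    intro k
    have := (Equiv.subLeft k).hasSum_iff.mpr hcs.hasSum
    convert this using 1
    ext n; simp [hc]
  set r : ℝ := min (1 / 8) (1 / (2 * (C + 1))) with hr
  have hr0 : 0 < r := lt_min (by norm_num) (by positivity)
  have hr8 : r ≤ 1 / 8 := min_le_left _ _
  have hr1 : r ≤ 1 := by linarith
  have hrC : r * C ≤ 1 / 2 := by
    have : r ≤ 1 / (2 * (C + 1)) := min_le_right _ _
    rw [le_div_iff₀ (by positivity)] at this
    nlinarith
  have key : ∀ (a b : ℤ → ℝ) (d : ℝ), (∀ n, |a n - b n| ≤ d) → ∀ k n : ℤ,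
      |rho T1 T0 ((k : ℝ) - n) (cl r (a n)) - rho T1 T0 ((k : ℝ) - n) (cl r (b n))|
        ≤ r * (4 * K / (1 + ((k : ℝ) - n) ^ 2)) * d := by
    intro a b d hd k n
    refine (rho_lip hK h1 h0 h2 r hr0.le hr1 _ _ _ (cl_abs hr0.le _) (cl_abs hr0.le _)).trans ?_
    gcongr
    exact (cl_lip _ _ _).trans (hd n)
  have bd : ∀ (j a : ℝ), |a| ≤ r → |rho T1 T0 j a| ≤ r * (4 * K / (1 + j ^ 2)) * r := by
    intro j a ha
    have := rho_lip hK h1 h0 h2 r hr0.le hr1 j a 0 ha (by simpa using hr0.le)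
    rw [rho_zero, sub_zero, sub_zero] at this
    refine this.trans ?_
    gcongr
  have sm : ∀ (a : ℤ → ℝ) (k : ℤ), Summable (fun n : ℤ => rho T1 T0 ((k : ℝ) - n) (cl r (a n))) :=
    fun a k => Summable.of_norm_bounded (((hck k).mul_left r).mul_right r).summable
      (fun n => bd _ _ (cl_abs hr0.le _))
  have sb : ∀ (a : ℤ → ℝ) (k : ℤ), |∑' n : ℤ, rho T1 T0 ((k : ℝ) - n) (cl r (a n))| ≤ r / 2 := by
    intro a k
    have := tsum_of_norm_bounded (((hck k).mul_left r).mul_right r)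
      (f := fun n : ℤ => rho T1 T0 ((k : ℝ) - n) (cl r (a n))) (fun n => bd _ _ (cl_abs hr0.le _))
    refine le_trans this ?_
    nlinarith
  refine ⟨r / 2, by positivity, fun β hβ => ?_⟩
  let Φ : (ℤ →ᵇ ℝ) → (ℤ →ᵇ ℝ) := fun a =>
    BoundedContinuousFunction.ofNormedAddCommGroupDiscrete
      (fun k => β k + ∑' n : ℤ, rho T1 T0 ((k : ℝ) - n) (cl r (a n))) r (fun k => by
        have := abs_add_le (β k) (∑' n : ℤ, rho T1 T0 ((k : ℝ) - n) (cl r (a n)))
        have h3 := sb a k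
        have h4 := hβ k
        rw [Real.norm_eq_abs]; linarith)
  have Φap : ∀ a k, Φ a k = β k + ∑' n : ℤ, rho T1 T0 ((k : ℝ) - n) (cl r (a n)) := fun _ _ => rfl
  have hΦ : ContractingWith (1 / 2) Φ := by
    refine ⟨by norm_num, LipschitzWith.of_dist_le_mul (fun a b => ?_)⟩
    rw [BoundedContinuousFunction.dist_le (by positivity)]
    intro k
    rw [Φap, Φap, dist_add_left, Real.dist_eq, ← (sm a k).tsum_sub (sm b k)]
    have := tsum_of_norm_bounded (((hck k).mul_left r).mul_right (dist a b))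
      (f := fun n : ℤ => rho T1 T0 ((k : ℝ) - n) (cl r (a n)) - rho T1 T0 ((k : ℝ) - n) (cl r (b n)))
      (fun n => key a b (dist a b) (fun n => by
        rw [← Real.dist_eq]; exact BoundedContinuousFunction.dist_coe_le_dist n) k n)
    refine le_trans this ?_
    have hd : 0 ≤ dist a b := dist_nonneg
    push_cast
    nlinarith
  set a := ContractingWith.fixedPoint Φ hΦ with ha
  have hfix : Φ a = a := hΦ.fixedPoint_isFixedPt
  have har : ∀ n, |a n| ≤ r := by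
    intro n
    rw [← hfix, Φap]
    have := abs_add_le (β n) (∑' m : ℤ, rho T1 T0 ((n : ℝ) - m) (cl r (a m)))
    have h3 := sb a n
    have h4 := hβ n
    linarith
  refine ⟨fun n => a n, fun n => (har n).trans hr8, fun k => ?_, fun j n => ?_⟩
  · have := Φap a k
    rw [hfix] at this
    simp_rw [cl_eq (har _)] at this
    exact this
  · refine (bd j _ (har n)).trans ?_
    have : 0 ≤ 4 * K / (1 + j ^ 2) := by positivity
    have h5 : r * r ≤ 1 := by nlinarith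
    nlinarith

end Pool.Agent.H6.TZ
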