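import Pool.Agent.H6.TZb

set_option autoImplicit false
open MeasureTheory Complex
open scoped FourierTransform ContDiff Real

namespace Pool.Agent.H6.TZ

lemma bump (a b : ℝ) (ha : 0 < a) (hab : a < b) : ∃ χ : ℝ → ℂ, ContDiff ℝ ∞ χ ∧
    (∀ t, |t - 1 / 4| ≤ a → χ t = 1) ∧ (∀ t, b ≤ |t - 1 / 4| → χ t = 0) ∧ ∀ t, ‖χ t‖ ≤ 1 := by
  let B : ContDiffBump (1 / 4 : ℝ) := ⟨a, b, ha, hab⟩
  refine ⟨fun t => ((B t : ℝ) : ℂ), Complex.ofRealCLM.contDiff.comp B.contDiff, fun t ht => ?_,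
    fun t ht => ?_, fun t => ?_⟩
  · have : B t = 1 := B.one_of_mem_closedBall (by rw [Metric.mem_closedBall, Real.dist_eq]; exact ht)
    simp [this]
  · have : B t = 0 := B.zero_of_le_dist (by rw [Real.dist_eq]; exact ht)
    simp [this]
  · rw [Complex.norm_real, Real.norm_of_nonneg B.nonneg]
    exact B.le_one

lemma den_ne {t : ℝ} (h0 : 0 < t) (h1 : t < 1) : dd t * (1 - E t) ≠ 0 := by
  refine mul_ne_zero ?_ ?_
  · unfold dd
    have : (t : ℂ) ≠ 0 := by exact_mod_cast h0.ne'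
    have hp : (π : ℂ) ≠ 0 := by exact_mod_cast Real.pi_ne_zero
    simp [this, hp]
  · intro h
    have h2 : E t = 1 := by linear_combination -h
    unfold E at h2
    obtain ⟨n, hn⟩ := Complex.exp_eq_one_iff.mp h2
    have hp : (2 * π * I : ℂ) ≠ 0 := Complex.two_pi_I_ne_zero
    have h3 : (t : ℂ) = n := by
      apply mul_right_cancel₀ hp
      rw [← hn]; push_cast; ring
    have h4 : t = n := by exact_mod_cast h3
    rw [h4] at h0 h1
    have a3 : (0 : ℤ) < n := by exact_mod_cast h0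
    have a4 : n < (1 : ℤ) := by exact_mod_cast h1
    omega

lemma exists_h : ∃ h : ℝ → ℂ, Good h ∧
    ∀ t, |t - 1 / 4| ≤ 1 / 16 → h t * (1 - E t) * dd t = 1 := by
  obtain ⟨ψ, hs, h1, h0, -⟩ := bump (1 / 16) (1 / 8) (by norm_num) (by norm_num)
  refine ⟨fun t => ψ t * (dd t * (1 - E t))⁻¹, ⟨?_, fun t ht => ?_⟩, fun t ht => ?_⟩
  · rw [contDiff_iff_contDiffAt]
    intro t
    by_cases ht : 0 < t ∧ t < 1
    · exact hs.contDiffAt.mul (ContDiffAt.inv (dd_smooth.mul (contDiff_const.sub E_smooth)).contDiffAt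
        (den_ne ht.1 ht.2))
    · have : ∀ᶠ s in nhds t, 1 / 8 < |s - 1 / 4| := by
        have hc : Continuous (fun s : ℝ => |s - 1 / 4|) := by fun_prop
        refine hc.continuousAt.eventually (lt_mem_nhds ?_)
        rw [lt_abs]
        by_cases h : 0 < t
        · left; push Not at ht; linarith [ht h]
        · right; linarith
      refine (contDiffAt_const (c := (0 : ℂ))).congr_of_eventuallyEq ?_
      filter_upwards [this] with s hs'
      simp [h0 s hs'.le]
  · have : 1 / 8 ≤ |t - 1 / 4| := by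
      rw [le_abs]
      by_contra hh
      push Not at hh
      exact ht ⟨by linarith [hh.2], by linarith [hh.1]⟩
    simp [h0 t this]
  · have := abs_le.mp ht
    have hne := den_ne (t := t) (by linarith [this.1]) (by linarith [this.2])
    have h2 : dd t ≠ 0 := left_ne_zero_of_mul hne
    have h3 : 1 - E t ≠ 0 := right_ne_zero_of_mul hne
    simp only [h1 t ht]
    field_simp

lemma tele_int {g : ℝ → ℂ} (x : ℝ) (hs : Summable (fun n : ℤ => g (x - n))) :
    HasSum (fun n : ℤ => g (x - n) - g (x - n - 1)) 0 := by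
  have h2 := (Equiv.addRight (1 : ℤ)).hasSum_iff.mpr hs.hasSum
  have h3 := hs.hasSum.sub h2
  rw [sub_self] at h3
  have e : (fun n : ℤ => g (x - n) - g (x - n - 1)) =
      fun b : ℤ => g (x - b) - ((fun n : ℤ => g (x - n)) ∘ (Equiv.addRight (1 : ℤ))) b := by
    ext n; simp [sub_sub]
  rw [e]; exact h3

lemma tele_nat {g : ℝ → ℂ} (x : ℝ) (hs : Summable (fun n : ℤ => g (x - n))) :
    HasSum (fun n : ℕ => g (x - n) - g (x - n - 1)) (g x) := by
  have h1 : Summable (fun n : ℕ => g (x - n)) := by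
    have := hs.comp_injective (Nat.cast_injective (R := ℤ))
    simpa [Function.comp_def] using this
  have h2 : Summable (fun n : ℕ => g (x - ((n + 1 : ℕ) : ℝ))) := (summable_nat_add_iff 1).mpr h1
  have h3 := h1.hasSum.sub h2.hasSum
  rw [h1.tsum_eq_zero_add] at h3
  simpa [sub_sub] using h3

lemma combine (ρ : ℤ → ℤ → ℝ) (K : ℝ) (hK : 0 ≤ K)
    (hρ : ∀ k n : ℤ, |ρ k n| ≤ K / (1 + ((k : ℝ) - n) ^ 2)) (u : ℤ → ℂ)
    (su : Summable (fun k => ‖u k‖)) (α β : ℤ → ℝ) (he : ∀ k, α k = β k + ∑' n, ρ k n)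
    (D : ℤ → ℂ) (hD : ∀ n, HasSum (fun k => (ρ k n : ℂ) * u k) (D n)) :
    ∃ S, HasSum (fun k => ((α k : ℂ) - (β k : ℂ)) * u k) S ∧ HasSum D S := by
  have hck : ∀ k : ℤ, HasSum (fun n : ℤ => K / (1 + ((k : ℝ) - n) ^ 2))
      (∑' j : ℤ, K / (1 + (j : ℝ) ^ 2)) := by
    intro k
    have := (Equiv.subLeft k).hasSum_iff.mpr (summable_base K).hasSum
    convert this using 1
    ext n; simp
  have sG : Summable (fun p : ℤ × ℤ => (ρ p.1 p.2 : ℂ) * u p.1) := by
    have s0 : Summable (fun p : ℤ × ℤ => K / (1 + ((p.1 : ℝ) - p.2) ^ 2) * ‖u p.1‖) := by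
      have hn : 0 ≤ (fun p : ℤ × ℤ => K / (1 + ((p.1 : ℝ) - p.2) ^ 2) * ‖u p.1‖) :=
        fun p => mul_nonneg (div_nonneg hK (by positivity)) (norm_nonneg _)
      refine (summable_prod_of_nonneg hn).mpr ⟨fun k => ((hck k).mul_right ‖u k‖).summable, ?_⟩
      have : ∀ k : ℤ, ∑' n : ℤ, K / (1 + ((k : ℝ) - n) ^ 2) * ‖u k‖ =
          (∑' j : ℤ, K / (1 + (j : ℝ) ^ 2)) * ‖u k‖ :=
        fun k => ((hck k).mul_right _).tsum_eq
      simp only [this]
      exact su.mul_left _
    refine Summable.of_norm_bounded s0 (fun p => ?_)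
    rw [norm_mul, Complex.norm_real, Real.norm_eq_abs]
    exact mul_le_mul_of_nonneg_right (hρ _ _) (norm_nonneg _)
  refine ⟨∑' p : ℤ × ℤ, (ρ p.1 p.2 : ℂ) * u p.1, ?_, ?_⟩
  · refine sG.hasSum.prod_fiberwise (fun k => ?_)
    have s1 : Summable (fun n : ℤ => ρ k n) :=
      Summable.of_norm_bounded (hck k).summable (fun n => hρ _ _)
    have s2 := Complex.hasSum_ofReal.mpr s1.hasSum
    have s3 : (∑' n : ℤ, ρ k n) = α k - β k := by
      have := he k
      linarith
    rw [s3] at s2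
    push_cast at s2
    exact s2.mul_right (u k)
  · have := (Equiv.prodComm ℤ ℤ).hasSum_iff.mpr sG.hasSum
    exact this.prod_fiberwise (fun n => hD n)

theorem construct : ∃ (f : ℝ → ℂ) (α : ℤ → ℝ), Integrable f ∧ Continuous f ∧ f ≠ 0 ∧
    (∀ n, |α n| ≤ 1 / 8) ∧ (∃ K : ℝ, 0 ≤ K ∧ ∀ x : ℝ, ‖f x‖ ≤ K / (1 + x ^ 2)) ∧
    ∀ x : ℝ, ∃ S : ℂ, HasSum (fun n : ℤ => f (x - (n + α n))) (-S) ∧
      HasSum (fun m : ℕ => f (x - (m + 1 / 2))) S := by
  obtain ⟨h, hh, h1⟩ := exists_h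
  have g1 : Good (fun t => h t * (1 - E t)) := hh.mul_right (contDiff_const.sub E_smooth)
  set θ1 : ℝ → ℂ := fun t => h t * (1 - E t) with hθ1
  have g0 : Good (fun t => θ1 t * dd t) := g1.mul_right dd_smooth
  set θ0 : ℝ → ℂ := fun t => θ1 t * dd t with hθ0
  have g00 : Good (fun t => θ0 t * dd t) := g0.mul_right dd_smooth
  obtain ⟨K, hK, hKd⟩ := g00.decay
  obtain ⟨δ, hδ, hfix⟩ := fixed (T1 := T θ1) (T0 := T θ0) (T2 := T (fun t => θ0 t * dd t))
    (K := 2 * K) (by positivity) g1.deriv g0.deriv (fun s => by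
      refine (T_abs _ _).trans ?_
      rw [mul_div_assoc]
      gcongr
      exact hKd s)
  obtain ⟨M, hM⟩ := hh.cont.bounded_above_of_compact_support hh.cs
  have hM0 : 0 ≤ M := (norm_nonneg _).trans (hM 0)
  set ε : ℝ := min (1 / 8) (δ / (4 * (M + 1))) with hε
  have hε0 : 0 < ε := lt_min (by norm_num) (by positivity)
  have hε8 : ε ≤ 1 / 8 := min_le_left _ _
  have hεM : 4 * (ε * M) ≤ δ := by
    have : ε ≤ δ / (4 * (M + 1)) := min_le_right _ _
    rw [le_div_iff₀ (by positivity)] at this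
    nlinarith
  obtain ⟨χ, χs, χ1, χ0, χb⟩ := bump (ε / 2) ε (by positivity) (by linarith)
  obtain ⟨w, ws, w1, w0, -⟩ := bump (ε / 4) (ε / 2) (by positivity) (by linarith)
  have gw : Good w := ⟨ws, fun t ht => w0 t (by
    rw [le_abs]
    by_contra hh
    push Not at hh
    exact ht ⟨by linarith [hh.2], by linarith [hh.1]⟩)⟩
  have g2 : Good (fun t => h t * χ t) := hh.mul_right χs
  set θ2 : ℝ → ℂ := fun t => h t * χ t with hθ2
  have hβ : ∀ s, |T θ2 s| ≤ δ := by
    intro s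
    refine (T_abs _ _).trans ?_
    have i1 : ∫ t, ‖θ2 t‖ ≤ ∫ t, (Set.Icc (1 / 4 - ε) (1 / 4 + ε)).indicator (fun _ => M) t := by
      refine integral_mono g2.integrable.norm ?_ (fun t => ?_)
      · exact (integrable_indicator_iff measurableSet_Icc).mpr (integrableOn_const (by simp))
      · by_cases ht : t ∈ Set.Icc (1 / 4 - ε) (1 / 4 + ε)
        · simp only [Set.indicator_of_mem ht, hθ2, norm_mul]
          have := hM t
          have := χb t
          nlinarith [norm_nonneg (h t), norm_nonneg (χ t)]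
        · have : χ t = 0 := χ0 t (by
            rw [le_abs]
            by_contra hh
            push Not at hh
            exact ht ⟨by linarith [hh.2], by linarith [hh.1]⟩)
          show ‖h t * χ t‖ ≤ _
          rw [Set.indicator_of_notMem ht, this, mul_zero, norm_zero]
    rw [integral_indicator_const _ measurableSet_Icc, Real.volume_real_Icc_of_le (by linarith),
      smul_eq_mul] at i1
    have := four_norm_le θ2 s
    nlinarith
  obtain ⟨α, hα, hαe, hρ⟩ := hfix (fun k => T θ2 (k - 1 / 2)) (fun k => hβ _)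
  have supp : ∀ t, w t = 0 ∨ (χ t = 1 ∧ θ0 t = 1) := by
    intro t
    by_cases ht : ε / 2 ≤ |t - 1 / 4|
    · exact Or.inl (w0 t ht)
    · push Not at ht
      exact Or.inr ⟨χ1 t ht.le, h1 t (by linarith)⟩
  have e0 : (fun t => θ0 t * w t) = w := by
    ext t; rcases supp t with a | a
    · simp [a]
    · simp [a.2]
  have gf : Good (fun t => θ1 t * w t) := g1.mul_right ws
  have gg : Good (fun t => θ2 t * w t) := g2.mul_right ws
  set f : ℝ → ℂ := 𝓕 (fun t => θ1 t * w t) with hf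
  set g : ℝ → ℂ := 𝓕 (fun t => θ2 t * w t) with hg
  have fg : ∀ x, f x = g x - g (x - 1) := by
    intro x
    have I : ∀ y : ℝ, Integrable (fun t => E (-(t * y)) * (θ2 t * w t)) := by
      intro y
      have : Good (fun t => (θ2 t * w t) * E (-(t * y))) :=
        gg.mul_right (E_smooth.comp (contDiff_id.mul contDiff_const).neg)
      simpa [mul_comm] using this.integrable
    simp only [hf, hg]
    rw [F_eq, F_eq, F_eq, ← integral_sub (I _) (I _)]
    congr 1; ext t
    have : -(t * (x - 1)) = -(t * x) + t := by ring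
    rw [this, E_add]
    rcases supp t with a | a
    · simp [a]
    · simp only [hθ1, hθ2, a.1]; ring
  refine ⟨f, α, gf.four_integrable, gf.four_cont, fun hz => ?_, hα, gf.decay, fun x => ?_⟩
  · have := gf.cont.fourierInv_fourier_eq gf.integrable gf.four_integrable
    rw [← hf, hz] at this
    have h3 := congrFun this (1 / 4)
    have h4 : w (1 / 4) = 1 := w1 _ (by simp; positivity)
    have h5 := h1 (1 / 4) (by norm_num)
    have h6 : 𝓕⁻ (0 : ℝ → ℂ) (1 / 4) = 0 := by
      rw [Real.fourierInv_eq]; simp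
    rw [h6, h4, mul_one] at h3
    simp only [hθ1] at h3
    rw [← h3] at h5
    simp at h5
  refine ⟨g (x - 1 / 2), ?_, ?_⟩
  swap
  · have := tele_nat (g := g) (x - 1 / 2) (gg.summ_sub' _).of_norm
    simp_rw [← fg] at this
    have e : (fun m : ℕ => f (x - (m + 1 / 2))) = fun m : ℕ => f (x - 1 / 2 - m) := by
      ext m; congr 1; ring
    rw [e]; exact this
  set U : ℝ → ℂ := 𝓕 w with hU
  have sU : Summable (fun k : ℤ => ‖U (x - k)‖) := gw.summ_sub' x
  have hD : ∀ n : ℤ, HasSum (fun k : ℤ => ((rho (T θ1) (T θ0) ((k : ℝ) - n) (α n) : ℝ) : ℂ) * U (x - k))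
      (f (x - (n + α n)) - f (x - n) + (α n : ℂ) * U (x - n)) := by
    intro n
    have a1 := repro g1 gw x (n + α n)
    have a2 := repro g1 gw x n
    have a3 := repro g0 gw x n
    rw [e0] at a3
    have a4 := (a1.sub a2).add (a3.mul_left (α n : ℂ))
    have e : (fun k : ℤ => ((rho (T θ1) (T θ0) ((k : ℝ) - n) (α n) : ℝ) : ℂ) * U (x - k)) =
        fun k : ℤ => ((T θ1 (k - (n + α n)) : ℝ) : ℂ) * 𝓕 w (x - k) -
          ((T θ1 (k - n) : ℝ) : ℂ) * 𝓕 w (x - k) +
          (α n : ℂ) * (((T θ0 (k - n) : ℝ) : ℂ) * 𝓕 w (x - k)) := by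
      ext k
      simp only [rho, hU, sub_sub]
      push_cast; ring
    rw [e]; exact a4
  obtain ⟨S, F1, F2⟩ := combine (fun k n => rho (T θ1) (T θ0) ((k : ℝ) - n) (α n)) (4 * (2 * K))
    (by positivity) (fun k n => hρ _ _) (fun k => U (x - k)) sU α (fun k => T θ2 (k - 1 / 2)) hαe
    _ hD
  have F3 : HasSum (fun n : ℤ => f (x - n)) 0 := by
    have := tele_int (g := g) x (gg.summ_sub' _).of_norm
    simpa only [← fg] using this
  have F4 := repro g2 gw x (1 / 2)
  have F5 := ((F2.add F3).sub F1).sub F4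
  have e1 : (fun n : ℤ => f (x - (n + α n))) = fun n : ℤ =>
      f (x - (n + α n)) - f (x - n) + (α n : ℂ) * U (x - n) + f (x - n) -
        ((α n : ℂ) - ((T θ2 (n - 1 / 2) : ℝ) : ℂ)) * U (x - n) -
        ((T θ2 (n - 1 / 2) : ℝ) : ℂ) * 𝓕 w (x - n) := by
    ext n; simp only [hU]; ring
  rw [e1]
  simpa using F5

end Pool.Agent.H6.TZ
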