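import Mathlib

namespace Pool.Agent.H6.Tag

def ch (n u : ℕ) : ℕ := Nat.pair n u + 1

def pre (b : ℕ → ℕ) : ℕ → ℕ
  | 0 => 0
  | i + 1 => ch (b i) (pre b i)

def T (v : ℕ) : ℕ := (v / 2).unpair.1
def lt (s t : ℕ) : Prop := s ≠ 0 ∧ (t = 0 ∨ s < t)
def le (s t : ℕ) : Prop := t = 0 ∨ (s ≠ 0 ∧ s ≤ t)
def On (b : ℕ → ℕ) (u : ℕ) : Prop := ∃ i, pre b i = u

def R (a b : ℕ → ℕ) : Prop := (∀ i, a (pre b i) % 2 = 0) ∧
  ∀ u n, ¬ On b u → a u % 2 = 0 → a (ch n u) % 2 = 0 → lt (T (b (ch n u))) (T (b u))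

def G (a b : ℕ → ℕ) : Prop := R a b ∧ R b a
def Ag (k : ℕ) (a a' : ℕ → ℕ) : Prop := ∀ i < k, a i = a' i
def AL (a : ℕ → ℕ) (k : ℕ) (X : ℕ → Prop) (u : ℕ) : Prop :=
  (u < k ∧ a u % 2 = 0) ∨ (k ≤ u ∧ X u)

theorem ch_gt (n u : ℕ) : u < ch n u := Nat.lt_succ_of_le (Nat.right_le_pair n u)
theorem ch_gt' (n u : ℕ) : n < ch n u := Nat.lt_succ_of_le (Nat.left_le_pair n u)
theorem ch_inj {n u m v : ℕ} (h : ch n u = ch m v) : n = m ∧ u = v :=
  Nat.pair_eq_pair.1 (Nat.succ_injective h)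

theorem pre_mono (b : ℕ → ℕ) : StrictMono (pre b) := strictMono_nat_of_lt_succ fun _ => ch_gt _ _
theorem le_pre (b : ℕ → ℕ) (i : ℕ) : i ≤ pre b i := (pre_mono b).le_apply
theorem lt_pre (b : ℕ → ℕ) {i j : ℕ} (h : i < j) : b i < pre b j :=
  (ch_gt' (b i) (pre b i)).trans_le ((pre_mono b).monotone (show i + 1 ≤ j from h))

theorem Ag.mono {k l : ℕ} {a b : ℕ → ℕ} (h : Ag k a b) (hl : l ≤ k) : Ag l a b :=
  fun i hi => h i (hi.trans_le hl)
theorem Ag.symm {k : ℕ} {a b : ℕ → ℕ} (h : Ag k a b) : Ag k b a := fun i hi => (h i hi).symm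
theorem Ag.trans {k : ℕ} {a b c : ℕ → ℕ} (h : Ag k a b) (h' : Ag k b c) : Ag k a c :=
  fun i hi => (h i hi).trans (h' i hi)

theorem Ag.pre {k : ℕ} {a b : ℕ → ℕ} (h : Ag k a b) : ∀ i, i ≤ k → pre a i = pre b i
  | 0, _ => rfl
  | i + 1, hi => by rw [Tag.pre, Tag.pre, h i hi, Ag.pre h i (by omega)]

theorem Ag.on {k u : ℕ} {a b : ℕ → ℕ} (h : Ag k a b) (hu : u ≤ k) : On a u ↔ On b u :=
  ⟨fun ⟨i, e⟩ => ⟨i, (h.pre i (((le_pre a i).trans e.le).trans hu)).symm.trans e⟩,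
    fun ⟨i, e⟩ => ⟨i, (h.pre i (((le_pre b i).trans e.le).trans hu)).trans e⟩⟩

theorem pre_inj (a b : ℕ → ℕ) : ∀ i j, pre a i = pre b j → i = j ∧ Ag i a b
  | 0, 0, _ => ⟨rfl, fun _ h => by omega⟩
  | 0, j + 1, h => by simp [pre, ch] at h
  | i + 1, 0, h => by simp [pre, ch] at h
  | i + 1, j + 1, h => by
    obtain ⟨h1, h2⟩ := ch_inj h
    obtain ⟨rfl, h3⟩ := pre_inj a b i j h2
    exact ⟨rfl, fun t ht => (Nat.lt_succ_iff_lt_or_eq.1 ht).elim (h3 t) fun e => e ▸ h1⟩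

theorem on_ch {b : ℕ → ℕ} {n u : ℕ} : On b (ch n u) → On b u
  | ⟨0, h⟩ => by simp [pre, ch] at h
  | ⟨i + 1, h⟩ => ⟨i, (ch_inj h).2⟩

theorem off {a b : ℕ → ℕ} {j i : ℕ} (h : a j ≠ b j) (hi : j < i) : ¬ On a (pre b i) := by
  rintro ⟨t, e⟩
  obtain ⟨rfl, h2⟩ := pre_inj a b t i e
  exact h (h2 j hi)

theorem uniq {a b c : ℕ → ℕ} (h : R a b) (h' : R a c) : b = c := by
  funext j
  by_contra hn
  have h1 : ∀ i, j < i → lt (T (b (pre c (i + 1)))) (T (b (pre c i))) :=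
    fun i hi => h.2 _ _ (off hn hi) (h'.1 i) (h'.1 (i + 1))
  have h2 : ∀ s, T (b (pre c (j + 2 + s))) ≠ 0 ∧
      T (b (pre c (j + 2 + s))) + s ≤ T (b (pre c (j + 2))) := by
    intro s
    induction s with
    | zero => exact ⟨(h1 (j + 1) (by omega)).1, le_rfl⟩
    | succ s ih =>
      have := h1 (j + 2 + s) (by omega)
      rw [← add_assoc]
      unfold lt at this
      omega
  have := h2 (T (b (pre c (j + 2))))
  omega

theorem exists_rec {α : Type} [Inhabited α] (Φ : (ℕ → α) → ℕ → α)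
    (h : ∀ f g i, (∀ j < i, f j = g j) → Φ f i = Φ g i) : ∃ f : ℕ → α, ∀ i, f i = Φ f i := by
  refine ⟨WellFounded.fix Nat.lt_wfRel.wf fun i r =>
    Φ (fun j => if hj : j < i then r j hj else default) i, fun i => ?_⟩
  rw [WellFounded.fix_eq]
  exact h _ _ i fun j hj => dif_pos hj

theorem ext (a0 b0 ρ σ : ℕ → ℕ) (X Y : ℕ → Prop) (k l N : ℕ) : ∃ a b, Ag k a a0 ∧ Ag l b b0 ∧
    (∀ i, k ≤ i → N ≤ a i ∧ T (a i) = σ i ∧ (a i % 2 = 0 ↔ X i ∨ On b i)) ∧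
    (∀ i, l ≤ i → N ≤ b i ∧ T (b i) = ρ i ∧ (b i % 2 = 0 ↔ Y i ∨ On a i)) := by
  classical
  obtain ⟨f, hf⟩ := exists_rec (α := ℕ × ℕ) (fun f i =>
    (if i < k then a0 i else 2 * Nat.pair (σ i) N + if X i ∨ On (fun j => (f j).2) i then 0 else 1,
    if i < l then b0 i else 2 * Nat.pair (ρ i) N + if Y i ∨ On (fun j => (f j).1) i then 0 else 1))
    fun f g i h => by
      have h1 : Ag i (fun j => (f j).1) fun j => (g j).1 :=
        fun j hj => congrArg Prod.fst (h j hj)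
      have h2 : Ag i (fun j => (f j).2) fun j => (g j).2 :=
        fun j hj => congrArg Prod.snd (h j hj)
      simp only [h1.on le_rfl, h2.on le_rfl]
  have key : ∀ (v t : ℕ) (p : Prop), v = 2 * Nat.pair t N + (if p then 0 else 1) →
      N ≤ v ∧ T v = t ∧ (v % 2 = 0 ↔ p) := by
    intro v t p h
    have h1 := Nat.right_le_pair t N
    have h2 : v / 2 = Nat.pair t N := by split_ifs at h <;> omega
    refine ⟨by omega, by rw [T, h2, Nat.unpair_pair], ?_⟩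
    split_ifs at h with hp <;> simp only [hp, iff_true, iff_false] <;> omega
  refine ⟨fun j => (f j).1, fun j => (f j).2, fun i hi => ?_, fun i hi => ?_,
    fun i hi => key _ _ _ ?_, fun i hi => key _ _ _ ?_⟩
  · exact (congrArg Prod.fst (hf i)).trans (if_pos hi)
  · exact (congrArg Prod.snd (hf i)).trans (if_pos hi)
  · convert (congrArg Prod.fst (hf i)).trans (if_neg hi.not_gt)
  · convert (congrArg Prod.snd (hf i)).trans (if_neg hi.not_gt)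

theorem half {a b a0 b0 ρ : ℕ → ℕ} {X : ℕ → Prop} {k l N : ℕ} (hk : k ≤ N) (ha : Ag k a a0)
    (hb : Ag l b b0) (ha2 : ∀ i, k ≤ i → (a i % 2 = 0 ↔ X i ∨ On b i))
    (hb2 : ∀ i, l ≤ i → N ≤ b i ∧ T (b i) = ρ i)
    (h1 : ∀ i ≤ l, pre b0 i < k → a0 (pre b0 i) % 2 = 0) (h2 : ∀ u < l, ρ u = T (b0 u))
    (h3 : ∀ u n, (∀ i ≤ l, pre b0 i ≠ u) → AL a0 k X u → AL a0 k X (ch n u) →
      lt (ρ (ch n u)) (ρ u)) : R a b := by
  have e : ∀ u, T (b u) = ρ u := fun u => by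
    by_cases hu : u < l
    · rw [h2 u hu, hb u hu]
    · exact (hb2 u (by omega)).2
  have al : ∀ u, ¬ On b u → a u % 2 = 0 → AL a0 k X u := fun u h4 h5 => by
    by_cases hu : u < k
    · exact Or.inl ⟨hu, ha u hu ▸ h5⟩
    · exact Or.inr ⟨by omega, ((ha2 u (by omega)).1 h5).resolve_right h4⟩
  refine ⟨fun i => ?_, fun u n h4 h5 h6 => ?_⟩
  · by_cases hi : pre b i < k
    · by_cases hl : i ≤ l
      · rw [ha _ hi, hb.pre i hl]
        exact h1 i hl (hb.pre i hl ▸ hi)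
      · have := lt_pre b (show l < i by omega)
        have := (hb2 l le_rfl).1
        omega
    · exact (ha2 _ (by omega)).2 (Or.inr ⟨i, rfl⟩)
  · rw [e, e]
    exact h3 u n (fun i hi e => h4 ⟨i, (hb.pre i hi).trans e⟩) (al u h4 h5)
      (al _ (fun h => h4 (on_ch h)) h6)

theorem tr {x y : ℕ → ℕ} (b0 τ : ℕ → ℕ) (X : ℕ → Prop) (l m : ℕ) (h : G x y) (hl : l ≤ m)
    (hX : ∀ u, X u → u < m) (t1 : ∀ i ≤ l, x (pre b0 i) % 2 = 0)
    (t2 : ∀ u < l, On x u → b0 u % 2 = 0)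
    (t3 : ∀ u n, ¬ On x u → AL b0 l X u → AL b0 l X (ch n u) → lt (T (x (ch n u))) (T (x u)))
    (t4 : ∀ u n, ch n u < l → (∀ i ≤ l, pre b0 i ≠ u) → x u % 2 = 0 → x (ch n u) % 2 = 0 →
      lt (T (b0 (ch n u))) (T (b0 u)))
    (t5 : ∀ u < l, (∀ i ≤ l, pre b0 i ≠ u) → x u % 2 = 0 →
      (On y u → T (b0 u) = 0) ∧ (¬ On y u → le (T (y u)) (T (b0 u)))) :
    ∃ x' b', G x' b' ∧ Ag m x' x ∧ Ag l b' b0 ∧ ∀ u, l ≤ u → m ≤ b' u ∧
      (b' u % 2 = 0 ↔ X u ∨ On x' u) ∧ (x u % 2 ≠ 0 → T (b' u) = τ u) ∧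
      (u < m → x u % 2 = 0 → ¬ On y u → le (T (b' u)) (T (y u))) := by
  classical
  let ρ : ℕ → ℕ := fun u => if u < l then T (b0 u) else if x u % 2 = 0 then
    (if On y u ∨ T (y u) = 0 then m - u else min (T (y u)) (m - u)) else τ u
  obtain ⟨x', b', h1, h2, h3, h4⟩ := ext x b0 ρ (fun u => T (x u)) (fun _ => False) X m l m
  refine ⟨x', b', ⟨half le_rfl h1 h2 (fun i hi => (h3 i hi).2.2)
    (fun i hi => ⟨(h4 i hi).1, (h4 i hi).2.1⟩) (fun i hi _ => t1 i hi) (fun u hu => if_pos hu) ?_,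
    half hl h2 h1 (fun i hi => (h4 i hi).2.2) (fun i hi => ⟨(h3 i hi).1, (h3 i hi).2.1⟩)
      (fun i _ hi => t2 _ hi ⟨i, rfl⟩) (fun _ _ => rfl) fun u n h5 h6 h7 => t3 u n ?_ h6 h7⟩,
    h1, h2, fun u hu => ⟨(h4 u hu).1, (h4 u hu).2.2, fun h5 => ?_, fun h5 h6 h7 => ?_⟩⟩
  · rintro u n h5 (⟨-, h6⟩ | ⟨-, ⟨⟩⟩) (⟨h7, h8⟩ | ⟨-, ⟨⟩⟩)
    have h9 := ch_gt n u
    by_cases c1 : ch n u < l
    · simp only [ρ, c1, h9.trans c1, if_true]
      exact t4 u n c1 h5 h6 h8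
    have h10 := h.1.2 u n
    have h11 := mt (on_ch (b := y) (n := n) (u := u))
    by_cases c2 : u < l
    · have := t5 u c2 h5 h6
      simp only [ρ, c1, c2, h8, if_true, if_false]
      by_cases c3 : On y u
      · have := this.1 c3
        unfold lt
        split_ifs <;> omega
      · have := this.2 c3
        have := h10 c3 h6 h8
        simp only [h11 c3, false_or]
        unfold lt le at *
        split_ifs <;> omega
    · simp only [ρ, c1, c2, h6, h8, if_true, if_false]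
      by_cases c3 : On y u
      · simp only [c3, true_or, if_true]
        unfold lt
        split_ifs <;> omega
      · have := h10 c3 h6 h8
        simp only [h11 c3, c3, false_or]
        unfold lt at *
        split_ifs <;> omega
  · rintro ⟨i, rfl⟩
    have := le_pre x i
    refine h5 i ?_ rfl
    rcases h6 with h6 | h6
    · omega
    · have := hX _ h6.2; omega
  · rw [(h4 u hu).2.1]
    simp only [ρ, hu.not_gt, h5, if_false]
  · rw [(h4 u hu).2.1]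
    simp only [ρ, hu.not_gt, h6, h7, if_true, if_false, false_or]
    unfold le
    split_ifs <;> omega

def Cyl (W : (ℕ → ℕ) → (ℕ → ℕ) → Prop) (a b : ℕ → ℕ) (k : ℕ) : Prop :=
  ∀ x y, G x y → Ag k x a → Ag k y b → W x y

def PA (W : (ℕ → ℕ) → (ℕ → ℕ) → Prop) (j : ℕ) (a0 b0 : ℕ → ℕ) : Prop :=
  ∀ a b k, j ≤ k → Ag j a a0 → Ag j b b0 → G a b → Cyl W a b k →
    ∃ a' b' k', k ≤ k' ∧ G a' b' ∧ Ag k a' a ∧ Ag k b' b ∧ ∀ x y, G x y → Ag j x a0 → Ag j y b0 →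
      (∀ m, ∃ x' y', G x' y' ∧ Ag m x' x ∧ Ag k' x' a' ∧ Ag k' y' b') → W x y

def St (W : (ℕ → ℕ) → (ℕ → ℕ) → Prop) (a b : ℕ → ℕ) (B : ℕ) : Prop :=
  G a b ∧ ∃ k, B ≤ k ∧ Cyl W a b k

theorem St.swap {W : (ℕ → ℕ) → (ℕ → ℕ) → Prop} {a b : ℕ → ℕ} {B : ℕ} (h : St W a b B) :
    St (fun x y => W y x) b a B :=
  let ⟨h1, k, h2, h3⟩ := h; ⟨h1.symm, k, h2, fun x y h4 h5 h6 => h3 y x h4.symm h6 h5⟩

theorem step {W : (ℕ → ℕ) → (ℕ → ℕ) → Prop} {j : ℕ} {p q : ℕ → ℕ} (hW : PA W j p q)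
    {a b : ℕ → ℕ} {B : ℕ} (h : St W a b B) (b0 τ : ℕ → ℕ) (X : ℕ → Prop) (l : ℕ) (hj : j ≤ l)
    (hp : Ag j a p) (hq : Ag j b q) (hq0 : Ag j b0 q) (hB : pre b0 l < B) (hX : ∀ u, X u → u < B)
    (s1 : ∀ i ≤ l, a (pre b0 i) % 2 = 0) (s2 : ∀ u < l, On a u → b0 u % 2 = 0)
    (s3 : ∀ u n, ¬ On a u → AL b0 l X u → AL b0 l X (ch n u) → lt (T (a (ch n u))) (T (a u)))
    (s4 : ∀ u < l, (∀ i ≤ l, pre b0 i ≠ u) → a u % 2 = 0 → ¬ On b u ∧ T (b0 u) = T (b u))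
    (s5 : ∀ i ≤ l, ¬ On b (pre b0 i) → T (b (pre b0 i)) = 0) :
    ∃ a' b', St W a' b' B ∧ Ag B a' a ∧ Ag l b' b0 ∧ ∀ u, l ≤ u → u < B → B ≤ b' u ∧
      (b' u % 2 = 0 ↔ X u ∨ On a u) ∧ (a u % 2 ≠ 0 → T (b' u) = τ u) := by
  obtain ⟨hG, k, hk, hC⟩ := h
  have hl := le_pre b0 l
  obtain ⟨a1, b1, k1, hk1, g1, e1, e2, H⟩ := hW a b k (by omega) hp hq hG hC
  replace e1 := e1.mono hk
  replace e2 := e2.mono hk
  have lB : ∀ i ≤ l, pre b0 i < B := fun i hi => ((pre_mono b0).monotone hi).trans_lt hB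
  have aB : ∀ u, AL b0 l X u → u < B := fun u h => h.elim (fun h => by omega) fun h => hX u h.2
  have hK := le_pre b1 k1
  have s4' : ∀ u < l, (∀ i ≤ l, pre b0 i ≠ u) → a1 u % 2 = 0 →
      ¬ On b1 u ∧ T (b0 u) = T (b1 u) := fun u hu h1 h2 => by
    rw [e2.on (by omega), e2 u (by omega)]
    exact s4 u hu h1 (e1 u (by omega) ▸ h2)
  obtain ⟨a', b', g', f1, f2, f3⟩ := tr b0 τ X l (pre b1 k1 + 1) g1 (by omega)
    (fun u hu => by have := hX u hu; omega) (fun i hi => by rw [e1 _ (lB i hi)]; exact s1 i hi)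
    (fun u hu h => s2 u hu ((e1.on (by omega)).1 h))
    (fun u n h1 h2 h3 => by
      rw [e1 _ (aB _ h2), e1 _ (aB _ h3)]
      exact s3 u n (fun h => h1 ((e1.on (aB _ h2).le).2 h)) h2 h3)
    (fun u n h1 h2 h3 h4 => by
      have h5 := s4' u ((ch_gt n u).trans h1) h2 h3
      have h6 := s4' _ h1 (fun i hi e => by
        rcases i with _ | i
        · simp [pre, ch] at e
        · exact h2 i (by omega) (ch_inj e).2) h4
      rw [h5.2, h6.2]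
      exact g1.1.2 u n h5.1 h3 h4)
    fun u hu h1 h2 => by
      have := s4' u hu h1 h2
      exact ⟨fun h => (this.1 h).elim, fun _ => by unfold le; omega⟩
  refine ⟨a', b', ⟨g', pre b1 k1 + 1, by omega, fun x y g c1 c2 => ?_⟩,
    (f1.mono (by omega)).trans e1, f2, fun u h1 h2 => ⟨by have := (f3 u h1).1; omega, ?_, ?_⟩⟩
  · have d1 := c1.trans f1
    refine H x y g (((d1.mono (by omega)).trans e1).mono (by omega) |>.trans hp)
      ((((c2.mono (by omega)).trans f2).mono hj).trans hq0) fun m => ?_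
    obtain ⟨x', y', g2, h1, h2, -⟩ := tr b1 τ (fun _ => False) k1 (m + k1) g (by omega)
      (fun _ h => h.elim)
      (fun i hi => by rw [d1 _ (Nat.lt_succ_of_le ((pre_mono b1).monotone hi))]; exact g1.1.1 i)
      (fun u hu h => by
        obtain ⟨i, rfl⟩ := (d1.on (by omega)).1 h
        exact g1.2.1 i)
      (by
        rintro u n h1 (⟨h2, h3⟩ | ⟨-, ⟨⟩⟩) (⟨h4, h5⟩ | ⟨-, ⟨⟩⟩)
        rw [d1 _ (by omega), d1 _ (by omega)]
        exact g1.2.2 u n (fun h => h1 ((d1.on (by omega)).2 h)) h3 h5)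
      (fun u n h1 h2 h3 h4 => by
        have := ch_gt n u
        rw [d1 _ (by omega)] at h3 h4
        refine g1.1.2 u n ?_ h3 h4
        rintro ⟨i, rfl⟩
        exact h2 i (by have := le_pre b1 i; omega) rfl)
      fun u hu h1 h2 => by
        rw [d1 _ (by omega)] at h2
        have h3 : ¬ On b1 u := by
          rintro ⟨i, rfl⟩
          exact h1 i (by have := le_pre b1 i; omega) rfl
        rw [c2.on (by omega), c2 u (by omega)]
        refine ⟨?_, fun h4 => ?_⟩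
        · rintro ⟨i, rfl⟩
          by_cases hi : i ≤ l
          · rw [f2.pre i hi] at h3 ⊢
            rw [e2 _ (lB i hi)]
            exact s5 i hi fun h => h3 ((e2.on (lB i hi).le).2 h)
          · have := lt_pre b' (show l < i by omega)
            have := (f3 l le_rfl).1
            omega
        · by_cases hu : u < l
          · have := (s4' u hu (fun i hi e => h4 ⟨i, (f2.pre i hi).trans e⟩) h2).2
            rw [f2 u hu]
            unfold le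
            omega
          · exact (f3 u (by omega)).2.2.2 (by omega) h2 h3
    exact ⟨x', y', g2, h1.mono (by omega), (h1.mono (by omega)).trans (d1.mono (by omega)), h2⟩
  · rw [(f3 u h1).2.1, ((f1.mono (by omega)).trans e1).on h2.le]
  · rw [← e1 u h2]
    exact (f3 u h1).2.2.1

theorem fresh {W : (ℕ → ℕ) → (ℕ → ℕ) → Prop} {j0 : ℕ} {p q : ℕ → ℕ} (hW : PA W j0 p q)
    {a b : ℕ → ℕ} {B : ℕ} (h : St W a b B) (τ a2 b2 : ℕ → ℕ) (P : Prop) (j : ℕ) (hj : j0 ≤ j)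
    (hp : Ag j0 a2 p) (hq : Ag j0 b2 q) (ha : Ag j a a2) (hb : Ag j b b2)
    (h1 : pre a2 (j + 1) < B) (h2 : pre b2 (j + 1) < B) :
    ∃ a' b', St W a' b' B ∧ Ag B a' a ∧ Ag j a' a2 ∧ Ag j b' b2 ∧ ∀ u, j ≤ u → u < B → B ≤ b' u ∧
      (b' u % 2 = 0 ↔ (P ∧ u = pre a2 (j + 1)) ∨ On a u) ∧ (a u % 2 ≠ 0 → T (b' u) = τ u) := by
  have h3 := le_pre a2 (j + 1)
  obtain ⟨a', b', h4, h5, h6, h7⟩ := step hW h b τ (fun u => P ∧ u = pre a2 (j + 1)) j hj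
    ((ha.mono hj).trans hp) ((hb.mono hj).trans hq) ((hb.mono hj).trans hq)
    (by rw [hb.pre j le_rfl]; exact (pre_mono b2 (by omega)).trans h2) (fun u hu => hu.2 ▸ h1)
    (fun i _ => h.1.1.1 i) (by rintro _ - ⟨i, rfl⟩; exact h.1.2.1 i)
    (by
      rintro u n h1 h2 (h3 | ⟨-, -, h3⟩)
      · have := ch_gt n u
        exact h.1.2.2 u n h1 (h2.elim (·.2) fun h => by omega) h3.2
      · exact (h1 ⟨j, (ha.pre j le_rfl).trans (ch_inj h3).2.symm⟩).elim)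
    (fun u hu h1 _ => ⟨by
      rintro ⟨i, rfl⟩
      exact h1 i (by have := le_pre b i; omega) rfl, rfl⟩)
    fun i _ h => (h ⟨i, rfl⟩).elim
  exact ⟨a', b', h4, h5, (h5.mono (by omega)).trans ha, h6.trans hb, h7⟩

theorem lvl {W : (ℕ → ℕ) → (ℕ → ℕ) → Prop} {j0 : ℕ} {p q : ℕ → ℕ} (hW : PA W j0 p q)
    (hV : PA (fun x y => W y x) j0 q p) {a2 b2 : ℕ → ℕ} (g : G a2 b2) (hp : Ag j0 a2 p)
    (hq : Ag j0 b2 q) {j : ℕ} (hj : j0 ≤ j) {a b : ℕ → ℕ} (h : St W a b 0) (ha : Ag j a a2)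
    (hb : Ag j b b2) : ∃ a b, St W a b 0 ∧ Ag (j + 1) a a2 ∧ Ag (j + 1) b b2 := by
  classical
  obtain ⟨B, hA, hB⟩ : ∃ B, pre a2 (j + 1) < B ∧ pre b2 (j + 1) < B :=
    ⟨pre a2 (j + 1) + pre b2 (j + 1) + 1, by omega, by omega⟩
  have i1 := le_pre a2 (j + 1)
  have i2 := le_pre b2 (j + 1)
  have i3 := lt_pre a2 (show j < j + 1 by omega)
  have i4 := lt_pre b2 (show j < j + 1 by omega)
  have h0 : St W a b B := let ⟨h1, k, _, h3⟩ := h
    ⟨h1, k + B, by omega, fun x y h4 h5 h6 => h3 x y h4 (h5.mono (by omega)) (h6.mono (by omega))⟩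
  obtain ⟨a1, b1, H1, -, ha1, hb1, f1⟩ := fresh hW h0 0 a2 b2 False j hj hp hq ha hb hA hB
  have n1 : b1 j ≠ b2 j := by have := (f1 j le_rfl (by omega)).1; omega
  obtain ⟨b3, a3, H3, e3, hb3, ha3, f3⟩ :=
    fresh hV H1.swap 0 b2 a2 False j hj hq hp hb1 ha1 hB hA
  have d3 : a3 (pre b2 (j + 1)) % 2 ≠ 0 := by
    simp [(f3 _ (by omega) hB).2.1, off n1]
  have n3 : a3 j ≠ a2 j := by have := (f3 j le_rfl (by omega)).1; omega
  obtain ⟨a4, b4, H4, e4, ha4, hb4, f4⟩ := fresh hW H3.swap 0 a2 b2 False j hj hp hq ha3 hb3 hA hB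
  have n4 : b4 j ≠ b2 j := by have := (f4 j le_rfl (by omega)).1; omega
  obtain ⟨b5, a5, H5, e5, hb5, ha5, f5⟩ := fresh hV H4.swap
    (fun u => if u = j then T (a2 j) else 0) b2 a2 True j hj hq hp hb4 ha4 hB hA
  have n5 : a5 j ≠ a2 j := by have := (f5 j le_rfl (by omega)).1; omega
  have t5 : ∀ u ≤ j, ¬ On a2 u → T (a5 u) = T (a2 u) := fun u hu h => by
    rcases hu.lt_or_eq with hu | rfl
    · rw [ha5 u hu]
    · rw [(f5 u le_rfl (by omega)).2.2, if_pos rfl]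
      simp [(f4 u le_rfl (by omega)).2.1, ha3.on le_rfl, h]
  have t6 : T (a5 (pre a2 (j + 1))) = 0 := by
    rw [(f5 _ (by omega) hA).2.2, if_neg (by omega)]
    simp [(f4 _ (by omega) hA).2.1, off n3]
  obtain ⟨a6, b6, H6, e6, hb6, f6⟩ := step hW H5.swap b2 0 (fun u => u = pre a2 (j + 1)) (j + 1)
    (by omega) ((ha5.mono hj).trans hp) ((hb5.mono hj).trans hq) hq hB (fun u hu => hu ▸ hA)
    (fun i hi => by
      rcases hi.lt_or_eq with hi | rfl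
      · rw [← hb5.pre i (by omega)]; exact H5.1.2.1 i
      · simp [(f5 _ (by omega) hB).2.1])
    (fun u hu h => by
      obtain ⟨i, rfl⟩ := (ha5.on (by omega)).1 h
      exact g.2.1 i)
    (by
      rintro u n h1 h2 (h3 | ⟨-, h3⟩)
      · have := ch_gt n u
        rw [ha5.on (by omega)] at h1
        rw [t5 u (by omega) h1, t5 _ (by omega) fun h => h1 (on_ch h)]
        exact g.2.2 u n h1 (h2.elim (·.2) fun h => by omega) h3.2
      · exact (h1 ⟨j, (ha5.pre j le_rfl).trans (ch_inj h3).2.symm⟩).elim)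
    (fun u hu h1 h2 => by
      have h3 : ¬ On b2 u := by
        rintro ⟨i, rfl⟩
        exact h1 i (by have := le_pre b2 i; omega) rfl
      rcases (Nat.le_of_lt_succ hu).lt_or_eq with hu | rfl
      · exact ⟨by rwa [hb5.on hu.le], by rw [hb5 u hu]⟩
      · simp [(f5 u le_rfl (by omega)).2.1, hb4.on le_rfl, h3] at h2
        omega)
    fun i hi h => by
      rcases hi.lt_or_eq with hi | rfl
      · exact (h ⟨i, hb5.pre i (by omega)⟩).elim
      · rw [e5 _ hB, (f4 _ (by omega) hB).2.2 d3]; rfl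
  have ha6 : Ag j a6 a2 := (e6.mono (by omega)).trans ha5
  obtain ⟨b7, a7, H7, e7, ha7, -⟩ := step hV H6.swap a2 0 (fun _ => False) (j + 1)
    (by omega) ((hb6.mono (by omega)).trans hq) ((ha6.mono hj).trans hp) hp hA (fun _ h => h.elim)
    (fun i hi => by
      rcases hi.lt_or_eq with hi | rfl
      · rw [← ha6.pre i (by omega)]; exact H6.1.2.1 i
      · simp [(f6 _ i1 hA).2.1])
    (fun u hu h => by
      obtain ⟨i, rfl⟩ := (hb6.on (by omega)).1 h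
      exact g.1.1 i)
    (by
      rintro u n h1 (h2 | ⟨-, ⟨⟩⟩) (h3 | ⟨-, ⟨⟩⟩)
      rw [hb6.on h2.1.le] at h1
      rw [hb6 u h2.1, hb6 _ h3.1]
      exact g.1.2 u n h1 h2.2 h3.2)
    (fun u hu h1 _ => by
      have h3 : ¬ On a2 u := by
        rintro ⟨i, rfl⟩
        exact h1 i (by have := le_pre a2 i; omega) rfl
      exact ⟨by rwa [ha6.on (by omega)], by rw [e6 u (by omega), t5 u (by omega) h3]⟩)
    fun i hi h => by
      rcases hi.lt_or_eq with hi | rfl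
      · exact (h ⟨i, ha6.pre i (by omega)⟩).elim
      · rw [e6 _ hA, t6]
  obtain ⟨h1, k, -, h2⟩ := H7.swap
  exact ⟨a7, b7, ⟨h1, k, k.zero_le, h2⟩, ha7, (e7.mono (by omega)).trans hb6⟩

theorem law {W : (ℕ → ℕ) → (ℕ → ℕ) → Prop} {j0 : ℕ} {p q : ℕ → ℕ} (hW : PA W j0 p q)
    (hV : PA (fun x y => W y x) j0 q p) {a2 b2 : ℕ → ℕ} (g : G a2 b2) (hp : Ag j0 a2 p)
    (hq : Ag j0 b2 q) {a b : ℕ → ℕ} (h : St W a b 0) (ha : Ag j0 a p) (hb : Ag j0 b q) (j : ℕ) :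
    ∃ a b, St W a b 0 ∧ Ag (j0 + j) a a2 ∧ Ag (j0 + j) b b2 := by
  induction j with
  | zero => exact ⟨a, b, h, ha.trans hp.symm, hb.trans hq.symm⟩
  | succ j ih =>
    obtain ⟨a, b, h1, h2, h3⟩ := ih
    exact lvl hW hV g hp hq (Nat.le_add_right j0 j) h1 h2 h3

theorem two (n : ℕ) : ∃ a b, G a b ∧ a 0 = 2 * n := by
  obtain ⟨a, b, h1, h2, h3, h4⟩ := ext (fun _ => 2 * n) 0 0 (fun _ => T (2 * n))
    (fun _ => False) (fun _ => False) 1 0 1
  refine ⟨a, b, ⟨half le_rfl h1 h2 (fun i hi => (h3 i hi).2.2)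
    (fun i hi => ⟨(h4 i hi).1, (h4 i hi).2.1⟩) (fun _ _ _ => by omega) (fun _ h => by omega) ?_,
    half (by omega) h2 h1 (fun i hi => (h4 i hi).2.2) (fun i hi => ⟨(h3 i hi).1, (h3 i hi).2.1⟩)
      (fun _ _ h => by omega) (fun _ _ => rfl) ?_⟩, h1 0 (by omega)⟩
  · rintro u m - - (h | ⟨-, ⟨⟩⟩)
    simp [ch] at h
  · rintro u m - (h | ⟨-, ⟨⟩⟩)
    omega

end Pool.Agent.H6.Tag
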