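import Mathlib

set_option autoImplicit false

open Complex MeasureTheory Filter Topology Finset
open scoped Real

namespace Pool.Agent.H6.Tau

noncomputable def mu (x : ℝ) : ℂ := ∫ t in (0:ℝ)..1, ((1 - t : ℝ) : ℂ) * exp (I * x * t)

noncomputable def nu (x : ℝ) : ℂ := ∫ t in (0:ℝ)..1, ((1 - t : ℝ) : ℂ) * (exp (I * x * t) * (I * t))

lemma norm_exp_Ixt (x t : ℝ) : ‖exp (I * x * t)‖ = 1 := by
  have : I * x * t = ((x * t : ℝ) : ℂ) * I := by push_cast; ring
  rw [this, norm_exp_ofReal_mul_I]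

lemma mu_norm (x : ℝ) : ‖mu x‖ ≤ 1 := by
  have := intervalIntegral.norm_integral_le_of_norm_le_const (a := 0) (b := 1) (C := 1)
    (f := fun t : ℝ => ((1 - t : ℝ) : ℂ) * exp (I * x * t)) (by
      intro t ht
      rw [Set.uIoc_of_le zero_le_one] at ht
      rw [norm_mul, norm_exp_Ixt, norm_real, Real.norm_eq_abs, mul_one, abs_le]
      constructor <;> linarith [ht.1, ht.2])
  simpa [mu] using this

lemma hasDerivAt_mu (x : ℝ) : HasDerivAt mu (nu x) x := by
  have := intervalIntegral.hasDerivAt_integral_of_dominated_loc_of_deriv_le (μ := volume)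
    (a := 0) (b := 1) (x₀ := x) (s := Set.univ)
    (F := fun (x : ℝ) (t : ℝ) => ((1 - t : ℝ) : ℂ) * exp (I * x * t))
    (F' := fun (x : ℝ) (t : ℝ) => ((1 - t : ℝ) : ℂ) * (exp (I * x * t) * (I * t)))
    (bound := fun _ => 1) univ_mem
    (Eventually.of_forall fun y => (by fun_prop : Continuous _).aestronglyMeasurable)
    ((by fun_prop : Continuous _).intervalIntegrable _ _)
    ((by fun_prop : Continuous _).aestronglyMeasurable)
    (Eventually.of_forall fun t ht y _ => by
      rw [Set.uIoc_of_le zero_le_one] at ht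
      rw [norm_mul, norm_mul, norm_mul, norm_exp_Ixt, norm_real, norm_real, norm_I,
        Real.norm_eq_abs, Real.norm_eq_abs, abs_of_nonneg (by linarith [ht.2]),
        abs_of_nonneg ht.1.le]
      nlinarith [ht.1, ht.2])
    intervalIntegrable_const
    (Eventually.of_forall fun t _ y _ => by
      have h1 : HasDerivAt (fun y : ℝ => I * (y : ℂ) * t) (I * t) y := by
        have := ((hasDerivAt_id y).ofReal_comp.const_mul I).mul_const (t : ℂ)
        simpa using this
      exact (h1.cexp).const_mul _)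
  exact this.2

lemma nu_le_one (x : ℝ) : ‖nu x‖ ≤ 1 := by
  have := intervalIntegral.norm_integral_le_of_norm_le_const (a := 0) (b := 1) (C := 1)
    (f := fun t : ℝ => ((1 - t : ℝ) : ℂ) * (exp (I * x * t) * (I * t))) (by
      intro t ht
      rw [Set.uIoc_of_le zero_le_one] at ht
      rw [norm_mul, norm_mul, norm_mul, norm_exp_Ixt, norm_real, norm_real, norm_I,
        Real.norm_eq_abs, Real.norm_eq_abs, abs_of_nonneg (by linarith [ht.2]),
        abs_of_nonneg ht.1.le]
      nlinarith [ht.1, ht.2])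
  simpa [nu] using this

lemma nu_sq (x : ℝ) : x ^ 2 * ‖nu x‖ ≤ 4 := by
  rcases eq_or_ne x 0 with rfl | hx
  · simp
  have hk : (I * x : ℂ) ≠ 0 := mul_ne_zero I_ne_zero (by exact_mod_cast hx)
  set k : ℂ := I * x with hkdef
  have key : nu x = I * ((exp k + 1) / k ^ 2 - 2 * (exp k - 1) / k ^ 3) := by
    have := intervalIntegral.integral_eq_sub_of_hasDerivAt (a := (0:ℝ)) (b := 1)
      (f := fun t : ℝ => I * (exp (k * t) * (t * (1 - t) / k - (1 - 2 * t) / k ^ 2 - 2 / k ^ 3)))
      (f' := fun t : ℝ => ((1 - t : ℝ) : ℂ) * (exp (k * t) * (I * t))) (by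
        intro t _
        have h0 : HasDerivAt (fun y : ℝ => (y : ℂ)) 1 t := (hasDerivAt_id t).ofReal_comp
        have h1 := (h0.const_mul k).cexp
        have h2 := (((h0.mul (h0.const_sub 1)).div_const k).sub
          (((h0.const_mul 2).const_sub 1).div_const (k ^ 2))).sub_const (2 / k ^ 3)
        have h3 := (h1.mul h2).const_mul I
        refine h3.congr_deriv ?_
        simp only [Pi.mul_apply, Pi.sub_apply]
        push_cast
        field_simp
        ring) ((by fun_prop : Continuous _).intervalIntegrable _ _)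
    unfold nu
    rw [this]
    simp only [ofReal_one, ofReal_zero, mul_one, mul_zero, exp_zero]
    field_simp
    ring
  have hkn : ‖k‖ = |x| := by rw [hkdef, norm_mul, norm_I, one_mul, norm_real, Real.norm_eq_abs]
  have he : ‖exp k‖ = 1 := by
    have := norm_exp_Ixt x 1
    rwa [ofReal_one, mul_one] at this
  have h1 : ‖exp k + 1‖ ≤ 2 := (norm_add_le _ _).trans (by rw [he, norm_one]; norm_num)
  have h2 : ‖exp k - 1‖ ≤ |x| := by
    have := Real.norm_exp_I_mul_ofReal_sub_one_le (x := x)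
    simpa [hkdef] using this
  have hx' : 0 < |x| := abs_pos.mpr hx
  rw [key, norm_mul, norm_I, one_mul]
  have h3 : ‖(exp k + 1) / k ^ 2 - 2 * (exp k - 1) / k ^ 3‖ ≤ 2 / |x| ^ 2 + 2 * |x| / |x| ^ 3 := by
    refine (norm_sub_le _ _).trans ?_
    rw [norm_div, norm_div, norm_pow, norm_pow, hkn, norm_mul]
    have : ‖(2 : ℂ)‖ = 2 := by simp
    rw [this]
    gcongr
  have h4 : 2 / |x| ^ 2 + 2 * |x| / |x| ^ 3 = 4 / x ^ 2 := by
    rw [← sq_abs x]; field_simp; ring
  rw [h4] at h3
  have hx2 : 0 < x ^ 2 := by positivity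
  calc x ^ 2 * _ ≤ x ^ 2 * (4 / x ^ 2) := by gcongr
    _ = 4 := by field_simp

lemma nu_le (x : ℝ) : ‖nu x‖ ≤ 5 * (1 / (1 + x ^ 2)) := by
  have h1 := nu_le_one x
  have h2 := nu_sq x
  rw [mul_one_div, le_div_iff₀ (by positivity)]
  nlinarith

lemma mu_var {x y : ℝ} (h : x ≤ y) : ‖mu y - mu x‖ ≤ 5 * (Real.arctan y - Real.arctan x) := by
  have := image_norm_le_of_norm_deriv_right_le_deriv_boundary (f := fun s => mu s - mu x)
    (f' := nu) (a := x) (b := y)
    (fun s _ => ((hasDerivAt_mu s).sub_const _).continuousAt.continuousWithinAt)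
    (fun s _ => ((hasDerivAt_mu s).sub_const _).hasDerivWithinAt)
    (B := fun s => 5 * (Real.arctan s - Real.arctan x)) (B' := fun s => 5 * (1 / (1 + s ^ 2)))
    (by simp) (fun s => ((Real.hasDerivAt_arctan s).sub_const _).const_mul 5)
    (fun s _ => nu_le s) (x := y) ⟨h, le_rfl⟩
  exact this

lemma sum_var (l c : ℝ) (K : ℕ) :
    ∑ n ∈ range K, ‖mu (((n : ℝ) + 1 - c) * l) - mu (((n : ℝ) - c) * l)‖ ≤ 5 * π := by
  have hb : ∀ u v : ℝ, 5 * (Real.arctan u - Real.arctan v) ≤ 5 * π := fun u v => by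
    linarith [Real.arctan_lt_pi_div_two u, Real.neg_pi_div_two_lt_arctan v]
  rcases le_total 0 l with hl | hl
  · calc _ ≤ ∑ n ∈ range K, (5 * Real.arctan ((((n + 1 : ℕ) : ℝ) - c) * l) -
          5 * Real.arctan (((n : ℝ) - c) * l)) := by
          refine sum_le_sum fun n _ => ?_
          rw [← mul_sub]; push_cast
          exact mu_var (by nlinarith)
      _ ≤ 5 * π := by
          rw [sum_range_sub (fun n : ℕ => 5 * Real.arctan (((n : ℝ) - c) * l)), ← mul_sub]
          exact hb _ _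
  · calc _ ≤ ∑ n ∈ range K, (5 * Real.arctan (((n : ℝ) - c) * l) -
          5 * Real.arctan ((((n + 1 : ℕ) : ℝ) - c) * l)) := by
          refine sum_le_sum fun n _ => ?_
          rw [← mul_sub, norm_sub_rev]; push_cast
          exact mu_var (by nlinarith)
      _ ≤ 5 * π := by
          rw [sum_range_sub' (fun n : ℕ => 5 * Real.arctan (((n : ℝ) - c) * l)), ← mul_sub]
          exact hb _ _

/-- Abel summation. -/
lemma abel {a : ℕ → ℂ} {ξ w : ℂ} {M : ℝ} (hM : ∀ n, ‖∑ k ∈ range n, a k * ξ ^ k‖ ≤ M)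
    (hw : ‖w‖ < 1) :
    HasSum (fun n => (∑ k ∈ range (n + 1), a k * ξ ^ k) * (w ^ n - w ^ (n + 1)))
      (∑' n, a n * (ξ * w) ^ n) := by
  set P : ℕ → ℂ := fun n => ∑ k ∈ range n, a k * ξ ^ k with hP
  have hg := (summable_geometric_of_lt_one (norm_nonneg w) hw).mul_left M
  have s0 : Summable (fun n => P n * w ^ n) := Summable.of_norm_bounded hg fun n => by
    rw [norm_mul, norm_pow]; gcongr; exact hM n
  have s1 : Summable (fun n => P (n + 1) * w ^ n) := Summable.of_norm_bounded hg fun n => by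
    rw [norm_mul, norm_pow]; gcongr; exact hM _
  have h2 : HasSum (fun n => P (n + 1) * w ^ (n + 1)) (∑' n, P n * w ^ n) := by
    have := (hasSum_nat_add_iff' 1).mpr s0.hasSum
    simpa [hP] using this
  have h3 : HasSum (fun n => a n * (ξ * w) ^ n) (∑' n, P (n + 1) * w ^ n - ∑' n, P n * w ^ n) := by
    have e : (fun n => a n * (ξ * w) ^ n) = fun n => P (n + 1) * w ^ n - P n * w ^ n := by
      funext n
      simp only [hP, sum_range_succ]; ring
    rw [e]
    exact s1.hasSum.sub s0.hasSum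
  rw [h3.tsum_eq]
  have e : (fun n => (∑ k ∈ range (n + 1), a k * ξ ^ k) * (w ^ n - w ^ (n + 1))) =
      fun n => P (n + 1) * w ^ n - P (n + 1) * w ^ (n + 1) := by
    funext n
    simp only [hP]; ring
  rw [e]
  exact s1.hasSum.sub h2

noncomputable def FF (a : ℕ → ℂ) (r : ℝ) (N : ℕ) (θ : ℝ) : ℂ :=
  (∑' n, a n * ((r : ℂ) * exp (θ * I)) ^ n) * exp (-(N * θ * I))

lemma halftent0 {a : ℕ → ℂ} {α M : ℝ}
    (hM : ∀ n, ‖∑ k ∈ range n, a k * exp (α * I) ^ k‖ ≤ M) {r : ℝ} (hr0 : 0 ≤ r) (hr : r < 1)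
    (N : ℕ) (l : ℝ) :
    ‖∫ t in (0:ℝ)..1, ((1 - t : ℝ) : ℂ) * FF a r N (α + l * t)‖ ≤ M * (5 * π + 1) := by
  have hM0 : 0 ≤ M := (norm_nonneg _).trans (hM 0)
  set P : ℕ → ℂ := fun n => ∑ k ∈ range n, a k * exp (α * I) ^ k with hP
  have hwn : ∀ t : ℝ, ‖(r : ℂ) * exp (I * l * t)‖ = r := fun t => by
    rw [norm_mul, norm_exp_Ixt, mul_one, norm_real, Real.norm_of_nonneg hr0]
  have he : ∀ θ : ℝ, ‖exp (-(N * θ * I))‖ = 1 := fun θ => by
    have : -((N : ℂ) * θ * I) = ((-(N * θ) : ℝ) : ℂ) * I := by push_cast; ring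
    rw [this, norm_exp_ofReal_mul_I]
  have H := intervalIntegral.hasSum_integral_of_dominated_convergence (μ := volume)
    (a := (0:ℝ)) (b := 1)
    (F := fun (n : ℕ) (t : ℝ) => ((1 - t : ℝ) : ℂ) * (P (n + 1) *
      (((r : ℂ) * exp (I * l * t)) ^ n - ((r : ℂ) * exp (I * l * t)) ^ (n + 1)) *
        exp (-(N * ((α + l * t : ℝ) : ℂ) * I))))
    (f := fun t : ℝ => ((1 - t : ℝ) : ℂ) * FF a r N (α + l * t))
    (fun n _ => 2 * M * r ^ n)
    (fun n => (by fun_prop : Continuous _).aestronglyMeasurable)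
    (fun n => Eventually.of_forall fun t ht => by
      rw [Set.uIoc_of_le zero_le_one] at ht
      rw [norm_mul, norm_mul, norm_mul, he, mul_one, norm_real, Real.norm_eq_abs,
        abs_of_nonneg (by linarith [ht.2])]
      have h1 : ‖((r : ℂ) * exp (I * l * t)) ^ n - ((r : ℂ) * exp (I * l * t)) ^ (n + 1)‖ ≤
          2 * r ^ n := by
        refine (norm_sub_le _ _).trans ?_
        rw [norm_pow, norm_pow, hwn, pow_succ]
        have := pow_nonneg hr0 n
        nlinarith
      have h2 := hM (n + 1)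
      calc (1 - t) * (‖P (n + 1)‖ * _) ≤ 1 * (M * (2 * r ^ n)) := by
            gcongr
            linarith [ht.1]
        _ = 2 * M * r ^ n := by ring)
    (Eventually.of_forall fun t _ => (summable_geometric_of_lt_one hr0 hr).mul_left _)
    intervalIntegrable_const
    (Eventually.of_forall fun t _ => by
      have h1 := ((abel hM (w := (r : ℂ) * exp (I * l * t)) (by rw [hwn]; exact hr)).mul_right
        (exp (-(N * ((α + l * t : ℝ) : ℂ) * I)))).mul_left ((1 - t : ℝ) : ℂ)
      have e : exp (α * I) * ((r : ℂ) * exp (I * l * t)) =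
          (r : ℂ) * exp (((α + l * t : ℝ) : ℂ) * I) := by
        rw [mul_left_comm, ← exp_add]
        congr 2
        push_cast; ring
      rw [e] at h1
      exact h1)
  have hint : ∀ n : ℕ, (∫ t in (0:ℝ)..1, ((1 - t : ℝ) : ℂ) * (P (n + 1) *
      (((r : ℂ) * exp (I * l * t)) ^ n - ((r : ℂ) * exp (I * l * t)) ^ (n + 1)) *
        exp (-(N * ((α + l * t : ℝ) : ℂ) * I)))) =
      P (n + 1) * exp (-(N * α * I)) * (r : ℂ) ^ n *
        (mu (((n : ℝ) - N) * l) - r * mu (((n : ℝ) + 1 - N) * l)) := by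
    intro n
    unfold mu
    rw [← intervalIntegral.integral_const_mul, ← intervalIntegral.integral_sub
      ((by fun_prop : Continuous _).intervalIntegrable _ _)
      ((by fun_prop : Continuous _).intervalIntegrable _ _), ← intervalIntegral.integral_const_mul]
    congr 1
    funext t
    have e1 : exp (I * ((((n : ℝ) - N) * l : ℝ) : ℂ) * t) * exp (-(N * α * I)) =
        exp (I * l * t) ^ n * exp (-(N * ((α + l * t : ℝ) : ℂ) * I)) := by
      rw [← exp_nat_mul, ← exp_add, ← exp_add]; congr 1; push_cast; ring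
    have e2 : exp (I * ((((n : ℝ) + 1 - N) * l : ℝ) : ℂ) * t) * exp (-(N * α * I)) =
        exp (I * l * t) ^ (n + 1) * exp (-(N * ((α + l * t : ℝ) : ℂ) * I)) := by
      rw [← exp_nat_mul, ← exp_add, ← exp_add]; congr 1; push_cast; ring
    rw [mul_pow, mul_pow]
    linear_combination (-((1 - t : ℝ) : ℂ) * P (n + 1) * (r : ℂ) ^ n) * e1 +
      (((1 - t : ℝ) : ℂ) * P (n + 1) * (r : ℂ) ^ (n + 1)) * e2
  simp only [hint] at H
  refine le_of_tendsto' H.tendsto_sum_nat.norm fun K => ?_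
  calc _ ≤ ∑ n ∈ range K, M * (‖mu (((n : ℝ) + 1 - N) * l) - mu (((n : ℝ) - N) * l)‖ +
        (r ^ n - r ^ (n + 1))) := by
        refine (norm_sum_le _ _).trans (sum_le_sum fun n _ => ?_)
        rw [norm_mul, norm_mul, norm_mul, he, mul_one, norm_pow, norm_real,
          Real.norm_of_nonneg hr0, mul_assoc]
        have h1 : ‖mu (((n : ℝ) - N) * l) - r * mu (((n : ℝ) + 1 - N) * l)‖ ≤
            ‖mu (((n : ℝ) + 1 - N) * l) - mu (((n : ℝ) - N) * l)‖ + (1 - r) := by
          have : mu (((n : ℝ) - N) * l) - r * mu (((n : ℝ) + 1 - N) * l) =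
              -(mu (((n : ℝ) + 1 - N) * l) - mu (((n : ℝ) - N) * l)) +
                ((1 - r : ℝ) : ℂ) * mu (((n : ℝ) + 1 - N) * l) := by push_cast; ring
          rw [this]
          refine (norm_add_le _ _).trans ?_
          rw [norm_neg, norm_mul, norm_real, Real.norm_of_nonneg (by linarith)]
          have := mu_norm (((n : ℝ) + 1 - N) * l)
          nlinarith
        have h2 : r ^ n ≤ 1 := pow_le_one₀ hr0 hr.le
        have h3 := pow_nonneg hr0 n
        have h4 := norm_nonneg (mu (((n : ℝ) + 1 - N) * l) - mu (((n : ℝ) - N) * l))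
        refine mul_le_mul (hM _) ?_ (by positivity) hM0
        calc r ^ n * _ ≤ r ^ n * (_ + (1 - r)) := by gcongr
          _ ≤ _ := by rw [pow_succ]; nlinarith
    _ ≤ M * (5 * π + 1) := by
        rw [← mul_sum, sum_add_distrib, sum_range_sub' (fun n => r ^ n)]
        have := sum_var l N K
        have h3 := pow_nonneg hr0 K
        gcongr
        simpa using h3

lemma halftent {a : ℕ → ℂ} {α M : ℝ}
    (hM : ∀ n, ‖∑ k ∈ range n, a k * exp (α * I) ^ k‖ ≤ M) {r : ℝ} (hr0 : 0 ≤ r) (hr : r < 1)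
    (N : ℕ) {l : ℝ} (hl : l ≠ 0) :
    ‖∫ θ in α..α + l, ((1 - (θ - α) / l : ℝ) : ℂ) * FF a r N θ‖ ≤ M * (5 * π + 1) * |l| := by
  have h := intervalIntegral.integral_comp_add_mul (a := 0) (b := 1)
    (fun θ : ℝ => ((1 - (θ - α) / l : ℝ) : ℂ) * FF a r N θ) hl α
  have e : ∀ t : ℝ, (α + l * t - α) / l = t := fun t => by field_simp; ring
  simp only [e, mul_zero, add_zero, mul_one] at h
  have h2 := halftent0 hM hr0 hr N l
  rw [h, norm_smul, norm_inv, Real.norm_eq_abs, inv_mul_le_iff₀ (abs_pos.mpr hl)] at h2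
  linarith

end Pool.Agent.H6.Tau
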