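import Mathlib
import Pool.Agent.H6.TauA

set_option autoImplicit false

open Complex MeasureTheory Filter Topology Finset
open scoped Real

namespace Pool.Agent.H6.Tau

def L2b (u : ℝ → ℕ → ℂ) : Prop :=
  ∃ B : ℝ, ∀ r : ℝ, 0 ≤ r → r < 1 → ∀ s : Finset ℕ, ∑ N ∈ s, ‖u r N‖ ^ 2 ≤ B

lemma L2b.add {u v : ℝ → ℕ → ℂ} (hu : L2b u) (hv : L2b v) : L2b (fun r N => u r N + v r N) := by
  obtain ⟨B, hB⟩ := hu
  obtain ⟨C, hC⟩ := hv
  refine ⟨2 * B + 2 * C, fun r h0 h1 s => ?_⟩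
  calc _ ≤ ∑ N ∈ s, (2 * ‖u r N‖ ^ 2 + 2 * ‖v r N‖ ^ 2) := by
        refine sum_le_sum fun N _ => ?_
        have h := norm_add_le (u r N) (v r N)
        have h2 := pow_le_pow_left₀ (norm_nonneg _) h 2
        nlinarith [sq_nonneg (‖u r N‖ - ‖v r N‖)]
    _ ≤ _ := by
        rw [sum_add_distrib, ← mul_sum, ← mul_sum]
        linarith [hB r h0 h1 s, hC r h0 h1 s]

lemma L2b.neg {u : ℝ → ℕ → ℂ} (hu : L2b u) : L2b (fun r N => - u r N) := by
  obtain ⟨B, hB⟩ := hu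
  exact ⟨B, fun r h0 h1 s => by simpa using hB r h0 h1 s⟩

lemma L2b.zero : L2b (fun _ _ => 0) := ⟨0, fun r _ _ s => by simp⟩

lemma L2b.sum {ι : Type*} (S : Finset ι) {u : ι → ℝ → ℕ → ℂ} (hu : ∀ i ∈ S, L2b (u i)) :
    L2b (fun r N => ∑ i ∈ S, u i r N) := by
  classical
  induction S using Finset.induction_on with
  | empty => simpa using L2b.zero
  | insert i S hi ih =>
    simp only [sum_insert hi]
    exact (hu i (by simp)).add (ih fun j hj => hu j (by simp [hj]))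

lemma bessel {c B : ℝ} {D : Set ℝ} (hD : MeasurableSet D) (hDs : D ⊆ Set.Ioc c (c + 2 * π))
    {g : ℝ → ℝ → ℂ} (hg : ∀ r, 0 ≤ r → r < 1 → Continuous (g r))
    (hB : ∀ r, 0 ≤ r → r < 1 → ∀ θ ∈ D, ‖g r θ‖ ≤ B) :
    L2b (fun r N => ∫ θ in D, g r θ * exp (-(N * θ * I))) := by
  have hpi : 0 < 2 * π := by positivity
  have hc : c < c + 2 * π := by linarith
  refine ⟨(2 * π) ^ 2 * B ^ 2, fun r h0 h1 s => ?_⟩
  set ψ : ℝ → ℂ := D.indicator (g r) with hψ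
  have hψb : ∀ θ, ‖ψ θ‖ ≤ |B| := fun θ => by
    by_cases h : θ ∈ D
    · rw [hψ, Set.indicator_of_mem h]; exact (hB r h0 h1 θ h).trans (le_abs_self _)
    · rw [hψ, Set.indicator_of_notMem h]; simp
  have hm : MemLp ψ 2 (volume.restrict (Set.Ioc c (c + 2 * π))) :=
    MemLp.of_bound (((hg r h0 h1).aestronglyMeasurable).indicator hD) |B|
      (Eventually.of_forall hψb)
  have H := hasSum_sq_fourierCoeffOn hc hm
  have hcoef : ∀ N : ℕ, (∫ θ in D, g r θ * exp (-(N * θ * I))) =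
      ((2 * π : ℝ) : ℂ) * fourierCoeffOn hc ψ N := by
    intro N
    rw [fourierCoeffOn_eq_integral, intervalIntegral.integral_of_le hc.le, real_smul, ← mul_assoc,
      ← ofReal_mul, add_sub_cancel_left, mul_one_div_cancel hpi.ne', ofReal_one, one_mul]
    have : ∀ x : ℝ, fourier (-(N : ℤ)) (x : AddCircle (2 * π)) • ψ x =
        D.indicator (fun θ => g r θ * exp (-(N * θ * I))) x := by
      intro x
      by_cases h : x ∈ D
      · rw [hψ, Set.indicator_of_mem h, Set.indicator_of_mem h, fourier_coe_apply, smul_eq_mul,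
          mul_comm]
        congr 2
        have : (π : ℂ) ≠ 0 := by exact_mod_cast Real.pi_ne_zero
        push_cast; field_simp
      · rw [hψ, Set.indicator_of_notMem h, Set.indicator_of_notMem h, smul_zero]
    simp only [this]
    rw [setIntegral_indicator hD, Set.inter_eq_right.mpr hDs]
  have h2 : ∑ N ∈ s, ‖fourierCoeffOn hc ψ N‖ ^ 2 ≤ B ^ 2 := by
    have h3 : ∑ N ∈ s, ‖fourierCoeffOn hc ψ N‖ ^ 2 =
        ∑ i ∈ s.map Nat.castEmbedding, ‖fourierCoeffOn hc ψ i‖ ^ 2 := by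
      rw [sum_map]; rfl
    rw [h3]
    refine (sum_le_hasSum _ (fun _ _ => by positivity) H).trans ?_
    have h4 := intervalIntegral.norm_integral_le_of_norm_le_const (a := c) (b := c + 2 * π)
      (C := B ^ 2) (f := fun x => ‖ψ x‖ ^ 2) (fun x _ => by
        rw [Real.norm_of_nonneg (by positivity), ← sq_abs B]
        exact pow_le_pow_left₀ (norm_nonneg _) (hψb x) 2)
    rw [add_sub_cancel_left, abs_of_pos hpi] at h4
    rw [add_sub_cancel_left, smul_eq_mul, inv_mul_le_iff₀ hpi]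
    have := le_abs_self (∫ x in c..c + 2 * π, ‖ψ x‖ ^ 2)
    rw [Real.norm_eq_abs] at h4
    linarith
  simp only [hcoef, norm_mul, mul_pow, norm_real, Real.norm_of_nonneg hpi.le]
  rw [← mul_sum, ← mul_pow]
  gcongr

lemma bessel_int {c B x y : ℝ} (hx : x ∈ Set.Icc c (c + 2 * π)) (hy : y ∈ Set.Icc c (c + 2 * π))
    {g : ℝ → ℝ → ℂ} (hg : ∀ r, 0 ≤ r → r < 1 → Continuous (g r))
    (hB : ∀ r, 0 ≤ r → r < 1 → ∀ θ ∈ Set.uIcc x y, ‖g r θ‖ ≤ B) :
    L2b (fun r N => ∫ θ in x..y, g r θ * exp (-(N * θ * I))) := by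
  rcases le_total x y with h | h
  · simp only [intervalIntegral.integral_of_le h]
    refine bessel (c := c) (B := B) measurableSet_Ioc (Set.Ioc_subset_Ioc hx.1 hy.2) hg ?_
    intro r h0 h1 θ hθ
    exact hB r h0 h1 θ (by rw [Set.uIcc_of_le h]; exact Set.Ioc_subset_Icc_self hθ)
  · simp only [intervalIntegral.integral_of_ge h]
    refine (bessel (c := c) (B := B) measurableSet_Ioc (Set.Ioc_subset_Ioc hy.1 hx.2) hg ?_).neg
    intro r h0 h1 θ hθ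
    exact hB r h0 h1 θ (by rw [Set.uIcc_of_ge h]; exact Set.Ioc_subset_Icc_self hθ)

noncomputable def fs (a : ℕ → ℂ) (r θ : ℝ) : ℂ := ∑' n, a n * ((r : ℂ) * exp (θ * I)) ^ n

lemma norm_rexp {r : ℝ} (h0 : 0 ≤ r) (θ : ℝ) : ‖(r : ℂ) * exp (θ * I)‖ = r := by
  rw [norm_mul, norm_exp_ofReal_mul_I, mul_one, norm_real, Real.norm_of_nonneg h0]

lemma fs_cont {a : ℕ → ℂ} {A : ℝ} (hA : ∀ n, ‖a n‖ ≤ A) {r : ℝ} (h0 : 0 ≤ r) (h1 : r < 1) :
    Continuous (fs a r) := by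
  refine continuous_tsum (u := fun n => A * r ^ n) (fun n => by fun_prop)
    ((summable_geometric_of_lt_one h0 h1).mul_left A) fun n θ => ?_
  rw [norm_mul, norm_pow, norm_rexp h0]
  gcongr; exact hA n

lemma FF_cont {a : ℕ → ℂ} {A : ℝ} (hA : ∀ n, ‖a n‖ ≤ A) {r : ℝ} (h0 : 0 ≤ r) (h1 : r < 1)
    (N : ℕ) : Continuous (FF a r N) :=
  (fs_cont hA h0 h1).mul (by fun_prop)

lemma end_id {F : ℝ → ℂ} (hF : Continuous F) (α : ℝ) {δ : ℝ} (hδ : δ ≠ 0) :
    ∫ θ in α..α + δ, F θ =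
      2 * (∫ θ in α..α + 2 * δ, ((1 - (θ - α) / (2 * δ) : ℝ) : ℂ) * F θ) -
        (∫ θ in α..α + δ, ((1 - (θ - α) / δ : ℝ) : ℂ) * F θ) -
        ∫ θ in α + δ..α + 2 * δ, ((2 - (θ - α) / δ : ℝ) : ℂ) * F θ := by
  have h1 : 2 * (∫ θ in α..α + 2 * δ, ((1 - (θ - α) / (2 * δ) : ℝ) : ℂ) * F θ) =
      ∫ θ in α..α + 2 * δ, ((2 - (θ - α) / δ : ℝ) : ℂ) * F θ := by
    rw [← intervalIntegral.integral_const_mul]
    congr 1
    funext θ
    have : (δ : ℂ) ≠ 0 := by exact_mod_cast hδ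
    push_cast; field_simp
  rw [h1, ← intervalIntegral.integral_add_adjacent_intervals (a := α) (b := α + δ) (c := α + 2 * δ)
    ((by fun_prop : Continuous _).intervalIntegrable _ _)
    ((by fun_prop : Continuous _).intervalIntegrable _ _), add_sub_right_comm, add_sub_cancel_right,
    ← intervalIntegral.integral_sub ((by fun_prop : Continuous _).intervalIntegrable _ _)
      ((by fun_prop : Continuous _).intervalIntegrable _ _)]
  congr 1
  funext θ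
  push_cast; ring

lemma gap_bound {a : ℕ → ℂ} {A M α β : ℝ} (hA : ∀ n, ‖a n‖ ≤ A) (hab : α < β)
    (hα : ∀ n, ‖∑ k ∈ range n, a k * exp (α * I) ^ k‖ ≤ M)
    (hβ : ∀ n, ‖∑ k ∈ range n, a k * exp (β * I) ^ k‖ ≤ M) {r : ℝ} (h0 : 0 ≤ r) (h1 : r < 1)
    (N : ℕ) : ‖∫ θ in α..β, FF a r N θ‖ ≤ 2 * (M * (5 * π + 1)) * (β - α) := by
  have hF := FF_cont hA h0 h1 N
  have hl : β - α ≠ 0 := by linarith
  have hl' : α - β ≠ 0 := by linarith
  have t1 := halftent hα h0 h1 N hl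
  have t2 := halftent hβ h0 h1 N hl'
  rw [add_sub_cancel, abs_of_pos (by linarith)] at t1
  rw [add_sub_cancel, abs_of_neg (by linarith), intervalIntegral.integral_symm, norm_neg] at t2
  have : ∫ θ in α..β, FF a r N θ =
      (∫ θ in α..β, ((1 - (θ - α) / (β - α) : ℝ) : ℂ) * FF a r N θ) +
      ∫ θ in α..β, ((1 - (θ - β) / (α - β) : ℝ) : ℂ) * FF a r N θ := by
    rw [← intervalIntegral.integral_add ((by fun_prop : Continuous _).intervalIntegrable _ _)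
      ((by fun_prop : Continuous _).intervalIntegrable _ _)]
    congr 1
    funext θ
    rw [← add_mul, ← ofReal_add]
    have : 1 - (θ - α) / (β - α) + (1 - (θ - β) / (α - β)) = 1 := by field_simp; ring
    rw [this]; simp
  rw [this]
  refine (norm_add_le _ _).trans ?_
  linarith

lemma gap_approx {a : ℕ → ℂ} {A M α β c : ℝ} (hA : ∀ n, ‖a n‖ ≤ A) (hab : α < β)
    (hca : c ≤ α) (hcb : β ≤ c + 2 * π)
    (hα : ∀ n, ‖∑ k ∈ range n, a k * exp (α * I) ^ k‖ ≤ M)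
    (hβ : ∀ n, ‖∑ k ∈ range n, a k * exp (β * I) ^ k‖ ≤ M)
    (hK : ∀ x y, α < x → y < β → ∃ B, ∀ r, 0 ≤ r → r < 1 → ∀ θ ∈ Set.Icc x y, ‖fs a r θ‖ ≤ B)
    {ε : ℝ} (hε : 0 < ε) :
    ∃ v : ℝ → ℕ → ℂ, L2b v ∧ ∀ r, 0 ≤ r → r < 1 → ∀ N,
      ‖(∫ θ in α..β, FF a r N θ) - v r N‖ ≤ ε := by
  have hM0 : 0 ≤ M := (norm_nonneg _).trans (hα 0)
  set C := M * (5 * π + 1) with hC
  have hC0 : 0 ≤ C := by positivity
  obtain ⟨δ, hδ, hδ1, hδ2⟩ : ∃ δ : ℝ, 0 < δ ∧ δ ≤ (β - α) / 4 ∧ δ ≤ ε / (10 * C + 1) :=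
    ⟨min ((β - α) / 4) (ε / (10 * C + 1)), lt_min (by linarith) (by positivity), min_le_left _ _,
      min_le_right _ _⟩
  obtain ⟨B, hB⟩ := hK (α + δ) (β - δ) (by linarith) (by linarith)
  have hB0 : 0 ≤ B := (norm_nonneg _).trans (hB 0 le_rfl one_pos (α + δ) ⟨le_rfl, by linarith⟩)
  have l1 : L2b (fun r N => ∫ θ in α + δ..α + 2 * δ,
      (((2 - (θ - α) / δ : ℝ) : ℂ) * fs a r θ) * exp (-(N * θ * I))) := by
    refine bessel_int (c := c) (B := 1 * B) ⟨by linarith, by linarith⟩ ⟨by linarith, by linarith⟩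
      (fun r h0 h1 => (by fun_prop : Continuous _).mul (fs_cont hA h0 h1)) ?_
    intro r h0 h1 θ hθ
    rw [Set.uIcc_of_le (by linarith)] at hθ
    rw [norm_mul, norm_real, Real.norm_eq_abs]
    refine mul_le_mul ?_ (hB r h0 h1 θ ⟨hθ.1, by linarith [hθ.2]⟩) (norm_nonneg _) zero_le_one
    have u1 : 1 ≤ (θ - α) / δ := by rw [le_div_iff₀ hδ]; linarith [hθ.1]
    have u2 : (θ - α) / δ ≤ 2 := by rw [div_le_iff₀ hδ]; linarith [hθ.2]
    rw [abs_le]; constructor <;> linarith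
  have l2 : L2b (fun r N => ∫ θ in α + δ..β + -δ, fs a r θ * exp (-(N * θ * I))) := by
    refine bessel_int (c := c) (B := B) ⟨by linarith, by linarith⟩ ⟨by linarith, by linarith⟩
      (fun r h0 h1 => fs_cont hA h0 h1) ?_
    intro r h0 h1 θ hθ
    rw [Set.uIcc_of_le (by linarith)] at hθ
    exact hB r h0 h1 θ ⟨hθ.1, by linarith [hθ.2]⟩
  have l3 : L2b (fun r N => ∫ θ in β + -δ..β + 2 * -δ,
      (((2 - (θ - β) / -δ : ℝ) : ℂ) * fs a r θ) * exp (-(N * θ * I))) := by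
    refine bessel_int (c := c) (B := 1 * B) ⟨by linarith, by linarith⟩ ⟨by linarith, by linarith⟩
      (fun r h0 h1 => (by fun_prop : Continuous _).mul (fs_cont hA h0 h1)) ?_
    intro r h0 h1 θ hθ
    rw [Set.uIcc_of_ge (by linarith)] at hθ
    rw [norm_mul, norm_real, Real.norm_eq_abs]
    refine mul_le_mul ?_ (hB r h0 h1 θ ⟨by linarith [hθ.1], by linarith [hθ.2]⟩) (norm_nonneg _)
      zero_le_one
    have e : (θ - β) / -δ = (β - θ) / δ := by field_simp; ring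
    have u1 : 1 ≤ (β - θ) / δ := by rw [le_div_iff₀ hδ]; linarith [hθ.2]
    have u2 : (β - θ) / δ ≤ 2 := by rw [div_le_iff₀ hδ]; linarith [hθ.1]
    rw [e, abs_le]; constructor <;> linarith
  refine ⟨_, (l1.neg.add l2).add l3, fun r h0 h1 N => ?_⟩
  have hF := FF_cont hA h0 h1 N
  have e1 := end_id hF α hδ.ne'
  have e2 := end_id hF β (neg_ne_zero.mpr hδ.ne')
  have t1 := halftent hα h0 h1 N (l := 2 * δ) (by positivity)
  have t2 := halftent hα h0 h1 N hδ.ne'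
  have t3 := halftent hβ h0 h1 N (l := 2 * -δ) (by linarith)
  have t4 := halftent hβ h0 h1 N (neg_ne_zero.mpr hδ.ne')
  rw [abs_of_pos (by linarith)] at t1 t2
  rw [abs_of_neg (by linarith)] at t3 t4
  have s1 : ∫ θ in α..β, FF a r N θ = (∫ θ in α..α + δ, FF a r N θ) +
      (∫ θ in α + δ..β + -δ, FF a r N θ) - ∫ θ in β..β + -δ, FF a r N θ := by
    rw [intervalIntegral.integral_add_adjacent_intervals (hF.intervalIntegrable _ _)
      (hF.intervalIntegrable _ _), intervalIntegral.integral_symm (β + -δ) β, sub_neg_eq_add,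
      intervalIntegral.integral_add_adjacent_intervals (hF.intervalIntegrable _ _)
      (hF.intervalIntegrable _ _)]
  have ea : ∀ (x : ℂ) (θ : ℝ), x * fs a r θ * exp (-(N * θ * I)) = x * FF a r N θ :=
    fun x θ => mul_assoc _ _ _
  simp only [ea]
  change ‖(∫ θ in α..β, FF a r N θ) - (-(∫ θ in α + δ..α + 2 * δ,
    ((2 - (θ - α) / δ : ℝ) : ℂ) * FF a r N θ) + (∫ θ in α + δ..β + -δ, FF a r N θ) +
      ∫ θ in β + -δ..β + 2 * -δ, ((2 - (θ - β) / -δ : ℝ) : ℂ) * FF a r N θ)‖ ≤ ε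
  rw [s1, e1, e2]
  generalize (∫ θ in α..α + 2 * δ, ((1 - (θ - α) / (2 * δ) : ℝ) : ℂ) * FF a r N θ) = X1 at t1 ⊢
  generalize (∫ θ in α..α + δ, ((1 - (θ - α) / δ : ℝ) : ℂ) * FF a r N θ) = X2 at t2 ⊢
  generalize (∫ θ in β..β + 2 * -δ, ((1 - (θ - β) / (2 * -δ) : ℝ) : ℂ) * FF a r N θ) = X3 at t3 ⊢
  generalize (∫ θ in β..β + -δ, ((1 - (θ - β) / -δ : ℝ) : ℂ) * FF a r N θ) = X4 at t4 ⊢
  have : ∀ Y1 Y2 Y3 : ℂ, 2 * X1 - X2 - Y1 + Y2 - (2 * X3 - X4 - Y3) - (-Y1 + Y2 + Y3) =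
      (2 * X1 - X2) - (2 * X3 - X4) := fun _ _ _ => by ring
  rw [this]
  have n1 := norm_sub_le (2 * X1 - X2) (2 * X3 - X4)
  have n2 := norm_sub_le (2 * X1) X2
  have n3 := norm_sub_le (2 * X3) X4
  have n4 : ∀ X : ℂ, ‖2 * X‖ = 2 * ‖X‖ := fun X => by simp
  rw [n4] at n2 n3
  rw [le_div_iff₀ (by positivity)] at hδ2
  nlinarith

end Pool.Agent.H6.Tau
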