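import Mathlib
import Pool.Agent.H6.TauB

set_option autoImplicit false

open Complex MeasureTheory Filter Topology Finset
open scoped Real

namespace Pool.Agent.H6.Tau

lemma total_int {a : ℕ → ℂ} {A : ℝ} (hA : ∀ n, ‖a n‖ ≤ A) {r : ℝ} (h0 : 0 ≤ r) (h1 : r < 1)
    (N : ℕ) (c : ℝ) : ∫ θ in c..c + 2 * π, FF a r N θ = 2 * π * (a N * r ^ N) := by
  have he : ∀ θ : ℝ, ‖exp (-(N * θ * I))‖ = 1 := fun θ => by
    have : -((N : ℂ) * θ * I) = ((-(N * θ) : ℝ) : ℂ) * I := by push_cast; ring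
    rw [this, norm_exp_ofReal_mul_I]
  have hb : ∀ (n : ℕ) (θ : ℝ), ‖a n * ((r : ℂ) * exp (θ * I)) ^ n‖ ≤ A * r ^ n := fun n θ => by
    rw [norm_mul, norm_pow, norm_rexp h0]
    gcongr; exact hA n
  have hs := (summable_geometric_of_lt_one h0 h1).mul_left A
  have H := intervalIntegral.hasSum_integral_of_dominated_convergence (μ := volume)
    (a := c) (b := c + 2 * π)
    (F := fun (n : ℕ) (θ : ℝ) => a n * ((r : ℂ) * exp (θ * I)) ^ n * exp (-(N * θ * I)))
    (f := FF a r N) (fun n _ => A * r ^ n)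
    (fun n => (by fun_prop : Continuous _).aestronglyMeasurable)
    (fun n => Eventually.of_forall fun t _ => by rw [norm_mul, he, mul_one]; exact hb n t)
    (Eventually.of_forall fun t _ => hs) intervalIntegrable_const
    (Eventually.of_forall fun t _ =>
      (Summable.of_norm_bounded hs (fun n => hb n t)).hasSum.mul_right _)
  have e : ∀ (n : ℕ) (θ : ℝ), a n * ((r : ℂ) * exp (θ * I)) ^ n * exp (-(N * θ * I)) =
      a n * r ^ n * exp ((((n : ℂ) - N) * I) * θ) := fun n θ => by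
    have : exp ((((n : ℂ) - N) * I) * θ) = exp (θ * I) ^ n * exp (-(N * θ * I)) := by
      rw [← exp_nat_mul, ← exp_add]; congr 1; ring
    rw [this]; ring
  simp only [e, intervalIntegral.integral_const_mul] at H
  have H2 := hasSum_single (f := fun n : ℕ => a n * r ^ n *
      ∫ θ in c..c + 2 * π, exp ((((n : ℂ) - N) * I) * θ)) N (by
    intro n hn
    have hk : ((n : ℂ) - N) * I ≠ 0 :=
      mul_ne_zero (sub_ne_zero.mpr (by exact_mod_cast hn)) I_ne_zero
    rw [integral_exp_mul_complex hk]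
    have : ((n : ℂ) - N) * I * ((c + 2 * π : ℝ) : ℂ) =
        ((n : ℂ) - N) * I * c + (((n : ℤ) - N : ℤ) : ℂ) * (2 * π * I) := by push_cast; ring
    rw [this, exp_add, exp_int_mul_two_pi_mul_I]
    simp)
  rw [H.unique H2]
  simp
  ring

theorem approx_all {a : ℕ → ℂ} {A M c : ℝ} {E : Set ℝ} (hA : ∀ n, ‖a n‖ ≤ A) (hE : IsClosed E)
    (hc : c ∈ E) (hc' : c + 2 * π ∈ E)
    (hM : ∀ α ∈ E, ∀ n, ‖∑ k ∈ range n, a k * exp (α * I) ^ k‖ ≤ M)
    (hK : ∀ x y, (∀ θ ∈ Set.Icc x y, θ ∉ E) →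
      ∃ B, ∀ r, 0 ≤ r → r < 1 → ∀ θ ∈ Set.Icc x y, ‖fs a r θ‖ ≤ B)
    {ε : ℝ} (hε : 0 < ε) :
    ∃ v : ℝ → ℕ → ℂ, L2b v ∧ ∀ r : ℝ, 0 ≤ r → r < 1 → ∀ N,
      ‖2 * π * (a N * r ^ N) - v r N‖ ≤ 2 * ε := by
  classical
  have hpi : 0 < 2 * π := by positivity
  have hM0 : 0 ≤ M := (norm_nonneg _).trans (hM c hc 0)
  set C := 2 * (M * (5 * π + 1)) with hC
  have hC0 : 0 ≤ C := by positivity
  let β : ℝ → ℝ := fun α => sInf (E ∩ Set.Ioi α)
  let G : Set ℝ := {α | α ∈ E ∧ c ≤ α ∧ α < c + 2 * π ∧ α < β α}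
  have hbdd : ∀ α, BddBelow (E ∩ Set.Ioi α) := fun α => ⟨α, fun e he => le_of_lt he.2⟩
  have hβle : ∀ α e, e ∈ E → α < e → β α ≤ e := fun α e he h => csInf_le (hbdd α) ⟨he, h⟩
  have hβE : ∀ α, α < c + 2 * π → β α ∈ E := fun α h =>
    hE.closure_subset (closure_mono Set.inter_subset_left
      (csInf_mem_closure ⟨c + 2 * π, hc', h⟩ (hbdd α)))
  have hdisj : G.PairwiseDisjoint (fun α => Set.Ioo α (β α)) := by
    intro x hx y hy hxy
    rw [Function.onFun, Set.disjoint_left]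
    intro θ h1 h2
    rcases lt_or_gt_of_ne hxy with h | h
    · linarith [hβle x y hy.1 h, h1.2, h2.1]
    · linarith [hβle y x hx.1 h, h2.2, h1.1]
  have hcount : G.Countable := hdisj.countable_of_Ioo fun x hx => hx.2.2.2
  haveI : Countable G := hcount.to_subtype
  have hunion : (⋃ α : G, Set.Ioo (α : ℝ) (β α)) = Set.Ioc c (c + 2 * π) \ E := by
    ext θ
    simp only [Set.mem_iUnion]
    constructor
    · rintro ⟨⟨α, hα⟩, h1, h2⟩
      have := hβle α _ hc' hα.2.2.1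
      refine ⟨⟨by linarith [hα.2.1], by linarith⟩, fun hθ => ?_⟩
      linarith [hβle α θ hθ h1]
    · rintro ⟨⟨h1, h2⟩, h3⟩
      have hb : BddAbove (E ∩ Set.Iic θ) := ⟨θ, fun e he => he.2⟩
      have hne : (E ∩ Set.Iic θ).Nonempty := ⟨c, hc, h1.le⟩
      have hmem := (hE.inter isClosed_Iic).csSup_mem hne hb
      set α := sSup (E ∩ Set.Iic θ) with hα
      have hlt : α < θ := lt_of_le_of_ne hmem.2 (fun h => h3 (h ▸ hmem.1))
      have hα2 : α < c + 2 * π := by linarith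
      have hge : θ ≤ β α := by
        refine le_csInf ⟨c + 2 * π, hc', hα2⟩ fun e he => ?_
        by_contra hcon
        have := le_csSup hb (⟨he.1, (not_le.mp hcon).le⟩ : e ∈ E ∩ Set.Iic θ)
        exact absurd he.2 (not_lt.mpr this)
      have hlt2 : θ < β α := lt_of_le_of_ne hge (fun h => h3 (h ▸ hβE α hα2))
      exact ⟨⟨α, hmem.1, le_csSup hb ⟨hc, h1.le⟩, hα2, by linarith⟩, hlt, hlt2⟩
  have hpd : Pairwise (Function.onFun Disjoint (fun α : G => Set.Ioo (α : ℝ) (β α))) :=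
    fun x y hxy => hdisj x.2 y.2 (fun h => hxy (Subtype.ext h))
  have hlen : HasSum (fun α : G => β α - α) (∫ _ in ⋃ α : G, Set.Ioo (α : ℝ) (β α), (1 : ℝ)) := by
    have := hasSum_integral_iUnion (μ := volume) (f := fun _ : ℝ => (1 : ℝ))
      (fun α : G => measurableSet_Ioo) hpd (by
        rw [hunion]
        exact (integrableOn_const (by rw [Real.volume_Ioc]; exact ENNReal.ofReal_ne_top) (by simp)).mono_set
          (Set.diff_subset : _ ⊆ Set.Ioc c (c + 2 * π)))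
    have e : (fun α : G => ∫ _ in Set.Ioo (α : ℝ) (β α), (1 : ℝ)) = fun α : G => β α - α := by
      funext α
      have := α.2.2.2.2
      simp [this.le]
    rwa [e] at this
  set L := ∫ _ in ⋃ α : G, Set.Ioo (α : ℝ) (β α), (1 : ℝ)
  obtain ⟨S, hS⟩ : ∃ S : Finset G, L - ∑ α ∈ S, (β α - α) ≤ ε / (C + 1) := by
    have h1 : ∀ᶠ S : Finset G in atTop, L - ε / (C + 1) < ∑ α ∈ S, (β α - (α : ℝ)) :=
      hlen.eventually (lt_mem_nhds (by
        have : 0 < ε / (C + 1) := by positivity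
        linarith))
    obtain ⟨S, hS⟩ := h1.exists
    exact ⟨S, by linarith⟩
  have hgap : ∀ α : G, ∃ v : ℝ → ℕ → ℂ, L2b v ∧ ∀ r, 0 ≤ r → r < 1 → ∀ N,
      ‖(∫ θ in (α : ℝ)..β α, FF a r N θ) - v r N‖ ≤ ε / (S.card + 1) := by
    rintro ⟨α, hα⟩
    refine gap_approx (c := c) hA hα.2.2.2 hα.2.1 (hβle α _ hc' hα.2.2.1) (hM α hα.1)
      (hM _ (hβE α hα.2.2.1)) (fun x y hx hy => hK x y fun θ hθ hθE => ?_) (by positivity)
    linarith [hβle α θ hθE (by linarith [hθ.1]), hθ.2]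
  choose v hv1 hv2 using hgap
  have hEpart : L2b (fun r N => ∫ θ in Set.Ioc c (c + 2 * π) ∩ E,
      fs a r θ * exp (-(N * θ * I))) := by
    refine bessel (c := c) (B := M) (measurableSet_Ioc.inter hE.measurableSet)
      Set.inter_subset_left (fun r h0 h1 => fs_cont hA h0 h1) ?_
    intro r h0 h1 θ hθ
    have hw : ‖(r : ℂ)‖ < 1 := by rwa [norm_real, Real.norm_of_nonneg h0]
    have H := abel (hM θ hθ.2) hw
    rw [mul_comm (exp (θ * I))] at H
    refine le_of_tendsto' H.tendsto_sum_nat.norm fun K => ?_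
    calc _ ≤ ∑ n ∈ range K, M * (r ^ n - r ^ (n + 1)) := by
          refine (norm_sum_le _ _).trans (sum_le_sum fun n _ => ?_)
          have h2 : 0 ≤ r ^ n - r ^ (n + 1) := by
            rw [pow_succ]; nlinarith [pow_nonneg h0 n]
          rw [norm_mul, ← ofReal_pow, ← ofReal_pow, ← ofReal_sub, norm_real, Real.norm_of_nonneg h2]
          gcongr
          exact hM θ hθ.2 _
      _ ≤ M := by
          rw [← mul_sum, sum_range_sub' (fun n => r ^ n)]
          nlinarith [pow_nonneg h0 K]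
  refine ⟨_, hEpart.add (L2b.sum S fun α _ => hv1 α), fun r h0 h1 N => ?_⟩
  have hF := FF_cont hA h0 h1 N
  have hint : IntegrableOn (FF a r N) (Set.Ioc c (c + 2 * π)) :=
    (hF.intervalIntegrable c (c + 2 * π)).1
  have hsplit := integral_inter_add_diff (μ := volume) hE.measurableSet hint
  rw [← total_int hA h0 h1 N c, intervalIntegral.integral_of_le (by linarith), ← hsplit]
  have hsum := hasSum_integral_iUnion (μ := volume) (f := FF a r N)
    (fun α : G => measurableSet_Ioo) hpd (by rw [hunion]; exact hint.mono_set Set.diff_subset)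
  rw [hunion] at hsum
  have e : (fun α : G => ∫ θ in Set.Ioo (α : ℝ) (β α), FF a r N θ) =
      fun α : G => ∫ θ in (α : ℝ)..β α, FF a r N θ := by
    funext α
    rw [intervalIntegral.integral_of_le α.2.2.2.2.le, integral_Ioc_eq_integral_Ioo]
  rw [e] at hsum
  set T := ∫ θ in Set.Ioc c (c + 2 * π) \ E, FF a r N θ
  have htail : ‖T - ∑ α ∈ S, ∫ θ in (α : ℝ)..β α, FF a r N θ‖ ≤ C * (L - ∑ α ∈ S, (β α - α)) := by
    refine le_of_tendsto_of_tendsto ((hsum.sub_const _).norm) ((hlen.sub_const _).const_mul C) ?_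
    filter_upwards [eventually_ge_atTop S] with t ht
    rw [← sum_sdiff ht, ← sum_sdiff ht, add_sub_cancel_right, add_sub_cancel_right, mul_sum]
    refine (norm_sum_le _ _).trans (sum_le_sum fun α _ => ?_)
    exact gap_bound hA α.2.2.2.2 (hM α α.2.1) (hM _ (hβE α α.2.2.2.1)) h0 h1 N
  have hfin : ‖(∑ α ∈ S, ∫ θ in (α : ℝ)..β α, FF a r N θ) - ∑ α ∈ S, v α r N‖ ≤ ε := by
    rw [← sum_sub_distrib]
    refine (norm_sum_le _ _).trans ((sum_le_sum fun α _ => hv2 α r h0 h1 N).trans ?_)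
    rw [sum_const, nsmul_eq_mul, mul_div_assoc', div_le_iff₀ (by positivity)]
    nlinarith
  have h3 : C * (L - ∑ α ∈ S, (β α - α)) ≤ ε := by
    calc _ ≤ C * (ε / (C + 1)) := by gcongr
      _ ≤ ε := by rw [mul_div_assoc', div_le_iff₀ (by positivity)]; nlinarith
  change ‖(∫ θ in Set.Ioc c (c + 2 * π) ∩ E, FF a r N θ) + T -
    ((∫ θ in Set.Ioc c (c + 2 * π) ∩ E, FF a r N θ) + ∑ α ∈ S, v α r N)‖ ≤ 2 * ε
  rw [add_sub_add_left_eq_sub]
  have := norm_sub_le_norm_sub_add_norm_sub T (∑ α ∈ S, ∫ θ in (α : ℝ)..β α, FF a r N θ)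
    (∑ α ∈ S, v α r N)
  linarith

theorem coeff_tendsto {a : ℕ → ℂ}
    (H : ∀ ε : ℝ, 0 < ε → ∃ v : ℝ → ℕ → ℂ, L2b v ∧ ∀ r : ℝ, 0 ≤ r → r < 1 → ∀ N,
      ‖2 * π * (a N * r ^ N) - v r N‖ ≤ 2 * ε) : Tendsto a atTop (𝓝 0) := by
  rw [Metric.tendsto_nhds]
  intro η hη
  obtain ⟨v, ⟨B, hB⟩, hv⟩ := H η hη
  rw [← Nat.cofinite_eq_atTop, eventually_cofinite]
  by_contra hinf
  obtain ⟨K, hK⟩ := exists_nat_gt (B / η ^ 2)
  obtain ⟨s, hs, hcard⟩ := Set.Infinite.exists_subset_card_eq hinf K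
  set m := s.sup id with hm
  set r : ℝ := 1 + -(1 / (2 * ((m : ℝ) + 1))) with hr
  have hq : 0 < 1 / (2 * ((m : ℝ) + 1)) := by positivity
  have hq2 : 1 / (2 * ((m : ℝ) + 1)) ≤ 1 / 2 := by
    apply one_div_le_one_div_of_le (by norm_num)
    have : (0 : ℝ) ≤ m := Nat.cast_nonneg m
    linarith
  have h0 : 0 ≤ r := by linarith
  have h1 : r < 1 := by linarith
  have hlow : ∀ N ∈ s, η ^ 2 ≤ ‖v r N‖ ^ 2 := by
    intro N hN
    have ha : η ≤ ‖a N‖ := by simpa using hs hN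
    have hNm : (N : ℝ) ≤ m := by exact_mod_cast (le_sup (f := id) hN : N ≤ m)
    have hp : 1 / 2 ≤ r ^ N := by
      have := one_add_mul_le_pow (a := -(1 / (2 * ((m : ℝ) + 1)))) (by linarith) N
      refine le_trans ?_ this
      have h3 : (N : ℝ) * (1 / (2 * ((m : ℝ) + 1))) ≤ 1 / 2 := by
        rw [mul_one_div, div_le_iff₀ (by positivity)]; linarith
      linarith
    have h2 := hv r h0 h1 N
    have h3 : ‖(2 * π * (a N * r ^ N) : ℂ)‖ = 2 * π * (‖a N‖ * r ^ N) := by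
      rw [norm_mul, norm_mul, norm_mul, norm_pow, norm_real, norm_real, Real.norm_of_nonneg h0,
        Real.norm_of_nonneg Real.pi_pos.le]
      simp
    have h4 := norm_sub_norm_le (2 * π * (a N * r ^ N) : ℂ) (v r N)
    have h5 : η * (1 / 2) ≤ ‖a N‖ * r ^ N := by gcongr
    have h6 : η ≤ ‖v r N‖ := by nlinarith [Real.pi_gt_three]
    gcongr
  have h7 := (card_nsmul_le_sum s _ _ hlow).trans (hB r h0 h1 s)
  rw [hcard, nsmul_eq_mul] at h7
  rw [div_lt_iff₀ (by positivity)] at hK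
  linarith

end Pool.Agent.H6.Tau
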