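import Mathlib
import Pool.Agent.H6.TauC

set_option autoImplicit false

open Complex MeasureTheory Filter Topology Finset Metric
open scoped Real

namespace Pool.Agent.H6.Tau

lemma q_norm {z w : ℂ} {ρ : ℝ} (hρ : 0 < ρ) (hz : ‖z‖ = 1) (hw : ‖w - z‖ = ρ) :
    ‖(w - z) ^ 2 + (ρ : ℂ) ^ 2 * z * w‖ = |‖w‖ ^ 2 - 1| * ρ := by
  have h1 : z * (starRingEnd ℂ) z = 1 := by
    rw [mul_conj, normSq_eq_norm_sq, hz]; simp
  have h2 : (w - z) * ((starRingEnd ℂ) w - (starRingEnd ℂ) z) = (ρ : ℂ) ^ 2 := by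
    rw [← map_sub, mul_conj, normSq_eq_norm_sq, hw]; simp
  have h3 : w * (starRingEnd ℂ) w = ((‖w‖ ^ 2 : ℝ) : ℂ) := by
    rw [mul_conj, normSq_eq_norm_sq]
  have h4 : (w - z) ^ 2 + (ρ : ℂ) ^ 2 * z * w = z * (((‖w‖ ^ 2 - 1 : ℝ) : ℂ) * (w - z)) := by
    rw [ofReal_sub, ← h3, ← h2, ofReal_one]
    linear_combination (-(w * (w - z))) * h1
  rw [h4, norm_mul, norm_mul, hz, hw, one_mul, norm_real, Real.norm_eq_abs]

theorem fatou_riesz {a : ℕ → ℂ} (ha : Tendsto a atTop (𝓝 0)) {z : ℂ} (hz : ‖z‖ = 1) {R : ℝ}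
    (hR : 0 < R) {g : ℂ → ℂ} (hg : DifferentiableOn ℂ g (ball z R))
    (hgf : ∀ w ∈ ball z R, ‖w‖ < 1 → g w = ∑' n, a n * w ^ n) :
    Tendsto (fun N : ℕ => ∑ n ∈ range N, a n * z ^ n) atTop (𝓝 (g z)) := by
  obtain ⟨ρ, hρ, hρ1, hρ2⟩ : ∃ ρ : ℝ, 0 < ρ ∧ ρ < R ∧ ρ ≤ 1 / 2 :=
    ⟨min (R / 2) (1 / 2), lt_min (by linarith) (by norm_num),
      (min_le_left _ _).trans_lt (by linarith), min_le_right _ _⟩
  have hsub : closedBall z ρ ⊆ ball z R := closedBall_subset_ball hρ1
  obtain ⟨K, hK⟩ := (isCompact_closedBall z ρ).exists_bound_of_continuousOn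
    (hg.continuousOn.mono hsub)
  have hw0 : ∀ w ∈ closedBall z ρ, w ≠ 0 := by
    rintro w hw rfl
    rw [mem_closedBall, dist_eq_norm, zero_sub, norm_neg, hz] at hw
    linarith
  rw [Metric.tendsto_atTop]
  intro η hη
  set ε := ρ * η / 12 with hεdef
  have hε : 0 < ε := by positivity
  obtain ⟨m, hm⟩ := Metric.tendsto_atTop.mp ha ε hε
  have hm' : ∀ n, m ≤ n → ‖a n‖ ≤ ε := fun n hn => by simpa using (hm n hn).le
  set D := K + ∑ n ∈ range m, ‖a n‖ * 2 ^ n with hD
  obtain ⟨N0, hN0⟩ := exists_nat_gt (D / ε)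
  refine ⟨max (max m N0) 1, fun N hN => ?_⟩
  have hNm : m ≤ N := le_trans (le_max_left _ _) (le_trans (le_max_left _ _) hN)
  have hNN : (N0 : ℝ) ≤ N := by
    exact_mod_cast le_trans (le_max_right _ _) (le_trans (le_max_left _ _) hN)
  have hDN : D ≤ ε * N := by
    rw [div_lt_iff₀ hε] at hN0
    nlinarith
  have hmax := Complex.norm_le_of_forall_mem_frontier_norm_le (U := ball z ρ) isBounded_ball
    (f := fun w => ((w - z) ^ 2 + (ρ : ℂ) ^ 2 * z * w) *
      ((g w - ∑ n ∈ range N, a n * w ^ n) / w ^ N)) (C := 6 * ρ * ε) (z := z)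
    (DifferentiableOn.diffContOnCl (by
      rw [closure_ball z hρ.ne']
      refine DifferentiableOn.mul (by fun_prop) (DifferentiableOn.div
        ((hg.mono hsub).sub (by fun_prop)) (by fun_prop) fun w hw => pow_ne_zero _ (hw0 w hw))))
    (by
      intro w hw
      rw [frontier_ball z hρ.ne', mem_sphere, dist_eq_norm] at hw
      have hwc : w ∈ closedBall z ρ := by rw [mem_closedBall, dist_eq_norm, hw]
      have hx0 : 0 < ‖w‖ := norm_pos_iff.mpr (hw0 w hwc)
      have hx2 : ‖w‖ ≤ 2 := by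
        have := norm_le_norm_add_norm_sub' w z
        linarith
      rw [norm_mul, q_norm hρ hz hw, norm_div, norm_pow]
      have hp : 0 < ‖w‖ ^ N := by positivity
      rcases lt_trichotomy ‖w‖ 1 with h | h | h
      · have hs : Summable (fun n => a n * w ^ n) := by
          rw [← summable_nat_add_iff m]
          refine Summable.of_norm_bounded
            ((summable_geometric_of_lt_one hx0.le h).mul_left ε) fun n => ?_
          rw [norm_mul, norm_pow]
          exact mul_le_mul (hm' _ (by omega)) (pow_le_pow_of_le_one hx0.le h.le (by omega))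
            (by positivity) hε.le
        have h1 : g w - ∑ n ∈ range N, a n * w ^ n = ∑' n, a (n + N) * w ^ (n + N) := by
          rw [hgf w (hsub hwc) h, ← hs.sum_add_tsum_nat_add N]; ring
        have h2 : ‖∑' n, a (n + N) * w ^ (n + N)‖ ≤ ε * ‖w‖ ^ N * (1 - ‖w‖)⁻¹ := by
          refine tsum_of_norm_bounded ((hasSum_geometric_of_lt_one hx0.le h).mul_left _) fun n => ?_
          rw [norm_mul, norm_pow, pow_add, mul_comm (‖w‖ ^ n), ← mul_assoc]
          gcongr
          exact hm' _ (by omega)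
        rw [h1, abs_of_neg (by nlinarith)]
        have h3 : ‖∑' n, a (n + N) * w ^ (n + N)‖ / ‖w‖ ^ N ≤ ε * (1 - ‖w‖)⁻¹ := by
          rw [div_le_iff₀ hp]; linarith
        have h4 : 0 < 1 - ‖w‖ := by linarith
        calc _ ≤ -(‖w‖ ^ 2 - 1) * ρ * (ε * (1 - ‖w‖)⁻¹) := by
              gcongr
              have : 0 ≤ -(‖w‖ ^ 2 - 1) := by nlinarith
              positivity
          _ = (1 + ‖w‖) * (ρ * ε) := by field_simp; ring
          _ ≤ 6 * (ρ * ε) := by gcongr; linarith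
          _ = _ := by ring
      · rw [h]; simp; positivity
      · set x := ‖w‖ with hx
        have h1 : ‖g w - ∑ n ∈ range N, a n * w ^ n‖ ≤ D + ε * ∑ n ∈ range N, x ^ n := by
          refine (norm_sub_le _ _).trans ?_
          have h2 : ‖∑ n ∈ range N, a n * w ^ n‖ ≤
              ∑ n ∈ range m, ‖a n‖ * 2 ^ n + ε * ∑ n ∈ range N, x ^ n := by
            refine (norm_sum_le _ _).trans ?_
            rw [← sum_range_add_sum_Ico _ hNm, mul_sum]
            refine add_le_add (sum_le_sum fun n _ => ?_) ?_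
            · rw [norm_mul, norm_pow]; gcongr
            · calc _ ≤ ∑ n ∈ Ico m N, ε * x ^ n := by
                    refine sum_le_sum fun n hn => ?_
                    rw [norm_mul, norm_pow]
                    gcongr
                    exact hm' n (mem_Ico.mp hn).1
                _ ≤ _ := by
                    refine sum_le_sum_of_subset_of_nonneg ?_ (fun _ _ _ => by positivity)
                    intro n hn
                    exact mem_range.mpr (mem_Ico.mp hn).2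
          linarith [hK w hwc]
        have h3 : (x - 1) * ∑ n ∈ range N, x ^ n = x ^ N - 1 := mul_geom_sum x N
        have h4 : 1 + (N : ℝ) * (x - 1) ≤ x ^ N := by
          have := one_add_mul_le_pow (a := x - 1) (by linarith) N
          rwa [add_sub_cancel] at this
        have h5 : (x - 1) * ‖g w - ∑ n ∈ range N, a n * w ^ n‖ ≤ 2 * ε * x ^ N := by
          calc _ ≤ (x - 1) * (ε * N + ε * ∑ n ∈ range N, x ^ n) := by
                exact mul_le_mul_of_nonneg_left (by linarith) (by linarith)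
            _ = ε * (N * (x - 1)) + ε * ((x - 1) * ∑ n ∈ range N, x ^ n) := by ring
            _ ≤ _ := by rw [h3]; nlinarith
        rw [abs_of_pos (by nlinarith), ← mul_div_assoc, div_le_iff₀ hp]
        calc _ = (x + 1) * ρ * ((x - 1) * ‖g w - ∑ n ∈ range N, a n * w ^ n‖) := by ring
          _ ≤ 3 * ρ * (2 * ε * x ^ N) := by
              have h8 : 0 ≤ x - 1 := by linarith
              exact mul_le_mul (mul_le_mul_of_nonneg_right (by linarith) hρ.le) h5 (by positivity)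
                (by positivity)
          _ = _ := by ring)
    (subset_closure (mem_ball_self hρ))
  simp only [sub_self, ne_eq, OfNat.ofNat_ne_zero, not_false_eq_true, zero_pow, zero_add, norm_mul,
    norm_pow, norm_div, hz, one_pow, mul_one, div_one, norm_real, Real.norm_of_nonneg hρ.le] at hmax
  rw [dist_comm, dist_eq_norm]
  have h6 : ρ ^ 2 * ‖g z - ∑ n ∈ range N, a n * z ^ n‖ < ρ ^ 2 * η := by
    have : 6 * ρ * ε = ρ ^ 2 * η / 2 := by rw [hεdef]; ring
    have h7 : 0 < ρ ^ 2 * η := by positivity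
    linarith
  exact lt_of_mul_lt_mul_left h6 (by positivity)

/-- regular points -/
def Reg (a : ℕ → ℂ) (ξ : ℂ) : Prop :=
  ∃ r : ℝ, 0 < r ∧ ∃ g : ℂ → ℂ, DifferentiableOn ℂ g (ball ξ r) ∧
    ∀ w ∈ ball ξ r, ‖w‖ < 1 → g w = ∑' n, a n * w ^ n

lemma isOpen_reg (a : ℕ → ℂ) : IsOpen {ξ | Reg a ξ} := by
  rw [Metric.isOpen_iff]
  rintro ξ ⟨r, hr, g, hg, hgf⟩
  refine ⟨r, hr, fun ζ hζ => ?_⟩
  obtain ⟨s, hs, hsub⟩ := Metric.isOpen_iff.mp isOpen_ball ζ hζ
  exact ⟨s, hs, g, hg.mono hsub, fun w hw => hgf w (hsub hw)⟩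

lemma reg_bound {a : ℕ → ℂ} {A : ℝ} (hA : ∀ n, ‖a n‖ ≤ A) {x y : ℝ}
    (h : ∀ θ ∈ Set.Icc x y, Reg a (exp (θ * I))) :
    ∃ B, ∀ r, 0 ≤ r → r < 1 → ∀ θ ∈ Set.Icc x y, ‖fs a r θ‖ ≤ B := by
  have hZ : IsCompact ((fun p : ℝ × ℝ => (p.1 : ℂ) * exp (p.2 * I)) ''
      (Set.Icc 0 1 ×ˢ Set.Icc x y)) := (isCompact_Icc.prod isCompact_Icc).image (by fun_prop)
  have key := hZ.induction_on (p := fun S => ∃ B, ∀ w ∈ S, ‖w‖ < 1 → ‖∑' n, a n * w ^ n‖ ≤ B)
    ⟨0, by simp⟩ (fun s t hst ⟨B, hB⟩ => ⟨B, fun w hw => hB w (hst hw)⟩)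
    (fun s t ⟨B, hB⟩ ⟨C, hC⟩ => ⟨max B C, fun w hw h1 => by
      rcases hw with hw | hw
      · exact (hB w hw h1).trans (le_max_left _ _)
      · exact (hC w hw h1).trans (le_max_right _ _)⟩)
    (by
      rintro _ ⟨⟨r, θ⟩, ⟨⟨h0, h1⟩, hθ⟩, rfl⟩
      simp only at h0 h1 hθ ⊢
      rcases h1.lt_or_eq with h1 | rfl
      · refine ⟨ball 0 ((r + 1) / 2), mem_nhdsWithin_of_mem_nhds (isOpen_ball.mem_nhds ?_),
          A * (1 - (r + 1) / 2)⁻¹, fun w hw _ => ?_⟩
        · rw [mem_ball_zero_iff, norm_rexp h0]; linarith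
        · rw [mem_ball_zero_iff] at hw
          refine tsum_of_norm_bounded ((hasSum_geometric_of_lt_one (by linarith)
            (by linarith)).mul_left A) fun n => ?_
          rw [norm_mul, norm_pow]
          have := (norm_nonneg _).trans (hA 0)
          gcongr
          exact hA n
      · obtain ⟨s, hs, g, hg, hgf⟩ := h θ hθ
        rw [ofReal_one, one_mul]
        obtain ⟨K, hK⟩ := (isCompact_closedBall (exp (θ * I)) (s / 2)).exists_bound_of_continuousOn
          (hg.continuousOn.mono (closedBall_subset_ball (by linarith)))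
        refine ⟨closedBall (exp (θ * I)) (s / 2), mem_nhdsWithin_of_mem_nhds
          (closedBall_mem_nhds _ (by linarith)), K, fun w hw h1 => ?_⟩
        rw [← hgf w (closedBall_subset_ball (by linarith) hw) h1]
        exact hK w hw)
  obtain ⟨B, hB⟩ := key
  refine ⟨B, fun r h0 h1 θ hθ => hB _ ⟨(r, θ), ⟨⟨h0, h1.le⟩, hθ⟩, rfl⟩ ?_⟩
  rw [norm_rexp h0]; exact h1

theorem coeff_zero {a : ℕ → ℂ} {M c : ℝ} (hc : ¬ Reg a (exp (c * I)))
    (hM : ∀ ξ : ℂ, ‖ξ‖ = 1 → ¬ Reg a ξ → ∀ N : ℕ, ‖∑ n ∈ range (N + 1), a n * ξ ^ n‖ ≤ M) :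
    Tendsto a atTop (𝓝 0) := by
  have hM' : ∀ α : ℝ, ¬ Reg a (exp (α * I)) → ∀ n, ‖∑ k ∈ range n, a k * exp (α * I) ^ k‖ ≤ M := by
    intro α hα n
    have := hM _ (norm_exp_ofReal_mul_I α) hα
    cases n with
    | zero => simpa using (norm_nonneg _).trans (this 0)
    | succ n => exact this n
  have hA : ∀ n, ‖a n‖ ≤ 2 * M := by
    intro n
    have h1 := hM' c hc n
    have h2 := hM' c hc (n + 1)
    have h3 : ‖a n * exp (c * I) ^ n‖ ≤ 2 * M := by
      have := norm_sub_le (∑ k ∈ range (n + 1), a k * exp (c * I) ^ k)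
        (∑ k ∈ range n, a k * exp (c * I) ^ k)
      rw [sum_range_succ, add_sub_cancel_left, ← sum_range_succ (fun k => a k * exp (c * I) ^ k)]
        at this
      linarith
    rwa [norm_mul, norm_pow, norm_exp_ofReal_mul_I, one_pow, mul_one] at h3
  refine coeff_tendsto fun ε hε => approx_all (E := {θ : ℝ | ¬ Reg a (exp (θ * I))}) (c := c) hA
    ?_ hc ?_ hM' (fun x y h => reg_bound hA fun θ hθ => not_not.mp (h θ hθ)) hε
  · exact ((isOpen_reg a).preimage (f := fun θ : ℝ => exp (θ * I)) (by fun_prop)).isClosed_compl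
  · show ¬ Reg a (exp (((c + 2 * π : ℝ) : ℂ) * I))
    have : ((c + 2 * π : ℝ) : ℂ) * I = c * I + 2 * π * I := by push_cast; ring
    rwa [this, exp_add, exp_two_pi_mul_I, mul_one]

end Pool.Agent.H6.Tau
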